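import Pool.Agent.MP_20d318_ag.AM.LSpec
import Pool.Agent.MP_20d318_ag.CH.Spec

/-! Small modifications of a model with finitely generated section rings: statements. -/

set_option autoImplicit false
set_option linter.unusedSectionVars false

namespace Pool.Agent.MP_20d318_ag.AM

open Pool.Agent.MP_fd6584_ag Pool.Agent.MP_fd6584_ag.Fn Pool.Agent.CBk
open Pool.Agent.MP_fd6584_ag.AG hiding deg_inv deg_congr deg_of_unit deg_mul deg_prod deg_zpow
  deg_eq_zero deg_nonneg deg_div deg_pow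
open Pool.Agent.MVg (Sc Fac Av)
open Pool.Agent.MP_20d318_ag.CH (cl cl_val cl_mem cl_eff n1_ext n1_eq)
open Pool.Agent.MP_20d318_ag.Lat (cone IsCone RP Intg Concl isCone_cone subset_cone)

section defs

variable {k K : Type} [Field k] [Field K] [Algebra k K] (X Z : Set (Subalgebra k K))

/-- Effective divisors. -/
def Ed (e : Subalgebra k K → K) : Prop := IsCart X e ∧ ∀ O ∈ X, e O ∈ O

/-- The integral classes. -/
abbrev LL : AddSubgroup (AG.N1 X) := AddSubgroup.closure (Set.range Cartier.n1)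

/-- Numerically trivial divisors are torsion. -/
def NL : Prop := ∀ f, IsCart X f → cl X f = 0 →
  ∃ (m : ℕ) (μ : K), 0 < m ∧ ∀ O ∈ X, IsU O (μ * f O ^ m)

/-- The sections of the classes in `S` are integral over the ring generated by the `d j`. -/
def Fg {J : Type} [Fintype J] (d : J → Subalgebra k K → K) (S : Set (AG.N1 X)) : Prop :=
  (∀ j, Ed X (d j)) ∧ ∀ e, Ed X e → cl X e ∈ S → ∀ V : Subalgebra k K, IsVal V →
    ∃ (m : ℕ) (a : J → ℕ) (μ : K), 0 < m ∧ μ ∈ V ∧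
      ∀ O ∈ X, IsU O ((μ * ∏ j, d j O ^ a j) / e O ^ m)

/-- Finite generation. -/
def FG (S : Set (AG.N1 X)) : Prop :=
  ∃ (J : Type) (_ : Fintype J) (d : J → Subalgebra k K → K), Fg X d S

/-- Finite generation over every rational polyhedral cone of effective classes. -/
def FS : Prop := ∀ S, RP (LL X) S → S ⊆ Glue.Ef X → FG X S

/-- A rational polyhedral cone meets all orbits of effective classes. -/
def CE : Prop := ∃ S, RP (LL X) S ∧ S ⊆ Glue.Ef X ∧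
  ∀ x ∈ Glue.Ef X, ∃ g : AG.Aut X, g.n1 x ∈ S

/-- No component of `e` passes through `O`. -/
def Un (e : Subalgebra k K → K) (O : Subalgebra k K) : Prop :=
  ∀ P : Place k K, plO P ∈ X → O ≤ plO P → P.ord (e (plO P)) = 0

/-- `O` is the intersection of the prime divisors of `X` above it. -/
def Kr (O : Subalgebra k K) : Prop :=
  ∀ a : K, (∀ P : Place k K, plO P ∈ X → O ≤ plO P → a ∈ plO P) → a ∈ O

/-- The functions that are regular outside `e`. -/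
def BB (e : Subalgebra k K → K) : Subalgebra k K where
  carrier := {b | ∀ P : Place k K, plO P ∈ X → P.ord (e (plO P)) = 0 → b ∈ plO P}
  mul_mem' ha hb P h1 h2 := (plO P).mul_mem (ha P h1 h2) (hb P h1 h2)
  add_mem' ha hb P h1 h2 := (plO P).add_mem (ha P h1 h2) (hb P h1 h2)
  algebraMap_mem' c P _ _ := (plO P).algebraMap_mem c

/-- A multiple of `x` has an effective member that avoids `O`. -/
def SaAt (x : AG.N1 X) (O : Subalgebra k K) : Prop :=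
  ∃ (m : ℕ) (e : Subalgebra k K → K), 0 < m ∧ Ed X e ∧ cl X e = m • x ∧ Un X e O

/-- Moreover `O` is a localization of the ring of functions on the complement. -/
def LcAt (x : AG.N1 X) (O : Subalgebra k K) : Prop :=
  ∃ (m : ℕ) (e : Subalgebra k K → K), 0 < m ∧ Ed X e ∧ cl X e = m • x ∧ Un X e O ∧
    O ≤ fr (BB X e) O

/-- The cone of the classes that avoid `O`. -/
def SO (O : Subalgebra k K) : Set (AG.N1 X) := cone {x | x ∈ LL X ∧ SaAt X x O}

/-- The cone of the classes that are semiample on `Z`. -/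
def SA : Set (AG.N1 X) := {x | ∀ O ∈ Z, x ∈ SO X O}

/-- Integral classes that are ample on `Z`. -/
def Lc (x : AG.N1 X) : Prop := x ∈ LL X ∧ ∀ O ∈ Z, LcAt X x O

/-- The fibre through `O` of the map given by the functions that are regular outside `e`. -/
def Fib (e : Subalgebra k K → K) (O : Subalgebra k K) : Set (Subalgebra k K) :=
  {O' | O' ∈ Z ∧ Un X e O' ∧ ∀ b ∈ BB X e, b ∈ mx O → b ∈ mx O'}

/-- The divisor `f'` is `m` times the divisor `f` in codimension one. -/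
def Mt (f f' : Subalgebra k K → K) (m : ℕ) : Prop :=
  ∀ P : Place k K, plO P ∈ X → P.ord (f' (plO P)) = m * P.ord (f (plO P))

/-- The reference model. -/
structure Ref0 : Prop where
  nice : Nice X
  fac : Fac X
  fd : FiniteDimensional ℝ (AG.N1 X)
  nl : NL X

/-- With first consequences. -/
structure Ref : Prop extends Ref0 X where
  sa : ∀ x ∈ LL X, ∀ O, x ∈ SO X O → SaAt X x O
  ef : ∀ x ∈ LL X, x ∈ Glue.Ef X → ∃ (m : ℕ) (e : Subalgebra k K → K), 0 < m ∧ Ed X e ∧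
    cl X e = m • x
  bet : ∀ x e e' (m m' : ℕ), 0 < m → 0 < m' → IsCart X e → IsCart X e' → cl X e = m • x →
    cl X e' = m' • x → ∃ (β : K) (a b : ℕ), β ≠ 0 ∧ 0 < a ∧ 0 < b ∧ ∀ P : Place k K, plO P ∈ X →
      P.ord β = b * P.ord (e' (plO P)) - a * P.ord (e (plO P))
  lc : ∀ x y O (n : ℕ), 0 < n → LcAt X x O → SaAt X y O → ∀ z, n • z = x + y → LcAt X z O

/-- Other models. -/
structure Md : Prop where
  good : Good Z
  kr : ∀ O ∈ Z, Kr X O

/-- Projective small modifications on which every prime divisor has a Cartier multiple. -/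
structure Sm : Prop where
  nice : Nice Z
  pl : ∀ P : Place k K, plO P ∈ Z ↔ plO P ∈ X
  qf : ∀ P : Place k K, plO P ∈ Z → ∃ f, IsCart Z f ∧ ∀ P' : Place k K, plO P' ∈ Z →
    (P'.ord (f (plO P')) = 0 ↔ P' ≠ P)
  ch : ∃ (J : Type) (_ : Finite J) (𝒞 : Pj.Charts k K J), Z = Sch.pts 𝒞

/-- Divisors correspond. -/
structure Upd : Prop where
  up : ∀ f, IsCart X f → ∃ (m : ℕ) (f' : Subalgebra k K → K), 0 < m ∧ IsCart Z f' ∧ Mt X f f' m
  dn : ∀ f', IsCart Z f' → ∃ f, IsCart X f ∧ Mt X f f' 1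

/-- The map on classes. -/
structure Ps (Ψ : AG.N1 X →ₗ[ℝ] AG.N1 Z) : Prop extends Upd X Z where
  mt : ∀ f f' (m : ℕ), IsCart X f → IsCart Z f' → Mt X f f' m → m • Ψ (cl X f) = cl Z f'
  surj : Function.Surjective Ψ
  ef : ∀ x ∈ Glue.Ef X, Ψ x ∈ Glue.Ef Z
  ef' : ∀ y ∈ Glue.Ef Z, ∃ x ∈ Glue.Ef X, Ψ x = y
  aut : ∀ (g : AG.Aut X) (g' : AG.Aut Z), g.1 = g'.1 → ∀ x, Ψ (g.n1 x) = g'.n1 (Ψ x)

/-- Positive degree on all curves. -/
def Pos (y : AG.N1 Z) : Prop := ∀ ν : AG.Curve Z, ¬ RatPt ν.gen → 0 < ν.lin y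

/-- Finitely many rational polyhedral cones occur. -/
def Sig (S : Set (AG.N1 X)) : Prop := ∃ 𝒯 : Set (Set (AG.N1 X)), 𝒯.Finite ∧
  (∀ T ∈ 𝒯, RP (LL X) T) ∧ (∀ O : Subalgebra k K, IsLocalRing O → Kr X O → SO X O ∩ S ∈ 𝒯) ∧
  ∀ Z, Md X Z → SA X Z ∩ S ∈ 𝒯

variable {X}

/-- The image of a model under an automorphism. -/
def Tr (g : AG.Aut X) : Set (Subalgebra k K) := {O | O.comap (g.1 : K →ₐ[k] K) ∈ Z}

variable {Z} {e e' f g : Subalgebra k K → K} {O O' : Subalgebra k K} {x y : AG.N1 X}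

theorem mem_BB {b : K} :
    b ∈ BB X e ↔ ∀ P : Place k K, plO P ∈ X → P.ord (e (plO P)) = 0 → b ∈ plO P := Iff.rfl

theorem BB_le (h : Kr X O) (hu : Un X e O) : BB X e ≤ O :=
  fun b hb => h b fun P h1 h2 => hb P h1 (hu P h1 h2)

theorem Un.mono (h : Un X e O) (hle : O ≤ O') : Un X e O' := fun P a b => h P a (hle.trans b)

theorem Ed.ord (h : Ed X e) {P : Place k K} (hP : plO P ∈ X) : 0 ≤ P.ord (e (plO P)) :=
  mem_plO_ord.1 (h.2 _ hP)

theorem ed_of (hX : Nice X) (h : IsCart X e)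
    (he : ∀ P : Place k K, plO P ∈ X → 0 ≤ P.ord (e (plO P))) : Ed X e :=
  ⟨h, fun _ hO => hX.eff h hO fun P a _ => he P a⟩

theorem Ed.mul (h : Ed X e) (h' : Ed X e') : Ed X (e * e') :=
  ⟨h.1.mul h'.1, fun O hO => O.mul_mem (h.2 O hO) (h'.2 O hO)⟩

theorem Ed.pow (h : Ed X e) (n : ℕ) : Ed X (e ^ n) :=
  ⟨h.1.pow n, fun O hO => O.pow_mem (h.2 O hO) n⟩

theorem ed_one : Ed X 1 := ⟨isCart_one, fun O _ => O.one_mem⟩

theorem Ed.ef (h : Ed X e) : cl X e ∈ Glue.Ef X := cl_eff h.1 h.2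

theorem LcAt.sa (h : LcAt X x O) : SaAt X x O :=
  let ⟨m, e, a, b, c, d, _⟩ := h; ⟨m, e, a, b, c, d⟩

theorem SaAt.so (h : SaAt X x O) (hx : x ∈ LL X) : x ∈ SO X O := subset_cone _ ⟨hx, h⟩

theorem SaAt.ef (h : SaAt X x O) : x ∈ Glue.Ef X :=
  let ⟨_, _, a, b, c, _⟩ := h; IsCone.of_nsmul (isCone_cone _) a (c ▸ b.ef)

theorem isCone_SO : IsCone (SO X O) := isCone_cone _

theorem SO_ef : SO X O ⊆ Glue.Ef X := (isCone_cone _).cone_subset fun _ h => h.2.ef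

theorem isCone_SA : IsCone (SA X Z) :=
  ⟨fun _ _ => isCone_SO.zero, fun _ a _ b O h => isCone_SO.add _ (a O h) _ (b O h),
    fun c hc _ a O h => isCone_SO.smul c hc _ (a O h)⟩

theorem Lc.mem (h : Lc X Z x) : x ∈ SA X Z := fun O hO => (h.2 O hO).sa.so h.1

theorem SA_ef (h : Good Z) : SA X Z ⊆ Glue.Ef X := fun _ hx =>
  let ⟨O, hO, _⟩ := h.cpl ⊤ fun _ => Or.inl trivial; SO_ef (hx O hO)

theorem Fg.mono {J : Type} [Fintype J] {d : J → Subalgebra k K → K} {S S' : Set (AG.N1 X)}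
    (h : Fg X d S) (hS : S' ⊆ S) : Fg X d S' := ⟨h.1, fun e a b => h.2 e a (hS b)⟩

theorem FG.mono {S S' : Set (AG.N1 X)} (h : FG X S) (hS : S' ⊆ S) : FG X S' :=
  let ⟨J, i, d, a⟩ := h; ⟨J, i, d, a.mono hS⟩

theorem Sm.md (h : Sm X Z) : Md X Z :=
  ⟨h.nice.toGood, fun _ hO _ ha => h.nice.krull hO fun P a => ha P ((h.pl P).1 a)⟩

theorem lt_LL (h : FiniteDimensional ℝ (AG.N1 X)) : Lt (LL X) :=
  ⟨h, _, Glue.cvint, fun _ hx => n1_ext fun ν => by rw [map_zero]; exact hx _ ⟨ν, rfl⟩⟩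

variable [IsAlgClosed k]

theorem cl_mul (hX : Good X) (hf : IsCart X f) (hg : IsCart X g) :
    cl X (f * g) = cl X f + cl X g := n1_ext fun ν => by
  rw [map_add, cl_val (hf.mul hg), cl_val hf, cl_val hg, deg_mul hX hf hg, Int.cast_add]

theorem cl_unit (hX : Good X) (hf : IsCart X f) (h : ∀ O ∈ X, IsU O (f O)) : cl X f = 0 :=
  n1_ext fun ν => by rw [cl_val hf, deg_eq_zero hX hf h, map_zero, Int.cast_zero]

theorem cl_one (hX : Good X) : cl X 1 = 0 := cl_unit hX isCart_one fun _ _ => isU_one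

theorem cl_zpow (hX : Good X) (hf : IsCart X f) (n : ℤ) : cl X (f ^ n) = n • cl X f :=
  n1_ext fun ν => by
    rw [map_zsmul, cl_val (hf.zpow n), cl_val hf, deg_zpow hX hf, Int.cast_mul, zsmul_eq_mul]

theorem cl_pow (hX : Good X) (hf : IsCart X f) (n : ℕ) : cl X (f ^ n) = n • cl X f := by
  simpa using cl_zpow hX hf n

theorem cl_inv (hX : Good X) (hf : IsCart X f) : cl X f⁻¹ = - cl X f := by
  simpa using cl_zpow hX hf (-1)

theorem cl_div (hX : Good X) (hf : IsCart X f) (hg : IsCart X g) :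
    cl X (f / g) = cl X f - cl X g := by
  rw [div_eq_mul_inv, cl_mul hX hf hg.inv, cl_inv hX hg, sub_eq_add_neg]

theorem cl_prod (hX : Good X) {ι : Type*} {s : Finset ι} {f : ι → Subalgebra k K → K}
    (h : ∀ i ∈ s, IsCart X (f i)) : cl X (∏ i ∈ s, f i) = ∑ i ∈ s, cl X (f i) := n1_ext fun ν => by
  rw [map_sum, cl_val (isCart_prod h), deg_prod hX h, Int.cast_sum]
  exact Finset.sum_congr rfl fun i hi => (cl_val (h i hi) ν).symm

theorem cl_cmul (hX : Good X) (hf : IsCart X f) {μ : K} (hμ : μ ≠ 0) :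
    cl X (fun O => μ * f O) = cl X f := n1_ext fun ν => by
  rw [cl_val (f := fun O => μ * f O) ((isCart_const hμ).mul hf), cl_val hf, deg_cmul hX hf hμ]

/-- Linearly equivalent divisors have the same class. -/
theorem cl_lin (hX : Good X) (hf : IsCart X f) (hg : IsCart X g) {μ : K}
    (h : ∀ O ∈ X, IsU O (μ * f O / g O)) : cl X f = cl X g := by
  obtain ⟨O, hO, -⟩ := hX.cpl ⊤ fun _ => Or.inl trivial
  have hμ : μ ≠ 0 := left_ne_zero_of_mul (div_ne_zero_iff.1 (h O hO).1).1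
  rw [← cl_cmul hX hf hμ]
  exact n1_ext fun ν => by
    rw [cl_val (f := fun O => μ * f O) ((isCart_const hμ).mul hf), cl_val hg,
      deg_congr (f := fun O => μ * f O) hX ((isCart_const hμ).mul hf) hg h]

theorem mem_LL (hX : Good X) : x ∈ LL X ↔ ∃ f, IsCart X f ∧ cl X f = x := by
  refine ⟨fun h => ?_, fun ⟨f, a, b⟩ => b ▸ cl_mem a⟩
  induction h using AddSubgroup.closure_induction with
  | mem x hx => obtain ⟨D, rfl⟩ := hx; exact ⟨D.f, D.isCart, (n1_eq D).symm⟩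
  | zero => exact ⟨1, isCart_one, cl_one hX⟩
  | add x y _ _ a b =>
    obtain ⟨f, a1, rfl⟩ := a
    obtain ⟨g, b1, rfl⟩ := b
    exact ⟨f * g, a1.mul b1, cl_mul hX a1 b1⟩
  | neg x _ a => obtain ⟨f, a1, rfl⟩ := a; exact ⟨f⁻¹, a1.inv, cl_inv hX a1⟩

end defs

/-! ### Rows -/

/-- A property of models in a field. -/
def KRow (p : ∀ {k K : Type} [Field k] [Field K] [Algebra k K], Set (Subalgebra k K) → Prop) :
    Prop := ∀ (k K : Type) [Field k] [IsAlgClosed k] [Field K] [Algebra k K]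
  (X : Set (Subalgebra k K)), p X

/-- A property of a small modification. -/
def ZRow (p : ∀ {k K : Type} [Field k] [Field K] [Algebra k K] (X Z : Set (Subalgebra k K)),
    (AG.N1 X →ₗ[ℝ] AG.N1 Z) → Prop) : Prop :=
  KRow fun X => Ref X → ∀ Z, Sm X Z → ∀ Ψ, Ps X Z Ψ → p X Z Ψ

/-- REF. -/
def RefStmt : Prop := SolStmt.{1} → KRow fun X => Ref0 X → Ref X

/-- CPT: quasi-compactness. -/
def CptStmt : Prop := KRow fun X => Fine X → ∀ E : Set (_ → _), (∀ e ∈ E, IsCart X e) →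
  (∀ O ∈ X, ∃ e ∈ E, IsU O (e O)) → ∃ F ⊆ E, F.Finite ∧ ∀ O ∈ X, ∃ e ∈ F, IsU O (e O)

/-- UPD. -/
def UpdStmt : Prop := KRow fun X => Ref X → ∀ Z, Sm X Z → Upd X Z

/-- PSI. -/
def PsiStmt : Prop := ExtStmt.{1} → SolStmt.{1} →
  KRow fun X => Ref X → ∀ Z, Sm X Z → Upd X Z → ∃ Ψ, Ps X Z Ψ

/-- The degrees of classes that avoid the generic point of a curve. -/
structure Dg {k K : Type} [Field k] [Field K] [Algebra k K] (X Z : Set (Subalgebra k K))
    (Ψ : AG.N1 X →ₗ[ℝ] AG.N1 Z) : Prop where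
  nn : ∀ ν : AG.Curve Z, ∀ x ∈ SO X ν.gen, 0 ≤ ν.lin (Ψ x)
  zero : ∀ (ν : AG.Curve Z) e, IsCart X e → (∀ Q, Un X e (ν.pt Q)) → ν.lin (Ψ (cl X e)) = 0
  pos : ∀ x, Lc X Z x → Pos Z (Ψ x)

/-- DEG. -/
def DegStmt : Prop := ZRow fun X Z Ψ => Dg X Z Ψ

/-- HYP: the hyperplane class. -/
def HypStmt : Prop := KRow fun X => Ref X → ∀ Z, Sm X Z → Upd X Z → ∃ a, Lc X Z a

/-- SIG: finitely many chambers. -/
def SigStmt : Prop := IntStmt.{1} → KRow fun X => Ref X → ∀ S, RP (LL X) S → FG X S → Sig X S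

/-- EFC: the effective cone. -/
def EfcStmt : Prop := IntStmt.{1} → KRow fun X => Ref X → ∀ S, RP (LL X) S → FG X S →
  ∃ T, RP (LL X) T ∧ T ⊆ Glue.Ef X ∧ Glue.Ef X ∩ S ⊆ T

/-- AMP: ample classes absorb every class. -/
def AmpStmt : Prop := KRow fun X => Ref X → ∀ Z, Sm X Z → Upd X Z → ∀ ρ, Lc X Z ρ → ∀ O ∈ Z,
  ∀ v, ∃ N : ℝ, 0 < N ∧ N • ρ + v ∈ SO X O

/-- FIBA: the fibres are closed and contain the centres of valuations. -/
def FibaStmt : Prop := KRow fun X => Ref X → ∀ Z, Md X Z → ∀ x e (m : ℕ), 0 < m → Ed X e →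
  cl X e = m • x → (∀ O ∈ Z, SaAt X x O) → ∀ O ∈ Z, Un X e O →
    (∀ V, IsVal V → Dom (fr (BB X e) O) V → ∃ O' ∈ Fib X Z e O, O' ≤ V) ∧
    (RatPt O → ∀ C, ∀ O'' ∈ Z, O'' ∈ Pts C →
      (∀ u ∈ C, (∀ O' ∈ Fib X Z e O, C ≤ O' → u ∈ mx O') → u ∈ mx O'') → O'' ∈ Fib X Z e O)

/-- ALG: closed subsets of an affine variety. -/
def AlgStmt : Prop := ∀ (k K : Type) [Field k] [IsAlgClosed k] [Field K] [Algebra k K]
  (C : Subalgebra k K), C.FG → (∀ O ∈ Pts C, ∃ O₀ ∈ Pts C, RatPt O₀ ∧ O₀ ≤ O) ∧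
    ∀ J ⊆ (C : Set K), {O | O ∈ Pts C ∧ J ⊆ mx O}.Finite ∨
      ∃ O ∈ Pts C, J ⊆ mx O ∧ Dim O 1 ∧ ¬ Dim O 0

/-- LZA: finite fibres are points. -/
def LzaStmt : Prop := KRow fun X => ∀ Z, Sm X Z → ∀ e, ∀ O ∈ Z, Un X e O →
  (∀ V, IsVal V → Dom (fr (BB X e) O) V → ∃ O' ∈ Fib X Z e O, O' ≤ V) → (Fib X Z e O).Finite →
    O ≤ fr (BB X e) O

/-- The conclusion of LZB. -/
def Lzb : Prop := ZRow fun X Z Ψ => ∀ ρ ∈ LL X, ρ ∈ SA X Z → Pos Z (Ψ ρ) → Lc X Z ρ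

/-- LZB: semiample and positive classes are ample. -/
def LzbStmt : Prop := FibaStmt → AlgStmt → LzaStmt → DegStmt → Lzb

/-- The conclusion of OPN. -/
def Opn : Prop := ZRow fun X Z Ψ => ∀ S, IsCone S → Sig X S → ∀ y ∈ SA X Z ∩ S, Pos Z (Ψ y) →
  ∀ v, y + v ∈ S → ∃ δ : ℝ, 0 < δ ∧ δ ≤ 1 ∧ y + δ • v ∈ SA X Z

/-- OPN: the ample cone is open. -/
def OpnStmt : Prop := AmpStmt → DegStmt → Lzb → Opn

/-- The conclusion of NEF. -/
def Nef : Prop := ZRow fun X Z Ψ => (∀ S, RP (LL X) S → S ⊆ Glue.Ef X → Sig X S) →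
  ∀ a, Lc X Z a → ∀ x ∈ Glue.Ef X, (∀ ν : AG.Curve Z, 0 ≤ ν.lin (Ψ x)) → x ∈ SA X Z

/-- NEF: effective nef classes are semiample. -/
def NefStmt : Prop := RayStmt.{1} → DegStmt → Opn → Nef

/-- DET: an ample class determines the model. -/
def DetStmt : Prop := KRow fun X => Ref X → ∀ Z Z', Md X Z → Md X Z' → ∀ ρ, Lc X Z ρ → Lc X Z' ρ →
  Z = Z'

/-- TRN: transport by automorphisms. -/
def TrnStmt : Prop := KRow fun X => Ref X → ∀ (g : AG.Aut X) Z, (Md X Z → Md X (Tr Z g)) ∧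
  (∀ x, g.n1 x ∈ SA X (Tr Z g) ↔ x ∈ SA X Z) ∧ ∀ x, Lc X Z x → Lc X (Tr Z g) (g.n1 x)

/-- The conclusion of CHM. -/
def Chm : Prop := KRow fun X => Ref X → ∀ Z, Md X Z → ∀ S, Sig X S →
  (∀ x ∈ Glue.Ef X, ∃ g : AG.Aut X, g.n1 x ∈ S) → ∀ a, Lc X Z a →
    ∃ Q, RP (LL X) Q ∧ Q ⊆ SA X Z ∧ ∀ x ∈ SA X Z, ∀ ε : ℝ, 0 < ε →
      ∃ (g : AG.Aut X) (g' : AG.Aut Z), g.1 = g'.1 ∧ g.n1 (x + ε • a) ∈ Q

/-- CHM: finitely many chambers up to automorphisms. -/
def ChmStmt : Prop := DetStmt → TrnStmt → Chm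

/-- The cone theorem for all small modifications. -/
def Mod : Prop := KRow fun X => Ref X → FS X → CE X → ∀ Z, Sm X Z → ConeStatement Z

/-- END. -/
def EndStmt : Prop := LooStmt.{1} → RayStmt.{1} → AmpStmt → DegStmt → Opn → Nef → Chm →
  ZRow fun X Z _ => (∀ S, RP (LL X) S → S ⊆ Glue.Ef X → Sig X S) → CE X →
    ∀ a, Lc X Z a → ConeStatement Z

/-- The rows on models. -/
structure MM : Prop where
  sol : SolStmt.{1}
  ext : ExtStmt.{1}
  int : IntStmt.{1}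
  ray : RayStmt.{1}
  loo : LooStmt.{1}
  ref : RefStmt
  upd : UpdStmt
  psi : PsiStmt
  deg : DegStmt
  hyp : HypStmt
  sig : SigStmt
  efc : EfcStmt
  amp : AmpStmt
  fiba : FibaStmt
  alg : AlgStmt
  lza : LzaStmt
  lzb : LzbStmt
  opn : OpnStmt
  nef : NefStmt
  det : DetStmt
  trn : TrnStmt
  chm : ChmStmt
  en : EndStmt

theorem MM.mod (m : MM) : Mod := by
  intro k K _ _ _ _ X r fs ce Z s
  have u := m.upd k K X r Z s
  obtain ⟨Ψ, p⟩ := m.psi m.ext m.sol k K X r Z s u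
  obtain ⟨a, ha⟩ := m.hyp k K X r Z s u
  have o := m.opn m.amp m.deg (m.lzb m.fiba m.alg m.lza m.deg)
  exact m.en m.loo m.ray m.amp m.deg o (m.nef m.ray m.deg o) (m.chm m.det m.trn) k K X r Z s Ψ p
    (fun S a b => m.sig m.int k K X r S a (fs S a b)) ce a ha

end Pool.Agent.MP_20d318_ag.AM
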