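import Pool.Agent.MP_20d318_ag.KK.Stmt
import Pool.Agent.MP_fd6584_ag.MV.Stmt

/-! Normal varieties, Cartier multiples of prime divisors, isomorphisms in codimension one. -/

set_option autoImplicit false

open AlgebraicGeometry CategoryTheory

namespace Pool.Agent.MP_20d318_ag.AM

open Pool.Agent.MP_fd6584_ag Pool.Agent.MP_fd6584_ag.Pj

/-- All local rings are integrally closed. -/
def Normal (X : Scheme.{0}) : Prop := ∀ x : X, IsIntegrallyClosed (X.presheaf.stalk x)

/-- Every point `x` of codimension one is the only point of codimension at most one at which the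
equation of some Cartier divisor is not a unit. -/
def QFact (X : Scheme.{0}) [IsIntegral X] : Prop :=
  ∀ x : X, Codim1 x → x ≠ genericPoint X →
    ∃ D : CDiv X, ∀ y, Codim1 y → (UnitAt y (D.eqn y) ↔ y ≠ x)

/-- An isomorphism of function fields over `k` under which the local ring at every point of
codimension at most one of either variety is a local ring of the other. -/
def SmallMod {k : Type} [Field k] {X X' : Scheme.{0}} [IsIntegral X] [IsIntegral X']
    (s : X ⟶ Spec (CommRingCat.of k)) (s' : X' ⟶ Spec (CommRingCat.of k)) : Prop :=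
  ∃ σ : X.functionField ≃+* X'.functionField, (∀ c, σ (const s c) = const s' c) ∧
    (∀ x, Codim1 x → ∃ x', ∀ f, RegAt x' (σ f) ↔ RegAt x f) ∧
    ∀ x', Codim1 x' → ∃ x, ∀ f, RegAt x' (σ f) ↔ RegAt x f

end Pool.Agent.MP_20d318_ag.AM
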