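import Pool.Agent.MP_20d318_ag.AM.TRev
import Pool.Agent.MP_20d318_ag.AM.Stmt
import Pool.Agent.MP_20d318_ag.AM.MSpec
import Pool.Agent.MP_20d318_ag.CC.Brg
import Pool.Agent.MP_fd6584_ag.MV.RowsG

/-! Small modifications: from sets of local rings to schemes. -/

set_option autoImplicit false
set_option linter.unusedSectionVars false

namespace Pool.Agent.MP_20d318_ag.AM

open AlgebraicGeometry
open Pool.Agent.MP_fd6584_ag Pool.Agent.MP_fd6584_ag.Fn Pool.Agent.CBk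
open Pool.Agent.MP_fd6584_ag.AG hiding deg_inv deg_congr deg_of_unit deg_mul deg_prod deg_zpow
  deg_eq_zero deg_nonneg deg_div deg_pow
open Pool.Agent.MP_fd6584_ag.Sch Pool.Agent.MVg Pool.Agent.MVg.SchA

variable {k K J J' : Type} [Field k] [IsAlgClosed k] [Field K] [Algebra k K]

theorem fine_pts [Finite J] (𝒞 : Pj.Charts k K J) : Fine (pts 𝒞) := by
  choose G hG using id 𝒞.fg
  have le : ∀ {i j} {O₁ O₂ W : Subalgebra k K}, O₁ ∈ Pts (𝒞.B i) → O₂ ∈ Pts (𝒞.B j) → O₁ ≤ W →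
      Dom O₂ W → 𝒞.B i ≤ O₂ := fun {i j O₁ O₂ W} h1 h2 a b c hc => by
    have hr := h2.2.1 (𝒞.ratio i j)
    have hu : IsU O₂ (𝒞.f i / 𝒞.f j) := b.2 _ hr ⟨div_ne_zero (𝒞.f_ne _) (𝒞.f_ne _), b.1 hr,
      inv_div (𝒞.f i) _ ▸ a (h1.2.1 (𝒞.ratio j i))⟩
    obtain ⟨n, hn⟩ := 𝒞.comp i j c hc
    have := (hu.pow n).div_mem (h2.2.1 hn)
    rwa [mul_div_cancel_left₀ _ (hu.pow n).1] at this
  refine ⟨⟨fun O hO => ?_, fun O₁ h1 O₂ h2 W _ a b => ?_, fun V hV => ?_, fun O hO => ?_⟩,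
    Set.range fun j => (G j : Set K), Set.finite_range _, ?_, ?_⟩
  · obtain ⟨j, h⟩ := Set.mem_iUnion.1 hO
    exact h.1
  · obtain ⟨i, h1⟩ := Set.mem_iUnion.1 h1
    obtain ⟨j, h2⟩ := Set.mem_iUnion.1 h2
    exact Pts_eq h1 h2 (le h1 h2 a.1 b) (le h2 h1 b.1 a) a b
  · obtain ⟨j, hj⟩ := 𝒞.proper hV.vs V.algebraMap_mem
    obtain ⟨O, h1, h2⟩ := exists_ctr (R := 𝒞.B j) hV.isLocalRing hj
    exact ⟨O, Set.mem_iUnion.2 ⟨j, h1⟩, h2⟩
  · obtain ⟨j, h⟩ := Set.mem_iUnion.1 hO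
    exact ⟨G j, (G j).finite_toSet, (hG j).symm ▸ h,
      (hG j).symm ▸ Set.subset_iUnion (fun j => Pts (𝒞.B j)) j⟩
  · rintro _ ⟨j, rfl⟩
    refine ⟨(G j).finite_toSet, (hG j).symm ▸ fun f => ?_⟩
    obtain ⟨a, ha, b, hb, h0, h⟩ := 𝒞.frac j f
    exact ⟨a, ha, b, hb, h0, eq_div_of_mul_eq h0 h⟩
  · rw [Set.biUnion_range]
    simp only [hG]
    rfl

variable {𝒞 : Pj.Charts k K J} {𝒞' : Pj.Charts k K J'}

theorem nice_pts [Finite J] (N : Pj.Model 𝒞) (h : Normal N.X) : Nice (pts 𝒞) := by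
  refine ⟨fine_pts 𝒞, fun O hO f hf => ?_⟩
  have := Krull.isFractionRing ((fine_pts 𝒞).frac hO)
  obtain ⟨x, rfl⟩ := exists_OA N hO
  have := h x
  have := IsIntegrallyClosed.of_equiv (toOA N x)
  obtain ⟨y, rfl⟩ := (isIntegrallyClosed_iff K).1 this hf
  exact y.2

theorem OA_gen (N : Pj.Model 𝒞) : OA N (genericPoint N.X) = ⊤ :=
  eq_top_iff.2 fun a _ => ⟨N.e.symm a, (N.ev_gen _).trans (N.e.apply_symm_apply a)⟩

theorem sm_pts [Finite J'] (N : Pj.Model 𝒞) (N' : Pj.Model 𝒞') (hX : Nice (pts 𝒞))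
    (h1 : Normal N'.X) (h2 : QFact N'.X) (σ : N.X.functionField ≃+* N'.X.functionField)
    (hσ : ∀ f, N'.e (σ f) = N.e f)
    (h3 : ∀ x, Codim1 x → ∃ x', ∀ f, RegAt x' (σ f) ↔ RegAt x f)
    (h4 : ∀ x', Codim1 x' → ∃ x, ∀ f, RegAt x' (σ f) ↔ RegAt x f) : Sm (pts 𝒞) (pts 𝒞') := by
  have hZ := nice_pts N' h1
  have e : ∀ x x', (∀ f, RegAt x' (σ f) ↔ RegAt x f) → OA N' x' = OA N x := fun x x' h =>
    Subalgebra.ext fun a => by
      obtain ⟨f, rfl⟩ := N.e.surjective a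
      rw [← reg_iff, ← h, reg_iff, hσ]
  have pt : ∀ P : Place k K, plO P ∈ pts 𝒞' → ∃ y, OA N' y = plO P ∧ Codim1 y := fun P hP => by
    obtain ⟨y, hy⟩ := exists_OA N' hP
    exact ⟨y, hy, (codim_iff codim_stmt hZ y).2 (Or.inr ⟨P, hy.symm⟩)⟩
  refine ⟨hZ, fun P => ⟨fun hP => ?_, fun hP => ?_⟩, fun P hP => ?_, J', inferInstance, 𝒞', rfl⟩
  · obtain ⟨y, hy, hc⟩ := pt P hP
    obtain ⟨x, hx⟩ := h4 y hc
    exact hy ▸ e x y hx ▸ OA_mem x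
  · obtain ⟨x, hx⟩ := exists_OA N hP
    obtain ⟨y, hy⟩ := h3 x ((codim_iff codim_stmt hX x).2 (Or.inr ⟨P, hx.symm⟩))
    exact hx ▸ e x y hy ▸ OA_mem y
  · obtain ⟨x, hx, hc⟩ := pt P hP
    obtain ⟨D, hD⟩ := h2 x hc fun h => plO_ne_top P (by rw [← hx, h, OA_gen])
    obtain ⟨E, hE⟩ := exists_cart D
    refine ⟨E.f, E.loc, fun P' hP' => ?_⟩
    obtain ⟨y, hy, hc'⟩ := pt P' hP'
    have h5 := hD y hc'
    rw [unit_iff, ← hE, hy, isU_plO'] at h5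
    have h0 : E.f (plO P') ≠ 0 := by
      rw [← hy, hE]
      exact (map_ne_zero _).2 (D.ne y)
    refine ((and_iff_right h0).symm.trans h5).trans (not_congr ⟨fun h => ?_, fun h => ?_⟩)
    · exact plO_inj (by rw [← hx, ← hy, h])
    · exact OA_inj (by rw [hx, hy, h])

theorem sch (N : Pj.Model 𝒞) (hX : Nice (pts 𝒞)) (h : ∀ Z, Sm (pts 𝒞) Z → ConeStatement Z)
    (X' : Scheme.{0}) [IsIntegral X'] (s' : X' ⟶ Spec (CommRingCat.of k))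
    (h0 : Pj.IsProjective s') (h1 : Normal X') (h2 : QFact X') (h3 : SmallMod N.s s') :
    CC.NefConj s' := by
  obtain ⟨σ, a, b, c⟩ := h3
  obtain ⟨J', _, 𝒞', ch, p1, p2, p3, p4, p5, e⟩ := rev h0 (σ.symm.trans N.e) fun r => by
    rw [← a, RingEquiv.trans_apply, σ.symm_apply_apply, N.e_const]
  let N' : Pj.Model 𝒞' := ⟨X', s', ch, h0, inferInstance, p1, p2, p3, p4, p5⟩
  exact CC.bridge N' (h _ (sm_pts N N' hX h1 h2 σ
    (fun f => (DFunLike.congr_fun e _).trans (congrArg N.e (σ.symm_apply_apply f))) b c))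

end Pool.Agent.MP_20d318_ag.AM
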