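import Pool.Agent.MP_20d318_ag.AM.SSpec
import Pool.Agent.MP_20d318_ag.CH.BSpec

/-! Finite generation on the surface: statements. -/

set_option autoImplicit false
set_option linter.unusedSectionVars false

namespace Pool.Agent.MP_20d318_ag.AM

open Pool.Agent.MP_fd6584_ag.Fn Pool.Agent.CBk
open Pool.Agent.MP_fd6584_ag.AG hiding deg_inv deg_congr deg_of_unit deg_mul deg_prod deg_zpow
  deg_eq_zero deg_nonneg deg_div deg_pow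
open Pool.Agent.MP_20d318_ag.CB Pool.Agent.MP_20d318_ag.CB.P
open Pool.Agent.MP_fd6584_ag.MV (LA LM S1L Is)
open Pool.Agent.MP_20d318_ag.CH (lv0 ldN Iso)
open Pool.Agent.MP_20d318_ag.Lat (cone)

section lattice

variable {ι κ : Type} [Fintype ι] [Fintype κ] (Λ : Ld ι κ)

/-- The classes of rational prime divisors. -/
def Ra : Set (ι → ℤ) := {c | c ∈ Λ.P ∧ ip Λ.B c c + ip Λ.B Λ.K c = -2}

/-- Those that are orthogonal to `y`. -/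
def Nu (y : ι → ℤ) : Set (ι → ℤ) := {c | c ∈ Ra Λ ∧ ip Λ.B y c = 0}

/-- Nef classes of positive square. -/
def NB (y : ι → ℤ) : Prop := Λ.Nef y ∧ 0 < ip Λ.B y y

/-- Nef classes orthogonal to an isotropic `F`. -/
def NF : Prop := ip Λ.B Λ.F Λ.F = 0 → ∀ Z ∈ Λ.NT, ip Λ.B Z (toR Λ.F) = 0 →
  ∃ q : ℝ, 0 ≤ q ∧ Z = q • toR Λ.F

/-- They are big. -/
def Bg : Prop := ∀ y, NB Λ y → ∀ w, ∃ m : ℕ, 0 < m ∧ m • y - w ∈ Λ.Ef

/-- Rational curves cut out the nef cone. -/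
def Ctr : Prop := ∀ L : ι → ℝ, (∀ c ∈ Ra Λ, 0 ≤ ip Λ.B L (toR c)) → L ∈ Λ.NT

/-- Big classes are sums of rational curves. -/
def Big : Prop := ∀ y, NB Λ y → ∀ w, ∃ m n : ℕ, 0 < m ∧ 0 < n ∧
  m • y - n • w ∈ AddSubmonoid.closure (Ra Λ)

/-- Cycles on the null locus. -/
def Cla : Prop := ∀ y, NB Λ y → ∀ c₀ ∈ Nu Λ y, ∀ N ∈ AddSubmonoid.closure (Nu Λ y), N ≠ 0 →
  ∃ c ∈ Nu Λ y, N - c ∈ AddSubmonoid.closure (Nu Λ y) ∧ ip Λ.B (Λ.K + c₀ + N) c ≤ -1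

/-- Functions that do not increase when a rational curve is added. -/
def Dl (δ : (ι → ℤ) → ℤ) : Prop := ∀ D, ∀ c ∈ Ra Λ, -1 ≤ ip Λ.B D c → δ D ≤ δ (D - c)

/-- Chains of curves. -/
def Chn : Prop := ∀ δ, Dl Λ δ → ∀ y, NB Λ y → ∀ c ∈ Ra Λ,
  ip Λ.B y c = 0 ∨ (∀ c' ∈ Λ.P, 0 < ip Λ.B y c') → ∀ N ∈ AddSubmonoid.closure (Ra Λ),
    ∃ n₀ : ℕ, ∀ n ≥ n₀, δ (n • y - c) ≤ δ (n • y - c - N)

/-- Stabilization. -/
def Stb : Prop := ∀ δ, Dl Λ δ → ∀ y, NB Λ y → (∀ n : ℕ, 0 ≤ δ (n • y)) → ∀ c ∈ Ra Λ,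
  ip Λ.B y c = 0 ∨ (∀ c' ∈ Λ.P, 0 < ip Λ.B y c') → ∃ n : ℕ, 0 < n ∧ δ (n • y - c) ≤ δ (n • y)

/-- The effective cone. -/
structure Efb (G : Set (Matrix ι ι ℤ)) : Prop where
  fin : ∀ R : Set (ι → ℝ), R.Finite → R ⊆ cone (toR '' Λ.P) → ∃ T ⊆ Λ.P, T.Finite ∧
    cone (toR '' Λ.P) ∩ cone (R ∪ ((Set.range fun i => toR (Λ.C i)) ∪
      Set.range fun i => -toR (Λ.C i))) ⊆ cone (toR '' T)
  cov : ∃ T ⊆ Λ.P, T.Finite ∧ ∀ x ∈ cone (toR '' Λ.P), ∃ ρ ∈ G, act ρ x ∈ cone (toR '' T)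

variable {Λ}

theorem nf (m : LM) (h : LA Λ) : NF Λ := fun hF =>
  let ⟨_, T, hT⟩ := endB1_stmt ι κ Λ h.ns h.hg h.l1 hF
  m.nefF ι κ Λ T h hF hT (fun X' => m.cut m.low ι κ Λ X' h hF) (m.vert ι κ Λ h).2

omit [Fintype κ] in
theorem sol_int (h : SolStmt.{0}) {T : Set (ι → ℤ)} {c : ι → ℤ} (hc : toR c ∈ cone (toR '' T)) :
    ∃ m : ℕ, 0 < m ∧ m • c ∈ AddSubmonoid.closure T := by
  obtain ⟨m, a, b⟩ := h _ (MP_fd6584_ag.MV.LI ι) ⟨inferInstance, Set.range LinearMap.proj, by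
    rintro _ ⟨i, rfl⟩ x hx
    obtain ⟨z, rfl⟩ := MP_fd6584_ag.MV.mem_LI.1 hx
    exact ⟨z i, rfl⟩, fun x hx => funext fun i => hx _ ⟨i, rfl⟩⟩ _
    (by rintro _ ⟨z, -, rfl⟩; exact MP_fd6584_ag.MV.mem_LI.2 ⟨z, rfl⟩) _
    (MP_fd6584_ag.MV.mem_LI.2 ⟨c, rfl⟩) hc
  let f : (ι → ℤ) →+ ι → ℝ := ⟨⟨toR, toR_zero⟩, toR_add⟩
  obtain ⟨z, z1, z2⟩ := (AddMonoidHom.map_mclosure f T).ge b
  exact ⟨m, a, toR_inj (z2.trans (map_nsmul f m c).symm) ▸ z1⟩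

end lattice

/-- A property of lattices. -/
def LRow (q : ∀ {ι κ : Type} [Fintype ι] [Fintype κ], Ld ι κ → Prop) : Prop :=
  ∀ (ι κ : Type) [Fintype ι] [Fintype κ] (Λ : Ld ι κ), LA Λ → q Λ

/-- BRAT. -/
def BratStmt : Prop := LRow fun Λ => ∀ N ε, CC.ST Λ.B Λ.K Λ.P N ε → (Ra Λ).Nonempty

/-- BGE. -/
def BgeStmt : Prop := LRow fun Λ => Bg Λ

/-- CTR. -/
def CtrStmt : Prop := LRow fun Λ => NF Λ → Bg Λ → (Ra Λ).Nonempty → Ctr Λ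

/-- BIG. -/
def BigStmt : Prop := SolStmt.{0} → LRow fun Λ => Bg Λ → Ctr Λ → Big Λ

/-- CLA. -/
def ClaStmt : Prop := LRow fun Λ => Cla Λ

/-- CHN. -/
def ChnStmt : Prop := LRow fun Λ => Cla Λ → Chn Λ

/-- STB. -/
def StbStmt : Prop := LRow fun Λ => Big Λ → Chn Λ → Stb Λ

/-- EFB. -/
def EfbStmt : Prop := LM → ∀ (ι κ : Type) [Fintype ι] [DecidableEq ι] [Fintype κ] (Λ : Ld ι κ)
  (G : Set (Matrix ι ι ℤ)), LA Λ → S1L Λ → 1 ∈ G → (∀ ρ ∈ G, ∃ ρ', Is Λ ρ ρ') →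
  (ip Λ.B Λ.F Λ.F = 0 → ∃ N : ℕ, 0 < N ∧ ∀ x, ip Λ.B x Λ.F = 0 → ∃ ρ ∈ G, Λ.Tl ρ ((N : ℤ) • x)) →
    Efb Λ G

section surface

variable {k M I κ : Type} [Field k] [Field M] [Algebra k M] [Fintype I] [Fintype κ]
  (p : Pd k M I κ)

/-- A multiple of `y` has a section that does not vanish at `O`. -/
def SeAt (y : I → ℤ) (O : Subalgebra k M) : Prop :=
  ∃ m : ℕ, 0 < m ∧ ∃ s ∈ p.Sec (m • y), IsU O (s * p.lb (m • y) O)

/-- Sections of a divisor that restrict onto a complete linear system. -/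
def Rsa : Prop := ∀ c φ P, p.Prm c φ P → ∀ D, 0 ≤ ip p.B D c →
  p.h0 (D - c) + ip p.B D c + 1 ≤ p.h0 D → ∀ O ∈ p.T, O ≤ plO P → ∃ s ∈ p.Sec D, IsU O (s * p.lb D O)

/-- Points on rational curves. -/
def Sea : Prop := ∀ y, NB p.ld y → ∀ c ∈ Ra p.ld,
  ip p.B y c = 0 ∨ (∀ c' ∈ p.PP, 0 < ip p.B y c') → ∀ φ P, p.Prm c φ P → ∀ O ∈ p.T, O ≤ plO P →
    SeAt p y O

/-- Finite generation over the monoids generated by finitely many prime divisors. -/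
def Fgb : Prop := ∀ T ⊆ p.PP, T.Finite → ∃ (J : Type) (_ : Fintype J) (d : J → Subalgebra k M → M),
  (∀ j, Ed p.T (d j)) ∧ ∀ D ∈ AddSubmonoid.closure T, ∀ φ ∈ p.Sec D, φ ≠ 0 → ∀ V, IsVal V →
    Mon p.T d V (p.lb D) φ

end surface

/-- A property of surfaces. -/
def PRow (q : ∀ {k M I κ : Type} [Field k] [Field M] [Algebra k M] [Fintype I] [Fintype κ],
    Pd k M I κ → Prop) : Prop :=
  ∀ (k M I κ : Type) [Field k] [NeZero (2 : k)] [IsAlgClosed k] [Field M] [Algebra k M] [Fintype I]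
    [Fintype κ] (p : Pd k M I κ), Pair p → LA p.ld → CC.TA p.toSd → q p

/-- RSA. -/
def RsaStmt : Prop := PRow fun p => Rsa p

/-- SEA. -/
def SeaStmt : Prop := PRow fun p => Stb p.ld → Rsa p → Sea p

/-- SEM. -/
def SemStmt : Prop := PRow fun p => Big p.ld → Sea p → ∀ y, NB p.ld y → ∀ O ∈ p.T, SeAt p y O

/-- SQZ. -/
def SqzStmt : Prop := PRow fun p => ∀ y, p.ld.Nef y → ip p.B y y = 0 → ∀ O ∈ p.T, SeAt p y O

/-- FGB. -/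
def FgbStmt : Prop := SolStmt.{0} → CptStmt →
  PRow fun p => (∀ y, p.ld.Nef y → ∀ O ∈ p.T, SeAt p y O) → Fgb p

/-- BSE. -/
def BseStmt : Prop := SolStmt.{0} → PRow fun p => ∀ G ψ, Iso (ldN p.ld G) (lv0 p).nd ψ →
  (∀ (ν : Curve (lv0 p).Y) x, ν.lin (ψ x) = ip p.B x (toR (p.zz ν))) → Efb p.ld G → Fgb p →
    MD (lv0 p)

/-- The rows on the surface. -/
structure BM : Prop where
  brat : BratStmt
  bge : BgeStmt
  ctr : CtrStmt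
  big : BigStmt
  cla : ClaStmt
  chn : ChnStmt
  stb : StbStmt
  efb : EfbStmt
  rsa : RsaStmt
  sea : SeaStmt
  sem : SemStmt
  sqz : SqzStmt
  fgb : FgbStmt
  bse : BseStmt
  cpt : CptStmt
  sol : SolStmt.{0}

theorem BM.fg (b : BM) (m : LM) {k M I κ : Type} [Field k] [NeZero (2 : k)] [IsAlgClosed k] [Field M]
    [Algebra k M] [Fintype I] [Fintype κ] {p : Pd k M I κ} (h : Pair p) (l : LA p.ld)
    (t : CC.TA p.toSd) {N : ℕ} {ε : ℕ → I → ℤ} (s : CC.ST p.B p.K p.PP N ε) : Fgb p := by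
  have g := b.bge I κ _ l
  have c := b.big b.sol I κ _ l g (b.ctr I κ _ l (nf m l) g (b.brat I κ _ l N ε s))
  have a := b.sea k M I κ p h l t (b.stb I κ _ l c (b.chn I κ _ l (b.cla I κ _ l)))
    (b.rsa k M I κ p h l t)
  exact b.fgb b.sol b.cpt k M I κ p h l t fun y hy => (l.l1.ne y hy).1.lt_or_eq.elim
    (fun q => b.sem k M I κ p h l t c a y ⟨hy, q⟩) fun q => b.sqz k M I κ p h l t y hy q.symm

end Pool.Agent.MP_20d318_ag.AM
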