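import Pool.Agent.MP_20d318_ag.Lat.Loo
import Pool.Agent.MP_20d318_ag.CH.Spec

/-! Statements on models, lattice lemmas. -/

section

set_option autoImplicit false

namespace Pool.Agent.MP_20d318_ag.AM

open Pool.Agent.MP_20d318_ag.Lat

universe u

/-- A lattice: integral forms separate the points. -/
structure Lt {N : Type u} [AddCommGroup N] [Module ℝ N] (L : AddSubgroup N) : Prop where
  fd : FiniteDimensional ℝ N
  sep : ∃ Cv : Set (N →ₗ[ℝ] ℝ), (∀ c ∈ Cv, Intg L c) ∧ ∀ x, (∀ c ∈ Cv, c x = 0) → x = 0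

/-- SOL: lattice points of a cone over lattice points. -/
def SolStmt : Prop := ∀ (N : Type u) [AddCommGroup N] [Module ℝ N] (L : AddSubgroup N), Lt L →
  ∀ R ⊆ (L : Set N), ∀ x ∈ L, x ∈ cone R → ∃ m : ℕ, 0 < m ∧ m • x ∈ AddSubmonoid.closure R

/-- EXT: additive maps on a lattice extend to linear maps. -/
def ExtStmt : Prop := SolStmt.{u} → ∀ (N W : Type u) [AddCommGroup N] [Module ℝ N] [AddCommGroup W]
  [Module ℝ W] (L : AddSubgroup N), Lt L → ∀ F : L →+ W, ∃ Ψ : N →ₗ[ℝ] W, ∀ x : L, Ψ x = F x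

/-- INT: finite intersections. -/
def IntStmt : Prop := ∀ (N : Type u) [AddCommGroup N] [Module ℝ N] (L : AddSubgroup N), Lt L →
  ∀ S, RP L S → ∀ 𝒰 : Set (Set N), 𝒰.Finite → (∀ T ∈ 𝒰, RP L T) → RP L (S ∩ ⋂₀ 𝒰)

/-- RAY: finitely generated cones are closed along rays. -/
def RayStmt : Prop := ∀ (N : Type u) [AddCommGroup N] [Module ℝ N] (R : Finset N) (x a : N),
  (∀ δ : ℝ, 0 < δ → ∃ ε : ℝ, 0 < ε ∧ ε ≤ δ ∧ x + ε • a ∈ cone (R : Set N)) → x ∈ cone (R : Set N)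

/-- LOO: it is enough to cover the points `x + ε a`. -/
def LooStmt : Prop := RayStmt.{u} → ∀ (N : Type u) [AddCommGroup N] [Module ℝ N]
  [FiniteDimensional ℝ N] (L : AddSubgroup N) (C : Set N) (G : Subgroup (N ≃ₗ[ℝ] N))
  (Cv : Set (N →ₗ[ℝ] ℝ)), IsCone C → (∀ c ∈ Cv, Intg L c) → (∀ c ∈ Cv, ∀ x ∈ C, 0 ≤ c x) →
  (∀ x, (∀ c ∈ Cv, c x = 0) → x = 0) → (∀ g ∈ G, ∀ x ∈ L, g x ∈ L) → (∀ g ∈ G, ∀ x ∈ C, g x ∈ C) →
  Submodule.span ℝ C = ⊤ → ∀ P, RP L P → P ⊆ C →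
  (∀ x ∈ C, ∃ (a : N) (Q : Set N), RP L Q ∧ Q ⊆ C ∧ x ∈ Q ∧ a ∈ Q ∧
    ∀ ε : ℝ, 0 < ε → ∃ g ∈ G, g (x + ε • a) ∈ P) → Concl L C G

variable {N : Type u} [AddCommGroup N] [Module ℝ N] {L : AddSubgroup N}

theorem exists_fin {R : Set N} {x : N} (h : x ∈ cone R) :
    ∃ Q : Finset N, (Q : Set N) ⊆ R ∧ x ∈ cone (Q : Set N) :=
  Submodule.mem_span_finite_of_mem_span h

theorem mem_cone_fin {R : Finset N} {x : N} :
    x ∈ cone (R : Set N) ↔ ∃ c : N → ℝ, (∀ r, 0 ≤ c r) ∧ x = ∑ r ∈ R, c r • r := by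
  refine ⟨fun h => ?_, ?_⟩
  · obtain ⟨c, -, rfl⟩ := Submodule.mem_span_finset.1 h
    exact ⟨fun r => c r, fun r => (c r).2, rfl⟩
  · rintro ⟨c, h, rfl⟩
    exact (isCone_cone _).sum_mem _ _ fun r hr =>
      (isCone_cone _).smul _ (h r) _ (subset_cone _ hr)

theorem IsCone.nsmul {S : Set N} (h : IsCone S) (n : ℕ) {x : N} (hx : x ∈ S) : n • x ∈ S := by
  rw [← Nat.cast_smul_eq_nsmul ℝ]
  exact h.smul _ n.cast_nonneg _ hx

theorem IsCone.of_nsmul {S : Set N} (h : IsCone S) {n : ℕ} (hn : 0 < n) {x : N} (hx : n • x ∈ S) :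
    x ∈ S := by
  have := h.smul (n : ℝ)⁻¹ (by positivity) _ hx
  rwa [← Nat.cast_smul_eq_nsmul ℝ, inv_smul_smul₀ (by positivity)] at this

theorem closure_sub {R : Set N} {x : N} (h : x ∈ AddSubmonoid.closure R) : x ∈ cone R := by
  induction h using AddSubmonoid.closure_induction with
  | mem x hx => exact subset_cone _ hx
  | zero => exact (isCone_cone _).zero
  | add x y _ _ a b => exact (isCone_cone _).add _ a _ b

theorem rp_cone {S : Set N} (h : RP L S) : IsCone S := by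
  obtain ⟨R, -, rfl⟩ := h
  exact isCone_cone _

theorem rp_fin {R : Set N} (h : R.Finite) (hL : R ⊆ L) : RP L (cone R) :=
  ⟨h.toFinset, by rwa [h.coe_toFinset], by rw [h.coe_toFinset]⟩

theorem IntStmt.two (h : IntStmt.{u}) (l : Lt L) {S T : Set N} (a : RP L S) (b : RP L T) :
    RP L (S ∩ T) := by
  simpa using h N L l S a {T} (Set.finite_singleton T) (by simpa using b)

end Pool.Agent.MP_20d318_ag.AM

end

section

set_option autoImplicit false
set_option linter.unusedSectionVars false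

namespace Pool.Agent.MP_20d318_ag.AM

open Pool.Agent.MP_fd6584_ag Pool.Agent.MP_fd6584_ag.Fn Pool.Agent.CBk
open Pool.Agent.MP_fd6584_ag.AG hiding deg_inv deg_congr deg_of_unit deg_mul deg_prod deg_zpow
  deg_eq_zero deg_nonneg deg_div deg_pow
open Pool.Agent.MVg (Sc Fac Av)
open Pool.Agent.MP_20d318_ag.CH (cl cl_val cl_mem cl_eff n1_ext n1_eq)
open Pool.Agent.MP_20d318_ag.Lat (cone IsCone RP Intg Concl isCone_cone subset_cone)

section defs

variable {k K : Type} [Field k] [Field K] [Algebra k K] (X Z : Set (Subalgebra k K))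

/-- Effective divisors. -/
def Ed (e : Subalgebra k K → K) : Prop := IsCart X e ∧ ∀ O ∈ X, e O ∈ O

/-- The integral classes. -/
abbrev LL : AddSubgroup (AG.N1 X) := AddSubgroup.closure (Set.range Cartier.n1)

/-- Numerically trivial divisors are torsion. -/
def NL : Prop := ∀ f, IsCart X f → cl X f = 0 →
  ∃ (m : ℕ) (μ : K), 0 < m ∧ ∀ O ∈ X, IsU O (μ * f O ^ m)

/-- The sections of the classes in `S` are integral over the ring generated by the `d j`. -/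
def Fg {J : Type} [Fintype J] (d : J → Subalgebra k K → K) (S : Set (AG.N1 X)) : Prop :=
  (∀ j, Ed X (d j)) ∧ ∀ e, Ed X e → cl X e ∈ S → ∀ V : Subalgebra k K, IsVal V →
    ∃ (m : ℕ) (a : J → ℕ) (μ : K), 0 < m ∧ μ ∈ V ∧
      ∀ O ∈ X, IsU O ((μ * ∏ j, d j O ^ a j) / e O ^ m)

/-- Finite generation. -/
def FG (S : Set (AG.N1 X)) : Prop :=
  ∃ (J : Type) (_ : Fintype J) (d : J → Subalgebra k K → K), Fg X d S

/-- Finite generation over every rational polyhedral cone of effective classes. -/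
def FS : Prop := ∀ S, RP (LL X) S → S ⊆ Glue.Ef X → FG X S

/-- A rational polyhedral cone meets all orbits of effective classes. -/
def CE : Prop := ∃ S, RP (LL X) S ∧ S ⊆ Glue.Ef X ∧
  ∀ x ∈ Glue.Ef X, ∃ g : AG.Aut X, g.n1 x ∈ S

/-- No component of `e` passes through `O`. -/
def Un (e : Subalgebra k K → K) (O : Subalgebra k K) : Prop :=
  ∀ P : Place k K, plO P ∈ X → O ≤ plO P → P.ord (e (plO P)) = 0

/-- `O` is the intersection of the prime divisors of `X` above it. -/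
def Kr (O : Subalgebra k K) : Prop :=
  ∀ a : K, (∀ P : Place k K, plO P ∈ X → O ≤ plO P → a ∈ plO P) → a ∈ O

/-- The functions that are regular outside `e`. -/
def BB (e : Subalgebra k K → K) : Subalgebra k K where
  carrier := {b | ∀ P : Place k K, plO P ∈ X → P.ord (e (plO P)) = 0 → b ∈ plO P}
  mul_mem' ha hb P h1 h2 := (plO P).mul_mem (ha P h1 h2) (hb P h1 h2)
  add_mem' ha hb P h1 h2 := (plO P).add_mem (ha P h1 h2) (hb P h1 h2)
  algebraMap_mem' c P _ _ := (plO P).algebraMap_mem c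

/-- A multiple of `x` has an effective member that avoids `O`. -/
def SaAt (x : AG.N1 X) (O : Subalgebra k K) : Prop :=
  ∃ (m : ℕ) (e : Subalgebra k K → K), 0 < m ∧ Ed X e ∧ cl X e = m • x ∧ Un X e O

/-- Moreover `O` is a localization of the ring of functions on the complement. -/
def LcAt (x : AG.N1 X) (O : Subalgebra k K) : Prop :=
  ∃ (m : ℕ) (e : Subalgebra k K → K), 0 < m ∧ Ed X e ∧ cl X e = m • x ∧ Un X e O ∧
    O ≤ fr (BB X e) O

/-- The cone of the classes that avoid `O`. -/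
def SO (O : Subalgebra k K) : Set (AG.N1 X) := cone {x | x ∈ LL X ∧ SaAt X x O}

/-- The cone of the classes that are semiample on `Z`. -/
def SA : Set (AG.N1 X) := {x | ∀ O ∈ Z, x ∈ SO X O}

/-- Integral classes that are ample on `Z`. -/
def Lc (x : AG.N1 X) : Prop := x ∈ LL X ∧ ∀ O ∈ Z, LcAt X x O

/-- The fibre through `O` of the map given by the functions that are regular outside `e`. -/
def Fib (e : Subalgebra k K → K) (O : Subalgebra k K) : Set (Subalgebra k K) :=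
  {O' | O' ∈ Z ∧ Un X e O' ∧ ∀ b ∈ BB X e, b ∈ mx O → b ∈ mx O'}

/-- The divisor `f'` is `m` times the divisor `f` in codimension one. -/
def Mt (f f' : Subalgebra k K → K) (m : ℕ) : Prop :=
  ∀ P : Place k K, plO P ∈ X → P.ord (f' (plO P)) = m * P.ord (f (plO P))

/-- The reference model. -/
structure Ref0 : Prop where
  nice : Nice X
  fac : Fac X
  fd : FiniteDimensional ℝ (AG.N1 X)
  nl : NL X

/-- With first consequences. -/
structure Ref : Prop extends Ref0 X where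
  sa : ∀ x ∈ LL X, ∀ O, x ∈ SO X O → SaAt X x O
  ef : ∀ x ∈ LL X, x ∈ Glue.Ef X → ∃ (m : ℕ) (e : Subalgebra k K → K), 0 < m ∧ Ed X e ∧
    cl X e = m • x
  bet : ∀ x e e' (m m' : ℕ), 0 < m → 0 < m' → IsCart X e → IsCart X e' → cl X e = m • x →
    cl X e' = m' • x → ∃ (β : K) (a b : ℕ), β ≠ 0 ∧ 0 < a ∧ 0 < b ∧ ∀ P : Place k K, plO P ∈ X →
      P.ord β = b * P.ord (e' (plO P)) - a * P.ord (e (plO P))
  lc : ∀ x y O (n : ℕ), 0 < n → LcAt X x O → SaAt X y O → ∀ z, n • z = x + y → LcAt X z O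

/-- Other models. -/
structure Md : Prop where
  good : Good Z
  kr : ∀ O ∈ Z, Kr X O

/-- Projective small modifications on which every prime divisor has a Cartier multiple. -/
structure Sm : Prop where
  nice : Nice Z
  pl : ∀ P : Place k K, plO P ∈ Z ↔ plO P ∈ X
  qf : ∀ P : Place k K, plO P ∈ Z → ∃ f, IsCart Z f ∧ ∀ P' : Place k K, plO P' ∈ Z →
    (P'.ord (f (plO P')) = 0 ↔ P' ≠ P)
  ch : ∃ (J : Type) (_ : Finite J) (𝒞 : Pj.Charts k K J), Z = Sch.pts 𝒞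

/-- Divisors correspond. -/
structure Upd : Prop where
  up : ∀ f, IsCart X f → ∃ (m : ℕ) (f' : Subalgebra k K → K), 0 < m ∧ IsCart Z f' ∧ Mt X f f' m
  dn : ∀ f', IsCart Z f' → ∃ f, IsCart X f ∧ Mt X f f' 1

/-- The map on classes. -/
structure Ps (Ψ : AG.N1 X →ₗ[ℝ] AG.N1 Z) : Prop extends Upd X Z where
  mt : ∀ f f' (m : ℕ), IsCart X f → IsCart Z f' → Mt X f f' m → m • Ψ (cl X f) = cl Z f'
  surj : Function.Surjective Ψ
  ef : ∀ x ∈ Glue.Ef X, Ψ x ∈ Glue.Ef Z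
  ef' : ∀ y ∈ Glue.Ef Z, ∃ x ∈ Glue.Ef X, Ψ x = y
  aut : ∀ (g : AG.Aut X) (g' : AG.Aut Z), g.1 = g'.1 → ∀ x, Ψ (g.n1 x) = g'.n1 (Ψ x)

/-- Positive degree on all curves. -/
def Pos (y : AG.N1 Z) : Prop := ∀ ν : AG.Curve Z, ¬ RatPt ν.gen → 0 < ν.lin y

/-- Finitely many rational polyhedral cones occur. -/
def Sig (S : Set (AG.N1 X)) : Prop := ∃ 𝒯 : Set (Set (AG.N1 X)), 𝒯.Finite ∧
  (∀ T ∈ 𝒯, RP (LL X) T) ∧ (∀ O : Subalgebra k K, IsLocalRing O → Kr X O → SO X O ∩ S ∈ 𝒯) ∧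
  ∀ Z, Md X Z → SA X Z ∩ S ∈ 𝒯

variable {X}

/-- The image of a model under an automorphism. -/
def Tr (g : AG.Aut X) : Set (Subalgebra k K) := {O | O.comap (g.1 : K →ₐ[k] K) ∈ Z}

variable {Z} {e e' f g : Subalgebra k K → K} {O O' : Subalgebra k K} {x y : AG.N1 X}

theorem mem_BB {b : K} :
    b ∈ BB X e ↔ ∀ P : Place k K, plO P ∈ X → P.ord (e (plO P)) = 0 → b ∈ plO P := Iff.rfl

theorem BB_le (h : Kr X O) (hu : Un X e O) : BB X e ≤ O :=
  fun b hb => h b fun P h1 h2 => hb P h1 (hu P h1 h2)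

theorem Un.mono (h : Un X e O) (hle : O ≤ O') : Un X e O' := fun P a b => h P a (hle.trans b)

theorem Ed.ord (h : Ed X e) {P : Place k K} (hP : plO P ∈ X) : 0 ≤ P.ord (e (plO P)) :=
  mem_plO_ord.1 (h.2 _ hP)

theorem ed_of (hX : Nice X) (h : IsCart X e)
    (he : ∀ P : Place k K, plO P ∈ X → 0 ≤ P.ord (e (plO P))) : Ed X e :=
  ⟨h, fun _ hO => hX.eff h hO fun P a _ => he P a⟩

theorem Ed.mul (h : Ed X e) (h' : Ed X e') : Ed X (e * e') :=
  ⟨h.1.mul h'.1, fun O hO => O.mul_mem (h.2 O hO) (h'.2 O hO)⟩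

theorem Ed.pow (h : Ed X e) (n : ℕ) : Ed X (e ^ n) :=
  ⟨h.1.pow n, fun O hO => O.pow_mem (h.2 O hO) n⟩

theorem ed_one : Ed X 1 := ⟨isCart_one, fun O _ => O.one_mem⟩

theorem Ed.ef (h : Ed X e) : cl X e ∈ Glue.Ef X := cl_eff h.1 h.2

theorem LcAt.sa (h : LcAt X x O) : SaAt X x O :=
  let ⟨m, e, a, b, c, d, _⟩ := h; ⟨m, e, a, b, c, d⟩

theorem SaAt.so (h : SaAt X x O) (hx : x ∈ LL X) : x ∈ SO X O := subset_cone _ ⟨hx, h⟩

theorem SaAt.ef (h : SaAt X x O) : x ∈ Glue.Ef X :=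
  let ⟨_, _, a, b, c, _⟩ := h; IsCone.of_nsmul (isCone_cone _) a (c ▸ b.ef)

theorem isCone_SO : IsCone (SO X O) := isCone_cone _

theorem SO_ef : SO X O ⊆ Glue.Ef X := (isCone_cone _).cone_subset fun _ h => h.2.ef

theorem isCone_SA : IsCone (SA X Z) :=
  ⟨fun _ _ => isCone_SO.zero, fun _ a _ b O h => isCone_SO.add _ (a O h) _ (b O h),
    fun c hc _ a O h => isCone_SO.smul c hc _ (a O h)⟩

theorem Lc.mem (h : Lc X Z x) : x ∈ SA X Z := fun O hO => (h.2 O hO).sa.so h.1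

theorem SA_ef (h : Good Z) : SA X Z ⊆ Glue.Ef X := fun _ hx =>
  let ⟨O, hO, _⟩ := h.cpl ⊤ fun _ => Or.inl trivial; SO_ef (hx O hO)

theorem Fg.mono {J : Type} [Fintype J] {d : J → Subalgebra k K → K} {S S' : Set (AG.N1 X)}
    (h : Fg X d S) (hS : S' ⊆ S) : Fg X d S' := ⟨h.1, fun e a b => h.2 e a (hS b)⟩

theorem FG.mono {S S' : Set (AG.N1 X)} (h : FG X S) (hS : S' ⊆ S) : FG X S' :=
  let ⟨J, i, d, a⟩ := h; ⟨J, i, d, a.mono hS⟩

theorem Sm.md (h : Sm X Z) : Md X Z :=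
  ⟨h.nice.toGood, fun _ hO _ ha => h.nice.krull hO fun P a => ha P ((h.pl P).1 a)⟩

theorem lt_LL (h : FiniteDimensional ℝ (AG.N1 X)) : Lt (LL X) :=
  ⟨h, _, Glue.cvint, fun _ hx => n1_ext fun ν => by rw [map_zero]; exact hx _ ⟨ν, rfl⟩⟩

variable [IsAlgClosed k]

theorem cl_mul (hX : Good X) (hf : IsCart X f) (hg : IsCart X g) :
    cl X (f * g) = cl X f + cl X g := n1_ext fun ν => by
  rw [map_add, cl_val (hf.mul hg), cl_val hf, cl_val hg, deg_mul hX hf hg, Int.cast_add]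

theorem cl_unit (hX : Good X) (hf : IsCart X f) (h : ∀ O ∈ X, IsU O (f O)) : cl X f = 0 :=
  n1_ext fun ν => by rw [cl_val hf, deg_eq_zero hX hf h, map_zero, Int.cast_zero]

theorem cl_one (hX : Good X) : cl X 1 = 0 := cl_unit hX isCart_one fun _ _ => isU_one

theorem cl_zpow (hX : Good X) (hf : IsCart X f) (n : ℤ) : cl X (f ^ n) = n • cl X f :=
  n1_ext fun ν => by
    rw [map_zsmul, cl_val (hf.zpow n), cl_val hf, deg_zpow hX hf, Int.cast_mul, zsmul_eq_mul]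

theorem cl_pow (hX : Good X) (hf : IsCart X f) (n : ℕ) : cl X (f ^ n) = n • cl X f := by
  simpa using cl_zpow hX hf n

theorem cl_inv (hX : Good X) (hf : IsCart X f) : cl X f⁻¹ = - cl X f := by
  simpa using cl_zpow hX hf (-1)

theorem cl_div (hX : Good X) (hf : IsCart X f) (hg : IsCart X g) :
    cl X (f / g) = cl X f - cl X g := by
  rw [div_eq_mul_inv, cl_mul hX hf hg.inv, cl_inv hX hg, sub_eq_add_neg]

theorem cl_prod (hX : Good X) {ι : Type*} {s : Finset ι} {f : ι → Subalgebra k K → K}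
    (h : ∀ i ∈ s, IsCart X (f i)) : cl X (∏ i ∈ s, f i) = ∑ i ∈ s, cl X (f i) := n1_ext fun ν => by
  rw [map_sum, cl_val (isCart_prod h), deg_prod hX h, Int.cast_sum]
  exact Finset.sum_congr rfl fun i hi => (cl_val (h i hi) ν).symm

theorem cl_cmul (hX : Good X) (hf : IsCart X f) {μ : K} (hμ : μ ≠ 0) :
    cl X (fun O => μ * f O) = cl X f := n1_ext fun ν => by
  rw [cl_val (f := fun O => μ * f O) ((isCart_const hμ).mul hf), cl_val hf, deg_cmul hX hf hμ]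

/-- Linearly equivalent divisors have the same class. -/
theorem cl_lin (hX : Good X) (hf : IsCart X f) (hg : IsCart X g) {μ : K}
    (h : ∀ O ∈ X, IsU O (μ * f O / g O)) : cl X f = cl X g := by
  obtain ⟨O, hO, -⟩ := hX.cpl ⊤ fun _ => Or.inl trivial
  have hμ : μ ≠ 0 := left_ne_zero_of_mul (div_ne_zero_iff.1 (h O hO).1).1
  rw [← cl_cmul hX hf hμ]
  exact n1_ext fun ν => by
    rw [cl_val (f := fun O => μ * f O) ((isCart_const hμ).mul hf), cl_val hg,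
      deg_congr (f := fun O => μ * f O) hX ((isCart_const hμ).mul hf) hg h]

theorem mem_LL (hX : Good X) : x ∈ LL X ↔ ∃ f, IsCart X f ∧ cl X f = x := by
  refine ⟨fun h => ?_, fun ⟨f, a, b⟩ => b ▸ cl_mem a⟩
  induction h using AddSubgroup.closure_induction with
  | mem x hx => obtain ⟨D, rfl⟩ := hx; exact ⟨D.f, D.isCart, (n1_eq D).symm⟩
  | zero => exact ⟨1, isCart_one, cl_one hX⟩
  | add x y _ _ a b =>
    obtain ⟨f, a1, rfl⟩ := a
    obtain ⟨g, b1, rfl⟩ := b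
    exact ⟨f * g, a1.mul b1, cl_mul hX a1 b1⟩
  | neg x _ a => obtain ⟨f, a1, rfl⟩ := a; exact ⟨f⁻¹, a1.inv, cl_inv hX a1⟩

end defs

/-! ### Rows -/

/-- A property of models in a field. -/
def KRow (p : ∀ {k K : Type} [Field k] [Field K] [Algebra k K], Set (Subalgebra k K) → Prop) :
    Prop := ∀ (k K : Type) [Field k] [IsAlgClosed k] [Field K] [Algebra k K]
  (X : Set (Subalgebra k K)), p X

/-- A property of a small modification. -/
def ZRow (p : ∀ {k K : Type} [Field k] [Field K] [Algebra k K] (X Z : Set (Subalgebra k K)),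
    (AG.N1 X →ₗ[ℝ] AG.N1 Z) → Prop) : Prop :=
  KRow fun X => Ref X → ∀ Z, Sm X Z → ∀ Ψ, Ps X Z Ψ → p X Z Ψ

/-- REF. -/
def RefStmt : Prop := SolStmt.{1} → KRow fun X => Ref0 X → Ref X

/-- CPT: quasi-compactness. -/
def CptStmt : Prop := KRow fun X => Fine X → ∀ E : Set (_ → _), (∀ e ∈ E, IsCart X e) →
  (∀ O ∈ X, ∃ e ∈ E, IsU O (e O)) → ∃ F ⊆ E, F.Finite ∧ ∀ O ∈ X, ∃ e ∈ F, IsU O (e O)

/-- UPD. -/
def UpdStmt : Prop := KRow fun X => Ref X → ∀ Z, Sm X Z → Upd X Z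

/-- PSI. -/
def PsiStmt : Prop := ExtStmt.{1} → SolStmt.{1} →
  KRow fun X => Ref X → ∀ Z, Sm X Z → Upd X Z → ∃ Ψ, Ps X Z Ψ

/-- The degrees of classes that avoid the generic point of a curve. -/
structure Dg {k K : Type} [Field k] [Field K] [Algebra k K] (X Z : Set (Subalgebra k K))
    (Ψ : AG.N1 X →ₗ[ℝ] AG.N1 Z) : Prop where
  nn : ∀ ν : AG.Curve Z, ∀ x ∈ SO X ν.gen, 0 ≤ ν.lin (Ψ x)
  zero : ∀ (ν : AG.Curve Z) e, IsCart X e → (∀ Q, Un X e (ν.pt Q)) → ν.lin (Ψ (cl X e)) = 0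
  pos : ∀ x, Lc X Z x → Pos Z (Ψ x)

/-- DEG. -/
def DegStmt : Prop := ZRow fun X Z Ψ => Dg X Z Ψ

/-- HYP: the hyperplane class. -/
def HypStmt : Prop := KRow fun X => Ref X → ∀ Z, Sm X Z → Upd X Z → ∃ a, Lc X Z a

/-- SIG: finitely many chambers. -/
def SigStmt : Prop := IntStmt.{1} → KRow fun X => Ref X → ∀ S, RP (LL X) S → FG X S → Sig X S

/-- EFC: the effective cone. -/
def EfcStmt : Prop := IntStmt.{1} → KRow fun X => Ref X → ∀ S, RP (LL X) S → FG X S →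
  ∃ T, RP (LL X) T ∧ T ⊆ Glue.Ef X ∧ Glue.Ef X ∩ S ⊆ T

/-- AMP: ample classes absorb every class. -/
def AmpStmt : Prop := KRow fun X => Ref X → ∀ Z, Sm X Z → Upd X Z → ∀ ρ, Lc X Z ρ → ∀ O ∈ Z,
  ∀ v, ∃ N : ℝ, 0 < N ∧ N • ρ + v ∈ SO X O

/-- FIBA: the fibres are closed and contain the centres of valuations. -/
def FibaStmt : Prop := KRow fun X => Ref X → ∀ Z, Md X Z → ∀ x e (m : ℕ), 0 < m → Ed X e →
  cl X e = m • x → (∀ O ∈ Z, SaAt X x O) → ∀ O ∈ Z, Un X e O →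
    (∀ V, IsVal V → Dom (fr (BB X e) O) V → ∃ O' ∈ Fib X Z e O, O' ≤ V) ∧
    (RatPt O → ∀ C, ∀ O'' ∈ Z, O'' ∈ Pts C →
      (∀ u ∈ C, (∀ O' ∈ Fib X Z e O, C ≤ O' → u ∈ mx O') → u ∈ mx O'') → O'' ∈ Fib X Z e O)

/-- ALG: closed subsets of an affine variety. -/
def AlgStmt : Prop := ∀ (k K : Type) [Field k] [IsAlgClosed k] [Field K] [Algebra k K]
  (C : Subalgebra k K), C.FG → (∀ O ∈ Pts C, ∃ O₀ ∈ Pts C, RatPt O₀ ∧ O₀ ≤ O) ∧
    ∀ J ⊆ (C : Set K), {O | O ∈ Pts C ∧ J ⊆ mx O}.Finite ∨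
      ∃ O ∈ Pts C, J ⊆ mx O ∧ Dim O 1 ∧ ¬ Dim O 0

/-- LZA: finite fibres are points. -/
def LzaStmt : Prop := KRow fun X => ∀ Z, Sm X Z → ∀ e, ∀ O ∈ Z, Un X e O →
  (∀ V, IsVal V → Dom (fr (BB X e) O) V → ∃ O' ∈ Fib X Z e O, O' ≤ V) → (Fib X Z e O).Finite →
    O ≤ fr (BB X e) O

/-- The conclusion of LZB. -/
def Lzb : Prop := ZRow fun X Z Ψ => ∀ ρ ∈ LL X, ρ ∈ SA X Z → Pos Z (Ψ ρ) → Lc X Z ρ

/-- LZB: semiample and positive classes are ample. -/
def LzbStmt : Prop := FibaStmt → AlgStmt → LzaStmt → DegStmt → Lzb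

/-- The conclusion of OPN. -/
def Opn : Prop := ZRow fun X Z Ψ => ∀ S, IsCone S → Sig X S → ∀ y ∈ SA X Z ∩ S, Pos Z (Ψ y) →
  ∀ v, y + v ∈ S → ∃ δ : ℝ, 0 < δ ∧ δ ≤ 1 ∧ y + δ • v ∈ SA X Z

/-- OPN: the ample cone is open. -/
def OpnStmt : Prop := AmpStmt → DegStmt → Lzb → Opn

/-- The conclusion of NEF. -/
def Nef : Prop := ZRow fun X Z Ψ => (∀ S, RP (LL X) S → S ⊆ Glue.Ef X → Sig X S) →
  ∀ a, Lc X Z a → ∀ x ∈ Glue.Ef X, (∀ ν : AG.Curve Z, 0 ≤ ν.lin (Ψ x)) → x ∈ SA X Z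

/-- NEF: effective nef classes are semiample. -/
def NefStmt : Prop := RayStmt.{1} → DegStmt → Opn → Nef

/-- DET: an ample class determines the model. -/
def DetStmt : Prop := KRow fun X => Ref X → ∀ Z Z', Md X Z → Md X Z' → ∀ ρ, Lc X Z ρ → Lc X Z' ρ →
  Z = Z'

/-- TRN: transport by automorphisms. -/
def TrnStmt : Prop := KRow fun X => Ref X → ∀ (g : AG.Aut X) Z, (Md X Z → Md X (Tr Z g)) ∧
  (∀ x, g.n1 x ∈ SA X (Tr Z g) ↔ x ∈ SA X Z) ∧ ∀ x, Lc X Z x → Lc X (Tr Z g) (g.n1 x)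

/-- The conclusion of CHM. -/
def Chm : Prop := KRow fun X => Ref X → ∀ Z, Md X Z → ∀ S, Sig X S →
  (∀ x ∈ Glue.Ef X, ∃ g : AG.Aut X, g.n1 x ∈ S) → ∀ a, Lc X Z a →
    ∃ Q, RP (LL X) Q ∧ Q ⊆ SA X Z ∧ ∀ x ∈ SA X Z, ∀ ε : ℝ, 0 < ε →
      ∃ (g : AG.Aut X) (g' : AG.Aut Z), g.1 = g'.1 ∧ g.n1 (x + ε • a) ∈ Q

/-- CHM: finitely many chambers up to automorphisms. -/
def ChmStmt : Prop := DetStmt → TrnStmt → Chm

/-- The cone theorem for all small modifications. -/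
def Mod : Prop := KRow fun X => Ref X → FS X → CE X → ∀ Z, Sm X Z → ConeStatement Z

/-- END. -/
def EndStmt : Prop := LooStmt.{1} → RayStmt.{1} → AmpStmt → DegStmt → Opn → Nef → Chm →
  ZRow fun X Z _ => (∀ S, RP (LL X) S → S ⊆ Glue.Ef X → Sig X S) → CE X →
    ∀ a, Lc X Z a → ConeStatement Z

/-- The rows on models. -/
structure MM : Prop where
  sol : SolStmt.{1}
  ext : ExtStmt.{1}
  int : IntStmt.{1}
  ray : RayStmt.{1}
  loo : LooStmt.{1}
  ref : RefStmt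
  upd : UpdStmt
  psi : PsiStmt
  deg : DegStmt
  hyp : HypStmt
  sig : SigStmt
  efc : EfcStmt
  amp : AmpStmt
  fiba : FibaStmt
  alg : AlgStmt
  lza : LzaStmt
  lzb : LzbStmt
  opn : OpnStmt
  nef : NefStmt
  det : DetStmt
  trn : TrnStmt
  chm : ChmStmt
  en : EndStmt

theorem MM.mod (m : MM) : Mod := by
  intro k K _ _ _ _ X r fs ce Z s
  have u := m.upd k K X r Z s
  obtain ⟨Ψ, p⟩ := m.psi m.ext m.sol k K X r Z s u
  obtain ⟨a, ha⟩ := m.hyp k K X r Z s u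
  have o := m.opn m.amp m.deg (m.lzb m.fiba m.alg m.lza m.deg)
  exact m.en m.loo m.ray m.amp m.deg o (m.nef m.ray m.deg o) (m.chm m.det m.trn) k K X r Z s Ψ p
    (fun S a b => m.sig m.int k K X r S a (fs S a b)) ce a ha

end Pool.Agent.MP_20d318_ag.AM

end

section

set_option autoImplicit false

namespace Pool.Agent.MP_20d318_ag.AM

open Pool.Agent.MP_20d318_ag.Lat

universe u

namespace Sol

variable {N : Type u} [AddCommGroup N] [Module ℝ N] {L : AddSubgroup N}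

/-- Integral vectors. -/
def zz (ι : Type*) : AddSubgroup (ι → ℝ) where
  carrier := {v | ∀ i, ∃ z : ℤ, v i = z}
  zero_mem' _ := ⟨0, by simp⟩
  add_mem' {a b} ha hb i := by
    obtain ⟨x, hx⟩ := ha i
    obtain ⟨y, hy⟩ := hb i
    exact ⟨x + y, by simp [hx, hy]⟩
  neg_mem' {a} ha i := by
    obtain ⟨x, hx⟩ := ha i
    exact ⟨-x, by simp [hx]⟩

theorem sum_mem {ι : Type*} [Fintype ι] {w : ι → N} (hw : ∀ i, w i ∈ L) {v : ι → ℝ}
    (hv : v ∈ zz ι) : ∑ i, v i • w i ∈ L := by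
  refine L.sum_mem fun i _ => ?_
  obtain ⟨z, hz⟩ := hv i
  rw [hz, Int.cast_smul_eq_zsmul]
  exact L.zsmul_mem (hw i) z

/-- The cone of the nonnegative relations is rational polyhedral. -/
theorem ker (l : Lt L) {ι : Type*} [Fintype ι] {w : ι → N} (hw : ∀ i, w i ∈ L) :
    RP (zz ι) {v | (∀ i, 0 ≤ v i) ∧ ∑ i, v i • w i = 0} := by
  classical
  obtain ⟨Cv, hi, hs⟩ := l.sep
  have := l.fd
  obtain ⟨k, c, hc, hcs⟩ := exists_sep Cv hs
  have h0 : RP (zz ι) {v | ∀ i, 0 ≤ v i} := by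
    refine ⟨Finset.univ.image fun i => Pi.single i 1, ?_, Set.Subset.antisymm ?_ ?_⟩
    · intro x hx
      obtain ⟨i, -, rfl⟩ := Finset.mem_image.1 hx
      intro j
      by_cases h : j = i
      · exact ⟨1, by simp [h]⟩
      · exact ⟨0, by simp [h]⟩
    · intro x hx i
      refine le_on_cone (f := 0) (g := LinearMap.proj i) (fun r hr => ?_) x hx
      obtain ⟨j, -, rfl⟩ := Finset.mem_image.1 hr
      by_cases h : i = j <;> simp [h]
    · intro v hv
      rw [pi_eq_sum_univ' v]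
      exact (isCone_cone _).sum_mem _ _ fun i _ => (isCone_cone _).smul _ (hv i) _
        (subset_cone _ (Finset.mem_coe.2 (Finset.mem_image.2 ⟨i, Finset.mem_univ i, rfl⟩)))
  let φ : (ι → ℝ) →ₗ[ℝ] N := Fintype.linearCombination ℝ w
  have hφ : ∀ v, φ v = ∑ i, v i • w i := fun v => Fintype.linearCombination_apply _ _ _
  have h1 := h0.inter_fin (T := Set.range (fun j => c j ∘ₗ φ) ∪ Set.range fun j => -(c j ∘ₗ φ))
    ((Set.finite_range _).union (Set.finite_range _)) (by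
      rintro _ (⟨j, rfl⟩ | ⟨j, rfl⟩) v hv
      · exact hi _ (hc j) _ (hφ v ▸ sum_mem hw hv)
      · obtain ⟨z, hz⟩ := hi _ (hc j) _ (hφ v ▸ sum_mem hw hv)
        exact ⟨-z, by simp [hz]⟩)
  obtain ⟨R, a, b⟩ := h1
  refine ⟨R, a, b.trans (Set.ext fun v => and_congr_right fun _ => ⟨fun h => ?_, fun h => ?_⟩)⟩
  · rw [← hφ]
    refine hcs _ fun j => le_antisymm ?_ (h _ (Or.inl ⟨j, rfl⟩))
    simpa using h _ (Or.inr ⟨j, rfl⟩)
  · rw [← hφ] at h
    rintro _ (⟨j, rfl⟩ | ⟨j, rfl⟩) <;> simp [h]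

theorem two (l : Lt L) {S T : Set N} (a : RP L S) (b : RP L T) : RP L (S ∩ T) := by
  classical
  obtain ⟨R, hR, rfl⟩ := a
  obtain ⟨R', hR', rfl⟩ := b
  let w : R ⊕ R' → N := Sum.elim (fun r => r) fun r => -r
  let w' : R ⊕ R' → N := Sum.elim (fun r => r) fun _ => 0
  obtain ⟨Q, hQ, hc⟩ := ker l (w := w) (by
    rintro (r | r)
    · exact hR r.2
    · exact L.neg_mem (hR' r.2))
  let φ : (R ⊕ R' → ℝ) →ₗ[ℝ] N := Fintype.linearCombination ℝ w'
  have hφ : ∀ v, φ v = ∑ i, v i • w' i := fun v => Fintype.linearCombination_apply _ _ _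
  have hφ' : ∀ v, φ v = ∑ r : R, v (.inl r) • (r : N) := fun v => by
    simp [hφ, w', Fintype.sum_sum_type]
  refine ⟨Q.image φ, ?_, Set.Subset.antisymm ?_ ?_⟩
  · intro x hx
    obtain ⟨v, hv, rfl⟩ := Finset.mem_image.1 hx
    rw [hφ]
    refine sum_mem ?_ (hQ hv)
    rintro (r | r)
    · exact hR r.2
    · exact L.zero_mem
  · refine ((isCone_cone _).inter (isCone_cone _)).cone_subset fun x hx => ?_
    obtain ⟨v, hv, rfl⟩ := Finset.mem_image.1 hx
    have h := subset_cone _ (Finset.mem_coe.2 hv)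
    rw [hc] at h
    obtain ⟨h1, h2⟩ := h
    have h3 : φ v = ∑ r : R', v (.inr r) • (r : N) := by
      rw [hφ', ← sub_eq_zero, ← h2]
      simp [w, Fintype.sum_sum_type, sub_eq_add_neg]
    refine ⟨?_, ?_⟩
    · rw [hφ']
      exact (isCone_cone _).sum_mem _ _ fun r _ =>
        (isCone_cone _).smul _ (h1 _) _ (subset_cone _ r.2)
    · rw [h3]
      exact (isCone_cone _).sum_mem _ _ fun r _ =>
        (isCone_cone _).smul _ (h1 _) _ (subset_cone _ r.2)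
  · rintro x ⟨h1, h2⟩
    obtain ⟨c, hc1, e1⟩ := mem_cone_fin.1 h1
    obtain ⟨d, hd1, e2⟩ := mem_cone_fin.1 h2
    rw [← Finset.sum_coe_sort R fun r => c r • r] at e1
    rw [← Finset.sum_coe_sort R' fun r => d r • r] at e2
    have h : Sum.elim (fun r : R => c r) (fun r : R' => d r) ∈ cone (Q : Set (R ⊕ R' → ℝ)) := by
      rw [hc]
      refine ⟨?_, ?_⟩
      · rintro (r | r)
        · exact hc1 r
        · exact hd1 r
      · simp only [w, Fintype.sum_sum_type, Sum.elim_inl, Sum.elim_inr, smul_neg,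
          Finset.sum_neg_distrib]
        rw [← e1, ← e2, add_neg_cancel]
    have h' := ((isCone_cone ((Q.image φ : Finset N) : Set N)).preimage φ).cone_subset
      (R := (Q : Set (R ⊕ R' → ℝ))) (fun r hr => subset_cone _
        (Finset.mem_coe.2 (Finset.mem_image.2 ⟨r, hr, rfl⟩))) h
    rw [Set.mem_preimage, hφ'] at h'
    rw [e1]
    exact h'

end Sol

theorem sol_stmt : SolStmt.{u} := by
  intro N _ _ L l R hR x hx h
  obtain ⟨Q, hQ, h⟩ := exists_fin h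
  obtain ⟨c, hc, e⟩ := mem_cone_fin.1 h
  rw [← Finset.sum_coe_sort Q fun r => c r • r] at e
  let w : Option Q → N := fun i => i.elim (-x) fun r => r
  obtain ⟨P, hP, hk⟩ := Sol.ker l (w := w) (by
    rintro (_ | r)
    · exact L.neg_mem hx
    · exact hR (hQ r.2))
  have h1 : (fun i : Option Q => i.elim (1 : ℝ) fun r => c r) ∈ cone (P : Set (Option Q → ℝ)) := by
    rw [hk]
    refine ⟨?_, ?_⟩
    · rintro (_ | r)
      · exact zero_le_one
      · exact hc r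
    · simp only [w, Fintype.sum_option, Option.elim_none, Option.elim_some, one_smul]
      rw [← e, neg_add_cancel]
  have h2 : ∃ v ∈ P, 0 < v none := by
    by_contra hn
    push Not at hn
    have := le_on_cone (f := LinearMap.proj none) (g := 0) (fun r hr => hn r hr) _ h1
    simp only [LinearMap.proj_apply, Option.elim_none, LinearMap.zero_apply] at this
    linarith
  obtain ⟨v, hv, h0⟩ := h2
  have h3 := subset_cone _ (Finset.mem_coe.2 hv)
  rw [hk] at h3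
  choose a ha using fun i => nat_of_int (hP hv i) (h3.1 i)
  refine ⟨a none, by rw [ha] at h0; exact_mod_cast h0, ?_⟩
  have h4 := h3.2
  simp only [w, Fintype.sum_option, Option.elim_none, Option.elim_some, ha,
    Nat.cast_smul_eq_nsmul, smul_neg] at h4
  rw [neg_add_eq_zero] at h4
  rw [h4]
  exact AddSubmonoid.sum_mem _ fun r _ =>
    AddSubmonoid.nsmul_mem _ (AddSubmonoid.subset_closure (hQ r.2)) _

theorem int_stmt : IntStmt.{u} := by
  intro N _ _ L l S hS 𝒰 hU h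
  induction 𝒰, hU using Set.Finite.induction_on with
  | empty => simpa using hS
  | @insert T s _ _ ih =>
    rw [Set.sInter_insert, Set.inter_left_comm]
    exact Sol.two l (h T (Set.mem_insert _ _)) (ih fun T' a => h T' (Set.mem_insert_of_mem _ a))

theorem ray_stmt : RayStmt.{u} := by
  intro N _ _ R x a h
  obtain ⟨c, hc, e⟩ := farkas (N := Module.Dual ℝ N) R (fun r => Module.Dual.eval ℝ N r)
    (Module.Dual.eval ℝ N x) (by
      intro Z hZ
      rw [Module.Dual.eval_apply]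
      by_contra hn
      push Not at hn
      obtain ⟨ε, h1, h2, h3⟩ := h (-Z x / (|Z a| + 1)) (div_pos (by linarith) (by positivity))
      have h4 := le_on_cone (f := 0) (g := Z) (fun r hr => hZ r hr) _ h3
      rw [le_div_iff₀ (by positivity)] at h2
      simp only [LinearMap.zero_apply, map_add, map_smul, smul_eq_mul] at h4
      nlinarith [le_abs_self (Z a)])
  refine mem_cone_fin.2 ⟨c, hc, sub_eq_zero.1 ?_⟩
  refine (Module.forall_dual_apply_eq_zero_iff ℝ _).1 fun Z => ?_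
  have := e Z
  simp only [Module.Dual.eval_apply] at this
  simp [this]

theorem ext_stmt : ExtStmt.{u} := by
  intro sol N W _ _ _ _ L l F
  have := l.fd
  obtain ⟨B, hB, -, hs, hi⟩ := Submodule.exists_finset_span_eq_linearIndepOn ℝ (L : Set N)
  obtain ⟨Ψ, hΨ⟩ : ∃ Ψ : N →ₗ[ℝ] W, ∀ b : B, Ψ b = F ⟨b, hB b.2⟩ := by
    have hi' : LinearIndependent ℝ fun b : B => (b : N) := hi
    obtain ⟨Ψ, h⟩ := LinearMap.exists_extend
      ((Module.Basis.span hi').constr ℝ fun b : B => F ⟨b, hB b.2⟩)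
    refine ⟨Ψ, fun b => ?_⟩
    have := LinearMap.congr_fun h (Module.Basis.span hi' b)
    rw [Module.Basis.constr_basis, LinearMap.comp_apply, Submodule.subtype_apply,
      Module.Basis.span_apply] at this
    exact this
  refine ⟨Ψ, fun x => ?_⟩
  have h1 : (x : N) ∈ cone ((B : Set N) ∪ -(B : Set N)) := by
    have : (x : N) ∈ Submodule.span ℝ (B : Set N) := hs ▸ Submodule.subset_span x.2
    obtain ⟨c, -, e⟩ := Submodule.mem_span_finset.1 this
    rw [← e]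
    refine (isCone_cone _).sum_mem _ _ fun r hr => ?_
    rcases le_total 0 (c r) with h | h
    · exact (isCone_cone _).smul _ h _ (subset_cone _ (Or.inl hr))
    · rw [← neg_smul_neg]
      exact (isCone_cone _).smul _ (neg_nonneg.2 h) _ (subset_cone _ (Or.inr (by simpa using hr)))
  obtain ⟨m, hm, h2⟩ := sol N L l _ (Set.union_subset hB fun y hy => by
    simpa using L.neg_mem (hB hy)) x x.2 h1
  have h3 : ∀ y ∈ AddSubmonoid.closure ((B : Set N) ∪ -(B : Set N)),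
      ∃ z : L, (z : N) = y ∧ Ψ y = F z := by
    intro y hy
    induction hy using AddSubmonoid.closure_induction with
    | mem y hy =>
      rcases hy with hy | hy
      · exact ⟨⟨y, hB hy⟩, rfl, hΨ ⟨y, hy⟩⟩
      · refine ⟨-⟨-y, hB hy⟩, by simp, ?_⟩
        rw [map_neg, ← hΨ ⟨-y, hy⟩, map_neg, neg_neg]
    | zero => exact ⟨0, rfl, by simp⟩
    | add y y' _ _ a b =>
      obtain ⟨z, rfl, e⟩ := a
      obtain ⟨z', rfl, e'⟩ := b
      exact ⟨z + z', rfl, by rw [map_add, map_add, e, e']⟩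
  obtain ⟨z, e1, e2⟩ := h3 _ h2
  have e3 : z = m • x := Subtype.ext e1
  rw [e3, map_nsmul, map_nsmul, ← Nat.cast_smul_eq_nsmul ℝ, ← Nat.cast_smul_eq_nsmul ℝ] at e2
  exact smul_right_injective W (Nat.cast_ne_zero.2 hm.ne') e2

end Pool.Agent.MP_20d318_ag.AM

end

section

set_option autoImplicit false

namespace Pool.Agent.MP_20d318_ag.AM

open Pool.Agent.MP_20d318_ag.Lat Finset

universe u

namespace LooA

variable {N : Type u} [AddCommGroup N] [Module ℝ N]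

theorem xi [FiniteDimensional ℝ N] {L : AddSubgroup N} {C : Set N} {Cv : Set (N →ₗ[ℝ] ℝ)}
    (hint : ∀ c ∈ Cv, Intg L c) (hpos : ∀ c ∈ Cv, ∀ x ∈ C, 0 ≤ c x)
    (hsep : ∀ x, (∀ c ∈ Cv, c x = 0) → x = 0) :
    ∃ ξ : N →ₗ[ℝ] ℝ, Intg L ξ ∧ (∀ x ∈ C, 0 ≤ ξ x) ∧
      ∀ M : ℝ, {z : N | (z ∈ L ∧ z ∈ C) ∧ ξ z ≤ M}.Finite := by
  obtain ⟨k, c, hc, hcs⟩ := exists_sep Cv hsep
  let Γ : N → Fin k → ℝ := fun x j => c j x
  have hΓ : Function.Injective Γ := by
    intro x y h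
    refine sub_eq_zero.1 (hcs _ fun j => ?_)
    rw [map_sub]
    exact sub_eq_zero.2 (congrFun h j)
  refine ⟨∑ j, c j, fun x hx => ?_, fun x hx => ?_, fun M => ?_⟩
  · choose z hz using fun j => hint _ (hc j) x hx
    exact ⟨∑ j, z j, by simp [hz]⟩
  · rw [LinearMap.sum_apply]
    exact sum_nonneg fun j _ => hpos _ (hc j) x hx
  · refine Set.Finite.of_finite_image (f := Γ) ?_ hΓ.injOn
    refine (Set.Finite.pi' (t := fun _ : Fin k => (fun n : ℕ => (n : ℝ)) '' Set.Iic ⌊M⌋₊)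
      fun _ => (Set.finite_Iic _).image _).subset ?_
    rintro _ ⟨z, ⟨hz, hM⟩, rfl⟩ j
    obtain ⟨n, hn⟩ := nat_of_int (hint _ (hc j) z hz.1) (hpos _ (hc j) z hz.2)
    refine ⟨n, Nat.le_floor ?_, hn.symm⟩
    rw [← hn]
    rw [LinearMap.sum_apply] at hM
    exact (single_le_sum (fun i _ => hpos _ (hc i) z hz.2) (mem_univ j)).trans hM

theorem mem {R : Finset N} {R' : Set N} {ξ : N →ₗ[ℝ] ℝ} {h g : N ≃ₗ[ℝ] N} {p : N}
    (hp : p ∈ cone (R : Set N)) (h1 : ∀ r ∈ R, ξ (g r) ≤ ξ (h r)) (h2 : ξ (h p) ≤ ξ (g p))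
    (h3 : ∀ r ∈ R, ξ (h r) ≤ ξ (g r) → h r ∈ R') : h p ∈ cone R' := by
  obtain ⟨c, hc, rfl⟩ := mem_cone_fin.1 hp
  simp only [map_sum, map_smul, smul_eq_mul] at h2 ⊢
  have h4 := (sum_eq_sum_iff_of_le fun r hr => mul_le_mul_of_nonneg_left (h1 r hr) (hc r)).1
    (le_antisymm (sum_le_sum fun r hr => mul_le_mul_of_nonneg_left (h1 r hr) (hc r)) h2)
  refine (isCone_cone _).sum_mem _ _ fun r hr => ?_
  rcases (hc r).eq_or_lt with e | e
  · rw [← e, zero_smul]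
    exact (isCone_cone _).zero
  · exact (isCone_cone _).smul _ e.le _
      (subset_cone _ (h3 r hr (mul_left_cancel₀ e.ne' (h4 r hr)).ge))

end LooA

theorem loo_stmt : LooStmt.{u} := by
  intro ray N _ _ _ L C G Cv hC hint hpos hsep hGL hGC hspan P hP hPC hcov
  obtain ⟨ξ, hξi, hξp, hfin⟩ := LooA.xi hint hpos hsep
  have hd : ∀ R : Finset N, (R : Set N) ⊆ L → cone (R : Set N) ⊆ C →
      ∃ T ⊆ (G : Set (N ≃ₗ[ℝ] N)), T.Finite ∧ ∀ i ∈ G, ∃ j ∈ T, ∀ x ∈ cone (R : Set N),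
        ξ (j x) ≤ ξ (i x) := fun R hL hR =>
    dickson R (G : Set (N ≃ₗ[ℝ] N)) (fun g => ξ ∘ₗ g.toLinearMap) fun g hg r hr =>
      nat_of_int (hξi _ (hGL g hg r (hL hr))) (hξp _ (hGC g hg r (hR (subset_cone _ hr))))
  obtain ⟨R, hRL, rfl⟩ := hP
  obtain ⟨T, hTG, hTf, hT⟩ := hd R hRL hPC
  obtain ⟨M, hM⟩ := (hTf.image2 (fun (g : N ≃ₗ[ℝ] N) (r : N) => ξ (g r)) R.finite_toSet).bddAbove
  refine looijenga hC hint hpos hsep hGL hGC hspan (rp_fin (hfin M) fun z hz => hz.1.1)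
    (hC.cone_subset fun z hz => hz.1.2) fun x hx => ?_
  obtain ⟨a, _, ⟨Q, hQL, rfl⟩, hQC, hxQ, haQ, hg⟩ := hcov x hx
  obtain ⟨S, hSG, hSf, hS⟩ := hd Q hQL hQC
  obtain ⟨j0, hj0, -⟩ := hS 1 G.one_mem
  have key : ∀ ε : ℝ, 0 < ε → ∃ j ∈ S,
      j (x + ε • a) ∈ cone {z : N | (z ∈ L ∧ z ∈ C) ∧ ξ z ≤ M} := by
    intro ε hε
    obtain ⟨g, hgG, hgp⟩ := hg ε hε
    have hy := (isCone_cone _).add _ hxQ _ ((isCone_cone _).smul ε hε.le _ haQ)
    obtain ⟨j, hj, hmin⟩ := Set.exists_min_image S (fun j => ξ (j (x + ε • a))) hSf ⟨j0, hj0⟩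
    have hh := G.mul_mem (hSG hj) (G.inv_mem hgG)
    obtain ⟨g0, hg0, h0⟩ := hT _ hh
    have e : (j * g⁻¹) (g (x + ε • a)) = j (x + ε • a) := by simp
    refine ⟨j, hj, e ▸ LooA.mem hgp (fun r hr => h0 r (subset_cone _ hr)) ?_ fun r hr k =>
      ⟨⟨hGL _ hh r (hRL hr), hGC _ hh r (hPC (subset_cone _ hr))⟩,
        k.trans (hM (Set.mem_image2_of_mem hg0 hr))⟩⟩
    obtain ⟨i, hi, h1⟩ := hS (g0 * g) (G.mul_mem (hTG hg0) hgG)
    rw [e]
    exact (hmin i hi).trans (h1 _ hy)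
  have pig : ∃ j ∈ S, ∀ δ : ℝ, 0 < δ → ∃ ε : ℝ, 0 < ε ∧ ε ≤ δ ∧
      j (x + ε • a) ∈ cone {z : N | (z ∈ L ∧ z ∈ C) ∧ ξ z ≤ M} := by
    by_contra hc
    push Not at hc
    choose! δ h1 h2 using hc
    obtain ⟨i, hi, hmin⟩ := Set.exists_min_image S δ hSf ⟨j0, hj0⟩
    obtain ⟨j, hj, h3⟩ := key (δ i) (h1 i hi)
    exact h2 j hj _ (h1 i hi) (hmin j hj) h3
  obtain ⟨j, hj, h⟩ := pig
  refine ⟨j, hSG hj, ?_⟩
  rw [← (hfin M).coe_toFinset] at h ⊢
  exact ray N _ (j x) (j a) (by simpa only [map_add, map_smul] using h)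

end Pool.Agent.MP_20d318_ag.AM

end

section

set_option autoImplicit false
set_option linter.unusedSectionVars false

namespace Pool.Agent.MP_20d318_ag.AM

open Pool.Agent.MP_fd6584_ag Pool.Agent.MP_fd6584_ag.Fn Pool.Agent.CBk
open Pool.Agent.MP_fd6584_ag.AG hiding deg_inv deg_congr deg_of_unit deg_mul deg_prod deg_zpow
  deg_eq_zero deg_nonneg deg_div deg_pow
open Pool.Agent.MVg (Sc Fac Av)
open Pool.Agent.MP_20d318_ag.CH (cl cl_val cl_mem cl_eff n1_ext n1_eq)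
open Pool.Agent.MP_20d318_ag.Lat (cone IsCone RP Intg Concl isCone_cone subset_cone)

namespace RefA

variable {k K : Type} [Field k] [IsAlgClosed k] [Field K] [Algebra k K]
  {X : Set (Subalgebra k K)} {e e' : Subalgebra k K → K} {O : Subalgebra k K} {x y : AG.N1 X}
  {m m' : ℕ}

theorem ord_mix (h : IsCart X e) (h' : IsCart X e') {P : Place k K} (hP : plO P ∈ X) :
    P.ord ((e ^ m' * e' ^ m) (plO P)) = m' * P.ord (e (plO P)) + m * P.ord (e' (plO P)) := by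
  rw [Pi.mul_apply, Pi.pow_apply, Pi.pow_apply,
    P.ord_mul (pow_ne_zero _ (h.ne hP)) (pow_ne_zero _ (h'.ne hP)), P.ord_pow, P.ord_pow]

theorem cl_mix (hX : Good X) (h : IsCart X e) (h' : IsCart X e') (c : cl X e = m • x)
    (c' : cl X e' = m' • y) : cl X (e ^ m' * e' ^ m) = (m * m') • (x + y) := by
  rw [cl_mul hX (h.pow _) (h'.pow _), cl_pow hX h, cl_pow hX h', c, c', smul_smul, smul_smul,
    mul_comm m' m, smul_add]

theorem un_mix (h : IsCart X e) (h' : IsCart X e') (u : Un X e O) (u' : Un X e' O) :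
    Un X (e ^ m' * e' ^ m) O := fun P a b => by
  rw [ord_mix h h' a, u P a b, u' P a b, mul_zero, mul_zero, add_zero]

/-- A property of effective divisors that is stable under products passes to the monoid. -/
theorem clos (hX : Good X) {p : (Subalgebra k K → K) → Prop} (h1 : p 1)
    (hm : ∀ e e' (m m' : ℕ), IsCart X e → IsCart X e' → p e → p e' → p (e ^ m' * e' ^ m))
    {R : Set (AG.N1 X)} (hR : ∀ x ∈ R, ∃ (m : ℕ) (e : Subalgebra k K → K), 0 < m ∧ Ed X e ∧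
      cl X e = m • x ∧ p e) {n : ℕ} (hn : 0 < n) (hx : n • x ∈ AddSubmonoid.closure R) :
    ∃ (m : ℕ) (e : Subalgebra k K → K), 0 < m ∧ Ed X e ∧ cl X e = m • x ∧ p e := by
  have key : ∀ z ∈ AddSubmonoid.closure R, ∃ (m : ℕ) (e : Subalgebra k K → K), 0 < m ∧ Ed X e ∧
      cl X e = m • z ∧ p e := fun z hz => by
    induction hz using AddSubmonoid.closure_induction with
    | mem z hz => exact hR z hz
    | zero => exact ⟨1, 1, one_pos, ed_one, by rw [cl_one hX, smul_zero], h1⟩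
    | add z w _ _ a b =>
      obtain ⟨m, e, a1, a2, a3, a4⟩ := a
      obtain ⟨m', e', b1, b2, b3, b4⟩ := b
      exact ⟨m * m', e ^ m' * e' ^ m, Nat.mul_pos a1 b1, (a2.pow _).mul (b2.pow _),
        cl_mix hX a2.1 b2.1 a3 b3, hm e e' m m' a2.1 b2.1 a4 b4⟩
  obtain ⟨m, e, a1, a2, a3, a4⟩ := key _ hx
  exact ⟨m * n, e, Nat.mul_pos a1 hn, a2, by rw [a3, smul_smul], a4⟩

end RefA

open RefA in
theorem ref_stmt : RefStmt := by
  intro hs k K _ _ _ _ X r
  have hX := r.nice.toGood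
  refine ⟨r, fun x hx O h => ?_, fun x hx h => ?_, ?_, ?_⟩
  · obtain ⟨n, hn, h⟩ := hs _ _ (lt_LL r.fd) _ (fun _ a => a.1) x hx h
    exact clos hX (p := fun e => Un X e O) (fun P _ _ => P.ord_one)
      (fun _ _ _ _ a b => un_mix a b) (fun _ a => a.2) hn h
  · obtain ⟨n, hn, h⟩ := hs _ _ (lt_LL r.fd) _
      (by rintro _ ⟨D, -, rfl⟩; exact AddSubgroup.subset_closure ⟨D, rfl⟩) x hx h
    obtain ⟨m, e, a, b, c, -⟩ := clos hX (p := fun _ => True) trivial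
      (fun _ _ _ _ _ _ _ _ => trivial)
      (by rintro _ ⟨D, hD, rfl⟩
          exact ⟨1, D.f, one_pos, ⟨D.isCart, hD⟩, by rw [one_smul, n1_eq], trivial⟩) hn h
    exact ⟨m, e, a, b, c⟩
  · intro x e e' m m' hm hm' h h' c c'
    obtain ⟨n, μ, hn, hu⟩ := r.nl (e ^ m' / e' ^ m) ((h.pow _).div (h'.pow _)) (by
      rw [cl_div hX (h.pow _) (h'.pow _), cl_pow hX h, cl_pow hX h', c, c', smul_smul, smul_smul,
        mul_comm, sub_self])
    obtain ⟨O, hO, -⟩ := hX.cpl ⊤ fun _ => Or.inl trivial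
    have hμ : μ ≠ 0 := left_ne_zero_of_mul (hu O hO).1
    refine ⟨μ, n * m', n * m, hμ, Nat.mul_pos hn hm', Nat.mul_pos hn hm, fun P hP => ?_⟩
    obtain ⟨a, b⟩ := (isU_plO' P).1 (hu _ hP)
    rw [P.ord_mul hμ (right_ne_zero_of_mul a), P.ord_pow, Pi.div_apply, Pi.pow_apply, Pi.pow_apply,
      P.ord_div (pow_ne_zero _ (h.ne hP)) (pow_ne_zero _ (h'.ne hP)), P.ord_pow, P.ord_pow] at b
    push_cast
    linear_combination b
  · rintro x y O n hn ⟨m, e, a1, a2, a3, a4, a5⟩ ⟨m', e', b1, b2, b3, b4⟩ z hz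
    refine ⟨m * m' * n, e ^ m' * e' ^ m, Nat.mul_pos (Nat.mul_pos a1 b1) hn,
      (a2.pow _).mul (b2.pow _), by rw [cl_mix hX a2.1 b2.1 a3 b3, ← hz, smul_smul],
      un_mix a2.1 b2.1 a4 b4, a5.trans ?_⟩
    have hB : BB X e ≤ BB X (e ^ m' * e' ^ m) := fun b hb P hP h0 => hb P hP (by
      rw [ord_mix a2.1 b2.1 hP] at h0
      have c1 := a2.ord hP
      have c2 : 0 ≤ (m : ℤ) * P.ord (e' (plO P)) := mul_nonneg m.cast_nonneg (b2.ord hP)
      have c3 : (0 : ℤ) < m' := Int.natCast_pos.2 b1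
      exact le_antisymm (le_of_mul_le_mul_left (by linarith) c3) c1)
    rintro _ ⟨a, ha, b, hb, hu, rfl⟩
    exact ⟨a, hB ha, b, hB hb, hu, rfl⟩

end Pool.Agent.MP_20d318_ag.AM

end

section

set_option autoImplicit false
set_option linter.unusedSectionVars false

namespace Pool.Agent.MP_20d318_ag.AM

open Pool.Agent.MP_fd6584_ag Pool.Agent.MP_fd6584_ag.Fn Pool.Agent.CBk
open Pool.Agent.MP_fd6584_ag.AG hiding deg_inv deg_congr deg_of_unit deg_mul deg_prod deg_zpow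
  deg_eq_zero deg_nonneg deg_div deg_pow

namespace CptA

variable {k K : Type} [Field k] [Field K] [Algebra k K] {A O : Subalgebra k K}

/-- A common denominator. -/
theorem den (hO : O ∈ Pts A) (T : Finset K) (h : ∀ a ∈ T, a ∈ O) :
    ∃ b ∈ A, IsU O b ∧ ∀ O', A ≤ O' → IsU O' b → ∀ a ∈ T, a ∈ O' := by
  classical
  induction T using Finset.induction_on with
  | empty => exact ⟨1, A.one_mem, isU_one, fun _ _ _ _ h => absurd h (Finset.notMem_empty _)⟩
  | insert a T _ ih =>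
    obtain ⟨b, b1, b2, b3⟩ := ih fun x hx => h x (Finset.mem_insert_of_mem hx)
    obtain ⟨u, u1, w, w1, w2, rfl⟩ := hO.2.2 a (h a (Finset.mem_insert_self _ _))
    refine ⟨b * w, A.mul_mem b1 w1, b2.mul w2, fun O' l q x hx => ?_⟩
    rcases Finset.mem_insert.1 hx with rfl | hx
    · exact (IsU.of_mul (l w1) (l b1) (mul_comm b w ▸ q)).div_mem (l u1)
    · exact b3 O' l (IsU.of_mul (l b1) (l w1) q) x hx

/-- Affine varieties are quasi-compact. -/
theorem aff (P : K → Prop) (h : ∀ O ∈ Pts A, ∃ b ∈ A, P b ∧ IsU O b) :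
    ∃ s : Finset A, (∀ b ∈ s, P b) ∧ ∀ O ∈ Pts A, ∃ b ∈ s, IsU O (b : K) := by
  have t : Ideal.span {b : A | P b} = ⊤ := by
    by_contra n
    obtain ⟨m, m1, m2⟩ := Ideal.exists_le_maximal _ n
    have e : ∀ a (ha : a ∈ A), a ∈ Subtype.val '' (m : Set A) ↔ (⟨a, ha⟩ : A) ∈ m := fun a ha =>
      ⟨fun ⟨_, x1, x2⟩ => by subst x2; exact x1, fun x => ⟨_, x, rfl⟩⟩
    obtain ⟨O, o1, o2⟩ := exists_loc A (Subtype.val '' (m : Set A)) ⟨0, m.zero_mem, rfl⟩
      (fun x => m1.ne_top ((Ideal.eq_top_iff_one m).2 ((e 1 A.one_mem).1 x)))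
      (fun a ha b hb x y => (e _ (A.add_mem ha hb)).2 (m.add_mem ((e a ha).1 x) ((e b hb).1 y)))
      fun a ha b hb => by
        rw [e a ha, e b hb, e _ (A.mul_mem ha hb)]
        exact m1.isPrime.mul_mem_iff_mem_or_mem (x := ⟨a, ha⟩) (y := ⟨b, hb⟩)
    obtain ⟨b, b1, b2, b3⟩ := h O o1
    exact (o2 b b1).1 b3 ((e b b1).2 (m2 (Ideal.subset_span b2)))
  obtain ⟨s, s1, s2⟩ := (Ideal.span_eq_top_iff_finite _).1 t
  refine ⟨s, fun b hb => s1 hb, fun O hO => by_contra fun n => ?_⟩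
  have k : ∀ x ∈ Ideal.span (s : Set A), (x : K) ∈ mx O := fun x hx => by
    induction hx using Submodule.span_induction with
    | mem x hx => exact ⟨hO.2.1 x.2, fun q => n ⟨x, hx, q⟩⟩
    | zero => exact zero_mem_mx
    | add x y _ _ a b => exact mx_add hO.1 a b
    | smul a x _ b => exact mx_mul_left (hO.2.1 a.2) b
  exact one_not_mem_mx (k 1 (s2 ▸ Submodule.mem_top))

end CptA

theorem cpt_stmt : CptStmt := by
  intro k K _ _ _ _ X hX E hE hc
  classical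
  obtain ⟨𝒢, g1, -, g3⟩ := hX.cov
  have key : ∀ G ∈ 𝒢, ∃ F ⊆ E, F.Finite ∧ ∀ O ∈ Pts (Algebra.adjoin k G), ∃ e ∈ F, IsU O (e O) := by
    intro G hG
    have sub : Pts (Algebra.adjoin k G) ⊆ X := g3 ▸ Set.subset_biUnion_of_mem (u := fun G =>
      Pts (Algebra.adjoin k G)) hG
    obtain ⟨s, s1, s2⟩ := CptA.aff (A := Algebra.adjoin k G)
      (fun b => ∃ e ∈ E, ∀ O' ∈ Pts (Algebra.adjoin k G), IsU O' b → IsU O' (e O')) fun O hO => by
        obtain ⟨e, e1, e2⟩ := hc O (sub hO)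
        obtain ⟨T, t1, t2⟩ := hE e e1 O (sub hO)
        obtain ⟨b, b1, b2, b3⟩ := CptA.den hO (insert (e O) (insert (e O)⁻¹ T)) fun a ha => by
          simp only [Finset.mem_insert] at ha
          rcases ha with rfl | rfl | ha
          exacts [e2.2.1, e2.2.2, t1 a ha]
        refine ⟨b, b1, ⟨e, e1, fun O' h q => ?_⟩, b2⟩
        have c := b3 O' h.2.1 q
        have := (t2 O' (sub h) fun a ha => c a (by simp [ha])).mul
          (⟨e2.1, c _ (by simp), c _ (by simp)⟩ : IsU O' (e O))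
        rwa [div_mul_cancel₀ _ e2.1] at this
    choose! ε x1 x2 using s1
    refine ⟨ε '' s, ?_, s.finite_toSet.image _, fun O hO => ?_⟩
    · rintro _ ⟨b, hb, rfl⟩
      exact x1 b hb
    · obtain ⟨b, b1, b2⟩ := s2 O hO
      exact ⟨ε b, ⟨b, b1, rfl⟩, x2 b b1 O hO b2⟩
  choose! F f1 f2 f3 using key
  refine ⟨⋃ G ∈ 𝒢, F G, Set.iUnion₂_subset f1, g1.biUnion f2, fun O hO => ?_⟩
  rw [g3] at hO
  obtain ⟨G, hG, h⟩ := Set.mem_iUnion₂.1 hO
  obtain ⟨e, e1, e2⟩ := f3 G hG O h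
  exact ⟨e, Set.mem_biUnion hG e1, e2⟩

end Pool.Agent.MP_20d318_ag.AM

end

section

set_option autoImplicit false

namespace Pool.Agent.MP_20d318_ag.AM

open Pool.Agent.MP_fd6584_ag Pool.Agent.MP_fd6584_ag.Fn Pool.Agent.CBk
open Pool.Agent.MP_fd6584_ag.AG hiding deg_inv deg_congr deg_of_unit deg_mul deg_prod deg_zpow
  deg_eq_zero deg_nonneg deg_div deg_pow
open Pool.Agent.MP_20d318_ag.CH (cl cl_mem n1_eq)
open Pool.Agent.MP_20d318_ag.Lat (cone IsCone RP isCone_cone subset_cone)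

theorem efc_stmt : EfcStmt := by
  rintro int k K _ _ _ _ X r S hS ⟨J, _, d, hd, fg⟩
  have g := r.nice.toGood
  refine ⟨cone (Set.range fun j => cl X (d j)), rp_fin (Set.finite_range _)
    (Set.range_subset_iff.2 fun j => cl_mem (hd j).1),
    (isCone_cone _).cone_subset (Set.range_subset_iff.2 fun j => (hd j).ef), fun x hx => ?_⟩
  obtain ⟨Q, q1, q2⟩ := exists_fin hx.1
  obtain ⟨R, r1, r2⟩ := int.two (lt_LL r.fd) (rp_fin Q.finite_toSet fun y hy => by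
    obtain ⟨D, -, rfl⟩ := q1 hy
    exact AddSubgroup.subset_closure ⟨D, rfl⟩) hS
  refine (isCone_cone _).cone_subset (fun y hy => ?_) (r2 ▸ ⟨q2, hx.2⟩ : x ∈ cone (R : Set _))
  have hy' := subset_cone _ hy
  rw [r2] at hy'
  obtain ⟨m, e, m0, he, e1⟩ := r.ef y (r1 hy)
    ((isCone_cone _).cone_subset (q1.trans (subset_cone _)) hy'.1)
  obtain ⟨n, a, μ, n0, -, h⟩ := fg e he (e1 ▸ IsCone.nsmul (rp_cone hS) m hy'.2) ⊤
    fun _ => Or.inl trivial
  have c : ∀ j ∈ Finset.univ, IsCart X (d j ^ a j) := fun j _ => (hd j).1.pow _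
  have e2 := cl_lin g (isCart_prod c) (he.1.pow n) (μ := μ) fun O hO => by
    simpa only [Finset.prod_apply, Pi.pow_apply] using h O hO
  rw [cl_prod g c, cl_pow g he.1, e1] at e2
  refine IsCone.of_nsmul (isCone_cone _) m0 (IsCone.of_nsmul (isCone_cone _) n0 (e2 ▸ ?_))
  refine (isCone_cone _).sum_mem _ _ fun j _ => ?_
  rw [cl_pow g (hd j).1]
  exact IsCone.nsmul (isCone_cone _) _ (subset_cone _ ⟨j, rfl⟩)

end Pool.Agent.MP_20d318_ag.AM

end

section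

set_option autoImplicit false

namespace Pool.Agent.MP_20d318_ag.AM

open Pool.Agent.MP_fd6584_ag Pool.Agent.MP_fd6584_ag.Fn Pool.Agent.CBk
open Pool.Agent.MP_fd6584_ag.AG hiding deg_inv deg_congr deg_of_unit deg_mul deg_prod deg_zpow
  deg_eq_zero deg_nonneg deg_div deg_pow

namespace DetA

variable {k K : Type} [Field k] [Field K] [Algebra k K] {X Z Z' : Set (Subalgebra k K)}
  {O O' V : Subalgebra k K} {ρ : AG.N1 X}

theorem le (r : Ref X) (h : Kr X O) (h' : Kr X O') (d : Dom O V) (d' : Dom O' V)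
    (l : LcAt X ρ O) (l' : SaAt X ρ O') : O ≤ O' := by
  obtain ⟨m, e, hm, he, hc, hu, hf⟩ := l
  obtain ⟨m', e', hm', he', hc', hu'⟩ := l'
  obtain ⟨β, a, b, h0, ha, -, hβ⟩ := r.bet ρ e e' m m' hm hm' he.1 he'.1 hc hc'
  have h1 : β ∈ O := BB_le h hu fun P hP h => mem_plO_ord.2 (by
    rw [hβ P hP, h, mul_zero, sub_zero]
    exact mul_nonneg (Int.natCast_nonneg b) (he'.ord hP))
  have h2 : β⁻¹ ∈ O' := BB_le h' hu' fun P hP h => mem_plO_ord.2 (by
    rw [P.ord_inv, hβ P hP, h, mul_zero, zero_sub, neg_neg]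
    exact mul_nonneg (Int.natCast_nonneg a) (he.ord hP))
  have h3 : IsU O' β⁻¹ := d'.2 _ h2 ⟨inv_ne_zero h0, d'.1 h2, by rw [inv_inv]; exact d.1 h1⟩
  have h4 : BB X e ≤ O' := BB_le h' fun P hP hle => by
    have h5 := ((isU_plO' P).1 ⟨h3.1, hle h3.2.1, hle h3.2.2⟩).2
    rw [P.ord_inv, hβ P hP, hu' P hP hle, mul_zero, zero_sub, neg_neg] at h5
    exact (mul_eq_zero.1 h5).resolve_left (Int.natCast_ne_zero.2 ha.ne')
  intro f hO
  obtain ⟨u, hu, w, hw, hU, rfl⟩ := hf hO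
  rw [div_eq_mul_inv]
  exact O'.mul_mem (h4 hu) (d'.2 w (h4 hw) ⟨hU.1, d.1 hU.2.1, d.1 hU.2.2⟩).2.2

theorem sub (r : Ref X) (h : Md X Z) (h' : Md X Z') (l : Lc X Z ρ) (l' : Lc X Z' ρ) : Z ⊆ Z' := by
  intro O hO
  obtain ⟨V, hV, d⟩ := exists_val (h.good.loc O hO)
  obtain ⟨O', hO', d'⟩ := h'.good.cpl V hV
  rw [le_antisymm (le r (h.kr O hO) (h'.kr O' hO') d d' (l.2 O hO) (l'.2 O' hO').sa)
    (le r (h'.kr O' hO') (h.kr O hO) d' d (l'.2 O' hO') (l.2 O hO).sa)]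
  exact hO'

end DetA

theorem det_stmt : DetStmt := fun _ _ _ _ _ _ _ r _ _ h h' _ l l' =>
  (DetA.sub r h h' l l').antisymm (DetA.sub r h' h l' l)

end Pool.Agent.MP_20d318_ag.AM

end

section

set_option autoImplicit false
set_option linter.unusedSectionVars false

namespace Pool.Agent.MP_20d318_ag.AM

open Pool.Agent.MP_fd6584_ag Pool.Agent.MP_fd6584_ag.Fn Pool.Agent.CBk
open Pool.Agent.MP_20d318_ag.Lat (cone IsCone RP isCone_cone subset_cone cone_mono)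

namespace NefA

/-- A segment whose part in a closed cone is open to the right lies in the cone. -/
theorem seg (hr : RayStmt.{1}) {N : Type 1} [AddCommGroup N] [Module ℝ N] (Q : Finset N) (a v : N)
    (ha : a ∈ cone (Q : Set N))
    (ho : ∀ t : ℝ, 0 ≤ t → t < 1 → a + t • v ∈ cone (Q : Set N) →
      ∃ s, t < s ∧ s ≤ 1 ∧ a + s • v ∈ cone (Q : Set N)) : a + v ∈ cone (Q : Set N) := by
  let A : Set ℝ := {t | t ≤ 1 ∧ a + t • v ∈ cone (Q : Set N)}
  have h0 : (0 : ℝ) ∈ A := ⟨zero_le_one, by simpa using ha⟩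
  have hb : BddAbove A := ⟨1, fun t ht => ht.1⟩
  have h1 : sSup A ≤ 1 := csSup_le ⟨0, h0⟩ fun t ht => ht.1
  have hm : a + sSup A • v ∈ cone (Q : Set N) := by
    by_contra hn
    refine hn (hr N Q _ (-v) fun δ hδ => ?_)
    obtain ⟨t, ht, lt⟩ := exists_lt_of_lt_csSup ⟨0, h0⟩ (sub_lt_self (sSup A) hδ)
    have le : t < sSup A := (le_csSup hb ht).lt_of_ne fun e => hn (e ▸ ht.2)
    refine ⟨sSup A - t, by linarith, by linarith, ?_⟩
    have e : a + sSup A • v + (sSup A - t) • -v = a + t • v := by module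
    exact e ▸ ht.2
  rcases h1.lt_or_eq with h | h
  · obtain ⟨s, s1, s2, s3⟩ := ho _ (le_csSup hb h0) h hm
    exact absurd (le_csSup hb ⟨s2, s3⟩) s1.not_ge
  · rwa [h, one_smul] at hm

end NefA

theorem nef_stmt : NefStmt := by
  intro hr hd ho k K _ _ _ _ X r Z s Ψ p hS a ha x hx hn
  obtain ⟨R, hR, hxR⟩ := exists_fin hx
  have hrp : RP (LL X) (cone (insert a (R : Set (AG.N1 X)))) := by
    refine rp_fin (R.finite_toSet.insert a) (Set.insert_subset ha.1 fun z hz => ?_)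
    obtain ⟨D, -, rfl⟩ := hR hz
    exact AddSubgroup.subset_closure ⟨D, rfl⟩
  have hef : cone (insert a (R : Set (AG.N1 X))) ⊆ Glue.Ef X :=
    (isCone_cone _).cone_subset
      (Set.insert_subset (SA_ef s.nice.toGood ha.mem) (hR.trans (subset_cone _)))
  have sg := hS _ hrp hef
  have haS : a ∈ cone (insert a (R : Set (AG.N1 X))) := subset_cone _ (Set.mem_insert _ _)
  have hxS : x ∈ cone (insert a (R : Set (AG.N1 X))) := cone_mono (Set.subset_insert _ _) hxR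
  have e : ∀ t : ℝ, a + t • (x - a) = (1 - t) • a + t • x := fun t => by module
  have hin : ∀ t : ℝ, 0 ≤ t → t ≤ 1 → a + t • (x - a) ∈ cone (insert a (R : Set (AG.N1 X))) :=
    fun t t0 t1 => e t ▸ (isCone_cone _).add _ ((isCone_cone _).smul _ (sub_nonneg.2 t1) _ haS) _
      ((isCone_cone _).smul _ t0 _ hxS)
  obtain ⟨𝒯, -, t1, -, t2⟩ := id sg
  obtain ⟨Q, -, hQ⟩ := t1 _ (t2 Z s.md)
  have key := NefA.seg hr Q a (x - a) (hQ ▸ ⟨ha.mem, haS⟩) fun t t0 t1 ht => by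
    rw [hQ] at ht ⊢
    have hp : Pos Z (Ψ (a + t • (x - a))) := fun ν hν => by
      have p1 := (hd k K X r Z s Ψ p).pos a ha ν hν
      have p2 := hn ν
      rw [e, map_add, map_smul, map_smul, map_add, map_smul, map_smul, smul_eq_mul, smul_eq_mul]
      exact add_pos_of_pos_of_nonneg (mul_pos (sub_pos.2 t1) p1) (mul_nonneg t0 p2)
    have e1 : ∀ δ : ℝ, a + t • (x - a) + δ • (1 - t) • (x - a) =
        a + (t + δ * (1 - t)) • (x - a) := fun δ => by module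
    obtain ⟨δ, d0, d1, d2⟩ := ho k K X r Z s Ψ p _ (isCone_cone _) sg _ ht hp ((1 - t) • (x - a))
      (by
        have e2 : a + t • (x - a) + (1 - t) • (x - a) = x := by module
        rw [e2]
        exact hxS)
    have q1 := mul_pos d0 (sub_pos.2 t1)
    have q2 := mul_le_of_le_one_left (sub_pos.2 t1).le d1
    exact ⟨t + δ * (1 - t), by linarith, by linarith, e1 δ ▸ d2,
      hin _ (by linarith) (by linarith)⟩
  rw [hQ, add_sub_cancel] at key
  exact key.1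

end Pool.Agent.MP_20d318_ag.AM

end

section

set_option autoImplicit false
set_option linter.unusedSectionVars false

namespace Pool.Agent.MP_20d318_ag.AM

open Pool.Agent.MP_fd6584_ag Pool.Agent.MP_fd6584_ag.Fn Pool.Agent.CBk
open Pool.Agent.MP_fd6584_ag.AG hiding deg_inv deg_congr deg_of_unit deg_mul deg_prod deg_zpow
  deg_eq_zero deg_nonneg deg_div deg_pow
open Pool.Agent.MVg (Sc Fac Av pc comap_symm symm_comap)
open Pool.Agent.MP_20d318_ag.CH (cl cl_val cl_mem cl_eff n1_ext n1_eq cl_eq)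
open Pool.Agent.MP_20d318_ag.Lat (cone IsCone RP Intg Concl isCone_cone subset_cone)

namespace TrnA

variable {k K : Type} [Field k] [Field K] [Algebra k K] {X Z : Set (Subalgebra k K)}
  (g : AG.Aut X) {e : Subalgebra k K → K} {O : Subalgebra k K} {x : AG.N1 X}

/-- the image of a family of equations -/
def pl (e : Subalgebra k K → K) (O : Subalgebra k K) : K := g.1 (e (O.comap (g.1 : K →ₐ[k] K)))

theorem cart (h : IsCart X e) : IsCart X (pl g e) := (Cartier.pull g ⟨e, h⟩).loc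

theorem cl_pl (h : IsCart X e) : cl X (pl g e) = g.n1 (cl X e) := by
  rw [cl_eq h, Aut.n1_n1, n1_eq]; rfl

theorem ed (h : Ed X e) : Ed X (pl g e) := ⟨cart g h.1, fun O hO => h.2 _ ((g.2 O).1 hO)⟩

theorem un (h : Un X e (O.comap (g.1 : K →ₐ[k] K))) : Un X (pl g e) O :=
  fun P hP hle => h (pc g.1 P) ((g.2 _).1 hP) fun _ ha => hle ha

theorem bb {b : K} (h : b ∈ BB X e) : g.1 b ∈ BB X (pl g e) :=
  fun P hP h0 => h (pc g.1 P) ((g.2 _).1 hP) h0

theorem le_fr (h : O.comap (g.1 : K →ₐ[k] K) ≤ fr (BB X e) (O.comap (g.1 : K →ₐ[k] K))) :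
    O ≤ fr (BB X (pl g e)) O := fun f hf => by
  obtain ⟨a, ha, b, hb, hu, h1⟩ := h (show g.1.symm f ∈ O.comap (g.1 : K →ₐ[k] K) by simpa using hf)
  exact ⟨g.1 a, bb g ha, g.1 b, bb g hb, (isU_comap _).1 hu, by rw [← map_div₀, ← h1]; simp⟩

theorem kr (h : Kr X (O.comap (g.1 : K →ₐ[k] K))) : Kr X O := fun a ha => by
  have := h (g.1.symm a) fun P hP hle => ha (pc g.1.symm P) ((g.inv.2 _).1 hP) fun b hb =>
    hle (show g.1.symm b ∈ O.comap (g.1 : K →ₐ[k] K) by simpa using hb)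
  simpa using this

theorem mem_tr (h : O ∈ Z) : O.comap (g.1.symm : K →ₐ[k] K) ∈ Tr Z g := by
  show (O.comap _).comap _ ∈ Z
  rwa [symm_comap]

theorem good (h : Good Z) : Good (Tr Z g) where
  loc O hO := comap_symm g.1 O ▸ isLocalRing_comap _ (h.loc _ hO)
  sep O₁ h1 O₂ h2 W hW d1 d2 := by
    rw [← comap_symm g.1 O₁, h.sep _ h1 _ h2 _ (isLocalRing_comap _ hW) (d1.comap _) (d2.comap _),
      comap_symm]
  cpl V hV := by
    obtain ⟨O, hO, hd⟩ := h.cpl (V.comap (g.1 : K →ₐ[k] K)) fun f => by simpa using hV (g.1 f)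
    exact ⟨_, mem_tr g hO, comap_symm g.1 V ▸ hd.comap _⟩
  fg O hO := by
    obtain ⟨G, h1, h2, h3⟩ := h.fg _ hO
    refine ⟨(g.1 : K →ₐ[k] K) '' G, h1.image _, ?_, fun O' hO' => h3 ?_⟩
    · rwa [← AlgHom.map_adjoin, B1.Pts_comap]
    · rwa [← AlgHom.map_adjoin, B1.Pts_comap] at hO'

theorem sa (h : SaAt X x (O.comap (g.1 : K →ₐ[k] K))) : SaAt X (g.n1 x) O :=
  let ⟨m, e, a, b, c, d⟩ := h
  ⟨m, pl g e, a, ed g b, by rw [cl_pl g b.1, c, map_nsmul], un g d⟩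

theorem lc (h : LcAt X x (O.comap (g.1 : K →ₐ[k] K))) : LcAt X (g.n1 x) O :=
  let ⟨m, e, a, b, c, d, f⟩ := h
  ⟨m, pl g e, a, ed g b, by rw [cl_pl g b.1, c, map_nsmul], un g d, le_fr g f⟩

variable [IsAlgClosed k]

theorem ll (hX : Good X) (h : x ∈ LL X) : g.n1 x ∈ LL X := by
  obtain ⟨f, a, rfl⟩ := (mem_LL hX).1 h
  exact cl_pl g a ▸ cl_mem (cart g a)

theorem so (hX : Good X) (h : x ∈ SO X (O.comap (g.1 : K →ₐ[k] K))) : g.n1 x ∈ SO X O :=
  (isCone_SO.preimage g.n1).cone_subset (fun _ hy => (sa g hy.2).so (ll g hX hy.1)) h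

end TrnA

theorem trn_stmt : TrnStmt := fun _ _ _ _ _ _ X r g Z => by
  have hX : Good X := r.nice.toGood
  refine ⟨fun h => ⟨TrnA.good g h.good, fun O hO => TrnA.kr g (h.kr _ hO)⟩,
    fun x => ⟨fun h O hO => ?_, fun h O hO => TrnA.so g hX (h _ hO)⟩,
    fun x h => ⟨TrnA.ll g hX h.1, fun O hO => TrnA.lc g (h.2 _ hO)⟩⟩
  have h1 := TrnA.so g.inv hX (h _ (TrnA.mem_tr g hO))
  rwa [show g.inv.n1 (g.n1 x) = x from g.eqv.left_inv x] at h1

end Pool.Agent.MP_20d318_ag.AM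

end
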