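import Pool.Agent.MP_20d318_ag.AM.K1

/-! Rows on models, first part. -/

section

set_option autoImplicit false
set_option linter.unusedSectionVars false

namespace Pool.Agent.MP_20d318_ag.AM

open Pool.Agent.MP_fd6584_ag Pool.Agent.MP_fd6584_ag.Fn Pool.Agent.CBk
open Pool.Agent.MP_fd6584_ag.AG hiding deg_inv deg_congr deg_of_unit deg_mul deg_prod deg_zpow
  deg_eq_zero deg_nonneg deg_div deg_pow
open Pool.Agent.MVg (Sc Fac Av)
open Pool.Agent.MP_20d318_ag.CH (cl cl_val cl_mem cl_eff n1_ext n1_eq)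
open Pool.Agent.MP_20d318_ag.Lat (cone IsCone RP Intg Concl isCone_cone subset_cone)


namespace PsiA

variable {k K : Type} [Field k] [IsAlgClosed k] [Field K] [Algebra k K]
  {X Z : Set (Subalgebra k K)} {f f' g g' : Subalgebra k K → K} {m m' : ℕ}

theorem canc {W : Type*} [AddCommGroup W] [Module ℝ W] {n : ℕ} (hn : 0 < n) {x y : W}
    (h : n • x = n • y) : x = y := by
  rw [← Nat.cast_smul_eq_nsmul ℝ, ← Nat.cast_smul_eq_nsmul ℝ] at h
  exact smul_right_injective W (show (n : ℝ) ≠ 0 by positivity) h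

theorem key (r : Ref X) (s : Sm X Z) (hf : IsCart X f) (hg : IsCart X g) (hf' : IsCart Z f')
    (hg' : IsCart Z g') (a : Mt X f f' m) (b : Mt X g g' m') (e : cl X f = cl X g) :
    m' • cl Z f' = m • cl Z g' := by
  have gX : Good X := r.nice.toFine.toGood
  have gZ : Good Z := s.nice.toFine.toGood
  obtain ⟨n, μ, hn, h⟩ := r.nl (f / g) (hf.div hg) (by rw [cl_div gX hf hg, e, sub_self])
  obtain ⟨O, hO, -⟩ := gX.cpl ⊤ fun _ => Or.inl trivial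
  have hμ : μ ≠ 0 := left_ne_zero_of_mul (h O hO).1
  have h1 : cl Z (f' ^ (n * m')) = cl Z (g' ^ (n * m)) := by
    refine cl_lin gZ (hf'.pow _) (hg'.pow _) (μ := μ ^ (m * m')) fun O hO => ?_
    refine s.nice.unit_div (f := fun O => μ ^ (m * m') * (f' ^ (n * m')) O)
      ((isCart_const (pow_ne_zero _ hμ)).mul (hf'.pow _)) (hg'.pow _) hO fun P hP => ?_
    have hX := (s.pl P).1 hP
    have h2 := ((isU_plO' P).1 (h _ hX)).2
    rw [P.ord_mul hμ (pow_ne_zero _ ((hf.div hg).ne hX)), P.ord_pow, Pi.div_apply,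
      P.ord_div (hf.ne hX) (hg.ne hX)] at h2
    rw [P.ord_mul (pow_ne_zero _ hμ) ((hf'.pow _).ne hP), Pi.pow_apply, Pi.pow_apply, P.ord_pow,
      P.ord_pow, P.ord_pow, a P hX, b P hX]
    push_cast
    linear_combination ((m : ℤ) * m') * h2
  rw [cl_pow gZ hf', cl_pow gZ hg', mul_smul, mul_smul] at h1
  exact canc hn h1

variable (X Z) in
/-- The graph of the map. -/
def Rel (x : AG.N1 X) (y : AG.N1 Z) : Prop := ∃ (f f' : Subalgebra k K → K) (m : ℕ), 0 < m ∧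
  IsCart X f ∧ IsCart Z f' ∧ Mt X f f' m ∧ cl X f = x ∧ m • y = cl Z f'

theorem Rel.mt (r : Ref X) (s : Sm X Z) {y : AG.N1 Z} (h : Rel X Z (cl X f) y) (hf : IsCart X f)
    (hf' : IsCart Z f') (a : Mt X f f' m) : m • y = cl Z f' := by
  obtain ⟨g, g', n, hn, hg, hg', b, e, e'⟩ := h
  refine canc hn ?_
  rw [smul_comm, e', key r s hf hg hf' hg' a b e.symm]

theorem Rel.uniq (r : Ref X) (s : Sm X Z) {x : AG.N1 X} {y y' : AG.N1 Z} (h : Rel X Z x y)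
    (h' : Rel X Z x y') : y = y' := by
  obtain ⟨g, g', n, hn, hg, hg', b, rfl, e'⟩ := h'
  exact canc hn ((h.mt r s hg hg' b).trans e'.symm)

theorem Rel.add (r : Ref X) (s : Sm X Z) {x x' : AG.N1 X} {y y' : AG.N1 Z} (h : Rel X Z x y)
    (h' : Rel X Z x' y') : Rel X Z (x + x') (y + y') := by
  obtain ⟨f, f', m, hm, hf, hf', a, rfl, e⟩ := h
  obtain ⟨g, g', n, hn, hg, hg', b, rfl, e'⟩ := h'
  have gZ : Good Z := s.nice.toFine.toGood
  refine ⟨f * g, f' ^ n * g' ^ m, m * n, Nat.mul_pos hm hn, hf.mul hg, (hf'.pow n).mul (hg'.pow m),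
    fun P hP => ?_, cl_mul r.nice.toFine.toGood hf hg, ?_⟩
  · have hZ := (s.pl P).2 hP
    rw [Pi.mul_apply, Pi.mul_apply, P.ord_mul ((hf'.pow n).ne hZ) ((hg'.pow m).ne hZ),
      P.ord_mul (hf.ne hP) (hg.ne hP), Pi.pow_apply, Pi.pow_apply, P.ord_pow, P.ord_pow, a P hP,
      b P hP]
    push_cast
    ring
  · rw [cl_mul gZ (hf'.pow n) (hg'.pow m), cl_pow gZ hf', cl_pow gZ hg', ← e, ← e', smul_add,
      smul_smul, smul_smul, mul_comm n m]

theorem exists_rel (r : Ref X) (u : Upd X Z) (x : LL X) : ∃ y, Rel X Z x y := by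
  obtain ⟨f, hf, e⟩ := (mem_LL r.nice.toFine.toGood).1 x.2
  obtain ⟨m, f', hm, hf', a⟩ := u.up f hf
  refine ⟨(m : ℝ)⁻¹ • cl Z f', f, f', m, hm, hf, hf', a, e, ?_⟩
  rw [← Nat.cast_smul_eq_nsmul ℝ, smul_inv_smul₀ (by positivity)]

theorem n1_cl (g : AG.Aut X) (hf : IsCart X f) :
    g.n1 (cl X f) = cl X (Cartier.pull g ⟨f, hf⟩).f := by
  rw [CH.cl_eq hf, Aut.n1_n1, n1_eq]

end PsiA

open PsiA in
theorem psi_stmt : PsiStmt := by
  intro ext sol k K _ _ _ _ X r Z s u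
  choose F hF using exists_rel r u
  obtain ⟨Ψ, hΨ⟩ := ext sol (AG.N1 X) (AG.N1 Z) (LL X) (lt_LL r.fd)
    (AddMonoidHom.mk' F fun a b => (hF (a + b)).uniq r s ((hF a).add r s (hF b)))
  have mt : ∀ f f' (m : ℕ), IsCart X f → IsCart Z f' → Mt X f f' m →
      m • Ψ (cl X f) = cl Z f' := fun f f' m hf hf' a => by
    rw [hΨ ⟨cl X f, cl_mem hf⟩]
    exact (hF ⟨cl X f, cl_mem hf⟩).mt r s hf hf' a
  have dn : ∀ D : Cartier Z, ∃ f, IsCart X f ∧ Mt X f D.f 1 ∧ Ψ (cl X f) = D.n1 := fun D => by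
    obtain ⟨f, hf, a⟩ := u.dn D.f D.isCart
    exact ⟨f, hf, a, by rw [n1_eq, ← mt f D.f 1 hf D.isCart a, one_smul]⟩
  refine ⟨Ψ, u, mt, ?_, ?_, ?_, fun g g' e x => ?_⟩
  · rw [← LinearMap.range_eq_top, eq_top_iff, ← CH.span_cl, Submodule.span_le]
    rintro _ ⟨D, rfl⟩
    obtain ⟨f, -, -, h⟩ := dn D
    exact ⟨_, h⟩
  · refine fun x hx => ((isCone_cone _).preimage Ψ).cone_subset ?_ hx
    rintro _ ⟨D, hD, rfl⟩
    obtain ⟨m, f', hm, hf', a⟩ := u.up D.f D.isCart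
    have h1 : Ed Z f' := ed_of s.nice hf' fun P hP => by
      have hX := (s.pl P).1 hP
      rw [a P hX]
      exact mul_nonneg (Int.natCast_nonneg m) (mem_plO_ord.1 (hD _ hX))
    refine IsCone.of_nsmul (isCone_cone _) hm ?_
    rw [n1_eq, mt D.f f' m D.isCart hf' a]
    exact h1.ef
  · refine fun y hy => ((isCone_cone _).image Ψ).cone_subset ?_ hy
    rintro _ ⟨D, hD, rfl⟩
    obtain ⟨f, hf, a, h⟩ := dn D
    have h1 : Ed X f := ed_of r.nice hf fun P hP => by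
      have := a P hP
      have h2 := mem_plO_ord.1 (hD _ ((s.pl P).2 hP))
      rw [Nat.cast_one, one_mul] at this
      rwa [← this]
    exact ⟨_, h1.ef, h⟩
  · refine LinearMap.congr_fun (CH.lin_ext (a := Ψ ∘ₗ g.n1) (b := g'.n1 ∘ₗ Ψ) fun f hf => ?_) x
    obtain ⟨m, f', hm, hf', a⟩ := u.up f hf
    refine canc hm ?_
    rw [LinearMap.comp_apply, LinearMap.comp_apply, ← map_nsmul g'.n1, mt f f' m hf hf' a,
      n1_cl g hf, n1_cl g' hf']
    refine mt _ _ m (Cartier.isCart _) (Cartier.isCart _) fun P hP => ?_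
    have := a (MVg.pc g.1 P) ((g.2 _).1 hP)
    change P.ord (g'.1 (f' ((plO P).comap (g'.1 : K →ₐ[k] K)))) = _
    rw [← e]
    exact this

end Pool.Agent.MP_20d318_ag.AM

end

section

set_option autoImplicit false
set_option linter.unusedSectionVars false

namespace Pool.Agent.MP_20d318_ag.AM

open Pool.Agent.MP_fd6584_ag Pool.Agent.MP_fd6584_ag.Fn Pool.Agent.CBk
open Pool.Agent.MP_fd6584_ag.AG hiding deg_inv deg_congr deg_of_unit deg_mul deg_prod deg_zpow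
  deg_eq_zero deg_nonneg deg_div deg_pow
open Pool.Agent.MP_20d318_ag.CH (cl cl_val)
open Pool.Agent.MP_20d318_ag.Lat (IsCone)

namespace DegA

variable {k K : Type} [Field k] [Field K] [Algebra k K] {X Z : Set (Subalgebra k K)}
  {e e' : Subalgebra k K → K} {m : ℕ} {O : Subalgebra k K}

theorem unit (s : Sm X Z) (h : IsCart Z e') (t : Mt X e e' m) (hO : O ∈ Z) (u : Un X e O) :
    IsU O (e' O) :=
  s.nice.unit h hO fun P a b => by rw [t P ((s.pl P).1 a), u P ((s.pl P).1 a) b, mul_zero]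

theorem un (s : Sm X Z) (h : IsCart Z e') (t : Mt X e e' m) (hm : 0 < m) (hO : O ∈ Z)
    (u : IsU O (e' O)) : Un X e O := fun P a b => by
  have h1 := (u.mono b).div (h.unit hO ((s.pl P).2 a) b)
  rw [div_div_cancel₀ u.1] at h1
  have h2 := ((isU_plO' P).1 h1).2
  rw [t P a] at h2
  exact (mul_eq_zero.1 h2).resolve_left (by exact_mod_cast hm.ne')

theorem eff (s : Sm X Z) (h : IsCart Z e') (t : Mt X e e' m) (d : Ed X e) : ∀ O ∈ Z, e' O ∈ O :=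
  fun _ hO => s.nice.eff h hO fun P a _ => by
    rw [t P ((s.pl P).1 a)]
    exact mul_nonneg (Int.natCast_nonneg m) (d.ord ((s.pl P).1 a))

variable [IsAlgClosed k]

theorem val {Ψ : AG.N1 X →ₗ[ℝ] AG.N1 Z} (p : Ps X Z Ψ) (he : IsCart X e) (h : IsCart Z e')
    (t : Mt X e e' m) (ν : AG.Curve Z) : (m : ℝ) * ν.lin (Ψ (cl X e)) = ν.deg e' := by
  rw [← cl_val h, ← p.mt e e' m he h t, map_nsmul, nsmul_eq_mul]

/-- An effective divisor of degree zero that avoids the generic point avoids the curve. -/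
theorem unit_pt (hZ : Good Z) (h : IsCart Z e') (he : ∀ O ∈ Z, e' O ∈ O) (ν : AG.Curve Z)
    (u : IsU ν.gen (e' ν.gen)) (hd : ν.deg e' ≤ 0) (Q : Place k ν.L) :
    IsU (ν.pt Q) (e' (ν.pt Q)) := by
  have h2 := fun P => h.unit (ν.pt_mem P) ν.gen_mem (ν.pt_le P)
  have h1 : ∀ P : Place k ν.L, P.ord (ν.ev (e' (ν.pt P))) =
      P.ord (ν.ev (e' (ν.pt P) / e' ν.gen)) + P.ord (ν.ev (e' ν.gen)) := fun P => by
    rw [ν.ev_eq, ν.ev_eq, ν.ev_eq, ← P.ord_mul (evO_ne _ (h2 P)) (evO_ne _ u),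
      ← evO_mul _ (h2 P).2.1 u.2.1, div_mul_cancel₀ _ u.1]
  have h3 : (Function.support fun P : Place k ν.L => P.ord (ν.ev (e' (ν.pt P)))).Finite := by
    refine ((h.fin hZ ν).union (FF.finite_ord (K := k) (ν.ev (e' ν.gen)))).subset fun P hP => ?_
    by_contra hn
    simp only [Set.mem_union, Function.mem_support, ne_eq, not_or, not_not] at hn
    exact hP (by simp only [h1 P, hn.1, hn.2, add_zero])
  have h4 := fun P : Place k ν.L => FF.ord_nonneg (ν.v_le P (he _ (ν.pt_mem P)))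
  have h5 := single_le_finsum Q h3 h4
  rw [← deg_of_unit hZ h ν u] at h5
  have h6 := (h2 Q).mul u
  rw [div_mul_cancel₀ _ u.1] at h6
  exact (ν.v_eq_one_iff Q (he _ (ν.pt_mem Q))).1
    ((FF.v_eq_one_iff Q (evO_ne _ h6)).2 (le_antisymm (h5.trans hd) (h4 Q)))

theorem const_div {L : Type} [Field L] [Algebra k L] {a b : L}
    (ha : ∃ c : k, a = algebraMap k L c) (hb : ∃ c : k, b = algebraMap k L c) :
    ∃ c : k, a / b = algebraMap k L c :=
  let ⟨c, h⟩ := ha; let ⟨d, h'⟩ := hb; ⟨c / d, by rw [h, h', map_div₀]⟩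

/-- A curve inside an affine set is a point. -/
theorem ratPt (hZ : Good Z) (ν : AG.Curve Z) {R : Subalgebra k K} (h : ∀ Q, R ≤ ν.pt Q)
    (Q : Place k ν.L) (hQ : ν.pt Q ≤ fr R (ν.pt Q)) : RatPt ν.gen := by
  have h1 : ∀ b ∈ R, ∃ c : k, ν.ev b = algebraMap k ν.L c := fun b hb =>
    const_of_regular fun P => by simpa [Place.Ge] using ν.v_le P (h P hb)
  have h2 : ∀ f ∈ ν.pt Q, ∃ c : k, ν.ev f = algebraMap k ν.L c := fun f hf => by
    obtain ⟨a, ha, b, hb, hu, rfl⟩ := hQ hf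
    rw [ev_div ν (ν.pt_le Q (h Q ha)) (hu.mono (ν.pt_le Q))]
    exact const_div (h1 a ha) (h1 b hb)
  obtain ⟨G, -, g1, g2⟩ := hZ.fg _ (ν.pt_mem Q)
  obtain ⟨c, c1, c2⟩ := exists_ctr (hZ.loc _ ν.gen_mem) (g1.2.1.trans (ν.pt_le Q))
  rw [hZ.sep _ (g2 c1) _ ν.gen_mem _ (hZ.loc _ ν.gen_mem) c2 (Dom.refl _)] at c1
  intro f hf
  obtain ⟨a, ha, b, hb, hu, e⟩ := c1.2.2 f hf
  obtain ⟨c, hc⟩ := const_div (h2 a (g1.2.1 ha)) (h2 b (g1.2.1 hb))
  rw [← ev_div ν (c1.2.1 ha) hu, ← e] at hc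
  refine ⟨c, (ev_eq_zero ν (ν.gen.sub_mem hf (ν.gen.algebraMap_mem c))).1 ?_⟩
  rw [ev_sub_const ν hf, hc, sub_self]

end DegA

open DegA in
theorem deg_stmt : DegStmt := by
  intro k K _ _ _ _ X _ Z s Ψ p
  have hZ := s.nice.toGood
  refine ⟨fun ν => IsCone.cone_subset (S := {x | 0 ≤ ν.lin (Ψ x)}) ⟨?_, fun x a y b => ?_,
    fun c hc x a => ?_⟩ ?_, fun ν e he h => ?_, fun x hx ν hν => ?_⟩
  · simp
  · simpa using add_nonneg a b
  · simpa using mul_nonneg hc a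
  · rintro x ⟨-, m, e, hm, d, c, u⟩
    obtain ⟨m', e', hm', h, t⟩ := p.up e d.1
    have h1 := val p d.1 h t ν
    have h2 : (0 : ℝ) ≤ ν.deg e' := by
      exact_mod_cast deg_nonneg hZ h (eff s h t d) ν (unit s h t ν.gen_mem u)
    rw [← h1, c, map_nsmul, map_nsmul, nsmul_eq_mul, ← mul_assoc] at h2
    exact nonneg_of_mul_nonneg_right h2 (by positivity)
  · obtain ⟨m', e', hm', h', t⟩ := p.up e he
    obtain ⟨Q⟩ : Nonempty (Place k ν.L) := inferInstance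
    have h1 := val p he h' t ν
    rw [deg_of_unit hZ h' ν (unit s h' t ν.gen_mem ((h Q).mono (ν.pt_le Q))),
      finsum_eq_zero_of_forall_eq_zero fun P => ν.ord_unit P (unit s h' t (ν.pt_mem P) (h P)),
      Int.cast_zero] at h1
    exact (mul_eq_zero.1 h1).resolve_left (by exact_mod_cast hm'.ne')
  · obtain ⟨Q⟩ : Nonempty (Place k ν.L) := inferInstance
    obtain ⟨m, e, hm, d, c, u, l⟩ := hx.2 _ (ν.pt_mem Q)
    obtain ⟨m', e', hm', h, t⟩ := p.up e d.1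
    have h1 := val p d.1 h t ν
    rw [c, map_nsmul, map_nsmul, nsmul_eq_mul, ← mul_assoc] at h1
    by_contra hn
    have h2 : ν.deg e' ≤ 0 := by
      have : (ν.deg e' : ℝ) ≤ 0 := h1 ▸ mul_nonpos_of_nonneg_of_nonpos (by positivity) (not_lt.1 hn)
      exact_mod_cast this
    exact hν (ratPt hZ ν (fun P => BB_le (s.md.kr _ (ν.pt_mem P)) (un s h t hm' (ν.pt_mem P)
      (unit_pt hZ h (eff s h t d) ν (unit s h t ν.gen_mem (u.mono (ν.pt_le Q))) h2 P))) Q l)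

end Pool.Agent.MP_20d318_ag.AM

end

section

set_option autoImplicit false
set_option linter.unusedSectionVars false

namespace Pool.Agent.MP_20d318_ag.AM

open Pool.Agent.MP_fd6584_ag Pool.Agent.MP_fd6584_ag.Fn Pool.Agent.CBk
open Pool.Agent.MP_fd6584_ag.AG hiding deg_inv deg_congr deg_of_unit deg_mul deg_prod deg_zpow
  deg_eq_zero deg_nonneg deg_div deg_pow
open Pool.Agent.MP_20d318_ag.CH (cl cl_val cl_mem cl_eff n1_ext n1_eq)

namespace HypA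

variable {k K : Type} [Field k] [Field K] [Algebra k K] {J : Type}

theorem gn_chart (𝒞 : Pj.Charts k K J) {j : J} {O : Subalgebra k K} (h : 𝒞.B j ≤ O) :
    Gn (Set.range 𝒞.f) O (𝒞.f j) :=
  gn_of_mem ⟨j, rfl⟩ (𝒞.f_ne j) (by rintro _ ⟨i, rfl⟩; exact h (𝒞.ratio i j))

theorem gn_pts (𝒞 : Pj.Charts k K J) {O : Subalgebra k K} (h : O ∈ Sch.pts 𝒞) :
    Gn (Set.range 𝒞.f) O (gn (Set.range 𝒞.f) O) := by
  obtain ⟨j, hj⟩ := Set.mem_iUnion.1 h
  exact gn_spec (gn_chart 𝒞 hj.2.1).prin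

end HypA

open HypA in
theorem hyp_stmt : HypStmt := by
  intro k K _ _ _ _ X r Z s u
  obtain ⟨J, _, 𝒞, hZ⟩ := s.ch
  have hX : Good X := r.nice.toGood
  have hγ : IsCart Z (gn (Set.range 𝒞.f)) :=
    isCart_of_gn (Set.finite_range _) fun O hO => gn_pts 𝒞 (hZ ▸ hO)
  obtain ⟨g, hg, hm⟩ := u.dn _ hγ
  refine ⟨cl X g⁻¹, cl_mem hg.inv, fun O hO => ?_⟩
  obtain ⟨j, hj⟩ := Set.mem_iUnion.1 (show O ∈ Sch.pts 𝒞 from hZ ▸ hO)
  have hG : ∀ P : Place k K, plO P ∈ X →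
      Gn (Set.range 𝒞.f) (plO P) (gn (Set.range 𝒞.f) (plO P)) :=
    fun P hP => gn_pts 𝒞 (hZ ▸ (s.pl P).2 hP)
  have ho : ∀ P : Place k K, plO P ∈ X → P.ord (𝒞.f j * g⁻¹ (plO P)) =
      P.ord (𝒞.f j / gn (Set.range 𝒞.f) (plO P)) := fun P hP => by
    have := hm P hP
    rw [Pi.inv_apply, ← div_eq_mul_inv, P.ord_div (𝒞.f_ne j) (hg.ne hP),
      P.ord_div (𝒞.f_ne j) (hG P hP).ne, this, Nat.cast_one, one_mul]
  have hc : IsCart X fun O => 𝒞.f j * g⁻¹ O := (isCart_const (𝒞.f_ne j)).mul hg.inv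
  refine ⟨1, fun O => 𝒞.f j * g⁻¹ O, one_pos, ed_of r.nice hc fun P hP => ?_, ?_,
    fun P hP hle => ?_, fun a ha => ?_⟩
  · rw [ho P hP]
    exact mem_plO_ord.1 ((hG P hP).1 _ ⟨j, rfl⟩)
  · rw [one_smul]
    exact cl_cmul hX hg.inv (𝒞.f_ne j)
  · rw [ho P hP]
    exact ((isU_plO' P).1 ((gn_chart 𝒞 (hj.2.1.trans hle)).unit (hG P hP))).2
  · have hB : 𝒞.B j ≤ BB X fun O => 𝒞.f j * g⁻¹ O := fun c hc P hP h0 => by
      obtain ⟨i, hi⟩ := Set.mem_iUnion.1 (show plO P ∈ Sch.pts 𝒞 from hZ ▸ (s.pl P).2 hP)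
      rw [ho P hP] at h0
      have u1 : IsU (plO P) (𝒞.f j / gn (Set.range 𝒞.f) (plO P)) :=
        (isU_plO' P).2 ⟨div_ne_zero (𝒞.f_ne j) (hG P hP).ne, h0⟩
      have u2 := u1.mul ((hG P hP).unit (gn_chart 𝒞 hi.2.1))
      rw [div_mul_div_cancel₀ (hG P hP).ne] at u2
      obtain ⟨N, hN⟩ := 𝒞.comp j i c hc
      have := (u2.pow N).div_mem (hi.2.1 hN)
      rwa [mul_div_cancel_left₀ _ (u2.pow N).1] at this
    obtain ⟨b, hb, c, hc, hu, e⟩ := hj.2.2 a ha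
    exact ⟨b, hB hb, c, hB hc, hu, e⟩

end Pool.Agent.MP_20d318_ag.AM

end

section

set_option autoImplicit false
set_option linter.unusedSectionVars false

namespace Pool.Agent.MP_20d318_ag.AM

open Pool.Agent.MP_fd6584_ag Pool.Agent.MP_fd6584_ag.Fn Pool.Agent.CBk
open Pool.Agent.MP_fd6584_ag.AG hiding deg_inv deg_congr deg_of_unit deg_mul deg_prod deg_zpow
  deg_eq_zero deg_nonneg deg_div deg_pow
open Pool.Agent.MVg (Sc Fac Av)
open Pool.Agent.MP_20d318_ag.CH (cl cl_val cl_mem cl_eff n1_ext n1_eq)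
open Pool.Agent.MP_20d318_ag.Lat (cone IsCone RP Intg Concl isCone_cone subset_cone)

namespace SigA

variable {k K : Type} [Field k] [IsAlgClosed k] [Field K] [Algebra k K]
  {X : Set (Subalgebra k K)} {J : Type} [Fintype J] {d : J → Subalgebra k K → K}
  {S : Set (AG.N1 X)} {O : Subalgebra k K}

/-- The cone of the generators with index in `I`. -/
def cn (X : Set (Subalgebra k K)) (d : J → Subalgebra k K → K) (I : Set J) : Set (AG.N1 X) :=
  cone ((fun j => cl X (d j)) '' I)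

theorem rp_cn (h : Fg X d S) (I : Set J) : RP (LL X) (cn X d I) :=
  rp_fin (I.toFinite.image _) (by rintro _ ⟨j, -, rfl⟩; exact cl_mem (h.1 j).1)

theorem eff (hX : Good X) (h : Fg X d S) (hO : IsLocalRing O) (hK : Kr X O)
    {e : Subalgebra k K → K} (he : Ed X e) (hS : cl X e ∈ S) (hu : Un X e O) :
    cl X e ∈ cn X d {j | Un X (d j) O} := by
  obtain ⟨V, hV, hD⟩ := exists_val hO
  obtain ⟨m, a, μ, hm, hμ, hU⟩ := h.2 e he hS V hV
  obtain ⟨O₀, hO₀, -⟩ := hX.cpl ⊤ fun _ => Or.inl trivial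
  have h0 : μ ≠ 0 := left_ne_zero_of_mul (div_ne_zero_iff.1 (hU O₀ hO₀).1).1
  have hn : ∀ P : Place k K, plO P ∈ X → ∀ j ∈ (Finset.univ : Finset J),
      0 ≤ (a j : ℤ) * P.ord (d j (plO P)) := fun P hP j _ =>
    mul_nonneg (Int.natCast_nonneg _) ((h.1 j).ord hP)
  have ho : ∀ P : Place k K, plO P ∈ X → O ≤ plO P →
      P.ord μ + ∑ j, (a j : ℤ) * P.ord (d j (plO P)) = 0 := fun P hP hle => by
    have h1 := ((isU_plO' P).1 (hU _ hP)).2
    have h2 : ∀ j ∈ (Finset.univ : Finset J), d j (plO P) ^ a j ≠ 0 := fun j _ =>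
      pow_ne_zero _ ((h.1 j).1.ne hP)
    rw [P.ord_div (mul_ne_zero h0 (Finset.prod_ne_zero_iff.2 h2)) (pow_ne_zero _ (he.1.ne hP)),
      P.ord_mul h0 (Finset.prod_ne_zero_iff.2 h2), P.ord_prod _ _ h2, P.ord_pow, hu P hP hle] at h1
    simpa using h1
  have hi : μ⁻¹ ∈ O := hK _ fun P hP hle => mem_plO_ord.2 (by
    have := ho P hP hle
    have := Finset.sum_nonneg (hn P hP)
    rw [P.ord_inv]
    omega)
  have hμO : μ ∈ O := by
    simpa using (hD.2 _ hi ⟨inv_ne_zero h0, hD.1 hi, by simpa using hμ⟩).2.2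
  have hz : ∀ j, a j ≠ 0 → Un X (d j) O := fun j hj P hP hle => by
    have h1 := ho P hP hle
    have h2 := mem_plO_ord.1 (hle hμO)
    have h3 := Finset.sum_nonneg (hn P hP)
    have h4 := (Finset.sum_eq_zero_iff_of_nonneg (hn P hP)).1 (by omega) j (Finset.mem_univ j)
    exact (mul_eq_zero.1 h4).resolve_left (by exact_mod_cast hj)
  have hc : ∀ j ∈ (Finset.univ : Finset J), IsCart X (d j ^ a j) := fun j _ => (h.1 j).1.pow _
  have hl : cl X (∏ j, d j ^ a j) = cl X (e ^ m) :=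
    cl_lin hX (isCart_prod hc) (he.1.pow m) (μ := μ) fun O' hO' => by
      simpa using hU O' hO'
  refine IsCone.of_nsmul (isCone_cone _) hm ?_
  rw [← cl_pow hX he.1, ← hl, cl_prod hX hc]
  refine (isCone_cone _).sum_mem _ _ fun j _ => ?_
  rw [cl_pow hX (h.1 j).1]
  by_cases hj : a j = 0
  · rw [hj, zero_smul]
    exact (isCone_cone _).zero
  · exact IsCone.nsmul (isCone_cone _) _ (subset_cone _ ⟨j, hz j hj, rfl⟩)

theorem key (hI : IntStmt.{1}) (r : Ref X) (hS : RP (LL X) S) (h : Fg X d S) (hO : IsLocalRing O)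
    (hK : Kr X O) {x : AG.N1 X} (hx : x ∈ S) : x ∈ SO X O ↔ x ∈ cn X d {j | Un X (d j) O} := by
  refine ⟨fun h1 => ?_, fun h1 => Lat.cone_mono ?_ h1⟩
  · obtain ⟨Q, hQ, h2⟩ := exists_fin h1
    obtain ⟨R, hR, hRe⟩ := hI.two (lt_LL r.fd) (rp_fin Q.finite_toSet fun y hy => (hQ hy).1) hS
    have h3 : x ∈ cone (R : Set (AG.N1 X)) := hRe ▸ ⟨h2, hx⟩
    refine (isCone_cone _).cone_subset (fun y hy => ?_) h3
    have h4 : y ∈ cone (Q : Set (AG.N1 X)) ∩ S := hRe ▸ subset_cone _ hy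
    obtain ⟨m, e, hm, he, hc, hu⟩ := r.sa y (hR hy) O (Lat.cone_mono hQ h4.1)
    refine IsCone.of_nsmul (isCone_cone _) hm ?_
    rw [← hc]
    exact eff r.nice.toGood h hO hK he (hc ▸ IsCone.nsmul (rp_cone hS) m h4.2) hu
  · rintro _ ⟨j, hj, rfl⟩
    exact ⟨cl_mem (h.1 j).1, 1, d j, one_pos, h.1 j, (one_smul _ _).symm, hj⟩

end SigA

theorem sig_stmt : SigStmt := by
  intro hI k K _ _ _ _ X r S hS ⟨J, _, d, h⟩
  have hZ : ∀ Z : Set (Subalgebra k K), (∀ O ∈ Z, IsLocalRing O ∧ Kr X O) →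
      SA X Z ∩ S = S ∩ ⋂₀ (SigA.cn X d '' ((fun O => {j | Un X (d j) O}) '' Z)) := fun Z hZ => by
    ext x
    simp only [Set.mem_inter_iff, Set.mem_sInter, Set.forall_mem_image]
    exact ⟨fun a => ⟨a.2, fun O hO =>
        (SigA.key hI r hS h (hZ O hO).1 (hZ O hO).2 a.2).1 (a.1 O hO)⟩,
      fun a => ⟨fun O hO => (SigA.key hI r hS h (hZ O hO).1 (hZ O hO).2 a.1).2 (a.2 hO), a.1⟩⟩
  refine ⟨Set.range fun U : Set (Set J) => S ∩ ⋂₀ (SigA.cn X d '' U), Set.finite_range _, ?_,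
    fun O hO hK => ?_, fun Z hM => ⟨_, (hZ Z fun O hO => ⟨hM.good.loc O hO, hM.kr O hO⟩).symm⟩⟩
  · rintro _ ⟨U, rfl⟩
    refine hI _ _ (lt_LL r.fd) S hS _ (U.toFinite.image _) ?_
    rintro _ ⟨I, -, rfl⟩
    exact SigA.rp_cn h I
  · refine ⟨_, (hZ {O} fun O' hO' => hO' ▸ ⟨hO, hK⟩).symm.trans ?_⟩
    ext x
    simp [SA]

end Pool.Agent.MP_20d318_ag.AM

end

section

set_option autoImplicit false
set_option linter.unusedSectionVars false

namespace Pool.Agent.MP_20d318_ag.AM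

open Pool.Agent.MP_fd6584_ag Pool.Agent.MP_fd6584_ag.Fn Pool.Agent.CBk
open Pool.Agent.MP_fd6584_ag.AG hiding deg_inv deg_congr deg_of_unit deg_mul deg_prod deg_zpow
  deg_eq_zero deg_nonneg deg_div deg_pow
open Pool.Agent.MVg (Sc Fac Av)
open Pool.Agent.MP_20d318_ag.CH (cl cl_val cl_mem cl_eff n1_ext n1_eq)
open Pool.Agent.MP_20d318_ag.Lat (cone IsCone RP Intg Concl isCone_cone subset_cone)

namespace AmpA

variable {k K : Type} [Field k] [Field K] [Algebra k K] {X Z : Set (Subalgebra k K)}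
  {e f g : Subalgebra k K → K} {O : Subalgebra k K} {ρ : AG.N1 X}

theorem bnd (hX : Fine X) (hg : IsCart X g) :
    ∃ N : ℕ, ∀ P : Place k K, plO P ∈ X → -(N : ℤ) ≤ P.ord (g (plO P)) := by
  obtain ⟨N, hN⟩ := ((hX.fin_cart hg).image fun P => (P.ord (g (plO P))).natAbs).bddAbove
  refine ⟨N, fun P hP => ?_⟩
  by_cases h : P.ord (g (plO P)) = 0
  · omega
  · have := hN ⟨P, ⟨hP, h⟩, rfl⟩
    simp only at this
    omega

theorem kill (hO : O ≤ fr (BB X e) O) {F : Set (Place k K)} (hF : F.Finite)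
    (h : ∀ P ∈ F, plO P ∈ X ∧ P.ord (e (plO P)) = 0 ∧ ¬ O ≤ plO P) :
    ∃ c ∈ BB X e, IsU O c ∧ ∀ P ∈ F, 0 < P.ord c := by
  induction F, hF using Set.Finite.induction_on with
  | empty => exact ⟨1, one_mem _, isU_one, fun _ h => h.elim⟩
  | @insert P F _ _ ih =>
    obtain ⟨c, c1, c2, c3⟩ := ih fun Q hQ => h Q (Or.inr hQ)
    obtain ⟨p1, p2, p3⟩ := h P (Or.inl rfl)
    obtain ⟨a, a1, a2⟩ := SetLike.not_le_iff_exists.1 p3
    obtain ⟨b, b1, d, d1, d2, rfl⟩ := hO a1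
    have b0 : b ≠ 0 := fun e => a2 (by rw [e, zero_div]; exact zero_mem _)
    have d3 : 0 < P.ord d := by
      have h1 := mem_plO_ord.1 (b1 P p1 p2)
      have h2 := mt mem_plO_ord.2 a2
      rw [P.ord_div b0 d2.1] at h2
      omega
    refine ⟨c * d, mul_mem c1 d1, c2.mul d2, fun Q hQ => ?_⟩
    have h1 := mem_plO_ord.1 (c1 Q (h Q hQ).1 (h Q hQ).2.1)
    have h2 := mem_plO_ord.1 (d1 Q (h Q hQ).1 (h Q hQ).2.1)
    rw [Q.ord_mul c2.1 d2.1]
    rcases hQ with rfl | hQ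
    · omega
    · have := c3 Q hQ
      omega

variable [IsAlgClosed k]

theorem un (hX : Nice X) (hρ : ρ ∈ LL X) (hl : LcAt X ρ O) (hg : IsCart X g) (hu : Un X g O) :
    ∃ N : ℕ, 0 < N ∧ N • ρ + cl X g ∈ SO X O := by
  obtain ⟨m, e, m0, e1, e2, e3, e4⟩ := hl
  obtain ⟨c, c1, c2, c3⟩ := kill e4 (F := {P | plO P ∈ X ∧ P.ord (g (plO P)) ≠ 0} ∩
    {P | P.ord (e (plO P)) = 0}) ((hX.toFine.fin_cart hg).inter_of_left _)
    fun P hP => ⟨hP.1.1, hP.2, fun h => hP.1.2 (hu P hP.1.1 h)⟩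
  obtain ⟨N, hN⟩ := bnd hX.toFine hg
  have c0 : c ^ N ≠ 0 := pow_ne_zero _ c2.1
  have g1 : IsCart X fun O => c ^ N * g O := (isCart_const c0).mul hg
  obtain ⟨M, hM⟩ := bnd hX.toFine g1
  have g2 : IsCart X (e ^ (M + 1) * fun O => c ^ N * g O) := (e1.1.pow _).mul g1
  have o1 : ∀ P : Place k K, plO P ∈ X →
      P.ord (c ^ N * g (plO P)) = N * P.ord c + P.ord (g (plO P)) := fun P hP => by
    rw [P.ord_mul c0 (hg.ne hP), P.ord_pow]
  have o2 : ∀ P : Place k K, plO P ∈ X → P.ord ((e ^ (M + 1) * fun O => c ^ N * g O) (plO P)) =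
      (M + 1 : ℕ) * P.ord (e (plO P)) + P.ord (c ^ N * g (plO P)) := fun P hP => by
    rw [Pi.mul_apply, Pi.pow_apply, P.ord_mul (pow_ne_zero _ (e1.1.ne hP)) (g1.ne hP), P.ord_pow]
  have k1 : cl X (e ^ (M + 1) * fun O => c ^ N * g O) = ((M + 1) * m) • ρ + cl X g := by
    rw [cl_mul hX.toGood (e1.1.pow _) g1, cl_pow hX.toGood e1.1, cl_cmul hX.toGood hg c0, e2,
      mul_smul]
  refine ⟨(M + 1) * m, by positivity, SaAt.so ⟨1, _, one_pos, ed_of hX g2 fun P hP => ?_,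
    by rw [k1, one_smul], fun P hP h => ?_⟩ (add_mem (nsmul_mem hρ _) (cl_mem hg))⟩
  · rw [o2 P hP]
    have h1 := e1.ord hP
    by_cases h2 : P.ord (e (plO P)) = 0
    · rw [h2, o1 P hP]
      have h3 := mem_plO_ord.1 (c1 P hP h2)
      by_cases h4 : P.ord (g (plO P)) = 0
      · rw [h4]
        positivity
      · have h5 := c3 P ⟨⟨hP, h4⟩, h2⟩
        have h6 := hN P hP
        nlinarith [Int.natCast_nonneg N]
    · have h3 := hM P hP
      have h4 : 1 ≤ P.ord (e (plO P)) := by omega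
      push_cast
      nlinarith [Int.natCast_nonneg M]
  · have h1 : P.ord c = 0 := ((isU_plO' P).1 ⟨c2.1, h c2.2.1, h c2.2.2⟩).2
    rw [o2 P hP, o1 P hP, e3 P hP h, hu P hP h, h1]
    simp

theorem one (hX : Nice X) (s : Sm X Z) (u : Upd X Z) (hρ : Lc X Z ρ) (hO : O ∈ Z)
    (hf : IsCart X f) : ∃ N : ℝ, 0 < N ∧ N • ρ + cl X f ∈ SO X O := by
  obtain ⟨m, f', m0, f1, f2⟩ := u.up f hf
  have c0 : (f' O)⁻¹ ≠ 0 := inv_ne_zero (f1.ne hO)
  obtain ⟨N, N0, hN⟩ := un (g := fun O' => (f' O)⁻¹ * (f ^ m) O') hX hρ.1 (hρ.2 O hO)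
    ((isCart_const c0).mul (hf.pow m)) fun P hP h => by
      simp only [Pi.pow_apply]
      rw [P.ord_mul c0 (pow_ne_zero _ (hf.ne hP)), P.ord_inv, P.ord_pow,
        B2.ord_eq f1 hO ((s.pl P).2 hP) h, f2 P hP, neg_add_cancel]
  rw [cl_cmul hX.toGood (hf.pow m) c0, cl_pow hX.toGood hf] at hN
  have m1 : (0 : ℝ) < m := by exact_mod_cast m0
  refine ⟨N / m, by positivity, IsCone.of_nsmul isCone_SO m0 ?_⟩
  rwa [smul_add, ← Nat.cast_smul_eq_nsmul ℝ m, smul_smul, mul_div_cancel₀ _ m1.ne',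
    Nat.cast_smul_eq_nsmul]

theorem sm {M : Type*} [AddCommGroup M] [Module ℝ M] {p : M → Prop}
    (ps : ∀ c : ℝ, 0 ≤ c → ∀ v, p v → p (c • v)) (c : ℝ) {x : M} (a : p x ∧ p (-x)) :
    p (c • x) ∧ p (-(c • x)) := by
  rcases le_total 0 c with hc | hc
  · exact ⟨ps c hc _ a.1, smul_neg c x ▸ ps c hc _ a.2⟩
  · exact ⟨neg_smul_neg c x ▸ ps (-c) (neg_nonneg.2 hc) _ a.2,
      neg_smul c x ▸ ps (-c) (neg_nonneg.2 hc) _ a.1⟩

end AmpA

theorem amp_stmt : AmpStmt := by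
  intro k K _ _ _ _ X r Z s u ρ hρ O hO v
  have h0 : ρ ∈ SO X O := hρ.mem O hO
  let p : AG.N1 X → Prop := fun v => ∃ N : ℝ, 0 < N ∧ N • ρ + v ∈ SO X O
  have pa : ∀ v w, p v → p w → p (v + w) := fun v w ⟨N, a, b⟩ ⟨N', a', b'⟩ =>
    ⟨N + N', by positivity, by
      rw [add_smul, add_add_add_comm]; exact isCone_SO.add _ b _ b'⟩
  have ps : ∀ c : ℝ, 0 ≤ c → ∀ v, p v → p (c • v) := fun c hc v ⟨N, a, b⟩ =>
    ⟨1 + c * N, by positivity, by
      rw [add_smul, one_smul, mul_smul, add_assoc, ← smul_add]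
      exact isCone_SO.add _ h0 _ (isCone_SO.smul c hc _ b)⟩
  obtain ⟨v, hv⟩ := v
  suffices h : p ⟨v, hv⟩ ∧ p (-⟨v, hv⟩) from h.1
  induction hv using Submodule.span_induction with
  | mem x hx =>
    obtain ⟨D, rfl⟩ := hx
    change p D.n1 ∧ p (-D.n1)
    rw [n1_eq, ← cl_inv r.nice.toGood D.isCart]
    exact ⟨AmpA.one r.nice s u hρ hO D.isCart, AmpA.one r.nice s u hρ hO D.isCart.inv⟩
  | zero =>
    have : p 0 := ⟨1, one_pos, by simpa using h0⟩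
    exact ⟨this, by change p (-0); rwa [neg_zero]⟩
  | add x y hx hy a b =>
    refine ⟨pa _ _ a.1 b.1, ?_⟩
    change p (-((⟨x, hx⟩ : AG.N1 X) + ⟨y, hy⟩))
    rw [neg_add]
    exact pa _ _ a.2 b.2
  | smul c x hx a => exact AmpA.sm ps c a

end Pool.Agent.MP_20d318_ag.AM

end

section

set_option autoImplicit false
set_option linter.unusedSectionVars false

namespace Pool.Agent.MP_20d318_ag.AM

open Pool.Agent.MP_fd6584_ag Pool.Agent.MP_fd6584_ag.Fn Pool.Agent.CBk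
open Pool.Agent.MP_fd6584_ag.AG hiding deg_inv deg_congr deg_of_unit deg_mul deg_prod deg_zpow
  deg_eq_zero deg_nonneg deg_div deg_pow
open Pool.Agent.MP_20d318_ag.Lat (cone IsCone RP isCone_cone subset_cone)

namespace ChmA

variable {k K : Type} [Field k] [Field K] [Algebra k K] {X Z : Set (Subalgebra k K)}

theorem n1_mul (g h : AG.Aut X) (x : AG.N1 X) : (g.mul h).n1 x = g.n1 (h.n1 x) :=
  Subtype.ext (AG.Aut.act_mul g h x.1)

theorem n1_inv (g : AG.Aut X) (x : AG.N1 X) : g.n1 (g.inv.n1 x) = x := by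
  rw [← n1_mul, AG.Aut.mul_inv]
  exact Subtype.ext (AG.Aut.act_one x.1)

theorem n1_LL (g : AG.Aut X) {x : AG.N1 X} (h : x ∈ LL X) : g.n1 x ∈ LL X := by
  induction h using AddSubgroup.closure_induction with
  | mem x hx =>
    obtain ⟨D, rfl⟩ := hx
    exact AddSubgroup.subset_closure ⟨_, (AG.Aut.n1_n1 g D).symm⟩
  | zero => rw [map_zero]; exact zero_mem _
  | add x y _ _ a b => rw [map_add]; exact add_mem a b
  | neg x _ a => rw [map_neg]; exact neg_mem a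

/-- The sum of the generators of a cone of semiample classes that contains a big class is ample. -/
theorem key (r : Ref X) {R : Finset (AG.N1 X)} (hL : (R : Set (AG.N1 X)) ⊆ LL X)
    (hR : ∀ q ∈ R, q ∈ SA X Z) {x a : AG.N1 X} (hx : x ∈ SA X Z) (ha : Lc X Z a) {ε : ℝ}
    (hε : 0 < ε) (hy : x + ε • a ∈ cone (R : Set (AG.N1 X))) : Lc X Z (∑ q ∈ R, q) := by
  obtain ⟨c, hc, e⟩ := mem_cone_fin.1 hy
  obtain ⟨M, hM⟩ := exists_nat_gt (∑ q ∈ R, ε⁻¹ * c q)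
  have h0 : ∀ q ∈ R, 0 ≤ ε⁻¹ * c q := fun q _ => mul_nonneg (inv_nonneg.2 hε.le) (hc q)
  have hM0 : 0 < M := by exact_mod_cast (Finset.sum_nonneg h0).trans_lt hM
  have hρ : ∑ q ∈ R, q ∈ LL X := sum_mem fun q hq => hL hq
  have e' : M • ∑ q ∈ R, q - a = ∑ q ∈ R, ((M : ℝ) - ε⁻¹ * c q) • q + ε⁻¹ • x := by
    have h1 : ∑ q ∈ R, (ε⁻¹ * c q) • q = ε⁻¹ • x + a := by
      simp only [mul_smul]
      rw [← Finset.smul_sum, ← e, smul_add, inv_smul_smul₀ hε.ne']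
    rw [Finset.sum_congr rfl fun q _ => sub_smul (M : ℝ) (ε⁻¹ * c q) q,
      Finset.sum_sub_distrib, h1, ← Finset.smul_sum, Nat.cast_smul_eq_nsmul]
    abel
  have hw : M • ∑ q ∈ R, q - a ∈ SA X Z := by
    rw [e']
    refine isCone_SA.add _ (isCone_SA.sum_mem _ _ fun q hq => isCone_SA.smul _ ?_ _ (hR q hq)) _
      (isCone_SA.smul _ (inv_nonneg.2 hε.le) _ hx)
    exact sub_nonneg.2 ((Finset.single_le_sum h0 hq).trans hM.le)
  exact ⟨hρ, fun O hO => r.lc a _ O M hM0 (ha.2 O hO)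
    (r.sa _ (sub_mem (nsmul_mem hρ M) ha.1) O (hw O hO)) _ (add_sub_cancel _ _).symm⟩

theorem pres {g g₀ : AG.Aut X} (h : Tr Z g = Tr Z g₀) (O : Subalgebra k K) :
    O ∈ Z ↔ O.comap ((g₀.inv.mul g).1 : K →ₐ[k] K) ∈ Z := by
  have h1 : (O.comap (g₀.inv.1 : K →ₐ[k] K)).comap (g₀.1 : K →ₐ[k] K) = O := by
    ext z
    exact iff_of_eq (congrArg (· ∈ O) (g₀.1.symm_apply_apply z))
  have h2 : O.comap (g₀.inv.1 : K →ₐ[k] K) ∈ Tr Z g₀ ↔ O ∈ Z := iff_of_eq (congrArg (· ∈ Z) h1)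
  rw [← h2, ← h]
  exact Iff.rfl

end ChmA

open ChmA in
theorem chm_stmt : ChmStmt := by
  intro det trn k K _ _ _ _ X r Z md S ⟨𝒯, fin, rp, _, hZ⟩ cov a ha
  have t := fun g => trn k K X r g Z
  let gd : AG.Aut X → Prop := fun g => ∃ x ∈ SA X Z, ∃ ε : ℝ, 0 < ε ∧ g.n1 (x + ε • a) ∈ S
  let 𝒰 : Set (Set (AG.N1 X)) := {T | ∃ g, gd g ∧ SA X (Tr Z g) ∩ S = T}
  have hU : 𝒰 ⊆ 𝒯 := by
    rintro _ ⟨g, -, rfl⟩
    exact hZ _ ((t g).1 md)
  have : Finite 𝒰 := fin.subset hU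
  choose γ h1 h2 using fun T : 𝒰 => T.2
  choose R h3 h4 using fun T : 𝒰 => rp T (hU T.2)
  have hin : ∀ g x, x ∈ SA X Z → ∀ ε : ℝ, 0 < ε → g.n1 (x + ε • a) ∈ SA X (Tr Z g) :=
    fun g x hx ε hε => ((t g).2.1 _).2 (isCone_SA.add _ hx _ (isCone_SA.smul _ hε.le _ ha.mem))
  have hlc : ∀ (T : 𝒰) g, gd g → SA X (Tr Z g) ∩ S = T → Lc X (Tr Z g) (∑ q ∈ R T, q) := by
    rintro T g ⟨x, hx, ε, hε, hS⟩ e
    have e' := (h4 T).trans e.symm
    refine key r (h3 T) (fun q hq => (e'.subset (subset_cone _ hq)).1) (((t g).2.1 x).2 hx)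
      ((t g).2.2 a ha) hε ?_
    rw [← map_smul, ← map_add]
    exact e'.symm.subset ⟨hin g x hx ε hε, hS⟩
  refine ⟨cone (⋃ T : 𝒰, (γ T).inv.n1 '' (R T : Set (AG.N1 X))),
    rp_fin (Set.finite_iUnion fun T => (R T).finite_toSet.image _) ?_,
    isCone_SA.cone_subset ?_, fun x hx ε hε => ?_⟩
  · refine Set.iUnion_subset fun T => ?_
    rintro _ ⟨q, hq, rfl⟩
    exact n1_LL _ (h3 T hq)
  · refine Set.iUnion_subset fun T => ?_
    rintro _ ⟨q, hq, rfl⟩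
    refine ((t (γ T)).2.1 _).1 ?_
    rw [n1_inv]
    exact (((h4 T).trans (h2 T).symm).subset (subset_cone _ hq)).1
  · obtain ⟨g, hg⟩ := cov _ (SA_ef md.good
      (isCone_SA.add _ hx _ (isCone_SA.smul _ hε.le _ ha.mem)))
    have hgd : gd g := ⟨x, hx, ε, hε, hg⟩
    let T : 𝒰 := ⟨_, g, hgd, rfl⟩
    have e := det k K X r _ _ ((t g).1 md) ((t (γ T)).1 md) _ (hlc T g hgd rfl)
      (hlc T _ (h1 T) (h2 T))
    refine ⟨(γ T).inv.mul g, ⟨_, pres e⟩, rfl, ?_⟩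
    rw [n1_mul]
    exact ((isCone_cone _).preimage (γ T).inv.n1).cone_subset (R := R T)
      (fun q hq => subset_cone _ (Set.mem_iUnion.2 ⟨T, Set.mem_image_of_mem _ hq⟩))
      ((h4 T).symm.subset ⟨hin g x hx ε hε, hg⟩)

end Pool.Agent.MP_20d318_ag.AM

end

section

set_option autoImplicit false
set_option linter.unusedSectionVars false

namespace Pool.Agent.MP_20d318_ag.AM

open Pool.Agent.MP_fd6584_ag Pool.Agent.MP_fd6584_ag.Fn Pool.Agent.CBk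
open Pool.Agent.MP_fd6584_ag.AG hiding deg_inv deg_congr deg_of_unit deg_mul deg_prod deg_zpow
  deg_eq_zero deg_nonneg deg_div deg_pow
open Pool.Agent.MVg (Sc Fac Av)
open Pool.Agent.MP_20d318_ag.CH (cl cl_val cl_mem cl_eff n1_ext n1_eq)
open Pool.Agent.MP_20d318_ag.Lat (cone IsCone RP Intg Concl isCone_cone subset_cone)

namespace EndA

variable {k K : Type} [Field k] [IsAlgClosed k] [Field K] [Algebra k K]
  {X Z : Set (Subalgebra k K)} {Ψ : AG.N1 X →ₗ[ℝ] AG.N1 Z}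

theorem rp_img (hX : Good X) (p : Ps X Z Ψ) {S : Set (AG.N1 X)} (h : RP (LL X) S) :
    RP (LL Z) (Ψ '' S) := by
  obtain ⟨R, hR, rfl⟩ := h
  have key : ∀ r ∈ (R : Set (AG.N1 X)), ∃ m : ℕ, 0 < m ∧ m • Ψ r ∈ LL Z := fun r hr => by
    obtain ⟨f, f1, rfl⟩ := (mem_LL hX).1 (hR hr)
    obtain ⟨m, f', a1, a2, a3⟩ := p.up f f1
    exact ⟨m, a1, p.mt f f' m f1 a2 a3 ▸ cl_mem a2⟩
  choose! m m1 m2 using key
  have e : cone ((fun r => m r • Ψ r) '' (R : Set (AG.N1 X))) = Ψ '' cone (R : Set (AG.N1 X)) :=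
    Set.Subset.antisymm (((isCone_cone _).image Ψ).cone_subset (by
      rintro _ ⟨r, hr, rfl⟩
      exact IsCone.nsmul ((isCone_cone _).image Ψ) _ ⟨r, subset_cone _ hr, rfl⟩))
    (Set.image_subset_iff.2 (((isCone_cone _).preimage Ψ).cone_subset fun r hr =>
      IsCone.of_nsmul (isCone_cone _) (m1 r hr) (subset_cone _ ⟨r, hr, rfl⟩)))
  rw [← e]
  refine rp_fin (R.finite_toSet.image _) ?_
  rintro _ ⟨r, hr, rfl⟩
  exact m2 r hr

theorem sa_nef (hZ : Good Z) (p : Ps X Z Ψ) (d : Dg X Z Ψ) {x : AG.N1 X} (h : x ∈ SA X Z) :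
    Ψ x ∈ Glue.NEf Z :=
  ⟨by
    rintro _ ⟨ν, rfl⟩
    exact d.nn ν x (h _ ν.gen_mem), p.ef x (SA_ef hZ h)⟩

theorem exists_rp {x a : AG.N1 X} (hx : x ∈ Glue.Ef X) (ha : a ∈ LL X) (ha' : a ∈ Glue.Ef X) :
    ∃ S, RP (LL X) S ∧ S ⊆ Glue.Ef X ∧ x ∈ S ∧ a ∈ S := by
  obtain ⟨Q, q1, q2⟩ := exists_fin hx
  refine ⟨cone (insert a (Q : Set (AG.N1 X))), rp_fin (Q.finite_toSet.insert a)
    (Set.insert_subset ha fun r hr => ?_), (isCone_cone _).cone_subset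
      (Set.insert_subset ha' (q1.trans (subset_cone _))),
    Lat.cone_mono (Set.subset_insert _ _) q2, subset_cone _ (Set.mem_insert _ _)⟩
  obtain ⟨D, -, rfl⟩ := q1 hr
  exact AddSubgroup.subset_closure ⟨D, rfl⟩

end EndA

open EndA in
theorem en_stmt : EndStmt := by
  intro loo ray amp deg opn nef chm k K _ _ _ _ X r Z s Ψ p sig ce a ha
  have hX : Good X := r.nice.toGood
  have hZ : Good Z := s.nice.toGood
  have d := deg k K X r Z s Ψ p
  have := r.fd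
  have : FiniteDimensional ℝ (AG.N1 Z) := Module.Finite.of_surjective Ψ p.surj
  have ae : a ∈ Glue.Ef X := SA_ef hZ ha.mem
  obtain ⟨S₀, s1, s2, s3⟩ := ce
  obtain ⟨Q₀, q1, q2, q3⟩ := chm k K X r Z s.md S₀ (sig S₀ s1 s2) s3 a ha
  refine Glue.cone_of_concl (loo ray (AG.N1 Z) (LL Z) (Glue.NEf Z) (autG Z)
    (Set.range Curve.lin) ((Lat.isCone_dual _).inter (isCone_cone _)) Glue.cvint
    (fun c hc x hx => hx.1 c hc) (fun x hx => n1_ext fun ν => by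
      rw [map_zero]
      exact hx _ ⟨ν, rfl⟩) Glue.gL Glue.gC (eq_top_iff.2 fun w _ => ?_) (Ψ '' Q₀)
    (rp_img hX p q1) (Set.image_subset_iff.2 fun x hx => sa_nef hZ p d (q2 hx)) fun y hy => ?_)
  · obtain ⟨v, rfl⟩ := p.surj w
    obtain ⟨O, hO, -⟩ := hZ.cpl ⊤ fun _ => Or.inl trivial
    obtain ⟨N, -, n2⟩ := amp k K X r Z s p.toUpd a ha O hO v
    obtain ⟨S, t1, t2, t3, t4⟩ := exists_rp (SO_ef n2) ha.1 ae
    obtain ⟨δ, d1, -, d2⟩ := opn k K X r Z s Ψ p S (rp_cone t1) (sig S t1 t2) a ⟨ha.mem, t4⟩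
      (d.pos a ha) (N • a + v) ((rp_cone t1).add _ t4 _ t3)
    have b1 := Submodule.subset_span (R := ℝ) (sa_nef hZ p d ha.mem)
    have b2 := Submodule.subset_span (R := ℝ) (sa_nef hZ p d d2)
    have e : Ψ v = δ⁻¹ • (Ψ (a + δ • (N • a + v)) - Ψ a) - N • Ψ a := by
      rw [map_add, add_sub_cancel_left, map_smul, inv_smul_smul₀ d1.ne', map_add, map_smul,
        add_sub_cancel_left]
    rw [e]
    exact sub_mem (Submodule.smul_mem _ _ (sub_mem b2 b1)) (Submodule.smul_mem _ _ b1)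
  · obtain ⟨x, x1, rfl⟩ := p.ef' y hy.2
    have x2 := nef k K X r Z s Ψ p sig a ha x x1 fun ν => hy.1 _ ⟨ν, rfl⟩
    obtain ⟨S, t1, t2, t3, t4⟩ := exists_rp x1 ha.1 ae
    obtain ⟨𝒯, -, u1, -, u2⟩ := sig S t1 t2
    refine ⟨Ψ a, Ψ '' (SA X Z ∩ S), rp_img hX p (u1 _ (u2 Z s.md)),
      Set.image_subset_iff.2 fun z hz => sa_nef hZ p d hz.1, ⟨x, ⟨x2, t3⟩, rfl⟩,
      ⟨a, ⟨ha.mem, t4⟩, rfl⟩, fun ε hε => ?_⟩
    obtain ⟨g, g', e1, e2⟩ := q3 x x2 ε hε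
    refine ⟨g'.eqv, ⟨g', rfl⟩, _, e2, ?_⟩
    rw [p.aut g g' e1, map_add, map_smul]
    rfl

end Pool.Agent.MP_20d318_ag.AM

end
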