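import Mathlib.GroupTheory.CosetCover
import Mathlib.AlgebraicGeometry.ValuativeCriterion
import Pool.Agent.MP_20d318_ag.AM.K1
import Pool.Agent.MP_fd6584_ag.G.Sep
import Pool.Agent.MP_fd6584_ag.h70.Pj.Stalk

/-! Rows on models, second part; charts of a projective variety. -/

section

set_option autoImplicit false
set_option linter.unusedSectionVars false

namespace Pool.Agent.MP_20d318_ag.AM

open Pool.Agent.MP_fd6584_ag Pool.Agent.MP_fd6584_ag.Fn Pool.Agent.CBk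
open Pool.Agent.MP_fd6584_ag.AG hiding deg_inv deg_congr deg_of_unit deg_mul deg_prod deg_zpow
  deg_eq_zero deg_nonneg deg_div deg_pow
open Pool.Agent.MP_20d318_ag.CH (cl)

namespace FibaA

variable {k K : Type} [Field k] [Field K] [Algebra k K] {X : Set (Subalgebra k K)}
  {e : Subalgebra k K → K} {O : Subalgebra k K} {x : AG.N1 X} {m : ℕ}

theorem beta (r : Ref X) (hm : 0 < m) (he : Ed X e) (hx : cl X e = m • x) (hk : Kr X O)
    (h : SaAt X x O) : ∃ β : K, β ≠ 0 ∧ β ∈ BB X e ∧ β⁻¹ ∈ O ∧ (β ∈ O → Un X e O) := by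
  obtain ⟨m', e', hm', he', hx', hu⟩ := h
  obtain ⟨β, a, b, h0, ha, -, hβ⟩ := r.bet x e e' m m' hm hm' he.1 he'.1 hx hx'
  refine ⟨β, h0, fun P h1 h2 => mem_plO_ord.2 ?_, hk _ fun P h1 h2 => mem_plO_ord.2 ?_,
    fun hO P h1 h2 => ?_⟩
  · rw [hβ P h1, h2, mul_zero, sub_zero]
    exact mul_nonneg (Int.natCast_nonneg b) (he'.ord h1)
  · rw [P.ord_inv, hβ P h1, hu P h1 h2, mul_zero, zero_sub, neg_neg]
    exact mul_nonneg (Int.natCast_nonneg a) (he.ord h1)
  · have h3 := mem_plO_ord.1 (h2 hO)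
    rw [hβ P h1, hu P h1 h2, mul_zero, zero_sub, neg_nonneg] at h3
    exact le_antisymm (nonpos_of_mul_nonpos_right h3 (by exact_mod_cast ha)) (he.ord h1)

end FibaA

open FibaA in
theorem fiba_stmt : FibaStmt := by
  intro k K _ _ _ _ X r Z md x e m hm he hx hs O hO hu
  have hB : BB X e ≤ O := BB_le (md.kr O hO) hu
  refine ⟨fun V hV hd => ?_, fun hr C O'' hO'' hC h => ?_⟩
  · obtain ⟨O', hO', hd'⟩ := md.good.cpl V hV
    obtain ⟨β, h0, h1, h2, h3⟩ := beta r hm he hx (md.kr O' hO') (hs O' hO')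
    have hu' : Un X e O' := h3 (by
      simpa using (hd'.2 _ h2 (IsU.inv ⟨h0, hd.1 (le_fr h1), hd'.1 h2⟩)).inv_mem)
    exact ⟨O', ⟨hO', hu', fun b hb hb' => ⟨BB_le (md.kr O' hO') hu' hb, fun h4 =>
      hb'.2 ((hd.2 b (le_fr hb) (h4.mono hd'.1)).mono (fr_le hB))⟩⟩, hd'.1⟩
  · obtain ⟨β, h0, h1, h2, h3⟩ := beta r hm he hx (md.kr O'' hO'') (hs O'' hO'')
    obtain ⟨u, hu1, w, hw1, hw, huw⟩ := hC.2.2 _ h2
    obtain ⟨c, hc⟩ := hr β (hB h1)
    have hβ : β = w / u := by rw [← inv_div, ← huw, inv_inv]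
    have hu0 : u ≠ 0 := fun h4 => h0 (by rw [hβ, h4, div_zero])
    have h4 : u * (β - algebraMap k K c) = w - algebraMap k K c * u := by
      rw [hβ, mul_sub, mul_div_cancel₀ _ hu0, mul_comm]
    have h5 := h _ (C.sub_mem hw1 (C.mul_mem (C.algebraMap_mem c) hu1)) fun O' a b => h4 ▸
      mx_mul_left (b hu1) (a.2.2 _ ((BB X e).sub_mem h1 ((BB X e).algebraMap_mem c)) hc)
    have h6 : IsU O'' u := isU_of_not_mx (hC.2.1 hu1) fun h7 => hw.not_mx (by
      simpa using mx_add hC.1 h5 (mx_mul_left (O''.algebraMap_mem c) h7))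
    have hu' : Un X e O'' := h3 (hβ ▸ h6.div_mem hw.mem)
    refine ⟨hO'', hu', fun b hb hb' => ?_⟩
    obtain ⟨u', hu2, w', hw2, hw', huw'⟩ := hC.2.2 _ (BB_le (md.kr O'' hO'') hu' hb)
    have h7 : b * w' = u' := by rw [huw', div_mul_cancel₀ _ hw'.1]
    rw [huw']
    exact mx_div (h _ hu2 fun O' a b' => h7 ▸ mx_mul_right (a.2.2 b hb hb') (b' hw2)) hw'

end Pool.Agent.MP_20d318_ag.AM

end

section

set_option autoImplicit false
set_option linter.unusedSectionVars false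

namespace Pool.Agent.MP_20d318_ag.AM

open Pool.Agent.MP_fd6584_ag Pool.Agent.MP_fd6584_ag.Fn Pool.Agent.CBk
open Pool.Agent.MP_fd6584_ag.AG hiding deg_inv deg_congr deg_of_unit deg_mul deg_prod deg_zpow
  deg_eq_zero deg_nonneg deg_div deg_pow

namespace AlgA

open MvPolynomial in
/-- A domain of finite type whose nonzero primes are maximal has small transcendence degree. -/
theorem small {k A L : Type} [Field k] [CommRing A] [IsDomain A] [Algebra k A]
    [Algebra.FiniteType k A] [Field L] [Algebra k L]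
    (h : ∀ Q : Ideal A, Q.IsPrime → Q ≠ ⊥ → Q.IsMaximal) (ψ : A →ₐ[k] L)
    (hψ : ∀ x : L, ∃ a b, x = ψ a / ψ b) : Algebra.trdeg k L ≤ 1 := by
  obtain ⟨d, g, inj, int⟩ := exists_integral_inj_algHom_of_fg k A
  have hd : d ≤ 1 := by
    by_contra hn
    obtain ⟨e, rfl⟩ : ∃ e, d = e + 2 := ⟨d - 2, by omega⟩
    let _ := g.toRingHom.toAlgebra
    have : Algebra.IsIntegral (MvPolynomial (Fin (e + 2)) k) A := ⟨int⟩
    let φ : MvPolynomial (Fin (e + 2)) k →ₐ[k] MvPolynomial (Fin (e + 2)) k :=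
      aeval fun i => if i = 0 then 0 else X i
    let ε : MvPolynomial (Fin (e + 2)) k →ₐ[k] k := aeval fun _ => 0
    have hε : ε.comp φ = ε := algHom_ext fun i => by
      by_cases hi : i = 0 <;> simp [φ, ε, hi]
    have := RingHom.ker_isPrime φ
    obtain ⟨Q, hQ, hc⟩ := Ideal.exists_ideal_over_prime_of_isIntegral_of_isDomain (S := A)
      (RingHom.ker φ) (fun x hx => by
        have : x = 0 := inj (by rw [map_zero]; exact hx)
        rw [this]; exact zero_mem _)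
    have h0 : Q ≠ ⊥ := by
      rintro rfl
      have h1 : (X 0 : MvPolynomial (Fin (e + 2)) k) ∈ RingHom.ker φ := by
        simp [RingHom.mem_ker, φ]
      rw [← hc, Ideal.mem_comap, Ideal.mem_bot] at h1
      exact X_ne_zero (R := k) (0 : Fin (e + 2)) (inj (by rw [map_zero]; exact h1))
    have := h Q hQ h0
    have hm := Ideal.isMaximal_comap_of_isIntegral_of_isMaximal
      (R := MvPolynomial (Fin (e + 2)) k) Q
    rw [hc] at hm
    have he := hm.eq_of_le (RingHom.ker_ne_top ε) fun x hx => by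
      rw [RingHom.mem_ker] at hx ⊢
      rw [← hε, AlgHom.comp_apply, hx, map_zero]
    have h1 : (X 1 : MvPolynomial (Fin (e + 2)) k) ∈ RingHom.ker ε := by
      simp [RingHom.mem_ker, ε]
    rw [← he, RingHom.mem_ker] at h1
    simp [φ] at h1
  let s : Set L := Set.range fun i => ψ (g (X i))
  have hs : ∀ x, (ψ.comp g) x ∈ Algebra.adjoin k s := fun x => by
    rw [Algebra.adjoin_range_eq_range_aeval, aeval_unique (ψ.comp g)]
    exact ⟨x, rfl⟩
  have ha : ∀ a, IsAlgebraic (Algebra.adjoin k s) (ψ a) := fun a => by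
    obtain ⟨p, hm, hp⟩ := int a
    refine IsIntegral.isAlgebraic ⟨p.map ((ψ.comp g).codRestrict _ hs).toRingHom, hm.map _, ?_⟩
    have := congrArg ψ.toRingHom hp
    rw [Polynomial.hom_eval₂, map_zero] at this
    rw [Polynomial.eval₂_map]
    exact this
  have : Algebra.IsAlgebraic (Algebra.adjoin k s) L := ⟨fun x => by
    obtain ⟨a, b, rfl⟩ := hψ x
    rw [div_eq_mul_inv]
    exact (ha a).mul (ha b).inv⟩
  refine (Algebra.IsAlgebraic.trdeg_le_cardinalMk k s).trans (Cardinal.mk_range_le.trans ?_)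
  rw [Cardinal.mk_fin]
  exact_mod_cast hd

variable {k K : Type} [Field k] [Field K] [Algebra k K] {C O O' : Subalgebra k K}

theorem ctr (hO : O ∈ Pts C) : ∃ p : Ideal C, p.IsPrime ∧ ∀ c : C, c ∈ p ↔ (c : K) ∈ mx O := by
  have := hO.1
  exact ⟨(IsLocalRing.maximalIdeal O).comap (Subalgebra.inclusion hO.2.1), inferInstance,
    fun c => (mem_mx_iff (Subalgebra.inclusion hO.2.1 c)).symm⟩

theorem pt (p : Ideal C) (hp : p.IsPrime) : ∃ O ∈ Pts C, ∀ c : C, c ∈ p ↔ (c : K) ∈ mx O := by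
  have e : ∀ (a : K) (ha : a ∈ C), a ∈ Subtype.val '' (p : Set C) ↔ (⟨a, ha⟩ : C) ∈ p :=
    fun a ha => Subtype.val_injective.mem_set_image (a := (⟨a, ha⟩ : C))
  obtain ⟨O, hO, hU⟩ := exists_loc C (Subtype.val '' (p : Set C)) ((e 0 C.zero_mem).2 p.zero_mem)
    (fun h => hp.ne_top ((Ideal.eq_top_iff_one p).2 ((e 1 C.one_mem).1 h)))
    (fun a ha b hb h1 h2 => (e _ (C.add_mem ha hb)).2 (p.add_mem ((e a ha).1 h1) ((e b hb).1 h2)))
    fun a ha b hb => by
      rw [e _ (C.mul_mem ha hb), e a ha, e b hb]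
      exact hp.mul_mem_iff_mem_or_mem (x := ⟨a, ha⟩) (y := ⟨b, hb⟩)
  refine ⟨O, hO, fun c => ⟨fun h => ⟨hO.2.1 c.2, fun u => (hU c c.2).1 u ((e c c.2).2 h)⟩,
    fun h => by_contra fun hn => h.2 ((hU c c.2).2 fun u => hn ((e c c.2).1 u))⟩⟩

theorem le_of (hO : O ∈ Pts C) (hO' : O' ∈ Pts C) (h : ∀ c : C, (c : K) ∈ mx O' → (c : K) ∈ mx O) :
    O ≤ O' := fun f hf => by
  obtain ⟨a, ha, b, hb, hu, rfl⟩ := hO.2.2 f hf
  exact (isU_of_not_mx (hO'.2.1 hb) fun hm => hu.not_mx (h ⟨b, hb⟩ hm)).div_mem (hO'.2.1 ha)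

end AlgA

theorem alg_stmt : AlgStmt := by
  intro k K _ _ _ _ C hC
  have : Algebra.FiniteType k C := (Subalgebra.fg_iff_finiteType C).1 hC
  have : IsNoetherianRing C := Algebra.FiniteType.isNoetherianRing k C
  refine ⟨fun O hO => ?_, fun J hJ => ?_⟩
  · obtain ⟨p, hp, e⟩ := AlgA.ctr hO
    obtain ⟨m, hm, hle⟩ := p.exists_le_maximal hp.ne_top
    obtain ⟨O₀, hO₀, e₀⟩ := AlgA.pt m hm.isPrime
    refine ⟨O₀, hO₀, ratPt_of hO₀ (Algebra.adjoin_eq C).symm fun g hg => ?_,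
      AlgA.le_of hO₀ hO fun c hc => (e₀ c).1 (hle ((e c).2 hc))⟩
    let _ := Ideal.Quotient.field m
    have := finite_of_finite_type_of_isJacobsonRing k (C ⧸ m)
    obtain ⟨c, hc⟩ := (IsAlgClosed.algebraMap_bijective_of_isIntegral (k := k) (K := C ⧸ m)).2
      (Ideal.Quotient.mk m ⟨g, hg⟩)
    exact ⟨c, (e₀ (⟨g, hg⟩ - algebraMap k C c)).1 (Ideal.Quotient.eq.1 hc.symm)⟩
  let I : Ideal C := Ideal.span {c : C | (c : K) ∈ J}
  by_cases hall : ∀ p : Ideal C, p.IsPrime → I ≤ p → p.IsMaximal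
  · refine Or.inl (Set.Finite.of_finite_image (f := fun O => {c : C | (c : K) ∈ mx O})
      ((I.finite_minimalPrimes_of_isNoetherianRing.image
        fun p : Ideal C => (p : Set C)).subset ?_) ?_)
    · rintro _ ⟨O, ⟨hO, hJO⟩, rfl⟩
      obtain ⟨p, hp, e⟩ := AlgA.ctr hO
      refine ⟨p, ⟨⟨hp, Ideal.span_le.2 fun c hc => (e c).2 (hJO hc)⟩, fun q hq hle => ?_⟩,
        Set.ext e⟩
      exact ((hall q hq.1 hq.2).eq_of_le hp.ne_top hle).ge
    · intro O hO O' hO' e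
      have e' : ∀ c : C, (c : K) ∈ mx O ↔ (c : K) ∈ mx O' := Set.ext_iff.1 e
      exact le_antisymm (AlgA.le_of hO.1 hO'.1 fun c => (e' c).2)
        (AlgA.le_of hO'.1 hO.1 fun c => (e' c).1)
  · push Not at hall
    obtain ⟨q, ⟨hq, hI, hn⟩, hmax⟩ := set_has_maximal_iff_noetherian.2
      (inferInstance : IsNoetherian C C) {p : Ideal C | p.IsPrime ∧ I ≤ p ∧ ¬ p.IsMaximal} hall
    obtain ⟨O, hO, e⟩ := AlgA.pt q hq
    have hl := hO.1
    refine Or.inr ⟨O, hO, fun j hj => (e ⟨j, hJ hj⟩).1 (hI (Ideal.subset_span hj)), ?_,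
      fun hd => hn ?_⟩
    · rintro ⟨r, hr⟩
      let φ : C →ₐ[k] IsLocalRing.ResidueField O := (resid O).comp (Subalgebra.inclusion hO.2.1)
      have hφ : ∀ c : C, φ c = evO O (resid O) c := fun c =>
        (evO_of_mem (resid O) (hO.2.1 c.2)).symm
      have h1 := AlgA.small (k := k) (A := C ⧸ q) (fun Q hQ h0 => ?_)
        (Ideal.Quotient.liftₐ q φ fun c hc => by
          rw [hφ]; exact (resid_loc.eq_zero_iff (hO.2.1 c.2)).2 ((e c).1 hc)) fun x => ?_
      · have h2 := ((B2.ind_iff resid_loc hr.1).1 hr).cardinalMk_le_trdeg.trans h1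
        simp at h2
      · have hle : q ≤ Q.comap (Ideal.Quotient.mk q) := fun c hc => by
          rw [Ideal.mem_comap, Ideal.Quotient.eq_zero_iff_mem.2 hc]; exact Q.zero_mem
        have hm : (Q.comap (Ideal.Quotient.mk q)).IsMaximal := by_contra fun hm =>
          hmax _ ⟨inferInstance, hI.trans hle, hm⟩ (lt_of_le_of_ne hle fun h => h0 (by
            rw [← Ideal.map_comap_of_surjective _ Ideal.Quotient.mk_surjective Q, ← h,
              Ideal.map_quotient_self]))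
        rcases Ideal.map_eq_top_or_isMaximal_of_surjective (Ideal.Quotient.mk q)
          Ideal.Quotient.mk_surjective hm with h | h <;>
          rw [Ideal.map_comap_of_surjective _ Ideal.Quotient.mk_surjective] at h
        exacts [absurd h hQ.ne_top, h]
      · obtain ⟨⟨f, hf⟩, rfl⟩ := resid_surj x
        obtain ⟨a, ha, b, hb, hu, rfl⟩ := hO.2.2 f hf
        refine ⟨Ideal.Quotient.mk q ⟨a, ha⟩, Ideal.Quotient.mk q ⟨b, hb⟩, ?_⟩
        change _ = φ ⟨a, ha⟩ / φ ⟨b, hb⟩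
        rw [hφ, hφ, ← evO_of_mem (resid O) hf]
        exact evO_div _ (hO.2.1 ha) hu
    · refine Ideal.isMaximal_iff.2 ⟨(Ideal.ne_top_iff_one q).1 hq.ne_top,
        fun Q x hle hx hxQ => ?_⟩
      obtain ⟨c, hc⟩ := (rat_iff hl).2 hd x (hO.2.1 x.2)
      have h1 : x - algebraMap k C c ∈ q := (e _).2 hc
      have h2 : c ≠ 0 := fun h => hx (by simpa [h] using h1)
      have h3 : algebraMap k C c ∈ Q := by simpa using Q.sub_mem hxQ (hle h1)
      have h4 := Q.mul_mem_left (algebraMap k C c⁻¹) h3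
      rwa [← map_mul, inv_mul_cancel₀ h2, map_one] at h4

end Pool.Agent.MP_20d318_ag.AM

end

section

set_option autoImplicit false
set_option linter.unusedSectionVars false

namespace Pool.Agent.MP_20d318_ag.AM

open Pool.Agent.MP_fd6584_ag Pool.Agent.MP_fd6584_ag.Fn Pool.Agent.CBk
open Pool.Agent.MP_fd6584_ag.AG hiding deg_inv deg_congr deg_of_unit deg_mul deg_prod deg_zpow
  deg_eq_zero deg_nonneg deg_div deg_pow

namespace LzaA

variable {k K : Type} [Field k] [Field K] [Algebra k K] {A O : Subalgebra k K}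

theorem isU_fr (h : A ≤ O) {u : K} (hu : u ∈ fr A O) (hO : IsU O u) : IsU (fr A O) u :=
  ⟨hO.1, hu, inv_mem_fr hu h hO⟩

theorem loc_fr (hO : IsLocalRing O) (h : A ≤ O) : IsLocalRing (fr A O) :=
  isLocalRing_of fun _ ha _ hb => mx_of_le (fr_le h) (add_mem ha.1 hb.1)
    (mx_add hO ⟨fr_le h ha.1, fun q => ha.2 (isU_fr h ha.1 q)⟩
      ⟨fr_le h hb.1, fun q => hb.2 (isU_fr h hb.1 q)⟩)

theorem nrm_fr (hA : Nrm A) (h : A ≤ O) : Nrm (fr A O) :=
  nrmLoc_stmt k K A _ hA le_fr fun _ ⟨a, ha, b, hb, hu, e⟩ =>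
    ⟨a, ha, b, hb, isU_fr h (le_fr hb) hu, e⟩

theorem nrm_BB (X : Set (Subalgebra k K)) (e : Subalgebra k K → K) : Nrm (BB X e) :=
  fun f hf P h1 h2 => by
    have hle : BB X e ≤ plO P := fun b hb => hb P h1 h2
    exact (plO_isVal P).nrm f
      (hf.map_of_comp_eq (Subalgebra.inclusion hle).toRingHom (RingHom.id K) rfl)

/-- The functions whose quotient by `g` vanishes at `O`. -/
def van (hO : IsLocalRing O) (g : K) : Submodule k K where
  carrier := {s | s / g ∈ mx O}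
  add_mem' ha hb := by
    simp only [Set.mem_ofPred_eq, add_div]
    exact mx_add hO ha hb
  zero_mem' := by simpa using zero_mem_mx
  smul_mem' c s hs := by
    simp only [Set.mem_ofPred_eq, Algebra.smul_def, mul_div_assoc]
    exact mx_mul_left (O.algebraMap_mem c) hs

/-- A section that vanishes at none of finitely many points. -/
theorem exists_sec [Infinite k] {J ι : Type} [Finite ι] (𝒞 : Pj.Charts k K J)
    (p : ι → Subalgebra k K) (j : ι → J) (h : ∀ i, p i ∈ Pts (𝒞.B (j i))) :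
    ∃ s : K, ∀ i, IsU (p i) (s / 𝒞.f (j i)) := by
  let E := Submodule.span k (Set.range 𝒞.f)
  have hE : ∀ s ∈ E, ∀ l, s / 𝒞.f l ∈ 𝒞.B l := fun s hs l => by
    induction hs using Submodule.span_induction with
    | mem x hx => obtain ⟨m, rfl⟩ := hx; exact 𝒞.ratio m l
    | zero => simp
    | add x y _ _ a b => rw [add_div]; exact add_mem a b
    | smul c x _ a =>
      rw [Algebra.smul_def, mul_div_assoc]
      exact mul_mem ((𝒞.B l).algebraMap_mem c) a
  by_contra hn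
  obtain ⟨i, hi⟩ := Subspace.exists_eq_top_of_iUnion_eq_univ
    (p := fun i => (van (h i).1 (𝒞.f (j i))).comap E.subtype) (Set.eq_univ_of_forall fun s => by
      obtain ⟨i, hi⟩ := not_forall.1 (not_exists.1 hn s)
      exact Set.mem_iUnion.2 ⟨i, (h i).2.1 (hE s s.2 _), hi⟩)
  have h1 : 𝒞.f (j i) / 𝒞.f (j i) ∈ mx (p i) :=
    (Submodule.eq_top_iff'.1 hi ⟨_, Submodule.subset_span ⟨j i, rfl⟩⟩ :)
  rw [div_self (𝒞.f_ne _)] at h1
  exact one_not_mem_mx h1

end LzaA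

open LzaA in
theorem lza_stmt : LzaStmt := by
  intro k K _ _ _ _ X Z hZ e O hO hu hV hF a ha
  have hB : BB X e ≤ O := BB_le (hZ.md.kr O hO) hu
  have hR : ∀ x : K, (∀ O' : Fib X Z e O, x ∈ O'.1) → x ∈ fr (BB X e) O := fun x hx => by
    by_contra hn
    obtain ⟨V, h1, h2, h3⟩ := exists_val_not_mem (loc_fr (hZ.nice.loc O hO) hB)
      (nrm_fr (nrm_BB X e) hB) hn
    obtain ⟨O', h4, h5⟩ := hV V h1 h2
    exact h3 (h5 (hx ⟨O', h4⟩))
  obtain ⟨J, -, 𝒞, hc⟩ := hZ.ch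
  have : Finite (Fib X Z e O) := hF
  have hj : ∀ O' : Fib X Z e O, ∃ j, O'.1 ∈ Pts (𝒞.B j) := fun O' =>
    Set.mem_iUnion.1 (hc ▸ O'.2.1 : O'.1 ∈ Sch.pts 𝒞)
  choose j hj using hj
  obtain ⟨s, hs⟩ := exists_sec 𝒞 (fun O' : Fib X Z e O => O'.1) j hj
  let o : Fib X Z e O := ⟨O, hO, hu, fun _ _ h => h⟩
  have hs0 : s ≠ 0 := (div_ne_zero_iff.1 (hs o).1).1
  have key : ∀ c ∈ 𝒞.B (j o), ∀ᶠ n in Filter.atTop, (s / 𝒞.f (j o))⁻¹ ^ n * c ∈ fr (BB X e) O := by
    intro c hc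
    refine (Filter.eventually_all.2 fun O' => ?_).mono fun n => hR _
    obtain ⟨N, hN⟩ := 𝒞.comp (j o) (j O') c hc
    have h1 : (s / 𝒞.f (j o))⁻¹ = 𝒞.f (j o) / 𝒞.f (j O') * (s / 𝒞.f (j O'))⁻¹ := by
      have := 𝒞.f_ne (j O')
      field_simp
    refine Filter.eventually_atTop.2 ⟨N, fun n hn => ?_⟩
    obtain ⟨m, rfl⟩ := Nat.exists_eq_add_of_le' hn
    have h2 : (s / 𝒞.f (j o))⁻¹ ∈ O'.1 :=
      h1 ▸ mul_mem ((hj O').2.1 (𝒞.ratio _ _)) (hs O').2.2
    rw [pow_add, mul_assoc]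
    refine mul_mem (pow_mem h2 m) ?_
    rw [h1, mul_pow, mul_right_comm]
    exact mul_mem ((hj O').2.1 hN) (pow_mem (hs O').2.2 N)
  obtain ⟨u, hu', w, hw, hw', rfl⟩ := (hj o).2.2 a ha
  obtain ⟨n, h1, h2⟩ := ((key u hu').and (key w hw)).exists
  have h3 := ((hs o).inv.pow n)
  rw [← mul_div_mul_left u w h3.1]
  exact div_mem_fr h1 h2 hB (h3.mul hw')

end Pool.Agent.MP_20d318_ag.AM

end

section

set_option autoImplicit false
set_option linter.unusedSectionVars false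

namespace Pool.Agent.MP_20d318_ag.AM

open Pool.Agent.MP_fd6584_ag Pool.Agent.MP_fd6584_ag.Fn Pool.Agent.CBk
open Pool.Agent.MP_fd6584_ag.AG hiding deg_inv deg_congr deg_of_unit deg_mul deg_prod deg_zpow
  deg_eq_zero deg_nonneg deg_div deg_pow
open Pool.Agent.MVg (Sc Fac Av)
open Pool.Agent.MP_20d318_ag.CH (cl cl_val cl_mem cl_eff n1_ext n1_eq)
open Pool.Agent.MP_20d318_ag.Lat (cone IsCone RP Intg Concl isCone_cone subset_cone)

namespace LzbA

variable {k K : Type} [Field k] [Field K] [Algebra k K] {X : Set (Subalgebra k K)}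

theorem up {B C O₀ O : Subalgebra k K} (hO : O ∈ Pts C) (h0 : C ≤ O₀) (hle : O₀ ≤ O)
    (h : O₀ ≤ fr B O₀) : O ≤ fr B O := by
  intro f hf
  obtain ⟨a, ha, b, hb, hu, rfl⟩ := hO.2.2 f hf
  obtain ⟨a1, p1, a2, p2, p3, rfl⟩ := h (h0 ha)
  obtain ⟨b1, q1, b2, q2, q3, rfl⟩ := h (h0 hb)
  have u1 : IsU O b1 := by
    have := hu.mul (q3.mono hle)
    rwa [div_mul_cancel₀ _ q3.1] at this
  exact ⟨a1 * b2, B.mul_mem p1 q2, a2 * b1, B.mul_mem p2 q1, (p3.mono hle).mul u1,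
    div_div_div_eq a1 a2 b1 b2⟩

theorem lc_up {x : AG.N1 X} {C O₀ O : Subalgebra k K} (hO : O ∈ Pts C) (h0 : C ≤ O₀)
    (hle : O₀ ≤ O) (h : LcAt X x O₀) : LcAt X x O :=
  let ⟨m, e, a, b, c, d, f⟩ := h; ⟨m, e, a, b, c, d.mono hle, up hO h0 hle f⟩

end LzbA

theorem lzb_stmt : LzbStmt := by
  intro fiba alg lza deg k K _ _ _ _ X r Z s Ψ p ρ hρ hsa hpos
  have hs : ∀ O ∈ Z, SaAt X ρ O := fun O hO => r.sa ρ hρ O (hsa O hO)
  have dg := deg k K X r Z s Ψ p
  have hg : Good Z := s.nice.toGood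
  obtain ⟨𝒢, g1, g2, g3⟩ := s.nice.cov
  have ch : ∀ O ∈ Z, ∃ G ∈ 𝒢, O ∈ Pts (Algebra.adjoin k G) := fun O hO => by
    rw [g3] at hO
    simpa using hO
  have ch' : ∀ G ∈ 𝒢, ∀ O ∈ Pts (Algebra.adjoin k G), O ∈ Z := fun G hG O hO => by
    rw [g3]
    exact Set.mem_biUnion hG hO
  have rat : ∀ O ∈ Z, RatPt O → LcAt X ρ O := by
    intro O hO hr
    obtain ⟨m, e, hm, he, hc, hu⟩ := hs O hO
    obtain ⟨fa, fb⟩ := fiba k K X r Z s.md ρ e m hm he hc hs O hO hu
    refine ⟨m, e, hm, he, hc, hu, lza k K X Z s e O hO hu fa ?_⟩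
    have fin : ∀ G ∈ 𝒢, {O' | O' ∈ Pts (Algebra.adjoin k G) ∧
        {u | u ∈ Algebra.adjoin k G ∧ ∀ O' ∈ Fib X Z e O, Algebra.adjoin k G ≤ O' → u ∈ mx O'} ⊆
          mx O'}.Finite := by
      intro G hG
      refine ((alg k K _ (Subalgebra.fg_def.2 ⟨G, (g2 G hG).1, rfl⟩)).2 _
        fun u hu => hu.1).resolve_right ?_
      rintro ⟨O1, a1, a2, a3, a4⟩
      have f1 : O1 ∈ Fib X Z e O := fb hr _ O1 (ch' G hG O1 a1) a1 fun u b c => a2 ⟨b, c⟩
      obtain ⟨ν, rfl⟩ := curve_stmt k K Z hg O1 f1.1 a3 a4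
      have hz := dg.zero ν e he.1 fun Q => by
        obtain ⟨G', -, b⟩ := ch _ (ν.pt_mem Q)
        exact (fb hr _ _ (ν.pt_mem Q) b fun u c d => mx_of_le (ν.pt_le Q) (b.2.1 c)
          (d _ f1 (b.2.1.trans (ν.pt_le Q)))).2.1
      have hp := hpos ν fun h => a4 h.dim
      rw [hc, map_nsmul, map_nsmul, nsmul_eq_mul] at hz
      exact (mul_pos (Nat.cast_pos.2 hm) hp).ne' hz
    refine (g1.biUnion fin).subset fun O' h' => ?_
    obtain ⟨G, a, b⟩ := ch O' h'.1
    exact Set.mem_biUnion a ⟨b, fun u hu => hu.2 O' h' b.2.1⟩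
  refine ⟨hρ, fun O hO => ?_⟩
  obtain ⟨G, a, b, c⟩ := hg.fg O hO
  obtain ⟨O₀, a0, b0, c0⟩ := (alg k K _ (Subalgebra.fg_def.2 ⟨G, a, rfl⟩)).1 O b
  exact LzbA.lc_up b a0.2.1 c0 (rat O₀ (c a0) b0)

end Pool.Agent.MP_20d318_ag.AM

end

section

set_option autoImplicit false

namespace Pool.Agent.MP_20d318_ag.AM

open Pool.Agent.MP_fd6584_ag Pool.Agent.MP_fd6584_ag.Fn Pool.Agent.CBk
open Pool.Agent.MP_20d318_ag.Lat (cone IsCone RP Intg Concl isCone_cone subset_cone)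
open Filter Topology

namespace OpnA

/-- Every point of a rational polyhedral cone is comparable with a lattice point. -/
theorem comp {N : Type*} [AddCommGroup N] [Module ℝ N] {L : AddSubgroup N} {T : Set N}
    (h : RP L T) {y : N} (hy : y ∈ T) :
    ∃ ρ ∈ L, ρ ∈ T ∧ ∃ c M : ℝ, 0 < c ∧ 0 < M ∧ y - c • ρ ∈ T ∧ M • ρ - y ∈ T := by
  have hT := rp_cone h
  obtain ⟨R, hR, e⟩ := h
  have z : ∃ ρ ∈ L, ρ ∈ T ∧ ∃ c M : ℝ, 0 < c ∧ 0 < M ∧ 0 - c • ρ ∈ T ∧ M • ρ - 0 ∈ T :=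
    ⟨0, L.zero_mem, hT.zero, 1, 1, one_pos, one_pos, by simpa using hT.zero, by simpa using hT.zero⟩
  have : IsCone {y : N | ∃ ρ ∈ L, ρ ∈ T ∧ ∃ c M : ℝ, 0 < c ∧ 0 < M ∧ y - c • ρ ∈ T ∧
      M • ρ - y ∈ T} := by
    refine ⟨z, ?_, ?_⟩
    · rintro x ⟨ρ, a1, a2, c, M, a3, a4, a5, a6⟩ y ⟨σ, b1, b2, d, M', b3, b4, b5, b6⟩
      refine ⟨ρ + σ, L.add_mem a1 b1, hT.add _ a2 _ b2, min c d, M + M', lt_min a3 b3,
        add_pos a4 b4, ?_, ?_⟩
      · rw [show x + y - min c d • (ρ + σ) = (x - c • ρ + (c - min c d) • ρ) +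
          (y - d • σ + (d - min c d) • σ) by module]
        exact hT.add _ (hT.add _ a5 _ (hT.smul _ (sub_nonneg.2 (min_le_left _ _)) _ a2)) _
          (hT.add _ b5 _ (hT.smul _ (sub_nonneg.2 (min_le_right _ _)) _ b2))
      · rw [show (M + M') • (ρ + σ) - (x + y) = (M • ρ - x + M' • ρ) + (M' • σ - y + M • σ) by
          module]
        exact hT.add _ (hT.add _ a6 _ (hT.smul _ b4.le _ a2)) _
          (hT.add _ b6 _ (hT.smul _ a4.le _ b2))
    · rintro t ht x ⟨ρ, a1, a2, c, M, a3, a4, a5, a6⟩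
      rcases ht.eq_or_lt with rfl | ht'
      · rw [zero_smul]
        exact z
      · refine ⟨ρ, a1, a2, t * c, t * M, mul_pos ht' a3, mul_pos ht' a4, ?_, ?_⟩
        · rw [mul_smul, ← smul_sub]
          exact hT.smul _ ht _ a5
        · rw [mul_smul, ← smul_sub]
          exact hT.smul _ ht _ a6
  exact this.cone_subset (R := R) (fun r hr => ⟨r, hR hr, e ▸ subset_cone _ hr, 1, 1, one_pos,
    one_pos, by simpa using hT.zero, by simpa using hT.zero⟩) (e ▸ hy)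

end OpnA

theorem opn_stmt : OpnStmt := by
  intro amp deg lzb k K _ _ _ _ X r Z s Ψ p S hS ⟨𝒯, hfin, hRP, hO, hZ⟩ y hy hpos v hv
  obtain ⟨ρ, ρ1, ρ2, c, M, c0, M0, h1, h2⟩ := OpnA.comp (hRP _ (hZ Z s.md)) hy
  have hρ : Lc X Z ρ := lzb k K X r Z s Ψ p ρ ρ1 ρ2.1 fun ν hν => by
    have e1 := (deg k K X r Z s Ψ p).nn ν _ (h2.1 _ ν.gen_mem)
    rw [map_sub, map_sub, map_smul, map_smul, smul_eq_mul] at e1
    exact (mul_pos_iff_of_pos_left M0).1 (by linarith [hpos ν hν])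
  have key : ∀ O ∈ Z, ∀ᶠ δ : ℝ in 𝓝[>] 0, y + δ • v ∈ SO X O ∩ S := fun O hO => by
    obtain ⟨N, N0, hN⟩ := amp k K X r Z s p.toUpd ρ hρ O hO v
    filter_upwards [Ioc_mem_nhdsGT (div_pos c0 N0), Ioc_mem_nhdsGT (zero_lt_one' ℝ)] with δ a b
    constructor
    · rw [show y + δ • v = δ • (N • ρ + v) + ((c - δ * N) • ρ + (y - c • ρ)) by module]
      exact isCone_SO.add _ (isCone_SO.smul _ a.1.le _ hN) _ (isCone_SO.add _ (isCone_SO.smul _
        (sub_nonneg.2 ((le_div_iff₀ N0).1 a.2)) _ (ρ2.1 O hO)) _ (h1.1 O hO))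
    · rw [show y + δ • v = δ • (y + v) + (1 - δ) • y by module]
      exact hS.add _ (hS.smul _ a.1.le _ hv) _ (hS.smul _ (sub_nonneg.2 b.2) _ hy.2)
  have h3 : ∀ᶠ δ : ℝ in 𝓝[>] 0, ∀ T ∈ 𝒯, (∃ O ∈ Z, SO X O ∩ S = T) → y + δ • v ∈ T :=
    (eventually_all_finite hfin).2 fun T _ => by
      by_cases h : ∃ O ∈ Z, SO X O ∩ S = T
      · obtain ⟨O, a, rfl⟩ := h
        exact (key O a).mono fun _ b _ => b
      · exact .of_forall fun _ b => absurd b h
  obtain ⟨δ, a, b⟩ := (h3.and (Ioc_mem_nhdsGT (zero_lt_one' ℝ))).exists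
  exact ⟨δ, b.1, b.2, fun O e =>
    (a _ (hO O (s.md.good.loc O e) (s.md.kr O e)) ⟨O, e, rfl⟩).1⟩

end Pool.Agent.MP_20d318_ag.AM

end

section

set_option autoImplicit false

open AlgebraicGeometry CategoryTheory TopologicalSpace HomogeneousLocalization

namespace Pool.Agent.MP_20d318_ag.AM

open Pool.Agent.MP_fd6584_ag.Pj

attribute [local instance] MvPolynomial.gradedAlgebra

/-- A finite affine cover glued along ratios of coordinates. -/
def Cov (X : Scheme.{0}) : Prop :=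
  ∃ (N : ℕ) (U : Fin (N + 1) → X.Opens) (t : ∀ i, Fin (N + 1) → Γ(X, U i)),
    (∀ i, IsAffineOpen (U i)) ∧ (∀ x, ∃ i, x ∈ U i) ∧
    (∀ i l, X.basicOpen (t i l) = U i ⊓ U l) ∧
    ∀ i j l x (hi : x ∈ U i) (hj : x ∈ U j), X.presheaf.germ _ x hi (t i j) *
      X.presheaf.germ _ x hj (t j l) = X.presheaf.germ _ x hi (t i l)

namespace PJ

noncomputable section

variable (k : Type) [Field k] (n : ℕ)

/-- The graded polynomial ring. -/
abbrev G := MvPolynomial.homogeneousSubmodule (Fin (n + 1)) k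

/-- The variables. -/
abbrev xx (i : Fin (n + 1)) : MvPolynomial (Fin (n + 1)) k := MvPolynomial.X i

theorem xm (i : Fin (n + 1)) : xx k n i ∈ G k n 1 := MvPolynomial.isHomogeneous_X _ _

/-- The fraction `x_l / x_i`. -/
def fq (i l : Fin (n + 1)) : Away (G k n) (xx k n i) :=
  Away.mk _ (xm k n i) 1 (xx k n l) (xm k n l)

/-- The standard chart. -/
abbrev V (i : Fin (n + 1)) : (Proj (G k n)).Opens := Proj.basicOpen (G k n) (xx k n i)

/-- The fraction as a section. -/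
def sq (i l : Fin (n + 1)) : Γ(Proj (G k n), V k n i) :=
  (Proj.awayToSection (G k n) (xx k n i)).hom (fq k n i l)

theorem germ_val (i l : Fin (n + 1)) (x : Proj (G k n)) (hx : x ∈ V k n i) :
    ((Proj.stalkIso (G k n) x).hom ((Proj (G k n)).presheaf.germ _ x hx (sq k n i l))).val =
      Localization.mk (xx k n l) ⟨xx k n i, hx⟩ := by
  have h := Proj.stalkIso'_germ (G k n) (V k n i) x hx (sq k n i l)
  have h2 := ProjectiveSpectrum.Proj.awayToSection_apply (G k n) (xx k n i) (fq k n i l) ⟨x, hx⟩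
  refine (congrArg val h).trans (h2.trans ?_)
  rw [fq, Away.val_mk, Localization.mk_eq_mk', IsLocalization.map_mk', ← Localization.mk_eq_mk']
  congr 1
  ext
  simp

theorem s_basic (i l : Fin (n + 1)) :
    (Proj (G k n)).basicOpen (sq k n i l) = V k n i ⊓ V k n l := by
  ext x
  by_cases hx : x ∈ V k n i
  · have h1 := (Proj (G k n)).mem_basicOpen (sq k n i l) x hx
    have h2 : IsUnit ((Proj (G k n)).presheaf.germ _ x hx (sq k n i l)) ↔ x ∈ V k n l := by
      rw [← MulEquiv.isUnit_map (f := (Proj.stalkIso (G k n) x).commRingCatIsoToRingEquiv),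
        ← isUnit_iff_isUnit_val]
      erw [germ_val]
      rw [Localization.mk_eq_mk', IsLocalization.AtPrime.isUnit_mk'_iff]
      rfl
    exact (h1.trans h2).trans ⟨fun h => ⟨hx, h⟩, fun h => h.2⟩
  · exact ⟨fun h => (hx ((Proj (G k n)).basicOpen_le _ h)).elim, fun h => (hx h.1).elim⟩

theorem s_mul (i j l : Fin (n + 1)) (x : Proj (G k n)) (hi : x ∈ V k n i) (hj : x ∈ V k n j) :
    (Proj (G k n)).presheaf.germ _ x hi (sq k n i j) *
      (Proj (G k n)).presheaf.germ _ x hj (sq k n j l) =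
      (Proj (G k n)).presheaf.germ _ x hi (sq k n i l) := by
  apply (Proj.stalkIso (G k n) x).commRingCatIsoToRingEquiv.injective
  apply val_injective
  rw [map_mul, val_mul]
  refine (congrArg₂ (· * ·) (germ_val k n i j x hi) (germ_val k n j l x hj)).trans
    (Eq.trans ?_ (germ_val k n i l x hi).symm)
  rw [Localization.mk_mul, Localization.mk_eq_mk_iff, Localization.r_iff_exists]
  refine ⟨1, ?_⟩
  simp only [OneMemClass.coe_one, one_mul, Submonoid.coe_mul]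
  ring

theorem s_cov (x : Proj (G k n)) : ∃ i, x ∈ V k n i := by
  refine Opens.mem_iSup.1 ((Proj.iSup_basicOpen_eq_top' (G k n) (xx k n)
    (fun i => ⟨1, xm k n i⟩) ?_).ge (Set.mem_univ x))
  refine top_le_iff.1 fun a h => ?_
  clear h
  induction a using MvPolynomial.induction_on with
  | C r => exact Subalgebra.algebraMap_mem _ (⟨MvPolynomial.C r,
      MvPolynomial.isHomogeneous_C _ r⟩ : G k n 0)
  | add p q hp hq => exact add_mem hp hq
  | mul_X p l hp => exact mul_mem hp (Algebra.subset_adjoin ⟨l, rfl⟩)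

end

end PJ

open PJ in
theorem cov_of_proj {k : Type} [Field k] {X : Scheme.{0}} {s : X ⟶ Spec (CommRingCat.of k)}
    (h : IsProjective s) : Cov X := by
  obtain ⟨n, i, hi, -⟩ := h
  refine ⟨n, fun l => i ⁻¹ᵁ V k n l, fun l m => i.app _ (sq k n l m),
    fun l => (Proj.isAffineOpen_basicOpen (G k n) _ (xm k n l) one_pos).preimage _,
    fun x => s_cov k n _, fun l m => ?_, fun l m r x hl hm => ?_⟩
  · rw [← Scheme.preimage_basicOpen, s_basic]
    rfl
  · rw [← i.germ_stalkMap_apply _ x hl, ← i.germ_stalkMap_apply _ x hm,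
      ← i.germ_stalkMap_apply _ x hl, ← map_mul]
    exact congrArg _ (s_mul k n l m r _ hl hm)

end Pool.Agent.MP_20d318_ag.AM

end

section

set_option autoImplicit false
set_option linter.style.haveILetI false

open AlgebraicGeometry CategoryTheory TopologicalSpace

namespace Pool.Agent.MP_20d318_ag.AM

open Pool.Agent.MP_fd6584_ag.Pj

namespace RV

noncomputable section

variable {k K : Type} [Field k] [Field K] [Algebra k K] {X : Scheme.{0}} [IsIntegral X]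
  {s : X ⟶ Spec (CommRingCat.of k)} (ε : X.functionField ≃+* K)

/-- The generic point. -/
def gp : Spec (CommRingCat.of K) ⟶ X :=
  Spec.map (CommRingCat.ofHom ε.toRingHom) ≫ X.fromSpecStalk (genericPoint X)

/-- Sections as elements of the field. -/
def ph {U : X.Opens} (h : genericPoint X ∈ U) : Γ(X, U) →+* K :=
  ε.toRingHom.comp (X.presheaf.germ U _ h).hom

variable {U W : X.Opens}

theorem ph_inj (h : genericPoint X ∈ U) : Function.Injective (ph ε h) :=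
  ε.injective.comp (germ_injective_of_isIntegral _ _ h)

theorem ph_spec (hU : IsAffineOpen U) (h : genericPoint X ∈ U) :
    Spec.map (CommRingCat.ofHom (ph ε h)) ≫ hU.fromSpec = gp ε := by
  rw [gp, ← hU.fromSpecStalk_eq_fromSpecStalk h, IsAffineOpen.fromSpecStalk,
    ← Spec.map_comp_assoc]
  rfl

theorem ph_res (h : genericPoint X ∈ U) (h' : genericPoint X ∈ W) (i : U ≤ W) (a : Γ(X, W)) :
    ph ε h (X.presheaf.map (homOfLE i).op a) = ph ε h' a :=
  congrArg ε (X.presheaf.germ_res_apply (homOfLE i) _ h a)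

theorem gp_s (hε : ∀ c, ε (const s c) = algebraMap k K c) :
    gp ε ≫ s = Spec.map (CommRingCat.ofHom (algebraMap k K)) := by
  have h2 : X.fromSpecStalk (genericPoint X) ≫ s = Spec.map (CommRingCat.ofHom (const s)) := by
    rw [const, CommRingCat.ofHom_hom, Spec.map_comp, Spec.map_comp, Category.assoc,
      ← Scheme.fromSpecStalk_toSpecΓ, Category.assoc, ← Scheme.toSpecΓ_naturality_assoc,
      ← SpecMap_ΓSpecIso_hom, ← Spec.map_comp, Iso.inv_hom_id, Spec.map_id, Category.comp_id]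
  rw [gp, Category.assoc, h2, ← Spec.map_comp]
  congr 1
  exact CommRingCat.hom_ext (RingHom.ext hε)

theorem ph_const (hε : ∀ c, ε (const s c) = algebraMap k K c) (hU : IsAffineOpen U)
    (h : genericPoint X ∈ U) (c : k) :
    ph ε h (Spec.preimage (hU.fromSpec ≫ s) c) = algebraMap k K c := by
  have h1 := gp_s ε hε
  rw [← ph_spec ε hU h, Category.assoc, ← Spec.map_preimage (hU.fromSpec ≫ s), ← Spec.map_comp,
    Spec.map_inj] at h1
  exact congrArg (fun g => g.hom c) h1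

theorem exists_B [LocallyOfFiniteType s] (hε : ∀ c, ε (const s c) = algebraMap k K c)
    (hU : IsAffineOpen U) (h : genericPoint X ∈ U) :
    ∃ B : Subalgebra k K, B.FG ∧ ∀ y, y ∈ B ↔ ∃ a, ph ε h a = y := by
  have h1 : (Spec.preimage (hU.fromSpec ≫ s)).hom.FiniteType := by
    rw [← HasRingHomProperty.Spec_iff (P := @LocallyOfFiniteType), Spec.map_preimage]
    infer_instance
  letI := (Spec.preimage (hU.fromSpec ≫ s)).hom.toAlgebra
  let φ : Γ(X, U) →ₐ[k] K := ⟨ph ε h, ph_const ε hε hU h⟩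
  have h2 : Algebra.FiniteType k Γ(X, U) := h1
  exact ⟨φ.range, by rw [← Algebra.map_top]; exact h2.out.map φ, fun y => Iff.rfl⟩

theorem ph_frac (hU : IsAffineOpen U) (h : genericPoint X ∈ U) (y : K) :
    ∃ a b, ph ε h b ≠ 0 ∧ y * ph ε h b = ph ε h a := by
  have : Nonempty U := ⟨⟨_, h⟩⟩
  have := functionField_isFractionRing_of_isAffineOpen X U hU
  obtain ⟨a, b, hb, e⟩ := IsFractionRing.div_surjective (A := Γ(X, U)) (ε.symm y)
  have h0 : ph ε h b ≠ 0 := (map_ne_zero_iff _ (ph_inj ε h)).2 (nonZeroDivisors.ne_zero hb)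
  refine ⟨a, b, h0, ?_⟩
  rw [← ε.apply_symm_apply y, ← e, map_div₀]
  exact div_mul_cancel₀ _ h0

theorem ph_pow (hU : IsAffineOpen U) (h : genericPoint X ∈ U) (h' : genericPoint X ∈ W)
    (t : Γ(X, U)) (ht : X.basicOpen t = U ⊓ W) (c : Γ(X, W)) :
    ∃ (n : ℕ) (b : Γ(X, U)), ph ε h b = ph ε h t ^ n * ph ε h' c := by
  have := hU.isLocalization_basicOpen t
  have h2 : genericPoint X ∈ X.basicOpen t := ht ▸ ⟨h, h'⟩
  obtain ⟨⟨b, _, n, rfl⟩, e⟩ := IsLocalization.surj (Submonoid.powers t)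
    (X.presheaf.map (homOfLE (ht.le.trans inf_le_right)).op c)
  have e2 := congrArg (ph ε h2) e
  have e3 : ∀ a : Γ(X, U), ph ε h2 (algebraMap _ Γ(X, X.basicOpen t) a) = ph ε h a :=
    fun a => ph_res ε h2 h (X.basicOpen_le t) a
  rw [map_mul, e3, e3, ph_res ε h2 h'] at e2
  exact ⟨n, b, by rw [← e2, map_pow, mul_comm]⟩

theorem val_ex [IsProper s] (hε : ∀ c, ε (const s c) = algebraMap k K c)
    (O : ValuationSubring K) (hO : ∀ c : k, algebraMap k K c ∈ O) :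
    ∃ x : X, ∀ (U : X.Opens) (_ : IsAffineOpen U) (h : genericPoint X ∈ U), x ∈ U →
      ∀ a, ph ε h a ∈ O := by
  have h1 : ValuativeCriterion.Existence s :=
    (UniversallyClosed.eq_valuativeCriterion.le _ _ s inferInstance).1
  obtain ⟨l, h2⟩ : ∃ l : Spec (CommRingCat.of O) ⟶ X,
      Spec.map (CommRingCat.ofHom (algebraMap O K)) ≫ l = gp ε := by
    obtain ⟨⟨l, h2, -⟩⟩ := h1
      { R := O, K := K, i₁ := gp ε
        i₂ := Spec.map (CommRingCat.ofHom ((algebraMap k K).codRestrict O hO))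
        commSq := ⟨by rw [gp_s ε hε, ← Spec.map_comp]; rfl⟩ }
    exact ⟨l, h2⟩
  refine ⟨l (IsLocalRing.closedPoint O), fun U hU h hx a => ?_⟩
  have h3 : Set.range l ⊆ Set.range hU.fromSpec := by
    rw [hU.range_fromSpec]
    rintro _ ⟨p, rfl⟩
    exact (Scheme.preimage_eq_top_of_closedPoint_mem l hx).ge (Set.mem_univ p)
  have h4 := IsOpenImmersion.lift_fac hU.fromSpec l h3
  rw [← h4, ← ph_spec ε hU h, ← Category.assoc, cancel_mono,
    ← Spec.map_preimage (IsOpenImmersion.lift hU.fromSpec l h3), ← Spec.map_comp,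
    Spec.map_inj] at h2
  have h5 : _ = ph ε h a := congrArg (fun g => g.hom a) h2
  rw [← h5]
  exact Subtype.property _

theorem e_eq {J : Type} {𝒞 : Charts k K J} (N : Model 𝒞) (ε : N.X.functionField ≃+* K) (j : J)
    (h : Spec.map (CommRingCat.ofHom (𝒞.B j).val.toRingHom) ≫ N.ch j = gp ε) : N.e = ε := by
  have h1 : gp N.e = _ := N.exists_e.choose_spec j
  rw [h, gp, gp, cancel_mono, Spec.map_inj] at h1
  exact RingEquiv.ext fun a => congrArg (fun g => g.hom a) h1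

end

end RV

open RV in
theorem rev {k K : Type} [Field k] [Field K] [Algebra k K] {X : Scheme.{0}} [IsIntegral X]
    {s : X ⟶ Spec (CommRingCat.of k)} (hs : IsProjective s) (ε : X.functionField ≃+* K)
    (hε : ∀ c, ε (const s c) = algebraMap k K c) :
    ∃ (J : Type) (_ : Finite J) (𝒞 : Charts k K J) (ch : _) (h1 : _) (h2 : _) (h3 : _) (h4 : _)
      (h5 : _), (Model.mk (𝒞 := 𝒞) X s ch hs inferInstance h1 h2 h3 h4 h5).e = ε := by
  have := hs.isProper
  obtain ⟨n, U, t, hU, hc, hb, hm⟩ := cov_of_proj hs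
  have hg : ∀ x i, x ∈ U i → genericPoint X ∈ U i := fun x i h =>
    (genericPoint_specializes x).mem_open (U i).2 h
  choose B hB hB' using fun j : {j // genericPoint X ∈ U j} => exists_B ε hε (hU j) j.2
  obtain ⟨j₀, h₀⟩ := hc (genericPoint X)
  have hf : ∀ j : {j // genericPoint X ∈ U j}, ph ε h₀ (t j₀ j) ≠ 0 := fun j =>
    (((X.mem_basicOpen (t j₀ j) _ h₀).1 ((hb j₀ j).ge ⟨h₀, j.2⟩)).map ε).ne_zero
  have hr : ∀ i j : {j // genericPoint X ∈ U j},
      ph ε j.2 (t j i) = ph ε h₀ (t j₀ i) / ph ε h₀ (t j₀ j) := fun i j => by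
    rw [eq_div_iff (hf j), mul_comm]
    exact (map_mul ε _ _).symm.trans (congrArg ε (hm j₀ j i _ h₀ j.2))
  let 𝒞 : Charts k K {j // genericPoint X ∈ U j} :=
    { B := B
      f := fun j => ph ε h₀ (t j₀ j)
      f_ne := hf
      ratio := fun i j => (hB' j _).2 ⟨_, hr i j⟩
      comp := fun i j c h => by
        obtain ⟨c, rfl⟩ := (hB' i c).1 h
        obtain ⟨m, b, e⟩ := ph_pow ε (hU j) j.2 i.2 (t j i) (hb j i) c
        exact ⟨m, (hB' j _).2 ⟨b, by rw [e, hr]⟩⟩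
      fg := hB
      proper := fun O hO => by
        obtain ⟨x, hx⟩ := val_ex ε hε O hO
        obtain ⟨j, hj⟩ := hc x
        refine ⟨⟨j, hg x j hj⟩, fun c h => ?_⟩
        obtain ⟨c, rfl⟩ := (hB' _ c).1 h
        exact hx _ (hU j) _ hj c
      frac := fun j y => by
        obtain ⟨a, b, h1, h2⟩ := ph_frac ε (hU j) j.2 y
        exact ⟨_, (hB' j _).2 ⟨a, rfl⟩, _, (hB' j _).2 ⟨b, rfl⟩, h1, h2⟩ }
  let ψ : ∀ j : {j // genericPoint X ∈ U j}, Γ(X, U j) →+* B j := fun j =>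
    (ph ε j.2).codRestrict (B j) fun a => (hB' j _).2 ⟨a, rfl⟩
  have hψ : ∀ j, IsIso (Spec.map (CommRingCat.ofHom (ψ j))) := fun j =>
    isIso_SpecMap_iff.mpr ⟨fun x y h => ph_inj ε j.2 (congrArg Subtype.val h), fun c => by
      obtain ⟨z, hz⟩ := (hB' j c).1 c.2
      exact ⟨z, Subtype.ext hz⟩⟩
  have hv : ∀ j, Spec.map (CommRingCat.ofHom (𝒞.B j).val.toRingHom) ≫
      Spec.map (CommRingCat.ofHom (ψ j)) ≫ (hU j).fromSpec = gp ε := fun j => by
    rw [← ph_spec ε (hU j) j.2, ← Spec.map_comp_assoc]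
    rfl
  have hR : ∀ j, Set.range (Spec.map (CommRingCat.ofHom (ψ j)) ≫ (hU j).fromSpec) = U j :=
    fun j => by
      have := hψ j
      rw [← Scheme.Hom.coe_opensRange, Scheme.Hom.opensRange_comp_of_isIso,
        (hU j).opensRange_fromSpec]
  refine ⟨_, inferInstance, 𝒞, fun j => Spec.map (CommRingCat.ofHom (ψ j)) ≫ (hU j).fromSpec,
    fun j => ?_, fun x => ?_, fun j => ?_, fun i j => (hv i).trans (hv j).symm,
    fun i j p => ?_, ?_⟩
  · have := hψ j
    infer_instance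
  · obtain ⟨j, hj⟩ := hc x
    exact ⟨⟨j, hg x j hj⟩, (hR _).ge hj⟩
  · rw [Category.assoc, ← Spec.map_preimage ((hU j).fromSpec ≫ s), ← Spec.map_comp]
    congr 1
    exact CommRingCat.hom_ext (RingHom.ext fun c => Subtype.ext (ph_const ε hε (hU j) j.2 c))
  · rw [hR]
    have h1 : _ ∈ U j := (hR j).le ⟨p, rfl⟩
    have h2 : ψ j (t j i) = ⟨_, 𝒞.ratio i j⟩ := Subtype.ext (hr i j)
    rw [← h2]
    refine Iff.trans (b := Spec.map (CommRingCat.ofHom (ψ j)) p ∈
      (hU j).fromSpec ⁻¹ᵁ X.basicOpen (t j i)) ?_ ?_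
    · rw [hb, Scheme.Hom.mem_preimage, ← Scheme.Hom.comp_apply]
      exact ⟨fun h => Opens.mem_inf.2 ⟨h1, h⟩, fun h => (Opens.mem_inf.1 h).2⟩
    · rw [IsAffineOpen.fromSpec_preimage_basicOpen]
      rfl
  · refine e_eq _ _ ⟨j₀, h₀⟩ ?_
    exact hv ⟨j₀, h₀⟩

end Pool.Agent.MP_20d318_ag.AM

end
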