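import Pool.Agent.MP_20d318_ag.AM.K1
import Pool.Agent.MP_20d318_ag.KK.Spec
import Pool.Agent.MP_fd6584_ag.MV.Spec
import Pool.Agent.MP_20d318_ag.CH.BSpec

/-! Statements on steps, surfaces and the movable cone. -/

section

set_option autoImplicit false
set_option linter.unusedSectionVars false

namespace Pool.Agent.MP_20d318_ag.AM

open Pool.Agent.MP_fd6584_ag.Fn Pool.Agent.CBk
open Pool.Agent.MP_fd6584_ag.AG hiding deg_inv deg_congr deg_of_unit deg_mul deg_prod deg_zpow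
  deg_eq_zero deg_nonneg deg_div deg_pow
open Pool.Agent.MVg (Sc Fac Two BasStmt)
open Pool.Agent.MP_20d318_ag.CH (Lv Lf sX cl Nd n1_ext)
open Pool.Agent.MP_20d318_ag.KK
open Pool.Agent.MP_20d318_ag.Lat (cone IsCone RP isCone_cone subset_cone)

section one

variable {k K : Type} [Field k] [Field K] [Algebra k K] (X : Set (Subalgebra k K))

/-- The section `s` of `ℓ` is integral over the monomials in the `d j`, seen from `V`. -/
def Mon {J : Type} [Fintype J] (d : J → Subalgebra k K → K) (V : Subalgebra k K)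
    (ℓ : Subalgebra k K → K) (s : K) : Prop :=
  ∃ (m : ℕ) (a : J → ℕ) (μ : K), 0 < m ∧ μ ∈ V ∧
    ∀ O ∈ X, IsU O ((μ * ∏ j, d j O ^ a j) / (s * ℓ O) ^ m)

variable {X} {J : Type} [Fintype J] {d : J → Subalgebra k K → K} {V : Subalgebra k K}
  {ℓ ℓ' : Subalgebra k K → K} {s t : K}

theorem Mon.of_pow {n : ℕ} (h : Mon X d V ℓ' t) (hn : 0 < n) (hs : s ≠ 0) (ht : t ≠ 0)
    (hV : s ^ n / t ∈ V) (hl : ∀ O ∈ X, IsU O (ℓ' O / ℓ O ^ n)) : Mon X d V ℓ s := by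
  obtain ⟨m, a, μ, h1, h2, h3⟩ := h
  refine ⟨n * m, a, μ * (s ^ n / t) ^ m, mul_pos hn h1, V.mul_mem h2 (V.pow_mem hV m),
    fun O hO => ?_⟩
  obtain ⟨l1, l2⟩ := div_ne_zero_iff.1 (hl O hO).1
  have l3 : ℓ O ≠ 0 := fun q => l2 (by rw [q, zero_pow hn.ne'])
  refine Eq.subst (motive := IsU O) ?_ ((h3 O hO).mul ((hl O hO).pow m))
  simp only [pow_mul, mul_pow, div_pow]
  field_simp

theorem Mon.sum {I : Type*} {B : Finset I} {τ : I → K} (hV : IsVal V) (hX : ∀ O ∈ X, ℓ O ≠ 0)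
    (h : ∀ b ∈ B, τ b ≠ 0 → Mon X d V ℓ (τ b)) (h0 : ∑ b ∈ B, τ b ≠ 0) :
    Mon X d V ℓ (∑ b ∈ B, τ b) := by
  classical
  have key : ∀ B : Finset I, (∀ b ∈ B, τ b = 0) ∨ ∃ b ∈ B, τ b ≠ 0 ∧ ∀ c ∈ B, τ c / τ b ∈ V := by
    intro B
    induction B using Finset.induction_on with
    | empty => simp
    | insert c B _ ih =>
      rcases eq_or_ne (τ c) 0 with c0 | c0
      · refine ih.imp (by simpa [c0] using id) fun ⟨b, b1, b2, b3⟩ =>
          ⟨b, Finset.mem_insert_of_mem b1, b2, by simpa [c0] using b3⟩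
      refine Or.inr (ih.elim (fun q => ⟨c, by simp, c0, ?_⟩) fun ⟨b, b1, b2, b3⟩ => ?_)
      · simpa [c0] using fun a ha => by simp [q a ha]
      rcases hV (τ c / τ b) with q | q
      · exact ⟨b, Finset.mem_insert_of_mem b1, b2, by simpa [q] using b3⟩
      · refine ⟨c, by simp, c0, ?_⟩
        simp only [Finset.forall_mem_insert, div_self c0, one_mem, true_and]
        intro a ha
        have := V.mul_mem (b3 a ha) q
        rwa [inv_div, div_mul_div_cancel₀ b2] at this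
  obtain q | ⟨b, b1, b2, b3⟩ := key B
  · exact (h0 (Finset.sum_eq_zero q)).elim
  refine (h b b1 b2).of_pow one_pos h0 b2 ?_ fun O hO => ?_
  · rw [pow_one, Finset.sum_div]
    exact sum_mem b3
  · rw [pow_one, div_self (hX O hO)]
    exact isU_one

theorem fg_iff {S : Set (N1 X)} : Fg X d S ↔ (∀ j, Ed X (d j)) ∧
    ∀ e, Ed X e → cl X e ∈ S → ∀ V, IsVal V → Mon X d V e 1 := by
  simp only [Fg, Mon, one_mul]

end one

section level

variable {k M Λ κ : Type} {n : ℕ} [Field k] [Field M] [Algebra k M] [Fintype κ] (L : Lv k M Λ κ n)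

/-- The cone over `R` plus the span of the components. -/
def Sp (R : Set (N1 L.Y)) : Set (N1 L.Y) :=
  cone (R ∪ (Set.range L.nd.c ∪ Set.range fun i => -L.nd.c i))

/-- The invariants of a level. -/
structure MD : Prop where
  nl : NL L.Y
  fs : ∀ R : Set (N1 L.Y), R.Finite → R ⊆ LL L.Y → R ⊆ Glue.Ef L.Y → FG L.Y (Sp L R)
  ce : ∃ R : Set (N1 L.Y), R.Finite ∧ R ⊆ LL L.Y ∧ R ⊆ Glue.Ef L.Y ∧
    ∀ x ∈ Glue.Ef L.Y, ∃ g ∈ L.nd.G, g x ∈ cone R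

variable {L}

theorem MD.fS (h : MD L) : FS L.Y := by
  rintro _ ⟨R, a, rfl⟩ b
  exact (h.fs R R.finite_toSet a ((subset_cone _).trans b)).mono
    (Lat.cone_mono Set.subset_union_left)

theorem MD.cE (h : MD L) : CE L.Y := by
  obtain ⟨R, a, b, c, d⟩ := h.ce
  refine ⟨_, rp_fin a b, (isCone_cone _).cone_subset c, fun x hx => ?_⟩
  obtain ⟨_, ⟨g, -, -, rfl⟩, q⟩ := d x hx
  exact ⟨g, q⟩

theorem sp_sub {R : Set (N1 L.Y)} {x : N1 L.Y} (h : x ∈ Sp L R) (z : κ → ℝ) :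
    x - ∑ i, z i • L.nd.c i ∈ Sp L R := by
  rw [sub_eq_add_neg, ← Finset.sum_neg_distrib]
  refine (isCone_cone _).add _ h _ ((isCone_cone _).sum_mem _ _ fun i _ => ?_)
  rcases le_total 0 (z i) with q | q
  · exact smul_neg (z i) (L.nd.c i) ▸
      (isCone_cone _).smul _ q _ (subset_cone _ (Or.inr (Or.inr ⟨i, rfl⟩)))
  · exact neg_smul (z i) (L.nd.c i) ▸
      (isCone_cone _).smul _ (neg_nonneg.2 q) _ (subset_cone _ (Or.inr (Or.inl ⟨i, rfl⟩)))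

end level

section step

theorem inj_of {V V' V'' 𝒞 𝒞' 𝒞'' : Type 1} {κ κ' : Type} [AddCommGroup V] [Module ℝ V]
    [AddCommGroup V'] [Module ℝ V'] [AddCommGroup V''] [Module ℝ V''] [Fintype κ] [Fintype κ']
    {N : Nd V 𝒞 κ} {N' : Nd V' 𝒞' κ'} {d : 𝒞'' → V'' →ₗ[ℝ] ℝ} {Φ : WP V V' κ κ' →ₗ[ℝ] V''}
    (t : StTest N N' d Φ) (i : κ) (j : κ') (s : ∀ x, (∀ ν, N.d ν x = 0) → x = 0)
    (s' : ∀ x, (∀ ν, N'.d ν x = 0) → x = 0) : Function.Injective Φ := by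
  refine (injective_iff_map_eq_zero _).2 fun D h => ?_
  have a : D.2.2 = 0 := funext₂ fun i j => by
    obtain ⟨μ, n, n0, q⟩ := t.tE i j
    have := q D
    rw [h, map_zero] at this
    exact (mul_eq_zero.1 this.symm).resolve_left n0.ne'
  refine Prod.ext (s _ fun ν => ?_) (Prod.ext (s' _ fun ν => ?_) a)
  · obtain ⟨μ, q⟩ := t.tT ν j
    simpa [h, a] using (q D).symm
  · obtain ⟨μ, q⟩ := t.tT' ν i
    simpa [h, a] using (q D).symm

variable {k M M' K Λ Λ' κ κ' : Type} {n n' : ℕ} [Field k] [Field M] [Field M'] [Field K]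
  [Algebra k M] [Algebra k M'] [Algebra k K] [Fintype κ] [Fintype κ'] (L : Lv k M Λ κ n)
  (L' : Lv k M' Λ' κ' n') (ι : M →ₐ[k] K) (ι' : M' →ₐ[k] K) (Z : Set (Subalgebra k K))

/-- The generators on the next level. -/
noncomputable def dd {J J' : Type} (d : J → Subalgebra k M → M) (d' : J' → Subalgebra k M' → M') :
    (J ⊕ J') ⊕ (κ ⊕ κ') ⊕ κ × κ' → Subalgebra k K → K :=
  Sum.elim (Sum.elim (fun j => up ι L.Y (d j)) fun j => up ι' L'.Y (d' j))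
    (Sum.elim (sN L L' ι ι') fun x => EE L L' ι ι' x.1 x.2)

/-- Sections are integral over sections in the compositum. -/
def XSpl : Prop := ∀ g g' a, IsCart L.Y g → IsCart L'.Y g' → ∀ μ, μ ≠ 0 →
  Sc Z (lb L L' ι ι' g g' a) μ → ∀ V : Subalgebra k K, IsVal V → ∃ t, t ≠ 0 ∧ Rt ι ι' t ∧
    Sc Z (lb L L' ι ι' (g ^ 2) (g' ^ 2) fun i j => a i j * 2) t ∧ μ ^ 2 / t ∈ V

/-- Sections in the compositum are sums of products of sections. -/
def XTen : Prop := ∀ g g' a, IsCart L.Y g → IsCart L'.Y g' → ∀ t, Rt ι ι' t →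
  Sc Z (lb L L' ι ι' g g' a) t → ∃ (I : Type) (s : Finset I) (m : I → M) (m' : I → M'),
    t = ∑ b ∈ s, ι (m b) * ι' (m' b) ∧ ∀ b ∈ s, Sc L.Y g (m b) ∧ Sc L'.Y g' (m' b)

/-- A product of sections that vanishes to the orders `a` on the exceptional divisors. -/
def Tm (g : Subalgebra k M → M) (g' : Subalgebra k M' → M') (a : κ → κ' → ℤ) (m : M) (m' : M') :
    Prop := ∃ (x : κ → ℕ) (y : κ' → ℕ), Sc L.Y (g / ∏ i, L.s i ^ x i) m ∧
  Sc L'.Y (g' / ∏ j, L'.s j ^ y j) m' ∧ ∀ i j, a i j ≤ x i + y j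

/-- The terms can be chosen to be sections. -/
def XOrd : Prop := ∀ g g' a, IsCart L.Y g → IsCart L'.Y g' → ∀ (I : Type) (s : Finset I) (m : I → M)
  (m' : I → M'), (∀ b ∈ s, Sc L.Y g (m b) ∧ Sc L'.Y g' (m' b)) →
    Sc Z (lb L L' ι ι' g g' a) (∑ b ∈ s, ι (m b) * ι' (m' b)) → ∃ (B : Finset M') (c : M' → M),
      ∑ b ∈ s, ι (m b) * ι' (m' b) = ∑ b ∈ B, ι (c b) * ι' b ∧
        ∀ b ∈ B, c b ≠ 0 → b ≠ 0 → Tm L L' g g' a (c b) b

/-- One term. -/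
def XOne : Prop := ∀ (J J' : Type) [Fintype J] [Fintype J'] (d : J → Subalgebra k M → M)
  (d' : J' → Subalgebra k M' → M') R R', Fg L.Y d (Sp L R) → Fg L'.Y d' (Sp L' R') →
    (∀ j, Ed Z (dd L L' ι ι' d d' j)) ∧ ∀ g g' a, IsCart L.Y g → IsCart L'.Y g' →
      cl L.Y g ∈ Sp L R → cl L'.Y g' ∈ Sp L' R' → ∀ m m', m ≠ 0 → m' ≠ 0 → Tm L L' g g' a m m' →
        ∀ V, IsVal V → Mon Z (dd L L' ι ι' d d') V (lb L L' ι ι' g g' a) (ι m * ι' m')

variable {L L' ι ι' Z} {v : K} {e : ℕ}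

/-- Finite generation passes to the next level. -/
def XStp (h : Geo L L' ι ι' v e Z) : Prop := ∀ R R', FG L.Y (Sp L R) → FG L'.Y (Sp L' R') →
  FG Z (h.Phi '' {D | D.1 ∈ Sp L R ∧ D.2.1 ∈ Sp L' R'})

theorem phi_inj {h : Geo L L' ι ι' v e Z} (t : StTest L.nd L'.nd Curve.lin h.Phi) :
    Function.Injective h.Phi :=
  inj_of t h.ok.ne.some h.ok'.ne.some (fun _ q => n1_ext fun ν => (q ν).trans (map_zero _).symm)
    fun _ q => n1_ext fun ν => (q ν).trans (map_zero _).symm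

end step

/-- GEN: the generic point of an exceptional fibre. -/
def GenStmt : Prop := KqStmt → FRow fun {k M M' _ _ _ _ _ _ _ _} ι ι' => ∀ e R R' A S S',
  Lq e ι ι' R R' A S S' → S ∈ mx R → S' ∈ mx R' → ∃ V, IsVal V ∧ Ov ι ι' R R' V ∧ IsU V A ∧
    ∀ (I : Type) (s : Finset I) (u : I → M) (u' : I → M') (y : I → ℕ),
      (∀ b ∈ s, u b ∈ R ∧ u' b ∈ R') →
      (∀ (c : I → k) (N : ℕ), ∑ b ∈ s with y b = N, c b • u' b ∈ mx R' →
        ∀ b ∈ s, y b = N → c b = 0) →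
      ∑ b ∈ s, ι (u b) * ι' (u' b) * A ^ y b ∈ mx V → ∀ b ∈ s, u b ∈ mx R

/-- SPL. -/
def SplStmt : Prop := Row fun {_ _ _ _ _ _ _ _ _ _ _ _ _ _ _ _ _ _ _ L L' ι ι' v e Z} _ =>
  XSig L L' ι ι' v e Z → XSpl L L' ι ι' Z

/-- TEN. -/
def TenStmt : Prop := GaStmt →
  Row fun {_ _ _ _ _ _ _ _ _ _ _ _ _ _ _ _ _ _ _ L L' ι ι' _ _ Z} _ =>
    UniqueFactorizationMonoid (Bq ι ι' ⊤ ⊤ ∅) → XTen L L' ι ι' Z

/-- ORD. -/
def OrdStmt : Prop := KqStmt → GenStmt → BasStmt →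
  Row fun {_ _ _ _ _ _ _ κ' _ _ _ _ _ _ _ _ _ _ _ L L' ι ι' _ _ Z} _ => Two κ' → XOrd L L' ι ι' Z

/-- ONE. -/
def OneStmt : Prop := Row fun {_ _ _ _ _ _ _ _ _ _ _ _ _ _ _ _ _ _ _ L L' ι ι' _ _ Z} _ =>
  XOne L L' ι ι' Z

/-- STP. -/
def StpStmt : Prop := Row fun {_ _ _ _ _ _ _ _ _ _ _ _ _ _ _ _ _ _ _ L L' ι ι' _ _ Z} h =>
  Function.Injective h.Phi → XCls L L' ι ι' Z → XSpl L L' ι ι' Z → XTen L L' ι ι' Z →
    XOrd L L' ι ι' Z → XOne L L' ι ι' Z → XStp h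

/-- NLS: numerically trivial divisors. -/
def NlsStmt : Prop := Row fun {_ _ _ _ _ _ _ _ _ _ _ _ _ _ _ _ _ _ _ L L' ι ι' _ _ Z} h =>
  Function.Injective h.Phi → XCls L L' ι ι' Z → NL L.Y → NL L'.Y → NL Z

/-- MDS: the invariants pass to the next level. -/
def MdsStmt : Prop := IntStmt.{1} → EfcStmt →
  RowX fun {_ _ _ _ _ _ _ _ _ _ _ _ _ _ _ _ _ _ _ L L' ι ι' v e} h => Function.Injective h.Phi →
    StDiv L.nd L'.nd (nx L L' ι ι' v e).nd h.Phi → StCls L.nd L'.nd (nx L L' ι ι' v e).nd h.Phi →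
    StLift L.nd L'.nd (nx L L' ι ι' v e).nd h.Phi → XStp h → Ref (XX L L' ι ι' v e) →
    MD L → MD L' → MD (nx L L' ι ι' v e)

end Pool.Agent.MP_20d318_ag.AM

end

section

set_option autoImplicit false
set_option linter.unusedSectionVars false

namespace Pool.Agent.MP_20d318_ag.AM

open Pool.Agent.MP_fd6584_ag.Fn Pool.Agent.CBk
open Pool.Agent.MP_fd6584_ag.AG hiding deg_inv deg_congr deg_of_unit deg_mul deg_prod deg_zpow
  deg_eq_zero deg_nonneg deg_div deg_pow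
open Pool.Agent.MP_20d318_ag.CB Pool.Agent.MP_20d318_ag.CB.P
open Pool.Agent.MP_fd6584_ag.MV (LA LM S1L Is)
open Pool.Agent.MP_20d318_ag.CH (lv0 ldN Iso)
open Pool.Agent.MP_20d318_ag.Lat (cone)

section lattice

variable {ι κ : Type} [Fintype ι] [Fintype κ] (Λ : Ld ι κ)

/-- The classes of rational prime divisors. -/
def Ra : Set (ι → ℤ) := {c | c ∈ Λ.P ∧ ip Λ.B c c + ip Λ.B Λ.K c = -2}

/-- Those that are orthogonal to `y`. -/
def Nu (y : ι → ℤ) : Set (ι → ℤ) := {c | c ∈ Ra Λ ∧ ip Λ.B y c = 0}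

/-- Nef classes of positive square. -/
def NB (y : ι → ℤ) : Prop := Λ.Nef y ∧ 0 < ip Λ.B y y

/-- Nef classes orthogonal to an isotropic `F`. -/
def NF : Prop := ip Λ.B Λ.F Λ.F = 0 → ∀ Z ∈ Λ.NT, ip Λ.B Z (toR Λ.F) = 0 →
  ∃ q : ℝ, 0 ≤ q ∧ Z = q • toR Λ.F

/-- They are big. -/
def Bg : Prop := ∀ y, NB Λ y → ∀ w, ∃ m : ℕ, 0 < m ∧ m • y - w ∈ Λ.Ef

/-- Rational curves cut out the nef cone. -/
def Ctr : Prop := ∀ L : ι → ℝ, (∀ c ∈ Ra Λ, 0 ≤ ip Λ.B L (toR c)) → L ∈ Λ.NT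

/-- Big classes are sums of rational curves. -/
def Big : Prop := ∀ y, NB Λ y → ∀ w, ∃ m n : ℕ, 0 < m ∧ 0 < n ∧
  m • y - n • w ∈ AddSubmonoid.closure (Ra Λ)

/-- Cycles on the null locus. -/
def Cla : Prop := ∀ y, NB Λ y → ∀ c₀ ∈ Nu Λ y, ∀ N ∈ AddSubmonoid.closure (Nu Λ y), N ≠ 0 →
  ∃ c ∈ Nu Λ y, N - c ∈ AddSubmonoid.closure (Nu Λ y) ∧ ip Λ.B (Λ.K + c₀ + N) c ≤ -1

/-- Functions that do not increase when a rational curve is added. -/
def Dl (δ : (ι → ℤ) → ℤ) : Prop := ∀ D, ∀ c ∈ Ra Λ, -1 ≤ ip Λ.B D c → δ D ≤ δ (D - c)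

/-- Chains of curves. -/
def Chn : Prop := ∀ δ, Dl Λ δ → ∀ y, NB Λ y → ∀ c ∈ Ra Λ,
  ip Λ.B y c = 0 ∨ (∀ c' ∈ Λ.P, 0 < ip Λ.B y c') → ∀ N ∈ AddSubmonoid.closure (Ra Λ),
    ∃ n₀ : ℕ, ∀ n ≥ n₀, δ (n • y - c) ≤ δ (n • y - c - N)

/-- Stabilization. -/
def Stb : Prop := ∀ δ, Dl Λ δ → ∀ y, NB Λ y → (∀ n : ℕ, 0 ≤ δ (n • y)) → ∀ c ∈ Ra Λ,
  ip Λ.B y c = 0 ∨ (∀ c' ∈ Λ.P, 0 < ip Λ.B y c') → ∃ n : ℕ, 0 < n ∧ δ (n • y - c) ≤ δ (n • y)

/-- The effective cone. -/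
structure Efb (G : Set (Matrix ι ι ℤ)) : Prop where
  fin : ∀ R : Set (ι → ℝ), R.Finite → R ⊆ cone (toR '' Λ.P) → ∃ T ⊆ Λ.P, T.Finite ∧
    cone (toR '' Λ.P) ∩ cone (R ∪ ((Set.range fun i => toR (Λ.C i)) ∪
      Set.range fun i => -toR (Λ.C i))) ⊆ cone (toR '' T)
  cov : ∃ T ⊆ Λ.P, T.Finite ∧ ∀ x ∈ cone (toR '' Λ.P), ∃ ρ ∈ G, act ρ x ∈ cone (toR '' T)

variable {Λ}

theorem nf (m : LM) (h : LA Λ) : NF Λ := fun hF =>
  let ⟨_, T, hT⟩ := endB1_stmt ι κ Λ h.ns h.hg h.l1 hF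
  m.nefF ι κ Λ T h hF hT (fun X' => m.cut m.low ι κ Λ X' h hF) (m.vert ι κ Λ h).2

omit [Fintype κ] in
theorem sol_int (h : SolStmt.{0}) {T : Set (ι → ℤ)} {c : ι → ℤ} (hc : toR c ∈ cone (toR '' T)) :
    ∃ m : ℕ, 0 < m ∧ m • c ∈ AddSubmonoid.closure T := by
  obtain ⟨m, a, b⟩ := h _ (MP_fd6584_ag.MV.LI ι) ⟨inferInstance, Set.range LinearMap.proj, by
    rintro _ ⟨i, rfl⟩ x hx
    obtain ⟨z, rfl⟩ := MP_fd6584_ag.MV.mem_LI.1 hx
    exact ⟨z i, rfl⟩, fun x hx => funext fun i => hx _ ⟨i, rfl⟩⟩ _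
    (by rintro _ ⟨z, -, rfl⟩; exact MP_fd6584_ag.MV.mem_LI.2 ⟨z, rfl⟩) _
    (MP_fd6584_ag.MV.mem_LI.2 ⟨c, rfl⟩) hc
  let f : (ι → ℤ) →+ ι → ℝ := ⟨⟨toR, toR_zero⟩, toR_add⟩
  obtain ⟨z, z1, z2⟩ := (AddMonoidHom.map_mclosure f T).ge b
  exact ⟨m, a, toR_inj (z2.trans (map_nsmul f m c).symm) ▸ z1⟩

end lattice

/-- A property of lattices. -/
def LRow (q : ∀ {ι κ : Type} [Fintype ι] [Fintype κ], Ld ι κ → Prop) : Prop :=
  ∀ (ι κ : Type) [Fintype ι] [Fintype κ] (Λ : Ld ι κ), LA Λ → q Λ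

/-- BRAT. -/
def BratStmt : Prop := LRow fun Λ => ∀ N ε, CC.ST Λ.B Λ.K Λ.P N ε → (Ra Λ).Nonempty

/-- BGE. -/
def BgeStmt : Prop := LRow fun Λ => Bg Λ

/-- CTR. -/
def CtrStmt : Prop := LRow fun Λ => NF Λ → Bg Λ → (Ra Λ).Nonempty → Ctr Λ

/-- BIG. -/
def BigStmt : Prop := SolStmt.{0} → LRow fun Λ => Bg Λ → Ctr Λ → Big Λ

/-- CLA. -/
def ClaStmt : Prop := LRow fun Λ => Cla Λ

/-- CHN. -/
def ChnStmt : Prop := LRow fun Λ => Cla Λ → Chn Λ

/-- STB. -/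
def StbStmt : Prop := LRow fun Λ => Big Λ → Chn Λ → Stb Λ

/-- EFB. -/
def EfbStmt : Prop := LM → ∀ (ι κ : Type) [Fintype ι] [DecidableEq ι] [Fintype κ] (Λ : Ld ι κ)
  (G : Set (Matrix ι ι ℤ)), LA Λ → S1L Λ → 1 ∈ G → (∀ ρ ∈ G, ∃ ρ', Is Λ ρ ρ') →
  (ip Λ.B Λ.F Λ.F = 0 → ∃ N : ℕ, 0 < N ∧ ∀ x, ip Λ.B x Λ.F = 0 → ∃ ρ ∈ G, Λ.Tl ρ ((N : ℤ) • x)) →
    Efb Λ G

section surface

variable {k M I κ : Type} [Field k] [Field M] [Algebra k M] [Fintype I] [Fintype κ]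
  (p : Pd k M I κ)

/-- A multiple of `y` has a section that does not vanish at `O`. -/
def SeAt (y : I → ℤ) (O : Subalgebra k M) : Prop :=
  ∃ m : ℕ, 0 < m ∧ ∃ s ∈ p.Sec (m • y), IsU O (s * p.lb (m • y) O)

/-- Sections of a divisor that restrict onto a complete linear system. -/
def Rsa : Prop := ∀ c φ P, p.Prm c φ P → ∀ D, 0 ≤ ip p.B D c →
  p.h0 (D - c) + ip p.B D c + 1 ≤ p.h0 D → ∀ O ∈ p.T, O ≤ plO P → ∃ s ∈ p.Sec D, IsU O (s * p.lb D O)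

/-- Points on rational curves. -/
def Sea : Prop := ∀ y, NB p.ld y → ∀ c ∈ Ra p.ld,
  ip p.B y c = 0 ∨ (∀ c' ∈ p.PP, 0 < ip p.B y c') → ∀ φ P, p.Prm c φ P → ∀ O ∈ p.T, O ≤ plO P →
    SeAt p y O

/-- Finite generation over the monoids generated by finitely many prime divisors. -/
def Fgb : Prop := ∀ T ⊆ p.PP, T.Finite → ∃ (J : Type) (_ : Fintype J) (d : J → Subalgebra k M → M),
  (∀ j, Ed p.T (d j)) ∧ ∀ D ∈ AddSubmonoid.closure T, ∀ φ ∈ p.Sec D, φ ≠ 0 → ∀ V, IsVal V →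
    Mon p.T d V (p.lb D) φ

end surface

/-- A property of surfaces. -/
def PRow (q : ∀ {k M I κ : Type} [Field k] [Field M] [Algebra k M] [Fintype I] [Fintype κ],
    Pd k M I κ → Prop) : Prop :=
  ∀ (k M I κ : Type) [Field k] [NeZero (2 : k)] [IsAlgClosed k] [Field M] [Algebra k M] [Fintype I]
    [Fintype κ] (p : Pd k M I κ), Pair p → LA p.ld → CC.TA p.toSd → q p

/-- RSA. -/
def RsaStmt : Prop := PRow fun p => Rsa p

/-- SEA. -/
def SeaStmt : Prop := PRow fun p => Stb p.ld → Rsa p → Sea p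

/-- SEM. -/
def SemStmt : Prop := PRow fun p => Big p.ld → Sea p → ∀ y, NB p.ld y → ∀ O ∈ p.T, SeAt p y O

/-- SQZ. -/
def SqzStmt : Prop := PRow fun p => ∀ y, p.ld.Nef y → ip p.B y y = 0 → ∀ O ∈ p.T, SeAt p y O

/-- FGB. -/
def FgbStmt : Prop := SolStmt.{0} → CptStmt →
  PRow fun p => (∀ y, p.ld.Nef y → ∀ O ∈ p.T, SeAt p y O) → Fgb p

/-- BSE. -/
def BseStmt : Prop := SolStmt.{0} → PRow fun p => ∀ G ψ, Iso (ldN p.ld G) (lv0 p).nd ψ →
  (∀ (ν : Curve (lv0 p).Y) x, ν.lin (ψ x) = ip p.B x (toR (p.zz ν))) → Efb p.ld G → Fgb p →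
    MD (lv0 p)

/-- The rows on the surface. -/
structure BM : Prop where
  brat : BratStmt
  bge : BgeStmt
  ctr : CtrStmt
  big : BigStmt
  cla : ClaStmt
  chn : ChnStmt
  stb : StbStmt
  efb : EfbStmt
  rsa : RsaStmt
  sea : SeaStmt
  sem : SemStmt
  sqz : SqzStmt
  fgb : FgbStmt
  bse : BseStmt
  cpt : CptStmt
  sol : SolStmt.{0}

theorem BM.fg (b : BM) (m : LM) {k M I κ : Type} [Field k] [NeZero (2 : k)] [IsAlgClosed k] [Field M]
    [Algebra k M] [Fintype I] [Fintype κ] {p : Pd k M I κ} (h : Pair p) (l : LA p.ld)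
    (t : CC.TA p.toSd) {N : ℕ} {ε : ℕ → I → ℤ} (s : CC.ST p.B p.K p.PP N ε) : Fgb p := by
  have g := b.bge I κ _ l
  have c := b.big b.sol I κ _ l g (b.ctr I κ _ l (nf m l) g (b.brat I κ _ l N ε s))
  have a := b.sea k M I κ p h l t (b.stb I κ _ l c (b.chn I κ _ l (b.cla I κ _ l)))
    (b.rsa k M I κ p h l t)
  exact b.fgb b.sol b.cpt k M I κ p h l t fun y hy => (l.l1.ne y hy).1.lt_or_eq.elim
    (fun q => b.sem k M I κ p h l t c a y ⟨hy, q⟩) fun q => b.sqz k M I κ p h l t y hy q.symm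

end Pool.Agent.MP_20d318_ag.AM

end

section

set_option autoImplicit false
set_option linter.unusedSectionVars false

namespace Pool.Agent.MP_20d318_ag.AM

open Pool.Agent.MP_fd6584_ag.Fn Pool.Agent.CBk
open Pool.Agent.MP_fd6584_ag.AG hiding deg_inv deg_congr deg_of_unit deg_mul deg_prod deg_zpow
  deg_eq_zero deg_nonneg deg_div deg_pow
open Pool.Agent.MVg (H1 Mvb PsA Pl AI UnifStmt PullStmt PsmStmt)
open Pool.Agent.MP_20d318_ag.CH (Lv cl ldN lv0 Iso)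
open Pool.Agent.MP_20d318_ag.KK
open Pool.Agent.MP_20d318_ag.Lat (cone IsCone RP Intg)
open Pool.Agent.MP_fd6584_ag.MV (LM Pe)

section defs

variable {k K : Type} [Field k] [Field K] [Algebra k K] (X : Set (Subalgebra k K))

/-- The effective cone is closed along rays. -/
def RC : Prop := ∀ x, ∀ a ∈ Glue.Ef X, (∀ ε : ℝ, 0 < ε → x + ε • a ∈ Glue.Ef X) → x ∈ Glue.Ef X

/-- The movable cone. -/
def MO : Set (N1 X) := SA X {O | O ∈ X ∧ H1 O}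

/-- The classes of movable divisors. -/
def Mv : Set (N1 X) := {x | ∃ f, IsCart X f ∧ Mvb X f ∧ cl X f = x}

/-- The movable cone meets rational polyhedral cones in cones spanned by movable divisors. -/
structure Mor : Prop where
  sub : Mv X ⊆ MO X
  ef : MO X ⊆ Glue.Ef X
  fin : ∀ S, RP (LL X) S → S ⊆ Glue.Ef X → ∃ R : Finset (N1 X), (R : Set (N1 X)) ⊆ Mv X ∧
    cone (R : Set (N1 X)) = MO X ∩ S

/-- The action of the pseudo-automorphisms. -/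
structure Psa (Γ : Subgroup (N1 X ≃ₗ[ℝ] N1 X)) : Prop where
  rep : ∀ σ : PsA X, ∃ γ ∈ Γ, ∀ D E, Pl σ D E → γ D.n1 = E.n1
  rep' : ∀ γ ∈ Γ, ∃ σ : PsA X, ∀ D E, Pl σ D E → γ D.n1 = E.n1
  aut : ∀ g : Aut X, ∃ γ ∈ Γ, ∀ x, γ x = g.n1 x

end defs

/-- The invariants of a level. -/
structure Iv {k M Λ κ : Type} {n : ℕ} [Field k] [Field M] [Algebra k M] (L : Lv k M Λ κ n) :
    Prop where
  fd : FiniteDimensional ℝ (N1 L.Y)
  md : MD L
  rc : RC L.Y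

/-- PEL. -/
def PelStmt : Prop := LM → LRow fun Λ => Pe Λ

/-- RCB. -/
def RcbStmt : Prop := PRow fun p => Pe p.ld → ∀ G ψ, Iso (ldN p.ld G) (lv0 p).nd ψ → RC (lv0 p).Y

/-- RCS. -/
def RcsStmt : Prop := IntStmt.{1} → RayStmt.{1} → EfcStmt →
  RowX fun {_ _ _ _ _ _ _ _ _ _ _ _ _ _ _ _ _ _ _ L L' ι ι' v e} h => Function.Injective h.Phi →
    StDiv L.nd L'.nd (nx L L' ι ι' v e).nd h.Phi → StCls L.nd L'.nd (nx L L' ι ι' v e).nd h.Phi →
    XStp h → Ref (XX L L' ι ι' v e) → MD L → MD L' → RC L.Y → RC L'.Y → RC (XX L L' ι ι' v e)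

/-- PSA. -/
def PsaStmt : Prop := ExtStmt.{1} → SolStmt.{1} → PullStmt → KRow fun X => Ref X → ∃ Γ, Psa X Γ

/-- MOR. -/
def MorStmt : Prop := IntStmt.{1} → UnifStmt → KRow fun X => Ref X →
  (∀ S, RP (LL X) S → S ⊆ Glue.Ef X → Sig X S) → Mor X

/-- COR: ample classes are inner points. -/
def CorStmt : Prop := AmpStmt → DegStmt → Opn → ZRow fun X Z _ =>
  (∀ S, RP (LL X) S → S ⊆ Glue.Ef X → Sig X S) → ∀ a, Lc X Z a → ∀ v, ∃ δ : ℝ, 0 < δ ∧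
    a + δ • v ∈ SA X Z

/-- PTD: the effective cone contains no line. -/
def PtdStmt : Prop := SolStmt.{1} → KRow fun X => Ref X → ∀ x ∈ Glue.Ef X, -x ∈ Glue.Ef X → x = 0

/-- CLO: closed cones. -/
def CloStmt : Prop := ∀ (V : Type) [NormedAddCommGroup V] [NormedSpace ℝ V] [FiniteDimensional ℝ V]
  (C : Set V) (a : V), IsCone C → (∀ v, ∃ δ : ℝ, 0 < δ ∧ a + δ • v ∈ C) →
    (∀ x, (∀ ε : ℝ, 0 < ε → x + ε • a ∈ C) → x ∈ C) → IsClosed C

/-- CVD: integral forms on a closed cone without lines. -/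
def CvdStmt : Prop := ∀ (V : Type) [NormedAddCommGroup V] [NormedSpace ℝ V] (L : AddSubgroup V),
  Lt L → ∀ C : Set V, IsCone C → IsClosed C → (∀ x ∈ C, -x ∈ C → x = 0) →
    ∃ Cv : Set (V →ₗ[ℝ] ℝ), (∀ c ∈ Cv, Intg L c) ∧ (∀ c ∈ Cv, ∀ x ∈ C, 0 ≤ c x) ∧
      ∀ x, (∀ c ∈ Cv, c x = 0) → x = 0

/-- The data for the movable cone conjecture. -/
def Aix {k K : Type} [Field k] [Field K] [Algebra k K] (X : Set (Subalgebra k K)) : Prop :=
  ∃ (d : ℕ) (Ψ : (Fin d → ℝ) →ₗ[ℝ] Curve X → ℝ) (C : Set (Fin d → ℝ))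
    (Γ : Subgroup ((Fin d → ℝ) ≃ₗ[ℝ] (Fin d → ℝ))),
    AI Cartier.cls Cartier.Effective (fun D : Cartier X => Mvb X D.f) Pl Ψ C Γ

/-- AIX. -/
def AixStmt : Prop := RayStmt.{1} → PullStmt → PsmStmt → CloStmt → CvdStmt → KRow fun X => Ref X →
  CE X → RC X → Mor X → (∀ x ∈ Glue.Ef X, -x ∈ Glue.Ef X → x = 0) → ∀ Γ, Psa X Γ →
  ∀ a ∈ LL X, (∀ v, ∃ δ : ℝ, 0 < δ ∧ a + δ • v ∈ MO X) → Aix X

/-- The rows on the movable cone. -/
structure VM : Prop where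
  pel : PelStmt
  rcb : RcbStmt
  rcs : RcsStmt
  psa : PsaStmt
  mor : MorStmt
  cor : CorStmt
  ptd : PtdStmt
  clo : CloStmt
  cvd : CvdStmt
  aix : AixStmt

theorem VM.ai (v : VM) (m : MM) (u : UnifStmt) (p : PullStmt) (q : PsmStmt) :
    KRow fun X => Ref X → FS X → CE X → RC X → Sm X X → Aix X := by
  intro k K _ _ _ _ X r fs ce rc s
  have up := m.upd k K X r X s
  obtain ⟨Ψ, ps⟩ := m.psi m.ext m.sol k K X r X s up
  obtain ⟨a, ha⟩ := m.hyp k K X r X s up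
  have sg := fun S a b => m.sig m.int k K X r S a (fs S a b)
  obtain ⟨Γ, g⟩ := v.psa m.ext m.sol p k K X r
  refine v.aix m.ray p q v.clo v.cvd k K X r ce rc (v.mor m.int u k K X r sg)
    (v.ptd m.sol k K X r) Γ g a ha.1 fun w => ?_
  exact (v.cor m.amp m.deg (m.opn m.amp m.deg (m.lzb m.fiba m.alg m.lza m.deg)) k K X r X s Ψ ps sg
    a ha w).imp fun δ h => ⟨h.1, fun O hO => h.2 O hO.1⟩

end Pool.Agent.MP_20d318_ag.AM

end

section

set_option autoImplicit false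
set_option linter.unusedSectionVars false

namespace Pool.Agent.MP_20d318_ag.AM

open Pool.Agent.MP_fd6584_ag.Fn Pool.Agent.CBk
open Pool.Agent.MP_fd6584_ag.AG hiding deg_inv deg_congr deg_of_unit deg_mul deg_prod deg_zpow
  deg_eq_zero deg_nonneg deg_div deg_pow
open Pool.Agent.MP_20d318_ag.CH (Lv Lf sX cl Nd n1_ext IZ)
open Pool.Agent.MP_20d318_ag.KK
open Pool.Agent.MP_20d318_ag.Lat (cone IsCone RP isCone_cone subset_cone)

namespace MdsA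

universe u v

variable {V V' V'' : Type u} {𝒞 𝒞' 𝒞'' : Type v} {κ κ' : Type} [AddCommGroup V] [Module ℝ V]
  [AddCommGroup V'] [Module ℝ V'] [AddCommGroup V''] [Module ℝ V''] [Fintype κ] [Fintype κ']
  {N : Nd V 𝒞 κ} {N' : Nd V' 𝒞' κ'} {N'' : Nd V'' 𝒞'' (κ ⊕ κ')} {Φ : WP V V' κ κ' →ₗ[ℝ] V''}

theorem cW {S : Set V} {S' : Set V'} (h : IsCone S) (h' : IsCone S') :
    IsCone {D : WP V V' κ κ' | D.1 ∈ S ∧ D.2.1 ∈ S'} :=
  ⟨⟨h.zero, h'.zero⟩, fun _ a _ b => ⟨h.add _ a.1 _ b.1, h'.add _ a.2 _ b.2⟩,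
    fun c hc _ a => ⟨h.smul c hc _ a.1, h'.smul c hc _ a.2⟩⟩

theorem pm {S : Set V} (h : IsCone S) {x : V} (a : x ∈ S) (b : -x ∈ S) (c : ℝ) : c • x ∈ S := by
  rcases le_total 0 c with q | q
  · exact h.smul c q _ a
  · simpa using h.smul (-c) (neg_nonneg.2 q) _ b

theorem nz (R : Set V) : -0 ∈ cone R := neg_zero (G := V) |>.symm ▸ (isCone_cone R).zero

theorem fs (i : Function.Injective Φ) (d : StDiv N N' N'' Φ) (c : StCls N N' N'' Φ)
    (e : IsCone N.Ef) (e' : IsCone N'.Ef) {R : Set V''} (f : R.Finite) (l : R ⊆ N''.Λ)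
    (p : R ⊆ N''.Ef) : ∃ (A : Set V) (B : Set V'), (A.Finite ∧ A ⊆ N.Λ ∧ A ⊆ N.Ef) ∧
      (B.Finite ∧ B ⊆ N'.Λ ∧ B ⊆ N'.Ef) ∧
      cone (R ∪ (Set.range N''.c ∪ Set.range fun i => -N''.c i)) ⊆
        Φ '' {D | D.1 ∈ cone (A ∪ (Set.range N.c ∪ Set.range fun i => -N.c i)) ∧
          D.2.1 ∈ cone (B ∪ (Set.range N'.c ∪ Set.range fun i => -N'.c i))} := by
  have key : ∀ r : R, ∃ D ∈ LW N N', D.1 ∈ N.Ef ∧ D.2.1 ∈ N'.Ef ∧
      ∃ n : ℕ, 0 < n ∧ n • r.1 = Φ D := fun r => by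
    obtain ⟨n, n0, D, hD, q⟩ := c.cls r (l r.2)
    obtain ⟨E, q', a, b⟩ := c.dn r (p r.2)
    obtain rfl : (n : ℝ) • E = D := i (by rw [map_smul, q', q])
    exact ⟨_, hD, e.smul _ n.cast_nonneg _ a, e'.smul _ n.cast_nonneg _ b, n, n0,
      (Nat.cast_smul_eq_nsmul ℝ n r.1).symm.trans q⟩
  choose D h1 h2 h3 n h4 h5 using key
  have := f.to_subtype
  refine ⟨Set.range fun r => (D r).1, Set.range fun r => (D r).2.1, ⟨Set.finite_range _,
    Set.range_subset_iff.2 fun r => (h1 r).1, Set.range_subset_iff.2 h2⟩, ⟨Set.finite_range _,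
    Set.range_subset_iff.2 fun r => (h1 r).2.1, Set.range_subset_iff.2 h3⟩, ?_⟩
  have w := (cW (κ := κ) (κ' := κ') (isCone_cone
    ((Set.range fun r => (D r).1) ∪ (Set.range N.c ∪ Set.range fun i => -N.c i))) (isCone_cone
    ((Set.range fun r => (D r).2.1) ∪ (Set.range N'.c ∪ Set.range fun i => -N'.c i)))).image Φ
  refine w.cone_subset ?_
  rintro x (q | ⟨j, rfl⟩ | ⟨j, rfl⟩)
  · exact IsCone.of_nsmul w (h4 ⟨x, q⟩) ⟨_, ⟨subset_cone _ (Or.inl ⟨⟨x, q⟩, rfl⟩),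
      subset_cone _ (Or.inl ⟨⟨x, q⟩, rfl⟩)⟩, (h5 ⟨x, q⟩).symm⟩
  · refine ⟨_, ?_, (d.cc j).symm⟩
    rcases j with j | j
    · exact ⟨subset_cone _ (Or.inr (Or.inl ⟨j, rfl⟩)), (isCone_cone _).zero⟩
    · exact ⟨(isCone_cone _).zero, subset_cone _ (Or.inr (Or.inl ⟨j, rfl⟩))⟩
  · refine ⟨-stW N N' j, ?_, by rw [map_neg, ← d.cc]⟩
    rcases j with j | j
    · exact ⟨subset_cone _ (Or.inr (Or.inr ⟨j, rfl⟩)), nz _⟩
    · exact ⟨nz _, subset_cone _ (Or.inr (Or.inr ⟨j, rfl⟩))⟩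

theorem rp (d : StDiv N N' N'' Φ) {R : Set V} {R' : Set V'} (f : R.Finite) (f' : R'.Finite)
    (l : R ⊆ N.Λ) (l' : R' ⊆ N'.Λ) :
    RP N''.Λ (Φ '' {D | D.1 ∈ cone R ∧ D.2.1 ∈ cone R'}) := by
  classical
  let a : V →ₗ[ℝ] WP V V' κ κ' := LinearMap.inl ℝ _ _
  let b : V' →ₗ[ℝ] WP V V' κ κ' := (LinearMap.inr ℝ _ _).comp (LinearMap.inl ℝ _ _)
  let x : κ × κ' → WP V V' κ κ' := fun p => exW p.1 p.2
  have hx : ∀ p, x p ∈ LW N N' := fun p =>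
    ⟨zero_mem _, zero_mem _, fun _ _ => IZ.ite IZ.one.neg IZ.zero⟩
  have e : cone ((a '' R ∪ b '' R') ∪ (Set.range x ∪ Set.range fun p => -x p)) =
      {D | D.1 ∈ cone R ∧ D.2.1 ∈ cone R'} := by
    refine ((cW (isCone_cone R) (isCone_cone R')).cone_subset ?_).antisymm fun D h => ?_
    · rintro _ ((⟨y, q, rfl⟩ | ⟨y, q, rfl⟩) | ⟨p, rfl⟩ | ⟨p, rfl⟩)
      · exact ⟨subset_cone _ q, (isCone_cone _).zero⟩
      · exact ⟨(isCone_cone _).zero, subset_cone _ q⟩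
      · exact ⟨(isCone_cone _).zero, (isCone_cone _).zero⟩
      · exact ⟨nz _, nz _⟩
    · have : D = a D.1 + b D.2.1 + ∑ p, (-D.2.2 p.1 p.2) • x p := by
        refine Prod.ext ?_ (Prod.ext ?_ (funext₂ fun i j => ?_))
        · simp [a, b, x, exW, Prod.fst_sum]
        · simp [a, b, x, exW, Prod.fst_sum, Prod.snd_sum]
        · simp [a, b, x, exW, Prod.snd_sum, Finset.sum_apply, Fintype.sum_prod_type, ite_and]
      rw [this]
      refine (isCone_cone _).add _ ((isCone_cone _).add _ ?_ _ ?_) _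
        ((isCone_cone _).sum_mem _ _ fun p _ => pm (isCone_cone _) ?_ ?_ _)
      · exact ((isCone_cone _).preimage a).cone_subset
          (fun y q => subset_cone _ (Or.inl (Or.inl ⟨y, q, rfl⟩))) h.1
      · exact ((isCone_cone _).preimage b).cone_subset
          (fun y q => subset_cone _ (Or.inl (Or.inr ⟨y, q, rfl⟩))) h.2
      · exact subset_cone _ (Or.inr (Or.inl ⟨p, rfl⟩))
      · exact subset_cone _ (Or.inr (Or.inr ⟨p, rfl⟩))
  rw [← e, ← cone_image]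
  refine rp_fin ((((f.image _).union (f'.image _)).union
    ((Set.finite_range _).union (Set.finite_range _))).image _) ?_
  rintro _ ⟨_, (⟨y, q, rfl⟩ | ⟨y, q, rfl⟩) | ⟨p, rfl⟩ | ⟨p, rfl⟩, rfl⟩
  · exact d.lat _ ⟨l q, zero_mem _, fun _ _ => IZ.zero⟩
  · exact d.lat _ ⟨zero_mem _, l' q, fun _ _ => IZ.zero⟩
  · exact d.lat _ (hx p)
  · exact d.lat _ (neg_mem (hx p))

end MdsA

theorem mds_stmt : MdsStmt := by
  intro hI hE k M M' K Λ Λ' κ κ' n n' _ _ _ _ _ _ _ _ _ _ _ L L' ι ι' v e h i d c l s r m m'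
  refine ⟨r.nl, fun R f a b => ?_, ?_⟩
  · obtain ⟨A, B, ⟨a1, a2, a3⟩, ⟨b1, b2, b3⟩, q⟩ :=
      MdsA.fs i d c (isCone_cone _) (isCone_cone _) f a b
    exact (s A B (m.fs A a1 a2 a3) (m'.fs B b1 b2 b3)).mono q
  obtain ⟨A, a1, a2, a3, a4⟩ := m.ce
  obtain ⟨B, b1, b2, b3, b4⟩ := m'.ce
  obtain ⟨_, ⟨T, t1, rfl⟩, t2, t3⟩ := hE hI k K _ r _ (MdsA.rp d a1 b1 a2 b2)
    ((s A B (m.fs A a1 a2 a3) (m'.fs B b1 b2 b3)).mono (Set.image_mono fun D q =>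
      ⟨Lat.cone_mono Set.subset_union_left q.1, Lat.cone_mono Set.subset_union_left q.2⟩))
  refine ⟨_, T.finite_toSet, t1, (subset_cone _).trans t2, fun x hx => ?_⟩
  obtain ⟨D, rfl, p, p'⟩ := c.dn x hx
  obtain ⟨g, g1, g2⟩ := a4 _ p
  obtain ⟨g', g3, g4⟩ := b4 _ p'
  obtain ⟨γ, q1, q2⟩ := l g g1 g' g3
  refine ⟨γ, q1, t3 ⟨?_, _, ?_, (q2 D).symm⟩⟩
  · obtain ⟨u, -, -, rfl⟩ := q1
    exact Glue.gEf u hx
  · exact ⟨g2, g4⟩

end Pool.Agent.MP_20d318_ag.AM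

end

section

set_option autoImplicit false
set_option linter.unusedSectionVars false

namespace Pool.Agent.MP_20d318_ag.AM

open Pool.Agent.MP_fd6584_ag.Fn Pool.Agent.CBk
open Pool.Agent.MP_fd6584_ag.AG hiding deg_inv deg_congr deg_of_unit deg_mul deg_prod deg_zpow
  deg_eq_zero deg_nonneg deg_div deg_pow
open Pool.Agent.MP_20d318_ag.CH (Lv cl)
open Pool.Agent.MP_20d318_ag.KK

theorem nls_stmt : NlsStmt := by
  intro k M M' K Λ Λ' κ κ' n n' _ _ _ _ _ _ _ _ _ _ _ L L' ι ι' v e Z h inj cls nl nl' f hf f0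
  obtain ⟨N, g, g', a, μ, N0, hg, hg', μ0, u⟩ := cls f hf
  have c : cl Z (lb L L' ι ι' g g' a) = 0 := by
    rw [cl_lin h.gX (h.cartW hg hg' a) (hf.pow N) (μ := μ) fun O hO => by
      have := (u O hO).inv
      rwa [inv_div] at this, cl_pow h.gX hf, f0, smul_zero]
  have q := inj ((h.phi_lb hg hg' a).trans (c.trans (map_zero _).symm))
  obtain ⟨m, l, m0, w⟩ := nl g hg (congrArg Prod.fst q)
  obtain ⟨m', l', m0', w'⟩ := nl' g' hg' (congrArg (fun D => D.2.1) q)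
  have a0 : ∀ i j, a i j = 0 := fun i j =>
    Int.cast_eq_zero.1 (congrArg (fun D : WP _ _ κ κ' => D.2.2 i j) q)
  refine ⟨N * (m * m'), ι l ^ m' * ι' l' ^ m / μ ^ (m * m'), by positivity, fun O hO => ?_⟩
  have g0 : ι (g (pr ι L.Y O)) ≠ 0 := (map_ne_zero ι).2 (hg.ne (h.maps.mem hO))
  have g1 : ι' (g' (pr ι' L'.Y O)) ≠ 0 := (map_ne_zero ι').2 (hg'.ne (h.maps'.mem hO))
  refine Eq.subst (motive := IsU O) ?_ ((((u O hO).pow (m * m')).mul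
    ((h.maps.isU_up hO (w _ (h.maps.mem hO))).pow m')).mul
    ((h.maps'.isU_up hO (w' _ (h.maps'.mem hO))).pow m))
  simp only [lb, up, a0, neg_zero, zpow_zero, Finset.prod_const_one, mul_one, map_mul, map_pow,
    mul_pow, div_pow, ← pow_mul, mul_comm m' m]
  field_simp

end Pool.Agent.MP_20d318_ag.AM

end

section

set_option autoImplicit false
set_option linter.unusedSectionVars false

namespace Pool.Agent.MP_20d318_ag.AM

open Pool.Agent.MP_fd6584_ag.Fn Pool.Agent.CBk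
open Pool.Agent.MP_fd6584_ag.AG hiding deg_inv deg_congr deg_of_unit deg_mul deg_prod deg_zpow
  deg_eq_zero deg_nonneg deg_div deg_pow
open Pool.Agent.MVg (Sc Fac Two BasStmt)
open Pool.Agent.MP_20d318_ag.CH (Lv Lf sX cl Nd n1_ext)
open Pool.Agent.MP_20d318_ag.KK
open Pool.Agent.MP_20d318_ag.Lat (cone IsCone RP isCone_cone subset_cone)

namespace OneA

theorem alg {K κ κ' : Type} [Field K] [Fintype κ] [Fintype κ'] (s : κ → K) (t : κ' → K)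
    (E : κ → κ' → K) (hE : ∀ i j, E i j ≠ 0) (x : κ → ℕ) (y : κ' → ℕ) (a : κ → κ' → ℤ)
    (ha : ∀ i j, a i j ≤ x i + y j) :
    (∏ i, (s i / ∏ j, E i j) ^ x i) * (∏ j, (t j / ∏ i, E i j) ^ y j) *
        ∏ i, ∏ j, E i j ^ (x i + y j - a i j).toNat =
      (∏ i, s i ^ x i) * (∏ j, t j ^ y j) * ∏ i, ∏ j, E i j ^ (-a i j) := by
  have e : ∀ i j, E i j ^ (x i + y j - a i j).toNat =
      E i j ^ x i * E i j ^ y j * E i j ^ (-a i j) := fun i j => by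
    rw [← zpow_natCast, Int.toNat_of_nonneg (sub_nonneg.2 (ha i j)), sub_eq_add_neg,
      zpow_add₀ (hE i j), zpow_add₀ (hE i j), zpow_natCast, zpow_natCast]
  have n1 : ∏ i, ∏ j, E i j ^ x i ≠ 0 :=
    Finset.prod_ne_zero_iff.2 fun i _ => Finset.prod_ne_zero_iff.2 fun j _ => pow_ne_zero _ (hE i j)
  have n2 : ∏ i, ∏ j, E i j ^ y j ≠ 0 :=
    Finset.prod_ne_zero_iff.2 fun i _ => Finset.prod_ne_zero_iff.2 fun j _ => pow_ne_zero _ (hE i j)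
  have e1 : ∏ i, (s i / ∏ j, E i j) ^ x i = (∏ i, s i ^ x i) / ∏ i, ∏ j, E i j ^ x i := by
    simp only [div_pow, Finset.prod_div_distrib, Finset.prod_pow]
  have e2 : ∏ j, (t j / ∏ i, E i j) ^ y j = (∏ j, t j ^ y j) / ∏ i, ∏ j, E i j ^ y j := by
    rw [Finset.prod_comm]
    simp only [div_pow, Finset.prod_div_distrib, Finset.prod_pow]
  rw [e1, e2]
  simp only [e, Finset.prod_mul_distrib]
  field_simp

variable {k M M' K Λ Λ' κ κ' : Type} {n n' : ℕ} [Field k] [IsAlgClosed k] [Field M] [Field M']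
  [Field K] [Algebra k M] [Algebra k M'] [Algebra k K] [Fintype κ] [Fintype κ']
  {L : Lv k M Λ κ n} {L' : Lv k M' Λ' κ' n'} {ι : M →ₐ[k] K} {ι' : M' →ₐ[k] K} {v : K} {e : ℕ}
  {Z : Set (Subalgebra k K)}

/-- One factor. -/
theorem half (h : Geo L L' ι ι' v e Z) {J : Type} [Fintype J] {d : J → Subalgebra k M → M}
    {R : Set (N1 L.Y)} (hd : Fg L.Y d (Sp L R)) {g : Subalgebra k M → M} (hg : IsCart L.Y g)
    (hc : cl L.Y g ∈ Sp L R) {m : M} (hm : m ≠ 0) {x : κ → ℕ}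
    (hs : Sc L.Y (g / ∏ i, L.s i ^ x i) m) {V : Subalgebra k K} (hV : IsVal V) :
    ∃ (N : ℕ) (α : J → ℕ) (μ : K), 0 < N ∧ μ ∈ V ∧ ∀ O ∈ Z,
      IsU O ((μ * ∏ j, up ι L.Y (d j) O ^ α j) /
        (ι m * (up ι L.Y g O / ∏ i, sX L ι i O ^ x i)) ^ N) := by
  have c1 : ∀ i, IsCart L.Y (L.s i ^ x i) := fun i => (h.ok.cs i).pow _
  have c2 : IsCart L.Y (∏ i, L.s i ^ x i) := isCart_prod fun i _ => c1 i
  obtain ⟨N, α, μ, h1, h2, h3⟩ := hd.2 (fun O => m * (g / ∏ i, L.s i ^ x i) O)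
    ⟨(isCart_const hm).mul (hg.div c2), hs⟩ (by
      rw [cl_cmul h.gY (hg.div c2) hm, cl_div h.gY hg c2, cl_prod h.gY fun i _ => c1 i]
      simp only [cl_pow h.gY (h.ok.cs _), ← Nat.cast_smul_eq_nsmul ℝ]
      exact sp_sub hc fun i => (x i : ℝ)) (V.comap ι) fun f => by
      simpa only [Subalgebra.mem_comap, map_inv₀] using hV (ι f)
  refine ⟨N, α, ι μ, h1, h2, fun O hO => ?_⟩
  have := h.maps.isU_up hO (h3 _ (h.maps.mem hO))
  simpa only [map_div₀, map_mul, map_pow, map_prod, Pi.div_apply, Finset.prod_apply, Pi.pow_apply,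
    sX, up] using this

theorem edU (h : Geo L L' ι ι' v e Z) {f : Subalgebra k M → M} (hf : Ed L.Y f) :
    Ed Z (up ι L.Y f) :=
  ⟨h.cartU hf.1, fun _ hO => h.maps.mem_up hO (hf.2 _ (h.maps.mem hO))⟩

end OneA

open OneA in
theorem one_stmt : OneStmt := by
  intro k M M' K Λ Λ' κ κ' n n' _ _ _ _ _ _ _ _ _ _ _ L L' ι ι' v e Z h J J' _ _ d d' R R' hd hd'
  refine ⟨?_, fun g g' a hg hg' hc hc' m m' hm hm' ⟨x, y, t1, t2, t3⟩ V hV => ?_⟩
  · rintro ((j | j) | (i | j) | p)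
    · exact edU h (hd.1 j)
    · exact edU h.symm (hd'.1 j)
    · exact ⟨h.cartC i, fun _ hO => (h.rC hO i).1⟩
    · exact ⟨h.symm.cartC j, fun _ hO => (h.symm.rC hO j).1⟩
    · exact ⟨h.cartE p.1 p.2, fun _ hO => h.em hO p.1 p.2⟩
  obtain ⟨N, α, μ, a1, a2, a3⟩ := half h hd hg hc hm t1 hV
  obtain ⟨N', α', μ', b1, b2, b3⟩ := half h.symm hd' hg' hc' hm' t2 hV
  refine ⟨N * N', Sum.elim (Sum.elim (fun j => α j * N') fun j => α' j * N)
    (Sum.elim (Sum.elim (fun i => x i * (N * N')) fun j => y j * (N * N'))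
      fun p => (x p.1 + y p.2 - a p.1 p.2).toNat * (N * N')), μ ^ N' * μ' ^ N, mul_pos a1 b1,
    V.mul_mem (V.pow_mem a2 _) (V.pow_mem b2 _), fun O hO => ?_⟩
  refine Eq.subst (motive := IsU O) ?_ (((a3 O hO).pow N').mul ((b3 O hO).pow N))
  have hE : ∀ i j, EE L L' ι ι' i j O ≠ 0 := fun i j => (h.cartE i j).ne hO
  have q := alg (fun i => sX L ι i O) (fun j => sX L' ι' j O) (fun i j => EE L L' ι ι' i j O) hE
    x y a t3
  have n1 : ∏ i, sX L ι i O ^ x i ≠ 0 :=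
    Finset.prod_ne_zero_iff.2 fun i _ => pow_ne_zero _ (h.sne hO i)
  have n2 : ∏ j, sX L' ι' j O ^ y j ≠ 0 :=
    Finset.prod_ne_zero_iff.2 fun j _ => pow_ne_zero _ (h.symm.sne hO j)
  have n3 : ∏ i, ∏ j, EE L L' ι ι' i j O ^ (-a i j) ≠ 0 :=
    Finset.prod_ne_zero_iff.2 fun i _ => Finset.prod_ne_zero_iff.2 fun j _ =>
      zpow_ne_zero _ (hE i j)
  have n4 := (h.cartU hg).ne hO
  have n5 := (h.symm.cartU hg').ne hO
  have n6 : ι m ≠ 0 := (map_ne_zero ι).2 hm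
  have n7 : ι' m' ≠ 0 := (map_ne_zero ι').2 hm'
  simp only [Fintype.prod_sum_type, Fintype.prod_prod_type, dd, sN, Sum.elim_inl, Sum.elim_inr, sC,
    lb, EE_symm L L' ι ι', pow_mul _ _ (N * N'), pow_mul _ (α _), pow_mul _ (α' _),
    Finset.prod_pow]
  rw [← mul_pow, ← mul_pow, q]
  generalize ∏ i, sX L ι i O ^ x i = A at n1
  generalize ∏ j, sX L' ι' j O ^ y j = B at n2
  generalize ∏ i, ∏ j, EE L L' ι ι' i j O ^ (-a i j) = C at n3
  simp only [div_pow, mul_pow, ← pow_mul, mul_comm N' N]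
  field_simp

end Pool.Agent.MP_20d318_ag.AM

end

section

set_option autoImplicit false
set_option linter.unusedSectionVars false

namespace Pool.Agent.MP_20d318_ag.AM

open Pool.Agent.MP_fd6584_ag.Fn Pool.Agent.CBk
open Pool.Agent.MP_fd6584_ag.AG hiding deg_inv deg_congr deg_of_unit deg_mul deg_prod deg_zpow
  deg_eq_zero deg_nonneg deg_div deg_pow
open Pool.Agent.MVg (Sc Fac Two BasStmt)
open Pool.Agent.MP_20d318_ag.CH (Lv Lf sX cl Nd n1_ext Ok)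
open Pool.Agent.MP_20d318_ag.KK

namespace OrdA

section one

variable {k M Λ κ : Type} {n : ℕ} [Field k] [Field M] [Algebra k M] [Fintype κ] {L : Lv k M Λ κ n}

/-- The place of a component. -/
structure Pc (L : Lv k M Λ κ n) (i : κ) (P : Place k M) : Prop where
  mem : plO P ∈ L.Y
  mxs : L.s i (plO P) ∈ mx (plO P)
  oS : P.ord (∏ j, L.s j (plO P)) = 1
  os : P.ord (L.s i (plO P)) = 1

theorem others (h : Ok L) {R : Subalgebra k M} (hR : R ∈ L.Y) {i j : κ} (a : L.s i R ∈ mx R)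
    (q : j ≠ i) : IsU R (L.s j R) :=
  isU_of_not_mx (h.sm _ hR j) fun b => q (h.one _ hR j i b a)

theorem plc (h : Ok L) (i : κ) : ∃ P, Pc L i P := by
  classical
  obtain ⟨R, hR, -, hs⟩ := h.rat i
  obtain ⟨P, hP, h0⟩ : ∃ P : Place k M, plO P ∈ L.Y ∧ P.ord (L.s i (plO P)) ≠ 0 := by
    by_contra q
    exact hs.2 (h.nice.unit (h.cs i) hR fun P hP _ => by_contra fun r => q ⟨P, hP, r⟩)
  have a : L.s i (plO P) ∈ mx (plO P) := ⟨h.sm _ hP i, fun u => h0 ((isU_plO' _).1 u).2⟩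
  have e : P.ord (∏ j, L.s j (plO P)) = P.ord (L.s i (plO P)) := by
    rw [P.ord_prod _ _ fun j _ => (h.cs j).ne hP]
    exact Finset.sum_eq_single i (fun j _ q => ((isU_plO' _).1 (others h hP a q)).2) (by simp)
  have s0 : ∏ j, L.s j (plO P) ≠ 0 := Finset.prod_ne_zero_iff.2 fun j _ => (h.cs j).ne hP
  have p0 : 0 < P.ord (∏ j, L.s j (plO P)) := e ▸ (mx_plO ((h.cs i).ne hP)).1 a
  have p1 : P.ord (∏ j, L.s j (plO P)) = 1 := by
    by_contra q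
    obtain ⟨D, d1, d2⟩ := h.crd _ hP ((mx_plO s0).2 p0)
    have u1 : P.unif ∈ mx (plO P) := (mx_plO P.unif_ne).2 (by simp)
    have u2 : (∏ j, L.s j (plO P)) / P.unif ∈ mx (plO P) :=
      (mx_plO (div_ne_zero s0 P.unif_ne)).2 (by rw [P.ord_div s0 P.unif_ne, P.ord_unif]; omega)
    rw [← mul_div_cancel₀ (∏ j, L.s j (plO P)) P.unif_ne, D.leibniz, smul_eq_mul, smul_eq_mul] at d2
    exact d2.not_mx (mx_add (plO_isVal P).isLocalRing (mx_mul_right u1 (d1 _ u2.1))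
      (mx_mul_right u2 (d1 _ u1.1)))
  exact ⟨P, hP, a, p1, e ▸ p1⟩

/-- The order of a section along a place. -/
noncomputable def od (P : Place k M) (g : Subalgebra k M → M) (m : M) : ℕ :=
  (P.ord (m * g (plO P))).toNat

theorem od_eq {P : Place k M} {g : Subalgebra k M → M} {m : M} (hP : plO P ∈ L.Y)
    (s : Sc L.Y g m) : (od P g m : ℤ) = P.ord (m * g (plO P)) :=
  Int.toNat_of_nonneg (mem_plO_ord.1 (s _ hP))

theorem tm (h : Ok L) {P : κ → Place k M} (hP : ∀ i, Pc L i (P i)) {g : Subalgebra k M → M}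
    (hg : IsCart L.Y g) {m : M} (m0 : m ≠ 0) (s : Sc L.Y g m) :
    Sc L.Y (g / ∏ i, L.s i ^ od (P i) g m) m := by
  refine MVg.sc_of_places h.nice (hg.div (isCart_prod fun i _ => (h.cs i).pow _)) fun Q hQ => ?_
  simp only [Pi.div_apply, Finset.prod_apply, Pi.pow_apply]
  rw [← mul_div_assoc]
  by_cases q : ∃ i, L.s i (plO Q) ∈ mx (plO Q)
  · obtain ⟨i, a⟩ := q
    obtain rfl : Q = P i := h.uniq i _ _ hQ (hP i).mem a (hP i).mxs
    have n0 := fun j => pow_ne_zero (od (P j) g m) ((h.cs j).ne hQ)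
    rw [mem_plO_ord, Place.ord_div _ (mul_ne_zero m0 (hg.ne hQ))
      (Finset.prod_ne_zero_iff.2 fun j _ => n0 j), Place.ord_prod _ _ _ fun j _ => n0 j,
      Finset.sum_eq_single i (fun j _ q => ((isU_plO' _).1 ((others h hQ a q).pow _)).2) (by simp),
      Place.ord_pow, (hP i).os, od_eq hQ s]
    omega
  · exact (isU_prod fun i _ => (isU_of_not_mx (h.sm _ hQ i) fun a => q ⟨i, a⟩).pow _).div_mem
      (s _ hQ)

theorem unit_od {i : κ} {P : Place k M} (h : Ok L) (hP : Pc L i P) {g : Subalgebra k M → M}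
    (hg : IsCart L.Y g) {m : M} (m0 : m ≠ 0) (s : Sc L.Y g m) :
    IsU (plO P) (m * g (plO P) / (∏ j, L.s j (plO P)) ^ od P g m) := by
  have s0 : (∏ j, L.s j (plO P)) ^ od P g m ≠ 0 :=
    pow_ne_zero _ (Finset.prod_ne_zero_iff.2 fun j _ => (h.cs j).ne hP.mem)
  have g0 := mul_ne_zero m0 (hg.ne hP.mem)
  refine (isU_plO' _).2 ⟨div_ne_zero g0 s0, ?_⟩
  rw [P.ord_div g0 s0, P.ord_pow, hP.oS, od_eq hP.mem s]
  omega

/-- The filtration by the order of vanishing. -/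
def Fl (P : Place k M) (γ : M) (N : ℤ) : Submodule k M where
  carrier := {m | P.Ge N (m * γ)}
  add_mem' a b := by rw [Set.mem_ofPred_eq, add_mul]; exact a.add b
  zero_mem' := by rw [Set.mem_ofPred_eq, zero_mul]; exact P.ge_zero N
  smul_mem' c _ a := by rw [Set.mem_ofPred_eq, smul_mul_assoc]; exact a.smul c

theorem chain (P : Place k M) (γ : M) : IsChain (· ≤ ·) (Set.range (Fl P γ)) := by
  rintro _ ⟨a, rfl⟩ _ ⟨b, rfl⟩ -
  exact (le_total b a).imp (fun q _ r => Place.Ge.mono r q) fun q _ r => Place.Ge.mono r q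

/-- The space of sections. -/
def Ss (X : Set (Subalgebra k M)) (g : Subalgebra k M → M) : Submodule k M where
  carrier := {m | Sc X g m}
  add_mem' a b O hO := by rw [add_mul]; exact O.add_mem (a O hO) (b O hO)
  zero_mem' O _ := by rw [zero_mul]; exact O.zero_mem
  smul_mem' c _ a O hO := by rw [smul_mul_assoc]; exact O.smul_mem (a O hO) c

theorem indep {i : κ} {P : Place k M} (h : Ok L) (hP : Pc L i P) {g : Subalgebra k M → M}
    (hg : IsCart L.Y g) {B s : Finset M} (sB : s ⊆ B) (hs : ∀ b ∈ s, b ≠ 0 ∧ Sc L.Y g b)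
    (ad : ∀ (N : ℤ) (c : M → k), ∑ x ∈ B, c x • x ∈ Fl P (g (plO P)) N → ∀ x ∈ B, c x ≠ 0 →
      x ∈ Fl P (g (plO P)) N) {e : ℕ} (e0 : e ≠ 0) (c : M → k) (N : ℕ)
    (q : ∑ b ∈ s with e * od P g b = N,
      c b • (b * g (plO P) / (∏ j, L.s j (plO P)) ^ od P g b) ∈ mx (plO P)) :
    ∀ b ∈ s, e * od P g b = N → c b = 0 := by
  classical
  intro b hb hN
  by_contra c0
  have s0 : (∏ j, L.s j (plO P)) ^ od P g b ≠ 0 :=
    pow_ne_zero _ (Finset.prod_ne_zero_iff.2 fun j _ => (h.cs j).ne hP.mem)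
  have e1 : ∑ x ∈ s with e * od P g x = N,
      c x • (x * g (plO P) / (∏ j, L.s j (plO P)) ^ od P g x) =
      (∑ x ∈ B, (if x ∈ s ∧ e * od P g x = N then c x else 0) • x) * g (plO P) /
        (∏ j, L.s j (plO P)) ^ od P g b := by
    rw [Finset.sum_mul, Finset.sum_div, Finset.sum_filter]
    refine (Finset.sum_congr rfl fun x hx => ?_).trans
      (Finset.sum_subset sB fun x _ hx => by simp [hx])
    by_cases r : e * od P g x = N
    · rw [if_pos r, if_pos ⟨hx, r⟩, Nat.eq_of_mul_eq_mul_left (Nat.pos_of_ne_zero e0)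
        (r.trans hN.symm), smul_mul_assoc, smul_div_assoc]
    · simp [r]
  rw [e1, mem_mx_plO, ← P.ge1_iff] at q
  have q2 := q.mul (P.ge_ord ((∏ j, L.s j (plO P)) ^ od P g b))
  rw [div_mul_cancel₀ _ s0, P.ord_pow, hP.oS] at q2
  have q3 : P.Ge _ (b * g (plO P)) := ad _ _ q2 b (sB hb) (by rwa [if_pos ⟨hb, hN⟩])
  have q4 := q3.le (mul_ne_zero (hs b hb).1 (hg.ne hP.mem))
  rw [← od_eq hP.mem (hs b hb).2] at q4
  omega

end one

section two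

variable {k M M' K : Type} [Field k] [Field M] [Field M'] [Field K] [Algebra k M] [Algebra k M']
  [Algebra k K] {ι : M →ₐ[k] K} {ι' : M' →ₐ[k] K} {R : Subalgebra k M} {R' : Subalgebra k M'}
  {V : Subalgebra k K}

theorem core {e : ℕ} {A : K} {S : M} {S' : M'} (l : Lq e ι ι' R R' A S S') (hS : S ∈ mx R)
    (ov : Ov ι ι' R R' V) (hA : IsU V A) {I : Type} {s : Finset I} {p : I → M} {q : I → M'}
    {x y : I → ℕ} (hp : ∀ b ∈ s, IsU R (p b / S ^ x b)) (hq : ∀ b ∈ s, IsU R' (q b / S' ^ y b))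
    (G : ∀ t ⊆ s, ∑ b ∈ t, ι (p b / S ^ x b) * ι' (q b / S' ^ y b) * A ^ (e * y b) ∈ mx V →
      ∀ b ∈ t, p b / S ^ x b ∈ mx R) {b₀ : I} (h0 : b₀ ∈ s)
    (mn : ∀ b ∈ s, x b₀ + y b₀ ≤ x b + y b) :
    IsU V ((∑ b ∈ s, ι (p b) * ι' (q b)) / ι S ^ (x b₀ + y b₀)) := by
  have S0 : ι S ≠ 0 := (map_ne_zero ι).2 l.nS
  have A0 := l.ne
  have mS : ι S ∈ mx V := (mem_mx_comap ι).1 (ov.dom.mx hS)
  have mem : ∀ b ∈ s, ι (p b / S ^ x b) * ι' (q b / S' ^ y b) * A ^ (e * y b) ∈ V := fun b hb =>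
    V.mul_mem (V.mul_mem (ov.dom.1 (hp b hb).mem) (ov.dom'.1 (hq b hb).mem)) (V.pow_mem hA.mem _)
  have e1 : ∀ b ∈ s, ι (p b) * ι' (q b) / ι S ^ (x b₀ + y b₀) =
      ι (p b / S ^ x b) * ι' (q b / S' ^ y b) * A ^ (e * y b) *
        ι S ^ (x b + y b - (x b₀ + y b₀)) := fun b hb => by
    rw [pow_sub₀ _ S0 (mn b hb), map_div₀, map_div₀, map_pow, map_pow, ← l.eq, mul_pow, pow_mul,
      pow_add (ι S) (x b)]
    field_simp
  rw [Finset.sum_div, Finset.sum_congr rfl e1,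
    ← Finset.sum_filter_add_sum_filter_not s fun b => x b + y b = x b₀ + y b₀]
  refine IsU.add_mx ov.loc ?_ (mx_sum ov.loc fun b hb => ?_)
  · rw [Finset.sum_congr rfl fun b hb => by
      rw [(Finset.mem_filter.1 hb).2, Nat.sub_self, pow_zero, mul_one]]
    exact isU_of_not_mx (sum_mem fun b hb => mem b (Finset.mem_filter.1 hb).1) fun r =>
      (hp b₀ h0).not_mx (G _ (Finset.filter_subset _ _) r b₀ (Finset.mem_filter.2 ⟨h0, rfl⟩))
  · obtain ⟨h1, h2⟩ := Finset.mem_filter.1 hb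
    exact mx_mul_left (mem b h1) (mx_pow mS (by have := mn b h1; omega))

end two

section geo

variable {k M M' K Λ Λ' κ κ' : Type} {n n' : ℕ} [Field k] [Field M] [Field M'] [Field K]
  [Algebra k M] [Algebra k M'] [Algebra k K] [Fintype κ] [Fintype κ'] {L : Lv k M Λ κ n}
  {L' : Lv k M' Λ' κ' n'} {ι : M →ₐ[k] K} {ι' : M' →ₐ[k] K} {v : K} {e : ℕ}
  {Z : Set (Subalgebra k K)}

theorem fin (h : Geo L L' ι ι' v e Z) {i : κ} {j : κ'} {P : Place k M} {P' : Place k M'}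
    (hP : Pc L i P) (hP' : Pc L' j P') {V : Subalgebra k K} (hV : IsVal V)
    (ov : Ov ι ι' (plO P) (plO P') V) (hA : IsU V (A0 L L' ι ι' v e (plO P) (plO P')))
    {g : Subalgebra k M → M} {g' : Subalgebra k M' → M'} {a : κ → κ' → ℤ} {t : K}
    (s : Sc Z (lb L L' ι ι' g g' a) t) {N : ℕ}
    (u : IsU V (t * ι (g (plO P)) * ι' (g' (plO P')) / ι (∏ i, L.s i (plO P)) ^ N)) :
    a i j ≤ N := by
  classical
  obtain ⟨O, hO, d, r, r'⟩ := h.below hP.mem hP'.mem hV ov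
  have eA : AA L L' ι ι' v e O = A0 L L' ι ι' v e (plO P) (plO P') := by rw [AA, r, r']
  have mA : AA L L' ι ι' v e O ∈ O := (h.aa O hO).elim id fun q => by
    simpa using (d.2 _ q (eA ▸ hA.inv)).inv_mem
  have m1 : sX L ι i O ∈ mx O := (h.s_mx hO i).2 (r ▸ hP.mxs)
  have m2 : sX L' ι' j O ∈ mx O := (h.symm.s_mx hO j).2 (r' ▸ hP'.mxs)
  have u1 : IsU V (∏ j' ∈ Finset.univ.erase j, EE L L' ι ι' i j' O ^ (-a i j')) :=
    (isU_prod fun j' q => (h.eu hO i j' (Or.inr (isU_of_not_mx (h.symm.sm hO j') fun b =>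
      Finset.ne_of_mem_erase q (h.symm.s1 hO _ _ b m2)))).zpow _).mono d.1
  have u2 : IsU V (∏ i' ∈ Finset.univ.erase i, ∏ j', EE L L' ι ι' i' j' O ^ (-a i' j')) :=
    (isU_prod fun i' q => isU_prod fun j' _ => (h.eu hO i' j' (Or.inl (isU_of_not_mx (h.sm hO i')
      fun b => Finset.ne_of_mem_erase q (h.s1 hO _ _ b m1)))).zpow _).mono d.1
  have s0 : ∏ i, L.s i (plO P) ≠ 0 := Finset.prod_ne_zero_iff.2 fun j _ => (h.ok.cs j).ne hP.mem
  have S0 : ι (∏ i, L.s i (plO P)) ≠ 0 := (map_ne_zero ι).2 s0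
  have n0 := (h.ok.cs i).ne hP.mem
  have u3 : IsU V (ι (L.s i (plO P) / ∏ i, L.s i (plO P))) := (isU_comap ι).1
    (((isU_plO' P).2 ⟨div_ne_zero n0 s0, by rw [P.ord_div n0 s0, hP.os, hP.oS, sub_self]⟩).mono
      ov.dom.1)
  have u4 : IsU V (EE L L' ι ι' i j O / ι (∏ i, L.s i (plO P))) := by
    have := ((h.eT hO i j mA m2).mono d.1).mul u3
    rwa [sX, up, r, map_div₀, div_mul_div_cancel₀ ((map_ne_zero ι).2 n0)] at this
  have mS : ι (∏ i, L.s i (plO P)) ∈ mx V :=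
    (mem_mx_comap ι).1 (ov.dom.mx ((mx_plO s0).2 (by rw [hP.oS]; exact one_pos)))
  have w := d.1 (s O hO)
  rw [lb, up, up, r, r', ← Finset.mul_prod_erase _ _ (Finset.mem_univ i),
    ← Finset.mul_prod_erase _ _ (Finset.mem_univ j)] at w
  by_contra q
  obtain ⟨c, hc⟩ : ∃ c : ℕ, a i j = N + (c + 1 : ℕ) := ⟨(a i j - N - 1).toNat, by omega⟩
  have w2 := (((u.mul (u4.zpow (-a i j))).mul u1).mul u2).div_mem w
  have E0 := (div_ne_zero_iff.1 u4.1).1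
  have T0 := (div_ne_zero_iff.1 u.1).1
  refine (mx_pow mS (Nat.succ_ne_zero c)).2 ⟨pow_ne_zero _ S0, V.pow_mem mS.1 _, ?_⟩
  refine Eq.subst (motive := (· ∈ V)) ?_ w2
  have t0 := left_ne_zero_of_mul (left_ne_zero_of_mul T0)
  have t1 := right_ne_zero_of_mul (left_ne_zero_of_mul T0)
  have t2 := right_ne_zero_of_mul T0
  have t3 := u1.1
  have t4 := u2.1
  rw [div_zpow, hc, zpow_neg, zpow_neg, zpow_add₀ S0, zpow_natCast, zpow_natCast]
  have t5 := zpow_ne_zero ((N : ℤ) + (c + 1 : ℕ)) E0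
  field_simp

end geo

end OrdA

open OrdA in
theorem ord_stmt : OrdStmt := by
  intro hK hG hB k M M' K Λ Λ' κ κ' n n' _ _ _ _ _ _ _ _ _ _ _ L L' ι ι' v e Z h ⟨j₁, j₂, two⟩
    g g' a hg hg' I s m m' hm hs
  classical
  choose P hP using plc h.ok
  choose P' hP' using plc h.ok'
  have : FiniteDimensional k (Submodule.span k (m' '' s)) :=
    FiniteDimensional.span_of_finite k (s.finite_toSet.image _)
  obtain ⟨B, sp, ad⟩ := hB k M' (Submodule.span k (m' '' s)) _ _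
    (chain (P' j₁) (g' (plO (P' j₁)))) (chain (P' j₂) (g' (plO (P' j₂))))
  have ex : ∀ b, ∃ f : M' → k, b ∈ s → ∑ x ∈ B, f x • x = m' b := fun b => by
    by_cases hb : b ∈ s
    · have : m' b ∈ Submodule.span k (B : Set M') := sp ▸ Submodule.subset_span ⟨b, hb, rfl⟩
      obtain ⟨f, -, q⟩ := Submodule.mem_span_finset.1 this
      exact ⟨f, fun _ => q⟩
    · exact ⟨0, fun q => (hb q).elim⟩
  choose f hf using ex
  have sc : ∀ x, Sc L.Y g (∑ b ∈ s, f b x • m b) := fun x =>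
    (Ss L.Y g).sum_mem fun b hb => (Ss L.Y g).smul_mem _ (hm b hb).1
  have sc' : ∀ x ∈ B, Sc L'.Y g' x := fun x hx =>
    (Submodule.span_le (p := Ss L'.Y g')).2 (by rintro _ ⟨b, hb, rfl⟩; exact (hm b hb).2)
      (sp ▸ Submodule.subset_span hx)
  obtain ⟨c, hc⟩ : ∃ c : M' → M, c = fun x => ∑ b ∈ s, f b x • m b := ⟨_, rfl⟩
  have eq : ∑ b ∈ s, ι (m b) * ι' (m' b) = ∑ x ∈ B, ι (c x) * ι' x := by
    simp only [hc, map_sum, Finset.sum_mul]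
    rw [Finset.sum_comm]
    refine Finset.sum_congr rfl fun b hb => ?_
    rw [← hf b hb, map_sum, Finset.mul_sum]
    exact Finset.sum_congr rfl fun x _ => by
      rw [map_smul, map_smul, mul_smul_comm, smul_mul_assoc]
  replace sc : ∀ x, Sc L.Y g (c x) := hc ▸ sc
  refine ⟨B, c, eq, fun b hb c0 b0 => ⟨_, _, tm h.ok hP hg c0 (sc b),
    tm h.ok' hP' hg' b0 (sc' b hb), fun i j => ?_⟩⟩
  have l := h.lq (hP i).mem (hP' j).mem
  have mS : ∏ i', L.s i' (plO (P i)) ∈ mx (plO (P i)) :=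
    (mx_plO l.nS).2 (by rw [(hP i).oS]; exact one_pos)
  obtain ⟨V, hV, ov, hA, G⟩ := hG hK k M M' K ι ι' e _ _ _ _ _ l mS
    ((mx_plO l.nS').2 (by rw [(hP' j).oS]; exact one_pos))
  obtain ⟨b₀, h0, mn⟩ := (B.filter fun x => c x ≠ 0 ∧ x ≠ 0).exists_min_image
    (fun x => od (P i) g (c x) + od (P' j) g' x) ⟨b, Finset.mem_filter.2 ⟨hb, c0, b0⟩⟩
  have hp := fun x (hx : x ∈ B.filter fun x => c x ≠ 0 ∧ x ≠ 0) =>
    unit_od h.ok (hP i) hg (Finset.mem_filter.1 hx).2.1 (sc x)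
  have hq := fun x (hx : x ∈ B.filter fun x => c x ≠ 0 ∧ x ≠ 0) =>
    unit_od h.ok' (hP' j) hg' (Finset.mem_filter.1 hx).2.2 (sc' x (Finset.mem_filter.1 hx).1)
  have u := core l mS ov hA hp hq (fun t ht => G M' t _ _ _
    (fun x hx => ⟨(hp x (ht hx)).mem, (hq x (ht hx)).mem⟩)
    (indep h.ok' (hP' j) hg' (ht.trans (Finset.filter_subset _ _))
      (fun x hx => ⟨(Finset.mem_filter.1 (ht hx)).2.2, sc' x (Finset.mem_filter.1 (ht hx)).1⟩)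
      (fun N => ad _ ((two j).elim (fun q => Or.inl ⟨N, by rw [q]⟩) fun q => Or.inr ⟨N, by rw [q]⟩))
      h.ext.e0)) h0 mn
  refine (fin h (hP i) (hP' j) hV ov hA hs (Eq.subst (motive := fun z => IsU V (z / _)) ?_ u)).trans
    (by exact_mod_cast mn b (Finset.mem_filter.2 ⟨hb, c0, b0⟩))
  rw [eq, Finset.sum_mul, Finset.sum_mul, Finset.sum_filter]
  refine Finset.sum_congr rfl fun x _ => ?_
  split_ifs with q
  · rw [map_mul, map_mul]
    ring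
  · rcases not_and_or.1 q with q | q <;> simp [not_not.1 q]

end Pool.Agent.MP_20d318_ag.AM

end

section

set_option autoImplicit false
set_option linter.unusedSectionVars false

namespace Pool.Agent.MP_20d318_ag.AM

open Pool.Agent.MP_fd6584_ag.Fn Pool.Agent.CBk
open Pool.Agent.MP_fd6584_ag.AG hiding deg_inv deg_congr deg_of_unit deg_mul deg_prod deg_zpow
  deg_eq_zero deg_nonneg deg_div deg_pow
open Pool.Agent.MVg (Sc Fac Two BasStmt)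
open Pool.Agent.MP_20d318_ag.CH (Lv Lf sX cl Nd n1_ext)
open Pool.Agent.MP_20d318_ag.KK
open Pool.Agent.MP_20d318_ag.Lat (cone IsCone RP isCone_cone subset_cone)

namespace StpA

variable {k M M' K Λ Λ' κ κ' : Type} {n n' : ℕ} [Field k] [Field M] [Field M'] [Field K]
  [Algebra k M] [Algebra k M'] [Algebra k K] [Fintype κ] [Fintype κ'] {L : Lv k M Λ κ n}
  {L' : Lv k M' Λ' κ' n'} {ι : M →ₐ[k] K} {ι' : M' →ₐ[k] K}

theorem lb_sq (g : Subalgebra k M → M) (g' : Subalgebra k M' → M') (a : κ → κ' → ℤ)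
    (O : Subalgebra k K) : lb L L' ι ι' (g ^ 2) (g' ^ 2) (fun i j => a i j * 2) O =
      lb L L' ι ι' g g' a O ^ 2 := by
  have e1 : ∀ (x : K) (s : ℤ), x ^ (-(s * 2)) = (x ^ (-s)) ^ 2 := fun x s => by
    rw [← neg_mul, zpow_mul, zpow_ofNat]
  unfold lb up
  simp only [e1, Finset.prod_pow, Pi.pow_apply, map_pow]
  ring

theorem sp_sq [IsAlgClosed k] {R : Set (N1 L.Y)} {g : Subalgebra k M → M} {x : N1 L.Y} {N : ℕ}
    (hY : Good L.Y) (hg : IsCart L.Y g) (hx : x ∈ Sp L R) (e : cl L.Y g = (N : ℝ) • x) :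
    cl L.Y (g ^ 2) ∈ Sp L R := by
  have := (isCone_cone _).smul _ (Nat.cast_nonneg (α := ℝ) N) _ hx
  rw [cl_pow hY hg, two_nsmul, e]
  exact (isCone_cone _).add _ this _ this

end StpA

open StpA in
theorem stp_stmt : StpStmt := by
  intro k M M' K Λ Λ' κ κ' n n' _ _ _ _ _ _ _ _ _ _ _ L L' ι ι' v e Z h hI hC hS hT hO h1 R R'
    ⟨J, _, d, hd⟩ ⟨J', _, d', hd'⟩
  obtain ⟨o1, o2⟩ := h1 J J' d d' R R' hd hd'
  refine ⟨_, inferInstance, dd L L' ι ι' d d', fg_iff.2 ⟨o1, ?_⟩⟩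
  rintro f hf ⟨D, ⟨D1, D2⟩, hD⟩ V hV
  obtain ⟨N, g, g', a, μ, hN, hg, hg', hμ, hu⟩ := hC f hf.1
  have cW := h.cartW hg hg' a
  have hu' : ∀ O ∈ Z, IsU O (μ * lb L L' ι ι' g g' a O / f O ^ N) := fun O hO => by
    simpa only [inv_div] using (hu O hO).inv
  have c1 : cl Z (lb L L' ι ι' g g' a) = cl Z (f ^ N) := cl_lin h.gX cW (hf.1.pow N) hu'
  have c2 : ((cl _ g, cl _ g', fun i j => a i j) : WP (N1 L.Y) (N1 L'.Y) κ κ') = (N : ℝ) • D :=
    hI (by rw [h.phi_lb hg hg', c1, cl_pow h.gX hf.1, map_smul, hD, Nat.cast_smul_eq_nsmul])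
  have s1 := sp_sq h.gY hg D1 (congrArg (fun x => x.1) c2)
  have s2 := sp_sq h.gY' hg' D2 (congrArg (fun x => x.2.1) c2)
  have sμ : Sc Z (lb L L' ι ι' g g' a) μ := fun O hO => by
    have := O.mul_mem (hu' O hO).mem (O.pow_mem (hf.2 O hO) N)
    rwa [div_mul_cancel₀ _ (pow_ne_zero _ (hf.1.ne hO))] at this
  obtain ⟨t, t0, t1, t2, t3⟩ := hS g g' a hg hg' μ hμ sμ V hV
  obtain ⟨I, s, m, m', rfl, e2⟩ := hT _ _ _ (hg.pow 2) (hg'.pow 2) t t1 t2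
  obtain ⟨B, c, e3, e4⟩ := hO _ _ _ (hg.pow 2) (hg'.pow 2) I s m m' e2 t2
  rw [e3] at t0 t3
  have m1 := Mon.sum (d := dd L L' ι ι' d d') hV
    (fun O hO => (h.cartW (hg.pow 2) (hg'.pow 2) fun i j => a i j * 2).ne hO)
    (fun b hb q => by
      have c0 : c b ≠ 0 := fun z => q (by rw [z, map_zero, zero_mul])
      have b0 : b ≠ 0 := fun z => q (by rw [z, map_zero, mul_zero])
      exact o2 _ _ _ (hg.pow 2) (hg'.pow 2) s1 s2 _ _ c0 b0 (e4 b hb c0 b0) V hV) t0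
  have m2 : Mon Z (dd L L' ι ι' d d') V (lb L L' ι ι' g g' a) μ :=
    m1.of_pow two_pos hμ t0 t3 fun O hO => by
      rw [lb_sq, div_self (pow_ne_zero _ (cW.ne hO))]
      exact isU_one
  have m3 : Mon Z (dd L L' ι ι' d d') V (fun O => μ * lb L L' ι ι' g g' a O) 1 := by
    simpa only [Mon, one_mul] using m2
  exact m3.of_pow hN one_ne_zero one_ne_zero (by simp) hu'

end Pool.Agent.MP_20d318_ag.AM

end
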