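import Mathlib.Analysis.Normed.Affine.AddTorsorBases
import Mathlib.Analysis.Convex.Topology
import Mathlib.Analysis.LocallyConvex.Separation
import Pool.Agent.MP_20d318_ag.AM.K1
import Pool.Agent.MP_fd6584_ag.MV.RowsG
import Pool.Agent.MP_20d318_ag.AM.K4
import Pool.Agent.MP_20d318_ag.AM.K2
import Pool.Agent.MP_20d318_ag.AM.K3
import Pool.Agent.MP_20d318_ag.AM.Stmt
import Pool.Agent.MP_20d318_ag.CC.Brg

/-! Rows on the movable cone; the bridge to schemes. -/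

section

set_option autoImplicit false
set_option linter.unusedSectionVars false

namespace Pool.Agent.MP_20d318_ag.AM

open Pool.Agent.MP_fd6584_ag Pool.Agent.MP_fd6584_ag.Fn Pool.Agent.CBk
open Pool.Agent.MP_fd6584_ag.AG hiding deg_inv deg_congr deg_of_unit deg_mul deg_prod deg_zpow
  deg_eq_zero deg_nonneg deg_div deg_pow
open Pool.Agent.MVg (Sc Fac Av)
open Pool.Agent.MP_20d318_ag.CH (cl cl_val cl_mem cl_eff n1_ext n1_eq)
open Pool.Agent.MP_20d318_ag.Lat (cone IsCone RP Intg Concl isCone_cone subset_cone)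

namespace UpdA

variable {k K : Type} [Field k] [Field K] [Algebra k K] {Z : Set (Subalgebra k K)}

/-- A multiple of every finitely supported order function is Cartier. -/
theorem exists_mul (hq : ∀ P : Place k K, plO P ∈ Z → ∃ f, IsCart Z f ∧
      ∀ P' : Place k K, plO P' ∈ Z → (P'.ord (f (plO P')) = 0 ↔ P' ≠ P))
    (e : Place k K → ℤ) (he : {P : Place k K | plO P ∈ Z ∧ e P ≠ 0}.Finite) :
    ∃ (m : ℕ) (f : Subalgebra k K → K), 0 < m ∧ IsCart Z f ∧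
      ∀ P : Place k K, plO P ∈ Z → P.ord (f (plO P)) = m * e P := by
  classical
  choose! f hf using hq
  have hs : ∀ P ∈ he.toFinset, plO P ∈ Z := fun P hP => (he.mem_toFinset.1 hP).1
  obtain ⟨n, hn⟩ : ∃ n : Place k K → ℤ, ∀ P, n P = P.ord (f P (plO P)) := ⟨_, fun _ => rfl⟩
  have h0 : ∀ P ∈ he.toFinset, n P ≠ 0 := fun P hP h =>
    ((hf P (hs P hP)).2 P (hs P hP)).1 (hn P ▸ h) rfl
  obtain ⟨m, hm⟩ : ∃ m : ℕ, m = ∏ P ∈ he.toFinset, (n P).natAbs := ⟨_, rfl⟩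
  have hd : ∀ P ∈ he.toFinset, n P ∣ (m : ℤ) := fun P hP =>
    Int.natAbs_dvd.1 (Int.natCast_dvd_natCast.2 (hm ▸ Finset.dvd_prod_of_mem _ hP))
  refine ⟨m, ∏ P ∈ he.toFinset, f P ^ (e P * ((m : ℤ) / n P)),
    hm ▸ Finset.prod_pos fun P hP => Int.natAbs_pos.2 (h0 P hP),
    isCart_prod fun P hP => (hf P (hs P hP)).1.zpow _, fun Q hQ => ?_⟩
  rw [Finset.prod_apply, Q.ord_prod _ _ fun P hP => ((hf P (hs P hP)).1.zpow _).ne hQ]
  have h1 : ∀ P ∈ he.toFinset, Q.ord ((f P ^ (e P * ((m : ℤ) / n P))) (plO Q)) =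
      if P = Q then m * e Q else 0 := fun P hP => by
    rw [Pi.pow_apply, Place.ord_zpow]
    split_ifs with h
    · subst h
      rw [← hn P, mul_assoc, Int.ediv_mul_cancel (hd P hP), mul_comm]
    · rw [((hf P (hs P hP)).2 Q hQ).2 (Ne.symm h), mul_zero]
  rw [Finset.sum_congr rfl h1, Finset.sum_ite_eq']
  split_ifs with h
  · rfl
  · have h2 : e Q = 0 := by
      by_contra h2
      exact h (he.mem_toFinset.2 ⟨hQ, h2⟩)
    rw [h2, mul_zero]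

end UpdA

theorem upd_stmt : UpdStmt := by
  intro k K _ _ _ _ X r Z s
  refine ⟨fun f hf => ?_, fun f' hf' => ?_⟩
  · obtain ⟨m, f', a, b, c⟩ := UpdA.exists_mul s.qf (fun P => P.ord (f (plO P)))
      ((r.nice.toFine.fin_cart hf).subset fun P hP => ⟨(s.pl P).1 hP.1, hP.2⟩)
    exact ⟨m, f', a, b, fun P hP => c P ((s.pl P).2 hP)⟩
  · obtain ⟨f, a, b⟩ := Pool.Agent.MVg.PullA.exists_cart r.fac (fun P => P.ord (f' (plO P)))
      ((s.nice.toFine.fin_cart hf').subset fun P hP => ⟨(s.pl P).2 hP.1, hP.2⟩)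
    exact ⟨f, a, fun P hP => by rw [b P hP, Nat.cast_one, one_mul]⟩

end Pool.Agent.MP_20d318_ag.AM

end

section

set_option autoImplicit false

namespace Pool.Agent.MP_20d318_ag.AM

open Pool.Agent.MP_20d318_ag.Lat Pool.Agent.MP_20d318_ag.CB
open Pool.Agent.MP_fd6584_ag.MV (Ko_F)

theorem pel_stmt : PelStmt := by
  classical
  intro m ι κ _ _ Λ h
  obtain ⟨hV, hG⟩ := m.vert ι κ Λ h
  obtain ⟨p1, p2⟩ := m.peA ι κ Λ h
  rcases h.ns.sq0.lt_or_eq with hF | hF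
  · exact p1 ((m.biA ι κ Λ h hF).1 _ hG)
  replace hF := hF.symm
  obtain ⟨-, T, hT⟩ := endB1_stmt ι κ Λ h.ns h.hg h.l1 hF
  have hc := fun X' => m.cut m.low ι κ Λ X' h hF
  intro M hM
  have h0 : 0 ≤ ip Λ.B M (toR Λ.F) := ip_comm (R := ℝ) h.ns.sym _ M ▸ hM _
    (Ko_F hF.ge ▸ (h.l1.nefr _).2 (h.l1.pn _ (h.ns.memC _) hF.ge))
  rcases h0.lt_or_eq with h0 | h0
  · exact m.peB ι κ Λ T h hF hT (fun X' a => (hc X' a).2) hG (m.nefF ι κ Λ T h hF hT hc hG) M hM h0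
  · exact p2 m.low hF hV hG M hM h0.symm

end Pool.Agent.MP_20d318_ag.AM

end

section

set_option autoImplicit false
set_option linter.unusedSectionVars false

namespace Pool.Agent.MP_20d318_ag.AM

open Pool.Agent.MP_20d318_ag.CB
open Pool.Agent.MP_20d318_ag.Lat (cone)
open Pool.Agent.MP_fd6584_ag.MV (Ab mem_Ab Po_F isCone_Ab)

namespace RcbA

theorem nonneg_of {s t : ℝ} (h : ∀ ε : ℝ, 0 < ε → 0 ≤ s + ε * t) : 0 ≤ s := by
  refine le_of_forall_pos_le_add fun δ hδ => (h (δ / (|t| + 1)) (by positivity)).trans ?_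
  rw [add_le_add_iff_left, div_mul_eq_mul_div, div_le_iff₀ (by positivity)]
  exact mul_le_mul_of_nonneg_left (by linarith [le_abs_self t]) hδ.le

end RcbA

theorem rcb_stmt : RcbStmt := by
  intro k M I κ _ _ _ _ _ _ _ p _ h _ pe G ψ iso x a _ hx
  obtain ⟨x, rfl⟩ := ψ.surjective x
  obtain ⟨a, rfl⟩ := ψ.surjective a
  have k1 : cone (toR '' p.ld.P) ⊆ Ab p.ld p.ld.F := (isCone_Ab _).cone_subset (by
    rintro _ ⟨c, hc, rfl⟩
    exact mem_Ab (AddSubmonoid.subset_closure ((Po_F h.ns.sq0).ge hc)))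
  refine (iso.Ef x).2 (pe fun ν hν => RcbA.nonneg_of (t := ip p.ld.B ν a) fun ε hε => ?_)
  have := k1 ((iso.Ef (x + ε • a)).1 (by rw [map_add, map_smul]; exact hx ε hε)) ν hν
  rwa [ip_add_right, ip_smul_right] at this

end Pool.Agent.MP_20d318_ag.AM

end

section

set_option autoImplicit false
set_option linter.unusedSectionVars false

namespace Pool.Agent.MP_20d318_ag.AM

open Pool.Agent.MP_fd6584_ag.Fn Pool.Agent.CBk
open Pool.Agent.MP_fd6584_ag.AG hiding deg_inv deg_congr deg_of_unit deg_mul deg_prod deg_zpow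
  deg_eq_zero deg_nonneg deg_div deg_pow
open Pool.Agent.MP_20d318_ag.CH (Lv cl)
open Pool.Agent.MP_20d318_ag.KK
open Pool.Agent.MP_20d318_ag.Lat (cone IsCone RP isCone_cone subset_cone)

namespace RcsA

theorem two {k K : Type} [Field k] [Field K] [Algebra k K] {X : Set (Subalgebra k K)}
    {x y : N1 X} (hx : x ∈ Glue.Ef X) (hy : y ∈ Glue.Ef X) : ∃ R : Set (N1 X), R.Finite ∧
      R ⊆ LL X ∧ R ⊆ Glue.Ef X ∧ x ∈ cone R ∧ y ∈ cone R := by
  obtain ⟨Q, q1, q2⟩ := exists_fin hx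
  obtain ⟨S, s1, s2⟩ := exists_fin hy
  have u := Set.union_subset q1 s1
  refine ⟨Q ∪ S, Q.finite_toSet.union S.finite_toSet, fun z hz => ?_, u.trans (subset_cone _),
    Lat.cone_mono Set.subset_union_left q2, Lat.cone_mono Set.subset_union_right s2⟩
  obtain ⟨D, -, rfl⟩ := u hz
  exact AddSubgroup.subset_closure ⟨D, rfl⟩

end RcsA

theorem rcs_stmt : RcsStmt := by
  intro hI hR hE k M M' K Λ Λ' κ κ' n n' _ _ _ _ _ _ _ _ _ _ _ L L' ι ι' v e h i d c s r m m' rc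
    rc' x a ha hx
  obtain ⟨A, rfl, a1, a2⟩ := c.dn a ha
  obtain ⟨D, rfl⟩ : ∃ D, h.Phi D = x := by
    obtain ⟨E, q, -⟩ := c.dn _ (hx 1 one_pos)
    exact ⟨E - A, (map_sub _ _ _).trans (sub_eq_iff_eq_add.2 (q.trans (by rw [one_smul]; rfl)))⟩
  have e : ∀ ε : ℝ, h.Phi (D + ε • A) = h.Phi D + ε • h.Phi A := fun ε => by
    rw [map_add, map_smul]
  have key : ∀ ε : ℝ, 0 < ε → (D + ε • A).1 ∈ Glue.Ef L.Y ∧ (D + ε • A).2.1 ∈ Glue.Ef L'.Y :=
    fun ε hε => by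
      obtain ⟨E, q, p⟩ := c.dn _ (hx ε hε)
      obtain rfl : E = D + ε • A := i (q.trans (e ε).symm)
      exact p
  obtain ⟨R, f, l, p, u, w⟩ := RcsA.two (rc D.1 A.1 a1 fun ε hε => (key ε hε).1) a1
  obtain ⟨R', f', l', p', u', w'⟩ := RcsA.two (rc' D.2.1 A.2.1 a2 fun ε hε => (key ε hε).2) a2
  obtain ⟨_, ⟨T, -, rfl⟩, t2, t3⟩ := hE hI k K _ r _ (MdsA.rp d f f' l l')
    ((s R R' (m.fs R f l p) (m'.fs R' f' l' p')).mono (Set.image_mono fun D q =>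
      ⟨Lat.cone_mono Set.subset_union_left q.1, Lat.cone_mono Set.subset_union_left q.2⟩))
  refine t2 (hR _ T _ (h.Phi A) fun δ hδ => ⟨δ, hδ, le_rfl, t3 ⟨hx δ hδ, D + δ • A, ⟨?_, ?_⟩,
    e δ⟩⟩)
  · exact (isCone_cone _).add _ u _ ((isCone_cone _).smul _ hδ.le _ w)
  · exact (isCone_cone _).add _ u' _ ((isCone_cone _).smul _ hδ.le _ w')

end Pool.Agent.MP_20d318_ag.AM

end

section

set_option autoImplicit false
set_option linter.unusedSectionVars false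

namespace Pool.Agent.MP_20d318_ag.AM

open Pool.Agent.MP_fd6584_ag.Fn Pool.Agent.CBk
open Pool.Agent.MP_fd6584_ag.AG hiding deg_inv deg_congr deg_of_unit deg_mul deg_prod deg_zpow
  deg_eq_zero deg_nonneg deg_div deg_pow
open Pool.Agent.MVg (H1 PsA Pl PullStmt pc h1_plO)
open Pool.Agent.MP_20d318_ag.CH (cl cl_mem n1_eq lin_ext)

namespace PsaA

variable {k K : Type} [Field k] [IsAlgClosed k] [Field K] [Algebra k K]
  {X : Set (Subalgebra k K)} {σ : PsA X} {D E D' E' : Cartier X}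

theorem ord_pl (h : Pl σ D E) (P : Place k K) (hP : plO P ∈ X) :
    P.ord (E.f (plO P)) = (pc σ.1 P).ord (D.f (plO (pc σ.1 P))) := by
  have a := h _ hP (h1_plO P)
  have b := ((isU_plO' P).1 a).2
  rw [P.ord_div (div_ne_zero_iff.1 a.1).1 (div_ne_zero_iff.1 a.1).2] at b
  exact (sub_eq_zero.1 b).symm

theorem key (r : Ref X) (h : Pl σ D E) (h' : Pl σ D' E') (e : D.n1 = D'.n1) : E.n1 = E'.n1 := by
  have gX : Good X := r.nice.toFine.toGood
  rw [n1_eq, n1_eq] at e ⊢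
  obtain ⟨n, μ, hn, u⟩ := r.nl (D.f / D'.f) (D.isCart.div D'.isCart)
    (by rw [cl_div gX D.isCart D'.isCart, e, sub_self])
  obtain ⟨O, hO, -⟩ := gX.cpl ⊤ fun _ => Or.inl trivial
  have hμ : μ ≠ 0 := left_ne_zero_of_mul (u O hO).1
  have hσ : σ.1 μ ≠ 0 := (map_ne_zero σ.1).2 hμ
  have h1 : cl X (E.f ^ n) = cl X (E'.f ^ n) := by
    refine cl_lin gX (E.isCart.pow _) (E'.isCart.pow _) (μ := σ.1 μ) fun O hO => ?_
    refine r.nice.unit_div (f := fun O => σ.1 μ * (E.f ^ n) O)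
      ((isCart_const hσ).mul (E.isCart.pow _)) (E'.isCart.pow _) hO fun P hP => ?_
    have hX : plO (pc σ.1 P) ∈ X := σ.2.1 _ hP (h1_plO P)
    have h2 := ((isU_plO' (pc σ.1 P)).1 (u _ hX)).2
    rw [(pc σ.1 P).ord_mul hμ (pow_ne_zero _ ((D.isCart.div D'.isCart).ne hX)),
      (pc σ.1 P).ord_pow, Pi.div_apply,
      (pc σ.1 P).ord_div (D.isCart.ne hX) (D'.isCart.ne hX), MVg.pc_ord σ.1 P μ] at h2
    rw [P.ord_mul hσ ((E.isCart.pow _).ne hP), Pi.pow_apply, Pi.pow_apply, P.ord_pow,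
      P.ord_pow, ord_pl h P hP, ord_pl h' P hP]
    linear_combination h2
  rw [cl_pow gX E.isCart, cl_pow gX E'.isCart] at h1
  exact PsiA.canc hn h1

variable (σ) in
/-- The graph of the map. -/
def Rel (x y : N1 X) : Prop := ∃ D E, Pl σ D E ∧ D.n1 = x ∧ E.n1 = y

theorem Rel.add (r : Ref X) {x x' y y' : N1 X} (h : Rel σ x y) (h' : Rel σ x' y') :
    Rel σ (x + x') (y + y') := by
  have gX : Good X := r.nice.toFine.toGood
  obtain ⟨D, E, a, rfl, rfl⟩ := h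
  obtain ⟨D', E', a', rfl, rfl⟩ := h'
  refine ⟨⟨D.f * D'.f, D.isCart.mul D'.isCart⟩, ⟨E.f * E'.f, E.isCart.mul E'.isCart⟩,
    fun O hO h1 => ?_, ?_, ?_⟩
  · have := (a O hO h1).mul (a' O hO h1)
    rwa [div_mul_div_comm, ← map_mul] at this
  · rw [n1_eq, n1_eq, n1_eq]
    exact cl_mul gX D.isCart D'.isCart
  · rw [n1_eq, n1_eq, n1_eq]
    exact cl_mul gX E.isCart E'.isCart

theorem lin (ext : ExtStmt.{1}) (sol : SolStmt.{1}) (r : Ref X) (σ : PsA X)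
    (ex : ∀ D : Cartier X, ∃ E, Pl σ D E) :
    ∃ γ : N1 X →ₗ[ℝ] N1 X, ∀ D E, Pl σ D E → γ D.n1 = E.n1 := by
  have h0 : ∀ x : LL X, ∃ y, Rel σ x y := fun x => by
    obtain ⟨f, hf, e⟩ := (mem_LL r.nice.toFine.toGood).1 x.2
    obtain ⟨E, hE⟩ := ex ⟨f, hf⟩
    exact ⟨_, _, E, hE, (n1_eq _).trans e, rfl⟩
  have un : ∀ {x y y' : N1 X}, Rel σ x y → Rel σ x y' → y = y' := by
    rintro _ _ _ ⟨D, E, a, rfl, rfl⟩ ⟨D', E', a', e, rfl⟩
    exact key r a a' e.symm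
  choose F hF using h0
  obtain ⟨γ, hγ⟩ := ext sol (N1 X) (N1 X) (LL X) (lt_LL r.fd)
    (AddMonoidHom.mk' F fun a b => un (hF (a + b)) ((hF a).add r (hF b)))
  refine ⟨γ, fun D E a => ?_⟩
  have m : D.n1 ∈ LL X := by rw [n1_eq]; exact cl_mem D.isCart
  exact (hγ ⟨_, m⟩).trans (un (hF ⟨_, m⟩) ⟨D, E, a, rfl, rfl⟩)

end PsaA

open MVg.Psg in
theorem psa_stmt : PsaStmt := by
  intro ext sol pull k K _ _ _ _ X r
  have ex := pull k K X r.nice r.fac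
  choose γ hγ using fun σ => PsaA.lin ext sol r σ (ex σ)
  have hi : ∀ σ, γ (inv σ) ∘ₗ γ σ = LinearMap.id := fun σ => lin_ext fun f hf => by
    obtain ⟨E, hE⟩ := ex σ ⟨f, hf⟩
    rw [CH.cl_eq hf, LinearMap.comp_apply, hγ _ _ _ hE, hγ _ _ _ (pl_inv hE), LinearMap.id_apply]
  have rep : ∀ σ : PsA X, ∃ δ : N1 X ≃ₗ[ℝ] N1 X, ∀ D E, Pl σ D E → δ D.n1 = E.n1 := fun σ =>
    ⟨LinearEquiv.ofLinearMap (γ σ) (γ (inv σ)) (hi (inv σ)) (hi σ), hγ σ⟩
  have hm : ∀ {σ τ : PsA X} {a b : N1 X ≃ₗ[ℝ] N1 X}, (∀ D E, Pl σ D E → a D.n1 = E.n1) →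
      (∀ D E, Pl τ D E → b D.n1 = E.n1) → ∀ D E, Pl (mul σ τ) D E → (a * b) D.n1 = E.n1 :=
    fun {σ τ a b} ha hb D F h => by
      obtain ⟨E, hE⟩ := ex τ D
      rw [LinearEquiv.mul_apply, hb D E hE, ha E F (pl_cancel h hE)]
  have hn : ∀ {σ : PsA X} {a : N1 X ≃ₗ[ℝ] N1 X}, (∀ D E, Pl σ D E → a D.n1 = E.n1) →
      ∀ D E, Pl (inv σ) D E → a⁻¹ D.n1 = E.n1 := fun {σ a} ha D E h => by
    rw [← ha E D (pl_inv h)]
    exact a.symm_apply_apply _
  refine ⟨⟨⟨⟨{δ | ∃ σ : PsA X, ∀ D E, Pl σ D E → δ D.n1 = E.n1}, ?_⟩, ?_⟩, ?_⟩,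
    fun σ => (rep σ).imp fun δ h => ⟨⟨σ, h⟩, h⟩, fun δ h => h, fun g => ?_⟩
  · rintro a b ⟨σ, ha⟩ ⟨τ, hb⟩
    exact ⟨_, hm ha hb⟩
  · obtain ⟨a, ha⟩ := rep one
    exact ⟨_, mul_inv_cancel a ▸ hm ha (hn ha)⟩
  · rintro a ⟨σ, ha⟩
    exact ⟨_, hn ha⟩
  · obtain ⟨a, ha⟩ := rep (ofAut g)
    refine ⟨a, ⟨_, ha⟩, fun x => LinearMap.congr_fun
      (lin_ext (a := (a : N1 X →ₗ[ℝ] N1 X)) (b := g.n1) fun f hf => ?_) x⟩
    rw [CH.cl_eq hf, Aut.n1_n1]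
    exact ha _ _ (pl_pull g _)

end Pool.Agent.MP_20d318_ag.AM

end

section

set_option autoImplicit false
set_option linter.unusedSectionVars false

namespace Pool.Agent.MP_20d318_ag.AM

open Pool.Agent.MP_fd6584_ag.Fn Pool.Agent.CBk
open Pool.Agent.MP_fd6584_ag.AG hiding deg_inv deg_congr deg_of_unit deg_mul deg_prod deg_zpow
  deg_eq_zero deg_nonneg deg_div deg_pow
open Pool.Agent.MVg (H1 Mvb Av UnifStmt)
open Pool.Agent.MP_20d318_ag.CH (cl cl_mem)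
open Pool.Agent.MP_20d318_ag.Lat (cone IsCone RP subset_cone)

namespace MorA

variable {k K : Type} [Field k] [IsAlgClosed k] [Field K] [Algebra k K]
  {X : Set (Subalgebra k K)} {f : Subalgebra k K → K} {O : Subalgebra k K}

theorem sa_of (hX : Good X) (hf : IsCart X f) (hO : O ∈ X) (h : Av X f O) : SaAt X (cl X f) O := by
  obtain ⟨n, n0, s, s1, s2⟩ := h
  have s0 : s ≠ 0 := left_ne_zero_of_mul s2.1
  have he : IsCart X fun O => s * (f ^ n) O := (isCart_const s0).mul (hf.pow n)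
  refine ⟨n, _, n0, ⟨he, s1⟩, (cl_cmul hX (hf.pow n) s0).trans (cl_pow hX hf n), fun P a b => ?_⟩
  exact (B2.ord_eq he hO a b).symm.trans ((isU_plO' P).1 (s2.mono b)).2

theorem av_of (r : Ref X) (hf : IsCart X f) (hO : O ∈ X) (h : SaAt X (cl X f) O) : Av X f O := by
  obtain ⟨m, e, m0, he, hc, hu⟩ := h
  have hG := r.nice.toGood
  obtain ⟨n, μ, n0, hμ⟩ := r.nl _ ((hf.pow m).div he.1)
    (by rw [cl_div hG (hf.pow m) he.1, cl_pow hG hf, hc, sub_self])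
  have e1 : ∀ O ∈ X, μ * f O ^ (m * n) = μ * (f ^ m / e) O ^ n * e O ^ n := fun O hO => by
    rw [Pi.div_apply, Pi.pow_apply, div_pow, mul_assoc,
      div_mul_cancel₀ _ (pow_ne_zero n (he.1.ne hO)), pow_mul]
  refine ⟨m * n, mul_pos m0 n0, μ, fun O' hO' => ?_, ?_⟩
  · rw [Pi.pow_apply, e1 O' hO']
    exact O'.mul_mem (hμ O' hO').mem (O'.pow_mem (he.2 O' hO') n)
  · rw [e1 O hO]
    exact (hμ O hO).mul ((r.nice.unit he.1 hO hu).pow n)

end MorA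

theorem mor_stmt : MorStmt := by
  intro int unif k K _ _ _ _ X r sg
  have hG := r.nice.toGood
  refine ⟨?_, fun x hx => SO_ef (hx ⊤ ⟨r.nice.toFine.top, Or.inl rfl⟩), fun S a b => ?_⟩
  · rintro _ ⟨f, hf, ⟨n, n0, h⟩, rfl⟩ O hO
    exact (MorA.sa_of hG hf hO.1 ⟨n, n0, h O hO.1 hO.2⟩).so (cl_mem hf)
  obtain ⟨𝒯, t1, t2, t3, -⟩ := sg S a b
  have sub : (fun O => SO X O ∩ S) '' {O | O ∈ X ∧ H1 O} ⊆ 𝒯 := by
    rintro _ ⟨O, hO, rfl⟩
    exact t3 O (hG.loc O hO.1) fun _ h => r.nice.krull hO.1 h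
  obtain ⟨R, R1, R2⟩ := int _ (LL X) (lt_LL r.fd) S a _ (t1.subset sub) fun T h => t2 T (sub h)
  have e : cone (R : Set (N1 X)) = MO X ∩ S := by
    rw [R2]
    ext x
    refine ⟨fun h => ⟨fun O hO => (h.2 _ ⟨O, hO, rfl⟩).1, h.1⟩, fun h => ⟨h.2, ?_⟩⟩
    rintro _ ⟨O, hO, rfl⟩
    exact ⟨h.1 O hO, h.2⟩
  refine ⟨R, fun x hx => ?_, e⟩
  obtain ⟨f, hf, rfl⟩ := (mem_LL hG).1 (R1 hx)
  have hm := (e.le (subset_cone _ hx)).1
  exact ⟨f, hf, unif k K X f r.nice.toFine hf fun O h1 h2 =>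
    MorA.av_of r hf h1 (r.sa _ (cl_mem hf) O (hm O ⟨h1, h2⟩)), rfl⟩

end Pool.Agent.MP_20d318_ag.AM

end

section

set_option autoImplicit false
set_option linter.unusedSectionVars false

namespace Pool.Agent.MP_20d318_ag.AM

open Pool.Agent.MP_fd6584_ag Pool.Agent.MP_fd6584_ag.Fn Pool.Agent.CBk
open Pool.Agent.MP_fd6584_ag.AG hiding deg_inv deg_congr deg_of_unit deg_mul deg_prod deg_zpow
  deg_eq_zero deg_nonneg deg_div deg_pow
open Pool.Agent.MP_20d318_ag.Lat (cone IsCone RP Intg)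

theorem cor_stmt : CorStmt := by
  intro amp deg opn k K _ _ _ _ X r Z s Ψ p sig a ha v
  have hZ : Good Z := s.nice.toGood
  have d := deg k K X r Z s Ψ p
  obtain ⟨O, hO, -⟩ := hZ.cpl ⊤ fun _ => Or.inl trivial
  obtain ⟨N, n1, n2⟩ := amp k K X r Z s p.toUpd a ha O hO v
  obtain ⟨S, t1, t2, t3, t4⟩ := EndA.exists_rp (SO_ef n2) ha.1 (SA_ef hZ ha.mem)
  obtain ⟨δ, d1, -, d2⟩ := opn k K X r Z s Ψ p S (rp_cone t1) (sig S t1 t2) a ⟨ha.mem, t4⟩
    (d.pos a ha) (N • a + v) ((rp_cone t1).add _ t4 _ t3)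
  have c : 0 < 1 + δ * N := by positivity
  refine ⟨δ / (1 + δ * N), by positivity, ?_⟩
  have e : a + (δ / (1 + δ * N)) • v = (1 + δ * N)⁻¹ • (a + δ • (N • a + v)) := by
    rw [smul_add δ, smul_smul, ← add_assoc, show a + (δ * N) • a = (1 + δ * N) • a by
      rw [add_smul, one_smul], smul_add, inv_smul_smul₀ c.ne', smul_smul, div_eq_inv_mul]
  rw [e]
  exact isCone_SA.smul _ (by positivity) _ d2

end Pool.Agent.MP_20d318_ag.AM

end

section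

set_option autoImplicit false
set_option linter.unusedSectionVars false

namespace Pool.Agent.MP_20d318_ag.AM

open Pool.Agent.MP_fd6584_ag.Fn Pool.Agent.CBk
open Pool.Agent.MP_fd6584_ag.AG hiding deg_inv deg_congr deg_of_unit deg_mul deg_prod deg_zpow
  deg_eq_zero deg_nonneg deg_div deg_pow
open Pool.Agent.MP_20d318_ag.CH (cl cl_mem n1_eq)
open Pool.Agent.MP_20d318_ag.Lat (IsCone isCone_cone)

namespace PtdA

variable {k K : Type} [Field k] [IsAlgClosed k] [Field K] [Algebra k K] {X : Set (Subalgebra k K)}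

/-- Global functions are constant. -/
theorem const (hX : Good X) {φ : K} (h : ∀ O ∈ X, φ ∈ O) : φ ∈ (⊥ : Subalgebra k K) := by
  have hl : IsLocalRing (⊥ : Subalgebra k K) := isLocalRing_of fun a ha b hb => by
    obtain ⟨c, rfl⟩ := Algebra.mem_bot.1 ha.1
    rwa [const_mem_mx.1 ha, map_zero, zero_add]
  have hn : Nrm (⊥ : Subalgebra k K) := fun f hf => by
    have : Algebra.IsIntegral k (⊥ : Subalgebra k K) := ⟨fun x => by
      obtain ⟨c, hc⟩ := Algebra.mem_bot.1 x.2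
      rw [show x = algebraMap k _ c from Subtype.ext hc.symm]
      exact isIntegral_algebraMap⟩
    exact Algebra.mem_bot.2 (((IsAlgClosed.algebraMap_bijective_of_isIntegral (k := k)
      (K := integralClosure k K)).2 ⟨f, isIntegral_trans f hf⟩).imp fun c q =>
        congrArg Subtype.val q)
  by_contra h2
  obtain ⟨V, hV, -, h3⟩ := exists_val_not_mem hl hn h2
  obtain ⟨O, hO, hd⟩ := hX.cpl V hV
  exact h3 (hd.1 (h O hO))

theorem gen (r : Ref X) {e : Subalgebra k K → K} (he : Ed X e) (h : -cl X e ∈ Glue.Ef X) :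
    cl X e = 0 := by
  have g := r.nice.toGood
  obtain ⟨m, e', m0, he', q⟩ := r.ef _ (neg_mem (cl_mem he.1)) h
  have hf := (he.pow m).mul he'
  obtain ⟨n, μ, n0, hu⟩ := r.nl _ hf.1 (by
    rw [cl_mul g (he.pow m).1 he'.1, cl_pow g he.1, q, smul_neg, add_neg_cancel])
  obtain ⟨c, hc⟩ := Algebra.mem_bot.1 (const g (φ := μ⁻¹) fun O hO => by
    have := (hu O hO).div_mem (O.pow_mem (hf.2 O hO) n)
    rwa [div_mul_cancel_right₀ (right_ne_zero_of_mul (hu O hO).1)] at this)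
  refine cl_unit g he.1 fun O hO => ?_
  have μ0 := left_ne_zero_of_mul (hu O hO).1
  have h1 : IsU O μ⁻¹ := hc ▸ isU_const fun z => inv_ne_zero μ0 (by rw [← hc, z, map_zero])
  have h2 := h1.mul (hu O hO)
  rw [inv_mul_cancel_left₀ μ0] at h2
  exact IsU.of_pow (he.2 O hO) m0.ne' (IsU.of_mul ((he.pow m).2 O hO) (he'.2 O hO)
    (IsU.of_pow (hf.2 O hO) n0.ne' h2))

end PtdA

theorem ptd_stmt : PtdStmt := by
  intro _ k K _ _ _ _ X r x hx
  have ce : IsCone (Glue.Ef X) := isCone_cone _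
  have cs : IsCone {x | x ∈ Glue.Ef X ∧ (-x ∈ Glue.Ef X → x = 0)} := by
    refine ⟨⟨ce.zero, fun _ => rfl⟩, fun x a y b => ⟨ce.add _ a.1 _ b.1, fun h => ?_⟩,
      fun c hc x a => ⟨ce.smul c hc _ a.1, fun h => ?_⟩⟩
    · have x0 := a.2 (by simpa using ce.add _ h _ b.1)
      rw [x0, zero_add] at h ⊢
      exact b.2 h
    · rcases hc.eq_or_lt with rfl | hc
      · exact zero_smul _ _
      · have := ce.smul c⁻¹ (inv_nonneg.2 hc.le) _ h
        rw [smul_neg, inv_smul_smul₀ hc.ne'] at this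
        rw [a.2 this, smul_zero]
  refine (cs.cone_subset ?_ hx).2
  rintro _ ⟨D, hD, rfl⟩
  have he : Ed X D.f := ⟨D.isCart, hD⟩
  rw [n1_eq]
  exact ⟨he.ef, PtdA.gen r he⟩

end Pool.Agent.MP_20d318_ag.AM

end

section

set_option autoImplicit false

namespace Pool.Agent.MP_20d318_ag.AM

open Pool.Agent.MP_20d318_ag.Lat (IsCone)

theorem clo_stmt : CloStmt := by
  intro V _ _ _ C a hC ha h
  have cv : Convex ℝ C := fun x hx y hy s t hs ht _ =>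
    hC.add _ (hC.smul s hs x hx) _ (hC.smul t ht y hy)
  have a0 : a ∈ C := by
    obtain ⟨δ, -, q⟩ := ha 0
    simpa using q
  obtain ⟨b, hb⟩ := cv.interior_nonempty_iff_affineSpan_eq_top.2 (eq_top_iff.2 fun y _ => by
    obtain ⟨δ, d, q⟩ := ha (y - a)
    have := (affineSpan ℝ C).smul_vsub_vadd_mem δ⁻¹ (subset_affineSpan ℝ C q)
      (subset_affineSpan ℝ C a0) (subset_affineSpan ℝ C a0)
    rwa [vsub_eq_sub, add_sub_cancel_left, inv_smul_smul₀ d.ne', vadd_eq_add, sub_add_cancel]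
      at this)
  obtain ⟨δ, d, q⟩ := ha (-b)
  refine isClosed_of_closure_subset fun x hx => h x fun ε e => ?_
  have p : 0 < 1 + ε * δ := by positivity
  have c := interior_subset (cv.combo_interior_closure_mem_interior hb hx
    (a := ε * δ / (1 + ε * δ)) (b := 1 / (1 + ε * δ)) (by positivity) (by positivity)
    (by rw [← add_div, add_comm, div_self p.ne']))
  have := hC.add _ (hC.smul _ p.le _ c) _ (hC.smul _ e.le _ q)
  rwa [smul_add, smul_smul, smul_smul, mul_div_cancel₀ _ p.ne', mul_div_cancel₀ _ p.ne', one_smul,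
    smul_add, smul_smul, smul_neg, add_comm _ x, add_add_add_comm, add_neg_cancel,
    add_zero] at this

end Pool.Agent.MP_20d318_ag.AM

end

section

set_option autoImplicit false
set_option linter.unusedSectionVars false

namespace Pool.Agent.MP_20d318_ag.AM

open Pool.Agent.MP_20d318_ag.Lat (cone IsCone RP Intg exists_sep)

namespace CvdA

variable {V : Type} [NormedAddCommGroup V] [NormedSpace ℝ V] {C : Set V}

theorem pt (hC : IsCone C) (cl : IsClosed C) {x : V} (hx : -x ∉ C) :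
    ∃ f : V →L[ℝ] ℝ, 0 < f x ∧ ∀ y ∈ C, 0 ≤ f y := by
  obtain ⟨f, u, a, b⟩ := geometric_hahn_banach_point_closed (convex_iff_add_mem.2
    fun x hx y hy _ _ ha hb _ => hC.add _ (hC.smul _ ha _ hx) _ (hC.smul _ hb _ hy)) cl hx
  have c := b 0 hC.zero
  rw [map_zero] at c
  rw [map_neg] at a
  refine ⟨f, by linarith, fun y hy => not_lt.1 fun q => ?_⟩
  have := b _ (hC.smul (u / f y) (div_nonneg_of_nonpos c.le q.le) _ hy)
  rw [map_smul, smul_eq_mul, div_mul_cancel₀ _ q.ne] at this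
  exact lt_irrefl _ this

theorem pos (hC : IsCone C) (cl : IsClosed C) (ln : ∀ x ∈ C, -x ∈ C → x = 0) {K : Set V}
    (hK : IsCompact K) (sub : K ⊆ C) (h0 : ∀ x ∈ K, x ≠ 0) :
    ∃ f : V →L[ℝ] ℝ, ∀ x ∈ K, 0 < f x := by
  choose f f1 f2 using fun x : K => pt hC cl fun q => h0 x x.2 (ln x (sub x.2) q)
  obtain ⟨t, ht⟩ := hK.elim_finite_subcover (fun x => {y | 0 < f x y})
    (fun x => isOpen_lt continuous_const (f x).continuous) fun x hx =>
      Set.mem_iUnion.2 ⟨⟨x, hx⟩, f1 _⟩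
  refine ⟨∑ x ∈ t, f x, fun y hy => ?_⟩
  obtain ⟨x, a, b⟩ := Set.mem_iUnion₂.1 (ht hy)
  rw [sum_apply]
  exact Finset.sum_pos' (fun z _ => f2 z y (sub hy)) ⟨x, a, b⟩

theorem sph (hC : IsCone C) (c : V →ₗ[ℝ] ℝ) (h : ∀ x ∈ C ∩ Metric.sphere 0 1, 0 ≤ c x) :
    ∀ x ∈ C, 0 ≤ c x := fun x hx => by
  rcases eq_or_ne x 0 with rfl | q
  · exact (map_zero c).ge
  have n : 0 < ‖x‖⁻¹ := inv_pos.2 (norm_pos_iff.2 q)
  have := h _ ⟨hC.smul _ n.le _ hx, mem_sphere_zero_iff_norm.2 (norm_smul_inv_norm q)⟩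
  rw [map_smul, smul_eq_mul] at this
  exact nonneg_of_mul_nonneg_right this n

end CvdA

open CvdA in
theorem cvd_stmt : CvdStmt := by
  intro V _ _ L l C hC cl ln
  have := l.fd
  have := FiniteDimensional.proper_real V
  obtain ⟨Cv, i1, i2⟩ := l.sep
  obtain ⟨k, c, c1, c2⟩ := exists_sep Cv i2
  have hK : IsCompact (C ∩ Metric.sphere 0 1) := (isCompact_sphere 0 1).inter_left cl
  obtain ⟨f, hf⟩ := pos hC cl ln hK Set.inter_subset_left fun x hx q => by simpa [q] using hx.2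
  obtain ⟨t, ht⟩ := (Submodule.mem_span_range_iff_exists_fun ℝ).1
    (mem_span_of_iInf_ker_le_ker (L := c) (K := (f : V →ₗ[ℝ] ℝ)) fun x hx => by
      rw [c2 x fun j => (Submodule.mem_iInf _).1 hx j]
      exact zero_mem _)
  obtain ⟨B, hB⟩ := hK.bddAbove_image (f := fun x => (2 * ∑ j, |c j x|) / f x)
    ((continuous_const.mul (continuous_finsetSum _ fun j _ =>
      (c j).continuous_of_finiteDimensional.abs)).continuousOn.div f.continuous.continuousOn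
      fun x hx => (hf x hx).ne')
  obtain ⟨g, hg⟩ : ∃ g, g = ∑ j, (⌊B * t j⌋ : ℝ) • c j := ⟨_, rfl⟩
  have g1 : Intg L g := fun x hx => by
    choose z hz using fun j => i1 _ (c1 j) x hx
    exact ⟨∑ j, ⌊B * t j⌋ * z j, by simp [hg, hz]⟩
  have g2 : ∀ x ∈ C ∩ Metric.sphere 0 1, ∑ j, |c j x| ≤ g x := fun x hx => by
    have a := (div_le_iff₀ (hf x hx)).1 (hB ⟨x, hx, rfl⟩)
    have b : B * f x - ∑ j, |c j x| ≤ g x := by
      rw [show f x = ∑ j, t j * c j x by simpa using (LinearMap.congr_fun ht x).symm, hg,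
        Finset.mul_sum, ← Finset.sum_sub_distrib, LinearMap.sum_apply]
      refine Finset.sum_le_sum fun j _ => ?_
      have a1 := Int.floor_le (B * t j)
      have a2 := Int.lt_floor_add_one (B * t j)
      have a3 := le_abs_self (c j x)
      have a4 := abs_nonneg (c j x)
      rw [LinearMap.smul_apply, smul_eq_mul]
      nlinarith
    linarith
  refine ⟨insert g (Set.range fun j => g + c j), ?_, ?_, fun x hx => c2 x fun j => ?_⟩
  · rintro _ (rfl | ⟨j, rfl⟩)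
    · exact g1
    · intro x hx
      obtain ⟨z, hz⟩ := g1 x hx
      obtain ⟨w, hw⟩ := i1 _ (c1 j) x hx
      exact ⟨z + w, by simp [hz, hw]⟩
  · rintro _ (rfl | ⟨j, rfl⟩)
    · exact sph hC _ fun x hx => (Finset.sum_nonneg fun j _ => abs_nonneg _).trans (g2 x hx)
    · refine sph hC _ fun x hx => ?_
      have a := (Finset.single_le_sum (fun j _ => abs_nonneg (c j x)) (Finset.mem_univ j)).trans
        (g2 x hx)
      have b := neg_abs_le (c j x)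
      change 0 ≤ g x + c j x
      linarith
  · have a : g x + c j x = 0 := hx _ (Or.inr ⟨j, rfl⟩)
    rwa [hx g (Or.inl rfl), zero_add] at a

end Pool.Agent.MP_20d318_ag.AM

end

section

set_option autoImplicit false
set_option linter.unusedSectionVars false

namespace Pool.Agent.MP_20d318_ag.AM

open Pool.Agent.MP_fd6584_ag.Fn Pool.Agent.CBk
open Pool.Agent.MP_fd6584_ag.AG hiding deg_inv deg_congr deg_of_unit deg_mul deg_prod deg_zpow
  deg_eq_zero deg_nonneg deg_div deg_pow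
open Pool.Agent.MVg (H1 Mvb PsA Pl AI Cl Rp)
open Pool.Agent.MP_20d318_ag.CH (cl n1_eq)
open Pool.Agent.MP_20d318_ag.Lat (cone IsCone RP Intg isCone_cone subset_cone cone_mono)

namespace AixA

section lin

variable {V N : Type*} [AddCommGroup V] [Module ℝ V] [AddCommGroup N] [Module ℝ N]
  (ψ : V ≃ₗ[ℝ] N)

theorem cone_pre (R : Set N) : cone (ψ ⁻¹' R) = ψ ⁻¹' cone R :=
  (((isCone_cone R).preimage ψ.toLinearMap).cone_subset fun _ h => subset_cone R h).antisymm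
    fun v h => by
      have := ((isCone_cone (ψ ⁻¹' R)).preimage ψ.symm.toLinearMap).cone_subset
        (R := R) (fun r hr => subset_cone _ (by simpa using hr)) h
      exact ψ.symm_apply_apply v ▸ this

/-- The conjugate group. -/
def cj (Γ : Subgroup (N ≃ₗ[ℝ] N)) : Subgroup (V ≃ₗ[ℝ] V) where
  carrier := {g | ∃ γ ∈ Γ, ∀ v, ψ (g v) = γ (ψ v)}
  mul_mem' := fun ⟨a, a1, a2⟩ ⟨b, b1, b2⟩ => ⟨a * b, Γ.mul_mem a1 b1, fun v => by
    rw [LinearEquiv.mul_apply, a2, b2, LinearEquiv.mul_apply]⟩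
  one_mem' := ⟨1, Γ.one_mem, fun _ => rfl⟩
  inv_mem' := fun ⟨a, a1, a2⟩ => ⟨a⁻¹, Γ.inv_mem a1, fun v => a.injective (by
    rw [← a2]
    simp)⟩

theorem ex_cj {Γ : Subgroup (N ≃ₗ[ℝ] N)} {γ : N ≃ₗ[ℝ] N} (h : γ ∈ Γ) :
    ∃ g ∈ cj ψ Γ, ∀ v, ψ (g v) = γ (ψ v) :=
  ⟨ψ.trans (γ.trans ψ.symm), ⟨γ, h, fun _ => by simp⟩, fun _ => by simp⟩

end lin

variable {k K : Type} [Field k] [Field K] [Algebra k K] {X : Set (Subalgebra k K)}

theorem mv_eq : Mv X = Cartier.n1 '' {D | Mvb X D.f} := Set.ext fun _ =>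
  ⟨fun ⟨f, a, b, c⟩ => ⟨⟨f, a⟩, b, (n1_eq _).trans c⟩,
    fun ⟨D, a, b⟩ => ⟨D.f, D.loc, a, (n1_eq D).symm.trans b⟩⟩

theorem box {x y : N1 X} (hx : x ∈ Glue.Ef X) (hy : y ∈ Glue.Ef X) :
    ∃ S, RP (LL X) S ∧ S ⊆ Glue.Ef X ∧ x ∈ S ∧ y ∈ S := by
  obtain ⟨Q, a, b⟩ := exists_fin hx
  obtain ⟨Q', a', b'⟩ := exists_fin hy
  have h := Set.union_subset a a'
  exact ⟨_, rp_fin (Q.finite_toSet.union Q'.finite_toSet) fun z hz =>
    let ⟨D, _, e⟩ := h hz; AddSubgroup.subset_closure ⟨D, e⟩, cone_mono h,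
    cone_mono Set.subset_union_left b, cone_mono Set.subset_union_right b'⟩

theorem cone_mv (m : Mor X) : cone (Mv X) = MO X :=
  (isCone_SA.cone_subset m.sub).antisymm fun x hx => by
    obtain ⟨S, a, b, c, -⟩ := box (m.ef hx) (m.ef hx)
    obtain ⟨R, d, e⟩ := m.fin S a b
    exact cone_mono d (e.ge ⟨hx, c⟩)

theorem ray_mo (ray : RayStmt.{1}) (rc : RC X) (m : Mor X) {a x : N1 X} (ha : a ∈ MO X)
    (h : ∀ ε : ℝ, 0 < ε → x + ε • a ∈ MO X) : x ∈ MO X := by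
  obtain ⟨S, s1, s2, s3, s4⟩ := box (rc x a (m.ef ha) fun ε hε => m.ef (h ε hε)) (m.ef ha)
  obtain ⟨R, -, e⟩ := m.fin S s1 s2
  exact (e.le (ray _ R x a fun δ hδ => ⟨δ, hδ, le_rfl, e.ge ⟨h δ hδ,
    (rp_cone s1).add _ s3 _ ((rp_cone s1).smul δ hδ.le _ s4)⟩⟩)).1

end AixA

open AixA in
theorem aix_stmt : AixStmt := by
  intro ray pull psm clo cvd k K _ _ _ _ X r ce rc m pt Γ g a _ ha
  have := r.fd
  obtain ⟨d, ⟨ψ⟩⟩ : ∃ d, Nonempty ((Fin d → ℝ) ≃ₗ[ℝ] N1 X) :=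
    ⟨_, ⟨(Module.finBasis ℝ (N1 X)).equivFun.symm⟩⟩
  have hΨ : ∀ v (D : Cartier X), ((N1 X).subtype ∘ₗ ψ.toLinearMap) v = D.cls ↔ ψ v = D.n1 :=
    fun v D => ⟨fun h => Subtype.ext h, fun h => congrArg Subtype.val h⟩
  have hC : ∀ Q : Cartier X → Prop, cone (Cl Cartier.cls ((N1 X).subtype ∘ₗ ψ.toLinearMap) Q) =
      ψ ⁻¹' cone (Cartier.n1 '' {D | Q D}) := fun Q => by
    rw [← cone_pre]
    exact congrArg cone (Set.ext fun v => exists_congr fun D => and_congr_right fun _ =>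
      (hΨ v D).trans eq_comm)
  have hM := hC fun D => Mvb X D.f
  rw [← mv_eq, cone_mv m] at hM
  have a0 : a ∈ MO X := by simpa using (ha 0).choose_spec.2
  have c0 : IsCone (ψ ⁻¹' MO X) := isCone_SA.preimage ψ.toLinearMap
  have c1 : ∀ v, ∃ δ : ℝ, 0 < δ ∧ ψ.symm a + δ • v ∈ ψ ⁻¹' MO X := fun v =>
    (ha (ψ v)).imp fun δ h => ⟨h.1, by simpa using h.2⟩
  have c2 : IsClosed (ψ ⁻¹' MO X) := clo _ _ _ c0 c1 fun x h =>
    ray_mo ray rc m a0 fun ε hε => by simpa using h ε hε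
  refine ⟨d, (N1 X).subtype ∘ₗ ψ.toLinearMap, ψ ⁻¹' MO X, cj ψ Γ,
    Subtype.val_injective.comp ψ.injective, fun D => ⟨ψ.symm D.n1, (hΨ _ D).2 (by simp)⟩, ?_,
    by rw [hM, c2.closure_eq], by rw [hC]; exact fun _ h => m.ef h, pull k K X r.nice r.fac,
    fun σ => ?_, fun γ ⟨γ', h1, h2⟩ => ?_, psm k K X r.nice, ?_, ?_⟩
  · refine eq_top_iff.2 fun v _ => ?_
    obtain ⟨δ, h1, h2⟩ := c1 v
    have s : ∀ W : Submodule ℝ (Fin d → ℝ), IsCone (W : Set (Fin d → ℝ)) := fun W =>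
      ⟨W.zero_mem, fun _ a _ b => W.add_mem a b, fun c _ _ a => W.smul_mem c a⟩
    have t := hM.ge.trans ((s _).cone_subset Submodule.subset_span)
    exact (Submodule.smul_mem_iff _ h1.ne').1
      ((Submodule.add_mem_iff_right _ (t (by simpa using a0))).1 (t h2))
  · obtain ⟨γ, h1, h2⟩ := g.rep σ
    obtain ⟨γ', h3, h4⟩ := ex_cj ψ h1
    exact ⟨γ', h3, fun D E v p q => (hΨ _ E).2 (by rw [h4, (hΨ v D).1 q, h2 D E p])⟩
  · obtain ⟨σ, h3⟩ := g.rep' γ' h1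
    exact ⟨σ, fun D E v p q => (hΨ _ E).2 (by rw [h2, (hΨ v D).1 q, h3 D E p])⟩
  · obtain ⟨Cv, s1, s2⟩ := (lt_LL r.fd).sep
    obtain ⟨Cw, t1, t2, t3⟩ := cvd _ ((LL X).comap ψ.toLinearMap.toAddMonoidHom)
      ⟨inferInstance, (fun c => c ∘ₗ ψ.toLinearMap) '' Cv,
        fun _ ⟨c, hc, e⟩ x hx => e ▸ s1 c hc _ hx, fun x hx => ψ.map_eq_zero_iff.1
          (s2 _ fun c hc => hx _ ⟨c, hc, rfl⟩)⟩ _ c0 c2
      fun x h h' => ψ.map_eq_zero_iff.1 (pt _ (m.ef h) (m.ef (map_neg ψ x ▸ h')))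
    exact ⟨Cw, fun c hc D v q => t1 c hc v (AddSubgroup.subset_closure ⟨D, ((hΨ v D).1 q).symm⟩),
      t2, t3⟩
  · obtain ⟨S, s1, s2, s3⟩ := ce
    obtain ⟨R, h1, h2⟩ := m.fin S s1 s2
    refine ⟨ψ ⁻¹' S, R.preimage ψ ψ.injective.injOn, fun v hv => ?_,
      by rw [Finset.coe_preimage, cone_pre, h2, Set.preimage_inter], fun v hv => ?_⟩
    · obtain ⟨D, -, e⟩ := mv_eq.le (h1 (Finset.mem_preimage.1 hv))
      exact ⟨D, (hΨ v D).2 e.symm⟩
    · obtain ⟨u, hu⟩ := s3 _ (m.ef hv)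
      obtain ⟨γ, h3, h4⟩ := g.aut u
      obtain ⟨γ', h5, h6⟩ := ex_cj ψ h3
      exact ⟨γ', h5, by rwa [Set.mem_preimage, h6, h4]⟩

end Pool.Agent.MP_20d318_ag.AM

end

section

set_option autoImplicit false
set_option linter.unusedSectionVars false

namespace Pool.Agent.MP_20d318_ag.AM

open AlgebraicGeometry
open Pool.Agent.MP_fd6584_ag Pool.Agent.MP_fd6584_ag.Fn Pool.Agent.CBk
open Pool.Agent.MP_fd6584_ag.AG hiding deg_inv deg_congr deg_of_unit deg_mul deg_prod deg_zpow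
  deg_eq_zero deg_nonneg deg_div deg_pow
open Pool.Agent.MP_fd6584_ag.Sch Pool.Agent.MVg Pool.Agent.MVg.SchA

variable {k K J J' : Type} [Field k] [IsAlgClosed k] [Field K] [Algebra k K]

theorem fine_pts [Finite J] (𝒞 : Pj.Charts k K J) : Fine (pts 𝒞) := by
  choose G hG using id 𝒞.fg
  have le : ∀ {i j} {O₁ O₂ W : Subalgebra k K}, O₁ ∈ Pts (𝒞.B i) → O₂ ∈ Pts (𝒞.B j) → O₁ ≤ W →
      Dom O₂ W → 𝒞.B i ≤ O₂ := fun {i j O₁ O₂ W} h1 h2 a b c hc => by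
    have hr := h2.2.1 (𝒞.ratio i j)
    have hu : IsU O₂ (𝒞.f i / 𝒞.f j) := b.2 _ hr ⟨div_ne_zero (𝒞.f_ne _) (𝒞.f_ne _), b.1 hr,
      inv_div (𝒞.f i) _ ▸ a (h1.2.1 (𝒞.ratio j i))⟩
    obtain ⟨n, hn⟩ := 𝒞.comp i j c hc
    have := (hu.pow n).div_mem (h2.2.1 hn)
    rwa [mul_div_cancel_left₀ _ (hu.pow n).1] at this
  refine ⟨⟨fun O hO => ?_, fun O₁ h1 O₂ h2 W _ a b => ?_, fun V hV => ?_, fun O hO => ?_⟩,
    Set.range fun j => (G j : Set K), Set.finite_range _, ?_, ?_⟩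
  · obtain ⟨j, h⟩ := Set.mem_iUnion.1 hO
    exact h.1
  · obtain ⟨i, h1⟩ := Set.mem_iUnion.1 h1
    obtain ⟨j, h2⟩ := Set.mem_iUnion.1 h2
    exact Pts_eq h1 h2 (le h1 h2 a.1 b) (le h2 h1 b.1 a) a b
  · obtain ⟨j, hj⟩ := 𝒞.proper hV.vs V.algebraMap_mem
    obtain ⟨O, h1, h2⟩ := exists_ctr (R := 𝒞.B j) hV.isLocalRing hj
    exact ⟨O, Set.mem_iUnion.2 ⟨j, h1⟩, h2⟩
  · obtain ⟨j, h⟩ := Set.mem_iUnion.1 hO
    exact ⟨G j, (G j).finite_toSet, (hG j).symm ▸ h,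
      (hG j).symm ▸ Set.subset_iUnion (fun j => Pts (𝒞.B j)) j⟩
  · rintro _ ⟨j, rfl⟩
    refine ⟨(G j).finite_toSet, (hG j).symm ▸ fun f => ?_⟩
    obtain ⟨a, ha, b, hb, h0, h⟩ := 𝒞.frac j f
    exact ⟨a, ha, b, hb, h0, eq_div_of_mul_eq h0 h⟩
  · rw [Set.biUnion_range]
    simp only [hG]
    rfl

variable {𝒞 : Pj.Charts k K J} {𝒞' : Pj.Charts k K J'}

theorem nice_pts [Finite J] (N : Pj.Model 𝒞) (h : Normal N.X) : Nice (pts 𝒞) := by
  refine ⟨fine_pts 𝒞, fun O hO f hf => ?_⟩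
  have := Krull.isFractionRing ((fine_pts 𝒞).frac hO)
  obtain ⟨x, rfl⟩ := exists_OA N hO
  have := h x
  have := IsIntegrallyClosed.of_equiv (toOA N x)
  obtain ⟨y, rfl⟩ := (isIntegrallyClosed_iff K).1 this hf
  exact y.2

theorem OA_gen (N : Pj.Model 𝒞) : OA N (genericPoint N.X) = ⊤ :=
  eq_top_iff.2 fun a _ => ⟨N.e.symm a, (N.ev_gen _).trans (N.e.apply_symm_apply a)⟩

theorem sm_pts [Finite J'] (N : Pj.Model 𝒞) (N' : Pj.Model 𝒞') (hX : Nice (pts 𝒞))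
    (h1 : Normal N'.X) (h2 : QFact N'.X) (σ : N.X.functionField ≃+* N'.X.functionField)
    (hσ : ∀ f, N'.e (σ f) = N.e f)
    (h3 : ∀ x, Codim1 x → ∃ x', ∀ f, RegAt x' (σ f) ↔ RegAt x f)
    (h4 : ∀ x', Codim1 x' → ∃ x, ∀ f, RegAt x' (σ f) ↔ RegAt x f) : Sm (pts 𝒞) (pts 𝒞') := by
  have hZ := nice_pts N' h1
  have e : ∀ x x', (∀ f, RegAt x' (σ f) ↔ RegAt x f) → OA N' x' = OA N x := fun x x' h =>
    Subalgebra.ext fun a => by
      obtain ⟨f, rfl⟩ := N.e.surjective a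
      rw [← reg_iff, ← h, reg_iff, hσ]
  have pt : ∀ P : Place k K, plO P ∈ pts 𝒞' → ∃ y, OA N' y = plO P ∧ Codim1 y := fun P hP => by
    obtain ⟨y, hy⟩ := exists_OA N' hP
    exact ⟨y, hy, (codim_iff codim_stmt hZ y).2 (Or.inr ⟨P, hy.symm⟩)⟩
  refine ⟨hZ, fun P => ⟨fun hP => ?_, fun hP => ?_⟩, fun P hP => ?_, J', inferInstance, 𝒞', rfl⟩
  · obtain ⟨y, hy, hc⟩ := pt P hP
    obtain ⟨x, hx⟩ := h4 y hc
    exact hy ▸ e x y hx ▸ OA_mem x
  · obtain ⟨x, hx⟩ := exists_OA N hP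
    obtain ⟨y, hy⟩ := h3 x ((codim_iff codim_stmt hX x).2 (Or.inr ⟨P, hx.symm⟩))
    exact hx ▸ e x y hy ▸ OA_mem y
  · obtain ⟨x, hx, hc⟩ := pt P hP
    obtain ⟨D, hD⟩ := h2 x hc fun h => plO_ne_top P (by rw [← hx, h, OA_gen])
    obtain ⟨E, hE⟩ := exists_cart D
    refine ⟨E.f, E.loc, fun P' hP' => ?_⟩
    obtain ⟨y, hy, hc'⟩ := pt P' hP'
    have h5 := hD y hc'
    rw [unit_iff, ← hE, hy, isU_plO'] at h5
    have h0 : E.f (plO P') ≠ 0 := by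
      rw [← hy, hE]
      exact (map_ne_zero _).2 (D.ne y)
    refine ((and_iff_right h0).symm.trans h5).trans (not_congr ⟨fun h => ?_, fun h => ?_⟩)
    · exact plO_inj (by rw [← hx, ← hy, h])
    · exact OA_inj (by rw [hx, hy, h])

theorem sch (N : Pj.Model 𝒞) (hX : Nice (pts 𝒞)) (h : ∀ Z, Sm (pts 𝒞) Z → ConeStatement Z)
    (X' : Scheme.{0}) [IsIntegral X'] (s' : X' ⟶ Spec (CommRingCat.of k))
    (h0 : Pj.IsProjective s') (h1 : Normal X') (h2 : QFact X') (h3 : SmallMod N.s s') :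
    CC.NefConj s' := by
  obtain ⟨σ, a, b, c⟩ := h3
  obtain ⟨J', _, 𝒞', ch, p1, p2, p3, p4, p5, e⟩ := rev h0 (σ.symm.trans N.e) fun r => by
    rw [← a, RingEquiv.trans_apply, σ.symm_apply_apply, N.e_const]
  let N' : Pj.Model 𝒞' := ⟨X', s', ch, h0, inferInstance, p1, p2, p3, p4, p5⟩
  exact CC.bridge N' (h _ (sm_pts N N' hX h1 h2 σ
    (fun f => (DFunLike.congr_fun e _).trans (congrArg N.e (σ.symm_apply_apply f))) b c))

end Pool.Agent.MP_20d318_ag.AM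

end
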