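import Mathlib.RingTheory.ZariskisMainTheorem
import Mathlib.RingTheory.Unramified.LocalStructure
import Mathlib.RingTheory.Smooth.Fiber
import Mathlib.RingTheory.Smooth.Field
import Pool.Agent.MP_20d318_ag.AM.K6

/-! Birational contractions of a model with finitely generated section rings. -/

set_option autoImplicit false
set_option linter.unusedSectionVars false

namespace Pool.Agent.MP_20d318_ag.AM.BirA

open Pool.Agent.MP_fd6584_ag Pool.Agent.MP_fd6584_ag.Fn Pool.Agent.CBk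
open Pool.Agent.MP_fd6584_ag.AG hiding deg_inv deg_congr deg_of_unit deg_mul deg_prod deg_zpow
  deg_eq_zero deg_nonneg deg_div deg_pow
open KaehlerDifferential (D)
open scoped TensorProduct

variable {k K F : Type} [Field k] [Field K] [Field F] [Algebra k K] [Algebra k F] {n n' : ℕ}

/-- The coefficient of `d a₁ ∧ … ∧ d aₙ`. -/
noncomputable def dD (b : Module.Basis (Fin n) K Ω[K⁄k]) (a : Fin n → K) : K :=
  b.det fun i => D k K (a i)

theorem cramer (b : Module.Basis (Fin n) K Ω[K⁄k]) {a : Fin n → K} (h : dD b a ≠ 0) (x : K) :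
    D k K x = ∑ i, (dD b (Function.update a i x) / dD b a) • D k K (a i) := by
  obtain ⟨h1, h2⟩ := b.is_basis_iff_det.2 (Ne.isUnit h)
  refine ((Module.Basis.mk h1 h2.ge).sum_repr _).symm.trans (Finset.sum_congr rfl fun i _ => ?_)
  have := LinearMap.congr_fun (b.det_smul_mk_coord_eq_det_update h1 h2.ge i) (D k K x)
  rw [Module.Basis.mk_apply]
  exact congrArg (· • _) (eq_div_of_mul_eq h ((mul_comm _ _).trans
    (this.trans (congrArg b.det (Function.comp_update (D k K) a i x).symm))))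

theorem unr {O O' : Subalgebra k K} [Algebra O' O] [IsScalarTower k O' O] [IsScalarTower O' O K]
    [Algebra.FormallySmooth k O] (hf : Frac O) {b : Module.Basis (Fin n) K Ω[K⁄k]}
    (h1 : ∀ a, (∀ i, a i ∈ O) → dD b a ∈ O) {a : Fin n → O'} (hu : IsU O (dD b fun i => a i)) :
    Algebra.FormallyUnramified O' O := by
  have := Krull.isFractionRing hf
  have inj : Function.Injective (KaehlerDifferential.map k k O K) :=
    (injective_iff_map_eq_zero _).2 fun x hx => by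
      obtain ⟨s, hs⟩ := (IsLocalizedModule.eq_zero_iff (nonZeroDivisors O) _).1 hx
      exact (smul_eq_zero.1 hs).resolve_left (nonZeroDivisors.coe_ne_zero s)
  have e : ∀ i, (algebraMap O' O (a i) : K) = a i := fun i =>
    (IsScalarTower.algebraMap_apply O' O K _).symm
  refine ⟨subsingleton_of_forall_eq 0 fun y => ?_⟩
  refine (Submodule.span_le (p := ⊥)).2 ?_ ((KaehlerDifferential.span_range_derivation O' O).ge
    Submodule.mem_top)
  rintro _ ⟨x, rfl⟩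
  have hc : ∀ i, dD b (Function.update (fun i => a i) i x) / dD b (fun i => a i) ∈ O := fun i =>
    hu.div_mem (h1 _ fun j => by
      rw [Function.update_apply]
      split_ifs
      exacts [x.2, e j ▸ (algebraMap O' O (a j)).2])
  have q : D k O x = ∑ i, (⟨_, hc i⟩ : O) • D k O (algebraMap O' O (a i)) := inj (by
    simp only [map_sum, map_smul, KaehlerDifferential.map_D]
    exact (cramer b hu.1 x).trans (Finset.sum_congr rfl fun i _ => by rw [← e i]; rfl))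
  have := congrArg (KaehlerDifferential.map k O' O O) q
  simpa [map_sum, map_smul, KaehlerDifferential.map_D] using this

theorem le_of {O O' : Subalgebra k K} {G : Set K} (hG : G.Finite)
    (hO : O ∈ Pts (Algebra.adjoin k G)) (hn : Nrm O') (hd : Dom O' O)
    (hs : Algebra.FormallySmooth k O) (hf : Frac O) {b : Module.Basis (Fin n) K Ω[K⁄k]}
    (h1 : ∀ a, (∀ i, a i ∈ O) → dD b a ∈ O) {a : Fin n → K} (ha : ∀ i, a i ∈ O')
    (hu : IsU O (dD b a)) : O ≤ O' := by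
  let _ : Algebra O' O := (Subalgebra.inclusion hd.1).toAlgebra
  have : IsScalarTower k O' O := .of_algebraMap_eq fun _ => rfl
  have : IsScalarTower O' O K := .of_algebraMap_eq fun _ => rfl
  have := unr hf h1 (a := fun i => (⟨a i, ha i⟩ : O')) hu
  let S := Algebra.adjoin O' G
  have hS : ∀ x ∈ S, x ∈ O := fun x hx => by
    induction hx using Algebra.adjoin_induction with
    | mem x h => exact hO.2.1 (Algebra.subset_adjoin h)
    | algebraMap r => exact hd.1 r.2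
    | add _ _ _ _ a b => exact O.add_mem a b
    | mul _ _ _ _ a b => exact O.mul_mem a b
  have hG' : Algebra.adjoin k G ≤ S.restrictScalars k := Algebra.adjoin_le Algebra.subset_adjoin
  let _ : Algebra S O := (S.val.toRingHom.codRestrict O fun x => hS x x.2).toAlgebra
  have : IsScalarTower O' S O := .of_algebraMap_eq fun _ => rfl
  have := hO.1
  have : Algebra.FiniteType O' S := .adjoin_of_finite hG
  let q : Ideal S := (IsLocalRing.maximalIdeal O).comap (algebraMap S O)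
  have hq : ∀ y : S, y ∉ q ↔ IsU O y := fun y =>
    (IsLocalRing.notMem_maximalIdeal).trans (isU_iff_isUnit (algebraMap S O y)).symm
  have : IsLocalization.AtPrime O q :=
    { map_units := fun y => (isU_iff_isUnit _).1 ((hq y).1 y.2)
      surj := fun z => by
        obtain ⟨a, ha, b, hb, hu, hz⟩ := hO.2.2 z z.2
        refine ⟨⟨⟨a, hG' ha⟩, ⟨⟨b, hG' hb⟩, (hq _).2 hu⟩⟩, Subtype.ext ?_⟩
        change (z : K) * b = a
        rw [hz, div_mul_cancel₀ _ hu.1]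
      exists_of_eq := fun {x y} hxy => ⟨1, by
        rw [show x = y from Subtype.ext (congrArg (fun z : O => (z : K)) hxy)]⟩ }
  have : Algebra.EssFiniteType S O := .of_isLocalization O q.primeCompl
  have : Algebra.EssFiniteType O' O := .comp O' S O
  have : Algebra.QuasiFiniteAt O' q := (Algebra.QuasiFinite.iff_of_algEquiv
    ((IsLocalization.algEquiv q.primeCompl (Localization.AtPrime q) O).restrictScalars O')).2
      inferInstance
  obtain ⟨r, r1, r2, r3⟩ := Algebra.zariskisMainProperty_iff.1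
    (Algebra.ZariskisMainProperty.of_finiteType (R := O') q)
  have ru := hd.2 _ (hn _ (r2.map S.val)) ((hq r).1 r1)
  have hA : Algebra.adjoin k G ≤ O' := fun x hx => by
    obtain ⟨m, hm⟩ := r3 ⟨x, hG' hx⟩
    have := (ru.pow m).div_mem (hn _ (hm.map S.val))
    rwa [map_mul, map_pow, mul_div_cancel_left₀ _ (ru.pow m).1] at this
  intro z hz
  obtain ⟨a, ha, b, hb, hu, rfl⟩ := hO.2.2 z hz
  exact (hd.2 _ (hA hb) hu).div_mem (hA ha)

theorem isLoc {S : Type} [CommRing S] [Algebra S K] {O : Subalgebra k K} [Algebra S O]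
    [IsScalarTower S O K] [FaithfulSMul S K]
    (h : ∀ z ∈ O, ∃ a b : S, IsU O (algebraMap S K b) ∧ z = algebraMap S K a / algebraMap S K b) :
    IsLocalization ((IsUnit.submonoid O).comap (algebraMap S O)) O :=
  have e : ∀ a, (algebraMap S O a : K) = algebraMap S K a := fun a =>
    (IsScalarTower.algebraMap_apply S O K a).symm
  { map_units := fun y => y.2
    surj := fun z => by
      obtain ⟨a, b, hu, hz⟩ := h z z.2
      refine ⟨⟨a, b, (isU_iff_isUnit (algebraMap S O b)).1 (e b ▸ hu)⟩, Subtype.ext ?_⟩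
      change (z : K) * algebraMap S O b = algebraMap S O a
      rw [e, e, hz, div_mul_cancel₀ _ hu.1]
    exists_of_eq := fun {x y} hxy => ⟨1, by
      rw [show x = y from FaithfulSMul.algebraMap_injective S K (by rw [← e, ← e, hxy])]⟩ }

theorem fs_pl [IsAlgClosed k] {P : Place k K} {G : Set K} (hG : G.Finite)
    (hP : plO P ∈ Pts (Algebra.adjoin k G)) : Algebra.FormallySmooth k (plO P) := by
  have hl := hP.1
  have p1 : P.unif ∈ mx (plO P) := (mx_plO P.unif_ne).2 (by simp)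
  obtain ⟨A, a1, a2⟩ := exists_ctr hl (R := Algebra.adjoin k {P.unif})
    (Algebra.adjoin_le (Set.singleton_subset_iff.2 p1.1))
  have := a1.1
  let e := Polynomial.algEquivOfTranscendental k P.unif (P.transcendental (by simp))
  have : Algebra.FormallySmooth k (Algebra.adjoin k {P.unif}) := .of_equiv e
  have : IsPrincipalIdealRing (Algebra.adjoin k {P.unif}) := .of_surjective e e.surjective
  let _ : Algebra (Algebra.adjoin k {P.unif}) A := (Subalgebra.inclusion a1.2.1).toAlgebra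
  have : IsScalarTower k (Algebra.adjoin k {P.unif}) A := .of_algebraMap_eq fun _ => rfl
  have : IsScalarTower (Algebra.adjoin k {P.unif}) A K := .of_algebraMap_eq fun _ => rfl
  have := isLoc (S := Algebra.adjoin k {P.unif}) (O := A) fun z hz =>
    let ⟨a, b, c, d, q⟩ := a1.2.2 z hz; ⟨⟨a, b⟩, ⟨c, d⟩, q⟩
  have := Algebra.FormallySmooth.of_isLocalization (Rₘ := A)
    ((IsUnit.submonoid A).comap (algebraMap (Algebra.adjoin k {P.unif}) A))
  have : Algebra.FormallySmooth k A := .comp k (Algebra.adjoin k {P.unif}) A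
  have : IsDedekindDomain A := IsLocalization.isDedekindDomain _
    (M := (IsUnit.submonoid A).comap (algebraMap (Algebra.adjoin k {P.unif}) A))
    (fun x hx => mem_nonZeroDivisors_of_ne_zero fun z => IsUnit.ne_zero hx (by rw [z, map_zero])) A
  let _ : Algebra A (plO P) := (Subalgebra.inclusion a2.1).toAlgebra
  have : IsScalarTower k A (plO P) := .of_algebraMap_eq fun _ => rfl
  have : IsScalarTower A (plO P) K := .of_algebraMap_eq fun _ => rfl
  have : FaithfulSMul A (plO P) :=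
    (faithfulSMul_iff_algebraMap_injective _ _).2 (Subalgebra.inclusion_injective _)
  have : IsLocalHom (algebraMap A (plO P)) := ⟨fun a h =>
    (isU_iff_isUnit a).1 (a2.2 _ a.2 ((isU_iff_isUnit (algebraMap A (plO P) a)).2 h))⟩
  let S := Algebra.adjoin A G
  have hS : ∀ x ∈ S, x ∈ plO P := fun x hx => by
    induction hx using Algebra.adjoin_induction with
    | mem x h => exact hP.2.1 (Algebra.subset_adjoin h)
    | algebraMap r => exact a2.1 r.2
    | add _ _ _ _ a b => exact add_mem a b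
    | mul _ _ _ _ a b => exact mul_mem a b
  have hG' : Algebra.adjoin k G ≤ S.restrictScalars k := Algebra.adjoin_le Algebra.subset_adjoin
  let _ : Algebra S (plO P) := (S.val.toRingHom.codRestrict _ fun x => hS x x.2).toAlgebra
  have : IsScalarTower A S (plO P) := .of_algebraMap_eq fun _ => rfl
  have : IsScalarTower S (plO P) K := .of_algebraMap_eq fun _ => rfl
  have : Algebra.FinitePresentation A S :=
    Algebra.FinitePresentation.of_finiteType.1 (.adjoin_of_finite hG)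
  have := isLoc (S := S) (O := plO P) fun z hz =>
    let ⟨a, b, c, d, q⟩ := hP.2.2 z hz; ⟨⟨a, hG' b⟩, ⟨c, hG' d⟩, q⟩
  have : Algebra.EssFiniteType S (plO P) :=
    .of_isLocalization _ ((IsUnit.submonoid (plO P)).comap (algebraMap S (plO P)))
  have : Algebra.EssFiniteType A (plO P) := .comp A S _
  have pA : P.unif ∈ mx A := mx_of_le a2.1 (a1.2.1 (Algebra.subset_adjoin rfl)) p1
  have : Algebra.IsAlgebraic k (IsLocalRing.ResidueField A) := ⟨fun x => by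
    obtain ⟨y, rfl⟩ := IsLocalRing.residue_surjective x
    obtain ⟨c, hc⟩ := ratPt_of a1 rfl (fun g hg => ⟨0, by rw [hg]; simpa using pA⟩) y y.2
    have := (IsLocalRing.residue_eq_zero_iff _).2 ((mem_mx_iff (y - algebraMap k A c)).1 hc)
    rw [map_sub, sub_eq_zero] at this
    exact this ▸ isAlgebraic_algebraMap c⟩
  have := Algebra.IsAlgebraic.perfectField k (L := IsLocalRing.ResidueField A)
  have fl : IsField (IsLocalRing.ResidueField A ⊗[A] plO P) := by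
    have := (Algebra.TensorProduct.lift (Algebra.ofId (IsLocalRing.ResidueField A)
      (IsLocalRing.ResidueField (plO P))) (IsScalarTower.toAlgHom A (plO P) _)
        fun _ _ => Commute.all _ _).toRingHom.domain_nontrivial
    refine ⟨exists_pair_ne _, mul_comm, fun {x} hx => isUnit_iff_exists_inv.1 ?_⟩
    obtain ⟨r, rfl⟩ := Algebra.TensorProduct.includeRight_surjective (T := plO P)
      IsLocalRing.residue_surjective x
    refine ((isU_iff_isUnit r).1 (by_contra fun h => hx ?_)).map _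
    by_cases r0 : (r : K) = 0
    · rw [show r = 0 from Subtype.ext r0, map_zero]
    have q : r / P.unif ∈ plO P := mem_plO_ord.2 (by
      have := (mx_plO r0).1 ⟨r.2, h⟩
      rw [P.ord_div r0 P.unif_ne, P.ord_unif]
      omega)
    rw [show r = (⟨_, pA.1⟩ : A) • ⟨_, q⟩ from Subtype.ext (mul_div_cancel₀ _ P.unif_ne).symm,
      map_smul, Algebra.smul_def, IsScalarTower.algebraMap_apply A (IsLocalRing.ResidueField A),
      show algebraMap A (IsLocalRing.ResidueField A) ⟨_, pA.1⟩ = 0 from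
        (IsLocalRing.residue_eq_zero_iff _).2 ((mem_mx_iff _).1 pA), map_zero, zero_mul]
  let _ := fl.toField
  have := Algebra.FormallySmooth.of_formallySmooth_residueField_tensor (R := A) (S := plO P)
    ((IsUnit.submonoid (plO P)).comap (algebraMap S (plO P)))
  exact .comp k A _

theorem pl [IsAlgClosed k] {X Z : Set (Subalgebra k K)} (hZ : Nice Z) (hX : Nice X)
    {b : Module.Basis (Fin n) K Ω[K⁄k]} {b' : Module.Basis (Fin n') K Ω[K⁄k]} {m : ℕ} {c : K}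
    (m0 : 0 < m) (c0 : c ≠ 0)
    (h : ∀ Q : Place k K, plO Q ∈ Z → ∀ a, (∀ i, a i ∈ plO Q) → c * dD b a ^ m ∈ plO Q)
    (h' : ∀ O ∈ X, ∃ a, (∀ i, a i ∈ O) ∧ IsU O (dD b' a)) {P : Place k K} (hP : plO P ∈ Z) :
    plO P ∈ X := by
  obtain rfl : n = n' := by
    simpa using (Module.finrank_eq_card_basis b).symm.trans (Module.finrank_eq_card_basis b')
  have e : ∀ a, c * dD b a ^ m = c * b.det b' ^ m * dD b' a ^ m := fun a => by
    rw [show dD b a = b.det b' * dD b' a from DFunLike.congr_fun (b.det.eq_smul_basis_det b') _,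
      mul_pow, mul_assoc]
  obtain ⟨t, ht⟩ := Algebra.mem_bot.1 (PtdA.const hZ.toGood (φ := c * b.det b' ^ m) fun O hO =>
    hZ.krull hO fun Q hQ _ => by
      obtain ⟨O', o, d⟩ := hX.cpl _ (plO_isVal Q)
      obtain ⟨a, ha, u⟩ := h' O' o
      have := ((u.mono d.1).pow m).div_mem (e a ▸ h Q hQ a fun i => d.1 (ha i))
      rwa [mul_div_cancel_right₀ _ (u.pow m).1] at this)
  have u0 : IsU (plO P) (c * b.det b' ^ m) := ht ▸ isU_const fun z =>
    mul_ne_zero c0 (pow_ne_zero m (b.isUnit_det b').ne_zero) (by rw [← ht, z, map_zero])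
  obtain ⟨O, hO, d⟩ := hX.cpl _ (plO_isVal P)
  obtain ⟨a, ha, u⟩ := h' O hO
  obtain ⟨G, g1, -, g2⟩ := hZ.toFine.chart hP
  refine le_antisymm (le_of g1 g2 (hX.nrm O hO) d (fs_pl g1 g2) (hZ.toFine.frac hP)
    (fun a ha => mem_plO_ord.2 ?_) ha (u.mono d.1)) d.1 ▸ hO
  have := u0.div_mem (e a ▸ h P hP a ha)
  rw [mul_div_cancel_left₀ _ u0.1, mem_plO_ord, P.ord_pow] at this
  exact nonneg_of_mul_nonneg_right this (by exact_mod_cast m0)

theorem tr (ε : F ≃ₐ[k] K) (b : Module.Basis (Fin n) F Ω[F⁄k]) :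
    ∃ b' : Module.Basis (Fin n) K Ω[K⁄k], ∀ a, dD b' (fun i => ε (a i)) = ε (dD b a) := by
  let _ : Algebra F K := ε.toRingHom.toAlgebra
  have : IsScalarTower k F K := .of_algebraMap_eq fun r => (ε.commutes r).symm
  have : IsFractionRing F K := .of_field F K fun z => ⟨ε.symm z, 1, by
    rw [map_one, div_one]; exact (ε.apply_symm_apply z).symm⟩
  refine ⟨b.ofIsLocalizedModule K (nonZeroDivisors F) (KaehlerDifferential.map k k F K), fun a => ?_⟩
  rw [dD, dD, Module.Basis.det_apply, Module.Basis.det_apply]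
  refine .trans (congrArg _ (Matrix.ext fun i j => ?_)) ((algebraMap F K).map_det _).symm
  rw [Module.Basis.toMatrix_apply, show D k K (ε (a j)) = _ from
    (KaehlerDifferential.map_D k k F K (a j)).symm, Module.Basis.ofIsLocalizedModule_repr_apply]
  rfl

end Pool.Agent.MP_20d318_ag.AM.BirA

namespace Pool.Agent.MP_20d318_ag.AM.CT

open Pool.Agent.MP_fd6584_ag Pool.Agent.MP_fd6584_ag.Fn Pool.Agent.CBk
open Pool.Agent.MP_fd6584_ag.AG hiding deg_inv deg_congr deg_of_unit deg_mul deg_prod deg_zpow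
  deg_eq_zero deg_nonneg deg_div deg_pow
open Pool.Agent.MP_20d318_ag.CH (cl cl_val cl_mem cl_eff n1_ext n1_eq)
open Pool.Agent.MP_20d318_ag.Lat (cone IsCone RP isCone_cone subset_cone cone_mono)
open Filter Topology

variable {k K : Type} [Field k] [Field K] [Algebra k K] (X Z : Set (Subalgebra k K))

/-- Projective models whose prime divisors are prime divisors of `X` with a Cartier multiple. -/
structure Ct : Prop where
  nice : Nice Z
  pl : ∀ P : Place k K, plO P ∈ Z → plO P ∈ X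
  qf : ∀ P : Place k K, plO P ∈ Z → ∃ f, IsCart Z f ∧ ∀ P' : Place k K, plO P' ∈ Z →
    (P'.ord (f (plO P')) = 0 ↔ P' ≠ P)
  ch : ∃ (J : Type) (_ : Finite J) (𝒞 : Pj.Charts k K J), Z = Sch.pts 𝒞

/-- `f` is the pull-back of `f'`. -/
def Pb (f f' : Subalgebra k K → K) : Prop :=
  ∀ P : Place k K, plO P ∈ X → ∀ O ∈ Z, O ≤ plO P → P.ord (f' O) = P.ord (f (plO P))

/-- A multiple of `f` is principal over every point of `Z`. -/
def Lb (f : Subalgebra k K → K) : Prop := ∀ O ∈ Z, ∃ (β : K) (a : ℕ), β ≠ 0 ∧ 0 < a ∧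
  ∀ P : Place k K, plO P ∈ X → O ≤ plO P → P.ord β = a * P.ord (f (plO P))

/-- The classes that come from `Z`. -/
def WW : Submodule ℝ (AG.N1 X) := Submodule.span ℝ {x | ∃ f, IsCart X f ∧ Lb X Z f ∧ cl X f = x}

/-- The map on classes. -/
structure Ps (Ψ : AG.N1 X →ₗ[ℝ] AG.N1 Z) : Prop where
  mt : ∀ f f' (m : ℕ), IsCart X f → IsCart Z f' → Mt Z f f' m → m • Ψ (cl X f) = cl Z f'
  surj : ∀ y, ∃ x ∈ WW X Z, Ψ x = y
  ef : ∀ x ∈ Glue.Ef X, Ψ x ∈ Glue.Ef Z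
  ef' : ∀ y ∈ Glue.Ef Z, ∃ x ∈ Glue.Ef X ∩ WW X Z, Ψ x = y
  aut : ∀ (g : AG.Aut X) (g' : AG.Aut Z), g.1 = g'.1 → ∀ x, Ψ (g.n1 x) = g'.n1 (Ψ x)

variable {X Z} {e e' f f' g g' : Subalgebra k K → K} {m m' : ℕ} {O : Subalgebra k K}
  {x ρ : AG.N1 X} {Ψ : AG.N1 X →ₗ[ℝ] AG.N1 Z}

theorem Ct.md (h : Ct X Z) : Md X Z :=
  ⟨h.nice.toGood, fun _ hO _ ha => h.nice.krull hO fun P a => ha P (h.pl P a)⟩

theorem Pb.mt (h : Pb X Z f f') (s : Ct X Z) : Mt Z f f' 1 := fun P hP => by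
  rw [h P (s.pl P hP) _ hP le_rfl, Nat.cast_one, one_mul]

theorem Pb.lb (h : Pb X Z f f') (hf : IsCart Z f') : Lb X Z f := fun O hO =>
  ⟨f' O, 1, hf.ne hO, one_pos, fun P a b => by rw [h P a O hO b, Nat.cast_one, one_mul]⟩

theorem Lb.inv (h : Lb X Z f) : Lb X Z f⁻¹ := fun O hO =>
  let ⟨β, a, b, c, d⟩ := h O hO
  ⟨β⁻¹, a, inv_ne_zero b, c, fun P p q => by rw [P.ord_inv, d P p q, Pi.inv_apply, P.ord_inv]; ring⟩

theorem lb_of (r : Ref X) (h : ∀ O ∈ Z, SaAt X x O) (he : IsCart X e) (hm : 0 < m)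
    (c : cl X e = m • x) : Lb X Z e := fun O hO => by
  obtain ⟨n, d, n0, d1, d2, d3⟩ := h O hO
  obtain ⟨β, a, b, b0, -, b1, q⟩ := r.bet x d e n m n0 hm d1.1 he d2 c
  exact ⟨β, b, b0, b1, fun P p p' => by rw [q P p, d3 P p p', mul_zero, sub_zero]⟩

theorem Ct.up (s : Ct X Z) (r : Ref X) (hf : IsCart X f) :
    ∃ (m : ℕ) (f' : Subalgebra k K → K), 0 < m ∧ IsCart Z f' ∧ Mt Z f f' m :=
  UpdA.exists_mul s.qf (fun P => P.ord (f (plO P)))
    ((r.nice.toFine.fin_cart hf).subset fun P hP => ⟨s.pl P hP.1, hP.2⟩)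

variable [IsAlgClosed k]

theorem Ct.dn (s : Ct X Z) (r : Ref X) (hf' : IsCart Z f') : ∃ f, IsCart X f ∧ Pb X Z f f' := by
  have hZ := s.nice.toGood
  choose c c1 c2 using fun P : Place k K => hZ.cpl _ (plO_isVal P)
  obtain ⟨F, a1, a2, a3⟩ := cpt_stmt k K Z s.nice.toFine
    {e | ∃ u, u ≠ 0 ∧ e = fun O => u * f' O} (by
      rintro _ ⟨u, hu, rfl⟩
      exact (isCart_const hu).mul hf') fun O hO => ⟨_, ⟨_, inv_ne_zero (hf'.ne hO), rfl⟩, by
        rw [inv_mul_cancel₀ (hf'.ne hO)]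
        exact isU_one⟩
  choose! u u1 u2 using fun e (h : e ∈ F) => a1 h
  obtain ⟨f, a, b⟩ := Pool.Agent.MVg.PullA.exists_cart r.fac (fun P => P.ord (f' (c P)))
    ((a2.biUnion fun e _ => r.nice.toFine.fin (u e)).subset fun P hP => by
      obtain ⟨e, e1, e2⟩ := a3 _ (c1 P)
      refine Set.mem_biUnion e1 ⟨hP.1, fun z => hP.2 ?_⟩
      have := ((isU_plO' P).1 (e2.mono (c2 P).1)).2
      rwa [u2 e e1, P.ord_mul (u1 e e1) (hf'.ne (c1 P)), z, zero_add] at this)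
  refine ⟨f, a, fun P hP O hO hle => ?_⟩
  obtain ⟨O', o1, o2⟩ := exists_ctr (plO_isVal P).isLocalRing hle
  obtain rfl := hZ.sep _ (hZ.pts hO o1) _ (c1 P) _ (plO_isVal P).isLocalRing o2 (c2 P)
  have h := ((isU_plO' P).1 ((hf'.unit hO (c1 P) o1.2.1).mono o2.1)).2
  rw [P.ord_div (hf'.ne hO) (hf'.ne (c1 P))] at h
  rw [b P hP]
  omega

theorem lc_W (r : Ref X) (h : Lc X Z x) (hZ : Good Z) : x ∈ WW X Z := by
  obtain ⟨O, hO, -⟩ := hZ.cpl ⊤ fun _ => Or.inl trivial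
  obtain ⟨m, e, m0, e1, e2, -⟩ := h.2 O hO
  have := (WW X Z).smul_mem (m : ℝ)⁻¹ (Submodule.subset_span
    ⟨e, e1.1, lb_of r (fun O hO => (h.2 O hO).sa) e1.1 m0 e2, e2⟩)
  rwa [← Nat.cast_smul_eq_nsmul ℝ, inv_smul_smul₀ (by positivity)] at this

open PsiA (canc n1_cl)

theorem key (r : Ref X) (s : Ct X Z) (hf : IsCart X f) (hg : IsCart X g) (hf' : IsCart Z f')
    (hg' : IsCart Z g') (a : Mt Z f f' m) (b : Mt Z g g' m') (e : cl X f = cl X g) :
    m' • cl Z f' = m • cl Z g' := by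
  have gX : Good X := r.nice.toFine.toGood
  have gZ : Good Z := s.nice.toFine.toGood
  obtain ⟨n, μ, hn, h⟩ := r.nl (f / g) (hf.div hg) (by rw [cl_div gX hf hg, e, sub_self])
  obtain ⟨O, hO, -⟩ := gX.cpl ⊤ fun _ => Or.inl trivial
  have hμ : μ ≠ 0 := left_ne_zero_of_mul (h O hO).1
  have h1 : cl Z (f' ^ (n * m')) = cl Z (g' ^ (n * m)) := by
    refine cl_lin gZ (hf'.pow _) (hg'.pow _) (μ := μ ^ (m * m')) fun O hO => ?_
    refine s.nice.unit_div (f := fun O => μ ^ (m * m') * (f' ^ (n * m')) O)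
      ((isCart_const (pow_ne_zero _ hμ)).mul (hf'.pow _)) (hg'.pow _) hO fun P hP => ?_
    have hX := s.pl P hP
    have h2 := ((isU_plO' P).1 (h _ hX)).2
    rw [P.ord_mul hμ (pow_ne_zero _ ((hf.div hg).ne hX)), P.ord_pow, Pi.div_apply,
      P.ord_div (hf.ne hX) (hg.ne hX)] at h2
    rw [P.ord_mul (pow_ne_zero _ hμ) ((hf'.pow _).ne hP), Pi.pow_apply, Pi.pow_apply, P.ord_pow,
      P.ord_pow, P.ord_pow, a P hP, b P hP]
    push_cast
    linear_combination ((m : ℤ) * m') * h2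
  rw [cl_pow gZ hf', cl_pow gZ hg', mul_smul, mul_smul] at h1
  exact canc hn h1

variable (X Z) in
/-- The graph of the map. -/
def Rel (x : AG.N1 X) (y : AG.N1 Z) : Prop := ∃ (f f' : Subalgebra k K → K) (m : ℕ), 0 < m ∧
  IsCart X f ∧ IsCart Z f' ∧ Mt Z f f' m ∧ cl X f = x ∧ m • y = cl Z f'

theorem Rel.mt (r : Ref X) (s : Ct X Z) {y : AG.N1 Z} (h : Rel X Z (cl X f) y) (hf : IsCart X f)
    (hf' : IsCart Z f') (a : Mt Z f f' m) : m • y = cl Z f' := by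
  obtain ⟨g, g', n, hn, hg, hg', b, e, e'⟩ := h
  refine canc hn ?_
  rw [smul_comm, e', key r s hf hg hf' hg' a b e.symm]

theorem Rel.add (r : Ref X) (s : Ct X Z) {x x' : AG.N1 X} {y y' : AG.N1 Z} (h : Rel X Z x y)
    (h' : Rel X Z x' y') : Rel X Z (x + x') (y + y') := by
  obtain ⟨f, f', m, hm, hf, hf', a, rfl, e⟩ := h
  obtain ⟨g, g', n, hn, hg, hg', b, rfl, e'⟩ := h'
  have gZ : Good Z := s.nice.toFine.toGood
  refine ⟨f * g, f' ^ n * g' ^ m, m * n, Nat.mul_pos hm hn, hf.mul hg, (hf'.pow n).mul (hg'.pow m),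
    fun P hZ => ?_, cl_mul r.nice.toFine.toGood hf hg, ?_⟩
  · have hP := s.pl P hZ
    rw [Pi.mul_apply, Pi.mul_apply, P.ord_mul ((hf'.pow n).ne hZ) ((hg'.pow m).ne hZ),
      P.ord_mul (hf.ne hP) (hg.ne hP), Pi.pow_apply, Pi.pow_apply, P.ord_pow, P.ord_pow, a P hZ,
      b P hZ]
    push_cast
    ring
  · rw [cl_mul gZ (hf'.pow n) (hg'.pow m), cl_pow gZ hf', cl_pow gZ hg', ← e, ← e', smul_add,
      smul_smul, smul_smul, mul_comm n m]

theorem psi (r : Ref X) (s : Ct X Z) : ∃ Ψ, Ps X Z Ψ := by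
  have ex : ∀ x : LL X, ∃ y, Rel X Z x y := fun x => by
    obtain ⟨f, hf, e⟩ := (mem_LL r.nice.toFine.toGood).1 x.2
    obtain ⟨m, f', hm, hf', a⟩ := s.up r hf
    refine ⟨(m : ℝ)⁻¹ • cl Z f', f, f', m, hm, hf, hf', a, e, ?_⟩
    rw [← Nat.cast_smul_eq_nsmul ℝ, smul_inv_smul₀ (by positivity)]
  choose F hF using ex
  obtain ⟨Ψ, hΨ⟩ := ext_stmt sol_stmt (AG.N1 X) (AG.N1 Z) (LL X) (lt_LL r.fd)
    (AddMonoidHom.mk' F fun a b => by
      obtain ⟨g, g', n, hn, hg, hg', c, q, e'⟩ := (hF a).add r s (hF b)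
      exact canc hn (((q ▸ hF (a + b) : Rel X Z (cl X g) _).mt r s hg hg' c).trans e'.symm))
  have mt : ∀ f f' (m : ℕ), IsCart X f → IsCart Z f' → Mt Z f f' m →
      m • Ψ (cl X f) = cl Z f' := fun f f' m hf hf' a => by
    rw [hΨ ⟨cl X f, cl_mem hf⟩]
    exact (hF ⟨cl X f, cl_mem hf⟩).mt r s hf hf' a
  have dn : ∀ D : Cartier Z, ∃ f, IsCart X f ∧ Pb X Z f D.f ∧ cl X f ∈ WW X Z ∧
      Ψ (cl X f) = D.n1 := fun D => by
    obtain ⟨f, hf, a⟩ := s.dn r D.isCart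
    exact ⟨f, hf, a, Submodule.subset_span ⟨f, hf, a.lb D.isCart, rfl⟩,
      by rw [n1_eq, ← mt f D.f 1 hf D.isCart (a.mt s), one_smul]⟩
  refine ⟨Ψ, mt, fun y => ?_, ?_, ?_, fun g g' e x => ?_⟩
  · refine (Submodule.span_le (p := (WW X Z).map Ψ)).2 ?_ (CH.span_cl.ge (Submodule.mem_top (x := y)))
    rintro _ ⟨D, rfl⟩
    obtain ⟨f, -, -, h⟩ := dn D
    exact ⟨_, h⟩
  · refine fun x hx => ((isCone_cone _).preimage Ψ).cone_subset ?_ hx
    rintro _ ⟨D, hD, rfl⟩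
    obtain ⟨m, f', hm, hf', a⟩ := s.up r D.isCart
    have h1 : Ed Z f' := ed_of s.nice hf' fun P hP => by
      rw [a P hP]
      exact mul_nonneg (Int.natCast_nonneg m) (mem_plO_ord.1 (hD _ (s.pl P hP)))
    refine IsCone.of_nsmul (isCone_cone _) hm ?_
    rw [n1_eq, mt D.f f' m D.isCart hf' a]
    exact h1.ef
  · have c : IsCone (Glue.Ef X ∩ WW X Z) := (isCone_cone _).inter
      ⟨zero_mem _, fun _ a _ b => add_mem a b, fun c _ _ a => Submodule.smul_mem _ c a⟩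
    refine fun y hy => (c.image Ψ).cone_subset ?_ hy
    rintro _ ⟨D, hD, rfl⟩
    obtain ⟨f, hf, a, w, h⟩ := dn D
    have h1 : Ed X f := ed_of r.nice hf fun P hP => by
      obtain ⟨O, hO, d⟩ := s.nice.cpl _ (plO_isVal P)
      exact a P hP O hO d.1 ▸ mem_plO_ord.1 (d.1 (hD O hO))
    exact ⟨_, ⟨h1.ef, w⟩, h⟩
  · refine LinearMap.congr_fun (CH.lin_ext (a := Ψ ∘ₗ g.n1) (b := g'.n1 ∘ₗ Ψ) fun f hf => ?_) x
    obtain ⟨m, f', hm, hf', a⟩ := s.up r hf
    refine canc hm ?_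
    rw [LinearMap.comp_apply, LinearMap.comp_apply, ← map_nsmul g'.n1, mt f f' m hf hf' a,
      n1_cl g hf, n1_cl g' hf']
    refine mt _ _ m (Cartier.isCart _) (Cartier.isCart _) fun P hP => ?_
    have := a (MVg.pc g'.1 P) ((g'.2 _).1 hP)
    change _ = _ * P.ord (g.1 (f ((plO P).comap (g.1 : K →ₐ[k] K))))
    rw [e]
    exact this

theorem unit (s : Ct X Z) (h : IsCart Z e') (t : Mt Z e e' m) (hO : O ∈ Z) (u : Un X e O) :
    IsU O (e' O) :=
  s.nice.unit h hO fun P a b => by rw [t P a, u P (s.pl P a) b, mul_zero]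

theorem un (s : Ct X Z) (h : IsCart Z e') (t : Mt Z e e' m) (hm : 0 < m) (hO : O ∈ Z)
    (l : Lb X Z e) (u : IsU O (e' O)) : Un X e O := fun P a b => by
  obtain ⟨β, n, b0, n0, q⟩ := l O hO
  have h3 := s.nice.unit (isCart_const b0) hO fun Q a b => by
    have h2 := ((isU_plO' Q).1 (u.mono b)).2
    rw [B2.ord_eq h hO a b, t Q a] at h2
    rw [q Q (s.pl Q a) b, (mul_eq_zero.1 h2).resolve_left (by exact_mod_cast hm.ne'), mul_zero]
  have h4 := ((isU_plO' P).1 (h3.mono b)).2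
  rw [q P a b] at h4
  exact (mul_eq_zero.1 h4).resolve_left (by exact_mod_cast n0.ne')

theorem eff (s : Ct X Z) (h : IsCart Z e') (t : Mt Z e e' m) (d : Ed X e) : ∀ O ∈ Z, e' O ∈ O :=
  fun _ hO => s.nice.eff h hO fun P a _ => by
    rw [t P a]
    exact mul_nonneg (Int.natCast_nonneg m) (d.ord (s.pl P a))

theorem val (p : Ps X Z Ψ) (he : IsCart X e) (h : IsCart Z e') (t : Mt Z e e' m) (ν : AG.Curve Z) :
    (m : ℝ) * ν.lin (Ψ (cl X e)) = ν.deg e' := by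
  rw [← cl_val h, ← p.mt e e' m he h t, map_nsmul, nsmul_eq_mul]

theorem dg (r : Ref X) (s : Ct X Z) (p : Ps X Z Ψ) : Dg X Z Ψ := by
  have hZ := s.nice.toGood
  refine ⟨fun ν => IsCone.cone_subset (S := {x | 0 ≤ ν.lin (Ψ x)}) ⟨?_, fun x a y b => ?_,
    fun c hc x a => ?_⟩ ?_, fun ν e he h => ?_, fun x hx ν hν => ?_⟩
  · simp
  · simpa using add_nonneg a b
  · simpa using mul_nonneg hc a
  · rintro x ⟨-, m, e, hm, d, c, u⟩
    obtain ⟨m', e', hm', h, t⟩ := s.up r d.1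
    have h1 := val p d.1 h t ν
    have h2 : (0 : ℝ) ≤ ν.deg e' := by
      exact_mod_cast deg_nonneg hZ h (eff s h t d) ν (unit s h t ν.gen_mem u)
    rw [← h1, c, map_nsmul, map_nsmul, nsmul_eq_mul, ← mul_assoc] at h2
    exact nonneg_of_mul_nonneg_right h2 (by positivity)
  · obtain ⟨m', e', hm', h', t⟩ := s.up r he
    obtain ⟨Q⟩ : Nonempty (Place k ν.L) := inferInstance
    have h1 := val p he h' t ν
    rw [deg_of_unit hZ h' ν (unit s h' t ν.gen_mem ((h Q).mono (ν.pt_le Q))),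
      finsum_eq_zero_of_forall_eq_zero fun P => ν.ord_unit P (unit s h' t (ν.pt_mem P) (h P)),
      Int.cast_zero] at h1
    exact (mul_eq_zero.1 h1).resolve_left (by exact_mod_cast hm'.ne')
  · obtain ⟨Q⟩ : Nonempty (Place k ν.L) := inferInstance
    obtain ⟨m, e, hm, d, c, u, l⟩ := hx.2 _ (ν.pt_mem Q)
    obtain ⟨m', e', hm', h, t⟩ := s.up r d.1
    have h1 := val p d.1 h t ν
    rw [c, map_nsmul, map_nsmul, nsmul_eq_mul, ← mul_assoc] at h1
    by_contra hn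
    have h2 : ν.deg e' ≤ 0 := by
      have : (ν.deg e' : ℝ) ≤ 0 := h1 ▸ mul_nonpos_of_nonneg_of_nonpos (by positivity) (not_lt.1 hn)
      exact_mod_cast this
    exact hν (DegA.ratPt hZ ν (fun P => BB_le (s.md.kr _ (ν.pt_mem P)) (un s h t hm' (ν.pt_mem P)
      (lb_of r (fun O hO => (hx.2 O hO).sa) d.1 hm c) (DegA.unit_pt hZ h (eff s h t d) ν
        (unit s h t ν.gen_mem (u.mono (ν.pt_le Q))) h2 P))) Q l)

open HypA in
theorem hyp (r : Ref X) (s : Ct X Z) : ∃ a, Lc X Z a := by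
  obtain ⟨J, _, 𝒞, hZ⟩ := s.ch
  have hX : Good X := r.nice.toGood
  have hγ : IsCart Z (gn (Set.range 𝒞.f)) :=
    isCart_of_gn (Set.finite_range _) fun O hO => gn_pts 𝒞 (hZ ▸ hO)
  obtain ⟨g, hg, hm⟩ := s.dn r hγ
  refine ⟨cl X g⁻¹, cl_mem hg.inv, fun O hO => ?_⟩
  obtain ⟨j, hj⟩ := Set.mem_iUnion.1 (show O ∈ Sch.pts 𝒞 from hZ ▸ hO)
  have ho : ∀ P : Place k K, plO P ∈ X → ∃ i, 𝒞.B i ≤ plO P ∧
      P.ord (𝒞.f j * g⁻¹ (plO P)) = P.ord (𝒞.f j / 𝒞.f i) := fun P hP => by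
    obtain ⟨O', o1, o2⟩ := s.nice.cpl _ (plO_isVal P)
    obtain ⟨i, hi⟩ := Set.mem_iUnion.1 (show O' ∈ Sch.pts 𝒞 from hZ ▸ o1)
    have := ((isU_plO' P).1 (((gn_pts 𝒞 (hZ ▸ o1)).unit (gn_chart 𝒞 hi.2.1)).mono o2.1)).2
    rw [P.ord_div (hγ.ne o1) (𝒞.f_ne i), hm P hP O' o1 o2.1] at this
    refine ⟨i, hi.2.1.trans o2.1, ?_⟩
    rw [Pi.inv_apply, ← div_eq_mul_inv, P.ord_div (𝒞.f_ne j) (hg.ne hP),
      P.ord_div (𝒞.f_ne j) (𝒞.f_ne i), sub_eq_zero.1 this]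
  have hc : IsCart X fun O => 𝒞.f j * g⁻¹ O := (isCart_const (𝒞.f_ne j)).mul hg.inv
  refine ⟨1, fun O => 𝒞.f j * g⁻¹ O, one_pos, ed_of r.nice hc fun P hP => ?_, ?_,
    fun P hP hle => ?_, fun a ha => ?_⟩
  · obtain ⟨i, a, b⟩ := ho P hP
    exact b ▸ mem_plO_ord.1 (a (𝒞.ratio j i))
  · rw [one_smul]
    exact cl_cmul hX hg.inv (𝒞.f_ne j)
  · obtain ⟨i, a, b⟩ := ho P hP
    exact b.trans ((isU_plO' P).1 ((gn_chart 𝒞 (hj.2.1.trans hle)).unit (gn_chart 𝒞 a))).2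
  · have hB : 𝒞.B j ≤ BB X fun O => 𝒞.f j * g⁻¹ O := fun c hc P hP h0 => by
      obtain ⟨i, a, b⟩ := ho P hP
      have u2 : IsU (plO P) (𝒞.f j / 𝒞.f i) :=
        (isU_plO' P).2 ⟨div_ne_zero (𝒞.f_ne j) (𝒞.f_ne i), b.symm.trans h0⟩
      obtain ⟨N, hN⟩ := 𝒞.comp j i c hc
      have := (u2.pow N).div_mem (a hN)
      rwa [mul_div_cancel_left₀ _ (u2.pow N).1] at this
    obtain ⟨b, hb, c, hc, hu, e⟩ := hj.2.2 a ha
    exact ⟨b, hB hb, c, hB hc, hu, e⟩

theorem one (hX : Nice X) (hρ : Lc X Z ρ) (hO : O ∈ Z) (hf : IsCart X f) (l : Lb X Z f) :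
    ∃ N : ℝ, 0 < N ∧ N • ρ + cl X f ∈ SO X O := by
  obtain ⟨β, m, b0, m0, f2⟩ := l O hO
  have c0 := inv_ne_zero b0
  obtain ⟨N, N0, hN⟩ := AmpA.un (g := fun O' => β⁻¹ * (f ^ m) O') hX hρ.1 (hρ.2 O hO)
    ((isCart_const c0).mul (hf.pow m)) fun P hP h => by
      simp only [Pi.pow_apply]
      rw [P.ord_mul c0 (pow_ne_zero _ (hf.ne hP)), P.ord_inv, P.ord_pow, f2 P hP h, neg_add_cancel]
  rw [cl_cmul hX.toGood (hf.pow m) c0, cl_pow hX.toGood hf] at hN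
  have m1 : (0 : ℝ) < m := by exact_mod_cast m0
  refine ⟨N / m, by positivity, IsCone.of_nsmul isCone_SO m0 ?_⟩
  rwa [smul_add, ← Nat.cast_smul_eq_nsmul ℝ m, smul_smul, mul_div_cancel₀ _ m1.ne',
    Nat.cast_smul_eq_nsmul]

theorem amp (r : Ref X) (hρ : Lc X Z ρ) (hO : O ∈ Z) {v : AG.N1 X} (hv : v ∈ WW X Z) :
    ∃ N : ℝ, 0 < N ∧ N • ρ + v ∈ SO X O := by
  have h0 : ρ ∈ SO X O := hρ.mem O hO
  let p : AG.N1 X → Prop := fun v => ∃ N : ℝ, 0 < N ∧ N • ρ + v ∈ SO X O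
  have pa : ∀ v w, p v → p w → p (v + w) := fun v w ⟨N, a, b⟩ ⟨N', a', b'⟩ =>
    ⟨N + N', by positivity, by
      rw [add_smul, add_add_add_comm]; exact isCone_SO.add _ b _ b'⟩
  have ps : ∀ c : ℝ, 0 ≤ c → ∀ v, p v → p (c • v) := fun c hc v ⟨N, a, b⟩ =>
    ⟨1 + c * N, by positivity, by
      rw [add_smul, one_smul, mul_smul, add_assoc, ← smul_add]
      exact isCone_SO.add _ h0 _ (isCone_SO.smul c hc _ b)⟩
  suffices h : p v ∧ p (-v) from h.1
  induction hv using Submodule.span_induction with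
  | mem x hx =>
    obtain ⟨f, a, b, rfl⟩ := hx
    rw [← cl_inv r.nice.toGood a]
    exact ⟨one r.nice hρ hO a b, one r.nice hρ hO a.inv b.inv⟩
  | zero =>
    have : p 0 := ⟨1, one_pos, by simpa using h0⟩
    exact ⟨this, by rwa [neg_zero]⟩
  | add x y hx hy a b => exact ⟨pa _ _ a.1 b.1, neg_add x y ▸ pa _ _ a.2 b.2⟩
  | smul c x hx a => exact AmpA.sm ps c a

open LzaA in
theorem lza (hZ : Ct X Z) (hO : O ∈ Z) (hu : Un X e O)
    (hV : ∀ V, IsVal V → Dom (fr (BB X e) O) V → ∃ O' ∈ Fib X Z e O, O' ≤ V)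
    (hF : (Fib X Z e O).Finite) : O ≤ fr (BB X e) O := by
  intro a ha
  have hB : BB X e ≤ O := BB_le (hZ.md.kr O hO) hu
  have hR : ∀ x : K, (∀ O' : Fib X Z e O, x ∈ O'.1) → x ∈ fr (BB X e) O := fun x hx => by
    by_contra hn
    obtain ⟨V, h1, h2, h3⟩ := exists_val_not_mem (loc_fr (hZ.nice.loc O hO) hB)
      (nrm_fr (nrm_BB X e) hB) hn
    obtain ⟨O', h4, h5⟩ := hV V h1 h2
    exact h3 (h5 (hx ⟨O', h4⟩))
  obtain ⟨J, -, 𝒞, hc⟩ := hZ.ch
  have : Finite (Fib X Z e O) := hF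
  have hj : ∀ O' : Fib X Z e O, ∃ j, O'.1 ∈ Pts (𝒞.B j) := fun O' =>
    Set.mem_iUnion.1 (hc ▸ O'.2.1 : O'.1 ∈ Sch.pts 𝒞)
  choose j hj using hj
  obtain ⟨s, hs⟩ := exists_sec 𝒞 (fun O' : Fib X Z e O => O'.1) j hj
  let o : Fib X Z e O := ⟨O, hO, hu, fun _ _ h => h⟩
  have hs0 : s ≠ 0 := (div_ne_zero_iff.1 (hs o).1).1
  have key : ∀ c ∈ 𝒞.B (j o), ∀ᶠ n in atTop, (s / 𝒞.f (j o))⁻¹ ^ n * c ∈ fr (BB X e) O := by
    intro c hc
    refine (eventually_all.2 fun O' => ?_).mono fun n => hR _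
    obtain ⟨N, hN⟩ := 𝒞.comp (j o) (j O') c hc
    have h1 : (s / 𝒞.f (j o))⁻¹ = 𝒞.f (j o) / 𝒞.f (j O') * (s / 𝒞.f (j O'))⁻¹ := by
      have := 𝒞.f_ne (j O')
      field_simp
    refine eventually_atTop.2 ⟨N, fun n hn => ?_⟩
    obtain ⟨m, rfl⟩ := Nat.exists_eq_add_of_le' hn
    have h2 : (s / 𝒞.f (j o))⁻¹ ∈ O'.1 :=
      h1 ▸ mul_mem ((hj O').2.1 (𝒞.ratio _ _)) (hs O').2.2
    rw [pow_add, mul_assoc]
    refine mul_mem (pow_mem h2 m) ?_
    rw [h1, mul_pow, mul_right_comm]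
    exact mul_mem ((hj O').2.1 hN) (pow_mem (hs O').2.2 N)
  obtain ⟨u, hu', w, hw, hw', rfl⟩ := (hj o).2.2 a ha
  obtain ⟨n, h1, h2⟩ := ((key u hu').and (key w hw)).exists
  have h3 := ((hs o).inv.pow n)
  rw [← mul_div_mul_left u w h3.1]
  exact div_mem_fr h1 h2 hB (h3.mul hw')

theorem lzb (r : Ref X) (s : Ct X Z) (p : Ps X Z Ψ) (hρ : ρ ∈ LL X) (hsa : ρ ∈ SA X Z)
    (hpos : Pos Z (Ψ ρ)) : Lc X Z ρ := by
  have hs : ∀ O ∈ Z, SaAt X ρ O := fun O hO => r.sa ρ hρ O (hsa O hO)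
  have dg := dg r s p
  have hg : Good Z := s.nice.toGood
  obtain ⟨𝒢, g1, g2, g3⟩ := s.nice.cov
  have ch : ∀ O ∈ Z, ∃ G ∈ 𝒢, O ∈ Pts (Algebra.adjoin k G) := fun O hO => by
    rw [g3] at hO
    simpa using hO
  have ch' : ∀ G ∈ 𝒢, ∀ O ∈ Pts (Algebra.adjoin k G), O ∈ Z := fun G hG O hO => by
    rw [g3]
    exact Set.mem_biUnion hG hO
  have rat : ∀ O ∈ Z, RatPt O → LcAt X ρ O := by
    intro O hO hr
    obtain ⟨m, e, hm, he, hc, hu⟩ := hs O hO
    obtain ⟨fa, fb⟩ := fiba_stmt k K X r Z s.md ρ e m hm he hc hs O hO hu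
    refine ⟨m, e, hm, he, hc, hu, lza s hO hu fa ?_⟩
    have fin : ∀ G ∈ 𝒢, {O' | O' ∈ Pts (Algebra.adjoin k G) ∧
        {u | u ∈ Algebra.adjoin k G ∧ ∀ O' ∈ Fib X Z e O, Algebra.adjoin k G ≤ O' → u ∈ mx O'} ⊆
          mx O'}.Finite := by
      intro G hG
      refine ((alg_stmt k K _ (Subalgebra.fg_def.2 ⟨G, (g2 G hG).1, rfl⟩)).2 _
        fun u hu => hu.1).resolve_right ?_
      rintro ⟨O1, a1, a2, a3, a4⟩
      have f1 : O1 ∈ Fib X Z e O := fb hr _ O1 (ch' G hG O1 a1) a1 fun u b c => a2 ⟨b, c⟩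
      obtain ⟨ν, rfl⟩ := curve_stmt k K Z hg O1 f1.1 a3 a4
      have hz := dg.zero ν e he.1 fun Q => by
        obtain ⟨G', -, b⟩ := ch _ (ν.pt_mem Q)
        exact (fb hr _ _ (ν.pt_mem Q) b fun u c d => mx_of_le (ν.pt_le Q) (b.2.1 c)
          (d _ f1 (b.2.1.trans (ν.pt_le Q)))).2.1
      have hp := hpos ν fun h => a4 h.dim
      rw [hc, map_nsmul, map_nsmul, nsmul_eq_mul] at hz
      exact (mul_pos (Nat.cast_pos.2 hm) hp).ne' hz
    refine (g1.biUnion fin).subset fun O' h' => ?_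
    obtain ⟨G, a, b⟩ := ch O' h'.1
    exact Set.mem_biUnion a ⟨b, fun u hu => hu.2 O' h' b.2.1⟩
  refine ⟨hρ, fun O hO => ?_⟩
  obtain ⟨G, a, b, c⟩ := hg.fg O hO
  obtain ⟨O₀, a0, b0, c0⟩ := (alg_stmt k K _ (Subalgebra.fg_def.2 ⟨G, a, rfl⟩)).1 O b
  exact LzbA.lc_up b a0.2.1 c0 (rat O₀ (c a0) b0)

theorem opn (r : Ref X) (s : Ct X Z) (p : Ps X Z Ψ) {S : Set (AG.N1 X)} (hS : IsCone S)
    (sg : Sig X S) {y v : AG.N1 X} (hy : y ∈ SA X Z ∩ S) (hpos : Pos Z (Ψ y)) (w : v ∈ WW X Z)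
    (hv : y + v ∈ S) : ∃ δ : ℝ, 0 < δ ∧ δ ≤ 1 ∧ y + δ • v ∈ SA X Z := by
  obtain ⟨𝒯, hfin, hRP, hO, hZ⟩ := sg
  obtain ⟨ρ, ρ1, ρ2, c, M, c0, M0, h1, h2⟩ := OpnA.comp (hRP _ (hZ Z s.md)) hy
  have hρ : Lc X Z ρ := lzb r s p ρ1 ρ2.1 fun ν hν => by
    have e1 := (dg r s p).nn ν _ (h2.1 _ ν.gen_mem)
    rw [map_sub, map_sub, map_smul, map_smul, smul_eq_mul] at e1
    exact (mul_pos_iff_of_pos_left M0).1 (by linarith [hpos ν hν])
  have key : ∀ O ∈ Z, ∀ᶠ δ : ℝ in 𝓝[>] 0, y + δ • v ∈ SO X O ∩ S := fun O hO => by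
    obtain ⟨N, N0, hN⟩ := amp r hρ hO w
    filter_upwards [Ioc_mem_nhdsGT (div_pos c0 N0), Ioc_mem_nhdsGT (zero_lt_one' ℝ)] with δ a b
    constructor
    · rw [show y + δ • v = δ • (N • ρ + v) + ((c - δ * N) • ρ + (y - c • ρ)) by module]
      exact isCone_SO.add _ (isCone_SO.smul _ a.1.le _ hN) _ (isCone_SO.add _ (isCone_SO.smul _
        (sub_nonneg.2 ((le_div_iff₀ N0).1 a.2)) _ (ρ2.1 O hO)) _ (h1.1 O hO))
    · rw [show y + δ • v = δ • (y + v) + (1 - δ) • y by module]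
      exact hS.add _ (hS.smul _ a.1.le _ hv) _ (hS.smul _ (sub_nonneg.2 b.2) _ hy.2)
  have h3 : ∀ᶠ δ : ℝ in 𝓝[>] 0, ∀ T ∈ 𝒯, (∃ O ∈ Z, SO X O ∩ S = T) → y + δ • v ∈ T :=
    (eventually_all_finite hfin).2 fun T _ => by
      by_cases h : ∃ O ∈ Z, SO X O ∩ S = T
      · obtain ⟨O, a, rfl⟩ := h
        exact (key O a).mono fun _ b _ => b
      · exact .of_forall fun _ b => absurd b h
  obtain ⟨δ, a, b⟩ := (h3.and (Ioc_mem_nhdsGT (zero_lt_one' ℝ))).exists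
  exact ⟨δ, b.1, b.2, fun O e =>
    (a _ (hO O (s.md.good.loc O e) (s.md.kr O e)) ⟨O, e, rfl⟩).1⟩

theorem nef (r : Ref X) (s : Ct X Z) (p : Ps X Z Ψ)
    (hS : ∀ S, RP (LL X) S → S ⊆ Glue.Ef X → Sig X S) {a : AG.N1 X} (ha : Lc X Z a)
    (hx : x ∈ Glue.Ef X ∩ WW X Z) (hn : ∀ ν : AG.Curve Z, 0 ≤ ν.lin (Ψ x)) : x ∈ SA X Z := by
  obtain ⟨S, hrp, hef, hxS, haS⟩ := EndA.exists_rp hx.1 ha.1 (SA_ef s.nice.toGood ha.mem)
  have sg := hS _ hrp hef
  have c := rp_cone hrp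
  have e : ∀ t : ℝ, a + t • (x - a) = (1 - t) • a + t • x := fun t => by module
  have hin : ∀ t : ℝ, 0 ≤ t → t ≤ 1 → a + t • (x - a) ∈ S :=
    fun t t0 t1 => e t ▸ c.add _ (c.smul _ (sub_nonneg.2 t1) _ haS) _ (c.smul _ t0 _ hxS)
  obtain ⟨𝒯, -, t1, -, t2⟩ := id sg
  obtain ⟨Q, -, hQ⟩ := t1 _ (t2 Z s.md)
  have key := NefA.seg ray_stmt Q a (x - a) (hQ ▸ ⟨ha.mem, haS⟩) fun t t0 t1 ht => by
    rw [hQ] at ht ⊢
    have hp : Pos Z (Ψ (a + t • (x - a))) := fun ν hν => by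
      have p1 := (dg r s p).pos a ha ν hν
      have p2 := hn ν
      rw [e, map_add, map_smul, map_smul, map_add, map_smul, map_smul, smul_eq_mul, smul_eq_mul]
      exact add_pos_of_pos_of_nonneg (mul_pos (sub_pos.2 t1) p1) (mul_nonneg t0 p2)
    have e1 : ∀ δ : ℝ, a + t • (x - a) + δ • (1 - t) • (x - a) =
        a + (t + δ * (1 - t)) • (x - a) := fun δ => by module
    obtain ⟨δ, d0, d1, d2⟩ := opn r s p c sg ht hp (v := (1 - t) • (x - a))
      (Submodule.smul_mem _ _ (sub_mem hx.2 (lc_W r ha s.nice.toGood))) (by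
        have e2 : a + t • (x - a) + (1 - t) • (x - a) = x := by module
        rw [e2]
        exact hxS)
    have q1 := mul_pos d0 (sub_pos.2 t1)
    have q2 := mul_le_of_le_one_left (sub_pos.2 t1).le d1
    exact ⟨t + δ * (1 - t), by linarith, by linarith, e1 δ ▸ d2,
      hin _ (by linarith) (by linarith)⟩
  rw [hQ, add_sub_cancel] at key
  exact key.1

theorem rp_img (r : Ref X) (s : Ct X Z) (p : Ps X Z Ψ) {S : Set (AG.N1 X)} (h : RP (LL X) S) :
    RP (LL Z) (Ψ '' S) := by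
  obtain ⟨R, hR, rfl⟩ := h
  have key : ∀ z ∈ (R : Set (AG.N1 X)), ∃ m : ℕ, 0 < m ∧ m • Ψ z ∈ LL Z := fun z hz => by
    obtain ⟨f, f1, rfl⟩ := (mem_LL r.nice.toGood).1 (hR hz)
    obtain ⟨m, f', a1, a2, a3⟩ := s.up r f1
    exact ⟨m, a1, p.mt f f' m f1 a2 a3 ▸ cl_mem a2⟩
  choose! m m1 m2 using key
  have e : cone ((fun r => m r • Ψ r) '' (R : Set (AG.N1 X))) = Ψ '' cone (R : Set (AG.N1 X)) :=
    Set.Subset.antisymm (((isCone_cone _).image Ψ).cone_subset (by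
      rintro _ ⟨r, hr, rfl⟩
      exact IsCone.nsmul ((isCone_cone _).image Ψ) _ ⟨r, subset_cone _ hr, rfl⟩))
    (Set.image_subset_iff.2 (((isCone_cone _).preimage Ψ).cone_subset fun r hr =>
      IsCone.of_nsmul (isCone_cone _) (m1 r hr) (subset_cone _ ⟨r, hr, rfl⟩)))
  rw [← e]
  refine rp_fin (R.finite_toSet.image _) ?_
  rintro _ ⟨r, hr, rfl⟩
  exact m2 r hr

theorem mod (r : Ref X) (fs : FS X) (ce : CE X) (s : Ct X Z) : ConeStatement Z := by
  obtain ⟨Ψ, p⟩ := psi r s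
  obtain ⟨a, ha⟩ := hyp r s
  have sig := fun S a b => sig_stmt int_stmt k K X r S a (fs S a b)
  have hX : Good X := r.nice.toGood
  have hZ : Good Z := s.nice.toGood
  have d := dg r s p
  have := r.fd
  have : FiniteDimensional ℝ (AG.N1 Z) :=
    Module.Finite.of_surjective Ψ fun y => (p.surj y).imp fun _ h => h.2
  have ae : a ∈ Glue.Ef X := SA_ef hZ ha.mem
  have sn : ∀ x ∈ SA X Z, Ψ x ∈ Glue.NEf Z := fun x h => ⟨by
    rintro _ ⟨ν, rfl⟩
    exact d.nn ν x (h _ ν.gen_mem), p.ef x (SA_ef hZ h)⟩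
  obtain ⟨S₀, s1, s2, s3⟩ := ce
  obtain ⟨Q₀, q1, q2, q3⟩ := chm_stmt det_stmt trn_stmt k K X r Z s.md S₀ (sig S₀ s1 s2) s3 a ha
  refine Glue.cone_of_concl (loo_stmt ray_stmt (AG.N1 Z) (LL Z) (Glue.NEf Z) (autG Z)
    (Set.range Curve.lin) ((Lat.isCone_dual _).inter (isCone_cone _)) Glue.cvint
    (fun c hc x hx => hx.1 c hc) (fun x hx => n1_ext fun ν => by
      rw [map_zero]
      exact hx _ ⟨ν, rfl⟩) Glue.gL Glue.gC (eq_top_iff.2 fun w _ => ?_) (Ψ '' Q₀)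
    (rp_img r s p q1) (Set.image_subset_iff.2 fun x hx => sn x (q2 hx)) fun y hy => ?_)
  · obtain ⟨v, w, rfl⟩ := p.surj w
    obtain ⟨O, hO, -⟩ := hZ.cpl ⊤ fun _ => Or.inl trivial
    obtain ⟨N, -, n2⟩ := amp r ha hO w
    obtain ⟨S, t1, t2, t3, t4⟩ := EndA.exists_rp (SO_ef n2) ha.1 ae
    obtain ⟨δ, d1, -, d2⟩ := opn r s p (rp_cone t1) (sig S t1 t2) ⟨ha.mem, t4⟩ (d.pos a ha)
      (add_mem (Submodule.smul_mem _ N (lc_W r ha hZ)) w) ((rp_cone t1).add _ t4 _ t3)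
    have b1 := Submodule.subset_span (R := ℝ) (sn _ ha.mem)
    have b2 := Submodule.subset_span (R := ℝ) (sn _ d2)
    have e : Ψ v = δ⁻¹ • (Ψ (a + δ • (N • a + v)) - Ψ a) - N • Ψ a := by
      rw [map_add, add_sub_cancel_left, map_smul, inv_smul_smul₀ d1.ne', map_add, map_smul,
        add_sub_cancel_left]
    rw [e]
    exact sub_mem (Submodule.smul_mem _ _ (sub_mem b2 b1)) (Submodule.smul_mem _ _ b1)
  · obtain ⟨x, x1, rfl⟩ := p.ef' y hy.2
    have x2 := nef r s p sig ha x1 fun ν => hy.1 _ ⟨ν, rfl⟩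
    obtain ⟨S, t1, t2, t3, t4⟩ := EndA.exists_rp x1.1 ha.1 ae
    obtain ⟨𝒯, -, u1, -, u2⟩ := sig S t1 t2
    refine ⟨Ψ a, Ψ '' (SA X Z ∩ S), rp_img r s p (u1 _ (u2 Z s.md)),
      Set.image_subset_iff.2 fun z hz => sn z hz.1, ⟨x, ⟨x2, t3⟩, rfl⟩,
      ⟨a, ⟨ha.mem, t4⟩, rfl⟩, fun ε hε => ?_⟩
    obtain ⟨g, g', e1, e2⟩ := q3 x x2 ε hε
    refine ⟨g'.eqv, ⟨g', rfl⟩, _, e2, ?_⟩
    rw [p.aut g g' e1, map_add, map_smul]
    rfl

end Pool.Agent.MP_20d318_ag.AM.CT
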