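import Pool.Agent.MP_20d318_ag.AM.Stmt

/-! Effective multiples of the anticanonical divisor. -/

set_option autoImplicit false

open AlgebraicGeometry CategoryTheory

namespace Pool.Agent.MP_20d318_ag.AM

open Pool.Agent.MP_fd6584_ag Pool.Agent.MP_fd6584_ag.Pj

/-- For some `m > 0` the divisor `-m K` is linearly equivalent to an effective divisor: with `η` the
rational top form given by a basis `b` of the rational differentials, some nonzero `c / η ^ m` is
regular at all points of codimension at most one. -/
def AntiEff {k : Type} [Field k] {X : Scheme.{0}} [IsIntegral X]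
    (s : X ⟶ Spec (CommRingCat.of k)) : Prop :=
  letI : Algebra k X.functionField := (const s).toAlgebra
  ∃ (n m : ℕ) (b : Module.Basis (Fin n) X.functionField Ω[X.functionField⁄k]) (c : X.functionField),
    0 < m ∧ c ≠ 0 ∧ ∀ x : X, Codim1 x → ∀ a : Fin n → X.presheaf.stalk x, RegAt x (c *
      (b.det fun i => KaehlerDifferential.D k X.functionField (algebraMap _ _ (a i))) ^ m)

end Pool.Agent.MP_20d318_ag.AM
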