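import Pool.Agent.MP_20d318_ag.AM.K8
import Pool.Agent.MP_20d318_ag.AM.K9
import Pool.Agent.MP_20d318_ag.AM.Stmt2

/-! All birational models with an effective multiple of the anticanonical divisor. -/

set_option autoImplicit false
set_option linter.unusedSectionVars false
set_option linter.style.haveILetI false

open AlgebraicGeometry CategoryTheory

namespace Pool.Agent.MP_20d318_ag.AM

open Pool.Agent.MP_fd6584_ag Pool.Agent.MP_fd6584_ag.Pj Pool.Agent.MP_fd6584_ag.Fn Pool.Agent.CBk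
open Pool.Agent.MP_fd6584_ag.AG hiding deg_inv deg_congr deg_of_unit deg_mul deg_prod deg_zpow
  deg_eq_zero deg_nonneg deg_div deg_pow
open Pool.Agent.MP_20d318_ag.KK Pool.Agent.MVg.SchA

variable {k K M J J' : Type} [Field k] [NeZero (2 : k)] [IsAlgClosed k] [Field K] [Field M]
  [Algebra k K] [Algebra k M] [Finite J] [Finite J'] {𝒞 : Charts k K J} {𝒞' : Charts k K J'}

namespace BirA

theorem fs (N : Model 𝒞) (h : Smooth N.s) : ∀ O ∈ Sch.pts 𝒞, Algebra.FormallySmooth k O := by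
  intro O hO
  obtain ⟨j, hO⟩ := Set.mem_iUnion.1 hO
  have := N.openImm j
  have u : Smooth (N.ch j ≫ N.s) := inferInstance
  rw [N.ch_s, HasRingHomProperty.Spec_iff (P := @Smooth)] at u
  have := RingHom.smooth_algebraMap.1 u
  let : Algebra (𝒞.B j) O := (Subalgebra.inclusion hO.2.1).toAlgebra
  have : IsScalarTower k (𝒞.B j) O := IsScalarTower.of_algebraMap_eq fun _ => rfl
  have : IsLocalization ((IsUnit.submonoid O).comap (algebraMap (𝒞.B j) O)) O :=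
    { map_units := fun y => y.2
      surj := fun z => by
        obtain ⟨a, ha, b, hb, hu, hz⟩ := hO.2.2 z z.2
        refine ⟨⟨⟨a, ha⟩, ⟨⟨b, hb⟩, (isU_iff_isUnit (algebraMap (𝒞.B j) O ⟨b, hb⟩)).1 hu⟩⟩,
          Subtype.ext ?_⟩
        change (z : K) * b = a
        rw [hz, div_mul_cancel₀ _ hu.1]
      exists_of_eq := fun {x y} hxy => ⟨1, by
        rw [Subalgebra.inclusion_injective hO.2.1 hxy]⟩ }
  have := Algebra.FormallySmooth.of_isLocalization (Rₘ := O)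
    ((IsUnit.submonoid O).comap (algebraMap (𝒞.B j) O))
  exact .comp k (𝒞.B j) O

theorem nq (N : Model 𝒞) (h : Smooth N.s) : Nice (Sch.pts 𝒞) ∧ Normal N.X ∧ QFact N.X := by
  obtain ⟨ni, fac⟩ := mods.c.nice k K _ (fine_pts 𝒞) (fs N h)
  refine ⟨ni, fun x => ?_, fun x hc hx => ?_⟩
  · have := Krull.isFractionRing (ni.toFine.frac (Sch.OA_mem (M := N) x))
    have : IsIntegrallyClosed (Sch.OA N x) := (isIntegrallyClosed_iff K).2 fun {f} hf =>
      ⟨⟨f, ni.nrm _ (Sch.OA_mem x) f hf⟩, rfl⟩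
    exact .of_equiv (Sch.toOA N x).symm
  obtain q | ⟨P, hP⟩ := (MVg.SchA.codim_iff MVg.codim_stmt ni x).1 hc
  · exact (hx (Sch.OA_inj (q.trans (OA_gen N).symm))).elim
  obtain ⟨f, f1, f2, f3⟩ := fac P (hP ▸ Sch.OA_mem x)
  obtain ⟨D, hD⟩ := Sch.exists_cdiv (M := N) ⟨f, f1⟩
  refine ⟨D, fun y hy => ?_⟩
  have f0 : N.e (D.eqn y) ≠ 0 := (map_ne_zero _).2 (D.ne y)
  rw [MVg.SchA.unit_iff]
  obtain q | ⟨P', q⟩ := (MVg.SchA.codim_iff MVg.codim_stmt ni y).1 hy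
  · refine iff_of_true (q ▸ ⟨f0, trivial, trivial⟩) fun e => hx ?_
    exact Sch.OA_inj ((e ▸ q).trans (OA_gen N).symm)
  rw [← hD y, ← q] at f0 ⊢
  rw [isU_plO', and_iff_right f0]
  refine ⟨fun z e => ?_, fun e => f3 P' (q ▸ Sch.OA_mem y) fun z => e (Sch.OA_inj ?_)⟩
  · obtain rfl : P' = P := plO_inj (by rw [q, hP, e])
    exact one_ne_zero (f2.symm.trans z)
  · rw [← q, ← hP, z]

theorem ct (N : Model 𝒞) (N' : Model 𝒞') (hX : Nice (Sch.pts 𝒞)) (t : TrivialCanonical N.s)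
    (h1 : Normal N'.X) (h2 : QFact N'.X) (h3 : AntiEff N'.s) : CT.Ct (Sch.pts 𝒞) (Sch.pts 𝒞') := by
  have hZ := nice_pts N' h1
  have pt : ∀ P : Place k K, plO P ∈ Sch.pts 𝒞' → ∃ y, Sch.OA N' y = plO P ∧ Codim1 y :=
    fun P hP => by
      obtain ⟨y, hy⟩ := Sch.exists_OA N' hP
      exact ⟨y, hy, (codim_iff MVg.codim_stmt hZ y).2 (Or.inr ⟨P, hy.symm⟩)⟩
  refine ⟨hZ, fun P hP => ?_, fun P hP => ?_, J', inferInstance, 𝒞', rfl⟩
  · letI : Algebra k N.X.functionField := (const N.s).toAlgebra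
    letI : Algebra k N'.X.functionField := (const N'.s).toAlgebra
    obtain ⟨n, b, hb⟩ := t
    obtain ⟨n', m, d, c, m0, c0, hd⟩ := h3
    obtain ⟨b', e⟩ := tr (AlgEquiv.ofRingEquiv (f := N.e) N.e_const) b
    obtain ⟨d', e'⟩ := tr (AlgEquiv.ofRingEquiv (f := N'.e) N'.e_const) d
    refine pl hZ hX (b := d') (b' := b') m0 ((map_ne_zero N'.e).2 c0) (fun Q hQ a ha => ?_)
      (fun O hO => ?_) hP
    · obtain ⟨y, q, hy⟩ := pt Q hQ
      rw [← q] at ha ⊢
      choose u hu using ha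
      obtain rfl := funext hu
      have := (reg_iff y _).1 (hd y hy u)
      rw [map_mul, map_pow] at this
      exact (e' fun i => algebraMap _ _ (u i)).symm ▸ this
    · obtain ⟨x, rfl⟩ := Sch.exists_OA N hO
      obtain ⟨a1, a, a2, a3⟩ := hb x
      exact ⟨_, fun i => ⟨a i, rfl⟩, (e _).symm ▸ (unit_iff x _).1 ⟨a2, a1 a, a3⟩⟩
  · obtain ⟨x, hx, hc⟩ := pt P hP
    obtain ⟨D, hD⟩ := h2 x hc fun h => plO_ne_top P (by rw [← hx, h, OA_gen])
    obtain ⟨E, hE⟩ := Sch.exists_cart D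
    refine ⟨E.f, E.loc, fun P' hP' => ?_⟩
    obtain ⟨y, hy, hc'⟩ := pt P' hP'
    have h5 := hD y hc'
    rw [unit_iff, ← hE, hy, isU_plO'] at h5
    have h0 : E.f (plO P') ≠ 0 := by
      rw [← hy, hE]
      exact (map_ne_zero _).2 (D.ne y)
    refine ((and_iff_right h0).symm.trans h5).trans (not_congr ⟨fun h => ?_, fun h => ?_⟩)
    · exact plO_inj (by rw [← hx, ← hy, h])
    · exact Sch.OA_inj (by rw [hx, hy, h])

end BirA

/-- The property `p` holds for all models. -/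
def AllBir (p : ∀ (X : Scheme.{0}) [IsIntegral X], (X ⟶ Spec (CommRingCat.of k)) → Prop)
    {X : Scheme.{0}} [IsIntegral X] (s : X ⟶ Spec (CommRingCat.of k)) : Prop :=
  ∀ (X' : Scheme.{0}) [IsIntegral X'] (s' : X' ⟶ Spec (CommRingCat.of k)), IsProjective s' →
    Smooth s' ∨ Normal X' ∧ QFact X' → AntiEff s' →
      (∃ σ : X.functionField ≃+* X'.functionField, ∀ c, σ (const s c) = const s' c) → p X' s'

theorem cone_of (N : Model 𝒞) (hX : Nice (Sch.pts 𝒞)) (t : TrivialCanonical N.s)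
    (h : ∀ Z, CT.Ct (Sch.pts 𝒞) Z → ConeStatement Z) :
    AllBir (fun _ _ s => CC.NefConj s ∧ ConeConj s) N.s := by
  rintro X' _ s' h0 h1 h2 ⟨σ, a⟩
  obtain ⟨J', _, 𝒞', ch, p1, p2, p3, p4, p5, -⟩ := rev h0 (σ.symm.trans N.e) fun r => by
    rw [← a, RingEquiv.trans_apply, σ.symm_apply_apply, N.e_const]
  let N' : Model 𝒞' := ⟨X', s', ch, h0, inferInstance, p1, p2, p3, p4, p5⟩
  obtain ⟨h3, h4⟩ := h1.elim (fun q => (BirA.nq N' q).2) id
  have c := h _ (BirA.ct N N' hX t h3 h4 h2)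
  exact ⟨CC.bridge N' c, (Sch.bridge k K J' 𝒞' N' ⟨c, addv (fine_pts 𝒞').toGood⟩).2⟩

theorem Top.all {a r : ℕ} {T : Fin a → Set (Subalgebra k M)} {φ : Fin a → M} {l : Fin r → k}
    (h : Top T φ l) :
    ∃ (X : Scheme.{0}) (_ : IsIntegral X) (s : X ⟶ Spec (CommRingCat.of k)),
      IsProjective s ∧ Smooth s ∧ TrivialCanonical s ∧ ProdCover s T φ l ∧
        AllBir (fun _ _ s => CC.NefConj s ∧ ConeConj s) s := by
  obtain ⟨K, Λ, κ, _, _, _, _, n, L, j, w, ι, ζ, fam, sm, ind, sep, j0, vol, tw, hc⟩ := h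
  obtain ⟨J, _, 𝒞, hC, hB⟩ := chart_of fam
  replace hC : Sch.pts 𝒞 = L.Y := hC
  obtain ⟨N⟩ := exists_model 𝒞
  have hO : ∀ q, Sch.OA N q ∈ L.Y := fun q => hC ▸ Sch.OA_mem q
  have ni := mods.c.nice k K L.Y (fine_mp fam) sm
  have r := ref_stmt sol_stmt k K _ ⟨ni.1, ni.2, hc.fd, hc.md.nl⟩
  have t := mods.c.triv k K J 𝒞 N (n + 1) L.y j ind sep j0 (hC ▸ vol)
  refine ⟨N.X, N.integral, N.s, N.proj, N.smooth fun j => ?_, t, ?_,
    cone_of N (hC ▸ ni.1) t (hC ▸ fun _ => CT.mod r hc.md.fS hc.md.cE)⟩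
  · obtain ⟨G, g1, g2⟩ := hB j
    rw [g2]
    exact smG_stmt k K G g1 fun O g3 => sm O (hC ▸ Set.mem_iUnion.2 ⟨j, g2 ▸ g3⟩)
  · letI : Algebra k N.X.functionField := (const N.s).toAlgebra
    let ε : N.X.functionField ≃ₐ[k] K := AlgEquiv.ofRingEquiv (f := N.e) N.e_const
    have reg : ∀ q, ∀ f ∈ Sch.OA N q, RegAt q (ε.symm f) := fun q f ⟨u, hu⟩ =>
      ⟨u, ε.eq_symm_apply.2 hu⟩
    obtain ⟨x, y, hxy⟩ := tw.ind
    refine ⟨fun i => ε.symm.toAlgHom.comp (ι i), fun i => ε.symm (ζ i), ε.symm w, x, y, ?_, ?_,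
      ?_, fun q => ⟨fun i => ?_, fun i => ?_⟩⟩
    · have := hxy.map' (f := ε.symm.toAlgHom) ε.symm.injective
      rw [Sum.comp_elim, Sum.comp_elim] at this
      exact this
    · have := congrArg ε.symm tw.eq
      simp only [CH.cb, map_pow, map_mul, map_prod, map_sub, map_one, AlgEquiv.commutes] at this
      exact this
    · have := congrArg (IntermediateField.map ε.symm.toAlgHom) tw.top
      rw [IntermediateField.adjoin_map, Set.image_union, Set.image_union, Set.image_iUnion,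
        ← Set.range_comp, Set.image_singleton, ← AlgHom.fieldRange_eq_map,
        AlgHom.fieldRange_eq_top.2 ε.symm.surjective] at this
      simp only [← Set.range_comp] at this
      exact this
    · obtain ⟨R, hR, hd⟩ := (tw.reg _ (hO q)).1 i
      exact ⟨R, hR, fun a ha => reg q _ (hd a ha)⟩
    · rw [← map_inv₀]
      exact ((tw.reg _ (hO q)).2 i).imp (reg q _) (reg q _)

end Pool.Agent.MP_20d318_ag.AM
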