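import Pool.Agent.MP_20d318_ag.AM.K10

/-! Birational smooth projective varieties with trivial canonical class are isomorphic in
codimension one. -/

set_option autoImplicit false
set_option linter.unusedSectionVars false
set_option linter.style.haveILetI false

open AlgebraicGeometry CategoryTheory

namespace Pool.Agent.MP_20d318_ag.AM

open Pool.Agent.MP_fd6584_ag Pool.Agent.MP_fd6584_ag.Pj Pool.Agent.MP_fd6584_ag.Fn Pool.Agent.CBk
open Pool.Agent.MP_fd6584_ag.AG hiding deg_inv deg_congr deg_of_unit deg_mul deg_prod deg_zpow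
  deg_eq_zero deg_nonneg deg_div deg_pow
open Pool.Agent.MP_20d318_ag.KK Pool.Agent.MVg.SchA

variable {k K J J' : Type} [Field k] [NeZero (2 : k)] [IsAlgClosed k] [Field K] [Algebra k K]
  [Finite J] [Finite J'] {𝒞 : Charts k K J} {𝒞' : Charts k K J'}

theorem anti_of {X : Scheme.{0}} [IsIntegral X] {s : X ⟶ Spec (CommRingCat.of k)}
    (t : TrivialCanonical s) : AntiEff s := by
  obtain ⟨n, b, hb⟩ := t
  exact ⟨n, 1, b, 1, one_pos, one_ne_zero, fun x _ a => by
    rw [pow_one, one_mul]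
    exact (hb x).1 a⟩

theorem BirA.sm (N : Model 𝒞) (N' : Model 𝒞') (h : Smooth N.s) (h' : Smooth N'.s)
    (t : TrivialCanonical N.s) (t' : TrivialCanonical N'.s) : Sm (Sch.pts 𝒞) (Sch.pts 𝒞') :=
  have a := BirA.nq N h
  have b := BirA.nq N' h'
  have c := BirA.ct N N' a.1 t b.2.1 b.2.2 (anti_of t')
  ⟨c.nice, fun P => ⟨c.pl P, (BirA.ct N' N b.1 t' a.2.1 a.2.2 (anti_of t)).pl P⟩, c.qf, c.ch⟩

theorem BirA.half (N : Model 𝒞) (N' : Model 𝒞') (h : Smooth N.s) (h' : Smooth N'.s)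
    (t : TrivialCanonical N.s) (t' : TrivialCanonical N'.s) (x : N.X) (hx : Codim1 x) :
    ∃ x', Sch.OA N' x' = Sch.OA N x := by
  obtain q | ⟨P, hP⟩ := (codim_iff MVg.codim_stmt (BirA.nq N h).1 x).1 hx
  · exact ⟨_, (OA_gen N').trans q.symm⟩
  exact hP ▸ Sch.exists_OA N' (((BirA.sm N N' h h' t t').pl P).2 (hP ▸ Sch.OA_mem x))

theorem small_of {X X' : Scheme.{0}} [IsIntegral X] [IsIntegral X']
    {s : X ⟶ Spec (CommRingCat.of k)} {s' : X' ⟶ Spec (CommRingCat.of k)} (p : IsProjective s)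
    (p' : IsProjective s') (h : Smooth s) (h' : Smooth s') (t : TrivialCanonical s)
    (t' : TrivialCanonical s') (σ : X.functionField ≃+* X'.functionField)
    (hσ : ∀ c, σ (const s c) = const s' c) : Normal X' ∧ QFact X' ∧ SmallMod s s' := by
  letI : Algebra k X'.functionField := (const s').toAlgebra
  obtain ⟨J, _, 𝒞, ch, p1, p2, p3, p4, p5, e⟩ := rev p σ hσ
  obtain ⟨J', _, 𝒞', ch', q1, q2, q3, q4, q5, e'⟩ := rev p' (.refl _) fun _ => rfl
  let N : Model 𝒞 := ⟨X, s, ch, p, inferInstance, p1, p2, p3, p4, p5⟩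
  let N' : Model 𝒞' := ⟨X', s', ch', p', inferInstance, q1, q2, q3, q4, q5⟩
  have r : ∀ x x', Sch.OA N' x' = Sch.OA N x → ∀ f, RegAt x' (σ f) ↔ RegAt x f := fun x x' q f => by
    rw [reg_iff (N := N') x', reg_iff (N := N) x, q, e, e']
    rfl
  exact ⟨(BirA.nq N' h').2.1, (BirA.nq N' h').2.2, σ, hσ,
    fun x hx => (BirA.half N N' h h' t t' x hx).imp (r x),
    fun x' hx => (BirA.half N' N h' h t' t x' hx).imp fun x q => r x x' q.symm⟩

end Pool.Agent.MP_20d318_ag.AM
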