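import Pool.Agent.MP_20d318_ag.AM.K4
import Pool.Agent.MP_fd6584_ag.D.Surf

/-! Rows on surfaces. -/

section

set_option autoImplicit false

namespace Pool.Agent.MP_20d318_ag.AM

open Pool.Agent.MP_20d318_ag.CB

theorem brat_stmt : BratStmt := by
  intro ι κ _ _ Λ l N ε s
  by_contra hn
  have nr : ∀ c ∈ Λ.P, ip Λ.B c c + ip Λ.B Λ.K c ≠ -2 := fun c hc e => hn ⟨c, hc, e⟩
  have sq : ∀ c ∈ Λ.P, 0 ≤ ip Λ.B c c := fun c hc => not_lt.1 fun h => by
    rcases l.l1.neg c hc h with ⟨_, -, -, a, b⟩ | ⟨-, a, b⟩ | ⟨-, a, b, -⟩ <;>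
      exact nr c hc (by rw [a, b]; norm_num)
  have ee : ∀ a ∈ Λ.Ef, ∀ b ∈ Λ.Ef, 0 ≤ ip Λ.B a b := fun a ha => l.l1.efn a fun c hc => by
    rw [ip_comm l.ns.sym]
    exact l.l1.efn c (l.l1.pn c hc (sq c hc)) a ha
  have key : ∀ Z ∈ Λ.Ef, 0 ≤ ip Λ.B Z Z + ip Λ.B Λ.K Z := fun Z hZ => by
    induction hZ using AddSubmonoid.closure_induction with
    | mem c hc =>
      have a := l.ns.adj c hc
      have b := nr c hc
      obtain ⟨t, ht⟩ := l.ns.par c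
      omega
    | zero => simp [ip_zero_right]
    | add a b ha hb h1 h2 =>
      have := ee a ha b hb
      have := ee b hb a ha
      simp only [ip_add_left, ip_add_right]
      omega
  rcases s.base with ⟨H, h1, -, hK, -⟩ | ⟨f, t, m, h1, h2, -, h3, h4, hK, -⟩
  · rcases Nat.eq_zero_or_pos N with rfl | hN
    · rw [Finset.range_zero, Finset.sum_empty, add_zero] at hK
      have a : ip Λ.B Λ.K H = -3 := by rw [hK, ip_smul_left, h1]; rfl
      have b : ip Λ.B Λ.h Λ.K = -3 * ip Λ.B Λ.h H := by rw [hK, ip_smul_right]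
      have c := l.l1.hK
      rcases l.ns.rr H (by omega) with e | e
      · have := key H e
        omega
      · have := l.l1.efn Λ.h (fun c hc => (l.ns.hpos c hc).le) _ e
        rw [ip_sub_right] at this
        omega
    · have := ee _ (s.ef 0 hN) _ (s.ef 0 hN)
      have := s.sq 0 hN
      omega
  · have a : ip Λ.B f Λ.K = -2 := by
      rw [hK, ip_add_right, ip_sub_right, ip_smul_right, ip_smul_right, h1, h2, ip_sum_right,
        Finset.sum_eq_zero fun j hj => (h3 j (Finset.mem_range.1 hj)).1]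
      ring
    have := key f (l.l1.ne f h4).2
    rw [ip_comm l.ns.sym Λ.K] at this
    omega

end Pool.Agent.MP_20d318_ag.AM

end

section

set_option autoImplicit false
set_option linter.unusedSectionVars false

namespace Pool.Agent.MP_20d318_ag.AM

open Pool.Agent.MP_20d318_ag.CB

namespace BgeA

theorem arith (s a b c : ℤ) (hs : 0 < s) : ∃ m : ℕ, 0 < m ∧ m * a - b ≤ m * (m * s) ∧
    c < m * s := by
  obtain ⟨m, hm⟩ : ∃ m : ℕ, (m : ℤ) = |a| + |b| + |c| + 1 := ⟨_, Int.toNat_of_nonneg (by positivity)⟩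
  have a1 := le_abs_self a
  have a2 := neg_abs_le b
  have a3 := le_abs_self c
  have b1 := abs_nonneg a
  have b2 := abs_nonneg b
  have b3 := abs_nonneg c
  have h1 : (m : ℤ) * 1 ≤ m * s := mul_le_mul_of_nonneg_left hs (by positivity)
  have h2 : (1 : ℤ) ≤ m := by linarith
  refine ⟨m, by omega, ?_, by linarith⟩
  have h3 : (m : ℤ) * (a + |b|) ≤ m * (m * s) :=
    mul_le_mul_of_nonneg_left (by linarith) (by positivity)
  have h4 : 1 * |b| ≤ (m : ℤ) * |b| := mul_le_mul_of_nonneg_right h2 b2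
  linarith

end BgeA

theorem bge_stmt : BgeStmt := by
  intro ι κ _ _ Λ h y hy w
  obtain ⟨m, h0, h1, h2⟩ := BgeA.arith (ip Λ.B y y) (ip Λ.B y Λ.K + 2 * ip Λ.B y w)
    (ip Λ.B Λ.K w + ip Λ.B w w) (ip Λ.B y Λ.K + ip Λ.B y w) hy.2
  refine ⟨m, h0, (h.ns.rr _ ?_).resolve_right fun k => ?_⟩
  · simp only [ip_sub_left, ip_sub_right, ip_nsmul_left, ip_nsmul_right,
      ip_comm h.ns.sym Λ.K y, ip_comm h.ns.sym w y]
    linarith
  · have := h.l1.efn y hy.1 _ k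
    simp only [ip_sub_right, ip_nsmul_right] at this
    linarith

end Pool.Agent.MP_20d318_ag.AM

end

section

set_option autoImplicit false
set_option linter.unusedSectionVars false

namespace Pool.Agent.MP_20d318_ag.AM

open Pool.Agent.MP_20d318_ag.CB
open Pool.Agent.MP_fd6584_ag.MV (LA)

namespace CtrA

variable {ι κ : Type} [Fintype ι] [Fintype κ] {Λ : Ld ι κ}

theorem negRa (T : L1 Λ) {c : ι → ℤ} (hc : c ∈ Λ.P) (h : ip Λ.B c c < 0) : c ∈ Ra Λ := by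
  refine ⟨hc, ?_⟩
  rcases T.neg c hc h with ⟨_, -, -, a, b⟩ | ⟨-, a, b⟩ | ⟨-, a, b, -⟩ <;> omega

theorem comp (S : NS Λ) (T : L1 Λ) (k : κ) :
    (ip Λ.B (Λ.C k) (Λ.C k) < 0 ∧ ip Λ.B (Λ.C k) Λ.F = 0) ∨
      ∃ q : ℝ, 0 ≤ q ∧ toR (Λ.C k) = q • toR Λ.F := by
  by_cases e : k = Λ.k0
  · exact Or.inr ⟨1, zero_le_one, by rw [e, one_smul]; rfl⟩
  have d : ip Λ.B (Λ.C k) Λ.F = 0 := S.disj k Λ.k0 e
  by_cases n : ip Λ.B (Λ.C k) (Λ.C k) < 0
  · exact Or.inl ⟨n, d⟩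
  obtain ⟨a, b⟩ := T.hz (toR (Λ.C k)) (by rw [ip_toR, d, Int.cast_zero])
  rw [ip_toR] at a b
  have a' : ip Λ.B (Λ.C k) (Λ.C k) ≤ 0 := by exact_mod_cast a
  obtain ⟨q, hq, -⟩ := b (by rw [le_antisymm a' (not_lt.1 n), Int.cast_zero])
  refine Or.inr ⟨q, ?_, hq⟩
  have p1 : (0 : ℝ) < (ip Λ.B Λ.h (Λ.C k) : ℤ) := by exact_mod_cast S.hpos _ (S.memC k)
  have p2 : (0 : ℝ) < (ip Λ.B Λ.h Λ.F : ℤ) := by exact_mod_cast S.hpos _ (S.memC Λ.k0)
  rw [← ip_toR, hq, ip_smul_right, ip_toR] at p1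
  exact ((mul_pos_iff_of_pos_right p2).1 p1).le

theorem first (h : LA Λ) {L : ι → ℝ} (hL : ∀ c ∈ Ra Λ, 0 ≤ ip Λ.B L (toR c))
    (hF : 0 ≤ ip Λ.B L (toR Λ.F)) : L ∈ Λ.NT := by
  refine h.ct L ?_
  rintro c ((⟨a, b⟩ | ⟨k, rfl⟩) | ⟨a, b, d, -⟩)
  · exact hL c (negRa h.l1 a b)
  · rcases comp h.ns h.l1 k with ⟨a, -⟩ | ⟨q, q0, e⟩
    · exact hL _ (negRa h.l1 (h.ns.memC k) a)
    · rw [e, ip_smul_right]
      exact mul_nonneg q0 hF
  · exact hL c ⟨a, by omega⟩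

theorem mult (h : LA Λ) (nf : NF Λ) (hF : ip Λ.B Λ.F Λ.F = 0)
    (fin : {c | c ∈ Λ.P ∧ ip Λ.B c c < 0}.Finite)
    (pos : ∀ c ∈ Λ.P, ip Λ.B c c < 0 → 0 < ip Λ.B Λ.F c)
    (cq : ∀ k, ∃ q : ℝ, toR (Λ.C k) = q • toR Λ.F) {x : ι → ℤ} (hx : ip Λ.B x Λ.F = 0) :
    ∃ r : ℝ, toR x = r • toR Λ.F := by
  obtain ⟨b, hb⟩ := (fin.image fun c => ip Λ.B x c).bddBelow
  have z : ip Λ.B (toR x + (|b| : ℤ) • toR Λ.F) (toR Λ.F) = 0 := by
    rw [← Int.cast_smul_eq_zsmul ℝ, ip_add_left, ip_smul_left, ip_toR, ip_toR, hx, hF]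
    simp
  obtain ⟨q, -, e⟩ := nf hF (toR x + (|b| : ℤ) • toR Λ.F) (h.ct _ (by
    rintro c ((⟨a, d⟩ | ⟨k, rfl⟩) | a)
    · have b1 : b ≤ ip Λ.B x c := hb ⟨c, ⟨a, d⟩, rfl⟩
      have b2 := pos c a d
      have b3 := neg_abs_le b
      have b4 : 0 ≤ ip Λ.B x c + |b| * ip Λ.B Λ.F c := by nlinarith [abs_nonneg b]
      rw [← Int.cast_smul_eq_zsmul ℝ, ip_add_left, ip_smul_left, ip_toR, ip_toR]
      exact_mod_cast b4
    · obtain ⟨q, e⟩ := cq k
      rw [e, ip_smul_right, z, mul_zero]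
    · rw [h.hz.con hF] at a
      exact a.elim)) z
  refine ⟨q - (|b| : ℤ), ?_⟩
  rw [sub_smul, ← e, Int.cast_smul_eq_zsmul, add_sub_cancel_right]

theorem rank (h : LA Λ) (hF : ip Λ.B Λ.F Λ.F = 0)
    (cq : ∀ k, ∃ q : ℝ, toR (Λ.C k) = q • toR Λ.F) : Fintype.card ι = 10 := by
  have a : ∀ k, ip Λ.B (Λ.C k) Λ.K = 0 := by
    intro k
    obtain ⟨q, e⟩ := cq k
    have b : ((ip Λ.B (Λ.C k) (Λ.C k) : ℤ) : ℝ) = 0 := by
      rw [← ip_toR, e, ip_smul_left, ip_smul_right, ip_toR, hF]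
      simp
    have b' : ip Λ.B (Λ.C k) (Λ.C k) = 0 := by exact_mod_cast b
    have d := h.l1.CK k
    rw [ip_comm h.ns.sym]
    omega
  have b := h.l1.sumK Λ.K
  rw [Finset.sum_eq_zero fun k _ => a k] at b
  have d := h.ns.noe
  omega

theorem two (h : LA Λ) (m : ∀ x : ι → ℤ, ip Λ.B x Λ.F = 0 → ∃ r : ℝ, toR x = r • toR Λ.F) :
    Fintype.card ι ≤ 2 := by
  classical
  have p2 : (0 : ℝ) < (ip Λ.B Λ.h Λ.F : ℤ) := by exact_mod_cast h.ns.hpos _ (h.ns.memC Λ.k0)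
  have t := h.hz.span (Submodule.span ℝ (({toR Λ.h, toR Λ.F} : Finset (ι → ℝ)) : Set (ι → ℝ)))
    (fun c _ => by
      obtain ⟨r, e⟩ := m (ip Λ.B Λ.h Λ.F • c - ip Λ.B c Λ.F • Λ.h) (by
        rw [ip_sub_left, ip_smul_left, ip_smul_left]
        ring)
      rw [toR_sub, toR_zsmul, toR_zsmul, sub_eq_iff_eq_add] at e
      rw [← Submodule.smul_mem_iff _ p2.ne', e]
      exact add_mem (Submodule.smul_mem _ _ (Submodule.subset_span (by simp)))
        (Submodule.smul_mem _ _ (Submodule.subset_span (by simp))))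
  have u := finrank_span_finset_le_card (R := ℝ) ({toR Λ.h, toR Λ.F} : Finset (ι → ℝ))
  rw [Set.finrank, t, finrank_top, Module.finrank_fintype_fun_eq_card] at u
  exact u.trans Finset.card_le_two

end CtrA

open CtrA in
theorem ctr_stmt : CtrStmt := by
  intro ι κ _ _ Λ h nf bg ⟨c₀, h₀⟩ L hL
  by_cases f : 0 ≤ ip Λ.B L (toR Λ.F)
  · exact first h hL f
  exfalso
  have S := h.ns
  have T := h.l1
  have p2 : (0 : ℝ) < (ip Λ.B Λ.h Λ.F : ℤ) := by exact_mod_cast S.hpos _ (S.memC Λ.k0)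
  obtain ⟨s, hs⟩ : ∃ s : ℝ, s = -ip Λ.B L (toR Λ.F) / (ip Λ.B Λ.h Λ.F : ℤ) := ⟨_, rfl⟩
  have s0 : 0 < s := hs ▸ div_pos (by linarith) p2
  have z : ip Λ.B (L + s • toR Λ.h) (toR Λ.F) = 0 := by
    rw [ip_add_left, ip_smul_left, ip_toR, hs, div_mul_cancel₀ _ p2.ne', add_neg_cancel]
  have l1 : ∀ c ∈ Ra Λ, s * (ip Λ.B Λ.h c : ℤ) ≤ ip Λ.B (L + s • toR Λ.h) (toR c) := by
    intro c hc
    rw [ip_add_left, ip_smul_left, ip_toR]
    linarith [hL c hc]
  have l2 : ∀ c ∈ Ra Λ, 0 < s * (ip Λ.B Λ.h c : ℤ) := fun c hc =>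
    mul_pos s0 (by exact_mod_cast S.hpos c hc.1)
  have nt := first h (fun c hc => ((l2 c hc).trans_le (l1 c hc)).le) z.ge
  rcases S.sq0.lt_or_eq with hF | hF
  · obtain ⟨m, -, e⟩ := bg Λ.F ⟨T.pn _ (S.memC Λ.k0) S.sq0, hF⟩ c₀
    have a := T.efr _ nt _ e
    rw [toR_sub, toR_nsmul, ip_sub_right, ip_smul_right, z] at a
    linarith [l1 c₀ h₀, l2 c₀ h₀]
  have hF := hF.symm
  obtain ⟨q, q0, e⟩ := nf hF _ nt z
  simp only [e, ip_smul_left, ip_toR] at l1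
  have pos : ∀ c ∈ Λ.P, ip Λ.B c c < 0 → 0 < ip Λ.B Λ.F c := by
    intro c a b
    have d := (l2 c (negRa T a b)).trans_le (l1 c (negRa T a b))
    by_contra n
    have n' : ((ip Λ.B Λ.F c : ℤ) : ℝ) ≤ 0 := by exact_mod_cast not_lt.1 n
    exact absurd (mul_nonpos_of_nonneg_of_nonpos q0 n') (not_le.2 d)
  have cq : ∀ k, ∃ q : ℝ, toR (Λ.C k) = q • toR Λ.F := by
    intro k
    rcases comp S T k with ⟨a, b⟩ | ⟨r, -, a⟩
    · have := pos _ (S.memC k) a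
      rw [ip_comm S.sym] at this
      omega
    · exact ⟨r, a⟩
  have fin : {c | c ∈ Λ.P ∧ ip Λ.B c c < 0}.Finite := by
    refine (h.hg.fin Λ.h (max 1 ⌈2 * q / s⌉) T.hh).subset ?_
    rintro c ⟨a, b⟩
    have d := pos c a b
    have m1 := le_max_left 1 ⌈2 * q / s⌉
    have m2 := le_max_right 1 ⌈2 * q / s⌉
    rcases T.neg c a b with ⟨k, k0, rfl, -⟩ | ⟨n, c1, c2⟩ | ⟨-, -, -, n⟩
    · have := S.disj _ _ (Ne.symm k0)
      exact absurd (this ▸ d : (0 : ℤ) < 0) (lt_irrefl _)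
    · have u1 : ip Λ.B Λ.F c ≤ 2 := by
        have := Finset.single_le_sum (fun k _ => T.Cc c a n k) (Finset.mem_univ Λ.k0)
        rw [T.sumK, c2] at this
        exact this
      have u2 : ((ip Λ.B Λ.F c : ℤ) : ℝ) ≤ 2 := by exact_mod_cast u1
      have u3 : ((ip Λ.B Λ.h c : ℤ) : ℝ) ≤ 2 * q / s := by
        rw [le_div_iff₀ s0]
        nlinarith [l1 c (negRa T a b)]
      have u4 : ip Λ.B Λ.h c ≤ ⌈2 * q / s⌉ := by exact_mod_cast u3.trans (Int.le_ceil _)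
      have u5 := S.hpos c a
      refine ⟨?_, by omega⟩
      rw [ip_comm S.sym, abs_of_pos u5]
      omega
    · exact absurd (n Λ.k0 ▸ d : (0 : ℤ) < 0) (lt_irrefl _)
  have r1 := rank h hF cq
  have r2 := two h fun x hx => mult h nf hF fin pos cq hx
  omega

end Pool.Agent.MP_20d318_ag.AM

end

section

set_option autoImplicit false
set_option linter.unusedSectionVars false

namespace Pool.Agent.MP_20d318_ag.AM

open Pool.Agent.MP_20d318_ag.CB
open Pool.Agent.MP_fd6584_ag.MV (LA)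
open Pool.Agent.MP_20d318_ag.Lat (cone)

namespace BigA

variable {ι κ : Type} [Fintype ι] [Fintype κ] {Λ : Ld ι κ}

/-- A nonzero real nef class is positive on the ample class. -/
theorem posh (h : LA Λ) (g : Bg Λ) {L : ι → ℝ} (hL : L ∈ Λ.NT) (h0 : L ≠ 0) :
    0 < ip Λ.B L (toR Λ.h) := by
  by_contra hn
  have key : ∀ w, ip Λ.B L (toR w) ≤ 0 := fun w => by
    obtain ⟨m, -, hm⟩ := g Λ.h ⟨fun c hc => (h.ns.hpos c hc).le, h.l1.hh⟩ w
    have a := h.l1.efr L hL _ hm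
    rw [toR_sub, toR_nsmul, ip_sub_right, ip_smul_right] at a
    have b := mul_nonpos_of_nonneg_of_nonpos (Nat.cast_nonneg (α := ℝ) m) (not_lt.1 hn)
    linarith
  refine h0 (h.hg.nd L fun y => le_antisymm (key y) ?_)
  have a := key (-y)
  rw [toR_neg, ip_neg_right] at a
  linarith

end BigA

open BigA in
theorem big_stmt : BigStmt := by
  intro sol ι κ _ _ Λ h g ct y hy w
  obtain ⟨M, M0, hM⟩ := g y hy (w + Λ.h)
  obtain ⟨F, c, c0, hc⟩ := Lat.farkas_compact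
    (fun c : Ra Λ => MP_fd6584_ag.MV.ipL Λ.B (toR c.1))
    (MP_fd6584_ag.MV.ipL Λ.B (toR (M • y - w))) fun Z Z0 hZ hd => by
      have hN : Z ∈ Λ.NT := ct Z fun c hc => hZ ⟨c, hc⟩
      have a := h.l1.efr Z hN _ hM
      have b := posh h g hN Z0
      rw [← sub_sub, toR_sub, ip_sub_right] at a
      rw [MP_fd6584_ag.MV.ipL_apply] at hd
      exact absurd hd (by linarith)
  have e : toR (M • y - w) - ∑ i ∈ F, c i • toR i.1 = 0 := h.hg.nd _ fun z => by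
    have a := hc (toR z)
    simp only [MP_fd6584_ag.MV.ipL_apply] at a
    rw [ip_comm h.ns.sym, ip_sub_right, a, ip_sum_right, sub_eq_zero]
    exact Finset.sum_congr rfl fun i _ => (ip_smul_right _ _ _).symm
  have m : toR (M • y - w) ∈ cone (toR '' Ra Λ) := by
    rw [sub_eq_zero.1 e]
    exact (Lat.isCone_cone _).sum_mem _ _ fun i _ =>
      (Lat.isCone_cone _).smul _ (c0 i) _ (Lat.subset_cone _ ⟨i.1, i.2, rfl⟩)
  obtain ⟨n, n0, hn⟩ := sol_int sol m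
  refine ⟨n * M, n, Nat.mul_pos n0 M0, n0, ?_⟩
  rwa [smul_sub, smul_smul] at hn

end Pool.Agent.MP_20d318_ag.AM

end

section

set_option autoImplicit false
set_option linter.unusedSectionVars false

namespace Pool.Agent.MP_20d318_ag.AM

open Pool.Agent.MP_20d318_ag.CB
open Pool.Agent.MP_fd6584_ag.MV (LA)

namespace ClaA

variable {ι κ : Type} [Fintype ι] [Fintype κ] {Λ : Ld ι κ} {y : ι → ℤ}

theorem sum_nonneg {B : ι → ι → ℤ} {v : ι → ℤ} (s : Multiset (ι → ℤ))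
    (h : ∀ c ∈ s, 0 ≤ ip B v c) : 0 ≤ ip B v s.sum := by
  induction s using Multiset.induction_on with
  | empty => exact (ip_zero_right v).ge
  | cons a s ih =>
    rw [Multiset.sum_cons, ip_add_right]
    exact add_nonneg (h a (Multiset.mem_cons_self _ _))
      (ih fun c hc => h c (Multiset.mem_cons_of_mem hc))

theorem negsq (l : LA Λ) (hy : NB Λ y) {s : Multiset (ι → ℤ)} (h : ∀ c ∈ s, c ∈ Nu Λ y)
    (h0 : s ≠ 0) : ip Λ.B s.sum s.sum < 0 := by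
  have h1 : ip Λ.B y s.sum = 0 := by
    have a := sum_nonneg (B := Λ.B) (v := y) s fun c hc => (h c hc).2.ge
    have b := sum_nonneg (B := Λ.B) (v := -y) s fun c hc => by rw [ip_neg_left, (h c hc).2]; rfl
    rw [ip_neg_left] at b
    omega
  have h2 : s.sum ≠ 0 := fun e => by
    obtain ⟨c, hc⟩ := Multiset.exists_mem_of_ne_zero h0
    obtain ⟨t, rfl⟩ := Multiset.exists_cons_of_mem hc
    have a := l.ns.hpos c (h c hc).1.1
    have b := sum_nonneg (B := Λ.B) (v := Λ.h) t fun c hc =>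
      (l.ns.hpos c (h c (Multiset.mem_cons_of_mem hc)).1.1).le
    have d := congrArg (ip Λ.B Λ.h) e
    rw [Multiset.sum_cons, ip_add_right, ip_zero_right] at d
    omega
  have := l.hg.neg (toR y) (toR s.sum) (by rw [ip_toR]; exact_mod_cast hy.2)
    (by rw [ip_toR, ip_comm l.ns.sym, h1, Int.cast_zero]) fun e => h2 (toR_inj (e.trans toR_zero.symm))
  rw [ip_toR] at this
  exact_mod_cast this

theorem ex (l : LA Λ) (hy : NB Λ y) {s : Multiset (ι → ℤ)} (h : ∀ c ∈ s, c ∈ Nu Λ y)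
    (h0 : s ≠ 0) (hc : ∀ c ∈ s, 0 ≤ ip Λ.B (Λ.K + s.sum) c) : False := by
  classical
  obtain ⟨t, ht⟩ : ∃ t : Finset κ, ∀ k, k ∈ t ↔ Λ.C k ∈ s :=
    ⟨Finset.univ.filter fun k => Λ.C k ∈ s, by simp⟩
  have h1 : t.val.map Λ.C ≤ s := by
    refine (Multiset.le_iff_subset (t.nodup.map_on fun k hk m _ e => ?_)).2 fun c hc => ?_
    · by_contra hne
      have a := negsq l hy (s := {Λ.C k})
        (fun c hc => Multiset.mem_singleton.1 hc ▸ h _ ((ht k).1 hk)) (by simp)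
      have b := l.ns.disj k m hne
      rw [Multiset.sum_singleton] at a
      rw [← e] at b
      omega
    · obtain ⟨k, hk, rfl⟩ := Multiset.mem_map.1 hc
      exact (ht k).1 hk
  obtain ⟨r, hr⟩ := Multiset.le_iff_exists_add.1 h1
  have h2 : ∀ c ∈ s + r, c ∈ s := fun c hc => (Multiset.mem_add.1 hc).elim id fun a =>
    hr ▸ Multiset.mem_add.2 (Or.inr a)
  have h3 : s.sum = ∑ k ∈ t, Λ.C k + r.sum := by
    conv_lhs => rw [hr, Multiset.sum_add]
    rfl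
  refine (negsq l hy (s := s + r) (fun c a => h c (h2 c a)) (by simp [h0])).not_ge
    (sum_nonneg _ fun c a => ?_)
  have b := h2 c a
  have d := hc c b
  have e := l.l1.sumK c
  have f : 0 ≤ ∑ k ∈ tᶜ, ip Λ.B (Λ.C k) c := Finset.sum_nonneg fun k hk =>
    l.ns.pos _ (l.ns.memC k) _ (h c b).1.1 fun g => Finset.mem_compl.1 hk ((ht k).2 (g ▸ b))
  have g := congrArg (fun v => ip Λ.B v c) h3
  rw [← Finset.sum_add_sum_compl t] at e
  simp only [ip_add_left, ip_sum_left] at g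
  rw [ip_add_left] at d
  rw [Multiset.sum_add, ip_add_left]
  omega

theorem claimA (l : LA Λ) (hy : NB Λ y) (s : Multiset (ι → ℤ)) :
    (∀ c ∈ s, c ∈ Nu Λ y) → s ≠ 0 → ip Λ.B (Λ.K + s.sum) s.sum ≤ -2 := by
  induction s using Multiset.strongInductionOn with
  | _ s ih =>
    intro h h0
    by_contra hlt
    refine ex l hy h h0 fun c hc => ?_
    obtain ⟨t, rfl⟩ := Multiset.exists_cons_of_mem hc
    have a := (h c hc).1.2
    have b := Int.even_iff.1 (l.ns.par (c ::ₘ t).sum)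
    have d := ip_comm l.ns.sym c t.sum
    by_cases t0 : t = 0
    · subst t0
      simp only [Multiset.sum_cons, Multiset.sum_zero, add_zero, ip_add_left] at hlt
      omega
    have e := ih t (Multiset.lt_cons_self _ _) (fun c hc => h c (Multiset.mem_cons_of_mem hc)) t0
    simp only [Multiset.sum_cons, ip_add_left, ip_add_right] at hlt b e ⊢
    omega

end ClaA

open ClaA in
theorem cla_stmt : ClaStmt := by
  classical
  intro ι κ _ _ Λ l y hy c₀ hc₀ N hN hN0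
  obtain ⟨s, hs, rfl⟩ := AddSubmonoid.exists_multiset_of_mem_closure hN
  have s0 : s ≠ 0 := by rintro rfl; exact hN0 rfl
  by_contra hcon
  have h1 : ∀ c ∈ s, 0 ≤ ip Λ.B (Λ.K + c₀ + s.sum) c := fun c hc => by
    by_contra hlt
    refine hcon ⟨c, hs c hc, ?_, by omega⟩
    obtain ⟨t, rfl⟩ := Multiset.exists_cons_of_mem hc
    rw [Multiset.sum_cons, add_sub_cancel_left]
    exact multiset_sum_mem _ fun x hx =>
      AddSubmonoid.subset_closure (hs x (Multiset.mem_cons_of_mem hx))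
  have h2 := sum_nonneg s h1
  have h3 := claimA l hy (c₀ ::ₘ s)
    (fun c hc => (Multiset.mem_cons.1 hc).elim (fun e => e ▸ hc₀) (hs c)) Multiset.cons_ne_zero
  have h4 := claimA l hy s hs s0
  have h5 := hc₀.1.2
  have h6 := ip_comm l.ns.sym c₀ s.sum
  by_cases h : c₀ ∈ s
  · have h7 := h1 c₀ h
    simp only [Multiset.sum_cons, ip_add_left, ip_add_right] at h2 h3 h7
    omega
  · have h7 := sum_nonneg (B := Λ.B) (v := c₀) s fun c hc =>
      l.ns.pos _ hc₀.1.1 _ (hs c hc).1.1 fun e => h (e ▸ hc)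
    simp only [Multiset.sum_cons, ip_add_left, ip_add_right] at h2 h3 h4
    omega

end Pool.Agent.MP_20d318_ag.AM

end

section

set_option autoImplicit false
set_option linter.unusedSectionVars false

namespace Pool.Agent.MP_20d318_ag.AM

open Pool.Agent.MP_20d318_ag.CB Pool.Agent.MP_20d318_ag.CB.P
open Pool.Agent.MP_fd6584_ag.MV (LA)

namespace ChnA

variable {ι κ : Type} [Fintype ι] [Fintype κ] {Λ : Ld ι κ} {δ : (ι → ℤ) → ℤ} {y : ι → ℤ}

theorem pos (hδ : Dl Λ δ) {N : ι → ℤ}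
    (hN : N ∈ AddSubmonoid.closure {c | c ∈ Ra Λ ∧ 0 < ip Λ.B y c}) :
    ∀ W, ∃ n₀ : ℕ, ∀ n ≥ n₀, δ (n • y - W) ≤ δ (n • y - W - N) := by
  induction hN using AddSubmonoid.closure_induction with
  | mem c hc =>
    refine fun W => ⟨(ip Λ.B W c).toNat, fun n hn => hδ _ c hc.1 ?_⟩
    have a : (n : ℤ) * 1 ≤ n * ip Λ.B y c := mul_le_mul_of_nonneg_left hc.2 n.cast_nonneg
    rw [ip_sub_left, ip_nsmul_left]
    omega
  | zero => exact fun W => ⟨0, fun n _ => by rw [sub_zero]⟩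
  | add a b _ _ ha hb =>
    intro W
    obtain ⟨m, h1⟩ := ha W
    obtain ⟨m', h2⟩ := hb (W + a)
    refine ⟨max m m', fun n hn => (h1 n ((le_max_left _ _).trans hn)).trans ?_⟩
    simpa only [sub_sub, add_assoc] using h2 n ((le_max_right _ _).trans hn)

theorem null (l : LA Λ) (hC : Cla Λ) (hδ : Dl Λ δ) (hy : NB Λ y) {c : ι → ℤ} (hc : c ∈ Nu Λ y)
    (n : ℕ) : ∀ (k : ℕ), ∀ N ∈ AddSubmonoid.closure (Nu Λ y), ip Λ.B Λ.h N ≤ k →
      δ (n • y - c) ≤ δ (n • y - c - N) := by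
  intro k
  induction k with
  | zero =>
    intro N hN hk
    rcases eq_or_ne N 0 with rfl | h0
    · rw [sub_zero]
    · exact absurd (l.l1.hef N (AddSubmonoid.closure_mono (fun _ q => q.1.1) hN) h0) hk.not_gt
  | succ k ih =>
    intro N hN hk
    rcases eq_or_ne N 0 with rfl | h0
    · rw [sub_zero]
    obtain ⟨c', h1, h2, h3⟩ := hC y hy c hc N hN h0
    have a := l.ns.hpos c' h1.1.1
    have b := h1.1.2
    refine (ih _ h2 (by rw [ip_sub_right]; push_cast at hk; omega)).trans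
      ((hδ _ c' h1.1 ?_).trans_eq (congrArg δ (by abel)))
    rw [ip_add_left, ip_add_left] at h3
    rw [ip_sub_left, ip_sub_left, ip_sub_left, ip_nsmul_left, h1.2]
    omega

end ChnA

open ChnA in
theorem chn_stmt : ChnStmt := by
  intro ι κ _ _ Λ l hC δ hδ y hy c hc h N hN
  rcases h with h | h
  · have : N ∈ AddSubmonoid.closure (Nu Λ y ∪ {c | c ∈ Ra Λ ∧ 0 < ip Λ.B y c}) :=
      AddSubmonoid.closure_mono (fun x hx => (hy.1 x hx.1).eq_or_lt.imp (fun q => ⟨hx, q.symm⟩)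
        fun q => ⟨hx, q⟩) hN
    rw [AddSubmonoid.closure_union, AddSubmonoid.mem_sup] at this
    obtain ⟨a, ha, b, hb, rfl⟩ := this
    obtain ⟨m, hm⟩ := pos hδ hb (c + a)
    refine ⟨m, fun n hn => (null l hC hδ hy ⟨hc, h⟩ n _ a ha (Int.self_le_toNat _)).trans ?_⟩
    simpa only [sub_sub, add_assoc] using hm n hn
  · exact pos hδ (AddSubmonoid.closure_mono (fun x hx => And.intro hx (h x hx.1)) hN) c

end Pool.Agent.MP_20d318_ag.AM

end

section

set_option autoImplicit false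
set_option linter.unusedSectionVars false

namespace Pool.Agent.MP_20d318_ag.AM

open Pool.Agent.MP_20d318_ag.CB

theorem stb_stmt : StbStmt := by
  intro ι κ _ _ Λ _ big chn δ hδ y hy h0 c hc hyc
  obtain ⟨m, n', hm, hn', hN⟩ := big y hy c
  obtain ⟨n', rfl⟩ := Nat.exists_eq_succ_of_ne_zero hn'.ne'
  have hN' : m • y - c ∈ AddSubmonoid.closure (Ra Λ) := by
    have := add_mem hN (nsmul_mem (AddSubmonoid.subset_closure hc) n')
    rwa [succ_nsmul, show m • y - (n' • c + c) + n' • c = m • y - c by abel] at this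
  obtain ⟨n₀, hn₀⟩ := chn δ hδ y hy c hc hyc _ hN'
  by_contra hcon
  push Not at hcon
  have step : ∀ n ≥ n₀, δ ((n + m) • y) + 1 ≤ δ (n • y) := fun n hn => by
    have a := hn₀ (n + m) (by omega)
    rw [show (n + m) • y - c - (m • y - c) = n • y by rw [add_nsmul]; abel] at a
    exact (hcon (n + m) (by omega)).trans_le a
  have dec : ∀ j : ℕ, δ ((n₀ + j * m) • y) + j ≤ δ (n₀ • y) := fun j => by
    induction j with
    | zero => simp
    | succ j ih =>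
      have a := step (n₀ + j * m) (by omega)
      rw [add_mul, one_mul, ← add_assoc]
      push_cast
      linarith
  have a := dec ((δ (n₀ • y)).toNat + 1)
  have b := h0 (n₀ + ((δ (n₀ • y)).toNat + 1) * m)
  have d := h0 n₀
  omega

end Pool.Agent.MP_20d318_ag.AM

end

section

set_option autoImplicit false
set_option linter.unusedSectionVars false

namespace Pool.Agent.MP_20d318_ag.AM

open Pool.Agent.MP_20d318_ag.CB
open Pool.Agent.MP_fd6584_ag.MV (LA LM S1L Is Pe Bi Bo Ab ob_smul mem_Ab Po_F Ko_F isCone_Ab actL)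
open Pool.Agent.MP_20d318_ag.Lat (cone IsCone isCone_cone subset_cone cone_mono)

namespace EfbA

variable {ι κ : Type} [Fintype ι] [Fintype κ] {Λ : Ld ι κ}

theorem fin_sub {P : Set (ι → ℤ)} {R : Set (ι → ℝ)} (hR : R.Finite) (h : R ⊆ cone (toR '' P)) :
    ∃ T ⊆ P, T.Finite ∧ cone R ⊆ cone (toR '' T) := by
  choose! Q q1 q2 using fun r (hr : r ∈ R) => exists_fin (h hr)
  refine ⟨P ∩ toR ⁻¹' (⋃ r ∈ R, (Q r : Set (ι → ℝ))), Set.inter_subset_left,
    ((hR.biUnion fun r _ => (Q r).finite_toSet).preimage fun _ _ _ _ => toR_inj).inter_of_right _,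
    (isCone_cone _).cone_subset fun r hr => cone_mono (fun y hy => ?_) (q2 r hr)⟩
  obtain ⟨c, c1, rfl⟩ := q1 r hr hy
  exact ⟨c, ⟨c1, Set.mem_biUnion hr hy⟩, rfl⟩

theorem pos (h : LA Λ) {x : ι → ℝ} (hx : x ∈ cone (toR '' Λ.P)) :
    0 ≤ ip Λ.B x (toR Λ.F) ∧ (ip Λ.B x (toR Λ.F) = 0 → x ∈ Λ.V) := by
  have c : IsCone {x : ι → ℝ | 0 ≤ ip Λ.B x (toR Λ.F) ∧ (ip Λ.B x (toR Λ.F) = 0 → x ∈ Λ.V)} := by
    refine ⟨⟨(ip_zero_left _).ge, fun _ => zero_mem _⟩, fun a ha b hb => ?_, fun t ht a ha => ?_⟩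
    · rw [Set.mem_ofPred_eq, ip_add_left]
      exact ⟨add_nonneg ha.1 hb.1, fun e => add_mem (ha.2 (by linarith [ha.1, hb.1]))
        (hb.2 (by linarith [ha.1, hb.1]))⟩
    · rw [Set.mem_ofPred_eq, ip_smul_left]
      refine ⟨mul_nonneg ht ha.1, fun e => ?_⟩
      rcases mul_eq_zero.1 e with e | e
      · rw [e, zero_smul]
        exact zero_mem _
      · exact Submodule.smul_mem _ _ (ha.2 e)
  refine c.cone_subset ?_ hx
  rintro _ ⟨y, hy, rfl⟩
  rw [Set.mem_ofPred_eq, ip_toR]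
  refine ⟨?_, fun e => Submodule.subset_span ⟨y, ⟨hy, by exact_mod_cast e⟩, rfl⟩⟩
  rw [ip_comm h.ns.sym]
  exact_mod_cast h.l1.pn _ (h.ns.memC _) h.ns.sq0 y hy

theorem key [DecidableEq ι] (m : LM) (h : LA Λ) {G : Set (Matrix ι ι ℤ)} (h1 : 1 ∈ G)
    (hi : ∀ ρ ∈ G, ∃ ρ', Is Λ ρ ρ') (ht : ip Λ.B Λ.F Λ.F = 0 → ∃ N : ℕ, 0 < N ∧ ∀ x,
      ip Λ.B x Λ.F = 0 → ∃ ρ ∈ G, Λ.Tl ρ ((N : ℤ) • x)) {R : Set (ι → ℝ)} (hR : R.Finite)
    (hP : R ⊆ cone (toR '' Λ.P)) : Pe Λ ∧ ∃ S, ∃ G' ⊆ G, Bi Λ S G' ∧ R ⊆ S ∧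
      ∀ x ∈ cone (toR '' Λ.P), ip Λ.B x (toR Λ.F) = 0 → x ∈ S := by
  obtain ⟨hV, hG⟩ := m.vert ι κ Λ h
  obtain ⟨p1, p2⟩ := m.peA ι κ Λ h
  rcases h.ns.sq0.lt_or_eq with hF | hF
  · obtain ⟨a1, a2⟩ := m.biA ι κ Λ h hF
    exact ⟨p1 (a1 _ hG), _, _, Set.singleton_subset_iff.2 h1, a2, Set.subset_univ _,
      fun _ _ _ => trivial⟩
  replace hF := hF.symm
  obtain ⟨-, T, hT⟩ := endB1_stmt ι κ Λ h.ns h.hg h.l1 hF
  obtain ⟨N, hN, ha⟩ := ht hF
  obtain ⟨b, hb⟩ := ((hR.prod T.finite_toSet).image fun q =>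
    |ip Λ.B q.1 (toR q.2)| / ip Λ.B q.1 (toR Λ.F)).bddAbove
  obtain ⟨n₀, hn⟩ := exists_nat_ge b
  obtain ⟨M, hM⟩ : ∃ M : ℤ, M = N * (n₀ + 1) := ⟨_, rfl⟩
  have M0 : (n₀ : ℤ) < M := by
    have : (1 : ℤ) ≤ N := by exact_mod_cast hN
    rw [hM]
    nlinarith [Int.natCast_nonneg n₀]
  have M1 : 0 < M := (Int.natCast_nonneg n₀).trans_lt M0
  have hT' := ob_smul hT M1.ne'
  have hc := fun X' => m.cut m.low ι κ Λ X' h hF
  have vert : ∀ x ∈ cone (toR '' Λ.P), ip Λ.B x (toR Λ.F) = 0 →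
      x ∈ Bo Λ (T.image fun x => M • x) := fun x hx e => ⟨fun y hy => by
    rw [hT'.perp y hy x ((pos h hx).2 e), e, abs_zero, mul_zero], e.ge⟩
  refine ⟨fun L hL => ?_, _, G, le_rfl, m.biB ι κ Λ _ G h hF hT' (hc _ hT').1 (hc _ hT').2 h1
    (fun n => ?_) hi, fun r hr => ?_, vert⟩
  · have h0 : 0 ≤ ip Λ.B L (toR Λ.F) := ip_comm (R := ℝ) h.ns.sym _ L ▸ hL _
      (Ko_F hF.ge ▸ (h.l1.nefr _).2 (h.l1.pn _ (h.ns.memC _) hF.ge))
    rcases h0.lt_or_eq with h0 | h0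
    · exact m.peB ι κ Λ T h hF hT (fun X' a => (hc X' a).2) hG (m.nefF ι κ Λ T h hF hT hc hG) L hL h0
    · exact p2 m.low hF hV hG L hL h0.symm
  · obtain ⟨ρ, a2, a1⟩ := ha (∑ x ∈ T, (n (M • x) * (n₀ + 1)) • x) (by
      rw [ip_sum_left]
      refine Finset.sum_eq_zero fun x hx => ?_
      have := hT.perp x hx _ (Submodule.subset_span ⟨Λ.F, ⟨h.ns.memC _, hF⟩, rfl⟩)
      rw [ip_toR, Int.cast_eq_zero] at this
      rw [ip_smul_left, ip_comm h.ns.sym, this, mul_zero])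
    refine ⟨ρ, a2, ?_⟩
    have e : ∑ x ∈ T, n (M • x) • M • x = (N : ℤ) • ∑ x ∈ T, (n (M • x) * (n₀ + 1)) • x := by
      rw [Finset.smul_sum]
      refine Finset.sum_congr rfl fun x _ => ?_
      rw [smul_smul, smul_smul, mul_left_comm, ← hM]
    rw [Finset.sum_image fun x _ y _ e => smul_right_injective _ M1.ne' e, e]
    exact a1
  · rcases (pos h (hP hr)).1.lt_or_eq with h0 | h0
    · refine ⟨fun y hy => ?_, h0.le⟩
      obtain ⟨x, hx, rfl⟩ := Finset.mem_image.1 hy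
      have a1 : |ip Λ.B r (toR x)| ≤ n₀ * ip Λ.B r (toR Λ.F) :=
        (div_le_iff₀ h0).1 ((hb ⟨(r, x), ⟨hr, hx⟩, rfl⟩).trans hn)
      have a2 : ((ip Λ.B x x : ℤ) : ℝ) ≤ -1 := by
        exact_mod_cast Int.le_sub_one_of_lt (hT.neg x hx)
      have a3 : (n₀ : ℝ) ≤ M := by exact_mod_cast M0.le
      have a4 : (0 : ℝ) < M := by exact_mod_cast M1
      rw [toR_zsmul, ip_smul_right, ip_smul_left, ip_smul_right, abs_mul, abs_of_pos a4]
      push_cast
      have a5 : (n₀ : ℝ) ≤ -(M * (ip Λ.B x x : ℤ)) := by nlinarith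
      have a6 := mul_le_mul_of_nonneg_left
        (a1.trans (mul_le_mul_of_nonneg_right a5 h0.le)) a4.le
      linarith
    · exact vert r (hP hr) h0.symm

end EfbA

open EfbA in
theorem efb_stmt : EfbStmt := by
  intro m ι κ _ _ _ Λ G h hs h1 hi ht
  obtain ⟨hV, hG⟩ := m.vert ι κ Λ h
  have main : ∀ S G', Pe Λ → Bi Λ S G' →
      ∃ T ⊆ Λ.P, T.Finite ∧ cone (toR '' Λ.P) ∩ S ⊆ cone (toR '' T) := fun S G' pe b => by
    obtain ⟨R, -, e⟩ := m.rpAb m.dual ι κ Λ S G' h hs b hV hG Λ.F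
    obtain ⟨T, t1, t2, t3⟩ := fin_sub R.finite_toSet fun r hr => pe (e.le (subset_cone _ hr)).1
    refine ⟨T, t1, t2, fun x hx => t3 (e.ge ⟨(isCone_Ab _).cone_subset ?_ hx.1, hx.2⟩)⟩
    rintro _ ⟨c, hc, rfl⟩
    exact mem_Ab (AddSubmonoid.subset_closure ((Po_F h.ns.sq0).ge hc))
  refine ⟨fun R hR hP => ?_, ?_⟩
  · obtain ⟨pe, S, G', -, b, r, -⟩ := key m h h1 hi ht hR hP
    obtain ⟨T, t1, t2, t3⟩ := main S G' pe b
    have c := rp_cone b.rp
    refine ⟨T, t1, t2, fun x hx => t3 ⟨hx.1, c.cone_subset ?_ hx.2⟩⟩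
    rintro y (hy | ⟨i, rfl⟩ | ⟨i, rfl⟩)
    · exact r hy
    · have := b.shift 0 c.zero i 1
      rwa [zero_add, one_smul] at this
    · have := b.shift 0 c.zero i (-1)
      rwa [zero_add, neg_one_smul] at this
  · obtain ⟨pe, S, G', g, b, -, z⟩ := key m h h1 hi ht Set.finite_empty (Set.empty_subset _)
    obtain ⟨T, t1, t2, t3⟩ := main S G' pe b
    refine ⟨T, t1, t2, fun x hx => ?_⟩
    rcases (pos h hx).1.lt_or_eq with h0 | h0
    · obtain ⟨ρ, a1, a2⟩ := b.move x h0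
      obtain ⟨ρ', a3⟩ := b.iso ρ a1
      refine ⟨ρ, g a1, t3 ⟨((isCone_cone _).preimage (actL ρ)).cone_subset ?_ hx, a2⟩⟩
      rintro _ ⟨c, hc, rfl⟩
      exact subset_cone _ ⟨_, a3.mem c hc, toR_act ρ c⟩
    · refine ⟨1, h1, ?_⟩
      rw [act_one]
      exact t3 ⟨hx, z x hx h0.symm⟩

end Pool.Agent.MP_20d318_ag.AM

end

section

set_option autoImplicit false
set_option linter.unusedSectionVars false

namespace Pool.Agent.MP_20d318_ag.AM

open Pool.Agent.MP_fd6584_ag.Fn Pool.Agent.CBk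
open Pool.Agent.MP_fd6584_ag.AG hiding deg_inv deg_congr deg_of_unit deg_mul deg_prod deg_zpow
  deg_eq_zero deg_nonneg deg_div deg_pow
open Pool.Agent.MP_20d318_ag.CB Pool.Agent.MP_20d318_ag.CB.P

namespace RsaA

variable {k M I : Type} [Field k] [Field M] [Algebra k M] [Fintype I] {S : Sd k M I}
  [NeZero (2 : k)] [IsAlgClosed k]

theorem range_le (h1 : A1 S) (ν : Curve S.T) (D : I → ℤ) (hd : 0 ≤ ν.deg (S.lb D))
    (Q₀ : Place k ν.L) (hQ : ∀ s ∈ S.Sec D, ¬ IsU (ν.pt Q₀) (s * S.lb D (ν.pt Q₀))) :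
    (Module.finrank k (LinearMap.range (resMap ν D)) : ℤ) ≤ ν.deg (S.lb D) := by
  classical
  let E : Divisor k ν.L := Finsupp.ofSupportFinite
    (fun Q => Q.ord (ν.ev (S.lb D (ν.pt Q) / S.lb D ν.gen))) ((h1.cart D).fin h1.nice.toGood ν)
  have hE : deg E = ν.deg (S.lb D) := FF.deg_eq_finsum E
  have hle : LinearMap.range (resMap ν D) ≤ sec (E - Finsupp.single Q₀ 1) := by
    rintro _ ⟨s, rfl⟩ Q
    have hu := (h1.cart D).unit (ν.pt_mem Q) ν.gen_mem (ν.pt_le Q)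
    have h3 := s.2 _ (ν.pt_mem Q)
    have h4 : s.1 * S.lb D (ν.pt Q) =
        s.1 * S.lb D ν.gen * (S.lb D (ν.pt Q) / S.lb D ν.gen) := by
      have := (h1.cart D).ne ν.gen_mem
      field_simp
    have h5 : Q.Ge (Finsupp.single Q₀ (1 : ℤ) Q) (ν.ev (s.1 * S.lb D (ν.pt Q))) := by
      have h7 := ν.pt_reg Q ⟨_, ν.pt_le Q h3⟩ h3
      rw [ν.ev_eq, evO_of_mem _ (ν.pt_le Q h3), Finsupp.single_apply]
      split_ifs with e
      · subst e
        exact Q₀.ge1_iff.2 (h7.lt_of_ne fun e => hQ s.1 s.2 (ν.pt_loc Q₀ _ h3 e))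
      · exact Q.ge0_iff.2 h7
    rw [h4, ev_mul ν (s.2 _ ν.gen_mem) hu.mem] at h5
    refine Place.Ge.of_mul (evO_ne ν.ρ hu) ?_
    have h6 : -(E - Finsupp.single Q₀ 1 : Divisor k ν.L) Q +
        Q.ord (evO ν.gen ν.ρ (S.lb D (ν.pt Q) / S.lb D ν.gen)) = Finsupp.single Q₀ (1 : ℤ) Q := by
      rw [Finsupp.sub_apply, neg_sub]
      exact sub_add_cancel _ _
    rw [h6]
    exact h5
  have h7 : Module.finrank k (LinearMap.range (resMap ν D)) ≤ h0 (E - Finsupp.single Q₀ 1) :=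
    Submodule.finrank_mono hle
  have h8 : deg (E - Finsupp.single Q₀ 1) = deg E - 1 := by rw [FF.deg_sub, FF.deg_single]
  have := FF.h0_le_deg (D := E - Finsupp.single Q₀ 1) (by omega)
  omega

end RsaA

theorem rsa_stmt : RsaStmt := by
  intro k M I κ _ _ _ _ _ _ _ p h _ _ c φ P hP D hD hh O hO hle
  have h1 := h.all.a1
  obtain ⟨ν, hν, hn, -⟩ := h1.cur P hP.2.1
  have h3 := ker_resMap h.all.s h.all.a2 hP ν hν D
  have h4 := h.all.s.deg c φ P hP ν hν D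
  rw [hn, Nat.cast_one, one_mul] at h4
  by_contra hc
  push Not at hc
  by_cases e : O = ν.gen
  · subst e
    have h5 : LinearMap.range (resMap ν D) = ⊥ := by
      rw [LinearMap.range_eq_bot]
      ext s
      have m := s.2 _ ν.gen_mem
      exact (ev_eq_zero ν m).2 ⟨m, hc s.1 s.2⟩
    rw [h5, finrank_bot] at h3
    omega
  · obtain ⟨Q, rfl⟩ := h1.pt ν O hO (hν ▸ hle) e
    have := RsaA.range_le h1 ν D (by omega) Q hc
    omega

end Pool.Agent.MP_20d318_ag.AM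

end

section

set_option autoImplicit false
set_option linter.unusedSectionVars false

namespace Pool.Agent.MP_20d318_ag.AM

open Pool.Agent.MP_fd6584_ag.Fn Pool.Agent.CBk
open Pool.Agent.MP_fd6584_ag.AG hiding deg_inv deg_congr deg_of_unit deg_mul deg_prod deg_zpow
  deg_eq_zero deg_nonneg deg_div deg_pow
open Pool.Agent.MP_20d318_ag.CB Pool.Agent.MP_20d318_ag.CB.P
open Pool.Agent.MP_fd6584_ag.MV (LA LM S1L Is)

namespace SeaA

theorem chi_sub {I : Type} [Fintype I] {B : I → I → ℤ} (hs : ∀ i j, B i j = B j i)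
    (K D c : I → ℤ) (hc : ip B c c + ip B K c = -2) :
    chi2 B K D = chi2 B K (D - c) + 2 * ip B D c + 2 := by
  simp only [chi2, ip_sub_left, ip_sub_right]
  rw [ip_comm hs c D]
  omega

end SeaA

theorem sea_stmt : SeaStmt := by
  intro k M I κ _ _ _ _ _ _ _ p h l t hS hR y hy c hc hor φ P hP O hO hOP
  have hs : ∀ i j, p.B i j = p.B j i := l.ns.sym
  have hd : Dl p.ld fun D => 2 * p.h0 D - chi2 p.B p.K D := by
    intro D c' hc' hD
    obtain ⟨φ', P', hP'⟩ := hc'.1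
    have a := h.all.a3.res c' φ' P' hP' D
    have b := SeaA.chi_sub hs p.K D c' hc'.2
    have hD' : -1 ≤ ip p.B D c' := hD
    rw [max_eq_right (by omega)] at a
    show 2 * p.h0 D - chi2 p.B p.K D ≤ 2 * p.h0 (D - c') - chi2 p.B p.K (D - c')
    omega
  have hn : ∀ n : ℕ, 0 ≤ 2 * p.h0 (n • y) - chi2 p.B p.K (n • y) := by
    intro n
    refine sub_nonneg.2 (h.all.a4.rr2 _ fun he => ?_)
    have a : 0 ≤ ip p.B p.h (p.K - n • y) :=
      l.l1.efn p.h (fun c' hc' => (l.ns.hpos c' hc').le) _ he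
    have b : 0 ≤ ip p.B y p.h := l.l1.efn y hy.1 _ l.ns.heff
    have e : ip p.B p.h p.K < 0 := l.l1.hK
    rw [ip_sub_right, ip_nsmul_right, ip_comm hs p.h y] at a
    have := mul_nonneg (Int.natCast_nonneg n) b
    omega
  obtain ⟨n, n0, hle⟩ := hS _ hd y hy hn c hc hor
  have hle' : 2 * p.h0 (n • y - c) - chi2 p.B p.K (n • y - c) ≤
      2 * p.h0 (n • y) - chi2 p.B p.K (n • y) := hle
  have b := SeaA.chi_sub hs p.K (n • y) c hc.2
  have y0 : 0 ≤ ip p.B (n • y) c := by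
    rw [ip_nsmul_left]
    exact mul_nonneg (Int.natCast_nonneg n) (hy.1 c hc.1)
  obtain ⟨s, s1, s2⟩ := hR c φ P hP (n • y) y0 (by omega) O hO hOP
  exact ⟨n, n0, s, s1, s2⟩

end Pool.Agent.MP_20d318_ag.AM

end

section

set_option autoImplicit false
set_option linter.unusedSectionVars false

namespace Pool.Agent.MP_20d318_ag.AM

open Pool.Agent.MP_fd6584_ag.Fn Pool.Agent.CBk
open Pool.Agent.MP_fd6584_ag.AG hiding deg_inv deg_congr deg_of_unit deg_mul deg_prod deg_zpow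
  deg_eq_zero deg_nonneg deg_div deg_pow
open Pool.Agent.MP_20d318_ag.CB Pool.Agent.MP_20d318_ag.CB.P
open Pool.Agent.MP_fd6584_ag.MV (LA LM S1L Is)

namespace SemA

theorem spl {ι κ : Type} [Fintype ι] [Fintype κ] {Λ : Ld ι κ} (l : LA Λ) {y : ι → ℤ} (hy : Λ.Nef y)
    {N : ι → ℤ} (hN : N ∈ AddSubmonoid.closure (Ra Λ)) :
    ∃ E ∈ AddSubmonoid.closure (Nu Λ y), ∃ j : ℕ, Λ.Nef (N - E + j • y) := by
  induction hN using AddSubmonoid.closure_induction with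
  | mem c hc =>
    rcases (hy c hc.1).lt_or_eq with q | q
    · refine ⟨0, zero_mem _, (ip Λ.B c c).natAbs, fun c' hc' => ?_⟩
      rw [sub_zero, ip_add_left, ip_nsmul_left]
      rcases eq_or_ne c c' with rfl | e
      · have := neg_abs_le (ip Λ.B c c)
        rw [Int.natCast_natAbs]
        nlinarith [abs_nonneg (ip Λ.B c c)]
      · exact add_nonneg (l.ns.pos c hc.1 c' hc' e) (mul_nonneg (Nat.cast_nonneg _) (hy c' hc'))
    · exact ⟨c, AddSubmonoid.subset_closure ⟨hc, q.symm⟩, 0, fun c' _ => by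
        rw [sub_self, zero_smul, add_zero, ip_zero_left]⟩
  | zero => exact ⟨0, zero_mem _, 0, fun c' _ => by rw [sub_self, zero_smul, add_zero, ip_zero_left]⟩
  | add a b _ _ ha hb =>
    obtain ⟨E, e1, j, e2⟩ := ha
    obtain ⟨E', e3, j', e4⟩ := hb
    refine ⟨E + E', add_mem e1 e3, j + j', fun c hc => ?_⟩
    rw [show a + b - (E + E') + (j + j') • y = a - E + j • y + (b - E' + j' • y) by
      rw [add_smul]; abel, ip_add_left]
    exact add_nonneg (e2 c hc) (e4 c hc)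

variable {k M I κ : Type} [Field k] [Field M] [Algebra k M] [Fintype I] [Fintype κ]
  {p : Pd k M I κ} {O : Subalgebra k M}

/-- A section that does not vanish at `O`. -/
def Un (p : Pd k M I κ) (O : Subalgebra k M) (D : I → ℤ) : Prop :=
  ∃ s ∈ p.Sec D, IsU O (s * p.lb D O)

theorem un0 : Un p O 0 :=
  ⟨1, fun R _ => by rw [Sd.lb_zero, mul_one]; exact R.one_mem, by
    rw [Sd.lb_zero, mul_one]; exact isU_one⟩

theorem Un.add (h : Pair p) (hO : O ∈ p.T) {D D' : I → ℤ} (a : Un p O D) (b : Un p O D') :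
    Un p O (D + D') := by
  obtain ⟨s, s1, s2⟩ := a
  obtain ⟨t, t1, t2⟩ := b
  refine ⟨s * t, h.all.a2.mul _ _ s s1 t t1, ?_⟩
  rw [Sd.lb_add _ (h.all.a1.gne O hO), mul_mul_mul_comm]
  exact s2.mul t2

theorem Un.nsmul (h : Pair p) (hO : O ∈ p.T) {D : I → ℤ} (a : Un p O D) (n : ℕ) :
    Un p O (n • D) := by
  induction n with
  | zero => rw [zero_smul]; exact un0
  | succ n ih => rw [succ_nsmul]; exact ih.add h hO a

theorem alt (h : Pair p) (hO : O ∈ p.T) {A : Set (I → ℤ)} (hA : A ⊆ p.PP) {E : I → ℤ}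
    (hE : E ∈ AddSubmonoid.closure A) :
    Un p O E ∨ ∃ c ∈ A, ∃ φ P, p.Prm c φ P ∧ O ≤ plO P := by
  induction hE using AddSubmonoid.closure_induction with
  | mem c hc =>
    obtain ⟨φ, P, hP⟩ := hA hc
    have s := h.all.a1.pmem c φ P hP
    exact (isU_or_mx (s O hO)).imp (fun u => ⟨φ, s, u⟩) fun u =>
      ⟨c, hc, φ, P, hP, (h.all.a1.pmx c φ P hP O hO).1 u⟩
  | zero => exact Or.inl un0
  | add a b _ _ ha hb =>
    exact ha.elim (fun u => hb.imp_left fun v => u.add h hO v) Or.inr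

end SemA

open SemA

theorem sem_stmt : SemStmt := by
  intro k M I κ _ _ _ _ _ _ _ p h l _ big sea y hy O hO
  by_cases c0 : ∃ c ∈ Nu p.ld y, ∃ φ P, p.Prm c φ P ∧ O ≤ plO P
  · obtain ⟨c, hc, φ, P, hP, hle⟩ := c0
    exact sea y hy c hc.1 (Or.inl hc.2) φ P hP O hO hle
  obtain ⟨m, n, m0, n0, hN⟩ := big y hy p.ld.h
  obtain ⟨E, e1, j, e2⟩ := spl l hy.1 hN
  have uE := (alt h hO (fun c hc => hc.1.1) e1).resolve_right c0
  obtain ⟨Z, hZ⟩ : ∃ Z, Z = m • y - n • p.ld.h - E + j • y := ⟨_, rfl⟩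
  rw [← hZ] at e2
  have n1 : (0 : ℤ) < n := Nat.cast_pos.2 n0
  have ps : ∀ c ∈ p.ld.P, 0 < ip p.ld.B (n • p.ld.h + Z) c := fun c hc => by
    rw [ip_add_left, ip_nsmul_left]
    exact add_pos_of_pos_of_nonneg (mul_pos n1 (l.ns.hpos c hc)) (e2 c hc)
  have nf : p.ld.Nef (n • p.ld.h + Z) := fun c hc => (ps c hc).le
  have nb : NB p.ld (n • p.ld.h + Z) := by
    refine ⟨nf, ?_⟩
    have ef := (l.l1.ne _ nf).2
    have a1 := l.l1.hef _ ef fun e => by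
      have := ps _ (l.ns.memC p.ld.k0)
      rw [e, ip_zero_left] at this
      exact this.false
    have a2 := l.l1.efn Z e2 _ ef
    rw [ip_add_left, ip_nsmul_left]
    exact add_pos_of_pos_of_nonneg (mul_pos n1 a1) a2
  obtain ⟨a, a0, ua⟩ : SeAt p (n • p.ld.h + Z) O := by
    obtain ⟨m', n', m1, -, hN'⟩ := big _ nb 0
    rw [smul_zero, sub_zero] at hN'
    rcases alt h hO (fun c hc => hc.1) hN' with u | ⟨c, hc, φ, P, hP, hle⟩
    · exact ⟨m', m1, u⟩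
    · exact sea _ nb c hc (Or.inr ps) φ P hP O hO hle
  have u := Un.add h hO ua (uE.nsmul h hO a)
  rw [← smul_add, show n • p.ld.h + Z + E = (m + j) • y by rw [hZ, add_smul]; abel,
    smul_smul] at u
  exact ⟨a * (m + j), Nat.mul_pos a0 (by omega), u⟩

end Pool.Agent.MP_20d318_ag.AM

end

section

set_option autoImplicit false
set_option linter.unusedSectionVars false

namespace Pool.Agent.MP_20d318_ag.AM

open Pool.Agent.MP_fd6584_ag.Fn Pool.Agent.CBk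
open Pool.Agent.MP_fd6584_ag.AG hiding deg_inv deg_congr deg_of_unit deg_mul deg_prod deg_zpow
  deg_eq_zero deg_nonneg deg_div deg_pow
open Pool.Agent.MP_20d318_ag.CB Pool.Agent.MP_20d318_ag.CB.P
open Pool.Agent.MP_fd6584_ag.MV (LA LM S1L Is)

namespace SqzA

variable {k M I κ : Type} [Field k] [Field M] [Algebra k M] [Fintype I] [Fintype κ]
  {p : Pd k M I κ}

/-- Two independent sections. -/
structure Two (p : Pd k M I κ) (D : I → ℤ) (s t : M) : Prop where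
  hs : s ∈ p.Sec D
  ht : t ∈ p.Sec D
  ne : s ≠ 0
  ind : ∀ a : k, t ≠ a • s

/-- No prime divisor is contained in both divisors. -/
def Cop (p : Pd k M I κ) (D : I → ℤ) (s t : M) : Prop := ∀ P : Place k M, plO P ∈ p.T →
  s * p.lb D (plO P) ∈ mx (plO P) → IsU (plO P) (t * p.lb D (plO P))

theorem h_nonneg (hL : LA p.ld) {D : I → ℤ} (hD : D ∈ p.Ef) : 0 ≤ ip p.B p.h D :=
  hL.l1.efn p.h (fun c hc => (hL.ns.hpos c hc).le) D hD

theorem mov (hP : Pair p) (hL : LA p.ld) (n : ℕ) : ∀ D s t, ip p.B p.h D < n → Two p D s t →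
    ∃ D' s' t', D - D' ∈ p.Ef ∧ Two p D' s' t' ∧ Cop p D' s' t' := by
  induction n with
  | zero =>
    intro D s t hn h
    have := h_nonneg hL (hP.all.a2.eff1 D s h.hs h.ne)
    simp only [Nat.cast_zero] at hn
    omega
  | succ n ih =>
    intro D s t hn h
    by_cases hc : Cop p D s t
    · exact ⟨D, s, t, by rw [sub_self]; exact p.Ef.zero_mem, h, hc⟩
    · unfold Cop at hc
      push Not at hc
      obtain ⟨P, hT, h1, h2⟩ := hc
      obtain ⟨φ, hφ⟩ := hP.all.a2.cl P hT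
      have hm : p.cl P ∈ p.PP := ⟨φ, P, hφ⟩
      have hp := hP.all.a1.hpos _ hm
      have a1 := hP.all.a2.sub _ φ P hφ D s h.hs h1
      have a2 := hP.all.a2.sub _ φ P hφ D t h.ht ⟨h.ht _ hT, h2⟩
      have hlt : ip p.B p.h (D - p.cl P) < n := by
        rw [ip_sub_right]
        push_cast at hn
        omega
      obtain ⟨D', s', t', e, r⟩ := ih (D - p.cl P) (s / φ) (t / φ) hlt ⟨a1, a2, div_ne_zero h.ne hφ.1,
        fun a ha => h.ind a (by
          rw [← div_mul_cancel₀ t hφ.1, ha, smul_mul_assoc, div_mul_cancel₀ s hφ.1])⟩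
      refine ⟨D', s', t', ?_, r⟩
      have e2 : D - D' = D - p.cl P - D' + p.cl P := by abel
      rw [e2]
      exact p.Ef.add_mem e (AddSubmonoid.subset_closure hm)

theorem Two.ne_zero (hP : Pair p) {D : I → ℤ} {s t : M} (h : Two p D s t) : D ≠ 0 := by
  rintro rfl
  obtain ⟨a, ha⟩ := hP.all.a2.const s fun O hO => by
    have := h.hs O hO
    rwa [Sd.lb_zero, mul_one] at this
  obtain ⟨b, hb⟩ := hP.all.a2.const t fun O hO => by
    have := h.ht O hO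
    rwa [Sd.lb_zero, mul_one] at this
  have a0 : a ≠ 0 := by
    rintro rfl
    exact h.ne (by rw [ha, map_zero])
  refine h.ind (b / a) ?_
  rw [ha, hb, Algebra.smul_def, ← map_mul, div_mul_cancel₀ b a0]

theorem Two.nef (hP : Pair p) {D : I → ℤ} {s t : M} (h : Two p D s t) (c : Cop p D s t) :
    p.ld.Nef D := by
  rintro c' ⟨φ, P, hφ⟩
  by_cases u : IsU (plO P) (s * p.lb D (plO P))
  · exact (hP.all.a2.nn _ φ P hφ D s h.hs u).1
  · exact (hP.all.a2.nn _ φ P hφ D t h.ht (c P hφ.2.1 ⟨h.hs _ hφ.2.1, u⟩)).1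

theorem Two.free (hP : Pair p) (hL : LA p.ld) (hT : CC.TA p.toSd) {D : I → ℤ} {s t : M}
    (h : Two p D s t) (c : Cop p D s t) (h0 : ip p.B D D = 0) {O : Subalgebra k M} (hO : O ∈ p.T) :
    ∃ u ∈ p.Sec D, IsU O (u * p.lb D O) := by
  by_cases u : IsU O (s * p.lb D O)
  · exact ⟨s, h.hs, u⟩
  · obtain ⟨P, hPT, hle, hm⟩ := hT.above D s h.hs h.ne O hO ⟨h.hs O hO, u⟩
    obtain ⟨φ, hφ⟩ := hP.all.a2.cl P hPT
    have e := hT.dvd _ φ P hφ D s h.hs h.ne hm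
    have e1 : 0 ≤ ip p.B D (D - p.cl P) := hL.l1.efn D (h.nef hP c) _ e
    rw [ip_sub_right, h0] at e1
    have e2 := hP.all.a2.nn _ φ P hφ D t h.ht (c P hPT hm)
    exact ⟨t, h.ht, e2.2.1 (by have := e2.1; omega) O hO hle⟩

/-- A free class proportional to a nef class of square zero that moves. -/
theorem exists_free (hP : Pair p) (hL : LA p.ld) (hT : CC.TA p.toSd) {w : I → ℤ} {s t : M}
    (hw : p.ld.Nef w) (h0 : ip p.B w w = 0) (h : Two p w s t) : ∃ D, 0 < ip p.B p.h D ∧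
      (∃ q : ℝ, toR D = q • toR w) ∧ ∀ O ∈ p.T, ∃ u ∈ p.Sec D, IsU O (u * p.lb D O) := by
  obtain ⟨D, s', t', e, r, c⟩ := mov hP hL ((ip p.B p.h w).toNat + 1) w s t (by push_cast; omega) h
  have hD : D ∈ p.Ef := hP.all.a2.eff1 D s' r.hs r.ne
  have e1 : 0 ≤ ip p.B w D := hL.l1.efn w hw D hD
  have e2 : 0 ≤ ip p.B w (w - D) := hL.l1.efn w hw _ e
  have e3 : 0 ≤ ip p.B D D := hL.l1.efn D (r.nef hP c) D hD
  rw [ip_sub_right, h0] at e2
  have e4 : ip p.B D w = 0 := by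
    rw [ip_comm hP.all.s.sym]
    omega
  have e5 := hL.hg.iso (toR w) (toR D) (by rw [ip_toR]; exact_mod_cast h0)
    (fun z => h.ne_zero hP (toR_inj (z.trans toR_zero.symm))) (by rw [ip_toR]; exact_mod_cast e4)
  rw [ip_toR] at e5
  have e6 : ip p.B D D ≤ 0 := by exact_mod_cast e5.1
  have e7 : ip p.B D D = 0 := le_antisymm e6 e3
  exact ⟨D, hL.l1.hef D hD (r.ne_zero hP), e5.2 (by exact_mod_cast e7),
    fun O hO => r.free hP hL hT c e7 hO⟩

theorem prop {B : I → I → ℤ} (h : I → ℤ) {y D : I → ℤ} {v : I → ℝ} {q q' : ℝ} (hy : toR y = q' • v)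
    (hD : toR D = q • v) : ip B h D • y = ip B h y • D := by
  apply toR_inj
  rw [toR_zsmul, toR_zsmul, ← ip_toR, ← ip_toR, hy, hD, ip_smul_right, ip_smul_right, smul_smul,
    smul_smul]
  congr 1
  ring

theorem seAt_of {y D : I → ℤ} {a b : ℤ} (ha : 0 < a) (hb : 0 ≤ b) (e : a • y = b • D)
    {O : Subalgebra k M} {u : M} (hu : u ∈ p.Sec D) (hU : IsU O (u * p.lb D O)) : SeAt p y O := by
  obtain ⟨m, rfl⟩ := Int.eq_ofNat_of_zero_le ha.le
  obtain ⟨n, rfl⟩ := Int.eq_ofNat_of_zero_le hb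
  have e' : m • y = (n : ℤ) • D := by rw [← e, natCast_zsmul]
  have f : ∀ R : Subalgebra k M, u ^ n * p.lb ((n : ℤ) • D) R = (u * p.lb D R) ^ n := fun R => by
    rw [Sd.lb_zsmul, zpow_natCast, mul_pow]
  refine ⟨m, by exact_mod_cast ha, u ^ n, ?_, ?_⟩
  · rw [e']
    intro R hR
    rw [f]
    exact R.pow_mem (hu R hR) n
  · rw [e', f]
    exact hU.pow n

end SqzA

open SqzA in
theorem sqz_stmt : SqzStmt := by
  intro k M I κ _ _ _ _ _ _ _ p hP hL hT y hy h0 O hO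
  have hE : y ∈ p.Ef := (hL.l1.ne y hy).2
  have hC : ∀ i, 0 ≤ ip p.B (p.C i) y := fun i => by
    rw [ip_comm hP.all.s.sym]
    exact hy _ (hL.ns.memC i)
  have hS : ∑ i, ip p.B (p.C i) y = -2 * ip p.B p.K y := hL.l1.sumK y
  have hN : 0 ≤ ∑ i, ip p.B (p.C i) y := Finset.sum_nonneg fun i _ => hC i
  have fin : ∀ (w : I → ℤ) (s t : M) (q : ℝ), p.ld.Nef w → ip p.B w w = 0 → Two p w s t →
      toR y = q • toR w → SeAt p y O := by
    intro w s t q hw w0 h hq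
    obtain ⟨D, d0, ⟨q', hq'⟩, hf⟩ := exists_free hP hL hT hw w0 h
    obtain ⟨u, hu, hU⟩ := hf O hO
    exact seAt_of d0 (h_nonneg hL hE) (prop p.h hq hq') hu hU
  by_cases hK : ip p.B p.K y = 0
  · have hF : ip p.B (p.C p.k0) y = 0 := by
      rw [hK, mul_zero] at hS
      exact (Finset.sum_eq_zero_iff_of_nonneg fun i _ => hC i).1 hS _ (Finset.mem_univ _)
    rw [ip_comm hP.all.s.sym] at hF
    obtain ⟨q, hq, hq', -⟩ := (hL.l1.hz (toR y) (by rw [ip_toR]; exact_mod_cast hF)).2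
      (by rw [ip_toR]; exact_mod_cast h0)
    rcases hq' with rfl | hq'
    · rw [zero_smul] at hq
      obtain rfl : y = 0 := toR_inj (hq.trans toR_zero.symm)
      refine ⟨1, one_pos, 1, ?_, ?_⟩
      · intro R _
        rw [smul_zero, Sd.lb_zero, mul_one]
        exact R.one_mem
      · rw [smul_zero, Sd.lb_zero, mul_one]
        exact isU_one
    · obtain ⟨P, hφ⟩ := hP.prm p.k0
      obtain ⟨t, ht, hi⟩ := hP.pen hq'
      exact fin p.F (p.ψ p.k0) t q (hL.l1.pn _ (hL.ns.memC _) hL.ns.sq0) hq'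
        ⟨hP.all.a1.pmem _ _ _ hφ, ht, hφ.1, hi⟩ hq
  · have hp : Even (ip p.B y y + ip p.B p.K y) := hL.ns.par y
    rw [h0, zero_add] at hp
    obtain ⟨r, hr⟩ := hp
    have hne : p.K - y ∉ p.Ef := fun e => by
      have e1 : 0 ≤ ip p.B y (p.K - y) := hL.l1.efn y hy _ e
      rw [ip_sub_right, h0, ip_comm hP.all.s.sym] at e1
      omega
    have h2 := hP.all.a4.rr2 y hne
    unfold chi2 at h2
    obtain ⟨s, hs, s0⟩ := hP.all.a2.eff2 y hE
    obtain ⟨t, ht, hi⟩ := hT.h02 y (by omega) s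
    exact fin y s t 1 hy h0 ⟨hs, ht, s0, hi⟩ (one_smul _ _).symm

end Pool.Agent.MP_20d318_ag.AM

end

section

set_option autoImplicit false
set_option linter.unusedSectionVars false

namespace Pool.Agent.MP_20d318_ag.AM

open Pool.Agent.MP_fd6584_ag.Fn Pool.Agent.CBk
open Pool.Agent.MP_fd6584_ag.AG hiding deg_inv deg_congr deg_of_unit deg_mul deg_prod deg_zpow
  deg_eq_zero deg_nonneg deg_div deg_pow
open Pool.Agent.MP_20d318_ag.CB Pool.Agent.MP_20d318_ag.CB.P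
open Pool.Agent.MP_fd6584_ag.MV (LA LI mem_LI)
open Pool.Agent.MP_20d318_ag.Lat (cone subset_cone le_on_cone)

namespace FgbA

section lat

variable {ι κ : Type} [Fintype ι] [Fintype κ] {Λ : Ld ι κ} {T : Set (ι → ℤ)}

theorem nefs (sol : SolStmt.{0}) (l : LA Λ) (hT : T ⊆ Λ.P) (hf : T.Finite) :
    ∃ Y : Set (ι → ℤ), Y.Finite ∧ (∀ y ∈ Y, Λ.Nef y) ∧ ∀ D ∈ AddSubmonoid.closure T,
      (∀ c ∈ T, 0 ≤ ip Λ.B D c) → ∃ m : ℕ, 0 < m ∧ m • D ∈ AddSubmonoid.closure Y := by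
  obtain ⟨R, h1, h2⟩ := MP_fd6584_ag.MV.rp_cut Λ.B (rp_fin (L := LI ι) (hf.image toR) (by
    rintro _ ⟨c, -, rfl⟩
    exact mem_LI.2 ⟨c, rfl⟩)) hf
  have h3 : toR '' (toR ⁻¹' (R : Set (ι → ℝ))) = R :=
    Set.image_preimage_eq_of_subset fun x hx => mem_LI.1 (h1 hx)
  refine ⟨toR ⁻¹' (R : Set (ι → ℝ)), R.finite_toSet.preimage fun _ _ _ _ => toR_inj,
    fun y hy c hc => ?_, fun D hD h => sol_int sol ?_⟩
  · obtain ⟨a, b⟩ := h2.le (subset_cone _ hy)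
    have : (0 : ℝ) ≤ ip Λ.B (toR y) (toR c) := by
      by_cases q : c ∈ T
      · exact b c q
      · refine le_on_cone (f := 0) (g := MP_fd6584_ag.MV.ipL Λ.B (toR c)) ?_ _ a
        rintro _ ⟨t, ht, rfl⟩
        rw [MP_fd6584_ag.MV.ipL_apply, ip_toR, LinearMap.zero_apply]
        exact Int.cast_nonneg (l.ns.pos t (hT ht) c hc fun e => q (e ▸ ht))
    rw [ip_toR] at this
    exact_mod_cast this
  · rw [h3, h2]
    refine ⟨closure_sub ?_, fun c hc => by rw [ip_toR]; exact Int.cast_nonneg (h c hc)⟩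
    exact (AddMonoidHom.map_mclosure (⟨⟨toR, toR_zero⟩, toR_add⟩ : (ι → ℤ) →+ ι → ℝ) T).le
      ⟨D, hD, rfl⟩

theorem drop (l : LA Λ) (hT : T ⊆ Λ.P) {c D : ι → ℤ} (hc : c ∈ Λ.P)
    (hD : D ∈ AddSubmonoid.closure T) : 0 ≤ ip Λ.B D c ∨ D - c ∈ AddSubmonoid.closure T := by
  induction hD using AddSubmonoid.closure_induction with
  | mem x hx =>
    rcases eq_or_ne x c with rfl | q
    · exact Or.inr (by rw [sub_self]; exact zero_mem _)
    · exact Or.inl (l.ns.pos x (hT hx) c hc q)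
  | zero => exact Or.inl (ip_zero_left c).ge
  | add x y hx hy a b =>
    rcases a with a | a
    · rcases b with b | b
      · exact Or.inl (by rw [ip_add_left]; exact add_nonneg a b)
      · exact Or.inr (by rw [add_sub_assoc]; exact add_mem hx b)
    · exact Or.inr (by rw [add_sub_right_comm]; exact add_mem a hy)

end lat

variable {k M I J : Type} [Field k] [Field M] [Algebra k M] [Fintype I] [Fintype J]
  {S : Sd k M I} {d : J → Subalgebra k M → M} {D D' : I → ℤ} {t t' : M} {O V : Subalgebra k M}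

variable (S d) in
/-- monomials -/
def Mo (D : I → ℤ) (t : M) : Prop := ∃ a : J → ℕ, ∀ O ∈ S.T, ∏ j, d j O ^ a j = t * S.lb D O

theorem lb_nsmul (m : ℕ) : S.lb (m • D) O = S.lb D O ^ m := by
  rw [← natCast_zsmul, S.lb_zsmul, zpow_natCast]

theorem Mo.mul (h : A1 S) (a : Mo S d D t) (b : Mo S d D' t') : Mo S d (D + D') (t * t') := by
  obtain ⟨a, ha⟩ := a
  obtain ⟨b, hb⟩ := b
  refine ⟨a + b, fun O hO => ?_⟩
  simp only [Pi.add_apply, pow_add, Finset.prod_mul_distrib]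
  rw [ha O hO, hb O hO, S.lb_add (h.gne O hO), mul_mul_mul_comm]

theorem Mo.pow (a : Mo S d D t) (m : ℕ) : Mo S d (m • D) (t ^ m) := by
  obtain ⟨a, ha⟩ := a
  refine ⟨fun j => a j * m, fun O hO => ?_⟩
  simp only [pow_mul, Finset.prod_pow]
  rw [ha O hO, lb_nsmul, mul_pow]

theorem mo_one {j : J} (h : d j = fun O => t * S.lb D O) : Mo S d D t := by
  classical
  refine ⟨Pi.single j 1, fun O _ => ?_⟩
  rw [Finset.prod_eq_single j (fun i _ q => by rw [Pi.single_eq_of_ne q, pow_zero]) (by simp),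
    Pi.single_eq_same, pow_one, h]

variable (S d) in
/-- a multiple has a monomial that is a unit -/
def Go (O : Subalgebra k M) (D : I → ℤ) : Prop :=
  ∃ (m : ℕ) (t : M), 0 < m ∧ Mo S d (m • D) t ∧ IsU O (t * S.lb (m • D) O)

theorem go_cl (h : A1 S) (hO : O ∈ S.T) {Y : Set (I → ℤ)} (hY : ∀ y ∈ Y, Go S d O y)
    (hD : D ∈ AddSubmonoid.closure Y) : Go S d O D := by
  induction hD using AddSubmonoid.closure_induction with
  | mem x hx => exact hY x hx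
  | zero =>
    refine ⟨1, 1, one_pos, ⟨0, fun O _ => ?_⟩, ?_⟩ <;> rw [smul_zero, S.lb_zero, one_mul]
    · simp
    · exact isU_one
  | add x y _ _ a b =>
    obtain ⟨m, t, a1, a2, a3⟩ := a
    obtain ⟨n, u, b1, b2, b3⟩ := b
    have e : (m * n) • (x + y) = n • m • x + m • n • y := by
      rw [smul_add, smul_smul, smul_smul, mul_comm n m]
    refine ⟨m * n, t ^ n * u ^ m, mul_pos a1 b1, e ▸ (a2.pow n).mul h (b2.pow m), ?_⟩
    rw [e, S.lb_add (h.gne O hO), lb_nsmul n, lb_nsmul (D := n • y) m, mul_mul_mul_comm,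
      ← mul_pow, ← mul_pow]
    exact (a3.pow n).mul (b3.pow m)

theorem mon_go (h : A1 S) (hO : O ∈ S.T) (hV : O ≤ V) {n : ℕ} (hn : 0 < n) (g : Go S d O (n • D))
    {φ : M} (hφ : φ ∈ S.Sec D) (h0 : φ ≠ 0) : Mon S.T d V (S.lb D) φ := by
  obtain ⟨m, t, a1, ⟨a, a2⟩, a3⟩ := g
  rw [smul_smul] at a2 a3
  have t0 : t ≠ 0 := left_ne_zero_of_mul a3.1
  refine ⟨m * n, a, φ ^ (m * n) / t, mul_pos a1 hn, hV ?_, fun R hR => ?_⟩
  · have := a3.div_mem (O.pow_mem (hφ O hO) (m * n))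
    rwa [lb_nsmul, mul_pow, mul_div_mul_right _ _ (pow_ne_zero _ (S.lb_ne (h.gne O hO) D))] at this
  · rw [a2 R hR, lb_nsmul, ← mul_assoc, div_mul_cancel₀ _ t0, ← mul_pow,
      div_self (pow_ne_zero _ (mul_ne_zero h0 (S.lb_ne (h.gne R hR) D)))]
    exact isU_one

theorem mon_up (h : A1 S) {φ : M} (a : Mo S d D' t) (b : Mon S.T d V (S.lb (D - D')) (φ / t)) :
    Mon S.T d V (S.lb D) φ := by
  obtain ⟨m, b, μ, b1, b2, b3⟩ := b
  obtain ⟨a, ha⟩ := a.pow m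
  refine ⟨m, b + a, μ, b1, b2, fun O hO => ?_⟩
  refine Eq.subst (motive := IsU O) ?_ (b3 O hO)
  simp only [Pi.add_apply, pow_add, Finset.prod_mul_distrib]
  rw [ha O hO, lb_nsmul, S.lb_sub (h.gne O hO), div_mul_div_comm, div_pow, div_div_eq_mul_div,
    mul_pow t, mul_assoc]

end FgbA

open FgbA in
theorem fgb_stmt : FgbStmt := by
  intro sol cpt k M I κ _ _ _ _ _ _ _ p h l t se T hT hf
  have a1 := h.all.a1
  obtain ⟨Y, y1, y2, y3⟩ := nefs sol l hT hf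
  have ed : ∀ c, ∀ s ∈ p.Sec c, s ≠ 0 → Ed p.T fun O => s * p.lb c O :=
    fun c s a b => ⟨a1.pcart c s b, a⟩
  choose! F f1 f2 f3 using fun (y : I → ℤ) (hy : y ∈ Y) => cpt k M p.T a1.nice.toFine
    {e | ∃ (m : ℕ) (s : M), 0 < m ∧ s ∈ p.Sec (m • y) ∧ s ≠ 0 ∧ e = fun O => s * p.lb (m • y) O}
    (by rintro _ ⟨m, s, -, -, b, rfl⟩; exact a1.pcart _ s b) fun O hO =>
      let ⟨m, a, s, b, c⟩ := se y (y2 y hy) O hO
      ⟨_, ⟨m, s, a, b, left_ne_zero_of_mul c.1, rfl⟩, c⟩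
  choose! φ hφ using fun (c : I → ℤ) (hc : c ∈ T) => (hT hc : ∃ φ P, p.Prm c φ P)
  have fin : ((⋃ y ∈ Y, F y) ∪ (fun c O => φ c * p.lb c O) '' T).Finite :=
    (y1.biUnion f2).union (hf.image _)
  let this := fin.fintype
  refine ⟨_, this, Subtype.val, ?_, ?_⟩
  · rintro ⟨e, he | ⟨c, hc, rfl⟩⟩
    · obtain ⟨y, hy, he⟩ := Set.mem_iUnion₂.1 he
      obtain ⟨m, s, -, a, b, rfl⟩ := f1 y hy he
      exact ed _ s a b
    · obtain ⟨P, hP⟩ := hφ c hc
      exact ed c _ (a1.pmem c _ P hP) hP.1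
  have h0 : ∀ D ∈ AddSubmonoid.closure T, 0 ≤ ip p.B p.h D := fun D hD =>
    l.l1.efn _ (fun c hc => (a1.hpos c hc).le) D (AddSubmonoid.closure_mono hT hD)
  suffices ∀ n : ℕ, ∀ D ∈ AddSubmonoid.closure T, ip p.B p.h D < n → ∀ ψ ∈ p.Sec D, ψ ≠ 0 →
      ∀ V, IsVal V → Mon p.T (J := ↑((⋃ y ∈ Y, F y) ∪ (fun c O => φ c * p.lb c O) '' T))
        Subtype.val V (p.lb D) ψ from
    fun D hD => this ((ip p.B p.h D).toNat + 1) D hD (by omega)
  intro n
  induction n with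
  | zero => exact fun D hD q => absurd (h0 D hD) (by omega)
  | succ n ih =>
    intro D hD q ψ s1 s2 V hV
    by_cases r : ∀ c ∈ T, 0 ≤ ip p.B D c
    · obtain ⟨m, m1, m2⟩ := y3 D hD r
      obtain ⟨O, hO, d⟩ := a1.nice.cpl V hV
      refine mon_go a1 hO d.1 m1 (go_cl a1 hO (fun y hy => ?_) m2) s1 s2
      obtain ⟨e, e1, e2⟩ := f3 y hy O hO
      obtain ⟨m, s, a, -, -, rfl⟩ := f1 y hy e1
      exact ⟨m, s, a, mo_one (j := ⟨_, Or.inl (Set.mem_biUnion hy e1)⟩) rfl, e2⟩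
    · push Not at r
      obtain ⟨c, hc, r⟩ := r
      obtain ⟨P, hP⟩ := hφ c hc
      refine mon_up a1 (mo_one (j := ⟨_, Or.inr ⟨c, hc, rfl⟩⟩) rfl)
        (ih (D - c) ((drop l hT (hT hc) hD).resolve_left r.not_ge) ?_ _ (t.van c _ P hP D ψ s1 r)
          (div_ne_zero s2 hP.1) V hV)
      have := a1.hpos c (hT hc)
      rw [ip_sub_right]
      omega

end Pool.Agent.MP_20d318_ag.AM

end

section

set_option autoImplicit false
set_option linter.unusedSectionVars false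

namespace Pool.Agent.MP_20d318_ag.AM

open Pool.Agent.MP_fd6584_ag.Fn Pool.Agent.CBk
open Pool.Agent.MP_fd6584_ag.AG hiding deg_inv deg_congr deg_of_unit deg_mul deg_prod deg_zpow
  deg_eq_zero deg_nonneg deg_div deg_pow
open Pool.Agent.MP_20d318_ag.CB Pool.Agent.MP_20d318_ag.CB.P
open Pool.Agent.MP_20d318_ag.CH (lv0 ldN Iso cl cl_val n1_ext)
open Pool.Agent.MP_20d318_ag.Lat (cone subset_cone isCone_cone)

theorem BseA.key {k M I κ : Type} [Field k] [IsAlgClosed k] [Field M] [Algebra k M] [Fintype I]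
    [Fintype κ] {p : Pd k M I κ} {ψ : (I → ℝ) ≃ₗ[ℝ] N1 (lv0 p).Y} (h : Pair p)
    (hν : ∀ (ν : Curve (lv0 p).Y) x, ν.lin (ψ x) = ip p.B x (toR (p.zz ν)))
    {f : Subalgebra k M → M} (hf : IsCart (lv0 p).Y f) : ∃ c φ, φ ≠ 0 ∧
      (∀ O ∈ p.T, IsU O (φ * p.lb c O / f O)) ∧ ψ (toR c) = cl (lv0 p).Y f := by
  obtain ⟨c, φ, a, b⟩ := h.all.a2.pic f hf
  exact ⟨c, φ, a, b, .trans (n1_ext fun ν => by
    rw [hν, ip_toR]
    exact (congrArg _ (h.all.a1.zzd ν c)).symm.trans (cl_val (h.all.a1.cart c) ν).symm)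
    (cl_lin h.all.a1.nice.toGood (h.all.a1.cart c) hf b)⟩

theorem bse_stmt : BseStmt := by
  intro s k M I κ _ _ _ _ _ _ _ p h _ _ G ψ i hν E F
  refine ⟨fun f hf h0 => ?_, fun R fin _ ef => ?_, ?_⟩
  · obtain ⟨c, φ, -, b, q⟩ := BseA.key h hν hf
    obtain rfl : c = 0 :=
      toR_inj ((ψ.injective ((q.trans h0).trans (map_zero ψ).symm)).trans toR_zero.symm)
    refine ⟨1, φ⁻¹, one_pos, fun O hO => ?_⟩
    have := (b O hO).inv
    rwa [Sd.lb_zero, mul_one, inv_div, div_eq_inv_mul, ← pow_one (f O)] at this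
  · obtain ⟨T, T1, T2, T3⟩ := E.fin (ψ.symm '' R) (fin.image _) (by
      rintro _ ⟨x, hx, rfl⟩
      exact (i.Ef _).1 ((ψ.apply_symm_apply x).symm ▸ ef hx))
    obtain ⟨J, j, d, d1, d2⟩ := F T T1 T2
    refine ⟨J, j, d, fg_iff.2 ⟨d1, fun e he hs V hV => ?_⟩⟩
    obtain ⟨c, φ, a, b, q⟩ := BseA.key h hν he.1
    have z : ∀ n, ψ.symm ((lv0 p).nd.c n) = toR (p.ld.C n) := fun n =>
      ψ.symm_apply_eq.2 (i.c n).symm
    obtain ⟨m, m0, m1⟩ := sol_int s (T3 (a := toR c) ⟨(i.Ef _).1 (q ▸ he.ef), by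
      rw [← ψ.symm_apply_apply (toR c), q]
      refine ((isCone_cone _).preimage ψ.symm.toLinearMap).cone_subset ?_ hs
      rintro x (hx | ⟨n, rfl⟩ | ⟨n, rfl⟩)
      · exact subset_cone _ (.inl ⟨x, hx, rfl⟩)
      · exact subset_cone _ (.inr (.inl ⟨n, (z n).symm⟩))
      · exact subset_cone _ (.inr (.inr ⟨n, ((map_neg ψ.symm _).trans (z n ▸ rfl)).symm⟩))⟩)
    have l : ∀ O, φ ^ m * p.lb (m • c) O = (φ * p.lb c O) ^ m := fun O => by
      rw [← natCast_zsmul, Sd.lb_zsmul, zpow_natCast, mul_pow]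
    obtain ⟨n, w, μ, n0, μ1, μ2⟩ := d2 _ m1 (φ ^ m) (fun O hO => by
      obtain ⟨u, v, -⟩ := b O hO
      rw [l, ← div_mul_cancel₀ (φ * p.lb c O) (div_ne_zero_iff.1 u).2]
      exact O.pow_mem (O.mul_mem v (he.2 O hO)) m) (pow_ne_zero _ a) V hV
    refine ⟨m * n, w, μ, mul_pos m0 n0, μ1, fun O hO => ?_⟩
    have := (μ2 O hO).mul ((b O hO).pow (m * n))
    rwa [l, ← pow_mul, div_pow, div_mul_div_cancel₀
      (pow_ne_zero _ (div_ne_zero_iff.1 (b O hO).1).1), ← one_mul (e O)] at this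
  · obtain ⟨T, T1, T2, T3⟩ := E.cov
    refine ⟨ψ '' (toR '' T), (T2.image _).image _, ?_, ?_, fun x hx => ?_⟩
    · rintro _ ⟨_, ⟨c, -, rfl⟩, rfl⟩
      exact (i.Λ _).2 ⟨c, rfl⟩
    · rintro _ ⟨_, ⟨c, hc, rfl⟩, rfl⟩
      exact (i.Ef _).2 (subset_cone _ ⟨c, T1 hc, rfl⟩)
    · obtain ⟨y, rfl⟩ := ψ.surjective x
      obtain ⟨ρ, r1, r2⟩ := T3 y ((i.Ef _).1 hx)
      obtain ⟨g, g1, g2⟩ := i.G (CH.actR ρ) ⟨ρ, r1, rfl⟩
      exact ⟨g, g1, g2 y ▸ (CH.cone_map ψ.toLinearMap _).ge ⟨_, r2, rfl⟩⟩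

end Pool.Agent.MP_20d318_ag.AM

end
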