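import Pool.Agent.MP_20d318_ag.AM.K4
import Pool.Agent.MP_20d318_ag.KK.RowsB
import Pool.Agent.MP_20d318_ag.KK.RowsY
import Pool.Agent.MP_20d318_ag.CH.Asm
import Pool.Agent.MP_20d318_ag.CH.RowsY

/-! Rows on the steps. -/

section

set_option autoImplicit false

open scoped TensorProduct

namespace Pool.Agent.MP_20d318_ag.AM

open Pool.Agent.MP_fd6584_ag.Fn Pool.Agent.CBk Polynomial
open Pool.Agent.MP_fd6584_ag.AG hiding deg_inv deg_congr deg_of_unit deg_mul deg_prod deg_zpow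
  deg_eq_zero deg_nonneg deg_div deg_pow
open Pool.Agent.MP_20d318_ag.KK Pool.Agent.MP_20d318_ag.KK.VqP

theorem gen_stmt : GenStmt := by
  classical
  intro hK k M M' K _ _ _ _ _ _ _ _ _ ι ι' e R R' A S S' h m m'
  have := h.loc
  have := h.loc'
  have := td (k := k) (L := IsLocalRing.ResidueField R) (K := IsLocalRing.ResidueField R')
  obtain ⟨V, hV, H⟩ := exists_val_of (XAlg.ev (pp ι ι' R R') A)
    (Polynomial.mapAlgHom (red R R')).toRingHom fun q hq => by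
      obtain ⟨c, rfl⟩ := hK k M M' K ι ι' e R R' A S S' h q hq
      simp [(res0 ⟨S', h.mS'⟩).2 m', (res0 ⟨S, h.mS⟩).2 m]
  refine ⟨V, hV, ov_of hV (fun z => XAlg.ev_C (pp ι ι' R R') A z ▸ (H _).1) fun z hz =>
    XAlg.ev_C (pp ι ι' R R') A z ▸ (H _).2.2 (by simp [hz]),
    XAlg.ev_X (pp ι ι' R R') A ▸ isU_of_not_mx (H X).1 fun q => by simpa using (H X).2.1 q,
    fun I s u u' y hu hi hs b hb => ?_⟩
  obtain ⟨U, hU⟩ : ∃ U : I → R, ∀ b ∈ s, (U b : M) = u b :=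
    ⟨fun b => if q : b ∈ s then ⟨u b, (hu b q).1⟩ else 0, fun b q => by simp only [dif_pos q]⟩
  obtain ⟨U', hU'⟩ : ∃ U' : I → R', ∀ b ∈ s, (U' b : M') = u' b :=
    ⟨fun b => if q : b ∈ s then ⟨u' b, (hu b q).2⟩ else 0, fun b q => by simp only [dif_pos q]⟩
  have e1 : XAlg.ev (pp ι ι' R R') A (∑ b ∈ s, C (U b ⊗ₜ[k] U' b) * X ^ y b) =
      ∑ b ∈ s, ι (u b) * ι' (u' b) * A ^ y b := by
    rw [map_sum]
    refine Finset.sum_congr rfl fun b q => ?_
    rw [map_mul, map_pow, XAlg.ev_C, XAlg.ev_X, pm_tmul, ← hU b q, ← hU' b q]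
    rfl
  have z : (∑ b ∈ s, C (U b ⊗ₜ[k] U' b) * X ^ y b).map (red R R').toRingHom = 0 :=
    (H _).2.1 (e1 ▸ hs)
  have z1 : ∑ c ∈ s with y c = y b, resid R (U c) ⊗ₜ[k] resid R' (U' c) = 0 := by
    have := congrArg (coeff · (y b)) z
    simp only [coeff_map, finsetSum_coeff, coeff_C_mul_X_pow, map_sum, coeff_zero] at this
    rw [Finset.sum_filter]
    refine (Finset.sum_congr rfl fun c _ => ?_).trans this
    by_cases q : y c = y b
    · rw [if_pos q, if_pos q.symm]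
      rfl
    · rw [if_neg q, if_neg (Ne.symm q), map_zero]
  rw [← hU b hb, ← res0, ← Module.forall_dual_apply_eq_zero_iff k]
  intro φ
  refine hi (fun c => φ (resid R (U c))) (y b) ?_ b hb rfl
  have z2 := congrArg (TensorProduct.lift ((LinearMap.lsmul k _).comp φ)) z1
  simp only [map_sum, TensorProduct.lift.tmul, LinearMap.comp_apply, LinearMap.lsmul_apply,
    map_zero, ← map_smul] at z2
  rw [← map_sum, res0, AddSubmonoidClass.coe_finsetSum] at z2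
  rwa [Finset.sum_congr rfl fun c q => by
    rw [← hU' c (Finset.mem_filter.1 q).1, ← Subalgebra.coe_smul]]

end Pool.Agent.MP_20d318_ag.AM

end

section

set_option autoImplicit false
set_option linter.unusedSectionVars false

namespace Pool.Agent.MP_20d318_ag.AM

open Pool.Agent.MP_fd6584_ag.Fn Pool.Agent.CBk
open Pool.Agent.MP_fd6584_ag.AG hiding deg_inv deg_congr deg_of_unit deg_mul deg_prod deg_zpow
  deg_eq_zero deg_nonneg deg_div deg_pow
open Pool.Agent.MVg (Sc)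
open Pool.Agent.MP_20d318_ag.KK

namespace SplA

variable {k M M' K : Type} [Field k] [Field M] [Field M'] [Field K] [Algebra k M] [Algebra k M']
  [Algebra k K] {ι : M →ₐ[k] K} {ι' : M' →ₐ[k] K}

theorem fix {θ : K ≃ₐ[k] K} (h1 : ∀ m, θ (ι m) = ι m) (h2 : ∀ m, θ (ι' m) = ι' m) {f : K}
    (h : Rt ι ι' f) : θ f = f := by
  have key : ∀ a ∈ Bq ι ι' ⊤ ⊤ ∅, θ a = a := fun a ha =>
    (Algebra.adjoin_le (S := AlgHom.equalizer (θ : K →ₐ[k] K) (AlgHom.id k K)) (by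
      rintro _ (⟨m, -, rfl⟩ | ⟨m, -, rfl⟩ | ⟨⟨⟩⟩)
      exacts [h1 m, h2 m])) ha
  obtain ⟨a, ha, b, hb, -, rfl⟩ := h
  rw [map_div₀, key a ha, key b hb]

/-- One of the two halves dominates. -/
theorem half [NeZero (2 : k)] {V : Subalgebra k K} (hV : IsVal V) {μ ν : K} (h0 : μ ≠ 0) :
    ∃ s, (s = μ + ν ∨ s = μ - ν) ∧ s ≠ 0 ∧ μ / s ∈ V := by
  obtain ⟨c, cV, two⟩ : ∃ c ∈ V, c * 2 = 1 := ⟨_, V.algebraMap_mem 2⁻¹, by
    rw [← map_ofNat (algebraMap k K) 2, ← map_mul, inv_mul_cancel₀ (NeZero.ne 2), map_one]⟩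
  have key : ∀ s t : K, s + t = 2 * μ → s ≠ 0 → t / s ∈ V → μ / s ∈ V := fun s t e s0 q => by
    have : μ / s = c * (1 + t / s) := by
      field_simp
      linear_combination (-c) * e - μ * two
    exact this ▸ V.mul_mem cV (V.add_mem V.one_mem q)
  have ne : μ + ν = 0 → μ - ν ≠ 0 := fun a b =>
    h0 (by linear_combination c * (a + b) - μ * two)
  by_cases a : μ + ν = 0
  · exact ⟨_, Or.inr rfl, ne a, key _ (μ + ν) (by ring) (ne a) (by simp [a])⟩
  by_cases b : μ - ν = 0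
  · exact ⟨_, Or.inl rfl, a, key _ (μ - ν) (by ring) a (by simp [b])⟩
  rcases hV ((μ - ν) / (μ + ν)) with q | q
  · exact ⟨_, Or.inl rfl, a, key _ _ (by ring) a q⟩
  · exact ⟨_, Or.inr rfl, b, key _ (μ + ν) (by ring) b (inv_div (μ - ν) (μ + ν) ▸ q)⟩

end SplA

theorem spl_stmt : SplStmt := by
  intro k M M' K Λ Λ' κ κ' n n' _ _ _ _ _ _ _ _ _ _ _ L L' ι ι' v e Z h hS g g' a hg hg' μ hμ s1 V
    hV
  obtain ⟨θ, hθ⟩ := hS _ _ _ _ (PolR.lf_one h (Or.inl rfl)) (PolR.lf_one h.symm (Or.inr rfl))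
  have s2 : Sc Z (lb L L' ι ι' g g' a) (θ.1 μ) := fun O hO => by
    have h1 : θ.1 (μ * lb L L' ι ι' g g' a (O.comap (θ.1 : K →ₐ[k] K))) ∈ O :=
      s1 _ ((θ.2 O).1 hO)
    have h2 := PolR.lb_up h hg hg' hθ a hO
    have h3 := O.mul_mem h1 h2.inv_mem
    rwa [map_mul, inv_div, mul_assoc, mul_div_cancel₀ _ (div_ne_zero_iff.1 h2.1).1] at h3
  have h3 : θ.1 v = (-1) ^ (3 - e) * v := by simpa using hθ.h3
  have tt : θ.1 (θ.1 μ) = μ := by
    obtain ⟨x, y, hx, hy, rfl⟩ := h.fld.dec μ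
    simp only [map_add, map_mul, map_pow, map_neg, map_one, h3, SplA.fix hθ.h1 hθ.h2 hx,
      SplA.fix hθ.h1 hθ.h2 hy]
    rw [← mul_assoc ((-1 : K) ^ (3 - e)), ← mul_pow, neg_mul_neg, one_mul, one_pow, one_mul]
  obtain ⟨s, hs, s0, hv⟩ := SplA.half hV (ν := θ.1 μ) hμ
  have nr := h.fld.nrm θ.1 hθ.h1 hθ.h2 h3 s
  have s3 : Sc Z (lb L L' ι ι' g g' a) s := fun O hO => by
    rcases hs with rfl | rfl
    · exact add_mul μ _ _ ▸ O.add_mem (s1 O hO) (s2 O hO)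
    · exact sub_mul μ _ _ ▸ O.sub_mem (s1 O hO) (s2 O hO)
  refine ⟨s * s, mul_ne_zero s0 s0, ?_, fun O hO => ?_, ?_⟩
  · rcases hs with rfl | rfl
    · rwa [map_add, tt, add_comm (θ.1 μ) μ] at nr
    · have := nr.mul (Rt.of_mem (neg_mem (one_mem _)))
      rwa [map_sub, tt, mul_assoc, mul_neg_one, neg_sub] at this
  · rw [PolR.lb_sq, mul_mul_mul_comm]
    exact O.mul_mem (s3 O hO) (s3 O hO)
  · rw [sq, ← div_mul_div_comm]
    exact V.mul_mem hv hv

end Pool.Agent.MP_20d318_ag.AM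

end

section

set_option autoImplicit false
set_option linter.unusedSectionVars false

namespace Pool.Agent.MP_20d318_ag.AM

open Pool.Agent.MP_fd6584_ag.Fn Pool.Agent.CBk
open Pool.Agent.MP_fd6584_ag.AG hiding deg_inv deg_congr deg_of_unit deg_mul deg_prod deg_zpow
  deg_eq_zero deg_nonneg deg_div deg_pow
open Pool.Agent.MVg (Sc Fac Two BasStmt)
open Pool.Agent.MP_20d318_ag.CH (Lv Lf sX cl Nd n1_ext)
open Pool.Agent.MP_20d318_ag.KK

namespace TenA

theorem reb {k M M' K I : Type} [Field k] [Field M] [Field M'] [Field K] [Algebra k M]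
    [Algebra k M'] [Algebra k K] (ι : M →ₐ[k] K) (ι' : M' →ₐ[k] K) (s : Finset I) (m : I → M)
    (m' : I → M') : ∃ (J : Type) (_ : Fintype J) (β : J → M) (n : J → M'),
      LinearIndependent k β ∧ (∀ j, ∃ i ∈ s, m i = β j) ∧
        ∑ i ∈ s, ι (m i) * ι' (m' i) = ∑ j, ι' (n j) * ι (β j) := by
  obtain ⟨b, hb, hs, hl⟩ := exists_linearIndependent k (m '' s)
  have := ((s.finite_toSet.image m).subset hb).fintype
  have h1 : ∀ i, ∃ c : b → k, i ∈ s → ∑ j, c j • (j : M) = m i := fun i => by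
    by_cases hi : i ∈ s
    · have h2 : m i ∈ Submodule.span k (Set.range ((↑) : b → M)) := by
        rw [Subtype.range_coe, hs]
        exact Submodule.subset_span ⟨i, hi, rfl⟩
      obtain ⟨c, hc⟩ := (Submodule.mem_span_range_iff_exists_fun k).1 h2
      exact ⟨c, fun _ => hc⟩
    · exact ⟨0, fun q => absurd q hi⟩
  choose c hc using h1
  refine ⟨b, this, (↑), fun j => ∑ i ∈ s, c i j • m' i, hl, fun j => hb j.2, ?_⟩
  simp only [map_sum, Finset.sum_mul]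
  rw [Finset.sum_comm]
  refine Finset.sum_congr rfl fun i hi => ?_
  rw [← hc i hi, map_sum, Finset.sum_mul]
  refine Finset.sum_congr rfl fun j _ => ?_
  rw [map_smul, map_smul, smul_mul_assoc, smul_mul_assoc, mul_comm]

end TenA

theorem ten_stmt : TenStmt := by
  intro hG k M M' K Λ Λ' κ κ' n n' _ _ _ _ _ _ _ _ _ _ _ L L' ι ι' v e Z h hU g g' a hg hg' μ
    ⟨A, hA, B, hB, B0, hμ⟩ hs
  subst hμ
  obtain ⟨I, s, m, m', hm, q⟩ := PolR.expand
    (PolR.poly h hg hg' ⟨A, hA⟩ ⟨B, hB⟩ (fun e => B0 (congrArg Subtype.val e)) hs)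
  replace q : A / B = _ := q
  rw [q] at hs ⊢
  obtain ⟨J, _, β, c, h1, h2, h3⟩ := TenA.reb ι ι' s m m'
  refine ⟨J, Finset.univ, β, c, h3.trans (Finset.sum_congr rfl fun _ _ => mul_comm _ _),
    fun j hj => ⟨?_, ?_⟩⟩
  · obtain ⟨i, hi, e⟩ := h2 j
    exact e ▸ PolR.coeff_sc hG h hg hg' hm hs hi
  · rw [h3, ← lb_symm] at hs
    exact PolR.coeff_sc hG h.symm hg' hg h1 hs hj

end Pool.Agent.MP_20d318_ag.AM

end

section

set_option autoImplicit false
set_option linter.unusedSectionVars false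

namespace Pool.Agent.MP_20d318_ag.AM.PS

open Pool.Agent.MP_fd6584_ag.Fn Pool.Agent.CBk Polynomial
open Pool.Agent.MP_fd6584_ag.AG hiding deg_inv deg_congr deg_of_unit deg_mul deg_prod deg_zpow
  deg_eq_zero deg_nonneg deg_div deg_pow
open Pool.Agent.MVg (Sc Fac Two BasStmt GaussStmt ex)
open Pool.Agent.MP_20d318_ag.CH
open Pool.Agent.MP_20d318_ag.Lat (cone IsCone RP isCone_cone subset_cone)

section step

variable {k M K Λ κ : Type} {n : ℕ} [Field k] [Field M] [Field K] [Algebra k M] [Algebra k K]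
  [Fintype κ] (L : Lv k M Λ κ n) (ι : M →ₐ[k] K) (l : k) (ζ w : K) (e : ℕ)

/-- The generators on the next level. -/
noncomputable def dd {J : Type} (d : J → Subalgebra k M → M) :
    J ⊕ (κ ⊕ Fin 4) ⊕ κ × Fin 4 → Subalgebra k K → K :=
  Sum.elim (fun j => up ι L.Y (d j)) (Sum.elim (sN L ι l ζ) fun x => EE L ι l ζ x.1 x.2)

/-- Sections are integral over sections that are rational functions of `ζ`. -/
def XSpl : Prop := ∀ g t a, IsCart L.Y g → ∀ μ, μ ≠ 0 → Sc (XX L ι ζ w e) (lb L ι l ζ g t a) μ →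
  ∀ V : Subalgebra k K, IsVal V → ∃ s, s ≠ 0 ∧ Rt ι ζ s ∧
    Sc (XX L ι ζ w e) (lb L ι l ζ (g ^ 2) (t * 2) fun i j => a i j * 2) s ∧ μ ^ 2 / s ∈ V

/-- The degree of a polynomial section. -/
def XDeg : Prop := ∀ g t a, IsCart L.Y g → ∀ G : M[X], G ≠ 0 →
  Sc (XX L ι ζ w e) (lb L ι l ζ g t a) (G.eval₂ (ι : M →+* K) ζ) → (G.natDegree : ℤ) ≤ t

/-- The orders of its coefficients. -/
def XOrd : Prop := ∀ g (t : ℕ) a, IsCart L.Y g → ∀ G : M[X], G.natDegree ≤ t →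
  Sc (XX L ι ζ w e) (lb L ι l ζ g t a) (G.eval₂ (ι : M →+* K) ζ) → ∀ i j P (m : ℕ),
    OrdA.Pc L i P → P.Ge (a i j - m) ((ex (algebraMap k M l) t j G).coeff m * g (plO P))

/-- A product of sections that vanishes to the orders `a` on the exceptional divisors. -/
def Tm (g : Subalgebra k M → M) (t : ℕ) (a : κ → Fin 4 → ℤ) (m : M) (q : k[X]) : Prop :=
  ∃ (x : κ → ℕ) (y : Fin 4 → ℕ) (q' : k[X]), Sc L.Y (g / ∏ i, L.s i ^ x i) m ∧
    q = q' * (X ^ y 0 * (X - 1) ^ y 1 * (X - C l) ^ y 2) ∧ t = q'.natDegree + ∑ j, y j ∧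
    ∀ i j, a i j ≤ x i + y j

/-- Rational sections are sums of such products. -/
def XTen : Prop := ∀ g t a, IsCart L.Y g → ∀ s, s ≠ 0 → Rt ι ζ s →
  Sc (XX L ι ζ w e) (lb L ι l ζ g t a) s → ∃ (t' : ℕ) (B : Finset M) (q : M → k[X]), t = t' ∧
    s = ∑ b ∈ B, ι b * aeval ζ (q b) ∧ ∀ b ∈ B, b ≠ 0 → q b ≠ 0 → Tm L l g t' a b (q b)

/-- One term. -/
def XOne : Prop := ∀ (J : Type) [Fintype J] (d : J → Subalgebra k M → M) R, Fg L.Y d (Sp L R) →
  (∀ j, Ed (XX L ι ζ w e) (dd L ι l ζ d j)) ∧ ∀ g (t : ℕ) a, IsCart L.Y g → cl L.Y g ∈ Sp L R →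
    ∀ m q, m ≠ 0 → q ≠ 0 → Tm L l g t a m q → ∀ V, IsVal V →
      Mon (XX L ι ζ w e) (dd L ι l ζ d) V (lb L ι l ζ g t a) (ι m * aeval ζ q)

variable {L ι l ζ w e}

/-- Finite generation passes to the next level. -/
def XStp (h : All L ι l ζ w e) : Prop := ∀ R, FG L.Y (Sp L R) →
  FG (XX L ι ζ w e) (h.Phi '' {D | D.1 ∈ Sp L R})

theorem phi_inj {h : All L ι l ζ w e} (t : StTest L.nd (nx L ι l ζ w e).nd h.Phi) :
    Function.Injective h.Phi := by
  refine (injective_iff_map_eq_zero _).2 fun D q => ?_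
  have z : ∀ {ν' : Curve (XX L ι ζ w e)} {r c : ℝ}, 0 < r →
      (nx L ι l ζ w e).nd.d ν' (h.Phi D) = r * c → c = 0 := fun r0 u => by
    rw [q] at u
    exact (mul_eq_zero.1 (u.symm.trans (map_zero _))).resolve_left r0.ne'
  have a : D.2.2 = 0 := funext₂ fun i j => by
    obtain ⟨ν, r, r0, u⟩ := t.tE i j
    exact z r0 (u D)
  refine Prod.ext (n1_ext fun ν => ?_) (Prod.ext ?_ a)
  · obtain ⟨μ, r, r0, u⟩ := t.tT ν 0
    simpa [a, nd_d] using z r0 (u D)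
  · obtain ⟨μ, r, r0, u⟩ := t.tC h.ok.ne.some
    simpa [a] using z r0 (u D)

end step

/-- SPL. -/
def SplStmt : Prop := Row fun {_ _ _ _ _ _ _ _ _ _ _ _ L ι l ζ w e} _ =>
  XSig L ι l ζ w e → XSpl L ι l ζ w e

/-- DEG. -/
def DegStmt : Prop := Row fun {_ _ _ _ _ _ _ _ _ _ _ _ L ι l ζ w e} _ => XDeg L ι l ζ w e

/-- ORD. -/
def OrdStmt : Prop := GaussStmt → Row fun {_ _ _ _ _ _ _ _ _ _ _ _ L ι l ζ w e} _ =>
  XOrd L ι l ζ w e

/-- TEN. -/
def TenStmt : Prop := GaussStmt → BasStmt → Row fun {_ _ _ _ κ _ _ _ _ _ _ _ L ι l ζ w e} _ =>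
  Two κ → XDeg L ι l ζ w e → XOrd L ι l ζ w e → XTen L ι l ζ w e

/-- ONE. -/
def OneStmt : Prop := Row fun {_ _ _ _ _ _ _ _ _ _ _ _ L ι l ζ w e} _ => XOne L ι l ζ w e

/-- STP. -/
def StpStmt : Prop := Row fun {_ _ _ _ _ _ _ _ _ _ _ _ L ι l ζ w e} h =>
  Function.Injective h.Phi → XCls L ι l ζ w e → XSpl L ι l ζ w e → XTen L ι l ζ w e →
    XOne L ι l ζ w e → XStp h

/-- NLS. -/
def NlsStmt : Prop := Row fun {_ _ _ _ _ _ _ _ _ _ _ _ L ι l ζ w e} h =>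
  Function.Injective h.Phi → XCls L ι l ζ w e → NL L.Y → NL (XX L ι ζ w e)

/-- MDS. -/
def MdsStmt : Prop := IntStmt.{1} → EfcStmt → Row fun {_ _ _ _ _ _ _ _ _ _ _ _ L ι l ζ w e} h =>
  Function.Injective h.Phi → StDiv L.nd (nx L ι l ζ w e).nd h.Phi →
  (∀ x ∈ (nx L ι l ζ w e).nd.Λ, ∃ N : ℕ, 0 < N ∧ ∃ D ∈ L.nd.LW, (N : ℝ) • x = h.Phi D) →
  (∀ x ∈ (nx L ι l ζ w e).nd.Ef, ∃ D, h.Phi D = x ∧ D.1 ∈ L.nd.Ef) →
  (∀ γ ∈ L.nd.G, ∃ γ' ∈ (nx L ι l ζ w e).nd.G, ∀ D, γ' (h.Phi D) = h.Phi (γ D.1, D.2)) →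
  XStp h → Ref (XX L ι ζ w e) → MD L → MD (nx L ι l ζ w e)

/-- The rows. -/
structure PM : Prop where
  spl : SplStmt
  deg : DegStmt
  ord : OrdStmt
  ten : TenStmt
  one : OneStmt
  stp : StpStmt
  nls : NlsStmt
  mds : MdsStmt

theorem PM.step (p : PM) (c : CH.Mods) (m : MM) (b : BasStmt) {k M K Λ κ : Type} {n : ℕ} [Field k]
    [NeZero (2 : k)] [IsAlgClosed k] [Field M] [Field K] [Algebra k M] [Algebra k K] [Finite Λ]
    [Fintype κ] {L : Lv k M Λ κ n} {ι : M →ₐ[k] K} {l : k} {ζ w : K} {e : ℕ}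
    (h : All L ι l ζ w e) (two : Two κ) (fd : FiniteDimensional ℝ (N1 L.Y)) (md : MD L) :
    Ref (XX L ι ζ w e) ∧ MD (nx L ι l ζ w e) := by
  have sig := c.sig c.hom k M K Λ κ n L ι l ζ w e h
  have nc := c.nice k K _ h.loc.fine (c.sm h)
  have cls := c.cls c.hor k M K Λ κ n L ι l ζ w e h (c.pl k M K Λ κ n L ι l ζ w e h) nc.1
  have cln := c.cln k M K Λ κ n L ι l ζ w e h cls
    (c.eff k M K Λ κ n L ι l ζ w e h sig (c.pol c.gauss k M K Λ κ n L ι l ζ w e h))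
  have dv := c.dv k M K Λ κ n L ι l ζ w e h
  have inj := phi_inj (c.test c.lift k M K Λ κ n L ι l ζ w e h
    (c.cur k M K Λ κ n L ι l ζ w e h).1 (c.pt k M K Λ κ n L ι l ζ w e h))
  have su : Function.Surjective h.Phi := LinearMap.range_eq_top.1 (top_le_iff.1 (dv.spn.ge.trans
    (Submodule.span_le.2 fun x hx => by
      obtain ⟨N, N0, D, -, q⟩ := cln.1 x hx
      exact ⟨(N : ℝ)⁻¹ • D, by
        rw [map_smul, ← q]
        exact inv_smul_smul₀ (Nat.cast_ne_zero.2 N0.ne') x⟩)))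
  have r := m.ref m.sol k K _ ⟨nc.1, nc.2, Module.Finite.of_surjective _ su,
    p.nls k M K Λ κ n L ι l ζ w e h inj cls md.nl⟩
  exact ⟨r, p.mds m.int m.efc k M K Λ κ n L ι l ζ w e h inj dv cln.1 cln.2
    (c.lft k M K Λ κ n L ι l ζ w e h sig)
    (p.stp k M K Λ κ n L ι l ζ w e h inj cls (p.spl k M K Λ κ n L ι l ζ w e h sig)
      (p.ten c.gauss b k M K Λ κ n L ι l ζ w e h two (p.deg k M K Λ κ n L ι l ζ w e h)
        (p.ord c.gauss k M K Λ κ n L ι l ζ w e h)) (p.one k M K Λ κ n L ι l ζ w e h)) r md⟩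

end Pool.Agent.MP_20d318_ag.AM.PS

end

section

set_option autoImplicit false
set_option linter.unusedSectionVars false

namespace Pool.Agent.MP_20d318_ag.AM.PS

open Pool.Agent.MP_fd6584_ag.Fn Pool.Agent.CBk Polynomial
open Pool.Agent.MP_fd6584_ag.AG hiding deg_inv deg_congr deg_of_unit deg_mul deg_prod deg_zpow
  deg_eq_zero deg_nonneg deg_div deg_pow
open Pool.Agent.MVg (Sc)
open Pool.Agent.MP_20d318_ag.CH

theorem spl_stmt : SplStmt := by
  intro k M K Λ κ n _ _ _ _ _ _ _ _ _ L ι l ζ w e h hS g t a hg μ hμ s1 V hV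
  obtain ⟨θ, hθ⟩ := hS _ _ (EffR.lf_one h)
  have s2 : Sc (XX L ι ζ w e) (lb L ι l ζ g t a) (θ.1 μ) := fun O hO => by
    have h1 : θ.1 (μ * lb L ι l ζ g t a (O.comap (θ.1 : K →ₐ[k] K))) ∈ O := s1 _ ((θ.2 O).1 hO)
    have h2 := EffR.lb_up hg h hθ t a hO
    have h3 := O.mul_mem h1 h2.inv_mem
    rwa [map_mul, inv_div, mul_assoc, mul_div_cancel₀ _ (div_ne_zero_iff.1 h2.1).1] at h3
  have h1 : ∀ m, θ.1 (ι m) = ι m := hθ.h1
  have tt : θ.1 (θ.1 μ) = μ := by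
    have hm : μ ∈ IntermediateField.adjoin k (Set.range ι ∪ {ζ, w}) := by
      rw [h.ext.top]; trivial
    refine IntermediateField.adjoin_induction k (p := fun x _ => θ.1 (θ.1 x) = x) ?_ ?_ ?_ ?_ ?_ hm
    · rintro _ (⟨m, rfl⟩ | rfl | rfl)
      · rw [h1, h1]
      · rw [hθ.h2, hθ.h2]
      · rw [hθ.h3, map_mul, h1, hθ.h3, ← mul_assoc, ← map_mul, ← mul_pow, neg_mul_neg, one_mul,
          one_pow, map_one, one_mul]
    · intro x
      rw [AlgEquiv.commutes, AlgEquiv.commutes]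
    · intro x y _ _ p q
      rw [map_add, map_add, p, q]
    · intro x _ p
      rw [map_inv₀, map_inv₀, p]
    · intro x y _ _ p q
      rw [map_mul, map_mul, p, q]
  obtain ⟨s, hs, s0, hv⟩ := SplA.half hV (ν := θ.1 μ) hμ
  have nr := h.fld.nrm θ.1 h1 hθ.h2 hθ.h3 s
  have s3 : Sc (XX L ι ζ w e) (lb L ι l ζ g t a) s := fun O hO => by
    rcases hs with rfl | rfl
    · exact add_mul μ _ _ ▸ O.add_mem (s1 O hO) (s2 O hO)
    · exact sub_mul μ _ _ ▸ O.sub_mem (s1 O hO) (s2 O hO)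
  refine ⟨s * s, mul_ne_zero s0 s0, ?_, fun O hO => ?_, ?_⟩
  · rcases hs with rfl | rfl
    · rwa [map_add, tt, add_comm (θ.1 μ) μ] at nr
    · obtain ⟨A, B, B0, q⟩ := nr
      refine ⟨-A, B, B0, ?_⟩
      rw [eval₂_neg, neg_div, ← q, map_sub, tt]
      ring
  · rw [EffR.lb_sq, mul_mul_mul_comm]
    exact O.mul_mem (s3 O hO) (s3 O hO)
  · rw [sq, ← div_mul_div_comm]
    exact V.mul_mem hv hv

end Pool.Agent.MP_20d318_ag.AM.PS

end

section

set_option autoImplicit false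
set_option linter.unusedSectionVars false

namespace Pool.Agent.MP_20d318_ag.AM.PS

open Pool.Agent.MP_fd6584_ag.Fn Pool.Agent.CBk Polynomial
open Pool.Agent.MP_fd6584_ag.AG hiding deg_inv deg_congr deg_of_unit deg_mul deg_prod deg_zpow
  deg_eq_zero deg_nonneg deg_div deg_pow
open Pool.Agent.MVg (Sc Fac Two BasStmt GaussStmt ex)
open Pool.Agent.MP_20d318_ag.CH

theorem deg_stmt : DegStmt := by
  intro k M K Λ κ n _ _ _ _ _ _ _ _ _ L ι l ζ w e h g t a hg G h0 hs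
  obtain ⟨V, hV, hT, hm⟩ := PolR.exists_val h.ext.tr.inv (irreducible_X (R := M))
  obtain ⟨O, hO, d, hR⟩ := h.below h.ok.nice.toFine.top hV hT
  have hx : ζ⁻¹ ∈ mx V := by simpa using (hm X).2.2 dvd_rfl
  have z0 : ζ ≠ 0 := by simpa using h.ext.tr.ne 0
  have hU : ∀ m, m ≠ 0 → IsU O (ι m) := fun m hm =>
    h.loc.maps.isU_up hO (by rw [hR]; exact isU_top.2 hm)
  have hz : ζ ∉ O := fun hz => by
    have := mx_mul_left (d.1 hz) hx
    rw [mul_inv_cancel₀ z0] at this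
    exact one_not_mem_mx this
  have u0 : IsU O (∏ i, ∏ j, EE L ι l ζ i j O ^ (-a i j)) :=
    isU_prod fun i _ => isU_prod fun j _ =>
      (h.div.eu O hO i j (Or.inl (hU _ ((h.ok.cs i).ne (h.loc.maps.mem hO))))).zpow _
  have a1 := u0.div_mem (hs O hO)
  rw [lb, ← mul_assoc, mul_div_cancel_right₀ _ u0.1, CBk.eta, if_neg hz, mul_left_comm] at a1
  have hl : IsU O (up ι L.Y g O) := hU _ (hg.ne (h.loc.maps.mem hO))
  have a2 := d.1 (hl.div_mem a1)
  rw [mul_div_cancel_left₀ _ hl.1] at a2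
  let _ := invertibleOfNonzero z0
  have r := eval₂_reverse_mul_pow (ι : M →+* K) ζ G
  rw [invOf_eq_inv] at r
  have u : IsU V (G.reverse.eval₂ (ι : M →+* K) ζ⁻¹) :=
    (isU_or_mx (hm G.reverse).1).resolve_right fun q => by
      have := (hm G.reverse).2.1 q
      rw [X_dvd_iff, coeff_zero_reverse] at this
      exact h0 (leadingCoeff_eq_zero.1 this)
  have b := u.div_mem a2
  rw [← r, mul_assoc, mul_div_cancel_left₀ _ u.1, ← zpow_natCast, ← zpow_add₀ z0] at b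
  by_contra hn
  obtain ⟨m, hm'⟩ := Int.eq_ofNat_of_zero_le (show 0 ≤ (G.natDegree : ℤ) + -t by omega)
  rw [hm', zpow_natCast] at b
  have c := mx_mul_left b (mx_pow hx (n := m) (by omega))
  rw [← mul_pow, mul_inv_cancel₀ z0, one_pow] at c
  exact one_not_mem_mx c

end Pool.Agent.MP_20d318_ag.AM.PS

end

section

set_option autoImplicit false
set_option linter.unusedSectionVars false

namespace Pool.Agent.MP_20d318_ag.AM.PS

open Pool.Agent.MP_fd6584_ag.Fn Pool.Agent.CBk Polynomial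
open Pool.Agent.MP_fd6584_ag.AG hiding deg_inv deg_congr deg_of_unit deg_mul deg_prod deg_zpow
  deg_eq_zero deg_nonneg deg_div deg_pow
open Pool.Agent.MVg (Sc Fac Two BasStmt GaussStmt ex)
open Pool.Agent.MP_20d318_ag.CH
open Pool.Agent.CBk.XTst (tb tr_tb tau_eq)

namespace POrdA

variable {k M K : Type} [Field k] [Field M] [Field K] [Algebra k M] [Algebra k K]
  {ι : M →ₐ[k] K} {l : k} {ζ η : K}

theorem tay (c : M) (G : M[X]) :
    (taylor c G).eval₂ (ι : M →+* K) (ζ - ι c) = G.eval₂ (ι : M →+* K) ζ := by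
  rw [taylor_apply, eval₂_comp, eval₂_add, eval₂_X, eval₂_C, RingHom.coe_coe, sub_add_cancel]

theorem ev_ex (h0 : ζ ≠ 0) (j : Fin 4) (h1 : tb l ζ j ≠ 0)
    (h2 : ![ζ, ζ - 1, ζ - algebraMap k K l, 1] j / η = tb l ζ j) {t : ℕ} {G : M[X]}
    (hG : G.natDegree ≤ t) : G.eval₂ (ι : M →+* K) ζ * η ^ (-(t : ℤ)) =
      (ex (algebraMap k M l) t j G).eval₂ (ι : M →+* K) (tb l ζ j) := by
  have key : ∀ x : K, x ≠ 0 → x / η = x → η = 1 := fun x hx e => by
    rw [div_eq_mul_inv, mul_eq_left₀ hx, inv_eq_one] at e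
    exact e
  fin_cases j
  · rw [key _ h1 h2, one_zpow, mul_one]
    rfl
  · rw [key _ h1 h2, one_zpow, mul_one, ← tay 1, map_one]
    rfl
  · rw [key _ h1 h2, one_zpow, mul_one, ← tay (algebraMap k M l), AlgHom.commutes]
    rfl
  · have e : η = ζ := inv_injective ((one_div η).symm.trans h2)
    let := invertibleOfNonzero h0
    have := eval₂_reflect_mul_pow (ι : M →+* K) ζ t G hG
    rw [invOf_eq_inv] at this
    rw [e, ← this, zpow_neg, zpow_natCast, mul_inv_cancel_right₀ (pow_ne_zero _ h0)]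
    rfl

end POrdA

open POrdA in
theorem ord_stmt : OrdStmt := by
  classical
  intro hG k M K Λ κ n _ _ _ _ _ _ _ _ _ L ι l ζ w e h g t c hg G hd hs i j P m hP
  have hR := hP.mem
  have z0 : ζ ≠ 0 := by simpa using h.ext.tr.ne 0
  have ha0 : L.s i (plO P) ≠ 0 := (h.ok.cs i).ne hR
  have ha1 : P.ord (L.s i (plO P)) = 1 := hP.os
  have hb0 : g (plO P) ≠ 0 := hg.ne hR
  set a := L.s i (plO P) with ha
  set b := g (plO P) with hb
  have ha' : ι a ≠ 0 := (map_ne_zero ι).2 ha0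
  obtain ⟨V, hV, hdm, hu, hc⟩ := hG k M K ι P _ (tr_tb (l := l) h.ext.tr j ha0)
  have hy : IsU V (tb l ζ j / ι a) := by simpa using hu 0
  obtain ⟨O, hO, hOV, he⟩ := h.below hR hV hdm
  have ham : ι a ∈ mx V := (mem_mx_comap ι).1 (hdm.mx hP.mxs)
  have htm : tb l ζ j ∈ mx V := by
    have := mx_mul_left hy.mem ham
    rwa [div_mul_cancel₀ _ ha'] at this
  obtain ⟨e0, -⟩ := tau_eq z0 (h.loc.zm O hO) hOV htm
  have es : sX L ι i O = ι a := by rw [sX, up, he]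
  have hsm : sX L ι i O ∈ mx O := mx_of_le hOV.1 (h.loc.sm O hO i) (es ▸ ham)
  have htm' : tau l ζ j O ∈ mx O := mx_of_le hOV.1 (h.loc.tm O hO j) (e0 ▸ htm)
  have hE : IsU V (EE L ι l ζ i j O / ι a) := by
    have := (h.div.gE O hO i j).mono hOV.1
    rw [es, e0] at this
    exact this.unit (gn_left ha' hy.mem)
  have hE' : ∀ q ∈ Finset.univ.erase (i, j),
      IsU V (EE L ι l ζ q.1 q.2 O ^ (-c q.1 q.2)) := fun q hq => by
    refine ((h.div.eu O hO _ _ ?_).mono hOV.1).zpow _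
    by_cases e : q.1 = i
    · refine Or.inr (isU_of_not_mx (h.loc.tm O hO _) fun hm => ?_)
      exact (Finset.mem_erase.1 hq).1 (Prod.ext e (h.loc.t1 O hO _ _ hm htm'))
    · exact Or.inl (isU_of_not_mx (h.loc.sm O hO _) fun hm => e (h.loc.s1 O hO _ _ hm hsm))
  have hU := (hE.zpow (-c i j)).mul (isU_prod hE')
  have h1 := hU.div_mem (hOV.1 (hs O hO))
  have h2 := ev_ex (ι := ι) (η := eta ζ O) z0 j (div_ne_zero_iff.1 hy.1).1 e0 hd
  have h3 := hc (C (b * a ^ (-c i j)) * (ex (algebraMap k M l) t j G).comp (C a * X)) (by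
    rw [eval₂_mul, eval₂_C, eval₂_comp, eval₂_mul, eval₂_C, eval₂_X, RingHom.coe_coe,
      mul_div_cancel₀ _ ha', ← h2, map_mul, map_zpow₀]
    rw [lb, up, he, ← Fintype.prod_prod_type' (fun i j => EE L ι l ζ i j O ^ (-c i j)),
      ← Finset.mul_prod_erase _ _ (Finset.mem_univ (i, j)), div_zpow] at h1
    have n1 := (isU_prod hE').1
    have n2 := zpow_ne_zero (-c i j) (div_ne_zero_iff.1 hE.1).1
    have n3 := zpow_ne_zero (-c i j) ha'
    refine (congrArg (· ∈ V) ?_).mp h1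
    rw [← hb]
    field_simp) m
  rw [coeff_C_mul, comp_C_mul_X_coeff, mem_plO_ord] at h3
  by_cases h4 : (ex (algebraMap k M l) t j G).coeff m = 0
  · rw [h4, zero_mul]
    exact P.ge_zero _
  refine P.ge_of_le ?_
  rw [P.ord_mul (mul_ne_zero hb0 (zpow_ne_zero _ ha0)) (mul_ne_zero h4 (pow_ne_zero _ ha0)),
    P.ord_mul hb0 (zpow_ne_zero _ ha0), P.ord_mul h4 (pow_ne_zero _ ha0), P.ord_zpow, P.ord_pow,
    ha1] at h3
  rw [P.ord_mul h4 hb0]
  omega

end Pool.Agent.MP_20d318_ag.AM.PS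

end

section

set_option autoImplicit false
set_option linter.unusedSectionVars false

namespace Pool.Agent.MP_20d318_ag.AM.PS

open Pool.Agent.MP_fd6584_ag.Fn Pool.Agent.CBk Polynomial
open Pool.Agent.MP_fd6584_ag.AG hiding deg_inv deg_congr deg_of_unit deg_mul deg_prod deg_zpow
  deg_eq_zero deg_nonneg deg_div deg_pow
open Pool.Agent.MVg (Sc Fac Two BasStmt GaussStmt ex)
open Pool.Agent.MP_20d318_ag.CH

namespace TenA

theorem poly {k : Type} [Field k] {l : k} (l0 : l ≠ 0) (l1 : l ≠ 1) {t : ℕ} {q : k[X]}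
    (hq : q ≠ 0) (ht : q.natDegree ≤ t) : ∃ (n : Fin 4 → ℕ) (q' : k[X]),
      q = q' * (X ^ n 0 * (X - 1) ^ n 1 * (X - C l) ^ n 2) ∧
      t = q'.natDegree + ∑ j, n j ∧ ∀ j, (ex l t j q).coeff (n j) ≠ 0 := by
  have c : ∀ a b : k, a ≠ b → ∀ m n : ℕ, IsCoprime ((X - C a) ^ m) ((X - C b) ^ n) :=
    fun a b h _ _ => (isCoprime_X_sub_C_of_isUnit_sub (sub_ne_zero.2 h).isUnit).pow
  have d : ∀ a : k, (X - C a) ^ q.rootMultiplicity a ∣ q := fun a => pow_rootMultiplicity_dvd q a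
  obtain ⟨q', e⟩ := ((c 0 l l0.symm _ _).mul_left (c 1 l l1.symm _ _)).mul_dvd
    ((c 0 1 zero_ne_one _ _).mul_dvd (d 0) (d 1)) (d l)
  have h0 : ∀ (a : k) (m : ℕ), (X - C a) ^ m ≠ 0 := fun a m => pow_ne_zero _ (X_sub_C_ne_zero a)
  have hq' : q' ≠ 0 := fun h => hq (by rw [e, h, mul_zero])
  have hd := congrArg natDegree e
  rw [natDegree_mul (mul_ne_zero (mul_ne_zero (h0 _ _) (h0 _ _)) (h0 _ _)) hq',
    natDegree_mul (mul_ne_zero (h0 _ _) (h0 _ _)) (h0 _ _), natDegree_mul (h0 _ _) (h0 _ _)] at hd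
  simp only [natDegree_pow, natDegree_X_sub_C, mul_one] at hd
  have tr : ∀ a : k, (taylor a q).coeff (q.rootMultiplicity a) ≠ 0 := fun a => by
    rw [rootMultiplicity_eq_natTrailingDegree, ← taylor_apply]
    exact mt trailingCoeff_eq_zero.1 (by simpa using hq)
  refine ⟨![q.rootMultiplicity 0, q.rootMultiplicity 1, q.rootMultiplicity l, t - q.natDegree],
    q', ?_, ?_, fun j => ?_⟩
  · rw [mul_comm]
    simpa using e
  · rw [Fin.sum_univ_four]
    change t = _ + (q.rootMultiplicity 0 + q.rootMultiplicity 1 + q.rootMultiplicity l +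
      (t - q.natDegree))
    omega
  · fin_cases j
    · simpa [ex] using tr 0
    · exact tr 1
    · exact tr l
    · change (reflect t q).coeff (t - q.natDegree) ≠ 0
      rw [coeff_reflect, revAt_le (Nat.sub_le _ _), Nat.sub_sub_self ht]
      exact mt leadingCoeff_eq_zero.1 hq

theorem ex_sum {A α : Type} [CommRing A] (l : A) (t : ℕ) (j : Fin 4) (s : Finset α)
    (F : α → A[X]) : ex l t j (∑ x ∈ s, F x) = ∑ x ∈ s, ex l t j (F x) := by
  classical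
  induction s using Finset.induction_on with
  | empty => fin_cases j <;> simp [ex]
  | insert a s ha ih =>
    rw [Finset.sum_insert ha, Finset.sum_insert ha, ← ih]
    fin_cases j <;> simp [ex]

theorem ex_C_mul {A : Type} [CommRing A] (l : A) (t : ℕ) (j : Fin 4) (a : A) (G : A[X]) :
    ex l t j (C a * G) = C a * ex l t j G := by
  fin_cases j <;> simp [ex, taylor_mul]

theorem ex_map {A B : Type} [CommRing A] [CommRing B] (f : A →+* B) (l : A) (t : ℕ) (j : Fin 4)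
    (G : A[X]) : ex (f l) t j (G.map f) = (ex l t j G).map f := by
  fin_cases j <;> simp [ex, reflect_map]

theorem decomp {k M : Type} [Field k] [Field M] [Algebra k M] (b : Finset M) (G : M[X])
    (hG : ∀ n, G.coeff n ∈ Submodule.span k (b : Set M)) :
    ∃ q : M → k[X], (∀ x, (q x).natDegree ≤ G.natDegree) ∧
      G = ∑ x ∈ b, C x * (q x).map (algebraMap k M) := by
  choose c _ hc using fun n => Submodule.mem_span_finset.1 (hG n)
  refine ⟨fun x => ∑ n ∈ Finset.range (G.natDegree + 1), monomial n (c n x), fun x => ?_, ?_⟩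
  · refine natDegree_sum_le_of_forall_le _ _ fun n hn => (natDegree_monomial_le _).trans ?_
    exact Nat.lt_succ_iff.1 (Finset.mem_range.1 hn)
  · conv_lhs => rw [G.as_sum_range]
    simp only [Polynomial.map_sum, Finset.mul_sum, Polynomial.map_monomial, C_mul_monomial]
    rw [Finset.sum_comm]
    refine Finset.sum_congr rfl fun n _ => ?_
    rw [← hc n, map_sum]
    refine Finset.sum_congr rfl fun x _ => ?_
    rw [Algebra.smul_def, mul_comm]

end TenA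

open TenA OrdA in
theorem ten_stmt : TenStmt := by
  intro hG hB k M K Λ κ n _ _ _ _ _ _ _ _ _ L ι l ζ w e h ⟨j₁, j₂, two⟩ hD hO g t a hg s s0
    ⟨A, B, hB0, hs⟩ hS
  classical
  obtain ⟨G, hG'⟩ := PolR.poly h hg A B hB0 (hs ▸ hS)
  rw [hG'] at hs
  subst hs
  have G0 : G ≠ 0 := fun q => s0 (by rw [q, eval₂_zero])
  have hd := hD g t a hg G G0 hS
  obtain ⟨t', rfl⟩ : ∃ t' : ℕ, t = t' := ⟨t.toNat, by omega⟩
  have hdt : G.natDegree ≤ t' := by omega
  choose P hP using plc h.ok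
  have : FiniteDimensional k (Submodule.span k (G.coeffs : Set M)) :=
    FiniteDimensional.span_of_finite k G.coeffs.finite_toSet
  obtain ⟨b, hb, hF⟩ := hB k M (Submodule.span k (G.coeffs : Set M)) _ _
    (chain (P j₁) (g (plO (P j₁)))) (chain (P j₂) (g (plO (P j₂))))
  obtain ⟨q, hq, hGq⟩ := decomp (k := k) b G fun m => by
    rw [hb]
    by_cases c0 : G.coeff m = 0
    · rw [c0]
      exact zero_mem _
    · exact Submodule.subset_span (coeff_mem_coeffs c0)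
  have sc : ∀ x ∈ b, Sc L.Y g x := fun x hx =>
    (Submodule.span_le (p := Ss L.Y g)).2 (fun y hy => by
      obtain ⟨m, -, rfl⟩ := mem_coeffs_iff.1 hy
      exact PolR.coeff_sc hG h hg G hS m) (hb ▸ Submodule.subset_span hx)
  have key : ∀ (j : Fin 4) (m : ℕ), (ex (algebraMap k M l) t' j G).coeff m =
      ∑ x ∈ b, (ex l t' j (q x)).coeff m • x := by
    intro j m
    conv_lhs => rw [hGq]
    rw [ex_sum, finsetSum_coeff]
    refine Finset.sum_congr rfl fun x _ => ?_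
    rw [ex_C_mul, ex_map, coeff_C_mul, coeff_map, Algebra.smul_def, mul_comm]
  refine ⟨t', b, q, rfl, ?_, fun x hx x0 q0 => ?_⟩
  · conv_lhs => rw [hGq]
    rw [eval₂_finsetSum]
    refine Finset.sum_congr rfl fun x _ => ?_
    rw [eval₂_mul, eval₂_C, eval₂_map, aeval_def, AlgHom.comp_algebraMap]
    rfl
  · obtain ⟨y, q', e1, e2, e3⟩ := poly h.ext.l0 h.ext.l1 q0 ((hq x).trans hdt)
    refine ⟨_, y, q', tm h.ok hP hg x0 (sc x hx), e1, e2, fun i j => ?_⟩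
    have h2 := hO g t' a hg G hdt hS i j (P i) (y j) (hP i)
    rw [key] at h2
    have h3 : (P i).Ge (a i j - y j) (x * g (plO (P i))) :=
      hF (Fl (P i) (g (plO (P i))) (a i j - y j))
        ((two i).elim (fun r => Or.inl ⟨_, by rw [r]⟩) fun r => Or.inr ⟨_, by rw [r]⟩)
        (fun x => (ex l t' j (q x)).coeff (y j)) h2 x hx (e3 j)
    have h4 := h3.le (mul_ne_zero x0 (hg.ne (hP i).mem))
    rw [← od_eq (hP i).mem (sc x hx)] at h4
    omega

end Pool.Agent.MP_20d318_ag.AM.PS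

end

section

set_option autoImplicit false
set_option linter.unusedSectionVars false

namespace Pool.Agent.MP_20d318_ag.AM.PS

open Pool.Agent.MP_fd6584_ag.Fn Pool.Agent.CBk Polynomial
open Pool.Agent.MP_fd6584_ag.AG hiding deg_inv deg_congr deg_of_unit deg_mul deg_prod deg_zpow
  deg_eq_zero deg_nonneg deg_div deg_pow
open Pool.Agent.MVg (Sc Fac Two BasStmt GaussStmt ex)
open Pool.Agent.MP_20d318_ag.CH
open Pool.Agent.MP_20d318_ag.Lat (cone IsCone RP isCone_cone subset_cone)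

namespace OneP

variable {k M K Λ κ : Type} {n : ℕ} [Field k] [IsAlgClosed k] [Field M] [Field K] [Algebra k M]
  [Algebra k K] [Fintype κ] {L : Lv k M Λ κ n} {ι : M →ₐ[k] K} {l : k} {ζ w : K} {e : ℕ}

theorem etn (hz : ζ ≠ 0) (O : Subalgebra k K) : CBk.eta ζ O ≠ 0 := by
  unfold CBk.eta
  split_ifs
  exacts [one_ne_zero, hz]

/-- A polynomial section of the line is a multiple of a power of one of two sections. -/
theorem lin (l : k) (hz : ζ ≠ 0) {V : Subalgebra k K} (hV : IsVal V) (q : k[X]) :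
    ∃ (c : K) (j : Fin 4), c ∈ V ∧ ∀ O : Subalgebra k K,
      aeval ζ q = c * (tau l ζ j O * CBk.eta ζ O) ^ q.natDegree := by
  rcases hV ζ with a | a
  · refine ⟨aeval ζ q, 3, ?_, fun O => ?_⟩
    · rw [aeval_eq_sum_range]
      exact sum_mem fun i _ => V.smul_mem (V.pow_mem a i) _
    · have : tau l ζ 3 O = 1 / CBk.eta ζ O := rfl
      rw [this, div_mul_cancel₀ _ (etn hz O), one_pow, mul_one]
  · refine ⟨aeval ζ q / ζ ^ q.natDegree, 0, ?_, fun O => ?_⟩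
    · rw [aeval_eq_sum_range, Finset.sum_div]
      refine sum_mem fun i hi => ?_
      obtain ⟨j, hj⟩ := Nat.exists_eq_add_of_le (Nat.lt_succ_iff.1 (Finset.mem_range.1 hi))
      rw [smul_div_assoc, hj, pow_add, div_mul_cancel_left₀ (pow_ne_zero _ hz), ← inv_pow]
      exact V.smul_mem (V.pow_mem a j) _
    · have : tau l ζ 0 O = ζ / CBk.eta ζ O := rfl
      rw [this, div_mul_cancel₀ _ (etn hz O), div_mul_cancel₀ _ (pow_ne_zero _ hz)]

/-- The polynomial factor. -/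
theorem pol (l : k) (hz : ζ ≠ 0) {V : Subalgebra k K} (hV : IsVal V) (q : k[X]) (y : Fin 4 → ℕ) :
    ∃ (c : K) (y' : Fin 4 → ℕ), c ∈ V ∧ (∀ j, y j ≤ y' j) ∧ ∀ O : Subalgebra k K,
      aeval ζ (q * (X ^ y 0 * (X - 1) ^ y 1 * (X - C l) ^ y 2)) *
        CBk.eta ζ O ^ (-((q.natDegree + ∑ j, y j : ℕ) : ℤ)) = c * ∏ j, tau l ζ j O ^ y' j := by
  obtain ⟨c, j, h1, h2⟩ := lin l hz hV q
  refine ⟨c, y + Pi.single j q.natDegree, h1, fun _ => Nat.le_add_right _ _, fun O => ?_⟩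
  have a : ∏ i, tau l ζ i O ^ (Pi.single j q.natDegree : Fin 4 → ℕ) i =
      tau l ζ j O ^ q.natDegree := by
    rw [Finset.prod_eq_single j (fun i _ hi => by rw [Pi.single_eq_of_ne hi, pow_zero])
      (fun q => (q (Finset.mem_univ _)).elim), Pi.single_eq_same]
  have b : ∏ i, tau l ζ i O ^ y i = (ζ / CBk.eta ζ O) ^ y 0 * ((ζ - 1) / CBk.eta ζ O) ^ y 1 *
      ((ζ - algebraMap k K l) / CBk.eta ζ O) ^ y 2 * (1 / CBk.eta ζ O) ^ y 3 :=
    Fin.prod_univ_four _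
  have n := etn hz O
  simp only [Pi.add_apply, pow_add, Finset.prod_mul_distrib]
  rw [a, b, map_mul, h2 O, zpow_neg, zpow_natCast, Fin.sum_univ_four]
  simp only [map_mul, map_pow, map_sub, aeval_X, map_one, aeval_C, pow_add, mul_pow, div_pow,
    one_pow]
  field_simp

/-- The factor from the previous level. -/
theorem half (h : All L ι l ζ w e) {J : Type} [Fintype J] {d : J → Subalgebra k M → M}
    {R : Set (N1 L.Y)} (hd : Fg L.Y d (Sp L R)) {g : Subalgebra k M → M} (hg : IsCart L.Y g)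
    (hc : cl L.Y g ∈ Sp L R) {m : M} (hm : m ≠ 0) {x : κ → ℕ}
    (hs : Sc L.Y (g / ∏ i, L.s i ^ x i) m) {V : Subalgebra k K} (hV : IsVal V) :
    ∃ (N : ℕ) (α : J → ℕ) (μ : K), 0 < N ∧ μ ∈ V ∧ ∀ O ∈ XX L ι ζ w e,
      IsU O ((μ * ∏ j, up ι L.Y (d j) O ^ α j) /
        (ι m * (up ι L.Y g O / ∏ i, sX L ι i O ^ x i)) ^ N) := by
  have c1 : ∀ i, IsCart L.Y (L.s i ^ x i) := fun i => (h.ok.cs i).pow _
  have c2 : IsCart L.Y (∏ i, L.s i ^ x i) := isCart_prod fun i _ => c1 i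
  obtain ⟨N, α, μ, h1, h2, h3⟩ := hd.2 (fun O => m * (g / ∏ i, L.s i ^ x i) O)
    ⟨(isCart_const hm).mul (hg.div c2), hs⟩ (by
      rw [AM.cl_cmul h.gY (hg.div c2) hm, AM.cl_div h.gY hg c2, AM.cl_prod h.gY fun i _ => c1 i]
      simp only [AM.cl_pow h.gY (h.ok.cs _), ← Nat.cast_smul_eq_nsmul ℝ]
      exact sp_sub hc fun i => (x i : ℝ)) (V.comap ι) fun f => by
      simpa only [Subalgebra.mem_comap, map_inv₀] using hV (ι f)
  refine ⟨N, α, ι μ, h1, h2, fun O hO => ?_⟩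
  have := h.loc.maps.isU_up hO (h3 _ (h.loc.maps.mem hO))
  simpa only [map_div₀, map_mul, map_pow, map_prod, Pi.div_apply, Finset.prod_apply, Pi.pow_apply,
    sX, up] using this

end OneP

open OneP in
theorem one_stmt : OneStmt := by
  intro k M K Λ κ n _ _ _ _ _ _ _ _ _ L ι l ζ w e h J _ d R hd
  refine ⟨?_, fun g t a hg hc m q hm hq ⟨x, y, q', t1, t2, t3, t4⟩ V hV => ?_⟩
  · rintro (j | (i | j) | p)
    · exact ⟨h.div.cartU _ (hd.1 j).1, fun _ hO =>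
        h.loc.maps.mem_up hO ((hd.1 j).2 _ (h.loc.maps.mem hO))⟩
    · exact ⟨h.div.cartN (.inl i), fun O hO => (h.div.rC O hO i).1⟩
    · exact ⟨h.div.cartN (.inr j), fun O hO => (h.div.rT O hO j).1⟩
    · exact ⟨h.div.cartE p.1 p.2, fun O hO => h.div.em O hO p.1 p.2⟩
  have hz : ζ ≠ 0 := by simpa using h.ext.tr.ne 0
  have hq' : aeval ζ q ≠ 0 := fun z => hq ((Polynomial.map_eq_zero (algebraMap k M)).1
    (h.ext.tr _ (by rw [eval₂_map, AlgHom.comp_algebraMap, ← aeval_def, z])))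
  obtain ⟨N, α, μ, a1, a2, a3⟩ := half h hd hg hc hm t1 hV
  obtain ⟨c, y', b1, b2, b3⟩ := pol l hz hV q' y
  rw [← t2, ← t3] at b3
  have t5 : ∀ i j, a i j ≤ x i + y' j := fun i j =>
    (t4 i j).trans (add_le_add_right (Int.ofNat_le.2 (b2 j)) _)
  refine ⟨N, Sum.elim α (Sum.elim (Sum.elim (fun i => x i * N) fun j => y' j * N)
      fun p => (x p.1 + y' p.2 - a p.1 p.2).toNat * N), μ * c ^ N, a1,
    V.mul_mem a2 (V.pow_mem b1 _), fun O hO => ?_⟩
  refine Eq.subst (motive := IsU O) ?_ (a3 O hO)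
  have hE : ∀ i j, EE L ι l ζ i j O ≠ 0 := fun i j => (h.div.cartE i j).ne hO
  have r := OneA.alg (fun i => sX L ι i O) (fun j => tau l ζ j O) (fun i j => EE L ι l ζ i j O) hE
    x y' a t5
  have n1 : ∏ i, sX L ι i O ^ x i ≠ 0 :=
    Finset.prod_ne_zero_iff.2 fun i _ => pow_ne_zero _ (h.loc.sne O hO i)
  have n3 : ∏ i, ∏ j, EE L ι l ζ i j O ^ (-a i j) ≠ 0 :=
    Finset.prod_ne_zero_iff.2 fun i _ => Finset.prod_ne_zero_iff.2 fun j _ =>
      zpow_ne_zero _ (hE i j)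
  have n4 := (h.div.cartU g hg).ne hO
  have n6 : ι m ≠ 0 := (map_ne_zero ι).2 hm
  obtain ⟨n7, n2⟩ := mul_ne_zero_iff.1 (b3 O ▸ mul_ne_zero hq' (zpow_ne_zero _ (etn hz O)))
  have s : ι m * aeval ζ q * lb L ι l ζ g t a O = ι m * up ι L.Y g O *
      (c * ∏ j, tau l ζ j O ^ y' j) * ∏ i, ∏ j, EE L ι l ζ i j O ^ (-a i j) := by
    rw [← b3 O, lb]
    ring
  rw [s]
  simp only [Fintype.prod_sum_type, Fintype.prod_prod_type, dd, sN, Sum.elim_inl, Sum.elim_inr,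
    pow_mul _ _ N, Finset.prod_pow]
  rw [← mul_pow, ← mul_pow, r]
  generalize ∏ i, sX L ι i O ^ x i = A at n1
  generalize ∏ j, tau l ζ j O ^ y' j = B at n2
  generalize ∏ i, ∏ j, EE L ι l ζ i j O ^ (-a i j) = C at n3
  simp only [div_pow, mul_pow]
  field_simp

end Pool.Agent.MP_20d318_ag.AM.PS

end

section

set_option autoImplicit false
set_option linter.unusedSectionVars false

namespace Pool.Agent.MP_20d318_ag.AM.PS

open Pool.Agent.MP_fd6584_ag.Fn Pool.Agent.CBk Polynomial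
open Pool.Agent.MP_fd6584_ag.AG hiding deg_inv deg_congr deg_of_unit deg_mul deg_prod deg_zpow
  deg_eq_zero deg_nonneg deg_div deg_pow
open Pool.Agent.MVg (Sc Fac Two BasStmt GaussStmt ex)
open Pool.Agent.MP_20d318_ag.CH
open Pool.Agent.MP_20d318_ag.Lat (cone IsCone RP isCone_cone subset_cone)

namespace StpB

theorem lb_sq {k M K Λ κ : Type} {n : ℕ} [Field k] [Field M] [Field K] [Algebra k M] [Algebra k K]
    [Fintype κ] (L : Lv k M Λ κ n) (ι : M →ₐ[k] K) (l : k) (ζ : K) (g : Subalgebra k M → M) (t : ℤ)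
    (a : κ → Fin 4 → ℤ) (O : Subalgebra k K) :
    lb L ι l ζ (g ^ 2) (t * 2) (fun i j => a i j * 2) O = lb L ι l ζ g t a O ^ 2 := by
  have e1 : ∀ (x : K) (s : ℤ), x ^ (-(s * 2)) = (x ^ (-s)) ^ 2 := fun x s => by
    rw [← neg_mul, zpow_mul, zpow_ofNat]
  unfold lb up
  simp only [e1, Finset.prod_pow, Pi.pow_apply, map_pow]
  ring

end StpB

theorem stp_stmt : StpStmt := by
  intro k M K Λ κ n _ _ _ _ _ _ _ _ _ L ι l ζ w e h hI hC hS hT h1 R ⟨J, _, d, hd⟩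
  obtain ⟨o1, o2⟩ := h1 J d R hd
  refine ⟨_, inferInstance, dd L ι l ζ d, fg_iff.2 ⟨o1, ?_⟩⟩
  rintro f hf ⟨D, D1, hD⟩ V hV
  obtain ⟨N, g, t, a, μ, hN, hg, hμ, hu⟩ := hC f hf.1
  have cW := h.div.cartW g t a hg
  have hu' : ∀ O ∈ XX L ι ζ w e, IsU O (μ * lb L ι l ζ g t a O / f O ^ N) := fun O hO => by
    simpa only [inv_div] using (hu O hO).inv
  have c1 : cl (XX L ι ζ w e) (lb L ι l ζ g t a) = cl (XX L ι ζ w e) (f ^ N) :=
    cl_lin h.gX cW (hf.1.pow N) hu'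
  have c2 : ((cl _ g, t, fun i j => a i j) : WW (N1 L.Y) κ) = (N : ℝ) • D :=
    hI (by rw [h.phi_lb hg, c1, cl_pow h.gX hf.1, map_smul, hD, Nat.cast_smul_eq_nsmul])
  have s1 := StpA.sp_sq h.gY hg D1 (congrArg (fun x => x.1) c2)
  have sμ : Sc (XX L ι ζ w e) (lb L ι l ζ g t a) μ := fun O hO => by
    have := O.mul_mem (hu' O hO).mem (O.pow_mem (hf.2 O hO) N)
    rwa [div_mul_cancel₀ _ (pow_ne_zero _ (hf.1.ne hO))] at this
  obtain ⟨s, t0, t1, t2, t3⟩ := hS g t a hg μ hμ sμ V hV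
  obtain ⟨t', B, q, e1, e3, e4⟩ := hT _ _ _ (hg.pow 2) s t0 t1 t2
  rw [e3] at t0 t3
  have m1 := Mon.sum (d := dd L ι l ζ d) hV
    (fun O hO => (h.div.cartW _ (t' : ℤ) (fun i j => a i j * 2) (hg.pow 2)).ne hO)
    (fun b hb z => by
      have b0 : b ≠ 0 := fun y => z (by rw [y, map_zero, zero_mul])
      have q0 : q b ≠ 0 := fun y => z (by rw [y, map_zero, mul_zero])
      exact o2 _ _ _ (hg.pow 2) s1 _ _ b0 q0 (e4 b hb b0 q0) V hV) t0
  rw [← e1] at m1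
  have m2 : Mon (XX L ι ζ w e) (dd L ι l ζ d) V (lb L ι l ζ g t a) μ :=
    m1.of_pow two_pos hμ t0 t3 fun O hO => by
      rw [StpB.lb_sq, div_self (pow_ne_zero _ (cW.ne hO))]
      exact isU_one
  have m3 : Mon (XX L ι ζ w e) (dd L ι l ζ d) V (fun O => μ * lb L ι l ζ g t a O) 1 := by
    simpa only [Mon, one_mul] using m2
  exact m3.of_pow hN one_ne_zero one_ne_zero (by simp) hu'

end Pool.Agent.MP_20d318_ag.AM.PS

end

section

set_option autoImplicit false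
set_option linter.unusedSectionVars false

namespace Pool.Agent.MP_20d318_ag.AM.PS

open Pool.Agent.MP_fd6584_ag.Fn Pool.Agent.CBk Polynomial
open Pool.Agent.MP_fd6584_ag.AG hiding deg_inv deg_congr deg_of_unit deg_mul deg_prod deg_zpow
  deg_eq_zero deg_nonneg deg_div deg_pow
open Pool.Agent.MP_20d318_ag.CH

theorem nls_stmt : NlsStmt := by
  intro k M K Λ κ n _ _ _ _ _ _ _ _ _ L ι l ζ w e h inj cls nl f hf f0
  obtain ⟨N, g, t, a, μ, N0, hg, μ0, u⟩ := cls f hf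
  have c : cl (XX L ι ζ w e) (lb L ι l ζ g t a) = 0 := by
    rw [cl_lin h.gX (h.div.cartW g t a hg) (hf.pow N) (μ := μ) fun O hO => by
      have := (u O hO).inv
      rwa [inv_div] at this, cl_pow h.gX hf, f0, smul_zero]
  have q := inj ((h.phi_lb hg t a).trans (c.trans (map_zero _).symm))
  obtain ⟨m, lam, m0, v⟩ := nl g hg (congrArg Prod.fst q)
  have t0 : t = 0 := Int.cast_eq_zero.1 (congrArg (fun D : WW _ κ => D.2.1) q)
  have a0 : ∀ i j, a i j = 0 := fun i j =>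
    Int.cast_eq_zero.1 (congrArg (fun D : WW _ κ => D.2.2 i j) q)
  refine ⟨N * m, ι lam / μ ^ m, by positivity, fun O hO => ?_⟩
  have g0 : ι (g (pr ι L.Y O)) ≠ 0 := (map_ne_zero ι).2 (hg.ne (h.loc.maps.mem hO))
  refine Eq.subst (motive := IsU O) ?_ (((u O hO).pow m).mul
    (h.loc.maps.isU_up hO (v _ (h.loc.maps.mem hO))))
  simp only [lb, up, a0, t0, neg_zero, zpow_zero, Finset.prod_const_one, mul_one, map_mul, map_pow,
    mul_pow, div_pow, ← pow_mul]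
  field_simp

end Pool.Agent.MP_20d318_ag.AM.PS

end

section

set_option autoImplicit false
set_option linter.unusedSectionVars false

namespace Pool.Agent.MP_20d318_ag.AM.PS

open Pool.Agent.MP_fd6584_ag.Fn Pool.Agent.CBk
open Pool.Agent.MP_fd6584_ag.AG hiding deg_inv deg_congr deg_of_unit deg_mul deg_prod deg_zpow
  deg_eq_zero deg_nonneg deg_div deg_pow
open Pool.Agent.MP_20d318_ag.CH
open Pool.Agent.MP_20d318_ag.Lat (cone IsCone RP isCone_cone subset_cone)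

namespace PMdsA

open MdsA (pm nz)

universe u v u' v'

variable {V : Type u} {𝒞 : Type v} {V' : Type u'} {𝒞' : Type v'} {κ : Type} [AddCommGroup V]
  [Module ℝ V] [AddCommGroup V'] [Module ℝ V'] [Fintype κ] {N : Nd V 𝒞 κ}
  {N' : Nd V' 𝒞' (κ ⊕ Fin 4)} {Φ : WW V κ →ₗ[ℝ] V'}

theorem cW {S : Set V} (h : IsCone S) : IsCone {D : WW V κ | D.1 ∈ S} :=
  ⟨h.zero, fun _ a _ b => h.add _ a _ b, fun c hc _ a => h.smul c hc _ a⟩

theorem fs (i : Function.Injective Φ) (d : StDiv N N' Φ)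
    (c : ∀ x ∈ N'.Λ, ∃ n : ℕ, 0 < n ∧ ∃ D ∈ N.LW, (n : ℝ) • x = Φ D)
    (c' : ∀ x ∈ N'.Ef, ∃ D, Φ D = x ∧ D.1 ∈ N.Ef) (e : IsCone N.Ef) {R : Set V'} (f : R.Finite)
    (l : R ⊆ N'.Λ) (p : R ⊆ N'.Ef) : ∃ A : Set V, (A.Finite ∧ A ⊆ N.Λ ∧ A ⊆ N.Ef) ∧
      cone (R ∪ (Set.range N'.c ∪ Set.range fun i => -N'.c i)) ⊆
        Φ '' {D | D.1 ∈ cone (A ∪ (Set.range N.c ∪ Set.range fun i => -N.c i))} := by
  have key : ∀ r : R, ∃ D ∈ N.LW, D.1 ∈ N.Ef ∧ ∃ n : ℕ, 0 < n ∧ n • r.1 = Φ D := fun r => by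
    obtain ⟨n, n0, D, hD, q⟩ := c r (l r.2)
    obtain ⟨E, q', a⟩ := c' r (p r.2)
    obtain rfl : (n : ℝ) • E = D := i (by rw [map_smul, q', q])
    exact ⟨_, hD, e.smul _ n.cast_nonneg _ a, n, n0,
      (Nat.cast_smul_eq_nsmul ℝ n r.1).symm.trans q⟩
  choose D h1 h2 n h4 h5 using key
  have := f.to_subtype
  refine ⟨Set.range fun r => (D r).1, ⟨Set.finite_range _,
    Set.range_subset_iff.2 fun r => (h1 r).1, Set.range_subset_iff.2 h2⟩, ?_⟩
  have w := (cW (κ := κ) (isCone_cone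
    ((Set.range fun r => (D r).1) ∪ (Set.range N.c ∪ Set.range fun i => -N.c i)))).image Φ
  refine w.cone_subset ?_
  rintro x (q | ⟨j | j, rfl⟩ | ⟨j | j, rfl⟩)
  · exact IsCone.of_nsmul w (h4 ⟨x, q⟩)
      ⟨_, subset_cone _ (Or.inl ⟨⟨x, q⟩, rfl⟩), (h5 ⟨x, q⟩).symm⟩
  · exact ⟨_, subset_cone _ (Or.inr (Or.inl ⟨j, rfl⟩)), (d.cC j).symm⟩
  · exact ⟨_, (isCone_cone _).zero, (d.cT j).symm⟩
  · exact ⟨-N.rowW j, subset_cone _ (Or.inr (Or.inr ⟨j, rfl⟩)), by rw [map_neg, ← d.cC]⟩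
  · exact ⟨-colW j, nz _, by rw [map_neg, ← d.cT]⟩

theorem rp (d : StDiv N N' Φ) {R : Set V} (f : R.Finite) (l : R ⊆ N.Λ) :
    RP N'.Λ (Φ '' {D | D.1 ∈ cone R}) := by
  classical
  let a : V →ₗ[ℝ] WW V κ := LinearMap.inl ℝ _ _
  let x : Option (κ × Fin 4) → WW V κ := fun p => p.elim (0, 1, 0) fun p => excW p.1 p.2
  have hx : ∀ p, x p ∈ N.LW := by
    rintro (_ | p)
    · exact ⟨zero_mem _, IZ.one, fun _ _ => IZ.zero⟩
    · exact ⟨zero_mem _, IZ.zero, fun _ _ => IZ.ite IZ.one.neg IZ.zero⟩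
  have h0 : ∀ p, (x p).1 = 0 := by rintro (_ | p) <;> rfl
  have e : cone (a '' R ∪ (Set.range x ∪ Set.range fun p => -x p)) = {D | D.1 ∈ cone R} := by
    refine ((cW (isCone_cone R)).cone_subset ?_).antisymm fun D h => ?_
    · rintro _ (⟨y, q, rfl⟩ | ⟨p, rfl⟩ | ⟨p, rfl⟩)
      · exact subset_cone _ q
      · change (x p).1 ∈ cone R
        exact (h0 p).symm ▸ (isCone_cone R).zero
      · change -(x p).1 ∈ cone R
        exact (h0 p).symm ▸ nz R
    · have : D = a D.1 + D.2.1 • x none + ∑ p : κ × Fin 4, (-D.2.2 p.1 p.2) • x (some p) := by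
        refine Prod.ext ?_ (Prod.ext ?_ (funext₂ fun i j => ?_))
        · simp [a, x, excW, Prod.fst_sum]
        · simp [a, x, excW, Prod.fst_sum, Prod.snd_sum]
        · simp [a, x, excW, Prod.snd_sum, Finset.sum_apply, Fintype.sum_prod_type, ite_and]
      have k : ∀ (p : Option (κ × Fin 4)) (c : ℝ),
          c • x p ∈ cone (a '' R ∪ (Set.range x ∪ Set.range fun p => -x p)) := fun p c => by
        refine pm (isCone_cone _) ?_ ?_ c
        · exact subset_cone _ (Or.inr (Or.inl ⟨p, rfl⟩))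
        · exact subset_cone _ (Or.inr (Or.inr ⟨p, rfl⟩))
      rw [this]
      exact (isCone_cone _).add _ ((isCone_cone _).add _ (((isCone_cone _).preimage a).cone_subset
        (fun y q => subset_cone _ (Or.inl ⟨y, q, rfl⟩)) h) _ (k _ _)) _
        ((isCone_cone _).sum_mem _ _ fun p _ => k _ _)
  rw [← e, ← cone_map]
  refine rp_fin (((f.image _).union
    ((Set.finite_range _).union (Set.finite_range _))).image _) ?_
  rintro _ ⟨_, ⟨y, q, rfl⟩ | ⟨p, rfl⟩ | ⟨p, rfl⟩, rfl⟩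
  · exact d.lat _ ⟨l q, IZ.zero, fun _ _ => IZ.zero⟩
  · exact d.lat _ (hx p)
  · exact d.lat _ (neg_mem (hx p))

end PMdsA

theorem mds_stmt : MdsStmt := by
  intro hI hE k M K Λ κ n _ _ _ _ _ _ _ _ _ L ι l ζ w e h i d c c' u s r m
  refine ⟨r.nl, fun R f a b => ?_, ?_⟩
  · obtain ⟨A, ⟨a1, a2, a3⟩, q⟩ := PMdsA.fs i d c c' (isCone_cone _) f a b
    exact (s A (m.fs A a1 a2 a3)).mono q
  obtain ⟨A, a1, a2, a3, a4⟩ := m.ce
  obtain ⟨_, ⟨T, t1, rfl⟩, t2, t3⟩ := hE hI k K _ r _ (PMdsA.rp d a1 a2)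
    ((s A (m.fs A a1 a2 a3)).mono (Set.image_mono fun D q =>
      Lat.cone_mono Set.subset_union_left q))
  refine ⟨_, T.finite_toSet, t1, (subset_cone _).trans t2, fun x hx => ?_⟩
  obtain ⟨D, rfl, p⟩ := c' x hx
  obtain ⟨g, g1, g2⟩ := a4 _ p
  obtain ⟨γ, q1, q2⟩ := u g g1
  refine ⟨γ, q1, t3 ⟨?_, _, ?_, (q2 D).symm⟩⟩
  · obtain ⟨u, -, -, rfl⟩ := q1
    exact Glue.gEf u hx
  · exact g2

end Pool.Agent.MP_20d318_ag.AM.PS

end

section

set_option autoImplicit false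
set_option linter.unusedSectionVars false

namespace Pool.Agent.MP_20d318_ag.AM.PS

open Pool.Agent.MP_fd6584_ag.Fn Pool.Agent.CBk
open Pool.Agent.MP_fd6584_ag.AG hiding deg_inv deg_congr deg_of_unit deg_mul deg_prod deg_zpow
  deg_eq_zero deg_nonneg deg_div deg_pow
open Pool.Agent.MVg (Two BasStmt)
open Pool.Agent.MP_20d318_ag.CH
open Pool.Agent.MP_20d318_ag.Lat (cone IsCone RP isCone_cone subset_cone)

theorem pm : PM :=
  ⟨spl_stmt, deg_stmt, ord_stmt, ten_stmt, one_stmt, stp_stmt, nls_stmt, mds_stmt⟩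

variable {k M K Λ κ : Type} {n : ℕ} [Field k] [NeZero (2 : k)] [IsAlgClosed k] [Field M] [Field K]
  [Algebra k M] [Algebra k K] [Finite Λ] [Fintype κ] {L : Lv k M Λ κ n} {ι : M →ₐ[k] K} {l : k}
  {ζ w : K} {e : ℕ}

theorem rcp (m : MM) {h : All L ι l ζ w e} (i : Function.Injective h.Phi)
    (d : StDiv L.nd (nx L ι l ζ w e).nd h.Phi)
    (c : ∀ x ∈ (nx L ι l ζ w e).nd.Ef, ∃ D, h.Phi D = x ∧ D.1 ∈ L.nd.Ef) (s : XStp h)
    (r : Ref (XX L ι ζ w e)) (md : MD L) (rc : RC L.Y) : RC (XX L ι ζ w e) := by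
  classical
  intro x a ha hx
  obtain ⟨A, rfl, a1⟩ := c a ha
  obtain ⟨B, q, -⟩ := c _ (hx 1 one_pos)
  obtain ⟨D, rfl⟩ : ∃ D, h.Phi D = x := ⟨B - A, by rw [map_sub, q, one_smul, add_sub_cancel_right]⟩
  have d1 : D.1 ∈ Glue.Ef L.Y := rc _ _ a1 fun ε e0 => by
    obtain ⟨E, q, p⟩ := c _ (hx ε e0)
    obtain rfl : E = D + ε • A := i (by rw [q, map_add, map_smul])
    exact p
  obtain ⟨R, r1, r2⟩ := exists_fin a1
  obtain ⟨R', r3, r4⟩ := exists_fin d1
  have u : ((R ∪ R' : Finset _) : Set (N1 L.Y)) ⊆ Cartier.n1 '' {D | D.Effective} := by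
    rw [Finset.coe_union]
    exact Set.union_subset r1 r3
  have u1 : ((R ∪ R' : Finset _) : Set (N1 L.Y)) ⊆ LL L.Y := fun y hy =>
    let ⟨E, _, p⟩ := u hy; AddSubgroup.subset_closure ⟨E, p⟩
  obtain ⟨_, ⟨T, -, rfl⟩, t2, t3⟩ := m.efc m.int k K _ r _ (PMdsA.rp d (Finset.finite_toSet _) u1)
    ((s _ (md.fs _ (Finset.finite_toSet _) u1 (u.trans (subset_cone _)))).mono
      (Set.image_mono fun D q => Lat.cone_mono Set.subset_union_left q))
  refine t2 (m.ray _ T _ (h.Phi A) fun δ d0 => ⟨δ, d0, le_rfl, t3 ⟨hx δ d0, D + δ • A, ?_, ?_⟩⟩)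
  · exact (isCone_cone _).add _ (Lat.cone_mono (Finset.coe_subset.2 Finset.subset_union_right) r4) _
      ((isCone_cone _).smul _ d0.le _
        (Lat.cone_mono (Finset.coe_subset.2 Finset.subset_union_left) r2))
  · exact (map_add _ _ _).trans (congrArg _ (map_smul _ _ _))

theorem pstep (c : CH.Mods) (m : MM) (b : BasStmt) (h : All L ι l ζ w e) (two : Two κ)
    (a : Iv L) : Iv (nx L ι l ζ w e) := by
  obtain ⟨r, md⟩ := pm.step c m b h two a.fd a.md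
  have sig := c.sig c.hom k M K Λ κ n L ι l ζ w e h
  have cls := c.cls c.hor k M K Λ κ n L ι l ζ w e h (c.pl k M K Λ κ n L ι l ζ w e h) r.nice
  have inj := phi_inj (c.test c.lift k M K Λ κ n L ι l ζ w e h
    (c.cur k M K Λ κ n L ι l ζ w e h).1 (c.pt k M K Λ κ n L ι l ζ w e h))
  exact ⟨r.fd, md, rcp m inj (c.dv k M K Λ κ n L ι l ζ w e h) (c.cln k M K Λ κ n L ι l ζ w e h cls
    (c.eff k M K Λ κ n L ι l ζ w e h sig (c.pol c.gauss k M K Λ κ n L ι l ζ w e h))).2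
    (pm.stp k M K Λ κ n L ι l ζ w e h inj cls (pm.spl k M K Λ κ n L ι l ζ w e h sig)
      (pm.ten c.gauss b k M K Λ κ n L ι l ζ w e h two (pm.deg k M K Λ κ n L ι l ζ w e h)
        (pm.ord c.gauss k M K Λ κ n L ι l ζ w e h)) (pm.one k M K Λ κ n L ι l ζ w e h))
    r a.md a.rc⟩

end Pool.Agent.MP_20d318_ag.AM.PS

end
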