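import Pool.Agent.MP_20d318_ag.AM.K4
import Pool.Agent.MP_20d318_ag.AM.K6
import Pool.Agent.MP_20d318_ag.KK.MainE
import Pool.Agent.MP_fd6584_ag.MV.Fin
import Pool.Agent.MP_20d318_ag.AM.K7
import Pool.Agent.MP_20d318_ag.AM.K1
import Pool.Agent.MP_20d318_ag.AM.K2
import Pool.Agent.MP_20d318_ag.AM.K3
import Pool.Agent.MP_20d318_ag.AM.K5

/-! The induction on the number of factors. -/

section

set_option autoImplicit false
set_option linter.unusedSectionVars false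
set_option linter.style.haveILetI false

open AlgebraicGeometry CategoryTheory

namespace Pool.Agent.MP_20d318_ag.AM

open Pool.Agent.MP_fd6584_ag Pool.Agent.MP_fd6584_ag.Pj Pool.Agent.CBk
open Pool.Agent.MP_fd6584_ag.AG hiding deg_inv deg_congr deg_of_unit deg_mul deg_prod deg_zpow
  deg_eq_zero deg_nonneg deg_div deg_pow
open Pool.Agent.MVg (Two gm)
open Pool.Agent.MP_20d318_ag.CH (Lv Ok MW cb Vol Tw lv0)
open Pool.Agent.MP_20d318_ag.KK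
open Pool.Agent.MP_20d318_ag.CB.P (Pd Pair0 Pair Sg)
open IntermediateField (adjoin)

section tower

variable {k M₀ M K : Type} [Field k] [Field M₀] [Field M] [Field K] [Algebra k M₀] [Algebra k M]
  [Algebra k K] {a r : ℕ}

/-- A variety over the product of the surfaces `T i` and of `r` lines. -/
structure Tg (T : Fin a → Set (Subalgebra k M₀)) (φ : Fin a → M₀) (l : Fin r → k)
    (X : Set (Subalgebra k K)) (ψ : K) (G : Set K) (ι : Fin a → M₀ →ₐ[k] K) (ζ : Fin r → K) :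
    Prop where
  ind : ∃ x y : Fin a → M₀,
    AlgebraicIndependent k (Sum.elim (Sum.elim (fun i => ι i (x i)) fun i => ι i (y i)) ζ)
  eq : ψ = (∏ i, ι i (φ i)) * ∏ r, cb (l r) (ζ r)
  top : adjoin k ((⋃ i, Set.range (ι i)) ∪ (Set.range ζ ∪ G)) = ⊤
  reg : ∀ O ∈ X, (∀ i, ∃ R ∈ T i, ∀ a ∈ R, ι i a ∈ O) ∧ ∀ r, ζ r ∈ O ∨ (ζ r)⁻¹ ∈ O

theorem tg_base {T : Fin 1 → Set (Subalgebra k M₀)} {φ : Fin 1 → M₀} {l : Fin r → k}
    {y : Fin 2 → M₀} (hy : AlgebraicIndependent k y) {Z : Set (Subalgebra k K)} {ψ : K} {G : Set K}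
    {ι : M₀ →ₐ[k] K} {ζ : Fin r → K} (t : Tw (T 0) (φ 0) l Z ψ G ι ζ) :
    Tg T φ l Z ψ G (fun _ => ι) ζ := by
  refine ⟨⟨fun _ => y 0, fun _ => y 1, ?_⟩, by simpa using t.eq, by simpa [Set.iUnion_const] using t.top,
    fun O hO => ⟨fun i => Fin.fin_one_eq_zero i ▸ (t.reg O hO).1, (t.reg O hO).2⟩⟩
  let _ := ι.toRingHom.toAlgebra
  have : IsScalarTower k M₀ K := .of_algebraMap_eq fun r => (ι.commutes r).symm
  have h1 : AlgebraicIndependent M₀ ζ := (injective_iff_map_eq_zero _).2 t.ind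
  have h2 := ((hy.comp (Sum.elim (fun _ => 0) fun _ => 1 : Fin 1 ⊕ Fin 1 → Fin 2)
    (by decide)).sumElim_comp h1).comp _ (Equiv.sumComm _ _).injective
  refine TqR.cg h2 fun i => ?_
  rcases i with (i | i) | i <;> rfl

theorem tg_step {T : Fin (a + 1) → Set (Subalgebra k M₀)} {φ : Fin (a + 1) → M₀} {l : Fin r → k}
    {Y : Set (Subalgebra k M)} {Z : Set (Subalgebra k K)} {ψ : M} {ι₀ : Fin a → M₀ →ₐ[k] M}
    {ζ : Fin r → M} {ι : M →ₐ[k] K} {ι' : M₀ →ₐ[k] K} {v : K} {e : ℕ} {y : Fin 2 → M₀}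
    (h : Tg (Fin.tail T) (Fin.tail φ) l Y ψ ∅ ι₀ ζ) (x : Ext ψ (φ 0) ι ι' v e) (f : Fld ι ι' v e)
    (hy : AlgebraicIndependent k y) (m1 : Maps ι Z Y) (m2 : Maps ι' Z (T 0)) {G : Set K}
    (hG : e = 1 ∨ v * ι ψ ∈ G) :
    Tg T φ l Z (ι ψ * ι' (φ 0)) G (TqR.cs ι₀ ι ι') fun j => ι (ζ j) := by
  have q1 : ∀ m, ι m ∈ adjoin k ((⋃ i, Set.range (TqR.cs ι₀ ι ι' i)) ∪
      ((Set.range fun j => ι (ζ j)) ∪ G)) := by
    refine FLD.mems h.top ?_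
    rintro _ ⟨_, q | ⟨j, rfl⟩ | ⟨⟨⟩⟩, rfl⟩
    · obtain ⟨i, m, rfl⟩ := Set.mem_iUnion.1 q
      exact Or.inl (Set.mem_iUnion.2 ⟨i.succ, m, rfl⟩)
    · exact Or.inr (Or.inl ⟨j, rfl⟩)
  have q2 : ∀ m, ι' m ∈ adjoin k ((⋃ i, Set.range (TqR.cs ι₀ ι ι' i)) ∪
      ((Set.range fun j => ι (ζ j)) ∪ G)) := fun m =>
    IntermediateField.subset_adjoin _ _ (Or.inl (Set.mem_iUnion.2 ⟨0, m, rfl⟩))
  refine ⟨?_, ?_, FLD.eq_top x q1 q2 ?_, fun O hO => ?_⟩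
  · obtain ⟨b, c, h1⟩ := h.ind
    refine ⟨Fin.cons (y 0) b, Fin.cons (y 1) c, ?_⟩
    have h2 := (f.ind _ _ _ _ h1 hy).comp (Sum.elim (Sum.elim
      (Fin.cons (.inr 0) fun i => .inl (.inl (.inl i)))
      (Fin.cons (.inr 1) fun i => .inl (.inl (.inr i)))) (fun j => .inl (.inr j)) :
        (Fin (a + 1) ⊕ Fin (a + 1)) ⊕ Fin r → ((Fin a ⊕ Fin a) ⊕ Fin r) ⊕ Fin 2) (by
      rintro ((i | i) | i) ((j | j) | j) <;> (try cases i using Fin.cases) <;>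
        (try cases j using Fin.cases) <;> simp)
    refine TqR.cg h2 fun i => ?_
    rcases i with (i | i) | i <;> (try cases i using Fin.cases) <;> rfl
  · rw [Fin.prod_univ_succ, h.eq, map_mul, map_prod, map_prod, mul_comm, ← mul_assoc]
    simp only [cb, map_mul, map_sub, map_one, AlgHom.commutes]
    rfl
  · rcases hG with rfl | q
    · exact pow_one v ▸ FLD.pow_mem' x q1 q2
    · refine (mul_div_cancel_right₀ v ((map_ne_zero ι).2 x.ne)).subst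
        (motive := (· ∈ adjoin k _)) (div_mem ?_ (q1 ψ))
      exact IntermediateField.subset_adjoin _ _ (Or.inr (Or.inr q))
  · obtain ⟨R, hR, q⟩ := m1 O hO
    refine ⟨fun i => ?_, fun j => ((h.reg R hR).2 j).imp (fun t => q.1 t) fun t => ?_⟩
    · cases i using Fin.cases with
      | zero => exact (m2 O hO).imp fun R q => ⟨q.1, fun c hc => q.2.1 hc⟩
      | succ i => exact ((h.reg R hR).1 i).imp fun R' q' => ⟨q'.1, fun c hc => q.1 (q'.2 c hc)⟩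
    · rw [← map_inv₀]
      exact q.1 t

end tower

/-- The step with a line. -/
def PStep : Prop := CH.Row fun {_ _ _ _ κ _ _ _ _ _ _ _ L ι l ζ w e} _ =>
  Two κ → Iv L → Iv (CH.nx L ι l ζ w e)

/-- All the rows. -/
structure SM : Prop where
  mm : MM
  b : BM
  v : VM
  ps : PStep
  gen : GenStmt
  spl : SplStmt
  ten : TenStmt
  ord : OrdStmt
  one : OneStmt
  stp : StpStmt
  nls : NlsStmt
  mds : MdsStmt

theorem fd_of {V W : Type*} [AddCommGroup V] [Module ℝ V] [AddCommGroup W] [Module ℝ W]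
    [FiniteDimensional ℝ W] (Φ : W →ₗ[ℝ] V) {Λ : Set V} (h1 : Submodule.span ℝ Λ = ⊤)
    (h2 : ∀ x ∈ Λ, ∃ n : ℕ, 0 < n ∧ ∃ D, (n : ℝ) • x = Φ D) : FiniteDimensional ℝ V := by
  refine Module.Finite.of_surjective Φ (LinearMap.range_eq_top.1 (top_le_iff.1 ?_))
  rw [← h1, Submodule.span_le]
  intro x hx
  obtain ⟨n, a, D, b⟩ := h2 x hx
  exact ⟨(n : ℝ)⁻¹ • D, by rw [map_smul, ← b, inv_smul_smul₀ (by positivity)]⟩

variable {k M M' K Λ Λ' κ κ' : Type} {n n' : ℕ} [Field k] [NeZero (2 : k)] [IsAlgClosed k] [Field M]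
  [Field M'] [Field K] [Algebra k M] [Algebra k M'] [Algebra k K] [Fintype κ]
  [Fintype κ'] {L : Lv k M Λ κ n} {L' : Lv k M' Λ' κ' n'} {ι : M →ₐ[k] K} {ι' : M' →ₐ[k] K} {v : K}
  {e : ℕ}

theorem SM.step (s : SM) (h : Geo L L' ι ι' v e (XX L L' ι ι' v e)) (two : Two κ') (z : Hz ι ι' v)
    (a : Iv L) (b : Iv L') : Iv (nx L L' ι ι' v e) := by
  have c1 := mods.cura _ _ _ _ _ _ _ _ _ _ L L' ι ι' v e _ h
  have c2 := mods.cura _ _ _ _ _ _ _ _ _ _ L' L ι' ι _ e _ h.symm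
  have inj := phi_inj (mods.test mods.c.lift _ _ _ _ _ _ _ _ _ _ L L' ι ι' v e _ h c1 c2
    (mods.xpt h) (mods.xpt h.symm))
  obtain ⟨n1, n2⟩ := mods.c.nice k K _ h.fine (mods.sm h)
  have cls := mods.cls _ _ _ _ _ _ _ _ _ _ L L' ι ι' v e _ h (mods.xpl h) (mods.xpl h.symm) z n1
  have dv := mods.dv _ _ _ _ _ _ _ _ _ _ L L' ι ι' v e h
  have cln := mods.cln _ _ _ _ _ _ _ _ _ _ L L' ι ι' v e h cls (mods.xeff h) (mods.xeff h.symm)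
  have := a.1
  have := b.1
  have fd : FiniteDimensional ℝ (AG.N1 (XX L L' ι ι' v e)) := fd_of h.Phi dv.spn fun x hx =>
    let ⟨n, p, D, _, q⟩ := cln.cls x hx; ⟨n, p, D, q⟩
  have st := s.stp _ _ _ _ _ _ _ _ _ _ L L' ι ι' v e _ h inj cls
    (s.spl _ _ _ _ _ _ _ _ _ _ L L' ι ι' v e _ h (mods.xsig h))
    (s.ten mods.ga _ _ _ _ _ _ _ _ _ _ L L' ι ι' v e _ h (mods.uf h))
    (s.ord mods.kq s.gen gm.bas _ _ _ _ _ _ _ _ _ _ L L' ι ι' v e _ h two)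
    (s.one _ _ _ _ _ _ _ _ _ _ L L' ι ι' v e _ h)
  have r := s.mm.ref s.mm.sol k K _ ⟨n1, n2, fd,
    s.nls _ _ _ _ _ _ _ _ _ _ L L' ι ι' v e _ h inj cls a.md.nl b.md.nl⟩
  exact ⟨fd, s.mds s.mm.int s.mm.efc _ _ _ _ _ _ _ _ _ _ L L' ι ι' v e h inj dv cln
    (mods.lft _ _ _ _ _ _ _ _ _ _ L L' ι ι' v e h (mods.xsig h)) st r a.md b.md,
    s.v.rcs s.mm.int s.mm.ray s.mm.efc _ _ _ _ _ _ _ _ _ _ L L' ι ι' v e h inj dv cln st r a.md b.md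
      a.rc b.rc⟩

theorem SM.all (s : SM) (a : Iv L) (b : Nice L.Y ∧ MVg.Fac L.Y) {J : Type} [Finite J]
    {𝒞 : Charts k M J} (h : Sch.pts 𝒞 = L.Y) :
    (∀ Z, Sm L.Y Z → ConeStatement Z) ∧ Aix L.Y :=
  have r := s.mm.ref s.mm.sol k M _ ⟨b.1, b.2, a.fd, a.md.nl⟩
  ⟨s.mm.mod k M _ r a.md.fS a.md.cE, s.v.ai s.mm gm.unif gm.pull gm.psm k M _ r a.md.fS a.md.cE a.rc
    ⟨b.1, fun _ => Iff.rfl, fun P hP => (b.2 P hP).imp fun _ q => ⟨q.1, fun P' h' =>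
      ⟨fun z e => by simp [e, q.2.1] at z, q.2.2 P' h'⟩⟩, J, inferInstance, 𝒞, h.symm⟩⟩

variable {M₀ : Type} [Field M₀] [Algebra k M₀]

/-- A surface as a level. -/
def P1 (T : Set (Subalgebra k M₀)) (φ : M₀) (t : Prop) : Prop :=
  ∃ (Λ κ : Type) (_ : Finite Λ) (_ : Fintype κ) (L : Lv k M₀ Λ κ 0),
    L.Y = T ∧ L.φ = φ ∧ Ok L ∧ Iv L ∧ (t → Two κ)

theorem SM.p1 (s : SM) {T : Set (Subalgebra k M₀)} {D₁ D₂ : Derivation k M₀ M₀} {φ φ' : M₀}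
    (hT : RS.Tower T) (h1 : RS.BiAnti T D₁ D₂ φ) (h2 : RS.SmoothZero T D₁ D₂ φ)
    (h3 : RS.BiAnti T D₁ D₂ φ') (h4 : ∀ c : k, φ' ≠ c • φ) : P1 T φ (TwoComp T D₁ D₂ φ) := by
  classical
  obtain ⟨I, _, S, N, ε, rfl, hS, st⟩ := bmods.b.g.st k M₀ T hT
  obtain ⟨κ, _, p₀, rfl, rfl, rfl, rfl, hp₀⟩ :=
    CB.P.pa_stmt k M₀ I S D₁ D₂ φ φ' (CB.P.sAll hS) h1 h2 h3 h4
  have hp₁ : Pair0 p₀ := ⟨hp₀, CB.P.pb_stmt plane_stmt k M₀ I κ p₀ hp₀⟩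
  obtain ⟨i, hp⟩ := CB.P.pc_stmt k M₀ I κ p₀ φ' hp₁ (CB.hg_stmt I p₀.B hS.sym hS.hodge) h3 h4
  have two := (gm.two k M₀ I κ p₀ hp₁).1
  generalize ep : ({ p₀ with k0 := i } : Pd k M₀ I κ) = p at hp
  have ta := bmods.b.g.ta k M₀ I _ hp.all
  obtain ⟨ψ, a1, a2⟩ := bmods.b.iso k M₀ I κ p {ρ | ∃ σ, Sg p σ ρ} hp.toPair0 fun _ h => h
  have la := MVg.la hp
  refine ⟨_, κ, inferInstance, _, lv0 p, ep ▸ rfl, ep ▸ rfl,
    mods.c.ok (bmods.b.bs0 mods.c.der k M₀ I κ p hp.toPair0 ta), ⟨ψ.finiteDimensional,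
      s.b.bse s.b.sol k M₀ I κ p hp la ta _ ψ a1 a2 (s.b.efb gm.lm I κ _ _ la
        (gm.s1l gm.avp k M₀ I κ p hp (gm.s1 gm.h0 k M₀ I κ p hp)) ⟨_, MVg.sg_one hp⟩
        (fun ρ ⟨σ, a⟩ => gm.iso k M₀ I κ p σ ρ hp a) fun hF => ?_)
        (s.b.fg gm.lm hp la ta (N := N) (ε := ε) (ep ▸ st)),
      s.v.rcb k M₀ I κ p hp la ta (s.v.pel gm.lm I κ _ la) _ ψ a1⟩, two⟩
  obtain ⟨N, a, b⟩ := CB.P.trans_stmt k M₀ I κ p hp.toPair0 hF (hp.hz.two hF) (hp.hasInv hF)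
  exact ⟨N, a, fun x hx' => let ⟨σ, ρ, c, d⟩ := b x hx'; ⟨ρ, ⟨σ, c⟩, d⟩⟩

variable {a r : ℕ}

/-- A level over a product. -/
def Pq (T : Fin a → Set (Subalgebra k M₀)) (φ : Fin a → M₀) (l : Fin r → k) : Prop :=
  ∃ (M Λ κ : Type) (n : ℕ) (_ : Field M) (_ : Algebra k M) (_ : Finite Λ) (_ : Fintype κ)
    (L : Lv k M Λ κ n) (ι : Fin a → M₀ →ₐ[k] M) (ζ : Fin r → M),
      Ok L ∧ Iv L ∧ Tg T φ l L.Y L.φ ∅ ι ζ

theorem SM.pq (s : SM) (l : Fin r → k) (a : ℕ) (T : Fin (a + 1) → Set (Subalgebra k M₀))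
    (φ : Fin (a + 1) → M₀) (h : ∀ i : Fin a, P1 (T i.castSucc) (φ i.castSucc) True)
    (b : Pq (fun _ : Fin 1 => T (Fin.last a)) (fun _ => φ (Fin.last a)) l) : Pq T φ l := by
  induction a with
  | zero =>
    rwa [show T = fun _ => T (Fin.last 0) from funext fun i => congrArg T (Fin.fin_one_eq_zero i),
      show φ = fun _ => φ (Fin.last 0) from funext fun i => congrArg φ (Fin.fin_one_eq_zero i)]
  | succ a ih =>
    obtain ⟨M, Λ, κ, n, _, _, _, _, L, ι₀, ζ, h1, h2, h5⟩ :=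
      ih (Fin.tail T) (Fin.tail φ) (fun i => h i.succ) b
    obtain ⟨Λ', κ', _, _, L', e1, e2, g1, g2, g3⟩ := h 0
    obtain ⟨K, _, _, ι, ι', v, x, y⟩ := mods.geo h1 g1 (Or.inl rfl)
    replace e1 : L'.Y = T 0 := e1
    replace e2 : L'.φ = φ 0 := e2
    have t := tg_step h5 (e2 ▸ x.ext) x.fld g1.ind x.maps (e1 ▸ x.maps') (G := ∅) (Or.inl rfl)
    rw [← e2] at t
    exact ⟨K, _, _, _, _, _, inferInstance, _, nx L L' ι ι' v 1, _, _, mods.next x y,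
      s.step x (g3 trivial) (mods.hz1 k M M₀ K ι ι' _ _ v x.ext (mods.uf x)) h2 g2, t⟩

/-- The final variety. -/
def Top (T : Fin a → Set (Subalgebra k M₀)) (φ : Fin a → M₀) (l : Fin r → k) : Prop :=
  ∃ (K Λ κ : Type) (_ : Field K) (_ : Algebra k K) (_ : Finite Λ) (_ : Fintype κ) (n : ℕ)
    (L : Lv k K Λ κ n) (j w : K) (ι : Fin a → M₀ →ₐ[k] K) (ζ : Fin r → K), Fam k L.S ∧
      (∀ O ∈ L.Y, Algebra.FormallySmooth k O) ∧ AlgebraicIndependent k L.y ∧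
      Algebra.IsSeparable (adjoin k (Set.range L.y)) K ∧ j ≠ 0 ∧
      Vol L.Y L.y (fun _ => j) ∧ Tg T φ l L.Y (w ^ 2) {w} ι ζ ∧ Iv L

theorem SM.top (s : SM) {T : Fin (a + 1) → Set (Subalgebra k M₀)} {φ : Fin (a + 1) → M₀}
    {l : Fin r → k} (h : P1 (T 0) (φ 0) True) (b : Pq (Fin.tail T) (Fin.tail φ) l)
    (hz : HZ k (φ 0)) : Top T φ l := by
  obtain ⟨M, Λ, κ, n, _, _, _, _, L, ι₀, ζ, h1, h2, h5⟩ := b
  obtain ⟨Λ', κ', _, _, L', e1, e2, g1, g2, g3⟩ := h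
  obtain ⟨K, _, _, ι, ι', v, x, y⟩ := mods.geo h1 g1 (Or.inr rfl)
  obtain ⟨⟨a1, a2, -⟩, a3⟩ := mods.nxb mods.c.der _ _ _ _ _ _ _ _ _ _ L L' ι ι' v 2 x
  obtain ⟨j, j0, hj⟩ :=
    (a3 (mods.vol mods.c.der mods.crq _ _ _ _ _ _ _ _ _ _ L L' ι ι' v 2 _ x)).2 rfl
  have t := tg_step h5 (e2 ▸ x.ext) x.fld g1.ind x.maps (e1 ▸ x.maps') (G := {v * ι L.φ})
    (Or.inr rfl)
  rw [show ι L.φ * ι' (φ 0) = (v * ι L.φ) ^ 2 by rw [← e2, ← x.ext.eq]; ring] at t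
  exact ⟨K, _, _, _, _, inferInstance, inferInstance, _, nx L L' ι ι' v 2, j, _, _, _, y.1, mods.sm x, a1, a2,
    j0, hj, t, s.step x (g3 trivial) (hz M K _ ι ι' v (e2 ▸ x.ext) x.fld h1.mw (mods.uf x)) h2 g2⟩

theorem P1.pq {T : Set (Subalgebra k M₀)} {φ : M₀} {t : Prop} (h : P1 T φ t) (l : Fin 0 → k) :
    Pq (fun _ : Fin 1 => T) (fun _ => φ) l := by
  obtain ⟨Λ, κ, _, _, L, rfl, rfl, g1, g2, -⟩ := h
  exact ⟨M₀, Λ, κ, 0, _, _, inferInstance, _, L, _, _, g1, g2,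
    tg_base g1.ind ((mods.c.tw k M₀ _ _).1 l)⟩

/-- All small modifications satisfy the cone conjecture. -/
def AllMod {X : Scheme.{0}} [IsIntegral X] (s : X ⟶ Spec (CommRingCat.of k)) : Prop :=
  ∀ (X' : Scheme.{0}) [IsIntegral X'] (s' : X' ⟶ Spec (CommRingCat.of k)), IsProjective s' →
    Normal X' → QFact X' → SmallMod s s' → CC.NefConj s'

theorem Top.scheme (m : SM) {T : Fin a → Set (Subalgebra k M)} {φ : Fin a → M}
    {l : Fin r → k} (h : Top T φ l) :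
    ∃ (X : Scheme.{0}) (_ : IsIntegral X) (s : X ⟶ Spec (CommRingCat.of k)),
      IsProjective s ∧ Smooth s ∧ TrivialCanonical s ∧ ProdCover s T φ l ∧ MovConj s ∧
        AllMod s := by
  obtain ⟨K, Λ, κ, _, _, _, _, n, L, j, w, ι, ζ, fam, sm, ind, sep, j0, vol, tw, hc⟩ := h
  obtain ⟨J, _, 𝒞, hC, hB⟩ := chart_of fam
  replace hC : Sch.pts 𝒞 = L.Y := hC
  obtain ⟨N⟩ := exists_model 𝒞
  have hO : ∀ q, Sch.OA N q ∈ L.Y := fun q => hC ▸ Sch.OA_mem q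
  have ni := mods.c.nice k K L.Y (fine_mp fam) sm
  obtain ⟨a1, a2⟩ := m.all hc ni hC
  refine ⟨N.X, N.integral, N.s, N.proj, N.smooth fun j => ?_,
    mods.c.triv k K J 𝒞 N (n + 1) L.y j ind sep j0 (hC ▸ vol), ?_, ?_,
    sch N (hC ▸ ni.1) (hC ▸ a1)⟩
  · obtain ⟨G, g1, g2⟩ := hB j
    rw [g2]
    exact smG_stmt k K G g1 fun O g3 => sm O (hC ▸ Set.mem_iUnion.2 ⟨j, g2 ▸ g3⟩)
  · letI : Algebra k N.X.functionField := (const N.s).toAlgebra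
    let ε : N.X.functionField ≃ₐ[k] K := AlgEquiv.ofRingEquiv (f := N.e) N.e_const
    have reg : ∀ q, ∀ f ∈ Sch.OA N q, RegAt q (ε.symm f) := fun q f ⟨u, hu⟩ =>
      ⟨u, ε.eq_symm_apply.2 hu⟩
    obtain ⟨x, y, hxy⟩ := tw.ind
    refine ⟨fun i => ε.symm.toAlgHom.comp (ι i), fun i => ε.symm (ζ i), ε.symm w, x, y, ?_, ?_,
      ?_, fun q => ⟨fun i => ?_, fun i => ?_⟩⟩
    · have := hxy.map' (f := ε.symm.toAlgHom) ε.symm.injective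
      rw [Sum.comp_elim, Sum.comp_elim] at this
      exact this
    · have := congrArg ε.symm tw.eq
      simp only [cb, map_pow, map_mul, map_prod, map_sub, map_one, AlgEquiv.commutes] at this
      exact this
    · have := congrArg (IntermediateField.map ε.symm.toAlgHom) tw.top
      rw [IntermediateField.adjoin_map, Set.image_union, Set.image_union, Set.image_iUnion,
        ← Set.range_comp, Set.image_singleton, ← AlgHom.fieldRange_eq_map,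
        AlgHom.fieldRange_eq_top.2 ε.symm.surjective] at this
      simp only [← Set.range_comp] at this
      exact this
    · obtain ⟨R, hR, hd⟩ := (tw.reg _ (hO q)).1 i
      exact ⟨R, hR, fun a ha => reg q _ (hd a ha)⟩
    · rw [← map_inv₀]
      exact ((tw.reg _ (hO q)).2 i).imp (reg q _) (reg q _)
  · obtain ⟨d, Ψ, C, Γ, a⟩ : Aix (Sch.pts 𝒞) := hC ▸ a2
    obtain ⟨RG, c⟩ := gm.sch gm.codim k K J 𝒞 N (hC ▸ ni.1)
    obtain ⟨Ψ', b⟩ := gm.tra _ _ _ _ _ _ _ _ _ _ _ _ _ _ _ _ _ _ Ψ _ Γ c a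
    exact gm.glu k _ N.X N.s Ψ' _ Γ b

theorem P1.imp {T : Set (Subalgebra k M₀)} {φ : M₀} {t : Prop} (h : P1 T φ t) (ht : t) :
    P1 T φ True :=
  let ⟨a, b, c, d, L, e1, e2, e3, e4, e5⟩ := h; ⟨a, b, c, d, L, e1, e2, e3, e4, fun _ => e5 ht⟩

/-- At least two surfaces. -/
theorem SM.top2 [CharZero k] (s : SM) {T : Fin (a + 2) → Set (Subalgebra k M)}
    {D₁ D₂ : Fin (a + 2) → Derivation k M M} {φ : Fin (a + 2) → M} {l : Fin r → k}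
    (hT : RS.Tower (T 0)) (h1 : RS.BiAnti (T 0) (D₁ 0) (D₂ 0) (φ 0))
    (h2 : RS.SmoothZero (T 0) (D₁ 0) (D₂ 0) (φ 0))
    (h : ∀ i : Fin (a + 1), P1 (T i.castSucc) (φ i.castSucc) True)
    (b : Pq (fun _ : Fin 1 => T (Fin.last _)) (fun _ => φ (Fin.last _)) l) : Top T φ l := by
  obtain ⟨_, _, _, _, L, e, -, o, -⟩ := h 0
  replace e : L.Y = T 0 := e
  exact s.top (h 0) (s.pq l a _ _ (fun i => h i.succ) b)
    (emods.hz mods (emods.ec mods.c.der hT h1 h2 (e ▸ o.nice.toGood) (e ▸ o.tri)))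

theorem SM.pq1 (s : SM) {T : Set (Subalgebra k M₀)} {φ : M₀} (h : P1 T φ True) {l : Fin 1 → k}
    (hl : ∀ i, l i ≠ 0 ∧ l i ≠ 1) : Pq (fun _ : Fin 1 => T) (fun _ => φ) l := by
  obtain ⟨Λ, κ, _, _, L, rfl, rfl, g1, g2, g3⟩ := h
  obtain ⟨K, _, _, ι, ζ, w, x⟩ := mods.c.all g1 (Or.inl rfl) (hl 0).1 (hl 0).2
  exact ⟨K, _, _, _, _, _, inferInstance, inferInstance, CH.nx L ι (l 0) ζ w 1, _, _,
    mods.c.next x, s.ps k M₀ K Λ κ 0 L ι _ ζ w 1 x (g3 trivial) g2, tg_base g1.ind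
      (((mods.c.tw k M₀ _ _).2 M₀ K 0 l _ _ _ _ _ ι ζ w 1 ((mods.c.tw k M₀ _ _).1 _) x.ext
        x.loc.maps x.loc.zm).2 rfl)⟩

theorem SM.top1 (s : SM) {T : Fin 1 → Set (Subalgebra k M₀)} {φ : Fin 1 → M₀}
    (h : P1 (T 0) (φ 0) True) {l : Fin 1 → k} (hl : ∀ i, l i ≠ 0 ∧ l i ≠ 1) : Top T φ l := by
  obtain ⟨Λ, κ, _, _, L, e1, e2, g1, g2, g3⟩ := h
  obtain ⟨K, _, _, ι, ζ, w, x⟩ := mods.c.all g1 (Or.inr rfl) (hl 0).1 (hl 0).2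
  obtain ⟨j, j0, hj⟩ := (mods.c.nxb mods.c.der k M₀ K Λ κ 0 L ι _ ζ w 2 x
    (mods.c.vol mods.c.der mods.c.crd k M₀ K Λ κ 0 L ι _ ζ w 2 x)).2 rfl
  have t := ((mods.c.tw k M₀ _ _).2 M₀ K 0 l _ _ _ _ _ ι ζ w 2 ((mods.c.tw k M₀ _ _).1 _) x.ext
    x.loc.maps x.loc.zm).1
  rw [← pow_one (ι L.φ), ← x.ext.eq] at t
  exact ⟨K, _, _, _, _, inferInstance, inferInstance, _, CH.nx L ι (l 0) ζ w 2, j, w, _, _,
    x.loc.fam, mods.c.sm x, x.fld.ind _ _ g1.ind, x.fld.sep _ _ g1.top, j0, hj,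
    tg_base g1.ind (e1 ▸ e2 ▸ t), s.ps k M₀ K Λ κ 0 L ι _ ζ w 2 x (g3 trivial) g2⟩

theorem SM.fin [CharZero k] (s : SM) {T : Fin a → Set (Subalgebra k M)}
    {D₁ D₂ : Fin a → Derivation k M M} {φ φ' : Fin a → M} {l : Fin r → k}
    (hT : ∀ i, RS.Tower (T i)) (h1 : ∀ i, RS.BiAnti (T i) (D₁ i) (D₂ i) (φ i))
    (h2 : ∀ i, RS.SmoothZero (T i) (D₁ i) (D₂ i) (φ i))
    (h3 : ∀ i, RS.BiAnti (T i) (D₁ i) (D₂ i) (φ' i)) (h4 : ∀ i (c : k), φ' i ≠ c • φ i)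
    (h5 : ∀ i : Fin a, i.1 + 1 < a + r → TwoComp (T i) (D₁ i) (D₂ i) (φ i)) (hr : r ≤ 1)
    (ha : 2 ≤ a + r) (hl : ∀ i, l i ≠ 0 ∧ l i ≠ 1) : Top T φ l := by
  have p := fun i => s.p1 (hT i) (h1 i) (h2 i) (h3 i) (h4 i)
  have q := fun i h => (p i).imp (h5 i h)
  obtain _ | _ | a := a
  · omega
  · obtain rfl : r = 1 := by omega
    exact s.top1 (q 0 (by simp)) hl
  refine s.top2 (hT 0) (h1 0) (h2 0) (fun i => q _ (by have := i.2; simp; omega)) ?_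
  obtain _ | _ | r := r
  · exact (p _).pq l
  · exact s.pq1 (q _ (by simp)) hl
  · omega

end Pool.Agent.MP_20d318_ag.AM

end

section

set_option autoImplicit false

namespace Pool.Agent.MP_20d318_ag.AM

theorem mm : MM :=
  ⟨sol_stmt, ext_stmt, int_stmt, ray_stmt, loo_stmt, ref_stmt, upd_stmt, psi_stmt, deg_stmt,
    hyp_stmt, sig_stmt, efc_stmt, amp_stmt, fiba_stmt, alg_stmt, lza_stmt, lzb_stmt, opn_stmt,
    nef_stmt, det_stmt, trn_stmt, chm_stmt, en_stmt⟩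

theorem sm : SM :=
  ⟨mm, ⟨brat_stmt, bge_stmt, ctr_stmt, big_stmt, cla_stmt, chn_stmt, stb_stmt, efb_stmt, rsa_stmt,
      sea_stmt, sem_stmt, sqz_stmt, fgb_stmt, bse_stmt, cpt_stmt, sol_stmt⟩,
    ⟨pel_stmt, rcb_stmt, rcs_stmt, psa_stmt, mor_stmt, cor_stmt, ptd_stmt, clo_stmt, cvd_stmt,
      aix_stmt⟩,
    fun _ _ _ _ _ _ _ _ _ _ _ _ _ _ _ _ _ _ _ _ _ h => PS.pstep KK.mods.c mm MVg.gm.bas h,
    gen_stmt, spl_stmt, ten_stmt, ord_stmt, one_stmt, stp_stmt, nls_stmt, mds_stmt⟩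

end Pool.Agent.MP_20d318_ag.AM

end
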