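import Pool.Agent.MP_20d318_ag.Lat.Loo

/-! Rational polyhedral cones: statements. -/

set_option autoImplicit false

namespace Pool.Agent.MP_20d318_ag.AM

open Pool.Agent.MP_20d318_ag.Lat

universe u

/-- A lattice: integral forms separate the points. -/
structure Lt {N : Type u} [AddCommGroup N] [Module ℝ N] (L : AddSubgroup N) : Prop where
  fd : FiniteDimensional ℝ N
  sep : ∃ Cv : Set (N →ₗ[ℝ] ℝ), (∀ c ∈ Cv, Intg L c) ∧ ∀ x, (∀ c ∈ Cv, c x = 0) → x = 0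

/-- SOL: lattice points of a cone over lattice points. -/
def SolStmt : Prop := ∀ (N : Type u) [AddCommGroup N] [Module ℝ N] (L : AddSubgroup N), Lt L →
  ∀ R ⊆ (L : Set N), ∀ x ∈ L, x ∈ cone R → ∃ m : ℕ, 0 < m ∧ m • x ∈ AddSubmonoid.closure R

/-- EXT: additive maps on a lattice extend to linear maps. -/
def ExtStmt : Prop := SolStmt.{u} → ∀ (N W : Type u) [AddCommGroup N] [Module ℝ N] [AddCommGroup W]
  [Module ℝ W] (L : AddSubgroup N), Lt L → ∀ F : L →+ W, ∃ Ψ : N →ₗ[ℝ] W, ∀ x : L, Ψ x = F x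

/-- INT: finite intersections. -/
def IntStmt : Prop := ∀ (N : Type u) [AddCommGroup N] [Module ℝ N] (L : AddSubgroup N), Lt L →
  ∀ S, RP L S → ∀ 𝒰 : Set (Set N), 𝒰.Finite → (∀ T ∈ 𝒰, RP L T) → RP L (S ∩ ⋂₀ 𝒰)

/-- RAY: finitely generated cones are closed along rays. -/
def RayStmt : Prop := ∀ (N : Type u) [AddCommGroup N] [Module ℝ N] (R : Finset N) (x a : N),
  (∀ δ : ℝ, 0 < δ → ∃ ε : ℝ, 0 < ε ∧ ε ≤ δ ∧ x + ε • a ∈ cone (R : Set N)) → x ∈ cone (R : Set N)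

/-- LOO: it is enough to cover the points `x + ε a`. -/
def LooStmt : Prop := RayStmt.{u} → ∀ (N : Type u) [AddCommGroup N] [Module ℝ N]
  [FiniteDimensional ℝ N] (L : AddSubgroup N) (C : Set N) (G : Subgroup (N ≃ₗ[ℝ] N))
  (Cv : Set (N →ₗ[ℝ] ℝ)), IsCone C → (∀ c ∈ Cv, Intg L c) → (∀ c ∈ Cv, ∀ x ∈ C, 0 ≤ c x) →
  (∀ x, (∀ c ∈ Cv, c x = 0) → x = 0) → (∀ g ∈ G, ∀ x ∈ L, g x ∈ L) → (∀ g ∈ G, ∀ x ∈ C, g x ∈ C) →
  Submodule.span ℝ C = ⊤ → ∀ P, RP L P → P ⊆ C →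
  (∀ x ∈ C, ∃ (a : N) (Q : Set N), RP L Q ∧ Q ⊆ C ∧ x ∈ Q ∧ a ∈ Q ∧
    ∀ ε : ℝ, 0 < ε → ∃ g ∈ G, g (x + ε • a) ∈ P) → Concl L C G

variable {N : Type u} [AddCommGroup N] [Module ℝ N] {L : AddSubgroup N}

theorem exists_fin {R : Set N} {x : N} (h : x ∈ cone R) :
    ∃ Q : Finset N, (Q : Set N) ⊆ R ∧ x ∈ cone (Q : Set N) :=
  Submodule.mem_span_finite_of_mem_span h

theorem mem_cone_fin {R : Finset N} {x : N} :
    x ∈ cone (R : Set N) ↔ ∃ c : N → ℝ, (∀ r, 0 ≤ c r) ∧ x = ∑ r ∈ R, c r • r := by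
  refine ⟨fun h => ?_, ?_⟩
  · obtain ⟨c, -, rfl⟩ := Submodule.mem_span_finset.1 h
    exact ⟨fun r => c r, fun r => (c r).2, rfl⟩
  · rintro ⟨c, h, rfl⟩
    exact (isCone_cone _).sum_mem _ _ fun r hr =>
      (isCone_cone _).smul _ (h r) _ (subset_cone _ hr)

theorem IsCone.nsmul {S : Set N} (h : IsCone S) (n : ℕ) {x : N} (hx : x ∈ S) : n • x ∈ S := by
  rw [← Nat.cast_smul_eq_nsmul ℝ]
  exact h.smul _ n.cast_nonneg _ hx

theorem IsCone.of_nsmul {S : Set N} (h : IsCone S) {n : ℕ} (hn : 0 < n) {x : N} (hx : n • x ∈ S) :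
    x ∈ S := by
  have := h.smul (n : ℝ)⁻¹ (by positivity) _ hx
  rwa [← Nat.cast_smul_eq_nsmul ℝ, inv_smul_smul₀ (by positivity)] at this

theorem closure_sub {R : Set N} {x : N} (h : x ∈ AddSubmonoid.closure R) : x ∈ cone R := by
  induction h using AddSubmonoid.closure_induction with
  | mem x hx => exact subset_cone _ hx
  | zero => exact (isCone_cone _).zero
  | add x y _ _ a b => exact (isCone_cone _).add _ a _ b

theorem rp_cone {S : Set N} (h : RP L S) : IsCone S := by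
  obtain ⟨R, -, rfl⟩ := h
  exact isCone_cone _

theorem rp_fin {R : Set N} (h : R.Finite) (hL : R ⊆ L) : RP L (cone R) :=
  ⟨h.toFinset, by rwa [h.coe_toFinset], by rw [h.coe_toFinset]⟩

theorem IntStmt.two (h : IntStmt.{u}) (l : Lt L) {S T : Set N} (a : RP L S) (b : RP L T) :
    RP L (S ∩ T) := by
  simpa using h N L l S a {T} (Set.finite_singleton T) (by simpa using b)

end Pool.Agent.MP_20d318_ag.AM
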