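import Pool.Agent.MP_20d318_ag.AM.PSpec
import Pool.Agent.MP_20d318_ag.CH.RowsY

/-! The degree of a polynomial section. -/

set_option autoImplicit false
set_option linter.unusedSectionVars false

namespace Pool.Agent.MP_20d318_ag.AM.PS

open Pool.Agent.MP_fd6584_ag.Fn Pool.Agent.CBk Polynomial
open Pool.Agent.MP_fd6584_ag.AG hiding deg_inv deg_congr deg_of_unit deg_mul deg_prod deg_zpow
  deg_eq_zero deg_nonneg deg_div deg_pow
open Pool.Agent.MVg (Sc Fac Two BasStmt GaussStmt ex)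
open Pool.Agent.MP_20d318_ag.CH

theorem deg_stmt : DegStmt := by
  intro k M K Λ κ n _ _ _ _ _ _ _ _ _ L ι l ζ w e h g t a hg G h0 hs
  obtain ⟨V, hV, hT, hm⟩ := PolR.exists_val h.ext.tr.inv (irreducible_X (R := M))
  obtain ⟨O, hO, d, hR⟩ := h.below h.ok.nice.toFine.top hV hT
  have hx : ζ⁻¹ ∈ mx V := by simpa using (hm X).2.2 dvd_rfl
  have z0 : ζ ≠ 0 := by simpa using h.ext.tr.ne 0
  have hU : ∀ m, m ≠ 0 → IsU O (ι m) := fun m hm =>
    h.loc.maps.isU_up hO (by rw [hR]; exact isU_top.2 hm)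
  have hz : ζ ∉ O := fun hz => by
    have := mx_mul_left (d.1 hz) hx
    rw [mul_inv_cancel₀ z0] at this
    exact one_not_mem_mx this
  have u0 : IsU O (∏ i, ∏ j, EE L ι l ζ i j O ^ (-a i j)) :=
    isU_prod fun i _ => isU_prod fun j _ =>
      (h.div.eu O hO i j (Or.inl (hU _ ((h.ok.cs i).ne (h.loc.maps.mem hO))))).zpow _
  have a1 := u0.div_mem (hs O hO)
  rw [lb, ← mul_assoc, mul_div_cancel_right₀ _ u0.1, CBk.eta, if_neg hz, mul_left_comm] at a1
  have hl : IsU O (up ι L.Y g O) := hU _ (hg.ne (h.loc.maps.mem hO))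
  have a2 := d.1 (hl.div_mem a1)
  rw [mul_div_cancel_left₀ _ hl.1] at a2
  let _ := invertibleOfNonzero z0
  have r := eval₂_reverse_mul_pow (ι : M →+* K) ζ G
  rw [invOf_eq_inv] at r
  have u : IsU V (G.reverse.eval₂ (ι : M →+* K) ζ⁻¹) :=
    (isU_or_mx (hm G.reverse).1).resolve_right fun q => by
      have := (hm G.reverse).2.1 q
      rw [X_dvd_iff, coeff_zero_reverse] at this
      exact h0 (leadingCoeff_eq_zero.1 this)
  have b := u.div_mem a2
  rw [← r, mul_assoc, mul_div_cancel_left₀ _ u.1, ← zpow_natCast, ← zpow_add₀ z0] at b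
  by_contra hn
  obtain ⟨m, hm'⟩ := Int.eq_ofNat_of_zero_le (show 0 ≤ (G.natDegree : ℤ) + -t by omega)
  rw [hm', zpow_natCast] at b
  have c := mx_mul_left b (mx_pow hx (n := m) (by omega))
  rw [← mul_pow, mul_inv_cancel₀ z0, one_pow] at c
  exact one_not_mem_mx c

end Pool.Agent.MP_20d318_ag.AM.PS
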