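import Pool.Agent.MP_20d318_ag.AM.SSpec

/-! The invariants pass to the next level. -/

set_option autoImplicit false
set_option linter.unusedSectionVars false

namespace Pool.Agent.MP_20d318_ag.AM

open Pool.Agent.MP_fd6584_ag.Fn Pool.Agent.CBk
open Pool.Agent.MP_fd6584_ag.AG hiding deg_inv deg_congr deg_of_unit deg_mul deg_prod deg_zpow
  deg_eq_zero deg_nonneg deg_div deg_pow
open Pool.Agent.MP_20d318_ag.CH (Lv Lf sX cl Nd n1_ext IZ)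
open Pool.Agent.MP_20d318_ag.KK
open Pool.Agent.MP_20d318_ag.Lat (cone IsCone RP isCone_cone subset_cone)

namespace MdsA

universe u v

variable {V V' V'' : Type u} {𝒞 𝒞' 𝒞'' : Type v} {κ κ' : Type} [AddCommGroup V] [Module ℝ V]
  [AddCommGroup V'] [Module ℝ V'] [AddCommGroup V''] [Module ℝ V''] [Fintype κ] [Fintype κ']
  {N : Nd V 𝒞 κ} {N' : Nd V' 𝒞' κ'} {N'' : Nd V'' 𝒞'' (κ ⊕ κ')} {Φ : WP V V' κ κ' →ₗ[ℝ] V''}

theorem cW {S : Set V} {S' : Set V'} (h : IsCone S) (h' : IsCone S') :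
    IsCone {D : WP V V' κ κ' | D.1 ∈ S ∧ D.2.1 ∈ S'} :=
  ⟨⟨h.zero, h'.zero⟩, fun _ a _ b => ⟨h.add _ a.1 _ b.1, h'.add _ a.2 _ b.2⟩,
    fun c hc _ a => ⟨h.smul c hc _ a.1, h'.smul c hc _ a.2⟩⟩

theorem pm {S : Set V} (h : IsCone S) {x : V} (a : x ∈ S) (b : -x ∈ S) (c : ℝ) : c • x ∈ S := by
  rcases le_total 0 c with q | q
  · exact h.smul c q _ a
  · simpa using h.smul (-c) (neg_nonneg.2 q) _ b

theorem nz (R : Set V) : -0 ∈ cone R := neg_zero (G := V) |>.symm ▸ (isCone_cone R).zero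

theorem fs (i : Function.Injective Φ) (d : StDiv N N' N'' Φ) (c : StCls N N' N'' Φ)
    (e : IsCone N.Ef) (e' : IsCone N'.Ef) {R : Set V''} (f : R.Finite) (l : R ⊆ N''.Λ)
    (p : R ⊆ N''.Ef) : ∃ (A : Set V) (B : Set V'), (A.Finite ∧ A ⊆ N.Λ ∧ A ⊆ N.Ef) ∧
      (B.Finite ∧ B ⊆ N'.Λ ∧ B ⊆ N'.Ef) ∧
      cone (R ∪ (Set.range N''.c ∪ Set.range fun i => -N''.c i)) ⊆
        Φ '' {D | D.1 ∈ cone (A ∪ (Set.range N.c ∪ Set.range fun i => -N.c i)) ∧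
          D.2.1 ∈ cone (B ∪ (Set.range N'.c ∪ Set.range fun i => -N'.c i))} := by
  have key : ∀ r : R, ∃ D ∈ LW N N', D.1 ∈ N.Ef ∧ D.2.1 ∈ N'.Ef ∧
      ∃ n : ℕ, 0 < n ∧ n • r.1 = Φ D := fun r => by
    obtain ⟨n, n0, D, hD, q⟩ := c.cls r (l r.2)
    obtain ⟨E, q', a, b⟩ := c.dn r (p r.2)
    obtain rfl : (n : ℝ) • E = D := i (by rw [map_smul, q', q])
    exact ⟨_, hD, e.smul _ n.cast_nonneg _ a, e'.smul _ n.cast_nonneg _ b, n, n0,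
      (Nat.cast_smul_eq_nsmul ℝ n r.1).symm.trans q⟩
  choose D h1 h2 h3 n h4 h5 using key
  have := f.to_subtype
  refine ⟨Set.range fun r => (D r).1, Set.range fun r => (D r).2.1, ⟨Set.finite_range _,
    Set.range_subset_iff.2 fun r => (h1 r).1, Set.range_subset_iff.2 h2⟩, ⟨Set.finite_range _,
    Set.range_subset_iff.2 fun r => (h1 r).2.1, Set.range_subset_iff.2 h3⟩, ?_⟩
  have w := (cW (κ := κ) (κ' := κ') (isCone_cone
    ((Set.range fun r => (D r).1) ∪ (Set.range N.c ∪ Set.range fun i => -N.c i))) (isCone_cone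
    ((Set.range fun r => (D r).2.1) ∪ (Set.range N'.c ∪ Set.range fun i => -N'.c i)))).image Φ
  refine w.cone_subset ?_
  rintro x (q | ⟨j, rfl⟩ | ⟨j, rfl⟩)
  · exact IsCone.of_nsmul w (h4 ⟨x, q⟩) ⟨_, ⟨subset_cone _ (Or.inl ⟨⟨x, q⟩, rfl⟩),
      subset_cone _ (Or.inl ⟨⟨x, q⟩, rfl⟩)⟩, (h5 ⟨x, q⟩).symm⟩
  · refine ⟨_, ?_, (d.cc j).symm⟩
    rcases j with j | j
    · exact ⟨subset_cone _ (Or.inr (Or.inl ⟨j, rfl⟩)), (isCone_cone _).zero⟩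
    · exact ⟨(isCone_cone _).zero, subset_cone _ (Or.inr (Or.inl ⟨j, rfl⟩))⟩
  · refine ⟨-stW N N' j, ?_, by rw [map_neg, ← d.cc]⟩
    rcases j with j | j
    · exact ⟨subset_cone _ (Or.inr (Or.inr ⟨j, rfl⟩)), nz _⟩
    · exact ⟨nz _, subset_cone _ (Or.inr (Or.inr ⟨j, rfl⟩))⟩

theorem rp (d : StDiv N N' N'' Φ) {R : Set V} {R' : Set V'} (f : R.Finite) (f' : R'.Finite)
    (l : R ⊆ N.Λ) (l' : R' ⊆ N'.Λ) :
    RP N''.Λ (Φ '' {D | D.1 ∈ cone R ∧ D.2.1 ∈ cone R'}) := by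
  classical
  let a : V →ₗ[ℝ] WP V V' κ κ' := LinearMap.inl ℝ _ _
  let b : V' →ₗ[ℝ] WP V V' κ κ' := (LinearMap.inr ℝ _ _).comp (LinearMap.inl ℝ _ _)
  let x : κ × κ' → WP V V' κ κ' := fun p => exW p.1 p.2
  have hx : ∀ p, x p ∈ LW N N' := fun p =>
    ⟨zero_mem _, zero_mem _, fun _ _ => IZ.ite IZ.one.neg IZ.zero⟩
  have e : cone ((a '' R ∪ b '' R') ∪ (Set.range x ∪ Set.range fun p => -x p)) =
      {D | D.1 ∈ cone R ∧ D.2.1 ∈ cone R'} := by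
    refine ((cW (isCone_cone R) (isCone_cone R')).cone_subset ?_).antisymm fun D h => ?_
    · rintro _ ((⟨y, q, rfl⟩ | ⟨y, q, rfl⟩) | ⟨p, rfl⟩ | ⟨p, rfl⟩)
      · exact ⟨subset_cone _ q, (isCone_cone _).zero⟩
      · exact ⟨(isCone_cone _).zero, subset_cone _ q⟩
      · exact ⟨(isCone_cone _).zero, (isCone_cone _).zero⟩
      · exact ⟨nz _, nz _⟩
    · have : D = a D.1 + b D.2.1 + ∑ p, (-D.2.2 p.1 p.2) • x p := by
        refine Prod.ext ?_ (Prod.ext ?_ (funext₂ fun i j => ?_))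
        · simp [a, b, x, exW, Prod.fst_sum]
        · simp [a, b, x, exW, Prod.fst_sum, Prod.snd_sum]
        · simp [a, b, x, exW, Prod.snd_sum, Finset.sum_apply, Fintype.sum_prod_type, ite_and]
      rw [this]
      refine (isCone_cone _).add _ ((isCone_cone _).add _ ?_ _ ?_) _
        ((isCone_cone _).sum_mem _ _ fun p _ => pm (isCone_cone _) ?_ ?_ _)
      · exact ((isCone_cone _).preimage a).cone_subset
          (fun y q => subset_cone _ (Or.inl (Or.inl ⟨y, q, rfl⟩))) h.1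
      · exact ((isCone_cone _).preimage b).cone_subset
          (fun y q => subset_cone _ (Or.inl (Or.inr ⟨y, q, rfl⟩))) h.2
      · exact subset_cone _ (Or.inr (Or.inl ⟨p, rfl⟩))
      · exact subset_cone _ (Or.inr (Or.inr ⟨p, rfl⟩))
  rw [← e, ← cone_image]
  refine rp_fin ((((f.image _).union (f'.image _)).union
    ((Set.finite_range _).union (Set.finite_range _))).image _) ?_
  rintro _ ⟨_, (⟨y, q, rfl⟩ | ⟨y, q, rfl⟩) | ⟨p, rfl⟩ | ⟨p, rfl⟩, rfl⟩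
  · exact d.lat _ ⟨l q, zero_mem _, fun _ _ => IZ.zero⟩
  · exact d.lat _ ⟨zero_mem _, l' q, fun _ _ => IZ.zero⟩
  · exact d.lat _ (hx p)
  · exact d.lat _ (neg_mem (hx p))

end MdsA

theorem mds_stmt : MdsStmt := by
  intro hI hE k M M' K Λ Λ' κ κ' n n' _ _ _ _ _ _ _ _ _ _ _ L L' ι ι' v e h i d c l s r m m'
  refine ⟨r.nl, fun R f a b => ?_, ?_⟩
  · obtain ⟨A, B, ⟨a1, a2, a3⟩, ⟨b1, b2, b3⟩, q⟩ :=
      MdsA.fs i d c (isCone_cone _) (isCone_cone _) f a b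
    exact (s A B (m.fs A a1 a2 a3) (m'.fs B b1 b2 b3)).mono q
  obtain ⟨A, a1, a2, a3, a4⟩ := m.ce
  obtain ⟨B, b1, b2, b3, b4⟩ := m'.ce
  obtain ⟨_, ⟨T, t1, rfl⟩, t2, t3⟩ := hE hI k K _ r _ (MdsA.rp d a1 b1 a2 b2)
    ((s A B (m.fs A a1 a2 a3) (m'.fs B b1 b2 b3)).mono (Set.image_mono fun D q =>
      ⟨Lat.cone_mono Set.subset_union_left q.1, Lat.cone_mono Set.subset_union_left q.2⟩))
  refine ⟨_, T.finite_toSet, t1, (subset_cone _).trans t2, fun x hx => ?_⟩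
  obtain ⟨D, rfl, p, p'⟩ := c.dn x hx
  obtain ⟨g, g1, g2⟩ := a4 _ p
  obtain ⟨g', g3, g4⟩ := b4 _ p'
  obtain ⟨γ, q1, q2⟩ := l g g1 g' g3
  refine ⟨γ, q1, t3 ⟨?_, _, ?_, (q2 D).symm⟩⟩
  · obtain ⟨u, -, -, rfl⟩ := q1
    exact Glue.gEf u hx
  · exact ⟨g2, g4⟩

end Pool.Agent.MP_20d318_ag.AM
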