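import Pool.Agent.MP_20d318_ag.AM.PSpec
import Pool.Agent.MP_20d318_ag.AM.RMds

/-! The invariants pass to the blow-up of the product with a line and to its double cover. -/

set_option autoImplicit false
set_option linter.unusedSectionVars false

namespace Pool.Agent.MP_20d318_ag.AM.PS

open Pool.Agent.MP_fd6584_ag.Fn Pool.Agent.CBk
open Pool.Agent.MP_fd6584_ag.AG hiding deg_inv deg_congr deg_of_unit deg_mul deg_prod deg_zpow
  deg_eq_zero deg_nonneg deg_div deg_pow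
open Pool.Agent.MP_20d318_ag.CH
open Pool.Agent.MP_20d318_ag.Lat (cone IsCone RP isCone_cone subset_cone)

namespace PMdsA

open MdsA (pm nz)

universe u v u' v'

variable {V : Type u} {𝒞 : Type v} {V' : Type u'} {𝒞' : Type v'} {κ : Type} [AddCommGroup V]
  [Module ℝ V] [AddCommGroup V'] [Module ℝ V'] [Fintype κ] {N : Nd V 𝒞 κ}
  {N' : Nd V' 𝒞' (κ ⊕ Fin 4)} {Φ : WW V κ →ₗ[ℝ] V'}

theorem cW {S : Set V} (h : IsCone S) : IsCone {D : WW V κ | D.1 ∈ S} :=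
  ⟨h.zero, fun _ a _ b => h.add _ a _ b, fun c hc _ a => h.smul c hc _ a⟩

theorem fs (i : Function.Injective Φ) (d : StDiv N N' Φ)
    (c : ∀ x ∈ N'.Λ, ∃ n : ℕ, 0 < n ∧ ∃ D ∈ N.LW, (n : ℝ) • x = Φ D)
    (c' : ∀ x ∈ N'.Ef, ∃ D, Φ D = x ∧ D.1 ∈ N.Ef) (e : IsCone N.Ef) {R : Set V'} (f : R.Finite)
    (l : R ⊆ N'.Λ) (p : R ⊆ N'.Ef) : ∃ A : Set V, (A.Finite ∧ A ⊆ N.Λ ∧ A ⊆ N.Ef) ∧
      cone (R ∪ (Set.range N'.c ∪ Set.range fun i => -N'.c i)) ⊆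
        Φ '' {D | D.1 ∈ cone (A ∪ (Set.range N.c ∪ Set.range fun i => -N.c i))} := by
  have key : ∀ r : R, ∃ D ∈ N.LW, D.1 ∈ N.Ef ∧ ∃ n : ℕ, 0 < n ∧ n • r.1 = Φ D := fun r => by
    obtain ⟨n, n0, D, hD, q⟩ := c r (l r.2)
    obtain ⟨E, q', a⟩ := c' r (p r.2)
    obtain rfl : (n : ℝ) • E = D := i (by rw [map_smul, q', q])
    exact ⟨_, hD, e.smul _ n.cast_nonneg _ a, n, n0,
      (Nat.cast_smul_eq_nsmul ℝ n r.1).symm.trans q⟩
  choose D h1 h2 n h4 h5 using key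
  have := f.to_subtype
  refine ⟨Set.range fun r => (D r).1, ⟨Set.finite_range _,
    Set.range_subset_iff.2 fun r => (h1 r).1, Set.range_subset_iff.2 h2⟩, ?_⟩
  have w := (cW (κ := κ) (isCone_cone
    ((Set.range fun r => (D r).1) ∪ (Set.range N.c ∪ Set.range fun i => -N.c i)))).image Φ
  refine w.cone_subset ?_
  rintro x (q | ⟨j | j, rfl⟩ | ⟨j | j, rfl⟩)
  · exact IsCone.of_nsmul w (h4 ⟨x, q⟩)
      ⟨_, subset_cone _ (Or.inl ⟨⟨x, q⟩, rfl⟩), (h5 ⟨x, q⟩).symm⟩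
  · exact ⟨_, subset_cone _ (Or.inr (Or.inl ⟨j, rfl⟩)), (d.cC j).symm⟩
  · exact ⟨_, (isCone_cone _).zero, (d.cT j).symm⟩
  · exact ⟨-N.rowW j, subset_cone _ (Or.inr (Or.inr ⟨j, rfl⟩)), by rw [map_neg, ← d.cC]⟩
  · exact ⟨-colW j, nz _, by rw [map_neg, ← d.cT]⟩

theorem rp (d : StDiv N N' Φ) {R : Set V} (f : R.Finite) (l : R ⊆ N.Λ) :
    RP N'.Λ (Φ '' {D | D.1 ∈ cone R}) := by
  classical
  let a : V →ₗ[ℝ] WW V κ := LinearMap.inl ℝ _ _
  let x : Option (κ × Fin 4) → WW V κ := fun p => p.elim (0, 1, 0) fun p => excW p.1 p.2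
  have hx : ∀ p, x p ∈ N.LW := by
    rintro (_ | p)
    · exact ⟨zero_mem _, IZ.one, fun _ _ => IZ.zero⟩
    · exact ⟨zero_mem _, IZ.zero, fun _ _ => IZ.ite IZ.one.neg IZ.zero⟩
  have h0 : ∀ p, (x p).1 = 0 := by rintro (_ | p) <;> rfl
  have e : cone (a '' R ∪ (Set.range x ∪ Set.range fun p => -x p)) = {D | D.1 ∈ cone R} := by
    refine ((cW (isCone_cone R)).cone_subset ?_).antisymm fun D h => ?_
    · rintro _ (⟨y, q, rfl⟩ | ⟨p, rfl⟩ | ⟨p, rfl⟩)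
      · exact subset_cone _ q
      · change (x p).1 ∈ cone R
        exact (h0 p).symm ▸ (isCone_cone R).zero
      · change -(x p).1 ∈ cone R
        exact (h0 p).symm ▸ nz R
    · have : D = a D.1 + D.2.1 • x none + ∑ p : κ × Fin 4, (-D.2.2 p.1 p.2) • x (some p) := by
        refine Prod.ext ?_ (Prod.ext ?_ (funext₂ fun i j => ?_))
        · simp [a, x, excW, Prod.fst_sum]
        · simp [a, x, excW, Prod.fst_sum, Prod.snd_sum]
        · simp [a, x, excW, Prod.snd_sum, Finset.sum_apply, Fintype.sum_prod_type, ite_and]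
      have k : ∀ (p : Option (κ × Fin 4)) (c : ℝ),
          c • x p ∈ cone (a '' R ∪ (Set.range x ∪ Set.range fun p => -x p)) := fun p c => by
        refine pm (isCone_cone _) ?_ ?_ c
        · exact subset_cone _ (Or.inr (Or.inl ⟨p, rfl⟩))
        · exact subset_cone _ (Or.inr (Or.inr ⟨p, rfl⟩))
      rw [this]
      exact (isCone_cone _).add _ ((isCone_cone _).add _ (((isCone_cone _).preimage a).cone_subset
        (fun y q => subset_cone _ (Or.inl ⟨y, q, rfl⟩)) h) _ (k _ _)) _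
        ((isCone_cone _).sum_mem _ _ fun p _ => k _ _)
  rw [← e, ← cone_map]
  refine rp_fin (((f.image _).union
    ((Set.finite_range _).union (Set.finite_range _))).image _) ?_
  rintro _ ⟨_, ⟨y, q, rfl⟩ | ⟨p, rfl⟩ | ⟨p, rfl⟩, rfl⟩
  · exact d.lat _ ⟨l q, IZ.zero, fun _ _ => IZ.zero⟩
  · exact d.lat _ (hx p)
  · exact d.lat _ (neg_mem (hx p))

end PMdsA

theorem mds_stmt : MdsStmt := by
  intro hI hE k M K Λ κ n _ _ _ _ _ _ _ _ _ L ι l ζ w e h i d c c' u s r m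
  refine ⟨r.nl, fun R f a b => ?_, ?_⟩
  · obtain ⟨A, ⟨a1, a2, a3⟩, q⟩ := PMdsA.fs i d c c' (isCone_cone _) f a b
    exact (s A (m.fs A a1 a2 a3)).mono q
  obtain ⟨A, a1, a2, a3, a4⟩ := m.ce
  obtain ⟨_, ⟨T, t1, rfl⟩, t2, t3⟩ := hE hI k K _ r _ (PMdsA.rp d a1 a2)
    ((s A (m.fs A a1 a2 a3)).mono (Set.image_mono fun D q =>
      Lat.cone_mono Set.subset_union_left q))
  refine ⟨_, T.finite_toSet, t1, (subset_cone _).trans t2, fun x hx => ?_⟩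
  obtain ⟨D, rfl, p⟩ := c' x hx
  obtain ⟨g, g1, g2⟩ := a4 _ p
  obtain ⟨γ, q1, q2⟩ := u g g1
  refine ⟨γ, q1, t3 ⟨?_, _, ?_, (q2 D).symm⟩⟩
  · obtain ⟨u, -, -, rfl⟩ := q1
    exact Glue.gEf u hx
  · exact g2

end Pool.Agent.MP_20d318_ag.AM.PS
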