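import Pool.Agent.MP_20d318_ag.AM.PSpec

/-! Numerically trivial divisors on the blow-up of the product with a line. -/

set_option autoImplicit false
set_option linter.unusedSectionVars false

namespace Pool.Agent.MP_20d318_ag.AM.PS

open Pool.Agent.MP_fd6584_ag.Fn Pool.Agent.CBk Polynomial
open Pool.Agent.MP_fd6584_ag.AG hiding deg_inv deg_congr deg_of_unit deg_mul deg_prod deg_zpow
  deg_eq_zero deg_nonneg deg_div deg_pow
open Pool.Agent.MP_20d318_ag.CH

theorem nls_stmt : NlsStmt := by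
  intro k M K Λ κ n _ _ _ _ _ _ _ _ _ L ι l ζ w e h inj cls nl f hf f0
  obtain ⟨N, g, t, a, μ, N0, hg, μ0, u⟩ := cls f hf
  have c : cl (XX L ι ζ w e) (lb L ι l ζ g t a) = 0 := by
    rw [cl_lin h.gX (h.div.cartW g t a hg) (hf.pow N) (μ := μ) fun O hO => by
      have := (u O hO).inv
      rwa [inv_div] at this, cl_pow h.gX hf, f0, smul_zero]
  have q := inj ((h.phi_lb hg t a).trans (c.trans (map_zero _).symm))
  obtain ⟨m, lam, m0, v⟩ := nl g hg (congrArg Prod.fst q)
  have t0 : t = 0 := Int.cast_eq_zero.1 (congrArg (fun D : WW _ κ => D.2.1) q)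
  have a0 : ∀ i j, a i j = 0 := fun i j =>
    Int.cast_eq_zero.1 (congrArg (fun D : WW _ κ => D.2.2 i j) q)
  refine ⟨N * m, ι lam / μ ^ m, by positivity, fun O hO => ?_⟩
  have g0 : ι (g (pr ι L.Y O)) ≠ 0 := (map_ne_zero ι).2 (hg.ne (h.loc.maps.mem hO))
  refine Eq.subst (motive := IsU O) ?_ (((u O hO).pow m).mul
    (h.loc.maps.isU_up hO (v _ (h.loc.maps.mem hO))))
  simp only [lb, up, a0, t0, neg_zero, zpow_zero, Finset.prod_const_one, mul_one, map_mul, map_pow,
    mul_pow, div_pow, ← pow_mul]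
  field_simp

end Pool.Agent.MP_20d318_ag.AM.PS
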