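import Pool.Agent.MP_20d318_ag.AM.SSpec

/-! Finite generation on the next level: one term. -/

set_option autoImplicit false
set_option linter.unusedSectionVars false

namespace Pool.Agent.MP_20d318_ag.AM

open Pool.Agent.MP_fd6584_ag.Fn Pool.Agent.CBk
open Pool.Agent.MP_fd6584_ag.AG hiding deg_inv deg_congr deg_of_unit deg_mul deg_prod deg_zpow
  deg_eq_zero deg_nonneg deg_div deg_pow
open Pool.Agent.MVg (Sc Fac Two BasStmt)
open Pool.Agent.MP_20d318_ag.CH (Lv Lf sX cl Nd n1_ext)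
open Pool.Agent.MP_20d318_ag.KK
open Pool.Agent.MP_20d318_ag.Lat (cone IsCone RP isCone_cone subset_cone)

namespace OneA

theorem alg {K κ κ' : Type} [Field K] [Fintype κ] [Fintype κ'] (s : κ → K) (t : κ' → K)
    (E : κ → κ' → K) (hE : ∀ i j, E i j ≠ 0) (x : κ → ℕ) (y : κ' → ℕ) (a : κ → κ' → ℤ)
    (ha : ∀ i j, a i j ≤ x i + y j) :
    (∏ i, (s i / ∏ j, E i j) ^ x i) * (∏ j, (t j / ∏ i, E i j) ^ y j) *
        ∏ i, ∏ j, E i j ^ (x i + y j - a i j).toNat =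
      (∏ i, s i ^ x i) * (∏ j, t j ^ y j) * ∏ i, ∏ j, E i j ^ (-a i j) := by
  have e : ∀ i j, E i j ^ (x i + y j - a i j).toNat =
      E i j ^ x i * E i j ^ y j * E i j ^ (-a i j) := fun i j => by
    rw [← zpow_natCast, Int.toNat_of_nonneg (sub_nonneg.2 (ha i j)), sub_eq_add_neg,
      zpow_add₀ (hE i j), zpow_add₀ (hE i j), zpow_natCast, zpow_natCast]
  have n1 : ∏ i, ∏ j, E i j ^ x i ≠ 0 :=
    Finset.prod_ne_zero_iff.2 fun i _ => Finset.prod_ne_zero_iff.2 fun j _ => pow_ne_zero _ (hE i j)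
  have n2 : ∏ i, ∏ j, E i j ^ y j ≠ 0 :=
    Finset.prod_ne_zero_iff.2 fun i _ => Finset.prod_ne_zero_iff.2 fun j _ => pow_ne_zero _ (hE i j)
  have e1 : ∏ i, (s i / ∏ j, E i j) ^ x i = (∏ i, s i ^ x i) / ∏ i, ∏ j, E i j ^ x i := by
    simp only [div_pow, Finset.prod_div_distrib, Finset.prod_pow]
  have e2 : ∏ j, (t j / ∏ i, E i j) ^ y j = (∏ j, t j ^ y j) / ∏ i, ∏ j, E i j ^ y j := by
    rw [Finset.prod_comm]
    simp only [div_pow, Finset.prod_div_distrib, Finset.prod_pow]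
  rw [e1, e2]
  simp only [e, Finset.prod_mul_distrib]
  field_simp

variable {k M M' K Λ Λ' κ κ' : Type} {n n' : ℕ} [Field k] [IsAlgClosed k] [Field M] [Field M']
  [Field K] [Algebra k M] [Algebra k M'] [Algebra k K] [Fintype κ] [Fintype κ']
  {L : Lv k M Λ κ n} {L' : Lv k M' Λ' κ' n'} {ι : M →ₐ[k] K} {ι' : M' →ₐ[k] K} {v : K} {e : ℕ}
  {Z : Set (Subalgebra k K)}

/-- One factor. -/
theorem half (h : Geo L L' ι ι' v e Z) {J : Type} [Fintype J] {d : J → Subalgebra k M → M}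
    {R : Set (N1 L.Y)} (hd : Fg L.Y d (Sp L R)) {g : Subalgebra k M → M} (hg : IsCart L.Y g)
    (hc : cl L.Y g ∈ Sp L R) {m : M} (hm : m ≠ 0) {x : κ → ℕ}
    (hs : Sc L.Y (g / ∏ i, L.s i ^ x i) m) {V : Subalgebra k K} (hV : IsVal V) :
    ∃ (N : ℕ) (α : J → ℕ) (μ : K), 0 < N ∧ μ ∈ V ∧ ∀ O ∈ Z,
      IsU O ((μ * ∏ j, up ι L.Y (d j) O ^ α j) /
        (ι m * (up ι L.Y g O / ∏ i, sX L ι i O ^ x i)) ^ N) := by
  have c1 : ∀ i, IsCart L.Y (L.s i ^ x i) := fun i => (h.ok.cs i).pow _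
  have c2 : IsCart L.Y (∏ i, L.s i ^ x i) := isCart_prod fun i _ => c1 i
  obtain ⟨N, α, μ, h1, h2, h3⟩ := hd.2 (fun O => m * (g / ∏ i, L.s i ^ x i) O)
    ⟨(isCart_const hm).mul (hg.div c2), hs⟩ (by
      rw [cl_cmul h.gY (hg.div c2) hm, cl_div h.gY hg c2, cl_prod h.gY fun i _ => c1 i]
      simp only [cl_pow h.gY (h.ok.cs _), ← Nat.cast_smul_eq_nsmul ℝ]
      exact sp_sub hc fun i => (x i : ℝ)) (V.comap ι) fun f => by
      simpa only [Subalgebra.mem_comap, map_inv₀] using hV (ι f)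
  refine ⟨N, α, ι μ, h1, h2, fun O hO => ?_⟩
  have := h.maps.isU_up hO (h3 _ (h.maps.mem hO))
  simpa only [map_div₀, map_mul, map_pow, map_prod, Pi.div_apply, Finset.prod_apply, Pi.pow_apply,
    sX, up] using this

theorem edU (h : Geo L L' ι ι' v e Z) {f : Subalgebra k M → M} (hf : Ed L.Y f) :
    Ed Z (up ι L.Y f) :=
  ⟨h.cartU hf.1, fun _ hO => h.maps.mem_up hO (hf.2 _ (h.maps.mem hO))⟩

end OneA

open OneA in
theorem one_stmt : OneStmt := by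
  intro k M M' K Λ Λ' κ κ' n n' _ _ _ _ _ _ _ _ _ _ _ L L' ι ι' v e Z h J J' _ _ d d' R R' hd hd'
  refine ⟨?_, fun g g' a hg hg' hc hc' m m' hm hm' ⟨x, y, t1, t2, t3⟩ V hV => ?_⟩
  · rintro ((j | j) | (i | j) | p)
    · exact edU h (hd.1 j)
    · exact edU h.symm (hd'.1 j)
    · exact ⟨h.cartC i, fun _ hO => (h.rC hO i).1⟩
    · exact ⟨h.symm.cartC j, fun _ hO => (h.symm.rC hO j).1⟩
    · exact ⟨h.cartE p.1 p.2, fun _ hO => h.em hO p.1 p.2⟩
  obtain ⟨N, α, μ, a1, a2, a3⟩ := half h hd hg hc hm t1 hV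
  obtain ⟨N', α', μ', b1, b2, b3⟩ := half h.symm hd' hg' hc' hm' t2 hV
  refine ⟨N * N', Sum.elim (Sum.elim (fun j => α j * N') fun j => α' j * N)
    (Sum.elim (Sum.elim (fun i => x i * (N * N')) fun j => y j * (N * N'))
      fun p => (x p.1 + y p.2 - a p.1 p.2).toNat * (N * N')), μ ^ N' * μ' ^ N, mul_pos a1 b1,
    V.mul_mem (V.pow_mem a2 _) (V.pow_mem b2 _), fun O hO => ?_⟩
  refine Eq.subst (motive := IsU O) ?_ (((a3 O hO).pow N').mul ((b3 O hO).pow N))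
  have hE : ∀ i j, EE L L' ι ι' i j O ≠ 0 := fun i j => (h.cartE i j).ne hO
  have q := alg (fun i => sX L ι i O) (fun j => sX L' ι' j O) (fun i j => EE L L' ι ι' i j O) hE
    x y a t3
  have n1 : ∏ i, sX L ι i O ^ x i ≠ 0 :=
    Finset.prod_ne_zero_iff.2 fun i _ => pow_ne_zero _ (h.sne hO i)
  have n2 : ∏ j, sX L' ι' j O ^ y j ≠ 0 :=
    Finset.prod_ne_zero_iff.2 fun j _ => pow_ne_zero _ (h.symm.sne hO j)
  have n3 : ∏ i, ∏ j, EE L L' ι ι' i j O ^ (-a i j) ≠ 0 :=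
    Finset.prod_ne_zero_iff.2 fun i _ => Finset.prod_ne_zero_iff.2 fun j _ =>
      zpow_ne_zero _ (hE i j)
  have n4 := (h.cartU hg).ne hO
  have n5 := (h.symm.cartU hg').ne hO
  have n6 : ι m ≠ 0 := (map_ne_zero ι).2 hm
  have n7 : ι' m' ≠ 0 := (map_ne_zero ι').2 hm'
  simp only [Fintype.prod_sum_type, Fintype.prod_prod_type, dd, sN, Sum.elim_inl, Sum.elim_inr, sC,
    lb, EE_symm L L' ι ι', pow_mul _ _ (N * N'), pow_mul _ (α _), pow_mul _ (α' _),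
    Finset.prod_pow]
  rw [← mul_pow, ← mul_pow, q]
  generalize ∏ i, sX L ι i O ^ x i = A at n1
  generalize ∏ j, sX L' ι' j O ^ y j = B at n2
  generalize ∏ i, ∏ j, EE L L' ι ι' i j O ^ (-a i j) = C at n3
  simp only [div_pow, mul_pow, ← pow_mul, mul_comm N' N]
  field_simp

end Pool.Agent.MP_20d318_ag.AM
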