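import Pool.Agent.MP_20d318_ag.AM.PSpec
import Pool.Agent.MP_20d318_ag.AM.ROne

/-! Finite generation on the blow-up of the product with a line: one term. -/

set_option autoImplicit false
set_option linter.unusedSectionVars false

namespace Pool.Agent.MP_20d318_ag.AM.PS

open Pool.Agent.MP_fd6584_ag.Fn Pool.Agent.CBk Polynomial
open Pool.Agent.MP_fd6584_ag.AG hiding deg_inv deg_congr deg_of_unit deg_mul deg_prod deg_zpow
  deg_eq_zero deg_nonneg deg_div deg_pow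
open Pool.Agent.MVg (Sc Fac Two BasStmt GaussStmt ex)
open Pool.Agent.MP_20d318_ag.CH
open Pool.Agent.MP_20d318_ag.Lat (cone IsCone RP isCone_cone subset_cone)

namespace OneP

variable {k M K Λ κ : Type} {n : ℕ} [Field k] [IsAlgClosed k] [Field M] [Field K] [Algebra k M]
  [Algebra k K] [Fintype κ] {L : Lv k M Λ κ n} {ι : M →ₐ[k] K} {l : k} {ζ w : K} {e : ℕ}

theorem etn (hz : ζ ≠ 0) (O : Subalgebra k K) : CBk.eta ζ O ≠ 0 := by
  unfold CBk.eta
  split_ifs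
  exacts [one_ne_zero, hz]

/-- A polynomial section of the line is a multiple of a power of one of two sections. -/
theorem lin (l : k) (hz : ζ ≠ 0) {V : Subalgebra k K} (hV : IsVal V) (q : k[X]) :
    ∃ (c : K) (j : Fin 4), c ∈ V ∧ ∀ O : Subalgebra k K,
      aeval ζ q = c * (tau l ζ j O * CBk.eta ζ O) ^ q.natDegree := by
  rcases hV ζ with a | a
  · refine ⟨aeval ζ q, 3, ?_, fun O => ?_⟩
    · rw [aeval_eq_sum_range]
      exact sum_mem fun i _ => V.smul_mem (V.pow_mem a i) _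
    · have : tau l ζ 3 O = 1 / CBk.eta ζ O := rfl
      rw [this, div_mul_cancel₀ _ (etn hz O), one_pow, mul_one]
  · refine ⟨aeval ζ q / ζ ^ q.natDegree, 0, ?_, fun O => ?_⟩
    · rw [aeval_eq_sum_range, Finset.sum_div]
      refine sum_mem fun i hi => ?_
      obtain ⟨j, hj⟩ := Nat.exists_eq_add_of_le (Nat.lt_succ_iff.1 (Finset.mem_range.1 hi))
      rw [smul_div_assoc, hj, pow_add, div_mul_cancel_left₀ (pow_ne_zero _ hz), ← inv_pow]
      exact V.smul_mem (V.pow_mem a j) _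
    · have : tau l ζ 0 O = ζ / CBk.eta ζ O := rfl
      rw [this, div_mul_cancel₀ _ (etn hz O), div_mul_cancel₀ _ (pow_ne_zero _ hz)]

/-- The polynomial factor. -/
theorem pol (l : k) (hz : ζ ≠ 0) {V : Subalgebra k K} (hV : IsVal V) (q : k[X]) (y : Fin 4 → ℕ) :
    ∃ (c : K) (y' : Fin 4 → ℕ), c ∈ V ∧ (∀ j, y j ≤ y' j) ∧ ∀ O : Subalgebra k K,
      aeval ζ (q * (X ^ y 0 * (X - 1) ^ y 1 * (X - C l) ^ y 2)) *
        CBk.eta ζ O ^ (-((q.natDegree + ∑ j, y j : ℕ) : ℤ)) = c * ∏ j, tau l ζ j O ^ y' j := by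
  obtain ⟨c, j, h1, h2⟩ := lin l hz hV q
  refine ⟨c, y + Pi.single j q.natDegree, h1, fun _ => Nat.le_add_right _ _, fun O => ?_⟩
  have a : ∏ i, tau l ζ i O ^ (Pi.single j q.natDegree : Fin 4 → ℕ) i =
      tau l ζ j O ^ q.natDegree := by
    rw [Finset.prod_eq_single j (fun i _ hi => by rw [Pi.single_eq_of_ne hi, pow_zero])
      (fun q => (q (Finset.mem_univ _)).elim), Pi.single_eq_same]
  have b : ∏ i, tau l ζ i O ^ y i = (ζ / CBk.eta ζ O) ^ y 0 * ((ζ - 1) / CBk.eta ζ O) ^ y 1 *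
      ((ζ - algebraMap k K l) / CBk.eta ζ O) ^ y 2 * (1 / CBk.eta ζ O) ^ y 3 :=
    Fin.prod_univ_four _
  have n := etn hz O
  simp only [Pi.add_apply, pow_add, Finset.prod_mul_distrib]
  rw [a, b, map_mul, h2 O, zpow_neg, zpow_natCast, Fin.sum_univ_four]
  simp only [map_mul, map_pow, map_sub, aeval_X, map_one, aeval_C, pow_add, mul_pow, div_pow,
    one_pow]
  field_simp

/-- The factor from the previous level. -/
theorem half (h : All L ι l ζ w e) {J : Type} [Fintype J] {d : J → Subalgebra k M → M}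
    {R : Set (N1 L.Y)} (hd : Fg L.Y d (Sp L R)) {g : Subalgebra k M → M} (hg : IsCart L.Y g)
    (hc : cl L.Y g ∈ Sp L R) {m : M} (hm : m ≠ 0) {x : κ → ℕ}
    (hs : Sc L.Y (g / ∏ i, L.s i ^ x i) m) {V : Subalgebra k K} (hV : IsVal V) :
    ∃ (N : ℕ) (α : J → ℕ) (μ : K), 0 < N ∧ μ ∈ V ∧ ∀ O ∈ XX L ι ζ w e,
      IsU O ((μ * ∏ j, up ι L.Y (d j) O ^ α j) /
        (ι m * (up ι L.Y g O / ∏ i, sX L ι i O ^ x i)) ^ N) := by
  have c1 : ∀ i, IsCart L.Y (L.s i ^ x i) := fun i => (h.ok.cs i).pow _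
  have c2 : IsCart L.Y (∏ i, L.s i ^ x i) := isCart_prod fun i _ => c1 i
  obtain ⟨N, α, μ, h1, h2, h3⟩ := hd.2 (fun O => m * (g / ∏ i, L.s i ^ x i) O)
    ⟨(isCart_const hm).mul (hg.div c2), hs⟩ (by
      rw [AM.cl_cmul h.gY (hg.div c2) hm, AM.cl_div h.gY hg c2, AM.cl_prod h.gY fun i _ => c1 i]
      simp only [AM.cl_pow h.gY (h.ok.cs _), ← Nat.cast_smul_eq_nsmul ℝ]
      exact sp_sub hc fun i => (x i : ℝ)) (V.comap ι) fun f => by
      simpa only [Subalgebra.mem_comap, map_inv₀] using hV (ι f)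
  refine ⟨N, α, ι μ, h1, h2, fun O hO => ?_⟩
  have := h.loc.maps.isU_up hO (h3 _ (h.loc.maps.mem hO))
  simpa only [map_div₀, map_mul, map_pow, map_prod, Pi.div_apply, Finset.prod_apply, Pi.pow_apply,
    sX, up] using this

end OneP

open OneP in
theorem one_stmt : OneStmt := by
  intro k M K Λ κ n _ _ _ _ _ _ _ _ _ L ι l ζ w e h J _ d R hd
  refine ⟨?_, fun g t a hg hc m q hm hq ⟨x, y, q', t1, t2, t3, t4⟩ V hV => ?_⟩
  · rintro (j | (i | j) | p)
    · exact ⟨h.div.cartU _ (hd.1 j).1, fun _ hO =>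
        h.loc.maps.mem_up hO ((hd.1 j).2 _ (h.loc.maps.mem hO))⟩
    · exact ⟨h.div.cartN (.inl i), fun O hO => (h.div.rC O hO i).1⟩
    · exact ⟨h.div.cartN (.inr j), fun O hO => (h.div.rT O hO j).1⟩
    · exact ⟨h.div.cartE p.1 p.2, fun O hO => h.div.em O hO p.1 p.2⟩
  have hz : ζ ≠ 0 := by simpa using h.ext.tr.ne 0
  have hq' : aeval ζ q ≠ 0 := fun z => hq ((Polynomial.map_eq_zero (algebraMap k M)).1
    (h.ext.tr _ (by rw [eval₂_map, AlgHom.comp_algebraMap, ← aeval_def, z])))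
  obtain ⟨N, α, μ, a1, a2, a3⟩ := half h hd hg hc hm t1 hV
  obtain ⟨c, y', b1, b2, b3⟩ := pol l hz hV q' y
  rw [← t2, ← t3] at b3
  have t5 : ∀ i j, a i j ≤ x i + y' j := fun i j =>
    (t4 i j).trans (add_le_add_right (Int.ofNat_le.2 (b2 j)) _)
  refine ⟨N, Sum.elim α (Sum.elim (Sum.elim (fun i => x i * N) fun j => y' j * N)
      fun p => (x p.1 + y' p.2 - a p.1 p.2).toNat * N), μ * c ^ N, a1,
    V.mul_mem a2 (V.pow_mem b1 _), fun O hO => ?_⟩
  refine Eq.subst (motive := IsU O) ?_ (a3 O hO)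
  have hE : ∀ i j, EE L ι l ζ i j O ≠ 0 := fun i j => (h.div.cartE i j).ne hO
  have r := OneA.alg (fun i => sX L ι i O) (fun j => tau l ζ j O) (fun i j => EE L ι l ζ i j O) hE
    x y' a t5
  have n1 : ∏ i, sX L ι i O ^ x i ≠ 0 :=
    Finset.prod_ne_zero_iff.2 fun i _ => pow_ne_zero _ (h.loc.sne O hO i)
  have n3 : ∏ i, ∏ j, EE L ι l ζ i j O ^ (-a i j) ≠ 0 :=
    Finset.prod_ne_zero_iff.2 fun i _ => Finset.prod_ne_zero_iff.2 fun j _ =>
      zpow_ne_zero _ (hE i j)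
  have n4 := (h.div.cartU g hg).ne hO
  have n6 : ι m ≠ 0 := (map_ne_zero ι).2 hm
  obtain ⟨n7, n2⟩ := mul_ne_zero_iff.1 (b3 O ▸ mul_ne_zero hq' (zpow_ne_zero _ (etn hz O)))
  have s : ι m * aeval ζ q * lb L ι l ζ g t a O = ι m * up ι L.Y g O *
      (c * ∏ j, tau l ζ j O ^ y' j) * ∏ i, ∏ j, EE L ι l ζ i j O ^ (-a i j) := by
    rw [← b3 O, lb]
    ring
  rw [s]
  simp only [Fintype.prod_sum_type, Fintype.prod_prod_type, dd, sN, Sum.elim_inl, Sum.elim_inr,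
    pow_mul _ _ N, Finset.prod_pow]
  rw [← mul_pow, ← mul_pow, r]
  generalize ∏ i, sX L ι i O ^ x i = A at n1
  generalize ∏ j, tau l ζ j O ^ y' j = B at n2
  generalize ∏ i, ∏ j, EE L ι l ζ i j O ^ (-a i j) = C at n3
  simp only [div_pow, mul_pow]
  field_simp

end Pool.Agent.MP_20d318_ag.AM.PS
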