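import Pool.Agent.MP_20d318_ag.AM.PSpec

/-! The orders of the coefficients of a section along the components. -/

set_option autoImplicit false
set_option linter.unusedSectionVars false

namespace Pool.Agent.MP_20d318_ag.AM.PS

open Pool.Agent.MP_fd6584_ag.Fn Pool.Agent.CBk Polynomial
open Pool.Agent.MP_fd6584_ag.AG hiding deg_inv deg_congr deg_of_unit deg_mul deg_prod deg_zpow
  deg_eq_zero deg_nonneg deg_div deg_pow
open Pool.Agent.MVg (Sc Fac Two BasStmt GaussStmt ex)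
open Pool.Agent.MP_20d318_ag.CH
open Pool.Agent.CBk.XTst (tb tr_tb tau_eq)

namespace POrdA

variable {k M K : Type} [Field k] [Field M] [Field K] [Algebra k M] [Algebra k K]
  {ι : M →ₐ[k] K} {l : k} {ζ η : K}

theorem tay (c : M) (G : M[X]) :
    (taylor c G).eval₂ (ι : M →+* K) (ζ - ι c) = G.eval₂ (ι : M →+* K) ζ := by
  rw [taylor_apply, eval₂_comp, eval₂_add, eval₂_X, eval₂_C, RingHom.coe_coe, sub_add_cancel]

theorem ev_ex (h0 : ζ ≠ 0) (j : Fin 4) (h1 : tb l ζ j ≠ 0)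
    (h2 : ![ζ, ζ - 1, ζ - algebraMap k K l, 1] j / η = tb l ζ j) {t : ℕ} {G : M[X]}
    (hG : G.natDegree ≤ t) : G.eval₂ (ι : M →+* K) ζ * η ^ (-(t : ℤ)) =
      (ex (algebraMap k M l) t j G).eval₂ (ι : M →+* K) (tb l ζ j) := by
  have key : ∀ x : K, x ≠ 0 → x / η = x → η = 1 := fun x hx e => by
    rw [div_eq_mul_inv, mul_eq_left₀ hx, inv_eq_one] at e
    exact e
  fin_cases j
  · rw [key _ h1 h2, one_zpow, mul_one]
    rfl
  · rw [key _ h1 h2, one_zpow, mul_one, ← tay 1, map_one]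
    rfl
  · rw [key _ h1 h2, one_zpow, mul_one, ← tay (algebraMap k M l), AlgHom.commutes]
    rfl
  · have e : η = ζ := inv_injective ((one_div η).symm.trans h2)
    let := invertibleOfNonzero h0
    have := eval₂_reflect_mul_pow (ι : M →+* K) ζ t G hG
    rw [invOf_eq_inv] at this
    rw [e, ← this, zpow_neg, zpow_natCast, mul_inv_cancel_right₀ (pow_ne_zero _ h0)]
    rfl

end POrdA

open POrdA in
theorem ord_stmt : OrdStmt := by
  classical
  intro hG k M K Λ κ n _ _ _ _ _ _ _ _ _ L ι l ζ w e h g t c hg G hd hs i j P m hP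
  have hR := hP.mem
  have z0 : ζ ≠ 0 := by simpa using h.ext.tr.ne 0
  have ha0 : L.s i (plO P) ≠ 0 := (h.ok.cs i).ne hR
  have ha1 : P.ord (L.s i (plO P)) = 1 := hP.os
  have hb0 : g (plO P) ≠ 0 := hg.ne hR
  set a := L.s i (plO P) with ha
  set b := g (plO P) with hb
  have ha' : ι a ≠ 0 := (map_ne_zero ι).2 ha0
  obtain ⟨V, hV, hdm, hu, hc⟩ := hG k M K ι P _ (tr_tb (l := l) h.ext.tr j ha0)
  have hy : IsU V (tb l ζ j / ι a) := by simpa using hu 0
  obtain ⟨O, hO, hOV, he⟩ := h.below hR hV hdm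
  have ham : ι a ∈ mx V := (mem_mx_comap ι).1 (hdm.mx hP.mxs)
  have htm : tb l ζ j ∈ mx V := by
    have := mx_mul_left hy.mem ham
    rwa [div_mul_cancel₀ _ ha'] at this
  obtain ⟨e0, -⟩ := tau_eq z0 (h.loc.zm O hO) hOV htm
  have es : sX L ι i O = ι a := by rw [sX, up, he]
  have hsm : sX L ι i O ∈ mx O := mx_of_le hOV.1 (h.loc.sm O hO i) (es ▸ ham)
  have htm' : tau l ζ j O ∈ mx O := mx_of_le hOV.1 (h.loc.tm O hO j) (e0 ▸ htm)
  have hE : IsU V (EE L ι l ζ i j O / ι a) := by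
    have := (h.div.gE O hO i j).mono hOV.1
    rw [es, e0] at this
    exact this.unit (gn_left ha' hy.mem)
  have hE' : ∀ q ∈ Finset.univ.erase (i, j),
      IsU V (EE L ι l ζ q.1 q.2 O ^ (-c q.1 q.2)) := fun q hq => by
    refine ((h.div.eu O hO _ _ ?_).mono hOV.1).zpow _
    by_cases e : q.1 = i
    · refine Or.inr (isU_of_not_mx (h.loc.tm O hO _) fun hm => ?_)
      exact (Finset.mem_erase.1 hq).1 (Prod.ext e (h.loc.t1 O hO _ _ hm htm'))
    · exact Or.inl (isU_of_not_mx (h.loc.sm O hO _) fun hm => e (h.loc.s1 O hO _ _ hm hsm))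
  have hU := (hE.zpow (-c i j)).mul (isU_prod hE')
  have h1 := hU.div_mem (hOV.1 (hs O hO))
  have h2 := ev_ex (ι := ι) (η := eta ζ O) z0 j (div_ne_zero_iff.1 hy.1).1 e0 hd
  have h3 := hc (C (b * a ^ (-c i j)) * (ex (algebraMap k M l) t j G).comp (C a * X)) (by
    rw [eval₂_mul, eval₂_C, eval₂_comp, eval₂_mul, eval₂_C, eval₂_X, RingHom.coe_coe,
      mul_div_cancel₀ _ ha', ← h2, map_mul, map_zpow₀]
    rw [lb, up, he, ← Fintype.prod_prod_type' (fun i j => EE L ι l ζ i j O ^ (-c i j)),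
      ← Finset.mul_prod_erase _ _ (Finset.mem_univ (i, j)), div_zpow] at h1
    have n1 := (isU_prod hE').1
    have n2 := zpow_ne_zero (-c i j) (div_ne_zero_iff.1 hE.1).1
    have n3 := zpow_ne_zero (-c i j) ha'
    refine (congrArg (· ∈ V) ?_).mp h1
    rw [← hb]
    field_simp) m
  rw [coeff_C_mul, comp_C_mul_X_coeff, mem_plO_ord] at h3
  by_cases h4 : (ex (algebraMap k M l) t j G).coeff m = 0
  · rw [h4, zero_mul]
    exact P.ge_zero _
  refine P.ge_of_le ?_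
  rw [P.ord_mul (mul_ne_zero hb0 (zpow_ne_zero _ ha0)) (mul_ne_zero h4 (pow_ne_zero _ ha0)),
    P.ord_mul hb0 (zpow_ne_zero _ ha0), P.ord_mul h4 (pow_ne_zero _ ha0), P.ord_zpow, P.ord_pow,
    ha1] at h3
  rw [P.ord_mul h4 hb0]
  omega

end Pool.Agent.MP_20d318_ag.AM.PS
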