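import Pool.Agent.MP_20d318_ag.AM.SSpec
import Pool.Agent.MP_20d318_ag.KK.RowsY

/-! Row SPL: sections are integral over sections in the compositum. -/

set_option autoImplicit false
set_option linter.unusedSectionVars false

namespace Pool.Agent.MP_20d318_ag.AM

open Pool.Agent.MP_fd6584_ag.Fn Pool.Agent.CBk
open Pool.Agent.MP_fd6584_ag.AG hiding deg_inv deg_congr deg_of_unit deg_mul deg_prod deg_zpow
  deg_eq_zero deg_nonneg deg_div deg_pow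
open Pool.Agent.MVg (Sc)
open Pool.Agent.MP_20d318_ag.KK

namespace SplA

variable {k M M' K : Type} [Field k] [Field M] [Field M'] [Field K] [Algebra k M] [Algebra k M']
  [Algebra k K] {ι : M →ₐ[k] K} {ι' : M' →ₐ[k] K}

theorem fix {θ : K ≃ₐ[k] K} (h1 : ∀ m, θ (ι m) = ι m) (h2 : ∀ m, θ (ι' m) = ι' m) {f : K}
    (h : Rt ι ι' f) : θ f = f := by
  have key : ∀ a ∈ Bq ι ι' ⊤ ⊤ ∅, θ a = a := fun a ha =>
    (Algebra.adjoin_le (S := AlgHom.equalizer (θ : K →ₐ[k] K) (AlgHom.id k K)) (by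
      rintro _ (⟨m, -, rfl⟩ | ⟨m, -, rfl⟩ | ⟨⟨⟩⟩)
      exacts [h1 m, h2 m])) ha
  obtain ⟨a, ha, b, hb, -, rfl⟩ := h
  rw [map_div₀, key a ha, key b hb]

/-- One of the two halves dominates. -/
theorem half [NeZero (2 : k)] {V : Subalgebra k K} (hV : IsVal V) {μ ν : K} (h0 : μ ≠ 0) :
    ∃ s, (s = μ + ν ∨ s = μ - ν) ∧ s ≠ 0 ∧ μ / s ∈ V := by
  obtain ⟨c, cV, two⟩ : ∃ c ∈ V, c * 2 = 1 := ⟨_, V.algebraMap_mem 2⁻¹, by
    rw [← map_ofNat (algebraMap k K) 2, ← map_mul, inv_mul_cancel₀ (NeZero.ne 2), map_one]⟩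
  have key : ∀ s t : K, s + t = 2 * μ → s ≠ 0 → t / s ∈ V → μ / s ∈ V := fun s t e s0 q => by
    have : μ / s = c * (1 + t / s) := by
      field_simp
      linear_combination (-c) * e - μ * two
    exact this ▸ V.mul_mem cV (V.add_mem V.one_mem q)
  have ne : μ + ν = 0 → μ - ν ≠ 0 := fun a b =>
    h0 (by linear_combination c * (a + b) - μ * two)
  by_cases a : μ + ν = 0
  · exact ⟨_, Or.inr rfl, ne a, key _ (μ + ν) (by ring) (ne a) (by simp [a])⟩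
  by_cases b : μ - ν = 0
  · exact ⟨_, Or.inl rfl, a, key _ (μ - ν) (by ring) a (by simp [b])⟩
  rcases hV ((μ - ν) / (μ + ν)) with q | q
  · exact ⟨_, Or.inl rfl, a, key _ _ (by ring) a q⟩
  · exact ⟨_, Or.inr rfl, b, key _ (μ + ν) (by ring) b (inv_div (μ - ν) (μ + ν) ▸ q)⟩

end SplA

theorem spl_stmt : SplStmt := by
  intro k M M' K Λ Λ' κ κ' n n' _ _ _ _ _ _ _ _ _ _ _ L L' ι ι' v e Z h hS g g' a hg hg' μ hμ s1 V
    hV
  obtain ⟨θ, hθ⟩ := hS _ _ _ _ (PolR.lf_one h (Or.inl rfl)) (PolR.lf_one h.symm (Or.inr rfl))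
  have s2 : Sc Z (lb L L' ι ι' g g' a) (θ.1 μ) := fun O hO => by
    have h1 : θ.1 (μ * lb L L' ι ι' g g' a (O.comap (θ.1 : K →ₐ[k] K))) ∈ O :=
      s1 _ ((θ.2 O).1 hO)
    have h2 := PolR.lb_up h hg hg' hθ a hO
    have h3 := O.mul_mem h1 h2.inv_mem
    rwa [map_mul, inv_div, mul_assoc, mul_div_cancel₀ _ (div_ne_zero_iff.1 h2.1).1] at h3
  have h3 : θ.1 v = (-1) ^ (3 - e) * v := by simpa using hθ.h3
  have tt : θ.1 (θ.1 μ) = μ := by
    obtain ⟨x, y, hx, hy, rfl⟩ := h.fld.dec μ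
    simp only [map_add, map_mul, map_pow, map_neg, map_one, h3, SplA.fix hθ.h1 hθ.h2 hx,
      SplA.fix hθ.h1 hθ.h2 hy]
    rw [← mul_assoc ((-1 : K) ^ (3 - e)), ← mul_pow, neg_mul_neg, one_mul, one_pow, one_mul]
  obtain ⟨s, hs, s0, hv⟩ := SplA.half hV (ν := θ.1 μ) hμ
  have nr := h.fld.nrm θ.1 hθ.h1 hθ.h2 h3 s
  have s3 : Sc Z (lb L L' ι ι' g g' a) s := fun O hO => by
    rcases hs with rfl | rfl
    · exact add_mul μ _ _ ▸ O.add_mem (s1 O hO) (s2 O hO)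
    · exact sub_mul μ _ _ ▸ O.sub_mem (s1 O hO) (s2 O hO)
  refine ⟨s * s, mul_ne_zero s0 s0, ?_, fun O hO => ?_, ?_⟩
  · rcases hs with rfl | rfl
    · rwa [map_add, tt, add_comm (θ.1 μ) μ] at nr
    · have := nr.mul (Rt.of_mem (neg_mem (one_mem _)))
      rwa [map_sub, tt, mul_assoc, mul_neg_one, neg_sub] at this
  · rw [PolR.lb_sq, mul_mul_mul_comm]
    exact O.mul_mem (s3 O hO) (s3 O hO)
  · rw [sq, ← div_mul_div_comm]
    exact V.mul_mem hv hv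

end Pool.Agent.MP_20d318_ag.AM
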