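import Pool.Agent.MP_20d318_ag.AM.PSpec
import Pool.Agent.MP_20d318_ag.AM.RSpl
import Pool.Agent.MP_20d318_ag.CH.RowsY

/-! Row PSPL: sections are integral over sections that are rational functions of `ζ`. -/

set_option autoImplicit false
set_option linter.unusedSectionVars false

namespace Pool.Agent.MP_20d318_ag.AM.PS

open Pool.Agent.MP_fd6584_ag.Fn Pool.Agent.CBk Polynomial
open Pool.Agent.MP_fd6584_ag.AG hiding deg_inv deg_congr deg_of_unit deg_mul deg_prod deg_zpow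
  deg_eq_zero deg_nonneg deg_div deg_pow
open Pool.Agent.MVg (Sc)
open Pool.Agent.MP_20d318_ag.CH

theorem spl_stmt : SplStmt := by
  intro k M K Λ κ n _ _ _ _ _ _ _ _ _ L ι l ζ w e h hS g t a hg μ hμ s1 V hV
  obtain ⟨θ, hθ⟩ := hS _ _ (EffR.lf_one h)
  have s2 : Sc (XX L ι ζ w e) (lb L ι l ζ g t a) (θ.1 μ) := fun O hO => by
    have h1 : θ.1 (μ * lb L ι l ζ g t a (O.comap (θ.1 : K →ₐ[k] K))) ∈ O := s1 _ ((θ.2 O).1 hO)
    have h2 := EffR.lb_up hg h hθ t a hO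
    have h3 := O.mul_mem h1 h2.inv_mem
    rwa [map_mul, inv_div, mul_assoc, mul_div_cancel₀ _ (div_ne_zero_iff.1 h2.1).1] at h3
  have h1 : ∀ m, θ.1 (ι m) = ι m := hθ.h1
  have tt : θ.1 (θ.1 μ) = μ := by
    have hm : μ ∈ IntermediateField.adjoin k (Set.range ι ∪ {ζ, w}) := by
      rw [h.ext.top]; trivial
    refine IntermediateField.adjoin_induction k (p := fun x _ => θ.1 (θ.1 x) = x) ?_ ?_ ?_ ?_ ?_ hm
    · rintro _ (⟨m, rfl⟩ | rfl | rfl)
      · rw [h1, h1]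
      · rw [hθ.h2, hθ.h2]
      · rw [hθ.h3, map_mul, h1, hθ.h3, ← mul_assoc, ← map_mul, ← mul_pow, neg_mul_neg, one_mul,
          one_pow, map_one, one_mul]
    · intro x
      rw [AlgEquiv.commutes, AlgEquiv.commutes]
    · intro x y _ _ p q
      rw [map_add, map_add, p, q]
    · intro x _ p
      rw [map_inv₀, map_inv₀, p]
    · intro x y _ _ p q
      rw [map_mul, map_mul, p, q]
  obtain ⟨s, hs, s0, hv⟩ := SplA.half hV (ν := θ.1 μ) hμ
  have nr := h.fld.nrm θ.1 h1 hθ.h2 hθ.h3 s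
  have s3 : Sc (XX L ι ζ w e) (lb L ι l ζ g t a) s := fun O hO => by
    rcases hs with rfl | rfl
    · exact add_mul μ _ _ ▸ O.add_mem (s1 O hO) (s2 O hO)
    · exact sub_mul μ _ _ ▸ O.sub_mem (s1 O hO) (s2 O hO)
  refine ⟨s * s, mul_ne_zero s0 s0, ?_, fun O hO => ?_, ?_⟩
  · rcases hs with rfl | rfl
    · rwa [map_add, tt, add_comm (θ.1 μ) μ] at nr
    · obtain ⟨A, B, B0, q⟩ := nr
      refine ⟨-A, B, B0, ?_⟩
      rw [eval₂_neg, neg_div, ← q, map_sub, tt]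
      ring
  · rw [EffR.lb_sq, mul_mul_mul_comm]
    exact O.mul_mem (s3 O hO) (s3 O hO)
  · rw [sq, ← div_mul_div_comm]
    exact V.mul_mem hv hv

end Pool.Agent.MP_20d318_ag.AM.PS
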