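import Pool.Agent.MP_20d318_ag.AM.SSpec

/-! Row STP: finite generation passes to the next level. -/

set_option autoImplicit false
set_option linter.unusedSectionVars false

namespace Pool.Agent.MP_20d318_ag.AM

open Pool.Agent.MP_fd6584_ag.Fn Pool.Agent.CBk
open Pool.Agent.MP_fd6584_ag.AG hiding deg_inv deg_congr deg_of_unit deg_mul deg_prod deg_zpow
  deg_eq_zero deg_nonneg deg_div deg_pow
open Pool.Agent.MVg (Sc Fac Two BasStmt)
open Pool.Agent.MP_20d318_ag.CH (Lv Lf sX cl Nd n1_ext)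
open Pool.Agent.MP_20d318_ag.KK
open Pool.Agent.MP_20d318_ag.Lat (cone IsCone RP isCone_cone subset_cone)

namespace StpA

variable {k M M' K Λ Λ' κ κ' : Type} {n n' : ℕ} [Field k] [Field M] [Field M'] [Field K]
  [Algebra k M] [Algebra k M'] [Algebra k K] [Fintype κ] [Fintype κ'] {L : Lv k M Λ κ n}
  {L' : Lv k M' Λ' κ' n'} {ι : M →ₐ[k] K} {ι' : M' →ₐ[k] K}

theorem lb_sq (g : Subalgebra k M → M) (g' : Subalgebra k M' → M') (a : κ → κ' → ℤ)
    (O : Subalgebra k K) : lb L L' ι ι' (g ^ 2) (g' ^ 2) (fun i j => a i j * 2) O =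
      lb L L' ι ι' g g' a O ^ 2 := by
  have e1 : ∀ (x : K) (s : ℤ), x ^ (-(s * 2)) = (x ^ (-s)) ^ 2 := fun x s => by
    rw [← neg_mul, zpow_mul, zpow_ofNat]
  unfold lb up
  simp only [e1, Finset.prod_pow, Pi.pow_apply, map_pow]
  ring

theorem sp_sq [IsAlgClosed k] {R : Set (N1 L.Y)} {g : Subalgebra k M → M} {x : N1 L.Y} {N : ℕ}
    (hY : Good L.Y) (hg : IsCart L.Y g) (hx : x ∈ Sp L R) (e : cl L.Y g = (N : ℝ) • x) :
    cl L.Y (g ^ 2) ∈ Sp L R := by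
  have := (isCone_cone _).smul _ (Nat.cast_nonneg (α := ℝ) N) _ hx
  rw [cl_pow hY hg, two_nsmul, e]
  exact (isCone_cone _).add _ this _ this

end StpA

open StpA in
theorem stp_stmt : StpStmt := by
  intro k M M' K Λ Λ' κ κ' n n' _ _ _ _ _ _ _ _ _ _ _ L L' ι ι' v e Z h hI hC hS hT hO h1 R R'
    ⟨J, _, d, hd⟩ ⟨J', _, d', hd'⟩
  obtain ⟨o1, o2⟩ := h1 J J' d d' R R' hd hd'
  refine ⟨_, inferInstance, dd L L' ι ι' d d', fg_iff.2 ⟨o1, ?_⟩⟩
  rintro f hf ⟨D, ⟨D1, D2⟩, hD⟩ V hV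
  obtain ⟨N, g, g', a, μ, hN, hg, hg', hμ, hu⟩ := hC f hf.1
  have cW := h.cartW hg hg' a
  have hu' : ∀ O ∈ Z, IsU O (μ * lb L L' ι ι' g g' a O / f O ^ N) := fun O hO => by
    simpa only [inv_div] using (hu O hO).inv
  have c1 : cl Z (lb L L' ι ι' g g' a) = cl Z (f ^ N) := cl_lin h.gX cW (hf.1.pow N) hu'
  have c2 : ((cl _ g, cl _ g', fun i j => a i j) : WP (N1 L.Y) (N1 L'.Y) κ κ') = (N : ℝ) • D :=
    hI (by rw [h.phi_lb hg hg', c1, cl_pow h.gX hf.1, map_smul, hD, Nat.cast_smul_eq_nsmul])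
  have s1 := sp_sq h.gY hg D1 (congrArg (fun x => x.1) c2)
  have s2 := sp_sq h.gY' hg' D2 (congrArg (fun x => x.2.1) c2)
  have sμ : Sc Z (lb L L' ι ι' g g' a) μ := fun O hO => by
    have := O.mul_mem (hu' O hO).mem (O.pow_mem (hf.2 O hO) N)
    rwa [div_mul_cancel₀ _ (pow_ne_zero _ (hf.1.ne hO))] at this
  obtain ⟨t, t0, t1, t2, t3⟩ := hS g g' a hg hg' μ hμ sμ V hV
  obtain ⟨I, s, m, m', rfl, e2⟩ := hT _ _ _ (hg.pow 2) (hg'.pow 2) t t1 t2
  obtain ⟨B, c, e3, e4⟩ := hO _ _ _ (hg.pow 2) (hg'.pow 2) I s m m' e2 t2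
  rw [e3] at t0 t3
  have m1 := Mon.sum (d := dd L L' ι ι' d d') hV
    (fun O hO => (h.cartW (hg.pow 2) (hg'.pow 2) fun i j => a i j * 2).ne hO)
    (fun b hb q => by
      have c0 : c b ≠ 0 := fun z => q (by rw [z, map_zero, zero_mul])
      have b0 : b ≠ 0 := fun z => q (by rw [z, map_zero, mul_zero])
      exact o2 _ _ _ (hg.pow 2) (hg'.pow 2) s1 s2 _ _ c0 b0 (e4 b hb c0 b0) V hV) t0
  have m2 : Mon Z (dd L L' ι ι' d d') V (lb L L' ι ι' g g' a) μ :=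
    m1.of_pow two_pos hμ t0 t3 fun O hO => by
      rw [lb_sq, div_self (pow_ne_zero _ (cW.ne hO))]
      exact isU_one
  have m3 : Mon Z (dd L L' ι ι' d d') V (fun O => μ * lb L L' ι ι' g g' a O) 1 := by
    simpa only [Mon, one_mul] using m2
  exact m3.of_pow hN one_ne_zero one_ne_zero (by simp) hu'

end Pool.Agent.MP_20d318_ag.AM
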