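import Pool.Agent.MP_20d318_ag.AM.PSpec
import Pool.Agent.MP_20d318_ag.AM.RStp

/-! Row STP for the product with a line: finite generation passes to the next level. -/

set_option autoImplicit false
set_option linter.unusedSectionVars false

namespace Pool.Agent.MP_20d318_ag.AM.PS

open Pool.Agent.MP_fd6584_ag.Fn Pool.Agent.CBk Polynomial
open Pool.Agent.MP_fd6584_ag.AG hiding deg_inv deg_congr deg_of_unit deg_mul deg_prod deg_zpow
  deg_eq_zero deg_nonneg deg_div deg_pow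
open Pool.Agent.MVg (Sc Fac Two BasStmt GaussStmt ex)
open Pool.Agent.MP_20d318_ag.CH
open Pool.Agent.MP_20d318_ag.Lat (cone IsCone RP isCone_cone subset_cone)

namespace StpB

theorem lb_sq {k M K Λ κ : Type} {n : ℕ} [Field k] [Field M] [Field K] [Algebra k M] [Algebra k K]
    [Fintype κ] (L : Lv k M Λ κ n) (ι : M →ₐ[k] K) (l : k) (ζ : K) (g : Subalgebra k M → M) (t : ℤ)
    (a : κ → Fin 4 → ℤ) (O : Subalgebra k K) :
    lb L ι l ζ (g ^ 2) (t * 2) (fun i j => a i j * 2) O = lb L ι l ζ g t a O ^ 2 := by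
  have e1 : ∀ (x : K) (s : ℤ), x ^ (-(s * 2)) = (x ^ (-s)) ^ 2 := fun x s => by
    rw [← neg_mul, zpow_mul, zpow_ofNat]
  unfold lb up
  simp only [e1, Finset.prod_pow, Pi.pow_apply, map_pow]
  ring

end StpB

theorem stp_stmt : StpStmt := by
  intro k M K Λ κ n _ _ _ _ _ _ _ _ _ L ι l ζ w e h hI hC hS hT h1 R ⟨J, _, d, hd⟩
  obtain ⟨o1, o2⟩ := h1 J d R hd
  refine ⟨_, inferInstance, dd L ι l ζ d, fg_iff.2 ⟨o1, ?_⟩⟩
  rintro f hf ⟨D, D1, hD⟩ V hV
  obtain ⟨N, g, t, a, μ, hN, hg, hμ, hu⟩ := hC f hf.1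
  have cW := h.div.cartW g t a hg
  have hu' : ∀ O ∈ XX L ι ζ w e, IsU O (μ * lb L ι l ζ g t a O / f O ^ N) := fun O hO => by
    simpa only [inv_div] using (hu O hO).inv
  have c1 : cl (XX L ι ζ w e) (lb L ι l ζ g t a) = cl (XX L ι ζ w e) (f ^ N) :=
    cl_lin h.gX cW (hf.1.pow N) hu'
  have c2 : ((cl _ g, t, fun i j => a i j) : WW (N1 L.Y) κ) = (N : ℝ) • D :=
    hI (by rw [h.phi_lb hg, c1, cl_pow h.gX hf.1, map_smul, hD, Nat.cast_smul_eq_nsmul])
  have s1 := StpA.sp_sq h.gY hg D1 (congrArg (fun x => x.1) c2)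
  have sμ : Sc (XX L ι ζ w e) (lb L ι l ζ g t a) μ := fun O hO => by
    have := O.mul_mem (hu' O hO).mem (O.pow_mem (hf.2 O hO) N)
    rwa [div_mul_cancel₀ _ (pow_ne_zero _ (hf.1.ne hO))] at this
  obtain ⟨s, t0, t1, t2, t3⟩ := hS g t a hg μ hμ sμ V hV
  obtain ⟨t', B, q, e1, e3, e4⟩ := hT _ _ _ (hg.pow 2) s t0 t1 t2
  rw [e3] at t0 t3
  have m1 := Mon.sum (d := dd L ι l ζ d) hV
    (fun O hO => (h.div.cartW _ (t' : ℤ) (fun i j => a i j * 2) (hg.pow 2)).ne hO)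
    (fun b hb z => by
      have b0 : b ≠ 0 := fun y => z (by rw [y, map_zero, zero_mul])
      have q0 : q b ≠ 0 := fun y => z (by rw [y, map_zero, mul_zero])
      exact o2 _ _ _ (hg.pow 2) s1 _ _ b0 q0 (e4 b hb b0 q0) V hV) t0
  rw [← e1] at m1
  have m2 : Mon (XX L ι ζ w e) (dd L ι l ζ d) V (lb L ι l ζ g t a) μ :=
    m1.of_pow two_pos hμ t0 t3 fun O hO => by
      rw [StpB.lb_sq, div_self (pow_ne_zero _ (cW.ne hO))]
      exact isU_one
  have m3 : Mon (XX L ι ζ w e) (dd L ι l ζ d) V (fun O => μ * lb L ι l ζ g t a O) 1 := by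
    simpa only [Mon, one_mul] using m2
  exact m3.of_pow hN one_ne_zero one_ne_zero (by simp) hu'

end Pool.Agent.MP_20d318_ag.AM.PS
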