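import Pool.Agent.MP_20d318_ag.AM.PSpec
import Pool.Agent.MP_20d318_ag.CH.RowsY

/-! Rational sections are sums of products of sections. -/

set_option autoImplicit false
set_option linter.unusedSectionVars false

namespace Pool.Agent.MP_20d318_ag.AM.PS

open Pool.Agent.MP_fd6584_ag.Fn Pool.Agent.CBk Polynomial
open Pool.Agent.MP_fd6584_ag.AG hiding deg_inv deg_congr deg_of_unit deg_mul deg_prod deg_zpow
  deg_eq_zero deg_nonneg deg_div deg_pow
open Pool.Agent.MVg (Sc Fac Two BasStmt GaussStmt ex)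
open Pool.Agent.MP_20d318_ag.CH

namespace TenA

theorem poly {k : Type} [Field k] {l : k} (l0 : l ≠ 0) (l1 : l ≠ 1) {t : ℕ} {q : k[X]}
    (hq : q ≠ 0) (ht : q.natDegree ≤ t) : ∃ (n : Fin 4 → ℕ) (q' : k[X]),
      q = q' * (X ^ n 0 * (X - 1) ^ n 1 * (X - C l) ^ n 2) ∧
      t = q'.natDegree + ∑ j, n j ∧ ∀ j, (ex l t j q).coeff (n j) ≠ 0 := by
  have c : ∀ a b : k, a ≠ b → ∀ m n : ℕ, IsCoprime ((X - C a) ^ m) ((X - C b) ^ n) :=
    fun a b h _ _ => (isCoprime_X_sub_C_of_isUnit_sub (sub_ne_zero.2 h).isUnit).pow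
  have d : ∀ a : k, (X - C a) ^ q.rootMultiplicity a ∣ q := fun a => pow_rootMultiplicity_dvd q a
  obtain ⟨q', e⟩ := ((c 0 l l0.symm _ _).mul_left (c 1 l l1.symm _ _)).mul_dvd
    ((c 0 1 zero_ne_one _ _).mul_dvd (d 0) (d 1)) (d l)
  have h0 : ∀ (a : k) (m : ℕ), (X - C a) ^ m ≠ 0 := fun a m => pow_ne_zero _ (X_sub_C_ne_zero a)
  have hq' : q' ≠ 0 := fun h => hq (by rw [e, h, mul_zero])
  have hd := congrArg natDegree e
  rw [natDegree_mul (mul_ne_zero (mul_ne_zero (h0 _ _) (h0 _ _)) (h0 _ _)) hq',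
    natDegree_mul (mul_ne_zero (h0 _ _) (h0 _ _)) (h0 _ _), natDegree_mul (h0 _ _) (h0 _ _)] at hd
  simp only [natDegree_pow, natDegree_X_sub_C, mul_one] at hd
  have tr : ∀ a : k, (taylor a q).coeff (q.rootMultiplicity a) ≠ 0 := fun a => by
    rw [rootMultiplicity_eq_natTrailingDegree, ← taylor_apply]
    exact mt trailingCoeff_eq_zero.1 (by simpa using hq)
  refine ⟨![q.rootMultiplicity 0, q.rootMultiplicity 1, q.rootMultiplicity l, t - q.natDegree],
    q', ?_, ?_, fun j => ?_⟩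
  · rw [mul_comm]
    simpa using e
  · rw [Fin.sum_univ_four]
    change t = _ + (q.rootMultiplicity 0 + q.rootMultiplicity 1 + q.rootMultiplicity l +
      (t - q.natDegree))
    omega
  · fin_cases j
    · simpa [ex] using tr 0
    · exact tr 1
    · exact tr l
    · change (reflect t q).coeff (t - q.natDegree) ≠ 0
      rw [coeff_reflect, revAt_le (Nat.sub_le _ _), Nat.sub_sub_self ht]
      exact mt leadingCoeff_eq_zero.1 hq

theorem ex_sum {A α : Type} [CommRing A] (l : A) (t : ℕ) (j : Fin 4) (s : Finset α)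
    (F : α → A[X]) : ex l t j (∑ x ∈ s, F x) = ∑ x ∈ s, ex l t j (F x) := by
  classical
  induction s using Finset.induction_on with
  | empty => fin_cases j <;> simp [ex]
  | insert a s ha ih =>
    rw [Finset.sum_insert ha, Finset.sum_insert ha, ← ih]
    fin_cases j <;> simp [ex]

theorem ex_C_mul {A : Type} [CommRing A] (l : A) (t : ℕ) (j : Fin 4) (a : A) (G : A[X]) :
    ex l t j (C a * G) = C a * ex l t j G := by
  fin_cases j <;> simp [ex, taylor_mul]

theorem ex_map {A B : Type} [CommRing A] [CommRing B] (f : A →+* B) (l : A) (t : ℕ) (j : Fin 4)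
    (G : A[X]) : ex (f l) t j (G.map f) = (ex l t j G).map f := by
  fin_cases j <;> simp [ex, reflect_map]

theorem decomp {k M : Type} [Field k] [Field M] [Algebra k M] (b : Finset M) (G : M[X])
    (hG : ∀ n, G.coeff n ∈ Submodule.span k (b : Set M)) :
    ∃ q : M → k[X], (∀ x, (q x).natDegree ≤ G.natDegree) ∧
      G = ∑ x ∈ b, C x * (q x).map (algebraMap k M) := by
  choose c _ hc using fun n => Submodule.mem_span_finset.1 (hG n)
  refine ⟨fun x => ∑ n ∈ Finset.range (G.natDegree + 1), monomial n (c n x), fun x => ?_, ?_⟩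
  · refine natDegree_sum_le_of_forall_le _ _ fun n hn => (natDegree_monomial_le _).trans ?_
    exact Nat.lt_succ_iff.1 (Finset.mem_range.1 hn)
  · conv_lhs => rw [G.as_sum_range]
    simp only [Polynomial.map_sum, Finset.mul_sum, Polynomial.map_monomial, C_mul_monomial]
    rw [Finset.sum_comm]
    refine Finset.sum_congr rfl fun n _ => ?_
    rw [← hc n, map_sum]
    refine Finset.sum_congr rfl fun x _ => ?_
    rw [Algebra.smul_def, mul_comm]

end TenA

open TenA OrdA in
theorem ten_stmt : TenStmt := by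
  intro hG hB k M K Λ κ n _ _ _ _ _ _ _ _ _ L ι l ζ w e h ⟨j₁, j₂, two⟩ hD hO g t a hg s s0
    ⟨A, B, hB0, hs⟩ hS
  classical
  obtain ⟨G, hG'⟩ := PolR.poly h hg A B hB0 (hs ▸ hS)
  rw [hG'] at hs
  subst hs
  have G0 : G ≠ 0 := fun q => s0 (by rw [q, eval₂_zero])
  have hd := hD g t a hg G G0 hS
  obtain ⟨t', rfl⟩ : ∃ t' : ℕ, t = t' := ⟨t.toNat, by omega⟩
  have hdt : G.natDegree ≤ t' := by omega
  choose P hP using plc h.ok
  have : FiniteDimensional k (Submodule.span k (G.coeffs : Set M)) :=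
    FiniteDimensional.span_of_finite k G.coeffs.finite_toSet
  obtain ⟨b, hb, hF⟩ := hB k M (Submodule.span k (G.coeffs : Set M)) _ _
    (chain (P j₁) (g (plO (P j₁)))) (chain (P j₂) (g (plO (P j₂))))
  obtain ⟨q, hq, hGq⟩ := decomp (k := k) b G fun m => by
    rw [hb]
    by_cases c0 : G.coeff m = 0
    · rw [c0]
      exact zero_mem _
    · exact Submodule.subset_span (coeff_mem_coeffs c0)
  have sc : ∀ x ∈ b, Sc L.Y g x := fun x hx =>
    (Submodule.span_le (p := Ss L.Y g)).2 (fun y hy => by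
      obtain ⟨m, -, rfl⟩ := mem_coeffs_iff.1 hy
      exact PolR.coeff_sc hG h hg G hS m) (hb ▸ Submodule.subset_span hx)
  have key : ∀ (j : Fin 4) (m : ℕ), (ex (algebraMap k M l) t' j G).coeff m =
      ∑ x ∈ b, (ex l t' j (q x)).coeff m • x := by
    intro j m
    conv_lhs => rw [hGq]
    rw [ex_sum, finsetSum_coeff]
    refine Finset.sum_congr rfl fun x _ => ?_
    rw [ex_C_mul, ex_map, coeff_C_mul, coeff_map, Algebra.smul_def, mul_comm]
  refine ⟨t', b, q, rfl, ?_, fun x hx x0 q0 => ?_⟩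
  · conv_lhs => rw [hGq]
    rw [eval₂_finsetSum]
    refine Finset.sum_congr rfl fun x _ => ?_
    rw [eval₂_mul, eval₂_C, eval₂_map, aeval_def, AlgHom.comp_algebraMap]
    rfl
  · obtain ⟨y, q', e1, e2, e3⟩ := poly h.ext.l0 h.ext.l1 q0 ((hq x).trans hdt)
    refine ⟨_, y, q', tm h.ok hP hg x0 (sc x hx), e1, e2, fun i j => ?_⟩
    have h2 := hO g t' a hg G hdt hS i j (P i) (y j) (hP i)
    rw [key] at h2
    have h3 : (P i).Ge (a i j - y j) (x * g (plO (P i))) :=
      hF (Fl (P i) (g (plO (P i))) (a i j - y j))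
        ((two i).elim (fun r => Or.inl ⟨_, by rw [r]⟩) fun r => Or.inr ⟨_, by rw [r]⟩)
        (fun x => (ex l t' j (q x)).coeff (y j)) h2 x hx (e3 j)
    have h4 := h3.le (mul_ne_zero x0 (hg.ne (hP i).mem))
    rw [← od_eq (hP i).mem (sc x hx)] at h4
    omega

end Pool.Agent.MP_20d318_ag.AM.PS
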