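import Pool.Agent.MP_20d318_ag.AM.VSpec
import Pool.Agent.MP_20d318_ag.AM.PSpl
import Pool.Agent.MP_20d318_ag.AM.PDeg
import Pool.Agent.MP_20d318_ag.AM.POrd
import Pool.Agent.MP_20d318_ag.AM.PTen
import Pool.Agent.MP_20d318_ag.AM.POne
import Pool.Agent.MP_20d318_ag.AM.PStp
import Pool.Agent.MP_20d318_ag.AM.PNls
import Pool.Agent.MP_20d318_ag.AM.PMds

/-! The invariants pass to the blow-up of the product with a line and to its double cover. -/

set_option autoImplicit false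
set_option linter.unusedSectionVars false

namespace Pool.Agent.MP_20d318_ag.AM.PS

open Pool.Agent.MP_fd6584_ag.Fn Pool.Agent.CBk
open Pool.Agent.MP_fd6584_ag.AG hiding deg_inv deg_congr deg_of_unit deg_mul deg_prod deg_zpow
  deg_eq_zero deg_nonneg deg_div deg_pow
open Pool.Agent.MVg (Two BasStmt)
open Pool.Agent.MP_20d318_ag.CH
open Pool.Agent.MP_20d318_ag.Lat (cone IsCone RP isCone_cone subset_cone)

theorem pm : PM :=
  ⟨spl_stmt, deg_stmt, ord_stmt, ten_stmt, one_stmt, stp_stmt, nls_stmt, mds_stmt⟩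

variable {k M K Λ κ : Type} {n : ℕ} [Field k] [NeZero (2 : k)] [IsAlgClosed k] [Field M] [Field K]
  [Algebra k M] [Algebra k K] [Finite Λ] [Fintype κ] {L : Lv k M Λ κ n} {ι : M →ₐ[k] K} {l : k}
  {ζ w : K} {e : ℕ}

theorem rcp (m : MM) {h : All L ι l ζ w e} (i : Function.Injective h.Phi)
    (d : StDiv L.nd (nx L ι l ζ w e).nd h.Phi)
    (c : ∀ x ∈ (nx L ι l ζ w e).nd.Ef, ∃ D, h.Phi D = x ∧ D.1 ∈ L.nd.Ef) (s : XStp h)
    (r : Ref (XX L ι ζ w e)) (md : MD L) (rc : RC L.Y) : RC (XX L ι ζ w e) := by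
  classical
  intro x a ha hx
  obtain ⟨A, rfl, a1⟩ := c a ha
  obtain ⟨B, q, -⟩ := c _ (hx 1 one_pos)
  obtain ⟨D, rfl⟩ : ∃ D, h.Phi D = x := ⟨B - A, by rw [map_sub, q, one_smul, add_sub_cancel_right]⟩
  have d1 : D.1 ∈ Glue.Ef L.Y := rc _ _ a1 fun ε e0 => by
    obtain ⟨E, q, p⟩ := c _ (hx ε e0)
    obtain rfl : E = D + ε • A := i (by rw [q, map_add, map_smul])
    exact p
  obtain ⟨R, r1, r2⟩ := exists_fin a1
  obtain ⟨R', r3, r4⟩ := exists_fin d1
  have u : ((R ∪ R' : Finset _) : Set (N1 L.Y)) ⊆ Cartier.n1 '' {D | D.Effective} := by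
    rw [Finset.coe_union]
    exact Set.union_subset r1 r3
  have u1 : ((R ∪ R' : Finset _) : Set (N1 L.Y)) ⊆ LL L.Y := fun y hy =>
    let ⟨E, _, p⟩ := u hy; AddSubgroup.subset_closure ⟨E, p⟩
  obtain ⟨_, ⟨T, -, rfl⟩, t2, t3⟩ := m.efc m.int k K _ r _ (PMdsA.rp d (Finset.finite_toSet _) u1)
    ((s _ (md.fs _ (Finset.finite_toSet _) u1 (u.trans (subset_cone _)))).mono
      (Set.image_mono fun D q => Lat.cone_mono Set.subset_union_left q))
  refine t2 (m.ray _ T _ (h.Phi A) fun δ d0 => ⟨δ, d0, le_rfl, t3 ⟨hx δ d0, D + δ • A, ?_, ?_⟩⟩)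
  · exact (isCone_cone _).add _ (Lat.cone_mono (Finset.coe_subset.2 Finset.subset_union_right) r4) _
      ((isCone_cone _).smul _ d0.le _
        (Lat.cone_mono (Finset.coe_subset.2 Finset.subset_union_left) r2))
  · exact (map_add _ _ _).trans (congrArg _ (map_smul _ _ _))

theorem pstep (c : CH.Mods) (m : MM) (b : BasStmt) (h : All L ι l ζ w e) (two : Two κ)
    (a : Iv L) : Iv (nx L ι l ζ w e) := by
  obtain ⟨r, md⟩ := pm.step c m b h two a.fd a.md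
  have sig := c.sig c.hom k M K Λ κ n L ι l ζ w e h
  have cls := c.cls c.hor k M K Λ κ n L ι l ζ w e h (c.pl k M K Λ κ n L ι l ζ w e h) r.nice
  have inj := phi_inj (c.test c.lift k M K Λ κ n L ι l ζ w e h
    (c.cur k M K Λ κ n L ι l ζ w e h).1 (c.pt k M K Λ κ n L ι l ζ w e h))
  exact ⟨r.fd, md, rcp m inj (c.dv k M K Λ κ n L ι l ζ w e h) (c.cln k M K Λ κ n L ι l ζ w e h cls
    (c.eff k M K Λ κ n L ι l ζ w e h sig (c.pol c.gauss k M K Λ κ n L ι l ζ w e h))).2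
    (pm.stp k M K Λ κ n L ι l ζ w e h inj cls (pm.spl k M K Λ κ n L ι l ζ w e h sig)
      (pm.ten c.gauss b k M K Λ κ n L ι l ζ w e h two (pm.deg k M K Λ κ n L ι l ζ w e h)
        (pm.ord c.gauss k M K Λ κ n L ι l ζ w e h)) (pm.one k M K Λ κ n L ι l ζ w e h))
    r a.md a.rc⟩

end Pool.Agent.MP_20d318_ag.AM.PS
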