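import Pool.Agent.MP_20d318_ag.AM.VSpec

/-! The data for the movable cone conjecture in coordinates. -/

set_option autoImplicit false
set_option linter.unusedSectionVars false

namespace Pool.Agent.MP_20d318_ag.AM

open Pool.Agent.MP_fd6584_ag.Fn Pool.Agent.CBk
open Pool.Agent.MP_fd6584_ag.AG hiding deg_inv deg_congr deg_of_unit deg_mul deg_prod deg_zpow
  deg_eq_zero deg_nonneg deg_div deg_pow
open Pool.Agent.MVg (H1 Mvb PsA Pl AI Cl Rp)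
open Pool.Agent.MP_20d318_ag.CH (cl n1_eq)
open Pool.Agent.MP_20d318_ag.Lat (cone IsCone RP Intg isCone_cone subset_cone cone_mono)

namespace AixA

section lin

variable {V N : Type*} [AddCommGroup V] [Module ℝ V] [AddCommGroup N] [Module ℝ N]
  (ψ : V ≃ₗ[ℝ] N)

theorem cone_pre (R : Set N) : cone (ψ ⁻¹' R) = ψ ⁻¹' cone R :=
  (((isCone_cone R).preimage ψ.toLinearMap).cone_subset fun _ h => subset_cone R h).antisymm
    fun v h => by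
      have := ((isCone_cone (ψ ⁻¹' R)).preimage ψ.symm.toLinearMap).cone_subset
        (R := R) (fun r hr => subset_cone _ (by simpa using hr)) h
      exact ψ.symm_apply_apply v ▸ this

/-- The conjugate group. -/
def cj (Γ : Subgroup (N ≃ₗ[ℝ] N)) : Subgroup (V ≃ₗ[ℝ] V) where
  carrier := {g | ∃ γ ∈ Γ, ∀ v, ψ (g v) = γ (ψ v)}
  mul_mem' := fun ⟨a, a1, a2⟩ ⟨b, b1, b2⟩ => ⟨a * b, Γ.mul_mem a1 b1, fun v => by
    rw [LinearEquiv.mul_apply, a2, b2, LinearEquiv.mul_apply]⟩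
  one_mem' := ⟨1, Γ.one_mem, fun _ => rfl⟩
  inv_mem' := fun ⟨a, a1, a2⟩ => ⟨a⁻¹, Γ.inv_mem a1, fun v => a.injective (by
    rw [← a2]
    simp)⟩

theorem ex_cj {Γ : Subgroup (N ≃ₗ[ℝ] N)} {γ : N ≃ₗ[ℝ] N} (h : γ ∈ Γ) :
    ∃ g ∈ cj ψ Γ, ∀ v, ψ (g v) = γ (ψ v) :=
  ⟨ψ.trans (γ.trans ψ.symm), ⟨γ, h, fun _ => by simp⟩, fun _ => by simp⟩

end lin

variable {k K : Type} [Field k] [Field K] [Algebra k K] {X : Set (Subalgebra k K)}

theorem mv_eq : Mv X = Cartier.n1 '' {D | Mvb X D.f} := Set.ext fun _ =>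
  ⟨fun ⟨f, a, b, c⟩ => ⟨⟨f, a⟩, b, (n1_eq _).trans c⟩,
    fun ⟨D, a, b⟩ => ⟨D.f, D.loc, a, (n1_eq D).symm.trans b⟩⟩

theorem box {x y : N1 X} (hx : x ∈ Glue.Ef X) (hy : y ∈ Glue.Ef X) :
    ∃ S, RP (LL X) S ∧ S ⊆ Glue.Ef X ∧ x ∈ S ∧ y ∈ S := by
  obtain ⟨Q, a, b⟩ := exists_fin hx
  obtain ⟨Q', a', b'⟩ := exists_fin hy
  have h := Set.union_subset a a'
  exact ⟨_, rp_fin (Q.finite_toSet.union Q'.finite_toSet) fun z hz =>
    let ⟨D, _, e⟩ := h hz; AddSubgroup.subset_closure ⟨D, e⟩, cone_mono h,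
    cone_mono Set.subset_union_left b, cone_mono Set.subset_union_right b'⟩

theorem cone_mv (m : Mor X) : cone (Mv X) = MO X :=
  (isCone_SA.cone_subset m.sub).antisymm fun x hx => by
    obtain ⟨S, a, b, c, -⟩ := box (m.ef hx) (m.ef hx)
    obtain ⟨R, d, e⟩ := m.fin S a b
    exact cone_mono d (e.ge ⟨hx, c⟩)

theorem ray_mo (ray : RayStmt.{1}) (rc : RC X) (m : Mor X) {a x : N1 X} (ha : a ∈ MO X)
    (h : ∀ ε : ℝ, 0 < ε → x + ε • a ∈ MO X) : x ∈ MO X := by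
  obtain ⟨S, s1, s2, s3, s4⟩ := box (rc x a (m.ef ha) fun ε hε => m.ef (h ε hε)) (m.ef ha)
  obtain ⟨R, -, e⟩ := m.fin S s1 s2
  exact (e.le (ray _ R x a fun δ hδ => ⟨δ, hδ, le_rfl, e.ge ⟨h δ hδ,
    (rp_cone s1).add _ s3 _ ((rp_cone s1).smul δ hδ.le _ s4)⟩⟩)).1

end AixA

open AixA in
theorem aix_stmt : AixStmt := by
  intro ray pull psm clo cvd k K _ _ _ _ X r ce rc m pt Γ g a _ ha
  have := r.fd
  obtain ⟨d, ⟨ψ⟩⟩ : ∃ d, Nonempty ((Fin d → ℝ) ≃ₗ[ℝ] N1 X) :=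
    ⟨_, ⟨(Module.finBasis ℝ (N1 X)).equivFun.symm⟩⟩
  have hΨ : ∀ v (D : Cartier X), ((N1 X).subtype ∘ₗ ψ.toLinearMap) v = D.cls ↔ ψ v = D.n1 :=
    fun v D => ⟨fun h => Subtype.ext h, fun h => congrArg Subtype.val h⟩
  have hC : ∀ Q : Cartier X → Prop, cone (Cl Cartier.cls ((N1 X).subtype ∘ₗ ψ.toLinearMap) Q) =
      ψ ⁻¹' cone (Cartier.n1 '' {D | Q D}) := fun Q => by
    rw [← cone_pre]
    exact congrArg cone (Set.ext fun v => exists_congr fun D => and_congr_right fun _ =>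
      (hΨ v D).trans eq_comm)
  have hM := hC fun D => Mvb X D.f
  rw [← mv_eq, cone_mv m] at hM
  have a0 : a ∈ MO X := by simpa using (ha 0).choose_spec.2
  have c0 : IsCone (ψ ⁻¹' MO X) := isCone_SA.preimage ψ.toLinearMap
  have c1 : ∀ v, ∃ δ : ℝ, 0 < δ ∧ ψ.symm a + δ • v ∈ ψ ⁻¹' MO X := fun v =>
    (ha (ψ v)).imp fun δ h => ⟨h.1, by simpa using h.2⟩
  have c2 : IsClosed (ψ ⁻¹' MO X) := clo _ _ _ c0 c1 fun x h =>
    ray_mo ray rc m a0 fun ε hε => by simpa using h ε hε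
  refine ⟨d, (N1 X).subtype ∘ₗ ψ.toLinearMap, ψ ⁻¹' MO X, cj ψ Γ,
    Subtype.val_injective.comp ψ.injective, fun D => ⟨ψ.symm D.n1, (hΨ _ D).2 (by simp)⟩, ?_,
    by rw [hM, c2.closure_eq], by rw [hC]; exact fun _ h => m.ef h, pull k K X r.nice r.fac,
    fun σ => ?_, fun γ ⟨γ', h1, h2⟩ => ?_, psm k K X r.nice, ?_, ?_⟩
  · refine eq_top_iff.2 fun v _ => ?_
    obtain ⟨δ, h1, h2⟩ := c1 v
    have s : ∀ W : Submodule ℝ (Fin d → ℝ), IsCone (W : Set (Fin d → ℝ)) := fun W =>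
      ⟨W.zero_mem, fun _ a _ b => W.add_mem a b, fun c _ _ a => W.smul_mem c a⟩
    have t := hM.ge.trans ((s _).cone_subset Submodule.subset_span)
    exact (Submodule.smul_mem_iff _ h1.ne').1
      ((Submodule.add_mem_iff_right _ (t (by simpa using a0))).1 (t h2))
  · obtain ⟨γ, h1, h2⟩ := g.rep σ
    obtain ⟨γ', h3, h4⟩ := ex_cj ψ h1
    exact ⟨γ', h3, fun D E v p q => (hΨ _ E).2 (by rw [h4, (hΨ v D).1 q, h2 D E p])⟩
  · obtain ⟨σ, h3⟩ := g.rep' γ' h1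
    exact ⟨σ, fun D E v p q => (hΨ _ E).2 (by rw [h2, (hΨ v D).1 q, h3 D E p])⟩
  · obtain ⟨Cv, s1, s2⟩ := (lt_LL r.fd).sep
    obtain ⟨Cw, t1, t2, t3⟩ := cvd _ ((LL X).comap ψ.toLinearMap.toAddMonoidHom)
      ⟨inferInstance, (fun c => c ∘ₗ ψ.toLinearMap) '' Cv,
        fun _ ⟨c, hc, e⟩ x hx => e ▸ s1 c hc _ hx, fun x hx => ψ.map_eq_zero_iff.1
          (s2 _ fun c hc => hx _ ⟨c, hc, rfl⟩)⟩ _ c0 c2
      fun x h h' => ψ.map_eq_zero_iff.1 (pt _ (m.ef h) (m.ef (map_neg ψ x ▸ h')))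
    exact ⟨Cw, fun c hc D v q => t1 c hc v (AddSubgroup.subset_closure ⟨D, ((hΨ v D).1 q).symm⟩),
      t2, t3⟩
  · obtain ⟨S, s1, s2, s3⟩ := ce
    obtain ⟨R, h1, h2⟩ := m.fin S s1 s2
    refine ⟨ψ ⁻¹' S, R.preimage ψ ψ.injective.injOn, fun v hv => ?_,
      by rw [Finset.coe_preimage, cone_pre, h2, Set.preimage_inter], fun v hv => ?_⟩
    · obtain ⟨D, -, e⟩ := mv_eq.le (h1 (Finset.mem_preimage.1 hv))
      exact ⟨D, (hΨ v D).2 e.symm⟩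
    · obtain ⟨u, hu⟩ := s3 _ (m.ef hv)
      obtain ⟨γ, h3, h4⟩ := g.aut u
      obtain ⟨γ', h5, h6⟩ := ex_cj ψ h3
      exact ⟨γ', h5, by rwa [Set.mem_preimage, h6, h4]⟩

end Pool.Agent.MP_20d318_ag.AM
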