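import Pool.Agent.MP_20d318_ag.AM.MSpec

/-! Row ALG: closed subsets of an affine variety. -/

set_option autoImplicit false
set_option linter.unusedSectionVars false

namespace Pool.Agent.MP_20d318_ag.AM

open Pool.Agent.MP_fd6584_ag Pool.Agent.MP_fd6584_ag.Fn Pool.Agent.CBk
open Pool.Agent.MP_fd6584_ag.AG hiding deg_inv deg_congr deg_of_unit deg_mul deg_prod deg_zpow
  deg_eq_zero deg_nonneg deg_div deg_pow

namespace AlgA

open MvPolynomial in
/-- A domain of finite type whose nonzero primes are maximal has small transcendence degree. -/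
theorem small {k A L : Type} [Field k] [CommRing A] [IsDomain A] [Algebra k A]
    [Algebra.FiniteType k A] [Field L] [Algebra k L]
    (h : ∀ Q : Ideal A, Q.IsPrime → Q ≠ ⊥ → Q.IsMaximal) (ψ : A →ₐ[k] L)
    (hψ : ∀ x : L, ∃ a b, x = ψ a / ψ b) : Algebra.trdeg k L ≤ 1 := by
  obtain ⟨d, g, inj, int⟩ := exists_integral_inj_algHom_of_fg k A
  have hd : d ≤ 1 := by
    by_contra hn
    obtain ⟨e, rfl⟩ : ∃ e, d = e + 2 := ⟨d - 2, by omega⟩
    let _ := g.toRingHom.toAlgebra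
    have : Algebra.IsIntegral (MvPolynomial (Fin (e + 2)) k) A := ⟨int⟩
    let φ : MvPolynomial (Fin (e + 2)) k →ₐ[k] MvPolynomial (Fin (e + 2)) k :=
      aeval fun i => if i = 0 then 0 else X i
    let ε : MvPolynomial (Fin (e + 2)) k →ₐ[k] k := aeval fun _ => 0
    have hε : ε.comp φ = ε := algHom_ext fun i => by
      by_cases hi : i = 0 <;> simp [φ, ε, hi]
    have := RingHom.ker_isPrime φ
    obtain ⟨Q, hQ, hc⟩ := Ideal.exists_ideal_over_prime_of_isIntegral_of_isDomain (S := A)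
      (RingHom.ker φ) (fun x hx => by
        have : x = 0 := inj (by rw [map_zero]; exact hx)
        rw [this]; exact zero_mem _)
    have h0 : Q ≠ ⊥ := by
      rintro rfl
      have h1 : (X 0 : MvPolynomial (Fin (e + 2)) k) ∈ RingHom.ker φ := by
        simp [RingHom.mem_ker, φ]
      rw [← hc, Ideal.mem_comap, Ideal.mem_bot] at h1
      exact X_ne_zero (R := k) (0 : Fin (e + 2)) (inj (by rw [map_zero]; exact h1))
    have := h Q hQ h0
    have hm := Ideal.isMaximal_comap_of_isIntegral_of_isMaximal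
      (R := MvPolynomial (Fin (e + 2)) k) Q
    rw [hc] at hm
    have he := hm.eq_of_le (RingHom.ker_ne_top ε) fun x hx => by
      rw [RingHom.mem_ker] at hx ⊢
      rw [← hε, AlgHom.comp_apply, hx, map_zero]
    have h1 : (X 1 : MvPolynomial (Fin (e + 2)) k) ∈ RingHom.ker ε := by
      simp [RingHom.mem_ker, ε]
    rw [← he, RingHom.mem_ker] at h1
    simp [φ] at h1
  let s : Set L := Set.range fun i => ψ (g (X i))
  have hs : ∀ x, (ψ.comp g) x ∈ Algebra.adjoin k s := fun x => by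
    rw [Algebra.adjoin_range_eq_range_aeval, aeval_unique (ψ.comp g)]
    exact ⟨x, rfl⟩
  have ha : ∀ a, IsAlgebraic (Algebra.adjoin k s) (ψ a) := fun a => by
    obtain ⟨p, hm, hp⟩ := int a
    refine IsIntegral.isAlgebraic ⟨p.map ((ψ.comp g).codRestrict _ hs).toRingHom, hm.map _, ?_⟩
    have := congrArg ψ.toRingHom hp
    rw [Polynomial.hom_eval₂, map_zero] at this
    rw [Polynomial.eval₂_map]
    exact this
  have : Algebra.IsAlgebraic (Algebra.adjoin k s) L := ⟨fun x => by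
    obtain ⟨a, b, rfl⟩ := hψ x
    rw [div_eq_mul_inv]
    exact (ha a).mul (ha b).inv⟩
  refine (Algebra.IsAlgebraic.trdeg_le_cardinalMk k s).trans (Cardinal.mk_range_le.trans ?_)
  rw [Cardinal.mk_fin]
  exact_mod_cast hd

variable {k K : Type} [Field k] [Field K] [Algebra k K] {C O O' : Subalgebra k K}

theorem ctr (hO : O ∈ Pts C) : ∃ p : Ideal C, p.IsPrime ∧ ∀ c : C, c ∈ p ↔ (c : K) ∈ mx O := by
  have := hO.1
  exact ⟨(IsLocalRing.maximalIdeal O).comap (Subalgebra.inclusion hO.2.1), inferInstance,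
    fun c => (mem_mx_iff (Subalgebra.inclusion hO.2.1 c)).symm⟩

theorem pt (p : Ideal C) (hp : p.IsPrime) : ∃ O ∈ Pts C, ∀ c : C, c ∈ p ↔ (c : K) ∈ mx O := by
  have e : ∀ (a : K) (ha : a ∈ C), a ∈ Subtype.val '' (p : Set C) ↔ (⟨a, ha⟩ : C) ∈ p :=
    fun a ha => Subtype.val_injective.mem_set_image (a := (⟨a, ha⟩ : C))
  obtain ⟨O, hO, hU⟩ := exists_loc C (Subtype.val '' (p : Set C)) ((e 0 C.zero_mem).2 p.zero_mem)
    (fun h => hp.ne_top ((Ideal.eq_top_iff_one p).2 ((e 1 C.one_mem).1 h)))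
    (fun a ha b hb h1 h2 => (e _ (C.add_mem ha hb)).2 (p.add_mem ((e a ha).1 h1) ((e b hb).1 h2)))
    fun a ha b hb => by
      rw [e _ (C.mul_mem ha hb), e a ha, e b hb]
      exact hp.mul_mem_iff_mem_or_mem (x := ⟨a, ha⟩) (y := ⟨b, hb⟩)
  refine ⟨O, hO, fun c => ⟨fun h => ⟨hO.2.1 c.2, fun u => (hU c c.2).1 u ((e c c.2).2 h)⟩,
    fun h => by_contra fun hn => h.2 ((hU c c.2).2 fun u => hn ((e c c.2).1 u))⟩⟩

theorem le_of (hO : O ∈ Pts C) (hO' : O' ∈ Pts C) (h : ∀ c : C, (c : K) ∈ mx O' → (c : K) ∈ mx O) :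
    O ≤ O' := fun f hf => by
  obtain ⟨a, ha, b, hb, hu, rfl⟩ := hO.2.2 f hf
  exact (isU_of_not_mx (hO'.2.1 hb) fun hm => hu.not_mx (h ⟨b, hb⟩ hm)).div_mem (hO'.2.1 ha)

end AlgA

theorem alg_stmt : AlgStmt := by
  intro k K _ _ _ _ C hC
  have : Algebra.FiniteType k C := (Subalgebra.fg_iff_finiteType C).1 hC
  have : IsNoetherianRing C := Algebra.FiniteType.isNoetherianRing k C
  refine ⟨fun O hO => ?_, fun J hJ => ?_⟩
  · obtain ⟨p, hp, e⟩ := AlgA.ctr hO
    obtain ⟨m, hm, hle⟩ := p.exists_le_maximal hp.ne_top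
    obtain ⟨O₀, hO₀, e₀⟩ := AlgA.pt m hm.isPrime
    refine ⟨O₀, hO₀, ratPt_of hO₀ (Algebra.adjoin_eq C).symm fun g hg => ?_,
      AlgA.le_of hO₀ hO fun c hc => (e₀ c).1 (hle ((e c).2 hc))⟩
    let _ := Ideal.Quotient.field m
    have := finite_of_finite_type_of_isJacobsonRing k (C ⧸ m)
    obtain ⟨c, hc⟩ := (IsAlgClosed.algebraMap_bijective_of_isIntegral (k := k) (K := C ⧸ m)).2
      (Ideal.Quotient.mk m ⟨g, hg⟩)
    exact ⟨c, (e₀ (⟨g, hg⟩ - algebraMap k C c)).1 (Ideal.Quotient.eq.1 hc.symm)⟩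
  let I : Ideal C := Ideal.span {c : C | (c : K) ∈ J}
  by_cases hall : ∀ p : Ideal C, p.IsPrime → I ≤ p → p.IsMaximal
  · refine Or.inl (Set.Finite.of_finite_image (f := fun O => {c : C | (c : K) ∈ mx O})
      ((I.finite_minimalPrimes_of_isNoetherianRing.image
        fun p : Ideal C => (p : Set C)).subset ?_) ?_)
    · rintro _ ⟨O, ⟨hO, hJO⟩, rfl⟩
      obtain ⟨p, hp, e⟩ := AlgA.ctr hO
      refine ⟨p, ⟨⟨hp, Ideal.span_le.2 fun c hc => (e c).2 (hJO hc)⟩, fun q hq hle => ?_⟩,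
        Set.ext e⟩
      exact ((hall q hq.1 hq.2).eq_of_le hp.ne_top hle).ge
    · intro O hO O' hO' e
      have e' : ∀ c : C, (c : K) ∈ mx O ↔ (c : K) ∈ mx O' := Set.ext_iff.1 e
      exact le_antisymm (AlgA.le_of hO.1 hO'.1 fun c => (e' c).2)
        (AlgA.le_of hO'.1 hO.1 fun c => (e' c).1)
  · push Not at hall
    obtain ⟨q, ⟨hq, hI, hn⟩, hmax⟩ := set_has_maximal_iff_noetherian.2
      (inferInstance : IsNoetherian C C) {p : Ideal C | p.IsPrime ∧ I ≤ p ∧ ¬ p.IsMaximal} hall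
    obtain ⟨O, hO, e⟩ := AlgA.pt q hq
    have hl := hO.1
    refine Or.inr ⟨O, hO, fun j hj => (e ⟨j, hJ hj⟩).1 (hI (Ideal.subset_span hj)), ?_,
      fun hd => hn ?_⟩
    · rintro ⟨r, hr⟩
      let φ : C →ₐ[k] IsLocalRing.ResidueField O := (resid O).comp (Subalgebra.inclusion hO.2.1)
      have hφ : ∀ c : C, φ c = evO O (resid O) c := fun c =>
        (evO_of_mem (resid O) (hO.2.1 c.2)).symm
      have h1 := AlgA.small (k := k) (A := C ⧸ q) (fun Q hQ h0 => ?_)
        (Ideal.Quotient.liftₐ q φ fun c hc => by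
          rw [hφ]; exact (resid_loc.eq_zero_iff (hO.2.1 c.2)).2 ((e c).1 hc)) fun x => ?_
      · have h2 := ((B2.ind_iff resid_loc hr.1).1 hr).cardinalMk_le_trdeg.trans h1
        simp at h2
      · have hle : q ≤ Q.comap (Ideal.Quotient.mk q) := fun c hc => by
          rw [Ideal.mem_comap, Ideal.Quotient.eq_zero_iff_mem.2 hc]; exact Q.zero_mem
        have hm : (Q.comap (Ideal.Quotient.mk q)).IsMaximal := by_contra fun hm =>
          hmax _ ⟨inferInstance, hI.trans hle, hm⟩ (lt_of_le_of_ne hle fun h => h0 (by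
            rw [← Ideal.map_comap_of_surjective _ Ideal.Quotient.mk_surjective Q, ← h,
              Ideal.map_quotient_self]))
        rcases Ideal.map_eq_top_or_isMaximal_of_surjective (Ideal.Quotient.mk q)
          Ideal.Quotient.mk_surjective hm with h | h <;>
          rw [Ideal.map_comap_of_surjective _ Ideal.Quotient.mk_surjective] at h
        exacts [absurd h hQ.ne_top, h]
      · obtain ⟨⟨f, hf⟩, rfl⟩ := resid_surj x
        obtain ⟨a, ha, b, hb, hu, rfl⟩ := hO.2.2 f hf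
        refine ⟨Ideal.Quotient.mk q ⟨a, ha⟩, Ideal.Quotient.mk q ⟨b, hb⟩, ?_⟩
        change _ = φ ⟨a, ha⟩ / φ ⟨b, hb⟩
        rw [hφ, hφ, ← evO_of_mem (resid O) hf]
        exact evO_div _ (hO.2.1 ha) hu
    · refine Ideal.isMaximal_iff.2 ⟨(Ideal.ne_top_iff_one q).1 hq.ne_top,
        fun Q x hle hx hxQ => ?_⟩
      obtain ⟨c, hc⟩ := (rat_iff hl).2 hd x (hO.2.1 x.2)
      have h1 : x - algebraMap k C c ∈ q := (e _).2 hc
      have h2 : c ≠ 0 := fun h => hx (by simpa [h] using h1)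
      have h3 : algebraMap k C c ∈ Q := by simpa using Q.sub_mem hxQ (hle h1)
      have h4 := Q.mul_mem_left (algebraMap k C c⁻¹) h3
      rwa [← map_mul, inv_mul_cancel₀ h2, map_one] at h4

end Pool.Agent.MP_20d318_ag.AM
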