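import Pool.Agent.MP_20d318_ag.AM.BSpec

/-! Row BIG: big classes are sums of rational curves. -/

set_option autoImplicit false
set_option linter.unusedSectionVars false

namespace Pool.Agent.MP_20d318_ag.AM

open Pool.Agent.MP_20d318_ag.CB
open Pool.Agent.MP_fd6584_ag.MV (LA)
open Pool.Agent.MP_20d318_ag.Lat (cone)

namespace BigA

variable {ι κ : Type} [Fintype ι] [Fintype κ] {Λ : Ld ι κ}

/-- A nonzero real nef class is positive on the ample class. -/
theorem posh (h : LA Λ) (g : Bg Λ) {L : ι → ℝ} (hL : L ∈ Λ.NT) (h0 : L ≠ 0) :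
    0 < ip Λ.B L (toR Λ.h) := by
  by_contra hn
  have key : ∀ w, ip Λ.B L (toR w) ≤ 0 := fun w => by
    obtain ⟨m, -, hm⟩ := g Λ.h ⟨fun c hc => (h.ns.hpos c hc).le, h.l1.hh⟩ w
    have a := h.l1.efr L hL _ hm
    rw [toR_sub, toR_nsmul, ip_sub_right, ip_smul_right] at a
    have b := mul_nonpos_of_nonneg_of_nonpos (Nat.cast_nonneg (α := ℝ) m) (not_lt.1 hn)
    linarith
  refine h0 (h.hg.nd L fun y => le_antisymm (key y) ?_)
  have a := key (-y)
  rw [toR_neg, ip_neg_right] at a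
  linarith

end BigA

open BigA in
theorem big_stmt : BigStmt := by
  intro sol ι κ _ _ Λ h g ct y hy w
  obtain ⟨M, M0, hM⟩ := g y hy (w + Λ.h)
  obtain ⟨F, c, c0, hc⟩ := Lat.farkas_compact
    (fun c : Ra Λ => MP_fd6584_ag.MV.ipL Λ.B (toR c.1))
    (MP_fd6584_ag.MV.ipL Λ.B (toR (M • y - w))) fun Z Z0 hZ hd => by
      have hN : Z ∈ Λ.NT := ct Z fun c hc => hZ ⟨c, hc⟩
      have a := h.l1.efr Z hN _ hM
      have b := posh h g hN Z0
      rw [← sub_sub, toR_sub, ip_sub_right] at a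
      rw [MP_fd6584_ag.MV.ipL_apply] at hd
      exact absurd hd (by linarith)
  have e : toR (M • y - w) - ∑ i ∈ F, c i • toR i.1 = 0 := h.hg.nd _ fun z => by
    have a := hc (toR z)
    simp only [MP_fd6584_ag.MV.ipL_apply] at a
    rw [ip_comm h.ns.sym, ip_sub_right, a, ip_sum_right, sub_eq_zero]
    exact Finset.sum_congr rfl fun i _ => (ip_smul_right _ _ _).symm
  have m : toR (M • y - w) ∈ cone (toR '' Ra Λ) := by
    rw [sub_eq_zero.1 e]
    exact (Lat.isCone_cone _).sum_mem _ _ fun i _ =>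
      (Lat.isCone_cone _).smul _ (c0 i) _ (Lat.subset_cone _ ⟨i.1, i.2, rfl⟩)
  obtain ⟨n, n0, hn⟩ := sol_int sol m
  refine ⟨n * M, n, Nat.mul_pos n0 M0, n0, ?_⟩
  rwa [smul_sub, smul_smul] at hn

end Pool.Agent.MP_20d318_ag.AM
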