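import Pool.Agent.MP_20d318_ag.AM.BSpec

/-! Row BRAT: there is a rational prime divisor. -/

set_option autoImplicit false

namespace Pool.Agent.MP_20d318_ag.AM

open Pool.Agent.MP_20d318_ag.CB

theorem brat_stmt : BratStmt := by
  intro ι κ _ _ Λ l N ε s
  by_contra hn
  have nr : ∀ c ∈ Λ.P, ip Λ.B c c + ip Λ.B Λ.K c ≠ -2 := fun c hc e => hn ⟨c, hc, e⟩
  have sq : ∀ c ∈ Λ.P, 0 ≤ ip Λ.B c c := fun c hc => not_lt.1 fun h => by
    rcases l.l1.neg c hc h with ⟨_, -, -, a, b⟩ | ⟨-, a, b⟩ | ⟨-, a, b, -⟩ <;>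
      exact nr c hc (by rw [a, b]; norm_num)
  have ee : ∀ a ∈ Λ.Ef, ∀ b ∈ Λ.Ef, 0 ≤ ip Λ.B a b := fun a ha => l.l1.efn a fun c hc => by
    rw [ip_comm l.ns.sym]
    exact l.l1.efn c (l.l1.pn c hc (sq c hc)) a ha
  have key : ∀ Z ∈ Λ.Ef, 0 ≤ ip Λ.B Z Z + ip Λ.B Λ.K Z := fun Z hZ => by
    induction hZ using AddSubmonoid.closure_induction with
    | mem c hc =>
      have a := l.ns.adj c hc
      have b := nr c hc
      obtain ⟨t, ht⟩ := l.ns.par c
      omega
    | zero => simp [ip_zero_right]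
    | add a b ha hb h1 h2 =>
      have := ee a ha b hb
      have := ee b hb a ha
      simp only [ip_add_left, ip_add_right]
      omega
  rcases s.base with ⟨H, h1, -, hK, -⟩ | ⟨f, t, m, h1, h2, -, h3, h4, hK, -⟩
  · rcases Nat.eq_zero_or_pos N with rfl | hN
    · rw [Finset.range_zero, Finset.sum_empty, add_zero] at hK
      have a : ip Λ.B Λ.K H = -3 := by rw [hK, ip_smul_left, h1]; rfl
      have b : ip Λ.B Λ.h Λ.K = -3 * ip Λ.B Λ.h H := by rw [hK, ip_smul_right]
      have c := l.l1.hK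
      rcases l.ns.rr H (by omega) with e | e
      · have := key H e
        omega
      · have := l.l1.efn Λ.h (fun c hc => (l.ns.hpos c hc).le) _ e
        rw [ip_sub_right] at this
        omega
    · have := ee _ (s.ef 0 hN) _ (s.ef 0 hN)
      have := s.sq 0 hN
      omega
  · have a : ip Λ.B f Λ.K = -2 := by
      rw [hK, ip_add_right, ip_sub_right, ip_smul_right, ip_smul_right, h1, h2, ip_sum_right,
        Finset.sum_eq_zero fun j hj => (h3 j (Finset.mem_range.1 hj)).1]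
      ring
    have := key f (l.l1.ne f h4).2
    rw [ip_comm l.ns.sym Λ.K] at this
    omega

end Pool.Agent.MP_20d318_ag.AM
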