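import Pool.Agent.MP_20d318_ag.AM.MSpec

/-! Finitely many chambers up to automorphisms. -/

set_option autoImplicit false
set_option linter.unusedSectionVars false

namespace Pool.Agent.MP_20d318_ag.AM

open Pool.Agent.MP_fd6584_ag Pool.Agent.MP_fd6584_ag.Fn Pool.Agent.CBk
open Pool.Agent.MP_fd6584_ag.AG hiding deg_inv deg_congr deg_of_unit deg_mul deg_prod deg_zpow
  deg_eq_zero deg_nonneg deg_div deg_pow
open Pool.Agent.MP_20d318_ag.Lat (cone IsCone RP isCone_cone subset_cone)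

namespace ChmA

variable {k K : Type} [Field k] [Field K] [Algebra k K] {X Z : Set (Subalgebra k K)}

theorem n1_mul (g h : AG.Aut X) (x : AG.N1 X) : (g.mul h).n1 x = g.n1 (h.n1 x) :=
  Subtype.ext (AG.Aut.act_mul g h x.1)

theorem n1_inv (g : AG.Aut X) (x : AG.N1 X) : g.n1 (g.inv.n1 x) = x := by
  rw [← n1_mul, AG.Aut.mul_inv]
  exact Subtype.ext (AG.Aut.act_one x.1)

theorem n1_LL (g : AG.Aut X) {x : AG.N1 X} (h : x ∈ LL X) : g.n1 x ∈ LL X := by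
  induction h using AddSubgroup.closure_induction with
  | mem x hx =>
    obtain ⟨D, rfl⟩ := hx
    exact AddSubgroup.subset_closure ⟨_, (AG.Aut.n1_n1 g D).symm⟩
  | zero => rw [map_zero]; exact zero_mem _
  | add x y _ _ a b => rw [map_add]; exact add_mem a b
  | neg x _ a => rw [map_neg]; exact neg_mem a

/-- The sum of the generators of a cone of semiample classes that contains a big class is ample. -/
theorem key (r : Ref X) {R : Finset (AG.N1 X)} (hL : (R : Set (AG.N1 X)) ⊆ LL X)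
    (hR : ∀ q ∈ R, q ∈ SA X Z) {x a : AG.N1 X} (hx : x ∈ SA X Z) (ha : Lc X Z a) {ε : ℝ}
    (hε : 0 < ε) (hy : x + ε • a ∈ cone (R : Set (AG.N1 X))) : Lc X Z (∑ q ∈ R, q) := by
  obtain ⟨c, hc, e⟩ := mem_cone_fin.1 hy
  obtain ⟨M, hM⟩ := exists_nat_gt (∑ q ∈ R, ε⁻¹ * c q)
  have h0 : ∀ q ∈ R, 0 ≤ ε⁻¹ * c q := fun q _ => mul_nonneg (inv_nonneg.2 hε.le) (hc q)
  have hM0 : 0 < M := by exact_mod_cast (Finset.sum_nonneg h0).trans_lt hM
  have hρ : ∑ q ∈ R, q ∈ LL X := sum_mem fun q hq => hL hq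
  have e' : M • ∑ q ∈ R, q - a = ∑ q ∈ R, ((M : ℝ) - ε⁻¹ * c q) • q + ε⁻¹ • x := by
    have h1 : ∑ q ∈ R, (ε⁻¹ * c q) • q = ε⁻¹ • x + a := by
      simp only [mul_smul]
      rw [← Finset.smul_sum, ← e, smul_add, inv_smul_smul₀ hε.ne']
    rw [Finset.sum_congr rfl fun q _ => sub_smul (M : ℝ) (ε⁻¹ * c q) q,
      Finset.sum_sub_distrib, h1, ← Finset.smul_sum, Nat.cast_smul_eq_nsmul]
    abel
  have hw : M • ∑ q ∈ R, q - a ∈ SA X Z := by
    rw [e']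
    refine isCone_SA.add _ (isCone_SA.sum_mem _ _ fun q hq => isCone_SA.smul _ ?_ _ (hR q hq)) _
      (isCone_SA.smul _ (inv_nonneg.2 hε.le) _ hx)
    exact sub_nonneg.2 ((Finset.single_le_sum h0 hq).trans hM.le)
  exact ⟨hρ, fun O hO => r.lc a _ O M hM0 (ha.2 O hO)
    (r.sa _ (sub_mem (nsmul_mem hρ M) ha.1) O (hw O hO)) _ (add_sub_cancel _ _).symm⟩

theorem pres {g g₀ : AG.Aut X} (h : Tr Z g = Tr Z g₀) (O : Subalgebra k K) :
    O ∈ Z ↔ O.comap ((g₀.inv.mul g).1 : K →ₐ[k] K) ∈ Z := by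
  have h1 : (O.comap (g₀.inv.1 : K →ₐ[k] K)).comap (g₀.1 : K →ₐ[k] K) = O := by
    ext z
    exact iff_of_eq (congrArg (· ∈ O) (g₀.1.symm_apply_apply z))
  have h2 : O.comap (g₀.inv.1 : K →ₐ[k] K) ∈ Tr Z g₀ ↔ O ∈ Z := iff_of_eq (congrArg (· ∈ Z) h1)
  rw [← h2, ← h]
  exact Iff.rfl

end ChmA

open ChmA in
theorem chm_stmt : ChmStmt := by
  intro det trn k K _ _ _ _ X r Z md S ⟨𝒯, fin, rp, _, hZ⟩ cov a ha
  have t := fun g => trn k K X r g Z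
  let gd : AG.Aut X → Prop := fun g => ∃ x ∈ SA X Z, ∃ ε : ℝ, 0 < ε ∧ g.n1 (x + ε • a) ∈ S
  let 𝒰 : Set (Set (AG.N1 X)) := {T | ∃ g, gd g ∧ SA X (Tr Z g) ∩ S = T}
  have hU : 𝒰 ⊆ 𝒯 := by
    rintro _ ⟨g, -, rfl⟩
    exact hZ _ ((t g).1 md)
  have : Finite 𝒰 := fin.subset hU
  choose γ h1 h2 using fun T : 𝒰 => T.2
  choose R h3 h4 using fun T : 𝒰 => rp T (hU T.2)
  have hin : ∀ g x, x ∈ SA X Z → ∀ ε : ℝ, 0 < ε → g.n1 (x + ε • a) ∈ SA X (Tr Z g) :=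
    fun g x hx ε hε => ((t g).2.1 _).2 (isCone_SA.add _ hx _ (isCone_SA.smul _ hε.le _ ha.mem))
  have hlc : ∀ (T : 𝒰) g, gd g → SA X (Tr Z g) ∩ S = T → Lc X (Tr Z g) (∑ q ∈ R T, q) := by
    rintro T g ⟨x, hx, ε, hε, hS⟩ e
    have e' := (h4 T).trans e.symm
    refine key r (h3 T) (fun q hq => (e'.subset (subset_cone _ hq)).1) (((t g).2.1 x).2 hx)
      ((t g).2.2 a ha) hε ?_
    rw [← map_smul, ← map_add]
    exact e'.symm.subset ⟨hin g x hx ε hε, hS⟩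
  refine ⟨cone (⋃ T : 𝒰, (γ T).inv.n1 '' (R T : Set (AG.N1 X))),
    rp_fin (Set.finite_iUnion fun T => (R T).finite_toSet.image _) ?_,
    isCone_SA.cone_subset ?_, fun x hx ε hε => ?_⟩
  · refine Set.iUnion_subset fun T => ?_
    rintro _ ⟨q, hq, rfl⟩
    exact n1_LL _ (h3 T hq)
  · refine Set.iUnion_subset fun T => ?_
    rintro _ ⟨q, hq, rfl⟩
    refine ((t (γ T)).2.1 _).1 ?_
    rw [n1_inv]
    exact (((h4 T).trans (h2 T).symm).subset (subset_cone _ hq)).1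
  · obtain ⟨g, hg⟩ := cov _ (SA_ef md.good
      (isCone_SA.add _ hx _ (isCone_SA.smul _ hε.le _ ha.mem)))
    have hgd : gd g := ⟨x, hx, ε, hε, hg⟩
    let T : 𝒰 := ⟨_, g, hgd, rfl⟩
    have e := det k K X r _ _ ((t g).1 md) ((t (γ T)).1 md) _ (hlc T g hgd rfl)
      (hlc T _ (h1 T) (h2 T))
    refine ⟨(γ T).inv.mul g, ⟨_, pres e⟩, rfl, ?_⟩
    rw [n1_mul]
    exact ((isCone_cone _).preimage (γ T).inv.n1).cone_subset (R := R T)
      (fun q hq => subset_cone _ (Set.mem_iUnion.2 ⟨T, Set.mem_image_of_mem _ hq⟩))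
      ((h4 T).symm.subset ⟨hin g x hx ε hε, hg⟩)

end Pool.Agent.MP_20d318_ag.AM
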