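import Pool.Agent.MP_20d318_ag.AM.BSpec

/-! Finite generation on the surface: chains of curves. -/

set_option autoImplicit false
set_option linter.unusedSectionVars false

namespace Pool.Agent.MP_20d318_ag.AM

open Pool.Agent.MP_20d318_ag.CB Pool.Agent.MP_20d318_ag.CB.P
open Pool.Agent.MP_fd6584_ag.MV (LA)

namespace ChnA

variable {ι κ : Type} [Fintype ι] [Fintype κ] {Λ : Ld ι κ} {δ : (ι → ℤ) → ℤ} {y : ι → ℤ}

theorem pos (hδ : Dl Λ δ) {N : ι → ℤ}
    (hN : N ∈ AddSubmonoid.closure {c | c ∈ Ra Λ ∧ 0 < ip Λ.B y c}) :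
    ∀ W, ∃ n₀ : ℕ, ∀ n ≥ n₀, δ (n • y - W) ≤ δ (n • y - W - N) := by
  induction hN using AddSubmonoid.closure_induction with
  | mem c hc =>
    refine fun W => ⟨(ip Λ.B W c).toNat, fun n hn => hδ _ c hc.1 ?_⟩
    have a : (n : ℤ) * 1 ≤ n * ip Λ.B y c := mul_le_mul_of_nonneg_left hc.2 n.cast_nonneg
    rw [ip_sub_left, ip_nsmul_left]
    omega
  | zero => exact fun W => ⟨0, fun n _ => by rw [sub_zero]⟩
  | add a b _ _ ha hb =>
    intro W
    obtain ⟨m, h1⟩ := ha W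
    obtain ⟨m', h2⟩ := hb (W + a)
    refine ⟨max m m', fun n hn => (h1 n ((le_max_left _ _).trans hn)).trans ?_⟩
    simpa only [sub_sub, add_assoc] using h2 n ((le_max_right _ _).trans hn)

theorem null (l : LA Λ) (hC : Cla Λ) (hδ : Dl Λ δ) (hy : NB Λ y) {c : ι → ℤ} (hc : c ∈ Nu Λ y)
    (n : ℕ) : ∀ (k : ℕ), ∀ N ∈ AddSubmonoid.closure (Nu Λ y), ip Λ.B Λ.h N ≤ k →
      δ (n • y - c) ≤ δ (n • y - c - N) := by
  intro k
  induction k with
  | zero =>
    intro N hN hk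
    rcases eq_or_ne N 0 with rfl | h0
    · rw [sub_zero]
    · exact absurd (l.l1.hef N (AddSubmonoid.closure_mono (fun _ q => q.1.1) hN) h0) hk.not_gt
  | succ k ih =>
    intro N hN hk
    rcases eq_or_ne N 0 with rfl | h0
    · rw [sub_zero]
    obtain ⟨c', h1, h2, h3⟩ := hC y hy c hc N hN h0
    have a := l.ns.hpos c' h1.1.1
    have b := h1.1.2
    refine (ih _ h2 (by rw [ip_sub_right]; push_cast at hk; omega)).trans
      ((hδ _ c' h1.1 ?_).trans_eq (congrArg δ (by abel)))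
    rw [ip_add_left, ip_add_left] at h3
    rw [ip_sub_left, ip_sub_left, ip_sub_left, ip_nsmul_left, h1.2]
    omega

end ChnA

open ChnA in
theorem chn_stmt : ChnStmt := by
  intro ι κ _ _ Λ l hC δ hδ y hy c hc h N hN
  rcases h with h | h
  · have : N ∈ AddSubmonoid.closure (Nu Λ y ∪ {c | c ∈ Ra Λ ∧ 0 < ip Λ.B y c}) :=
      AddSubmonoid.closure_mono (fun x hx => (hy.1 x hx.1).eq_or_lt.imp (fun q => ⟨hx, q.symm⟩)
        fun q => ⟨hx, q⟩) hN
    rw [AddSubmonoid.closure_union, AddSubmonoid.mem_sup] at this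
    obtain ⟨a, ha, b, hb, rfl⟩ := this
    obtain ⟨m, hm⟩ := pos hδ hb (c + a)
    refine ⟨m, fun n hn => (null l hC hδ hy ⟨hc, h⟩ n _ a ha (Int.self_le_toNat _)).trans ?_⟩
    simpa only [sub_sub, add_assoc] using hm n hn
  · exact pos hδ (AddSubmonoid.closure_mono (fun x hx => And.intro hx (h x hx.1)) hN) c

end Pool.Agent.MP_20d318_ag.AM
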