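import Pool.Agent.MP_20d318_ag.AM.BSpec

/-! Cycles on the null locus of a nef and big class. -/

set_option autoImplicit false
set_option linter.unusedSectionVars false

namespace Pool.Agent.MP_20d318_ag.AM

open Pool.Agent.MP_20d318_ag.CB
open Pool.Agent.MP_fd6584_ag.MV (LA)

namespace ClaA

variable {ι κ : Type} [Fintype ι] [Fintype κ] {Λ : Ld ι κ} {y : ι → ℤ}

theorem sum_nonneg {B : ι → ι → ℤ} {v : ι → ℤ} (s : Multiset (ι → ℤ))
    (h : ∀ c ∈ s, 0 ≤ ip B v c) : 0 ≤ ip B v s.sum := by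
  induction s using Multiset.induction_on with
  | empty => exact (ip_zero_right v).ge
  | cons a s ih =>
    rw [Multiset.sum_cons, ip_add_right]
    exact add_nonneg (h a (Multiset.mem_cons_self _ _))
      (ih fun c hc => h c (Multiset.mem_cons_of_mem hc))

theorem negsq (l : LA Λ) (hy : NB Λ y) {s : Multiset (ι → ℤ)} (h : ∀ c ∈ s, c ∈ Nu Λ y)
    (h0 : s ≠ 0) : ip Λ.B s.sum s.sum < 0 := by
  have h1 : ip Λ.B y s.sum = 0 := by
    have a := sum_nonneg (B := Λ.B) (v := y) s fun c hc => (h c hc).2.ge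
    have b := sum_nonneg (B := Λ.B) (v := -y) s fun c hc => by rw [ip_neg_left, (h c hc).2]; rfl
    rw [ip_neg_left] at b
    omega
  have h2 : s.sum ≠ 0 := fun e => by
    obtain ⟨c, hc⟩ := Multiset.exists_mem_of_ne_zero h0
    obtain ⟨t, rfl⟩ := Multiset.exists_cons_of_mem hc
    have a := l.ns.hpos c (h c hc).1.1
    have b := sum_nonneg (B := Λ.B) (v := Λ.h) t fun c hc =>
      (l.ns.hpos c (h c (Multiset.mem_cons_of_mem hc)).1.1).le
    have d := congrArg (ip Λ.B Λ.h) e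
    rw [Multiset.sum_cons, ip_add_right, ip_zero_right] at d
    omega
  have := l.hg.neg (toR y) (toR s.sum) (by rw [ip_toR]; exact_mod_cast hy.2)
    (by rw [ip_toR, ip_comm l.ns.sym, h1, Int.cast_zero]) fun e => h2 (toR_inj (e.trans toR_zero.symm))
  rw [ip_toR] at this
  exact_mod_cast this

theorem ex (l : LA Λ) (hy : NB Λ y) {s : Multiset (ι → ℤ)} (h : ∀ c ∈ s, c ∈ Nu Λ y)
    (h0 : s ≠ 0) (hc : ∀ c ∈ s, 0 ≤ ip Λ.B (Λ.K + s.sum) c) : False := by
  classical
  obtain ⟨t, ht⟩ : ∃ t : Finset κ, ∀ k, k ∈ t ↔ Λ.C k ∈ s :=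
    ⟨Finset.univ.filter fun k => Λ.C k ∈ s, by simp⟩
  have h1 : t.val.map Λ.C ≤ s := by
    refine (Multiset.le_iff_subset (t.nodup.map_on fun k hk m _ e => ?_)).2 fun c hc => ?_
    · by_contra hne
      have a := negsq l hy (s := {Λ.C k})
        (fun c hc => Multiset.mem_singleton.1 hc ▸ h _ ((ht k).1 hk)) (by simp)
      have b := l.ns.disj k m hne
      rw [Multiset.sum_singleton] at a
      rw [← e] at b
      omega
    · obtain ⟨k, hk, rfl⟩ := Multiset.mem_map.1 hc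
      exact (ht k).1 hk
  obtain ⟨r, hr⟩ := Multiset.le_iff_exists_add.1 h1
  have h2 : ∀ c ∈ s + r, c ∈ s := fun c hc => (Multiset.mem_add.1 hc).elim id fun a =>
    hr ▸ Multiset.mem_add.2 (Or.inr a)
  have h3 : s.sum = ∑ k ∈ t, Λ.C k + r.sum := by
    conv_lhs => rw [hr, Multiset.sum_add]
    rfl
  refine (negsq l hy (s := s + r) (fun c a => h c (h2 c a)) (by simp [h0])).not_ge
    (sum_nonneg _ fun c a => ?_)
  have b := h2 c a
  have d := hc c b
  have e := l.l1.sumK c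
  have f : 0 ≤ ∑ k ∈ tᶜ, ip Λ.B (Λ.C k) c := Finset.sum_nonneg fun k hk =>
    l.ns.pos _ (l.ns.memC k) _ (h c b).1.1 fun g => Finset.mem_compl.1 hk ((ht k).2 (g ▸ b))
  have g := congrArg (fun v => ip Λ.B v c) h3
  rw [← Finset.sum_add_sum_compl t] at e
  simp only [ip_add_left, ip_sum_left] at g
  rw [ip_add_left] at d
  rw [Multiset.sum_add, ip_add_left]
  omega

theorem claimA (l : LA Λ) (hy : NB Λ y) (s : Multiset (ι → ℤ)) :
    (∀ c ∈ s, c ∈ Nu Λ y) → s ≠ 0 → ip Λ.B (Λ.K + s.sum) s.sum ≤ -2 := by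
  induction s using Multiset.strongInductionOn with
  | _ s ih =>
    intro h h0
    by_contra hlt
    refine ex l hy h h0 fun c hc => ?_
    obtain ⟨t, rfl⟩ := Multiset.exists_cons_of_mem hc
    have a := (h c hc).1.2
    have b := Int.even_iff.1 (l.ns.par (c ::ₘ t).sum)
    have d := ip_comm l.ns.sym c t.sum
    by_cases t0 : t = 0
    · subst t0
      simp only [Multiset.sum_cons, Multiset.sum_zero, add_zero, ip_add_left] at hlt
      omega
    have e := ih t (Multiset.lt_cons_self _ _) (fun c hc => h c (Multiset.mem_cons_of_mem hc)) t0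
    simp only [Multiset.sum_cons, ip_add_left, ip_add_right] at hlt b e ⊢
    omega

end ClaA

open ClaA in
theorem cla_stmt : ClaStmt := by
  classical
  intro ι κ _ _ Λ l y hy c₀ hc₀ N hN hN0
  obtain ⟨s, hs, rfl⟩ := AddSubmonoid.exists_multiset_of_mem_closure hN
  have s0 : s ≠ 0 := by rintro rfl; exact hN0 rfl
  by_contra hcon
  have h1 : ∀ c ∈ s, 0 ≤ ip Λ.B (Λ.K + c₀ + s.sum) c := fun c hc => by
    by_contra hlt
    refine hcon ⟨c, hs c hc, ?_, by omega⟩
    obtain ⟨t, rfl⟩ := Multiset.exists_cons_of_mem hc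
    rw [Multiset.sum_cons, add_sub_cancel_left]
    exact multiset_sum_mem _ fun x hx =>
      AddSubmonoid.subset_closure (hs x (Multiset.mem_cons_of_mem hx))
  have h2 := sum_nonneg s h1
  have h3 := claimA l hy (c₀ ::ₘ s)
    (fun c hc => (Multiset.mem_cons.1 hc).elim (fun e => e ▸ hc₀) (hs c)) Multiset.cons_ne_zero
  have h4 := claimA l hy s hs s0
  have h5 := hc₀.1.2
  have h6 := ip_comm l.ns.sym c₀ s.sum
  by_cases h : c₀ ∈ s
  · have h7 := h1 c₀ h
    simp only [Multiset.sum_cons, ip_add_left, ip_add_right] at h2 h3 h7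
    omega
  · have h7 := sum_nonneg (B := Λ.B) (v := c₀) s fun c hc =>
      l.ns.pos _ hc₀.1.1 _ (hs c hc).1.1 fun e => h (e ▸ hc)
    simp only [Multiset.sum_cons, ip_add_left, ip_add_right] at h2 h3 h4
    omega

end Pool.Agent.MP_20d318_ag.AM
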