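import Pool.Agent.MP_20d318_ag.AM.BSpec

/-! The movable cone: statements. -/

set_option autoImplicit false
set_option linter.unusedSectionVars false

namespace Pool.Agent.MP_20d318_ag.AM

open Pool.Agent.MP_fd6584_ag.Fn Pool.Agent.CBk
open Pool.Agent.MP_fd6584_ag.AG hiding deg_inv deg_congr deg_of_unit deg_mul deg_prod deg_zpow
  deg_eq_zero deg_nonneg deg_div deg_pow
open Pool.Agent.MVg (H1 Mvb PsA Pl AI UnifStmt PullStmt PsmStmt)
open Pool.Agent.MP_20d318_ag.CH (Lv cl ldN lv0 Iso)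
open Pool.Agent.MP_20d318_ag.KK
open Pool.Agent.MP_20d318_ag.Lat (cone IsCone RP Intg)
open Pool.Agent.MP_fd6584_ag.MV (LM Pe)

section defs

variable {k K : Type} [Field k] [Field K] [Algebra k K] (X : Set (Subalgebra k K))

/-- The effective cone is closed along rays. -/
def RC : Prop := ∀ x, ∀ a ∈ Glue.Ef X, (∀ ε : ℝ, 0 < ε → x + ε • a ∈ Glue.Ef X) → x ∈ Glue.Ef X

/-- The movable cone. -/
def MO : Set (N1 X) := SA X {O | O ∈ X ∧ H1 O}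

/-- The classes of movable divisors. -/
def Mv : Set (N1 X) := {x | ∃ f, IsCart X f ∧ Mvb X f ∧ cl X f = x}

/-- The movable cone meets rational polyhedral cones in cones spanned by movable divisors. -/
structure Mor : Prop where
  sub : Mv X ⊆ MO X
  ef : MO X ⊆ Glue.Ef X
  fin : ∀ S, RP (LL X) S → S ⊆ Glue.Ef X → ∃ R : Finset (N1 X), (R : Set (N1 X)) ⊆ Mv X ∧
    cone (R : Set (N1 X)) = MO X ∩ S

/-- The action of the pseudo-automorphisms. -/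
structure Psa (Γ : Subgroup (N1 X ≃ₗ[ℝ] N1 X)) : Prop where
  rep : ∀ σ : PsA X, ∃ γ ∈ Γ, ∀ D E, Pl σ D E → γ D.n1 = E.n1
  rep' : ∀ γ ∈ Γ, ∃ σ : PsA X, ∀ D E, Pl σ D E → γ D.n1 = E.n1
  aut : ∀ g : Aut X, ∃ γ ∈ Γ, ∀ x, γ x = g.n1 x

end defs

/-- The invariants of a level. -/
structure Iv {k M Λ κ : Type} {n : ℕ} [Field k] [Field M] [Algebra k M] (L : Lv k M Λ κ n) :
    Prop where
  fd : FiniteDimensional ℝ (N1 L.Y)
  md : MD L
  rc : RC L.Y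

/-- PEL. -/
def PelStmt : Prop := LM → LRow fun Λ => Pe Λ

/-- RCB. -/
def RcbStmt : Prop := PRow fun p => Pe p.ld → ∀ G ψ, Iso (ldN p.ld G) (lv0 p).nd ψ → RC (lv0 p).Y

/-- RCS. -/
def RcsStmt : Prop := IntStmt.{1} → RayStmt.{1} → EfcStmt →
  RowX fun {_ _ _ _ _ _ _ _ _ _ _ _ _ _ _ _ _ _ _ L L' ι ι' v e} h => Function.Injective h.Phi →
    StDiv L.nd L'.nd (nx L L' ι ι' v e).nd h.Phi → StCls L.nd L'.nd (nx L L' ι ι' v e).nd h.Phi →
    XStp h → Ref (XX L L' ι ι' v e) → MD L → MD L' → RC L.Y → RC L'.Y → RC (XX L L' ι ι' v e)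

/-- PSA. -/
def PsaStmt : Prop := ExtStmt.{1} → SolStmt.{1} → PullStmt → KRow fun X => Ref X → ∃ Γ, Psa X Γ

/-- MOR. -/
def MorStmt : Prop := IntStmt.{1} → UnifStmt → KRow fun X => Ref X →
  (∀ S, RP (LL X) S → S ⊆ Glue.Ef X → Sig X S) → Mor X

/-- COR: ample classes are inner points. -/
def CorStmt : Prop := AmpStmt → DegStmt → Opn → ZRow fun X Z _ =>
  (∀ S, RP (LL X) S → S ⊆ Glue.Ef X → Sig X S) → ∀ a, Lc X Z a → ∀ v, ∃ δ : ℝ, 0 < δ ∧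
    a + δ • v ∈ SA X Z

/-- PTD: the effective cone contains no line. -/
def PtdStmt : Prop := SolStmt.{1} → KRow fun X => Ref X → ∀ x ∈ Glue.Ef X, -x ∈ Glue.Ef X → x = 0

/-- CLO: closed cones. -/
def CloStmt : Prop := ∀ (V : Type) [NormedAddCommGroup V] [NormedSpace ℝ V] [FiniteDimensional ℝ V]
  (C : Set V) (a : V), IsCone C → (∀ v, ∃ δ : ℝ, 0 < δ ∧ a + δ • v ∈ C) →
    (∀ x, (∀ ε : ℝ, 0 < ε → x + ε • a ∈ C) → x ∈ C) → IsClosed C

/-- CVD: integral forms on a closed cone without lines. -/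
def CvdStmt : Prop := ∀ (V : Type) [NormedAddCommGroup V] [NormedSpace ℝ V] (L : AddSubgroup V),
  Lt L → ∀ C : Set V, IsCone C → IsClosed C → (∀ x ∈ C, -x ∈ C → x = 0) →
    ∃ Cv : Set (V →ₗ[ℝ] ℝ), (∀ c ∈ Cv, Intg L c) ∧ (∀ c ∈ Cv, ∀ x ∈ C, 0 ≤ c x) ∧
      ∀ x, (∀ c ∈ Cv, c x = 0) → x = 0

/-- The data for the movable cone conjecture. -/
def Aix {k K : Type} [Field k] [Field K] [Algebra k K] (X : Set (Subalgebra k K)) : Prop :=
  ∃ (d : ℕ) (Ψ : (Fin d → ℝ) →ₗ[ℝ] Curve X → ℝ) (C : Set (Fin d → ℝ))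
    (Γ : Subgroup ((Fin d → ℝ) ≃ₗ[ℝ] (Fin d → ℝ))),
    AI Cartier.cls Cartier.Effective (fun D : Cartier X => Mvb X D.f) Pl Ψ C Γ

/-- AIX. -/
def AixStmt : Prop := RayStmt.{1} → PullStmt → PsmStmt → CloStmt → CvdStmt → KRow fun X => Ref X →
  CE X → RC X → Mor X → (∀ x ∈ Glue.Ef X, -x ∈ Glue.Ef X → x = 0) → ∀ Γ, Psa X Γ →
  ∀ a ∈ LL X, (∀ v, ∃ δ : ℝ, 0 < δ ∧ a + δ • v ∈ MO X) → Aix X

/-- The rows on the movable cone. -/
structure VM : Prop where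
  pel : PelStmt
  rcb : RcbStmt
  rcs : RcsStmt
  psa : PsaStmt
  mor : MorStmt
  cor : CorStmt
  ptd : PtdStmt
  clo : CloStmt
  cvd : CvdStmt
  aix : AixStmt

theorem VM.ai (v : VM) (m : MM) (u : UnifStmt) (p : PullStmt) (q : PsmStmt) :
    KRow fun X => Ref X → FS X → CE X → RC X → Sm X X → Aix X := by
  intro k K _ _ _ _ X r fs ce rc s
  have up := m.upd k K X r X s
  obtain ⟨Ψ, ps⟩ := m.psi m.ext m.sol k K X r X s up
  obtain ⟨a, ha⟩ := m.hyp k K X r X s up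
  have sg := fun S a b => m.sig m.int k K X r S a (fs S a b)
  obtain ⟨Γ, g⟩ := v.psa m.ext m.sol p k K X r
  refine v.aix m.ray p q v.clo v.cvd k K X r ce rc (v.mor m.int u k K X r sg)
    (v.ptd m.sol k K X r) Γ g a ha.1 fun w => ?_
  exact (v.cor m.amp m.deg (m.opn m.amp m.deg (m.lzb m.fiba m.alg m.lza m.deg)) k K X r X s Ψ ps sg
    a ha w).imp fun δ h => ⟨h.1, fun O hO => h.2 O hO.1⟩

end Pool.Agent.MP_20d318_ag.AM
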