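import Mathlib.Analysis.Normed.Affine.AddTorsorBases
import Mathlib.Analysis.Convex.Topology
import Pool.Agent.MP_20d318_ag.AM.VSpec

/-! A cone that is closed along an inner ray is closed. -/

set_option autoImplicit false

namespace Pool.Agent.MP_20d318_ag.AM

open Pool.Agent.MP_20d318_ag.Lat (IsCone)

theorem clo_stmt : CloStmt := by
  intro V _ _ _ C a hC ha h
  have cv : Convex ℝ C := fun x hx y hy s t hs ht _ =>
    hC.add _ (hC.smul s hs x hx) _ (hC.smul t ht y hy)
  have a0 : a ∈ C := by
    obtain ⟨δ, -, q⟩ := ha 0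
    simpa using q
  obtain ⟨b, hb⟩ := cv.interior_nonempty_iff_affineSpan_eq_top.2 (eq_top_iff.2 fun y _ => by
    obtain ⟨δ, d, q⟩ := ha (y - a)
    have := (affineSpan ℝ C).smul_vsub_vadd_mem δ⁻¹ (subset_affineSpan ℝ C q)
      (subset_affineSpan ℝ C a0) (subset_affineSpan ℝ C a0)
    rwa [vsub_eq_sub, add_sub_cancel_left, inv_smul_smul₀ d.ne', vadd_eq_add, sub_add_cancel]
      at this)
  obtain ⟨δ, d, q⟩ := ha (-b)
  refine isClosed_of_closure_subset fun x hx => h x fun ε e => ?_
  have p : 0 < 1 + ε * δ := by positivity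
  have c := interior_subset (cv.combo_interior_closure_mem_interior hb hx
    (a := ε * δ / (1 + ε * δ)) (b := 1 / (1 + ε * δ)) (by positivity) (by positivity)
    (by rw [← add_div, add_comm, div_self p.ne']))
  have := hC.add _ (hC.smul _ p.le _ c) _ (hC.smul _ e.le _ q)
  rwa [smul_add, smul_smul, smul_smul, mul_div_cancel₀ _ p.ne', mul_div_cancel₀ _ p.ne', one_smul,
    smul_add, smul_smul, smul_neg, add_comm _ x, add_add_add_comm, add_neg_cancel,
    add_zero] at this

end Pool.Agent.MP_20d318_ag.AM
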