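import Pool.Agent.MP_20d318_ag.AM.MSpec

/-! The cone statement for a small modification. -/

set_option autoImplicit false
set_option linter.unusedSectionVars false

namespace Pool.Agent.MP_20d318_ag.AM

open Pool.Agent.MP_fd6584_ag Pool.Agent.MP_fd6584_ag.Fn Pool.Agent.CBk
open Pool.Agent.MP_fd6584_ag.AG hiding deg_inv deg_congr deg_of_unit deg_mul deg_prod deg_zpow
  deg_eq_zero deg_nonneg deg_div deg_pow
open Pool.Agent.MVg (Sc Fac Av)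
open Pool.Agent.MP_20d318_ag.CH (cl cl_val cl_mem cl_eff n1_ext n1_eq)
open Pool.Agent.MP_20d318_ag.Lat (cone IsCone RP Intg Concl isCone_cone subset_cone)

namespace EndA

variable {k K : Type} [Field k] [IsAlgClosed k] [Field K] [Algebra k K]
  {X Z : Set (Subalgebra k K)} {Ψ : AG.N1 X →ₗ[ℝ] AG.N1 Z}

theorem rp_img (hX : Good X) (p : Ps X Z Ψ) {S : Set (AG.N1 X)} (h : RP (LL X) S) :
    RP (LL Z) (Ψ '' S) := by
  obtain ⟨R, hR, rfl⟩ := h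
  have key : ∀ r ∈ (R : Set (AG.N1 X)), ∃ m : ℕ, 0 < m ∧ m • Ψ r ∈ LL Z := fun r hr => by
    obtain ⟨f, f1, rfl⟩ := (mem_LL hX).1 (hR hr)
    obtain ⟨m, f', a1, a2, a3⟩ := p.up f f1
    exact ⟨m, a1, p.mt f f' m f1 a2 a3 ▸ cl_mem a2⟩
  choose! m m1 m2 using key
  have e : cone ((fun r => m r • Ψ r) '' (R : Set (AG.N1 X))) = Ψ '' cone (R : Set (AG.N1 X)) :=
    Set.Subset.antisymm (((isCone_cone _).image Ψ).cone_subset (by
      rintro _ ⟨r, hr, rfl⟩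
      exact IsCone.nsmul ((isCone_cone _).image Ψ) _ ⟨r, subset_cone _ hr, rfl⟩))
    (Set.image_subset_iff.2 (((isCone_cone _).preimage Ψ).cone_subset fun r hr =>
      IsCone.of_nsmul (isCone_cone _) (m1 r hr) (subset_cone _ ⟨r, hr, rfl⟩)))
  rw [← e]
  refine rp_fin (R.finite_toSet.image _) ?_
  rintro _ ⟨r, hr, rfl⟩
  exact m2 r hr

theorem sa_nef (hZ : Good Z) (p : Ps X Z Ψ) (d : Dg X Z Ψ) {x : AG.N1 X} (h : x ∈ SA X Z) :
    Ψ x ∈ Glue.NEf Z :=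
  ⟨by
    rintro _ ⟨ν, rfl⟩
    exact d.nn ν x (h _ ν.gen_mem), p.ef x (SA_ef hZ h)⟩

theorem exists_rp {x a : AG.N1 X} (hx : x ∈ Glue.Ef X) (ha : a ∈ LL X) (ha' : a ∈ Glue.Ef X) :
    ∃ S, RP (LL X) S ∧ S ⊆ Glue.Ef X ∧ x ∈ S ∧ a ∈ S := by
  obtain ⟨Q, q1, q2⟩ := exists_fin hx
  refine ⟨cone (insert a (Q : Set (AG.N1 X))), rp_fin (Q.finite_toSet.insert a)
    (Set.insert_subset ha fun r hr => ?_), (isCone_cone _).cone_subset
      (Set.insert_subset ha' (q1.trans (subset_cone _))),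
    Lat.cone_mono (Set.subset_insert _ _) q2, subset_cone _ (Set.mem_insert _ _)⟩
  obtain ⟨D, -, rfl⟩ := q1 hr
  exact AddSubgroup.subset_closure ⟨D, rfl⟩

end EndA

open EndA in
theorem en_stmt : EndStmt := by
  intro loo ray amp deg opn nef chm k K _ _ _ _ X r Z s Ψ p sig ce a ha
  have hX : Good X := r.nice.toGood
  have hZ : Good Z := s.nice.toGood
  have d := deg k K X r Z s Ψ p
  have := r.fd
  have : FiniteDimensional ℝ (AG.N1 Z) := Module.Finite.of_surjective Ψ p.surj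
  have ae : a ∈ Glue.Ef X := SA_ef hZ ha.mem
  obtain ⟨S₀, s1, s2, s3⟩ := ce
  obtain ⟨Q₀, q1, q2, q3⟩ := chm k K X r Z s.md S₀ (sig S₀ s1 s2) s3 a ha
  refine Glue.cone_of_concl (loo ray (AG.N1 Z) (LL Z) (Glue.NEf Z) (autG Z)
    (Set.range Curve.lin) ((Lat.isCone_dual _).inter (isCone_cone _)) Glue.cvint
    (fun c hc x hx => hx.1 c hc) (fun x hx => n1_ext fun ν => by
      rw [map_zero]
      exact hx _ ⟨ν, rfl⟩) Glue.gL Glue.gC (eq_top_iff.2 fun w _ => ?_) (Ψ '' Q₀)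
    (rp_img hX p q1) (Set.image_subset_iff.2 fun x hx => sa_nef hZ p d (q2 hx)) fun y hy => ?_)
  · obtain ⟨v, rfl⟩ := p.surj w
    obtain ⟨O, hO, -⟩ := hZ.cpl ⊤ fun _ => Or.inl trivial
    obtain ⟨N, -, n2⟩ := amp k K X r Z s p.toUpd a ha O hO v
    obtain ⟨S, t1, t2, t3, t4⟩ := exists_rp (SO_ef n2) ha.1 ae
    obtain ⟨δ, d1, -, d2⟩ := opn k K X r Z s Ψ p S (rp_cone t1) (sig S t1 t2) a ⟨ha.mem, t4⟩
      (d.pos a ha) (N • a + v) ((rp_cone t1).add _ t4 _ t3)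
    have b1 := Submodule.subset_span (R := ℝ) (sa_nef hZ p d ha.mem)
    have b2 := Submodule.subset_span (R := ℝ) (sa_nef hZ p d d2)
    have e : Ψ v = δ⁻¹ • (Ψ (a + δ • (N • a + v)) - Ψ a) - N • Ψ a := by
      rw [map_add, add_sub_cancel_left, map_smul, inv_smul_smul₀ d1.ne', map_add, map_smul,
        add_sub_cancel_left]
    rw [e]
    exact sub_mem (Submodule.smul_mem _ _ (sub_mem b2 b1)) (Submodule.smul_mem _ _ b1)
  · obtain ⟨x, x1, rfl⟩ := p.ef' y hy.2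
    have x2 := nef k K X r Z s Ψ p sig a ha x x1 fun ν => hy.1 _ ⟨ν, rfl⟩
    obtain ⟨S, t1, t2, t3, t4⟩ := exists_rp x1 ha.1 ae
    obtain ⟨𝒯, -, u1, -, u2⟩ := sig S t1 t2
    refine ⟨Ψ a, Ψ '' (SA X Z ∩ S), rp_img hX p (u1 _ (u2 Z s.md)),
      Set.image_subset_iff.2 fun z hz => sa_nef hZ p d hz.1, ⟨x, ⟨x2, t3⟩, rfl⟩,
      ⟨a, ⟨ha.mem, t4⟩, rfl⟩, fun ε hε => ?_⟩
    obtain ⟨g, g', e1, e2⟩ := q3 x x2 ε hε
    refine ⟨g'.eqv, ⟨g', rfl⟩, _, e2, ?_⟩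
    rw [p.aut g g' e1, map_add, map_smul]
    rfl

end Pool.Agent.MP_20d318_ag.AM
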