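import Pool.Agent.MP_20d318_ag.AM.VSpec
import Pool.Agent.MP_20d318_ag.AM.REnd

/-! Ample classes are inner points. -/

set_option autoImplicit false
set_option linter.unusedSectionVars false

namespace Pool.Agent.MP_20d318_ag.AM

open Pool.Agent.MP_fd6584_ag Pool.Agent.MP_fd6584_ag.Fn Pool.Agent.CBk
open Pool.Agent.MP_fd6584_ag.AG hiding deg_inv deg_congr deg_of_unit deg_mul deg_prod deg_zpow
  deg_eq_zero deg_nonneg deg_div deg_pow
open Pool.Agent.MP_20d318_ag.Lat (cone IsCone RP Intg)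

theorem cor_stmt : CorStmt := by
  intro amp deg opn k K _ _ _ _ X r Z s Ψ p sig a ha v
  have hZ : Good Z := s.nice.toGood
  have d := deg k K X r Z s Ψ p
  obtain ⟨O, hO, -⟩ := hZ.cpl ⊤ fun _ => Or.inl trivial
  obtain ⟨N, n1, n2⟩ := amp k K X r Z s p.toUpd a ha O hO v
  obtain ⟨S, t1, t2, t3, t4⟩ := EndA.exists_rp (SO_ef n2) ha.1 (SA_ef hZ ha.mem)
  obtain ⟨δ, d1, -, d2⟩ := opn k K X r Z s Ψ p S (rp_cone t1) (sig S t1 t2) a ⟨ha.mem, t4⟩
    (d.pos a ha) (N • a + v) ((rp_cone t1).add _ t4 _ t3)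
  have c : 0 < 1 + δ * N := by positivity
  refine ⟨δ / (1 + δ * N), by positivity, ?_⟩
  have e : a + (δ / (1 + δ * N)) • v = (1 + δ * N)⁻¹ • (a + δ • (N • a + v)) := by
    rw [smul_add δ, smul_smul, ← add_assoc, show a + (δ * N) • a = (1 + δ * N) • a by
      rw [add_smul, one_smul], smul_add, inv_smul_smul₀ c.ne', smul_smul, div_eq_inv_mul]
  rw [e]
  exact isCone_SA.smul _ (by positivity) _ d2

end Pool.Agent.MP_20d318_ag.AM
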