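import Pool.Agent.MP_20d318_ag.AM.MSpec

/-! Row CPT: quasi-compactness of models of finite type. -/

set_option autoImplicit false
set_option linter.unusedSectionVars false

namespace Pool.Agent.MP_20d318_ag.AM

open Pool.Agent.MP_fd6584_ag Pool.Agent.MP_fd6584_ag.Fn Pool.Agent.CBk
open Pool.Agent.MP_fd6584_ag.AG hiding deg_inv deg_congr deg_of_unit deg_mul deg_prod deg_zpow
  deg_eq_zero deg_nonneg deg_div deg_pow

namespace CptA

variable {k K : Type} [Field k] [Field K] [Algebra k K] {A O : Subalgebra k K}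

/-- A common denominator. -/
theorem den (hO : O ∈ Pts A) (T : Finset K) (h : ∀ a ∈ T, a ∈ O) :
    ∃ b ∈ A, IsU O b ∧ ∀ O', A ≤ O' → IsU O' b → ∀ a ∈ T, a ∈ O' := by
  classical
  induction T using Finset.induction_on with
  | empty => exact ⟨1, A.one_mem, isU_one, fun _ _ _ _ h => absurd h (Finset.notMem_empty _)⟩
  | insert a T _ ih =>
    obtain ⟨b, b1, b2, b3⟩ := ih fun x hx => h x (Finset.mem_insert_of_mem hx)
    obtain ⟨u, u1, w, w1, w2, rfl⟩ := hO.2.2 a (h a (Finset.mem_insert_self _ _))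
    refine ⟨b * w, A.mul_mem b1 w1, b2.mul w2, fun O' l q x hx => ?_⟩
    rcases Finset.mem_insert.1 hx with rfl | hx
    · exact (IsU.of_mul (l w1) (l b1) (mul_comm b w ▸ q)).div_mem (l u1)
    · exact b3 O' l (IsU.of_mul (l b1) (l w1) q) x hx

/-- Affine varieties are quasi-compact. -/
theorem aff (P : K → Prop) (h : ∀ O ∈ Pts A, ∃ b ∈ A, P b ∧ IsU O b) :
    ∃ s : Finset A, (∀ b ∈ s, P b) ∧ ∀ O ∈ Pts A, ∃ b ∈ s, IsU O (b : K) := by
  have t : Ideal.span {b : A | P b} = ⊤ := by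
    by_contra n
    obtain ⟨m, m1, m2⟩ := Ideal.exists_le_maximal _ n
    have e : ∀ a (ha : a ∈ A), a ∈ Subtype.val '' (m : Set A) ↔ (⟨a, ha⟩ : A) ∈ m := fun a ha =>
      ⟨fun ⟨_, x1, x2⟩ => by subst x2; exact x1, fun x => ⟨_, x, rfl⟩⟩
    obtain ⟨O, o1, o2⟩ := exists_loc A (Subtype.val '' (m : Set A)) ⟨0, m.zero_mem, rfl⟩
      (fun x => m1.ne_top ((Ideal.eq_top_iff_one m).2 ((e 1 A.one_mem).1 x)))
      (fun a ha b hb x y => (e _ (A.add_mem ha hb)).2 (m.add_mem ((e a ha).1 x) ((e b hb).1 y)))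
      fun a ha b hb => by
        rw [e a ha, e b hb, e _ (A.mul_mem ha hb)]
        exact m1.isPrime.mul_mem_iff_mem_or_mem (x := ⟨a, ha⟩) (y := ⟨b, hb⟩)
    obtain ⟨b, b1, b2, b3⟩ := h O o1
    exact (o2 b b1).1 b3 ((e b b1).2 (m2 (Ideal.subset_span b2)))
  obtain ⟨s, s1, s2⟩ := (Ideal.span_eq_top_iff_finite _).1 t
  refine ⟨s, fun b hb => s1 hb, fun O hO => by_contra fun n => ?_⟩
  have k : ∀ x ∈ Ideal.span (s : Set A), (x : K) ∈ mx O := fun x hx => by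
    induction hx using Submodule.span_induction with
    | mem x hx => exact ⟨hO.2.1 x.2, fun q => n ⟨x, hx, q⟩⟩
    | zero => exact zero_mem_mx
    | add x y _ _ a b => exact mx_add hO.1 a b
    | smul a x _ b => exact mx_mul_left (hO.2.1 a.2) b
  exact one_not_mem_mx (k 1 (s2 ▸ Submodule.mem_top))

end CptA

theorem cpt_stmt : CptStmt := by
  intro k K _ _ _ _ X hX E hE hc
  classical
  obtain ⟨𝒢, g1, -, g3⟩ := hX.cov
  have key : ∀ G ∈ 𝒢, ∃ F ⊆ E, F.Finite ∧ ∀ O ∈ Pts (Algebra.adjoin k G), ∃ e ∈ F, IsU O (e O) := by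
    intro G hG
    have sub : Pts (Algebra.adjoin k G) ⊆ X := g3 ▸ Set.subset_biUnion_of_mem (u := fun G =>
      Pts (Algebra.adjoin k G)) hG
    obtain ⟨s, s1, s2⟩ := CptA.aff (A := Algebra.adjoin k G)
      (fun b => ∃ e ∈ E, ∀ O' ∈ Pts (Algebra.adjoin k G), IsU O' b → IsU O' (e O')) fun O hO => by
        obtain ⟨e, e1, e2⟩ := hc O (sub hO)
        obtain ⟨T, t1, t2⟩ := hE e e1 O (sub hO)
        obtain ⟨b, b1, b2, b3⟩ := CptA.den hO (insert (e O) (insert (e O)⁻¹ T)) fun a ha => by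
          simp only [Finset.mem_insert] at ha
          rcases ha with rfl | rfl | ha
          exacts [e2.2.1, e2.2.2, t1 a ha]
        refine ⟨b, b1, ⟨e, e1, fun O' h q => ?_⟩, b2⟩
        have c := b3 O' h.2.1 q
        have := (t2 O' (sub h) fun a ha => c a (by simp [ha])).mul
          (⟨e2.1, c _ (by simp), c _ (by simp)⟩ : IsU O' (e O))
        rwa [div_mul_cancel₀ _ e2.1] at this
    choose! ε x1 x2 using s1
    refine ⟨ε '' s, ?_, s.finite_toSet.image _, fun O hO => ?_⟩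
    · rintro _ ⟨b, hb, rfl⟩
      exact x1 b hb
    · obtain ⟨b, b1, b2⟩ := s2 O hO
      exact ⟨ε b, ⟨b, b1, rfl⟩, x2 b b1 O hO b2⟩
  choose! F f1 f2 f3 using key
  refine ⟨⋃ G ∈ 𝒢, F G, Set.iUnion₂_subset f1, g1.biUnion f2, fun O hO => ?_⟩
  rw [g3] at hO
  obtain ⟨G, hG, h⟩ := Set.mem_iUnion₂.1 hO
  obtain ⟨e, e1, e2⟩ := f3 G hG O h
  exact ⟨e, Set.mem_biUnion hG e1, e2⟩

end Pool.Agent.MP_20d318_ag.AM
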