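import Pool.Agent.MP_20d318_ag.AM.BSpec

/-! Rational curves cut out the nef cone. -/

set_option autoImplicit false
set_option linter.unusedSectionVars false

namespace Pool.Agent.MP_20d318_ag.AM

open Pool.Agent.MP_20d318_ag.CB
open Pool.Agent.MP_fd6584_ag.MV (LA)

namespace CtrA

variable {ι κ : Type} [Fintype ι] [Fintype κ] {Λ : Ld ι κ}

theorem negRa (T : L1 Λ) {c : ι → ℤ} (hc : c ∈ Λ.P) (h : ip Λ.B c c < 0) : c ∈ Ra Λ := by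
  refine ⟨hc, ?_⟩
  rcases T.neg c hc h with ⟨_, -, -, a, b⟩ | ⟨-, a, b⟩ | ⟨-, a, b, -⟩ <;> omega

theorem comp (S : NS Λ) (T : L1 Λ) (k : κ) :
    (ip Λ.B (Λ.C k) (Λ.C k) < 0 ∧ ip Λ.B (Λ.C k) Λ.F = 0) ∨
      ∃ q : ℝ, 0 ≤ q ∧ toR (Λ.C k) = q • toR Λ.F := by
  by_cases e : k = Λ.k0
  · exact Or.inr ⟨1, zero_le_one, by rw [e, one_smul]; rfl⟩
  have d : ip Λ.B (Λ.C k) Λ.F = 0 := S.disj k Λ.k0 e
  by_cases n : ip Λ.B (Λ.C k) (Λ.C k) < 0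
  · exact Or.inl ⟨n, d⟩
  obtain ⟨a, b⟩ := T.hz (toR (Λ.C k)) (by rw [ip_toR, d, Int.cast_zero])
  rw [ip_toR] at a b
  have a' : ip Λ.B (Λ.C k) (Λ.C k) ≤ 0 := by exact_mod_cast a
  obtain ⟨q, hq, -⟩ := b (by rw [le_antisymm a' (not_lt.1 n), Int.cast_zero])
  refine Or.inr ⟨q, ?_, hq⟩
  have p1 : (0 : ℝ) < (ip Λ.B Λ.h (Λ.C k) : ℤ) := by exact_mod_cast S.hpos _ (S.memC k)
  have p2 : (0 : ℝ) < (ip Λ.B Λ.h Λ.F : ℤ) := by exact_mod_cast S.hpos _ (S.memC Λ.k0)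
  rw [← ip_toR, hq, ip_smul_right, ip_toR] at p1
  exact ((mul_pos_iff_of_pos_right p2).1 p1).le

theorem first (h : LA Λ) {L : ι → ℝ} (hL : ∀ c ∈ Ra Λ, 0 ≤ ip Λ.B L (toR c))
    (hF : 0 ≤ ip Λ.B L (toR Λ.F)) : L ∈ Λ.NT := by
  refine h.ct L ?_
  rintro c ((⟨a, b⟩ | ⟨k, rfl⟩) | ⟨a, b, d, -⟩)
  · exact hL c (negRa h.l1 a b)
  · rcases comp h.ns h.l1 k with ⟨a, -⟩ | ⟨q, q0, e⟩
    · exact hL _ (negRa h.l1 (h.ns.memC k) a)
    · rw [e, ip_smul_right]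
      exact mul_nonneg q0 hF
  · exact hL c ⟨a, by omega⟩

theorem mult (h : LA Λ) (nf : NF Λ) (hF : ip Λ.B Λ.F Λ.F = 0)
    (fin : {c | c ∈ Λ.P ∧ ip Λ.B c c < 0}.Finite)
    (pos : ∀ c ∈ Λ.P, ip Λ.B c c < 0 → 0 < ip Λ.B Λ.F c)
    (cq : ∀ k, ∃ q : ℝ, toR (Λ.C k) = q • toR Λ.F) {x : ι → ℤ} (hx : ip Λ.B x Λ.F = 0) :
    ∃ r : ℝ, toR x = r • toR Λ.F := by
  obtain ⟨b, hb⟩ := (fin.image fun c => ip Λ.B x c).bddBelow
  have z : ip Λ.B (toR x + (|b| : ℤ) • toR Λ.F) (toR Λ.F) = 0 := by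
    rw [← Int.cast_smul_eq_zsmul ℝ, ip_add_left, ip_smul_left, ip_toR, ip_toR, hx, hF]
    simp
  obtain ⟨q, -, e⟩ := nf hF (toR x + (|b| : ℤ) • toR Λ.F) (h.ct _ (by
    rintro c ((⟨a, d⟩ | ⟨k, rfl⟩) | a)
    · have b1 : b ≤ ip Λ.B x c := hb ⟨c, ⟨a, d⟩, rfl⟩
      have b2 := pos c a d
      have b3 := neg_abs_le b
      have b4 : 0 ≤ ip Λ.B x c + |b| * ip Λ.B Λ.F c := by nlinarith [abs_nonneg b]
      rw [← Int.cast_smul_eq_zsmul ℝ, ip_add_left, ip_smul_left, ip_toR, ip_toR]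
      exact_mod_cast b4
    · obtain ⟨q, e⟩ := cq k
      rw [e, ip_smul_right, z, mul_zero]
    · rw [h.hz.con hF] at a
      exact a.elim)) z
  refine ⟨q - (|b| : ℤ), ?_⟩
  rw [sub_smul, ← e, Int.cast_smul_eq_zsmul, add_sub_cancel_right]

theorem rank (h : LA Λ) (hF : ip Λ.B Λ.F Λ.F = 0)
    (cq : ∀ k, ∃ q : ℝ, toR (Λ.C k) = q • toR Λ.F) : Fintype.card ι = 10 := by
  have a : ∀ k, ip Λ.B (Λ.C k) Λ.K = 0 := by
    intro k
    obtain ⟨q, e⟩ := cq k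
    have b : ((ip Λ.B (Λ.C k) (Λ.C k) : ℤ) : ℝ) = 0 := by
      rw [← ip_toR, e, ip_smul_left, ip_smul_right, ip_toR, hF]
      simp
    have b' : ip Λ.B (Λ.C k) (Λ.C k) = 0 := by exact_mod_cast b
    have d := h.l1.CK k
    rw [ip_comm h.ns.sym]
    omega
  have b := h.l1.sumK Λ.K
  rw [Finset.sum_eq_zero fun k _ => a k] at b
  have d := h.ns.noe
  omega

theorem two (h : LA Λ) (m : ∀ x : ι → ℤ, ip Λ.B x Λ.F = 0 → ∃ r : ℝ, toR x = r • toR Λ.F) :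
    Fintype.card ι ≤ 2 := by
  classical
  have p2 : (0 : ℝ) < (ip Λ.B Λ.h Λ.F : ℤ) := by exact_mod_cast h.ns.hpos _ (h.ns.memC Λ.k0)
  have t := h.hz.span (Submodule.span ℝ (({toR Λ.h, toR Λ.F} : Finset (ι → ℝ)) : Set (ι → ℝ)))
    (fun c _ => by
      obtain ⟨r, e⟩ := m (ip Λ.B Λ.h Λ.F • c - ip Λ.B c Λ.F • Λ.h) (by
        rw [ip_sub_left, ip_smul_left, ip_smul_left]
        ring)
      rw [toR_sub, toR_zsmul, toR_zsmul, sub_eq_iff_eq_add] at e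
      rw [← Submodule.smul_mem_iff _ p2.ne', e]
      exact add_mem (Submodule.smul_mem _ _ (Submodule.subset_span (by simp)))
        (Submodule.smul_mem _ _ (Submodule.subset_span (by simp))))
  have u := finrank_span_finset_le_card (R := ℝ) ({toR Λ.h, toR Λ.F} : Finset (ι → ℝ))
  rw [Set.finrank, t, finrank_top, Module.finrank_fintype_fun_eq_card] at u
  exact u.trans Finset.card_le_two

end CtrA

open CtrA in
theorem ctr_stmt : CtrStmt := by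
  intro ι κ _ _ Λ h nf bg ⟨c₀, h₀⟩ L hL
  by_cases f : 0 ≤ ip Λ.B L (toR Λ.F)
  · exact first h hL f
  exfalso
  have S := h.ns
  have T := h.l1
  have p2 : (0 : ℝ) < (ip Λ.B Λ.h Λ.F : ℤ) := by exact_mod_cast S.hpos _ (S.memC Λ.k0)
  obtain ⟨s, hs⟩ : ∃ s : ℝ, s = -ip Λ.B L (toR Λ.F) / (ip Λ.B Λ.h Λ.F : ℤ) := ⟨_, rfl⟩
  have s0 : 0 < s := hs ▸ div_pos (by linarith) p2
  have z : ip Λ.B (L + s • toR Λ.h) (toR Λ.F) = 0 := by
    rw [ip_add_left, ip_smul_left, ip_toR, hs, div_mul_cancel₀ _ p2.ne', add_neg_cancel]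
  have l1 : ∀ c ∈ Ra Λ, s * (ip Λ.B Λ.h c : ℤ) ≤ ip Λ.B (L + s • toR Λ.h) (toR c) := by
    intro c hc
    rw [ip_add_left, ip_smul_left, ip_toR]
    linarith [hL c hc]
  have l2 : ∀ c ∈ Ra Λ, 0 < s * (ip Λ.B Λ.h c : ℤ) := fun c hc =>
    mul_pos s0 (by exact_mod_cast S.hpos c hc.1)
  have nt := first h (fun c hc => ((l2 c hc).trans_le (l1 c hc)).le) z.ge
  rcases S.sq0.lt_or_eq with hF | hF
  · obtain ⟨m, -, e⟩ := bg Λ.F ⟨T.pn _ (S.memC Λ.k0) S.sq0, hF⟩ c₀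
    have a := T.efr _ nt _ e
    rw [toR_sub, toR_nsmul, ip_sub_right, ip_smul_right, z] at a
    linarith [l1 c₀ h₀, l2 c₀ h₀]
  have hF := hF.symm
  obtain ⟨q, q0, e⟩ := nf hF _ nt z
  simp only [e, ip_smul_left, ip_toR] at l1
  have pos : ∀ c ∈ Λ.P, ip Λ.B c c < 0 → 0 < ip Λ.B Λ.F c := by
    intro c a b
    have d := (l2 c (negRa T a b)).trans_le (l1 c (negRa T a b))
    by_contra n
    have n' : ((ip Λ.B Λ.F c : ℤ) : ℝ) ≤ 0 := by exact_mod_cast not_lt.1 n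
    exact absurd (mul_nonpos_of_nonneg_of_nonpos q0 n') (not_le.2 d)
  have cq : ∀ k, ∃ q : ℝ, toR (Λ.C k) = q • toR Λ.F := by
    intro k
    rcases comp S T k with ⟨a, b⟩ | ⟨r, -, a⟩
    · have := pos _ (S.memC k) a
      rw [ip_comm S.sym] at this
      omega
    · exact ⟨r, a⟩
  have fin : {c | c ∈ Λ.P ∧ ip Λ.B c c < 0}.Finite := by
    refine (h.hg.fin Λ.h (max 1 ⌈2 * q / s⌉) T.hh).subset ?_
    rintro c ⟨a, b⟩
    have d := pos c a b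
    have m1 := le_max_left 1 ⌈2 * q / s⌉
    have m2 := le_max_right 1 ⌈2 * q / s⌉
    rcases T.neg c a b with ⟨k, k0, rfl, -⟩ | ⟨n, c1, c2⟩ | ⟨-, -, -, n⟩
    · have := S.disj _ _ (Ne.symm k0)
      exact absurd (this ▸ d : (0 : ℤ) < 0) (lt_irrefl _)
    · have u1 : ip Λ.B Λ.F c ≤ 2 := by
        have := Finset.single_le_sum (fun k _ => T.Cc c a n k) (Finset.mem_univ Λ.k0)
        rw [T.sumK, c2] at this
        exact this
      have u2 : ((ip Λ.B Λ.F c : ℤ) : ℝ) ≤ 2 := by exact_mod_cast u1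
      have u3 : ((ip Λ.B Λ.h c : ℤ) : ℝ) ≤ 2 * q / s := by
        rw [le_div_iff₀ s0]
        nlinarith [l1 c (negRa T a b)]
      have u4 : ip Λ.B Λ.h c ≤ ⌈2 * q / s⌉ := by exact_mod_cast u3.trans (Int.le_ceil _)
      have u5 := S.hpos c a
      refine ⟨?_, by omega⟩
      rw [ip_comm S.sym, abs_of_pos u5]
      omega
    · exact absurd (n Λ.k0 ▸ d : (0 : ℤ) < 0) (lt_irrefl _)
  have r1 := rank h hF cq
  have r2 := two h fun x hx => mult h nf hF fin pos cq hx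
  omega

end Pool.Agent.MP_20d318_ag.AM
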