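import Mathlib.Analysis.LocallyConvex.Separation
import Pool.Agent.MP_20d318_ag.AM.VSpec

/-! Integral forms on a closed cone without lines. -/

set_option autoImplicit false
set_option linter.unusedSectionVars false

namespace Pool.Agent.MP_20d318_ag.AM

open Pool.Agent.MP_20d318_ag.Lat (cone IsCone RP Intg exists_sep)

namespace CvdA

variable {V : Type} [NormedAddCommGroup V] [NormedSpace ℝ V] {C : Set V}

theorem pt (hC : IsCone C) (cl : IsClosed C) {x : V} (hx : -x ∉ C) :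
    ∃ f : V →L[ℝ] ℝ, 0 < f x ∧ ∀ y ∈ C, 0 ≤ f y := by
  obtain ⟨f, u, a, b⟩ := geometric_hahn_banach_point_closed (convex_iff_add_mem.2
    fun x hx y hy _ _ ha hb _ => hC.add _ (hC.smul _ ha _ hx) _ (hC.smul _ hb _ hy)) cl hx
  have c := b 0 hC.zero
  rw [map_zero] at c
  rw [map_neg] at a
  refine ⟨f, by linarith, fun y hy => not_lt.1 fun q => ?_⟩
  have := b _ (hC.smul (u / f y) (div_nonneg_of_nonpos c.le q.le) _ hy)
  rw [map_smul, smul_eq_mul, div_mul_cancel₀ _ q.ne] at this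
  exact lt_irrefl _ this

theorem pos (hC : IsCone C) (cl : IsClosed C) (ln : ∀ x ∈ C, -x ∈ C → x = 0) {K : Set V}
    (hK : IsCompact K) (sub : K ⊆ C) (h0 : ∀ x ∈ K, x ≠ 0) :
    ∃ f : V →L[ℝ] ℝ, ∀ x ∈ K, 0 < f x := by
  choose f f1 f2 using fun x : K => pt hC cl fun q => h0 x x.2 (ln x (sub x.2) q)
  obtain ⟨t, ht⟩ := hK.elim_finite_subcover (fun x => {y | 0 < f x y})
    (fun x => isOpen_lt continuous_const (f x).continuous) fun x hx =>
      Set.mem_iUnion.2 ⟨⟨x, hx⟩, f1 _⟩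
  refine ⟨∑ x ∈ t, f x, fun y hy => ?_⟩
  obtain ⟨x, a, b⟩ := Set.mem_iUnion₂.1 (ht hy)
  rw [sum_apply]
  exact Finset.sum_pos' (fun z _ => f2 z y (sub hy)) ⟨x, a, b⟩

theorem sph (hC : IsCone C) (c : V →ₗ[ℝ] ℝ) (h : ∀ x ∈ C ∩ Metric.sphere 0 1, 0 ≤ c x) :
    ∀ x ∈ C, 0 ≤ c x := fun x hx => by
  rcases eq_or_ne x 0 with rfl | q
  · exact (map_zero c).ge
  have n : 0 < ‖x‖⁻¹ := inv_pos.2 (norm_pos_iff.2 q)
  have := h _ ⟨hC.smul _ n.le _ hx, mem_sphere_zero_iff_norm.2 (norm_smul_inv_norm q)⟩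
  rw [map_smul, smul_eq_mul] at this
  exact nonneg_of_mul_nonneg_right this n

end CvdA

open CvdA in
theorem cvd_stmt : CvdStmt := by
  intro V _ _ L l C hC cl ln
  have := l.fd
  have := FiniteDimensional.proper_real V
  obtain ⟨Cv, i1, i2⟩ := l.sep
  obtain ⟨k, c, c1, c2⟩ := exists_sep Cv i2
  have hK : IsCompact (C ∩ Metric.sphere 0 1) := (isCompact_sphere 0 1).inter_left cl
  obtain ⟨f, hf⟩ := pos hC cl ln hK Set.inter_subset_left fun x hx q => by simpa [q] using hx.2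
  obtain ⟨t, ht⟩ := (Submodule.mem_span_range_iff_exists_fun ℝ).1
    (mem_span_of_iInf_ker_le_ker (L := c) (K := (f : V →ₗ[ℝ] ℝ)) fun x hx => by
      rw [c2 x fun j => (Submodule.mem_iInf _).1 hx j]
      exact zero_mem _)
  obtain ⟨B, hB⟩ := hK.bddAbove_image (f := fun x => (2 * ∑ j, |c j x|) / f x)
    ((continuous_const.mul (continuous_finsetSum _ fun j _ =>
      (c j).continuous_of_finiteDimensional.abs)).continuousOn.div f.continuous.continuousOn
      fun x hx => (hf x hx).ne')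
  obtain ⟨g, hg⟩ : ∃ g, g = ∑ j, (⌊B * t j⌋ : ℝ) • c j := ⟨_, rfl⟩
  have g1 : Intg L g := fun x hx => by
    choose z hz using fun j => i1 _ (c1 j) x hx
    exact ⟨∑ j, ⌊B * t j⌋ * z j, by simp [hg, hz]⟩
  have g2 : ∀ x ∈ C ∩ Metric.sphere 0 1, ∑ j, |c j x| ≤ g x := fun x hx => by
    have a := (div_le_iff₀ (hf x hx)).1 (hB ⟨x, hx, rfl⟩)
    have b : B * f x - ∑ j, |c j x| ≤ g x := by
      rw [show f x = ∑ j, t j * c j x by simpa using (LinearMap.congr_fun ht x).symm, hg,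
        Finset.mul_sum, ← Finset.sum_sub_distrib, LinearMap.sum_apply]
      refine Finset.sum_le_sum fun j _ => ?_
      have a1 := Int.floor_le (B * t j)
      have a2 := Int.lt_floor_add_one (B * t j)
      have a3 := le_abs_self (c j x)
      have a4 := abs_nonneg (c j x)
      rw [LinearMap.smul_apply, smul_eq_mul]
      nlinarith
    linarith
  refine ⟨insert g (Set.range fun j => g + c j), ?_, ?_, fun x hx => c2 x fun j => ?_⟩
  · rintro _ (rfl | ⟨j, rfl⟩)
    · exact g1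
    · intro x hx
      obtain ⟨z, hz⟩ := g1 x hx
      obtain ⟨w, hw⟩ := i1 _ (c1 j) x hx
      exact ⟨z + w, by simp [hz, hw]⟩
  · rintro _ (rfl | ⟨j, rfl⟩)
    · exact sph hC _ fun x hx => (Finset.sum_nonneg fun j _ => abs_nonneg _).trans (g2 x hx)
    · refine sph hC _ fun x hx => ?_
      have a := (Finset.single_le_sum (fun j _ => abs_nonneg (c j x)) (Finset.mem_univ j)).trans
        (g2 x hx)
      have b := neg_abs_le (c j x)
      change 0 ≤ g x + c j x
      linarith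
  · have a : g x + c j x = 0 := hx _ (Or.inr ⟨j, rfl⟩)
    rwa [hx g (Or.inl rfl), zero_add] at a

end Pool.Agent.MP_20d318_ag.AM
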