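import Pool.Agent.MP_20d318_ag.AM.MSpec

/-! Small modifications, row DEG: degrees of classes that avoid a curve. -/

set_option autoImplicit false
set_option linter.unusedSectionVars false

namespace Pool.Agent.MP_20d318_ag.AM

open Pool.Agent.MP_fd6584_ag Pool.Agent.MP_fd6584_ag.Fn Pool.Agent.CBk
open Pool.Agent.MP_fd6584_ag.AG hiding deg_inv deg_congr deg_of_unit deg_mul deg_prod deg_zpow
  deg_eq_zero deg_nonneg deg_div deg_pow
open Pool.Agent.MP_20d318_ag.CH (cl cl_val)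
open Pool.Agent.MP_20d318_ag.Lat (IsCone)

namespace DegA

variable {k K : Type} [Field k] [Field K] [Algebra k K] {X Z : Set (Subalgebra k K)}
  {e e' : Subalgebra k K → K} {m : ℕ} {O : Subalgebra k K}

theorem unit (s : Sm X Z) (h : IsCart Z e') (t : Mt X e e' m) (hO : O ∈ Z) (u : Un X e O) :
    IsU O (e' O) :=
  s.nice.unit h hO fun P a b => by rw [t P ((s.pl P).1 a), u P ((s.pl P).1 a) b, mul_zero]

theorem un (s : Sm X Z) (h : IsCart Z e') (t : Mt X e e' m) (hm : 0 < m) (hO : O ∈ Z)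
    (u : IsU O (e' O)) : Un X e O := fun P a b => by
  have h1 := (u.mono b).div (h.unit hO ((s.pl P).2 a) b)
  rw [div_div_cancel₀ u.1] at h1
  have h2 := ((isU_plO' P).1 h1).2
  rw [t P a] at h2
  exact (mul_eq_zero.1 h2).resolve_left (by exact_mod_cast hm.ne')

theorem eff (s : Sm X Z) (h : IsCart Z e') (t : Mt X e e' m) (d : Ed X e) : ∀ O ∈ Z, e' O ∈ O :=
  fun _ hO => s.nice.eff h hO fun P a _ => by
    rw [t P ((s.pl P).1 a)]
    exact mul_nonneg (Int.natCast_nonneg m) (d.ord ((s.pl P).1 a))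

variable [IsAlgClosed k]

theorem val {Ψ : AG.N1 X →ₗ[ℝ] AG.N1 Z} (p : Ps X Z Ψ) (he : IsCart X e) (h : IsCart Z e')
    (t : Mt X e e' m) (ν : AG.Curve Z) : (m : ℝ) * ν.lin (Ψ (cl X e)) = ν.deg e' := by
  rw [← cl_val h, ← p.mt e e' m he h t, map_nsmul, nsmul_eq_mul]

/-- An effective divisor of degree zero that avoids the generic point avoids the curve. -/
theorem unit_pt (hZ : Good Z) (h : IsCart Z e') (he : ∀ O ∈ Z, e' O ∈ O) (ν : AG.Curve Z)
    (u : IsU ν.gen (e' ν.gen)) (hd : ν.deg e' ≤ 0) (Q : Place k ν.L) :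
    IsU (ν.pt Q) (e' (ν.pt Q)) := by
  have h2 := fun P => h.unit (ν.pt_mem P) ν.gen_mem (ν.pt_le P)
  have h1 : ∀ P : Place k ν.L, P.ord (ν.ev (e' (ν.pt P))) =
      P.ord (ν.ev (e' (ν.pt P) / e' ν.gen)) + P.ord (ν.ev (e' ν.gen)) := fun P => by
    rw [ν.ev_eq, ν.ev_eq, ν.ev_eq, ← P.ord_mul (evO_ne _ (h2 P)) (evO_ne _ u),
      ← evO_mul _ (h2 P).2.1 u.2.1, div_mul_cancel₀ _ u.1]
  have h3 : (Function.support fun P : Place k ν.L => P.ord (ν.ev (e' (ν.pt P)))).Finite := by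
    refine ((h.fin hZ ν).union (FF.finite_ord (K := k) (ν.ev (e' ν.gen)))).subset fun P hP => ?_
    by_contra hn
    simp only [Set.mem_union, Function.mem_support, ne_eq, not_or, not_not] at hn
    exact hP (by simp only [h1 P, hn.1, hn.2, add_zero])
  have h4 := fun P : Place k ν.L => FF.ord_nonneg (ν.v_le P (he _ (ν.pt_mem P)))
  have h5 := single_le_finsum Q h3 h4
  rw [← deg_of_unit hZ h ν u] at h5
  have h6 := (h2 Q).mul u
  rw [div_mul_cancel₀ _ u.1] at h6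
  exact (ν.v_eq_one_iff Q (he _ (ν.pt_mem Q))).1
    ((FF.v_eq_one_iff Q (evO_ne _ h6)).2 (le_antisymm (h5.trans hd) (h4 Q)))

theorem const_div {L : Type} [Field L] [Algebra k L] {a b : L}
    (ha : ∃ c : k, a = algebraMap k L c) (hb : ∃ c : k, b = algebraMap k L c) :
    ∃ c : k, a / b = algebraMap k L c :=
  let ⟨c, h⟩ := ha; let ⟨d, h'⟩ := hb; ⟨c / d, by rw [h, h', map_div₀]⟩

/-- A curve inside an affine set is a point. -/
theorem ratPt (hZ : Good Z) (ν : AG.Curve Z) {R : Subalgebra k K} (h : ∀ Q, R ≤ ν.pt Q)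
    (Q : Place k ν.L) (hQ : ν.pt Q ≤ fr R (ν.pt Q)) : RatPt ν.gen := by
  have h1 : ∀ b ∈ R, ∃ c : k, ν.ev b = algebraMap k ν.L c := fun b hb =>
    const_of_regular fun P => by simpa [Place.Ge] using ν.v_le P (h P hb)
  have h2 : ∀ f ∈ ν.pt Q, ∃ c : k, ν.ev f = algebraMap k ν.L c := fun f hf => by
    obtain ⟨a, ha, b, hb, hu, rfl⟩ := hQ hf
    rw [ev_div ν (ν.pt_le Q (h Q ha)) (hu.mono (ν.pt_le Q))]
    exact const_div (h1 a ha) (h1 b hb)
  obtain ⟨G, -, g1, g2⟩ := hZ.fg _ (ν.pt_mem Q)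
  obtain ⟨c, c1, c2⟩ := exists_ctr (hZ.loc _ ν.gen_mem) (g1.2.1.trans (ν.pt_le Q))
  rw [hZ.sep _ (g2 c1) _ ν.gen_mem _ (hZ.loc _ ν.gen_mem) c2 (Dom.refl _)] at c1
  intro f hf
  obtain ⟨a, ha, b, hb, hu, e⟩ := c1.2.2 f hf
  obtain ⟨c, hc⟩ := const_div (h2 a (g1.2.1 ha)) (h2 b (g1.2.1 hb))
  rw [← ev_div ν (c1.2.1 ha) hu, ← e] at hc
  refine ⟨c, (ev_eq_zero ν (ν.gen.sub_mem hf (ν.gen.algebraMap_mem c))).1 ?_⟩
  rw [ev_sub_const ν hf, hc, sub_self]

end DegA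

open DegA in
theorem deg_stmt : DegStmt := by
  intro k K _ _ _ _ X _ Z s Ψ p
  have hZ := s.nice.toGood
  refine ⟨fun ν => IsCone.cone_subset (S := {x | 0 ≤ ν.lin (Ψ x)}) ⟨?_, fun x a y b => ?_,
    fun c hc x a => ?_⟩ ?_, fun ν e he h => ?_, fun x hx ν hν => ?_⟩
  · simp
  · simpa using add_nonneg a b
  · simpa using mul_nonneg hc a
  · rintro x ⟨-, m, e, hm, d, c, u⟩
    obtain ⟨m', e', hm', h, t⟩ := p.up e d.1
    have h1 := val p d.1 h t ν
    have h2 : (0 : ℝ) ≤ ν.deg e' := by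
      exact_mod_cast deg_nonneg hZ h (eff s h t d) ν (unit s h t ν.gen_mem u)
    rw [← h1, c, map_nsmul, map_nsmul, nsmul_eq_mul, ← mul_assoc] at h2
    exact nonneg_of_mul_nonneg_right h2 (by positivity)
  · obtain ⟨m', e', hm', h', t⟩ := p.up e he
    obtain ⟨Q⟩ : Nonempty (Place k ν.L) := inferInstance
    have h1 := val p he h' t ν
    rw [deg_of_unit hZ h' ν (unit s h' t ν.gen_mem ((h Q).mono (ν.pt_le Q))),
      finsum_eq_zero_of_forall_eq_zero fun P => ν.ord_unit P (unit s h' t (ν.pt_mem P) (h P)),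
      Int.cast_zero] at h1
    exact (mul_eq_zero.1 h1).resolve_left (by exact_mod_cast hm'.ne')
  · obtain ⟨Q⟩ : Nonempty (Place k ν.L) := inferInstance
    obtain ⟨m, e, hm, d, c, u, l⟩ := hx.2 _ (ν.pt_mem Q)
    obtain ⟨m', e', hm', h, t⟩ := p.up e d.1
    have h1 := val p d.1 h t ν
    rw [c, map_nsmul, map_nsmul, nsmul_eq_mul, ← mul_assoc] at h1
    by_contra hn
    have h2 : ν.deg e' ≤ 0 := by
      have : (ν.deg e' : ℝ) ≤ 0 := h1 ▸ mul_nonpos_of_nonneg_of_nonpos (by positivity) (not_lt.1 hn)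
      exact_mod_cast this
    exact hν (ratPt hZ ν (fun P => BB_le (s.md.kr _ (ν.pt_mem P)) (un s h t hm' (ν.pt_mem P)
      (unit_pt hZ h (eff s h t d) ν (unit s h t ν.gen_mem (u.mono (ν.pt_le Q))) h2 P))) Q l)

end Pool.Agent.MP_20d318_ag.AM
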