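import Pool.Agent.MP_20d318_ag.AM.MSpec

/-! Row DET: an ample class determines the model. -/

set_option autoImplicit false

namespace Pool.Agent.MP_20d318_ag.AM

open Pool.Agent.MP_fd6584_ag Pool.Agent.MP_fd6584_ag.Fn Pool.Agent.CBk
open Pool.Agent.MP_fd6584_ag.AG hiding deg_inv deg_congr deg_of_unit deg_mul deg_prod deg_zpow
  deg_eq_zero deg_nonneg deg_div deg_pow

namespace DetA

variable {k K : Type} [Field k] [Field K] [Algebra k K] {X Z Z' : Set (Subalgebra k K)}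
  {O O' V : Subalgebra k K} {ρ : AG.N1 X}

theorem le (r : Ref X) (h : Kr X O) (h' : Kr X O') (d : Dom O V) (d' : Dom O' V)
    (l : LcAt X ρ O) (l' : SaAt X ρ O') : O ≤ O' := by
  obtain ⟨m, e, hm, he, hc, hu, hf⟩ := l
  obtain ⟨m', e', hm', he', hc', hu'⟩ := l'
  obtain ⟨β, a, b, h0, ha, -, hβ⟩ := r.bet ρ e e' m m' hm hm' he.1 he'.1 hc hc'
  have h1 : β ∈ O := BB_le h hu fun P hP h => mem_plO_ord.2 (by
    rw [hβ P hP, h, mul_zero, sub_zero]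
    exact mul_nonneg (Int.natCast_nonneg b) (he'.ord hP))
  have h2 : β⁻¹ ∈ O' := BB_le h' hu' fun P hP h => mem_plO_ord.2 (by
    rw [P.ord_inv, hβ P hP, h, mul_zero, zero_sub, neg_neg]
    exact mul_nonneg (Int.natCast_nonneg a) (he.ord hP))
  have h3 : IsU O' β⁻¹ := d'.2 _ h2 ⟨inv_ne_zero h0, d'.1 h2, by rw [inv_inv]; exact d.1 h1⟩
  have h4 : BB X e ≤ O' := BB_le h' fun P hP hle => by
    have h5 := ((isU_plO' P).1 ⟨h3.1, hle h3.2.1, hle h3.2.2⟩).2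
    rw [P.ord_inv, hβ P hP, hu' P hP hle, mul_zero, zero_sub, neg_neg] at h5
    exact (mul_eq_zero.1 h5).resolve_left (Int.natCast_ne_zero.2 ha.ne')
  intro f hO
  obtain ⟨u, hu, w, hw, hU, rfl⟩ := hf hO
  rw [div_eq_mul_inv]
  exact O'.mul_mem (h4 hu) (d'.2 w (h4 hw) ⟨hU.1, d.1 hU.2.1, d.1 hU.2.2⟩).2.2

theorem sub (r : Ref X) (h : Md X Z) (h' : Md X Z') (l : Lc X Z ρ) (l' : Lc X Z' ρ) : Z ⊆ Z' := by
  intro O hO
  obtain ⟨V, hV, d⟩ := exists_val (h.good.loc O hO)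
  obtain ⟨O', hO', d'⟩ := h'.good.cpl V hV
  rw [le_antisymm (le r (h.kr O hO) (h'.kr O' hO') d d' (l.2 O hO) (l'.2 O' hO').sa)
    (le r (h'.kr O' hO') (h.kr O hO) d' d (l'.2 O' hO') (l.2 O hO).sa)]
  exact hO'

end DetA

theorem det_stmt : DetStmt := fun _ _ _ _ _ _ _ r _ _ h h' _ l l' =>
  (DetA.sub r h h' l l').antisymm (DetA.sub r h' h l' l)

end Pool.Agent.MP_20d318_ag.AM
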