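import Pool.Agent.MP_20d318_ag.AM.BSpec

/-! The effective cone of the surface. -/

set_option autoImplicit false
set_option linter.unusedSectionVars false

namespace Pool.Agent.MP_20d318_ag.AM

open Pool.Agent.MP_20d318_ag.CB
open Pool.Agent.MP_fd6584_ag.MV (LA LM S1L Is Pe Bi Bo Ab ob_smul mem_Ab Po_F Ko_F isCone_Ab actL)
open Pool.Agent.MP_20d318_ag.Lat (cone IsCone isCone_cone subset_cone cone_mono)

namespace EfbA

variable {ι κ : Type} [Fintype ι] [Fintype κ] {Λ : Ld ι κ}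

theorem fin_sub {P : Set (ι → ℤ)} {R : Set (ι → ℝ)} (hR : R.Finite) (h : R ⊆ cone (toR '' P)) :
    ∃ T ⊆ P, T.Finite ∧ cone R ⊆ cone (toR '' T) := by
  choose! Q q1 q2 using fun r (hr : r ∈ R) => exists_fin (h hr)
  refine ⟨P ∩ toR ⁻¹' (⋃ r ∈ R, (Q r : Set (ι → ℝ))), Set.inter_subset_left,
    ((hR.biUnion fun r _ => (Q r).finite_toSet).preimage fun _ _ _ _ => toR_inj).inter_of_right _,
    (isCone_cone _).cone_subset fun r hr => cone_mono (fun y hy => ?_) (q2 r hr)⟩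
  obtain ⟨c, c1, rfl⟩ := q1 r hr hy
  exact ⟨c, ⟨c1, Set.mem_biUnion hr hy⟩, rfl⟩

theorem pos (h : LA Λ) {x : ι → ℝ} (hx : x ∈ cone (toR '' Λ.P)) :
    0 ≤ ip Λ.B x (toR Λ.F) ∧ (ip Λ.B x (toR Λ.F) = 0 → x ∈ Λ.V) := by
  have c : IsCone {x : ι → ℝ | 0 ≤ ip Λ.B x (toR Λ.F) ∧ (ip Λ.B x (toR Λ.F) = 0 → x ∈ Λ.V)} := by
    refine ⟨⟨(ip_zero_left _).ge, fun _ => zero_mem _⟩, fun a ha b hb => ?_, fun t ht a ha => ?_⟩
    · rw [Set.mem_ofPred_eq, ip_add_left]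
      exact ⟨add_nonneg ha.1 hb.1, fun e => add_mem (ha.2 (by linarith [ha.1, hb.1]))
        (hb.2 (by linarith [ha.1, hb.1]))⟩
    · rw [Set.mem_ofPred_eq, ip_smul_left]
      refine ⟨mul_nonneg ht ha.1, fun e => ?_⟩
      rcases mul_eq_zero.1 e with e | e
      · rw [e, zero_smul]
        exact zero_mem _
      · exact Submodule.smul_mem _ _ (ha.2 e)
  refine c.cone_subset ?_ hx
  rintro _ ⟨y, hy, rfl⟩
  rw [Set.mem_ofPred_eq, ip_toR]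
  refine ⟨?_, fun e => Submodule.subset_span ⟨y, ⟨hy, by exact_mod_cast e⟩, rfl⟩⟩
  rw [ip_comm h.ns.sym]
  exact_mod_cast h.l1.pn _ (h.ns.memC _) h.ns.sq0 y hy

theorem key [DecidableEq ι] (m : LM) (h : LA Λ) {G : Set (Matrix ι ι ℤ)} (h1 : 1 ∈ G)
    (hi : ∀ ρ ∈ G, ∃ ρ', Is Λ ρ ρ') (ht : ip Λ.B Λ.F Λ.F = 0 → ∃ N : ℕ, 0 < N ∧ ∀ x,
      ip Λ.B x Λ.F = 0 → ∃ ρ ∈ G, Λ.Tl ρ ((N : ℤ) • x)) {R : Set (ι → ℝ)} (hR : R.Finite)
    (hP : R ⊆ cone (toR '' Λ.P)) : Pe Λ ∧ ∃ S, ∃ G' ⊆ G, Bi Λ S G' ∧ R ⊆ S ∧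
      ∀ x ∈ cone (toR '' Λ.P), ip Λ.B x (toR Λ.F) = 0 → x ∈ S := by
  obtain ⟨hV, hG⟩ := m.vert ι κ Λ h
  obtain ⟨p1, p2⟩ := m.peA ι κ Λ h
  rcases h.ns.sq0.lt_or_eq with hF | hF
  · obtain ⟨a1, a2⟩ := m.biA ι κ Λ h hF
    exact ⟨p1 (a1 _ hG), _, _, Set.singleton_subset_iff.2 h1, a2, Set.subset_univ _,
      fun _ _ _ => trivial⟩
  replace hF := hF.symm
  obtain ⟨-, T, hT⟩ := endB1_stmt ι κ Λ h.ns h.hg h.l1 hF
  obtain ⟨N, hN, ha⟩ := ht hF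
  obtain ⟨b, hb⟩ := ((hR.prod T.finite_toSet).image fun q =>
    |ip Λ.B q.1 (toR q.2)| / ip Λ.B q.1 (toR Λ.F)).bddAbove
  obtain ⟨n₀, hn⟩ := exists_nat_ge b
  obtain ⟨M, hM⟩ : ∃ M : ℤ, M = N * (n₀ + 1) := ⟨_, rfl⟩
  have M0 : (n₀ : ℤ) < M := by
    have : (1 : ℤ) ≤ N := by exact_mod_cast hN
    rw [hM]
    nlinarith [Int.natCast_nonneg n₀]
  have M1 : 0 < M := (Int.natCast_nonneg n₀).trans_lt M0
  have hT' := ob_smul hT M1.ne'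
  have hc := fun X' => m.cut m.low ι κ Λ X' h hF
  have vert : ∀ x ∈ cone (toR '' Λ.P), ip Λ.B x (toR Λ.F) = 0 →
      x ∈ Bo Λ (T.image fun x => M • x) := fun x hx e => ⟨fun y hy => by
    rw [hT'.perp y hy x ((pos h hx).2 e), e, abs_zero, mul_zero], e.ge⟩
  refine ⟨fun L hL => ?_, _, G, le_rfl, m.biB ι κ Λ _ G h hF hT' (hc _ hT').1 (hc _ hT').2 h1
    (fun n => ?_) hi, fun r hr => ?_, vert⟩
  · have h0 : 0 ≤ ip Λ.B L (toR Λ.F) := ip_comm (R := ℝ) h.ns.sym _ L ▸ hL _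
      (Ko_F hF.ge ▸ (h.l1.nefr _).2 (h.l1.pn _ (h.ns.memC _) hF.ge))
    rcases h0.lt_or_eq with h0 | h0
    · exact m.peB ι κ Λ T h hF hT (fun X' a => (hc X' a).2) hG (m.nefF ι κ Λ T h hF hT hc hG) L hL h0
    · exact p2 m.low hF hV hG L hL h0.symm
  · obtain ⟨ρ, a2, a1⟩ := ha (∑ x ∈ T, (n (M • x) * (n₀ + 1)) • x) (by
      rw [ip_sum_left]
      refine Finset.sum_eq_zero fun x hx => ?_
      have := hT.perp x hx _ (Submodule.subset_span ⟨Λ.F, ⟨h.ns.memC _, hF⟩, rfl⟩)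
      rw [ip_toR, Int.cast_eq_zero] at this
      rw [ip_smul_left, ip_comm h.ns.sym, this, mul_zero])
    refine ⟨ρ, a2, ?_⟩
    have e : ∑ x ∈ T, n (M • x) • M • x = (N : ℤ) • ∑ x ∈ T, (n (M • x) * (n₀ + 1)) • x := by
      rw [Finset.smul_sum]
      refine Finset.sum_congr rfl fun x _ => ?_
      rw [smul_smul, smul_smul, mul_left_comm, ← hM]
    rw [Finset.sum_image fun x _ y _ e => smul_right_injective _ M1.ne' e, e]
    exact a1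
  · rcases (pos h (hP hr)).1.lt_or_eq with h0 | h0
    · refine ⟨fun y hy => ?_, h0.le⟩
      obtain ⟨x, hx, rfl⟩ := Finset.mem_image.1 hy
      have a1 : |ip Λ.B r (toR x)| ≤ n₀ * ip Λ.B r (toR Λ.F) :=
        (div_le_iff₀ h0).1 ((hb ⟨(r, x), ⟨hr, hx⟩, rfl⟩).trans hn)
      have a2 : ((ip Λ.B x x : ℤ) : ℝ) ≤ -1 := by
        exact_mod_cast Int.le_sub_one_of_lt (hT.neg x hx)
      have a3 : (n₀ : ℝ) ≤ M := by exact_mod_cast M0.le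
      have a4 : (0 : ℝ) < M := by exact_mod_cast M1
      rw [toR_zsmul, ip_smul_right, ip_smul_left, ip_smul_right, abs_mul, abs_of_pos a4]
      push_cast
      have a5 : (n₀ : ℝ) ≤ -(M * (ip Λ.B x x : ℤ)) := by nlinarith
      have a6 := mul_le_mul_of_nonneg_left
        (a1.trans (mul_le_mul_of_nonneg_right a5 h0.le)) a4.le
      linarith
    · exact vert r (hP hr) h0.symm

end EfbA

open EfbA in
theorem efb_stmt : EfbStmt := by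
  intro m ι κ _ _ _ Λ G h hs h1 hi ht
  obtain ⟨hV, hG⟩ := m.vert ι κ Λ h
  have main : ∀ S G', Pe Λ → Bi Λ S G' →
      ∃ T ⊆ Λ.P, T.Finite ∧ cone (toR '' Λ.P) ∩ S ⊆ cone (toR '' T) := fun S G' pe b => by
    obtain ⟨R, -, e⟩ := m.rpAb m.dual ι κ Λ S G' h hs b hV hG Λ.F
    obtain ⟨T, t1, t2, t3⟩ := fin_sub R.finite_toSet fun r hr => pe (e.le (subset_cone _ hr)).1
    refine ⟨T, t1, t2, fun x hx => t3 (e.ge ⟨(isCone_Ab _).cone_subset ?_ hx.1, hx.2⟩)⟩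
    rintro _ ⟨c, hc, rfl⟩
    exact mem_Ab (AddSubmonoid.subset_closure ((Po_F h.ns.sq0).ge hc))
  refine ⟨fun R hR hP => ?_, ?_⟩
  · obtain ⟨pe, S, G', -, b, r, -⟩ := key m h h1 hi ht hR hP
    obtain ⟨T, t1, t2, t3⟩ := main S G' pe b
    have c := rp_cone b.rp
    refine ⟨T, t1, t2, fun x hx => t3 ⟨hx.1, c.cone_subset ?_ hx.2⟩⟩
    rintro y (hy | ⟨i, rfl⟩ | ⟨i, rfl⟩)
    · exact r hy
    · have := b.shift 0 c.zero i 1
      rwa [zero_add, one_smul] at this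
    · have := b.shift 0 c.zero i (-1)
      rwa [zero_add, neg_one_smul] at this
  · obtain ⟨pe, S, G', g, b, -, z⟩ := key m h h1 hi ht Set.finite_empty (Set.empty_subset _)
    obtain ⟨T, t1, t2, t3⟩ := main S G' pe b
    refine ⟨T, t1, t2, fun x hx => ?_⟩
    rcases (pos h hx).1.lt_or_eq with h0 | h0
    · obtain ⟨ρ, a1, a2⟩ := b.move x h0
      obtain ⟨ρ', a3⟩ := b.iso ρ a1
      refine ⟨ρ, g a1, t3 ⟨((isCone_cone _).preimage (actL ρ)).cone_subset ?_ hx, a2⟩⟩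
      rintro _ ⟨c, hc, rfl⟩
      exact subset_cone _ ⟨_, a3.mem c hc, toR_act ρ c⟩
    · refine ⟨1, h1, ?_⟩
      rw [act_one]
      exact t3 ⟨hx, z x hx h0.symm⟩

end Pool.Agent.MP_20d318_ag.AM
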