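import Pool.Agent.MP_20d318_ag.AM.MSpec

/-! Row EFC: effective classes in a cone with finitely generated sections. -/

set_option autoImplicit false

namespace Pool.Agent.MP_20d318_ag.AM

open Pool.Agent.MP_fd6584_ag Pool.Agent.MP_fd6584_ag.Fn Pool.Agent.CBk
open Pool.Agent.MP_fd6584_ag.AG hiding deg_inv deg_congr deg_of_unit deg_mul deg_prod deg_zpow
  deg_eq_zero deg_nonneg deg_div deg_pow
open Pool.Agent.MP_20d318_ag.CH (cl cl_mem n1_eq)
open Pool.Agent.MP_20d318_ag.Lat (cone IsCone RP isCone_cone subset_cone)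

theorem efc_stmt : EfcStmt := by
  rintro int k K _ _ _ _ X r S hS ⟨J, _, d, hd, fg⟩
  have g := r.nice.toGood
  refine ⟨cone (Set.range fun j => cl X (d j)), rp_fin (Set.finite_range _)
    (Set.range_subset_iff.2 fun j => cl_mem (hd j).1),
    (isCone_cone _).cone_subset (Set.range_subset_iff.2 fun j => (hd j).ef), fun x hx => ?_⟩
  obtain ⟨Q, q1, q2⟩ := exists_fin hx.1
  obtain ⟨R, r1, r2⟩ := int.two (lt_LL r.fd) (rp_fin Q.finite_toSet fun y hy => by
    obtain ⟨D, -, rfl⟩ := q1 hy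
    exact AddSubgroup.subset_closure ⟨D, rfl⟩) hS
  refine (isCone_cone _).cone_subset (fun y hy => ?_) (r2 ▸ ⟨q2, hx.2⟩ : x ∈ cone (R : Set _))
  have hy' := subset_cone _ hy
  rw [r2] at hy'
  obtain ⟨m, e, m0, he, e1⟩ := r.ef y (r1 hy)
    ((isCone_cone _).cone_subset (q1.trans (subset_cone _)) hy'.1)
  obtain ⟨n, a, μ, n0, -, h⟩ := fg e he (e1 ▸ IsCone.nsmul (rp_cone hS) m hy'.2) ⊤
    fun _ => Or.inl trivial
  have c : ∀ j ∈ Finset.univ, IsCart X (d j ^ a j) := fun j _ => (hd j).1.pow _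
  have e2 := cl_lin g (isCart_prod c) (he.1.pow n) (μ := μ) fun O hO => by
    simpa only [Finset.prod_apply, Pi.pow_apply] using h O hO
  rw [cl_prod g c, cl_pow g he.1, e1] at e2
  refine IsCone.of_nsmul (isCone_cone _) m0 (IsCone.of_nsmul (isCone_cone _) n0 (e2 ▸ ?_))
  refine (isCone_cone _).sum_mem _ _ fun j _ => ?_
  rw [cl_pow g (hd j).1]
  exact IsCone.nsmul (isCone_cone _) _ (subset_cone _ ⟨j, rfl⟩)

end Pool.Agent.MP_20d318_ag.AM
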