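import Pool.Agent.MP_20d318_ag.AM.BSpec

/-! Row FGB: finite generation over the monoids generated by finitely many prime divisors. -/

set_option autoImplicit false
set_option linter.unusedSectionVars false

namespace Pool.Agent.MP_20d318_ag.AM

open Pool.Agent.MP_fd6584_ag.Fn Pool.Agent.CBk
open Pool.Agent.MP_fd6584_ag.AG hiding deg_inv deg_congr deg_of_unit deg_mul deg_prod deg_zpow
  deg_eq_zero deg_nonneg deg_div deg_pow
open Pool.Agent.MP_20d318_ag.CB Pool.Agent.MP_20d318_ag.CB.P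
open Pool.Agent.MP_fd6584_ag.MV (LA LI mem_LI)
open Pool.Agent.MP_20d318_ag.Lat (cone subset_cone le_on_cone)

namespace FgbA

section lat

variable {ι κ : Type} [Fintype ι] [Fintype κ] {Λ : Ld ι κ} {T : Set (ι → ℤ)}

theorem nefs (sol : SolStmt.{0}) (l : LA Λ) (hT : T ⊆ Λ.P) (hf : T.Finite) :
    ∃ Y : Set (ι → ℤ), Y.Finite ∧ (∀ y ∈ Y, Λ.Nef y) ∧ ∀ D ∈ AddSubmonoid.closure T,
      (∀ c ∈ T, 0 ≤ ip Λ.B D c) → ∃ m : ℕ, 0 < m ∧ m • D ∈ AddSubmonoid.closure Y := by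
  obtain ⟨R, h1, h2⟩ := MP_fd6584_ag.MV.rp_cut Λ.B (rp_fin (L := LI ι) (hf.image toR) (by
    rintro _ ⟨c, -, rfl⟩
    exact mem_LI.2 ⟨c, rfl⟩)) hf
  have h3 : toR '' (toR ⁻¹' (R : Set (ι → ℝ))) = R :=
    Set.image_preimage_eq_of_subset fun x hx => mem_LI.1 (h1 hx)
  refine ⟨toR ⁻¹' (R : Set (ι → ℝ)), R.finite_toSet.preimage fun _ _ _ _ => toR_inj,
    fun y hy c hc => ?_, fun D hD h => sol_int sol ?_⟩
  · obtain ⟨a, b⟩ := h2.le (subset_cone _ hy)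
    have : (0 : ℝ) ≤ ip Λ.B (toR y) (toR c) := by
      by_cases q : c ∈ T
      · exact b c q
      · refine le_on_cone (f := 0) (g := MP_fd6584_ag.MV.ipL Λ.B (toR c)) ?_ _ a
        rintro _ ⟨t, ht, rfl⟩
        rw [MP_fd6584_ag.MV.ipL_apply, ip_toR, LinearMap.zero_apply]
        exact Int.cast_nonneg (l.ns.pos t (hT ht) c hc fun e => q (e ▸ ht))
    rw [ip_toR] at this
    exact_mod_cast this
  · rw [h3, h2]
    refine ⟨closure_sub ?_, fun c hc => by rw [ip_toR]; exact Int.cast_nonneg (h c hc)⟩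
    exact (AddMonoidHom.map_mclosure (⟨⟨toR, toR_zero⟩, toR_add⟩ : (ι → ℤ) →+ ι → ℝ) T).le
      ⟨D, hD, rfl⟩

theorem drop (l : LA Λ) (hT : T ⊆ Λ.P) {c D : ι → ℤ} (hc : c ∈ Λ.P)
    (hD : D ∈ AddSubmonoid.closure T) : 0 ≤ ip Λ.B D c ∨ D - c ∈ AddSubmonoid.closure T := by
  induction hD using AddSubmonoid.closure_induction with
  | mem x hx =>
    rcases eq_or_ne x c with rfl | q
    · exact Or.inr (by rw [sub_self]; exact zero_mem _)
    · exact Or.inl (l.ns.pos x (hT hx) c hc q)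
  | zero => exact Or.inl (ip_zero_left c).ge
  | add x y hx hy a b =>
    rcases a with a | a
    · rcases b with b | b
      · exact Or.inl (by rw [ip_add_left]; exact add_nonneg a b)
      · exact Or.inr (by rw [add_sub_assoc]; exact add_mem hx b)
    · exact Or.inr (by rw [add_sub_right_comm]; exact add_mem a hy)

end lat

variable {k M I J : Type} [Field k] [Field M] [Algebra k M] [Fintype I] [Fintype J]
  {S : Sd k M I} {d : J → Subalgebra k M → M} {D D' : I → ℤ} {t t' : M} {O V : Subalgebra k M}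

variable (S d) in
/-- monomials -/
def Mo (D : I → ℤ) (t : M) : Prop := ∃ a : J → ℕ, ∀ O ∈ S.T, ∏ j, d j O ^ a j = t * S.lb D O

theorem lb_nsmul (m : ℕ) : S.lb (m • D) O = S.lb D O ^ m := by
  rw [← natCast_zsmul, S.lb_zsmul, zpow_natCast]

theorem Mo.mul (h : A1 S) (a : Mo S d D t) (b : Mo S d D' t') : Mo S d (D + D') (t * t') := by
  obtain ⟨a, ha⟩ := a
  obtain ⟨b, hb⟩ := b
  refine ⟨a + b, fun O hO => ?_⟩
  simp only [Pi.add_apply, pow_add, Finset.prod_mul_distrib]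
  rw [ha O hO, hb O hO, S.lb_add (h.gne O hO), mul_mul_mul_comm]

theorem Mo.pow (a : Mo S d D t) (m : ℕ) : Mo S d (m • D) (t ^ m) := by
  obtain ⟨a, ha⟩ := a
  refine ⟨fun j => a j * m, fun O hO => ?_⟩
  simp only [pow_mul, Finset.prod_pow]
  rw [ha O hO, lb_nsmul, mul_pow]

theorem mo_one {j : J} (h : d j = fun O => t * S.lb D O) : Mo S d D t := by
  classical
  refine ⟨Pi.single j 1, fun O _ => ?_⟩
  rw [Finset.prod_eq_single j (fun i _ q => by rw [Pi.single_eq_of_ne q, pow_zero]) (by simp),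
    Pi.single_eq_same, pow_one, h]

variable (S d) in
/-- a multiple has a monomial that is a unit -/
def Go (O : Subalgebra k M) (D : I → ℤ) : Prop :=
  ∃ (m : ℕ) (t : M), 0 < m ∧ Mo S d (m • D) t ∧ IsU O (t * S.lb (m • D) O)

theorem go_cl (h : A1 S) (hO : O ∈ S.T) {Y : Set (I → ℤ)} (hY : ∀ y ∈ Y, Go S d O y)
    (hD : D ∈ AddSubmonoid.closure Y) : Go S d O D := by
  induction hD using AddSubmonoid.closure_induction with
  | mem x hx => exact hY x hx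
  | zero =>
    refine ⟨1, 1, one_pos, ⟨0, fun O _ => ?_⟩, ?_⟩ <;> rw [smul_zero, S.lb_zero, one_mul]
    · simp
    · exact isU_one
  | add x y _ _ a b =>
    obtain ⟨m, t, a1, a2, a3⟩ := a
    obtain ⟨n, u, b1, b2, b3⟩ := b
    have e : (m * n) • (x + y) = n • m • x + m • n • y := by
      rw [smul_add, smul_smul, smul_smul, mul_comm n m]
    refine ⟨m * n, t ^ n * u ^ m, mul_pos a1 b1, e ▸ (a2.pow n).mul h (b2.pow m), ?_⟩
    rw [e, S.lb_add (h.gne O hO), lb_nsmul n, lb_nsmul (D := n • y) m, mul_mul_mul_comm,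
      ← mul_pow, ← mul_pow]
    exact (a3.pow n).mul (b3.pow m)

theorem mon_go (h : A1 S) (hO : O ∈ S.T) (hV : O ≤ V) {n : ℕ} (hn : 0 < n) (g : Go S d O (n • D))
    {φ : M} (hφ : φ ∈ S.Sec D) (h0 : φ ≠ 0) : Mon S.T d V (S.lb D) φ := by
  obtain ⟨m, t, a1, ⟨a, a2⟩, a3⟩ := g
  rw [smul_smul] at a2 a3
  have t0 : t ≠ 0 := left_ne_zero_of_mul a3.1
  refine ⟨m * n, a, φ ^ (m * n) / t, mul_pos a1 hn, hV ?_, fun R hR => ?_⟩
  · have := a3.div_mem (O.pow_mem (hφ O hO) (m * n))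
    rwa [lb_nsmul, mul_pow, mul_div_mul_right _ _ (pow_ne_zero _ (S.lb_ne (h.gne O hO) D))] at this
  · rw [a2 R hR, lb_nsmul, ← mul_assoc, div_mul_cancel₀ _ t0, ← mul_pow,
      div_self (pow_ne_zero _ (mul_ne_zero h0 (S.lb_ne (h.gne R hR) D)))]
    exact isU_one

theorem mon_up (h : A1 S) {φ : M} (a : Mo S d D' t) (b : Mon S.T d V (S.lb (D - D')) (φ / t)) :
    Mon S.T d V (S.lb D) φ := by
  obtain ⟨m, b, μ, b1, b2, b3⟩ := b
  obtain ⟨a, ha⟩ := a.pow m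
  refine ⟨m, b + a, μ, b1, b2, fun O hO => ?_⟩
  refine Eq.subst (motive := IsU O) ?_ (b3 O hO)
  simp only [Pi.add_apply, pow_add, Finset.prod_mul_distrib]
  rw [ha O hO, lb_nsmul, S.lb_sub (h.gne O hO), div_mul_div_comm, div_pow, div_div_eq_mul_div,
    mul_pow t, mul_assoc]

end FgbA

open FgbA in
theorem fgb_stmt : FgbStmt := by
  intro sol cpt k M I κ _ _ _ _ _ _ _ p h l t se T hT hf
  have a1 := h.all.a1
  obtain ⟨Y, y1, y2, y3⟩ := nefs sol l hT hf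
  have ed : ∀ c, ∀ s ∈ p.Sec c, s ≠ 0 → Ed p.T fun O => s * p.lb c O :=
    fun c s a b => ⟨a1.pcart c s b, a⟩
  choose! F f1 f2 f3 using fun (y : I → ℤ) (hy : y ∈ Y) => cpt k M p.T a1.nice.toFine
    {e | ∃ (m : ℕ) (s : M), 0 < m ∧ s ∈ p.Sec (m • y) ∧ s ≠ 0 ∧ e = fun O => s * p.lb (m • y) O}
    (by rintro _ ⟨m, s, -, -, b, rfl⟩; exact a1.pcart _ s b) fun O hO =>
      let ⟨m, a, s, b, c⟩ := se y (y2 y hy) O hO
      ⟨_, ⟨m, s, a, b, left_ne_zero_of_mul c.1, rfl⟩, c⟩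
  choose! φ hφ using fun (c : I → ℤ) (hc : c ∈ T) => (hT hc : ∃ φ P, p.Prm c φ P)
  have fin : ((⋃ y ∈ Y, F y) ∪ (fun c O => φ c * p.lb c O) '' T).Finite :=
    (y1.biUnion f2).union (hf.image _)
  let this := fin.fintype
  refine ⟨_, this, Subtype.val, ?_, ?_⟩
  · rintro ⟨e, he | ⟨c, hc, rfl⟩⟩
    · obtain ⟨y, hy, he⟩ := Set.mem_iUnion₂.1 he
      obtain ⟨m, s, -, a, b, rfl⟩ := f1 y hy he
      exact ed _ s a b
    · obtain ⟨P, hP⟩ := hφ c hc
      exact ed c _ (a1.pmem c _ P hP) hP.1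
  have h0 : ∀ D ∈ AddSubmonoid.closure T, 0 ≤ ip p.B p.h D := fun D hD =>
    l.l1.efn _ (fun c hc => (a1.hpos c hc).le) D (AddSubmonoid.closure_mono hT hD)
  suffices ∀ n : ℕ, ∀ D ∈ AddSubmonoid.closure T, ip p.B p.h D < n → ∀ ψ ∈ p.Sec D, ψ ≠ 0 →
      ∀ V, IsVal V → Mon p.T (J := ↑((⋃ y ∈ Y, F y) ∪ (fun c O => φ c * p.lb c O) '' T))
        Subtype.val V (p.lb D) ψ from
    fun D hD => this ((ip p.B p.h D).toNat + 1) D hD (by omega)
  intro n
  induction n with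
  | zero => exact fun D hD q => absurd (h0 D hD) (by omega)
  | succ n ih =>
    intro D hD q ψ s1 s2 V hV
    by_cases r : ∀ c ∈ T, 0 ≤ ip p.B D c
    · obtain ⟨m, m1, m2⟩ := y3 D hD r
      obtain ⟨O, hO, d⟩ := a1.nice.cpl V hV
      refine mon_go a1 hO d.1 m1 (go_cl a1 hO (fun y hy => ?_) m2) s1 s2
      obtain ⟨e, e1, e2⟩ := f3 y hy O hO
      obtain ⟨m, s, a, -, -, rfl⟩ := f1 y hy e1
      exact ⟨m, s, a, mo_one (j := ⟨_, Or.inl (Set.mem_biUnion hy e1)⟩) rfl, e2⟩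
    · push Not at r
      obtain ⟨c, hc, r⟩ := r
      obtain ⟨P, hP⟩ := hφ c hc
      refine mon_up a1 (mo_one (j := ⟨_, Or.inr ⟨c, hc, rfl⟩⟩) rfl)
        (ih (D - c) ((drop l hT (hT hc) hD).resolve_left r.not_ge) ?_ _ (t.van c _ P hP D ψ s1 r)
          (div_ne_zero s2 hP.1) V hV)
      have := a1.hpos c (hT hc)
      rw [ip_sub_right]
      omega

end Pool.Agent.MP_20d318_ag.AM
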