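import Pool.Agent.MP_20d318_ag.AM.MSpec

/-! The fibres are closed and contain the centres of valuations. -/

set_option autoImplicit false
set_option linter.unusedSectionVars false

namespace Pool.Agent.MP_20d318_ag.AM

open Pool.Agent.MP_fd6584_ag Pool.Agent.MP_fd6584_ag.Fn Pool.Agent.CBk
open Pool.Agent.MP_fd6584_ag.AG hiding deg_inv deg_congr deg_of_unit deg_mul deg_prod deg_zpow
  deg_eq_zero deg_nonneg deg_div deg_pow
open Pool.Agent.MP_20d318_ag.CH (cl)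

namespace FibaA

variable {k K : Type} [Field k] [Field K] [Algebra k K] {X : Set (Subalgebra k K)}
  {e : Subalgebra k K → K} {O : Subalgebra k K} {x : AG.N1 X} {m : ℕ}

theorem beta (r : Ref X) (hm : 0 < m) (he : Ed X e) (hx : cl X e = m • x) (hk : Kr X O)
    (h : SaAt X x O) : ∃ β : K, β ≠ 0 ∧ β ∈ BB X e ∧ β⁻¹ ∈ O ∧ (β ∈ O → Un X e O) := by
  obtain ⟨m', e', hm', he', hx', hu⟩ := h
  obtain ⟨β, a, b, h0, ha, -, hβ⟩ := r.bet x e e' m m' hm hm' he.1 he'.1 hx hx'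
  refine ⟨β, h0, fun P h1 h2 => mem_plO_ord.2 ?_, hk _ fun P h1 h2 => mem_plO_ord.2 ?_,
    fun hO P h1 h2 => ?_⟩
  · rw [hβ P h1, h2, mul_zero, sub_zero]
    exact mul_nonneg (Int.natCast_nonneg b) (he'.ord h1)
  · rw [P.ord_inv, hβ P h1, hu P h1 h2, mul_zero, zero_sub, neg_neg]
    exact mul_nonneg (Int.natCast_nonneg a) (he.ord h1)
  · have h3 := mem_plO_ord.1 (h2 hO)
    rw [hβ P h1, hu P h1 h2, mul_zero, zero_sub, neg_nonneg] at h3
    exact le_antisymm (nonpos_of_mul_nonpos_right h3 (by exact_mod_cast ha)) (he.ord h1)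

end FibaA

open FibaA in
theorem fiba_stmt : FibaStmt := by
  intro k K _ _ _ _ X r Z md x e m hm he hx hs O hO hu
  have hB : BB X e ≤ O := BB_le (md.kr O hO) hu
  refine ⟨fun V hV hd => ?_, fun hr C O'' hO'' hC h => ?_⟩
  · obtain ⟨O', hO', hd'⟩ := md.good.cpl V hV
    obtain ⟨β, h0, h1, h2, h3⟩ := beta r hm he hx (md.kr O' hO') (hs O' hO')
    have hu' : Un X e O' := h3 (by
      simpa using (hd'.2 _ h2 (IsU.inv ⟨h0, hd.1 (le_fr h1), hd'.1 h2⟩)).inv_mem)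
    exact ⟨O', ⟨hO', hu', fun b hb hb' => ⟨BB_le (md.kr O' hO') hu' hb, fun h4 =>
      hb'.2 ((hd.2 b (le_fr hb) (h4.mono hd'.1)).mono (fr_le hB))⟩⟩, hd'.1⟩
  · obtain ⟨β, h0, h1, h2, h3⟩ := beta r hm he hx (md.kr O'' hO'') (hs O'' hO'')
    obtain ⟨u, hu1, w, hw1, hw, huw⟩ := hC.2.2 _ h2
    obtain ⟨c, hc⟩ := hr β (hB h1)
    have hβ : β = w / u := by rw [← inv_div, ← huw, inv_inv]
    have hu0 : u ≠ 0 := fun h4 => h0 (by rw [hβ, h4, div_zero])
    have h4 : u * (β - algebraMap k K c) = w - algebraMap k K c * u := by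
      rw [hβ, mul_sub, mul_div_cancel₀ _ hu0, mul_comm]
    have h5 := h _ (C.sub_mem hw1 (C.mul_mem (C.algebraMap_mem c) hu1)) fun O' a b => h4 ▸
      mx_mul_left (b hu1) (a.2.2 _ ((BB X e).sub_mem h1 ((BB X e).algebraMap_mem c)) hc)
    have h6 : IsU O'' u := isU_of_not_mx (hC.2.1 hu1) fun h7 => hw.not_mx (by
      simpa using mx_add hC.1 h5 (mx_mul_left (O''.algebraMap_mem c) h7))
    have hu' : Un X e O'' := h3 (hβ ▸ h6.div_mem hw.mem)
    refine ⟨hO'', hu', fun b hb hb' => ?_⟩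
    obtain ⟨u', hu2, w', hw2, hw', huw'⟩ := hC.2.2 _ (BB_le (md.kr O'' hO'') hu' hb)
    have h7 : b * w' = u' := by rw [huw', div_mul_cancel₀ _ hw'.1]
    rw [huw']
    exact mx_div (h _ hu2 fun O' a b' => h7 ▸ mx_mul_right (a.2.2 b hb hb') (b' hw2)) hw'

end Pool.Agent.MP_20d318_ag.AM
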