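import Pool.Agent.MP_20d318_ag.AM.MSpec

/-! Row HYP: the hyperplane class of a projective small modification. -/

set_option autoImplicit false
set_option linter.unusedSectionVars false

namespace Pool.Agent.MP_20d318_ag.AM

open Pool.Agent.MP_fd6584_ag Pool.Agent.MP_fd6584_ag.Fn Pool.Agent.CBk
open Pool.Agent.MP_fd6584_ag.AG hiding deg_inv deg_congr deg_of_unit deg_mul deg_prod deg_zpow
  deg_eq_zero deg_nonneg deg_div deg_pow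
open Pool.Agent.MP_20d318_ag.CH (cl cl_val cl_mem cl_eff n1_ext n1_eq)

namespace HypA

variable {k K : Type} [Field k] [Field K] [Algebra k K] {J : Type}

theorem gn_chart (𝒞 : Pj.Charts k K J) {j : J} {O : Subalgebra k K} (h : 𝒞.B j ≤ O) :
    Gn (Set.range 𝒞.f) O (𝒞.f j) :=
  gn_of_mem ⟨j, rfl⟩ (𝒞.f_ne j) (by rintro _ ⟨i, rfl⟩; exact h (𝒞.ratio i j))

theorem gn_pts (𝒞 : Pj.Charts k K J) {O : Subalgebra k K} (h : O ∈ Sch.pts 𝒞) :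
    Gn (Set.range 𝒞.f) O (gn (Set.range 𝒞.f) O) := by
  obtain ⟨j, hj⟩ := Set.mem_iUnion.1 h
  exact gn_spec (gn_chart 𝒞 hj.2.1).prin

end HypA

open HypA in
theorem hyp_stmt : HypStmt := by
  intro k K _ _ _ _ X r Z s u
  obtain ⟨J, _, 𝒞, hZ⟩ := s.ch
  have hX : Good X := r.nice.toGood
  have hγ : IsCart Z (gn (Set.range 𝒞.f)) :=
    isCart_of_gn (Set.finite_range _) fun O hO => gn_pts 𝒞 (hZ ▸ hO)
  obtain ⟨g, hg, hm⟩ := u.dn _ hγ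
  refine ⟨cl X g⁻¹, cl_mem hg.inv, fun O hO => ?_⟩
  obtain ⟨j, hj⟩ := Set.mem_iUnion.1 (show O ∈ Sch.pts 𝒞 from hZ ▸ hO)
  have hG : ∀ P : Place k K, plO P ∈ X →
      Gn (Set.range 𝒞.f) (plO P) (gn (Set.range 𝒞.f) (plO P)) :=
    fun P hP => gn_pts 𝒞 (hZ ▸ (s.pl P).2 hP)
  have ho : ∀ P : Place k K, plO P ∈ X → P.ord (𝒞.f j * g⁻¹ (plO P)) =
      P.ord (𝒞.f j / gn (Set.range 𝒞.f) (plO P)) := fun P hP => by
    have := hm P hP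
    rw [Pi.inv_apply, ← div_eq_mul_inv, P.ord_div (𝒞.f_ne j) (hg.ne hP),
      P.ord_div (𝒞.f_ne j) (hG P hP).ne, this, Nat.cast_one, one_mul]
  have hc : IsCart X fun O => 𝒞.f j * g⁻¹ O := (isCart_const (𝒞.f_ne j)).mul hg.inv
  refine ⟨1, fun O => 𝒞.f j * g⁻¹ O, one_pos, ed_of r.nice hc fun P hP => ?_, ?_,
    fun P hP hle => ?_, fun a ha => ?_⟩
  · rw [ho P hP]
    exact mem_plO_ord.1 ((hG P hP).1 _ ⟨j, rfl⟩)
  · rw [one_smul]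
    exact cl_cmul hX hg.inv (𝒞.f_ne j)
  · rw [ho P hP]
    exact ((isU_plO' P).1 ((gn_chart 𝒞 (hj.2.1.trans hle)).unit (hG P hP))).2
  · have hB : 𝒞.B j ≤ BB X fun O => 𝒞.f j * g⁻¹ O := fun c hc P hP h0 => by
      obtain ⟨i, hi⟩ := Set.mem_iUnion.1 (show plO P ∈ Sch.pts 𝒞 from hZ ▸ (s.pl P).2 hP)
      rw [ho P hP] at h0
      have u1 : IsU (plO P) (𝒞.f j / gn (Set.range 𝒞.f) (plO P)) :=
        (isU_plO' P).2 ⟨div_ne_zero (𝒞.f_ne j) (hG P hP).ne, h0⟩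
      have u2 := u1.mul ((hG P hP).unit (gn_chart 𝒞 hi.2.1))
      rw [div_mul_div_cancel₀ (hG P hP).ne] at u2
      obtain ⟨N, hN⟩ := 𝒞.comp j i c hc
      have := (u2.pow N).div_mem (hi.2.1 hN)
      rwa [mul_div_cancel_left₀ _ (u2.pow N).1] at this
    obtain ⟨b, hb, c, hc, hu, e⟩ := hj.2.2 a ha
    exact ⟨b, hB hb, c, hB hc, hu, e⟩

end Pool.Agent.MP_20d318_ag.AM
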