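import Pool.Agent.MP_20d318_ag.AM.LSpec

/-! Rational polyhedral cones: the rows SOL, EXT, INT, RAY. -/

set_option autoImplicit false

namespace Pool.Agent.MP_20d318_ag.AM

open Pool.Agent.MP_20d318_ag.Lat

universe u

namespace Sol

variable {N : Type u} [AddCommGroup N] [Module ℝ N] {L : AddSubgroup N}

/-- Integral vectors. -/
def zz (ι : Type*) : AddSubgroup (ι → ℝ) where
  carrier := {v | ∀ i, ∃ z : ℤ, v i = z}
  zero_mem' _ := ⟨0, by simp⟩
  add_mem' {a b} ha hb i := by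
    obtain ⟨x, hx⟩ := ha i
    obtain ⟨y, hy⟩ := hb i
    exact ⟨x + y, by simp [hx, hy]⟩
  neg_mem' {a} ha i := by
    obtain ⟨x, hx⟩ := ha i
    exact ⟨-x, by simp [hx]⟩

theorem sum_mem {ι : Type*} [Fintype ι] {w : ι → N} (hw : ∀ i, w i ∈ L) {v : ι → ℝ}
    (hv : v ∈ zz ι) : ∑ i, v i • w i ∈ L := by
  refine L.sum_mem fun i _ => ?_
  obtain ⟨z, hz⟩ := hv i
  rw [hz, Int.cast_smul_eq_zsmul]
  exact L.zsmul_mem (hw i) z

/-- The cone of the nonnegative relations is rational polyhedral. -/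
theorem ker (l : Lt L) {ι : Type*} [Fintype ι] {w : ι → N} (hw : ∀ i, w i ∈ L) :
    RP (zz ι) {v | (∀ i, 0 ≤ v i) ∧ ∑ i, v i • w i = 0} := by
  classical
  obtain ⟨Cv, hi, hs⟩ := l.sep
  have := l.fd
  obtain ⟨k, c, hc, hcs⟩ := exists_sep Cv hs
  have h0 : RP (zz ι) {v | ∀ i, 0 ≤ v i} := by
    refine ⟨Finset.univ.image fun i => Pi.single i 1, ?_, Set.Subset.antisymm ?_ ?_⟩
    · intro x hx
      obtain ⟨i, -, rfl⟩ := Finset.mem_image.1 hx
      intro j
      by_cases h : j = i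
      · exact ⟨1, by simp [h]⟩
      · exact ⟨0, by simp [h]⟩
    · intro x hx i
      refine le_on_cone (f := 0) (g := LinearMap.proj i) (fun r hr => ?_) x hx
      obtain ⟨j, -, rfl⟩ := Finset.mem_image.1 hr
      by_cases h : i = j <;> simp [h]
    · intro v hv
      rw [pi_eq_sum_univ' v]
      exact (isCone_cone _).sum_mem _ _ fun i _ => (isCone_cone _).smul _ (hv i) _
        (subset_cone _ (Finset.mem_coe.2 (Finset.mem_image.2 ⟨i, Finset.mem_univ i, rfl⟩)))
  let φ : (ι → ℝ) →ₗ[ℝ] N := Fintype.linearCombination ℝ w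
  have hφ : ∀ v, φ v = ∑ i, v i • w i := fun v => Fintype.linearCombination_apply _ _ _
  have h1 := h0.inter_fin (T := Set.range (fun j => c j ∘ₗ φ) ∪ Set.range fun j => -(c j ∘ₗ φ))
    ((Set.finite_range _).union (Set.finite_range _)) (by
      rintro _ (⟨j, rfl⟩ | ⟨j, rfl⟩) v hv
      · exact hi _ (hc j) _ (hφ v ▸ sum_mem hw hv)
      · obtain ⟨z, hz⟩ := hi _ (hc j) _ (hφ v ▸ sum_mem hw hv)
        exact ⟨-z, by simp [hz]⟩)
  obtain ⟨R, a, b⟩ := h1
  refine ⟨R, a, b.trans (Set.ext fun v => and_congr_right fun _ => ⟨fun h => ?_, fun h => ?_⟩)⟩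
  · rw [← hφ]
    refine hcs _ fun j => le_antisymm ?_ (h _ (Or.inl ⟨j, rfl⟩))
    simpa using h _ (Or.inr ⟨j, rfl⟩)
  · rw [← hφ] at h
    rintro _ (⟨j, rfl⟩ | ⟨j, rfl⟩) <;> simp [h]

theorem two (l : Lt L) {S T : Set N} (a : RP L S) (b : RP L T) : RP L (S ∩ T) := by
  classical
  obtain ⟨R, hR, rfl⟩ := a
  obtain ⟨R', hR', rfl⟩ := b
  let w : R ⊕ R' → N := Sum.elim (fun r => r) fun r => -r
  let w' : R ⊕ R' → N := Sum.elim (fun r => r) fun _ => 0
  obtain ⟨Q, hQ, hc⟩ := ker l (w := w) (by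
    rintro (r | r)
    · exact hR r.2
    · exact L.neg_mem (hR' r.2))
  let φ : (R ⊕ R' → ℝ) →ₗ[ℝ] N := Fintype.linearCombination ℝ w'
  have hφ : ∀ v, φ v = ∑ i, v i • w' i := fun v => Fintype.linearCombination_apply _ _ _
  have hφ' : ∀ v, φ v = ∑ r : R, v (.inl r) • (r : N) := fun v => by
    simp [hφ, w', Fintype.sum_sum_type]
  refine ⟨Q.image φ, ?_, Set.Subset.antisymm ?_ ?_⟩
  · intro x hx
    obtain ⟨v, hv, rfl⟩ := Finset.mem_image.1 hx
    rw [hφ]
    refine sum_mem ?_ (hQ hv)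
    rintro (r | r)
    · exact hR r.2
    · exact L.zero_mem
  · refine ((isCone_cone _).inter (isCone_cone _)).cone_subset fun x hx => ?_
    obtain ⟨v, hv, rfl⟩ := Finset.mem_image.1 hx
    have h := subset_cone _ (Finset.mem_coe.2 hv)
    rw [hc] at h
    obtain ⟨h1, h2⟩ := h
    have h3 : φ v = ∑ r : R', v (.inr r) • (r : N) := by
      rw [hφ', ← sub_eq_zero, ← h2]
      simp [w, Fintype.sum_sum_type, sub_eq_add_neg]
    refine ⟨?_, ?_⟩
    · rw [hφ']
      exact (isCone_cone _).sum_mem _ _ fun r _ =>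
        (isCone_cone _).smul _ (h1 _) _ (subset_cone _ r.2)
    · rw [h3]
      exact (isCone_cone _).sum_mem _ _ fun r _ =>
        (isCone_cone _).smul _ (h1 _) _ (subset_cone _ r.2)
  · rintro x ⟨h1, h2⟩
    obtain ⟨c, hc1, e1⟩ := mem_cone_fin.1 h1
    obtain ⟨d, hd1, e2⟩ := mem_cone_fin.1 h2
    rw [← Finset.sum_coe_sort R fun r => c r • r] at e1
    rw [← Finset.sum_coe_sort R' fun r => d r • r] at e2
    have h : Sum.elim (fun r : R => c r) (fun r : R' => d r) ∈ cone (Q : Set (R ⊕ R' → ℝ)) := by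
      rw [hc]
      refine ⟨?_, ?_⟩
      · rintro (r | r)
        · exact hc1 r
        · exact hd1 r
      · simp only [w, Fintype.sum_sum_type, Sum.elim_inl, Sum.elim_inr, smul_neg,
          Finset.sum_neg_distrib]
        rw [← e1, ← e2, add_neg_cancel]
    have h' := ((isCone_cone ((Q.image φ : Finset N) : Set N)).preimage φ).cone_subset
      (R := (Q : Set (R ⊕ R' → ℝ))) (fun r hr => subset_cone _
        (Finset.mem_coe.2 (Finset.mem_image.2 ⟨r, hr, rfl⟩))) h
    rw [Set.mem_preimage, hφ'] at h'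
    rw [e1]
    exact h'

end Sol

theorem sol_stmt : SolStmt.{u} := by
  intro N _ _ L l R hR x hx h
  obtain ⟨Q, hQ, h⟩ := exists_fin h
  obtain ⟨c, hc, e⟩ := mem_cone_fin.1 h
  rw [← Finset.sum_coe_sort Q fun r => c r • r] at e
  let w : Option Q → N := fun i => i.elim (-x) fun r => r
  obtain ⟨P, hP, hk⟩ := Sol.ker l (w := w) (by
    rintro (_ | r)
    · exact L.neg_mem hx
    · exact hR (hQ r.2))
  have h1 : (fun i : Option Q => i.elim (1 : ℝ) fun r => c r) ∈ cone (P : Set (Option Q → ℝ)) := by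
    rw [hk]
    refine ⟨?_, ?_⟩
    · rintro (_ | r)
      · exact zero_le_one
      · exact hc r
    · simp only [w, Fintype.sum_option, Option.elim_none, Option.elim_some, one_smul]
      rw [← e, neg_add_cancel]
  have h2 : ∃ v ∈ P, 0 < v none := by
    by_contra hn
    push Not at hn
    have := le_on_cone (f := LinearMap.proj none) (g := 0) (fun r hr => hn r hr) _ h1
    simp only [LinearMap.proj_apply, Option.elim_none, LinearMap.zero_apply] at this
    linarith
  obtain ⟨v, hv, h0⟩ := h2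
  have h3 := subset_cone _ (Finset.mem_coe.2 hv)
  rw [hk] at h3
  choose a ha using fun i => nat_of_int (hP hv i) (h3.1 i)
  refine ⟨a none, by rw [ha] at h0; exact_mod_cast h0, ?_⟩
  have h4 := h3.2
  simp only [w, Fintype.sum_option, Option.elim_none, Option.elim_some, ha,
    Nat.cast_smul_eq_nsmul, smul_neg] at h4
  rw [neg_add_eq_zero] at h4
  rw [h4]
  exact AddSubmonoid.sum_mem _ fun r _ =>
    AddSubmonoid.nsmul_mem _ (AddSubmonoid.subset_closure (hQ r.2)) _

theorem int_stmt : IntStmt.{u} := by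
  intro N _ _ L l S hS 𝒰 hU h
  induction 𝒰, hU using Set.Finite.induction_on with
  | empty => simpa using hS
  | @insert T s _ _ ih =>
    rw [Set.sInter_insert, Set.inter_left_comm]
    exact Sol.two l (h T (Set.mem_insert _ _)) (ih fun T' a => h T' (Set.mem_insert_of_mem _ a))

theorem ray_stmt : RayStmt.{u} := by
  intro N _ _ R x a h
  obtain ⟨c, hc, e⟩ := farkas (N := Module.Dual ℝ N) R (fun r => Module.Dual.eval ℝ N r)
    (Module.Dual.eval ℝ N x) (by
      intro Z hZ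
      rw [Module.Dual.eval_apply]
      by_contra hn
      push Not at hn
      obtain ⟨ε, h1, h2, h3⟩ := h (-Z x / (|Z a| + 1)) (div_pos (by linarith) (by positivity))
      have h4 := le_on_cone (f := 0) (g := Z) (fun r hr => hZ r hr) _ h3
      rw [le_div_iff₀ (by positivity)] at h2
      simp only [LinearMap.zero_apply, map_add, map_smul, smul_eq_mul] at h4
      nlinarith [le_abs_self (Z a)])
  refine mem_cone_fin.2 ⟨c, hc, sub_eq_zero.1 ?_⟩
  refine (Module.forall_dual_apply_eq_zero_iff ℝ _).1 fun Z => ?_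
  have := e Z
  simp only [Module.Dual.eval_apply] at this
  simp [this]

theorem ext_stmt : ExtStmt.{u} := by
  intro sol N W _ _ _ _ L l F
  have := l.fd
  obtain ⟨B, hB, -, hs, hi⟩ := Submodule.exists_finset_span_eq_linearIndepOn ℝ (L : Set N)
  obtain ⟨Ψ, hΨ⟩ : ∃ Ψ : N →ₗ[ℝ] W, ∀ b : B, Ψ b = F ⟨b, hB b.2⟩ := by
    have hi' : LinearIndependent ℝ fun b : B => (b : N) := hi
    obtain ⟨Ψ, h⟩ := LinearMap.exists_extend
      ((Module.Basis.span hi').constr ℝ fun b : B => F ⟨b, hB b.2⟩)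
    refine ⟨Ψ, fun b => ?_⟩
    have := LinearMap.congr_fun h (Module.Basis.span hi' b)
    rw [Module.Basis.constr_basis, LinearMap.comp_apply, Submodule.subtype_apply,
      Module.Basis.span_apply] at this
    exact this
  refine ⟨Ψ, fun x => ?_⟩
  have h1 : (x : N) ∈ cone ((B : Set N) ∪ -(B : Set N)) := by
    have : (x : N) ∈ Submodule.span ℝ (B : Set N) := hs ▸ Submodule.subset_span x.2
    obtain ⟨c, -, e⟩ := Submodule.mem_span_finset.1 this
    rw [← e]
    refine (isCone_cone _).sum_mem _ _ fun r hr => ?_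
    rcases le_total 0 (c r) with h | h
    · exact (isCone_cone _).smul _ h _ (subset_cone _ (Or.inl hr))
    · rw [← neg_smul_neg]
      exact (isCone_cone _).smul _ (neg_nonneg.2 h) _ (subset_cone _ (Or.inr (by simpa using hr)))
  obtain ⟨m, hm, h2⟩ := sol N L l _ (Set.union_subset hB fun y hy => by
    simpa using L.neg_mem (hB hy)) x x.2 h1
  have h3 : ∀ y ∈ AddSubmonoid.closure ((B : Set N) ∪ -(B : Set N)),
      ∃ z : L, (z : N) = y ∧ Ψ y = F z := by
    intro y hy
    induction hy using AddSubmonoid.closure_induction with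
    | mem y hy =>
      rcases hy with hy | hy
      · exact ⟨⟨y, hB hy⟩, rfl, hΨ ⟨y, hy⟩⟩
      · refine ⟨-⟨-y, hB hy⟩, by simp, ?_⟩
        rw [map_neg, ← hΨ ⟨-y, hy⟩, map_neg, neg_neg]
    | zero => exact ⟨0, rfl, by simp⟩
    | add y y' _ _ a b =>
      obtain ⟨z, rfl, e⟩ := a
      obtain ⟨z', rfl, e'⟩ := b
      exact ⟨z + z', rfl, by rw [map_add, map_add, e, e']⟩
  obtain ⟨z, e1, e2⟩ := h3 _ h2
  have e3 : z = m • x := Subtype.ext e1
  rw [e3, map_nsmul, map_nsmul, ← Nat.cast_smul_eq_nsmul ℝ, ← Nat.cast_smul_eq_nsmul ℝ] at e2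
  exact smul_right_injective W (Nat.cast_ne_zero.2 hm.ne') e2

end Pool.Agent.MP_20d318_ag.AM
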