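import Pool.Agent.MP_20d318_ag.AM.LSpec

/-! Row LOO: it is enough to cover the points `x + ε a`. -/

set_option autoImplicit false

namespace Pool.Agent.MP_20d318_ag.AM

open Pool.Agent.MP_20d318_ag.Lat Finset

universe u

namespace LooA

variable {N : Type u} [AddCommGroup N] [Module ℝ N]

theorem xi [FiniteDimensional ℝ N] {L : AddSubgroup N} {C : Set N} {Cv : Set (N →ₗ[ℝ] ℝ)}
    (hint : ∀ c ∈ Cv, Intg L c) (hpos : ∀ c ∈ Cv, ∀ x ∈ C, 0 ≤ c x)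
    (hsep : ∀ x, (∀ c ∈ Cv, c x = 0) → x = 0) :
    ∃ ξ : N →ₗ[ℝ] ℝ, Intg L ξ ∧ (∀ x ∈ C, 0 ≤ ξ x) ∧
      ∀ M : ℝ, {z : N | (z ∈ L ∧ z ∈ C) ∧ ξ z ≤ M}.Finite := by
  obtain ⟨k, c, hc, hcs⟩ := exists_sep Cv hsep
  let Γ : N → Fin k → ℝ := fun x j => c j x
  have hΓ : Function.Injective Γ := by
    intro x y h
    refine sub_eq_zero.1 (hcs _ fun j => ?_)
    rw [map_sub]
    exact sub_eq_zero.2 (congrFun h j)
  refine ⟨∑ j, c j, fun x hx => ?_, fun x hx => ?_, fun M => ?_⟩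
  · choose z hz using fun j => hint _ (hc j) x hx
    exact ⟨∑ j, z j, by simp [hz]⟩
  · rw [LinearMap.sum_apply]
    exact sum_nonneg fun j _ => hpos _ (hc j) x hx
  · refine Set.Finite.of_finite_image (f := Γ) ?_ hΓ.injOn
    refine (Set.Finite.pi' (t := fun _ : Fin k => (fun n : ℕ => (n : ℝ)) '' Set.Iic ⌊M⌋₊)
      fun _ => (Set.finite_Iic _).image _).subset ?_
    rintro _ ⟨z, ⟨hz, hM⟩, rfl⟩ j
    obtain ⟨n, hn⟩ := nat_of_int (hint _ (hc j) z hz.1) (hpos _ (hc j) z hz.2)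
    refine ⟨n, Nat.le_floor ?_, hn.symm⟩
    rw [← hn]
    rw [LinearMap.sum_apply] at hM
    exact (single_le_sum (fun i _ => hpos _ (hc i) z hz.2) (mem_univ j)).trans hM

theorem mem {R : Finset N} {R' : Set N} {ξ : N →ₗ[ℝ] ℝ} {h g : N ≃ₗ[ℝ] N} {p : N}
    (hp : p ∈ cone (R : Set N)) (h1 : ∀ r ∈ R, ξ (g r) ≤ ξ (h r)) (h2 : ξ (h p) ≤ ξ (g p))
    (h3 : ∀ r ∈ R, ξ (h r) ≤ ξ (g r) → h r ∈ R') : h p ∈ cone R' := by
  obtain ⟨c, hc, rfl⟩ := mem_cone_fin.1 hp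
  simp only [map_sum, map_smul, smul_eq_mul] at h2 ⊢
  have h4 := (sum_eq_sum_iff_of_le fun r hr => mul_le_mul_of_nonneg_left (h1 r hr) (hc r)).1
    (le_antisymm (sum_le_sum fun r hr => mul_le_mul_of_nonneg_left (h1 r hr) (hc r)) h2)
  refine (isCone_cone _).sum_mem _ _ fun r hr => ?_
  rcases (hc r).eq_or_lt with e | e
  · rw [← e, zero_smul]
    exact (isCone_cone _).zero
  · exact (isCone_cone _).smul _ e.le _
      (subset_cone _ (h3 r hr (mul_left_cancel₀ e.ne' (h4 r hr)).ge))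

end LooA

theorem loo_stmt : LooStmt.{u} := by
  intro ray N _ _ _ L C G Cv hC hint hpos hsep hGL hGC hspan P hP hPC hcov
  obtain ⟨ξ, hξi, hξp, hfin⟩ := LooA.xi hint hpos hsep
  have hd : ∀ R : Finset N, (R : Set N) ⊆ L → cone (R : Set N) ⊆ C →
      ∃ T ⊆ (G : Set (N ≃ₗ[ℝ] N)), T.Finite ∧ ∀ i ∈ G, ∃ j ∈ T, ∀ x ∈ cone (R : Set N),
        ξ (j x) ≤ ξ (i x) := fun R hL hR =>
    dickson R (G : Set (N ≃ₗ[ℝ] N)) (fun g => ξ ∘ₗ g.toLinearMap) fun g hg r hr =>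
      nat_of_int (hξi _ (hGL g hg r (hL hr))) (hξp _ (hGC g hg r (hR (subset_cone _ hr))))
  obtain ⟨R, hRL, rfl⟩ := hP
  obtain ⟨T, hTG, hTf, hT⟩ := hd R hRL hPC
  obtain ⟨M, hM⟩ := (hTf.image2 (fun (g : N ≃ₗ[ℝ] N) (r : N) => ξ (g r)) R.finite_toSet).bddAbove
  refine looijenga hC hint hpos hsep hGL hGC hspan (rp_fin (hfin M) fun z hz => hz.1.1)
    (hC.cone_subset fun z hz => hz.1.2) fun x hx => ?_
  obtain ⟨a, _, ⟨Q, hQL, rfl⟩, hQC, hxQ, haQ, hg⟩ := hcov x hx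
  obtain ⟨S, hSG, hSf, hS⟩ := hd Q hQL hQC
  obtain ⟨j0, hj0, -⟩ := hS 1 G.one_mem
  have key : ∀ ε : ℝ, 0 < ε → ∃ j ∈ S,
      j (x + ε • a) ∈ cone {z : N | (z ∈ L ∧ z ∈ C) ∧ ξ z ≤ M} := by
    intro ε hε
    obtain ⟨g, hgG, hgp⟩ := hg ε hε
    have hy := (isCone_cone _).add _ hxQ _ ((isCone_cone _).smul ε hε.le _ haQ)
    obtain ⟨j, hj, hmin⟩ := Set.exists_min_image S (fun j => ξ (j (x + ε • a))) hSf ⟨j0, hj0⟩
    have hh := G.mul_mem (hSG hj) (G.inv_mem hgG)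
    obtain ⟨g0, hg0, h0⟩ := hT _ hh
    have e : (j * g⁻¹) (g (x + ε • a)) = j (x + ε • a) := by simp
    refine ⟨j, hj, e ▸ LooA.mem hgp (fun r hr => h0 r (subset_cone _ hr)) ?_ fun r hr k =>
      ⟨⟨hGL _ hh r (hRL hr), hGC _ hh r (hPC (subset_cone _ hr))⟩,
        k.trans (hM (Set.mem_image2_of_mem hg0 hr))⟩⟩
    obtain ⟨i, hi, h1⟩ := hS (g0 * g) (G.mul_mem (hTG hg0) hgG)
    rw [e]
    exact (hmin i hi).trans (h1 _ hy)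
  have pig : ∃ j ∈ S, ∀ δ : ℝ, 0 < δ → ∃ ε : ℝ, 0 < ε ∧ ε ≤ δ ∧
      j (x + ε • a) ∈ cone {z : N | (z ∈ L ∧ z ∈ C) ∧ ξ z ≤ M} := by
    by_contra hc
    push Not at hc
    choose! δ h1 h2 using hc
    obtain ⟨i, hi, hmin⟩ := Set.exists_min_image S δ hSf ⟨j0, hj0⟩
    obtain ⟨j, hj, h3⟩ := key (δ i) (h1 i hi)
    exact h2 j hj _ (h1 i hi) (hmin j hj) h3
  obtain ⟨j, hj, h⟩ := pig
  refine ⟨j, hSG hj, ?_⟩
  rw [← (hfin M).coe_toFinset] at h ⊢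
  exact ray N _ (j x) (j a) (by simpa only [map_add, map_smul] using h)

end Pool.Agent.MP_20d318_ag.AM
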