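import Mathlib.GroupTheory.CosetCover
import Pool.Agent.MP_20d318_ag.AM.MSpec

/-! Row LZA: finite fibres are points. -/

set_option autoImplicit false
set_option linter.unusedSectionVars false

namespace Pool.Agent.MP_20d318_ag.AM

open Pool.Agent.MP_fd6584_ag Pool.Agent.MP_fd6584_ag.Fn Pool.Agent.CBk
open Pool.Agent.MP_fd6584_ag.AG hiding deg_inv deg_congr deg_of_unit deg_mul deg_prod deg_zpow
  deg_eq_zero deg_nonneg deg_div deg_pow

namespace LzaA

variable {k K : Type} [Field k] [Field K] [Algebra k K] {A O : Subalgebra k K}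

theorem isU_fr (h : A ≤ O) {u : K} (hu : u ∈ fr A O) (hO : IsU O u) : IsU (fr A O) u :=
  ⟨hO.1, hu, inv_mem_fr hu h hO⟩

theorem loc_fr (hO : IsLocalRing O) (h : A ≤ O) : IsLocalRing (fr A O) :=
  isLocalRing_of fun _ ha _ hb => mx_of_le (fr_le h) (add_mem ha.1 hb.1)
    (mx_add hO ⟨fr_le h ha.1, fun q => ha.2 (isU_fr h ha.1 q)⟩
      ⟨fr_le h hb.1, fun q => hb.2 (isU_fr h hb.1 q)⟩)

theorem nrm_fr (hA : Nrm A) (h : A ≤ O) : Nrm (fr A O) :=
  nrmLoc_stmt k K A _ hA le_fr fun _ ⟨a, ha, b, hb, hu, e⟩ =>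
    ⟨a, ha, b, hb, isU_fr h (le_fr hb) hu, e⟩

theorem nrm_BB (X : Set (Subalgebra k K)) (e : Subalgebra k K → K) : Nrm (BB X e) :=
  fun f hf P h1 h2 => by
    have hle : BB X e ≤ plO P := fun b hb => hb P h1 h2
    exact (plO_isVal P).nrm f
      (hf.map_of_comp_eq (Subalgebra.inclusion hle).toRingHom (RingHom.id K) rfl)

/-- The functions whose quotient by `g` vanishes at `O`. -/
def van (hO : IsLocalRing O) (g : K) : Submodule k K where
  carrier := {s | s / g ∈ mx O}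
  add_mem' ha hb := by
    simp only [Set.mem_ofPred_eq, add_div]
    exact mx_add hO ha hb
  zero_mem' := by simpa using zero_mem_mx
  smul_mem' c s hs := by
    simp only [Set.mem_ofPred_eq, Algebra.smul_def, mul_div_assoc]
    exact mx_mul_left (O.algebraMap_mem c) hs

/-- A section that vanishes at none of finitely many points. -/
theorem exists_sec [Infinite k] {J ι : Type} [Finite ι] (𝒞 : Pj.Charts k K J)
    (p : ι → Subalgebra k K) (j : ι → J) (h : ∀ i, p i ∈ Pts (𝒞.B (j i))) :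
    ∃ s : K, ∀ i, IsU (p i) (s / 𝒞.f (j i)) := by
  let E := Submodule.span k (Set.range 𝒞.f)
  have hE : ∀ s ∈ E, ∀ l, s / 𝒞.f l ∈ 𝒞.B l := fun s hs l => by
    induction hs using Submodule.span_induction with
    | mem x hx => obtain ⟨m, rfl⟩ := hx; exact 𝒞.ratio m l
    | zero => simp
    | add x y _ _ a b => rw [add_div]; exact add_mem a b
    | smul c x _ a =>
      rw [Algebra.smul_def, mul_div_assoc]
      exact mul_mem ((𝒞.B l).algebraMap_mem c) a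
  by_contra hn
  obtain ⟨i, hi⟩ := Subspace.exists_eq_top_of_iUnion_eq_univ
    (p := fun i => (van (h i).1 (𝒞.f (j i))).comap E.subtype) (Set.eq_univ_of_forall fun s => by
      obtain ⟨i, hi⟩ := not_forall.1 (not_exists.1 hn s)
      exact Set.mem_iUnion.2 ⟨i, (h i).2.1 (hE s s.2 _), hi⟩)
  have h1 : 𝒞.f (j i) / 𝒞.f (j i) ∈ mx (p i) :=
    (Submodule.eq_top_iff'.1 hi ⟨_, Submodule.subset_span ⟨j i, rfl⟩⟩ :)
  rw [div_self (𝒞.f_ne _)] at h1
  exact one_not_mem_mx h1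

end LzaA

open LzaA in
theorem lza_stmt : LzaStmt := by
  intro k K _ _ _ _ X Z hZ e O hO hu hV hF a ha
  have hB : BB X e ≤ O := BB_le (hZ.md.kr O hO) hu
  have hR : ∀ x : K, (∀ O' : Fib X Z e O, x ∈ O'.1) → x ∈ fr (BB X e) O := fun x hx => by
    by_contra hn
    obtain ⟨V, h1, h2, h3⟩ := exists_val_not_mem (loc_fr (hZ.nice.loc O hO) hB)
      (nrm_fr (nrm_BB X e) hB) hn
    obtain ⟨O', h4, h5⟩ := hV V h1 h2
    exact h3 (h5 (hx ⟨O', h4⟩))
  obtain ⟨J, -, 𝒞, hc⟩ := hZ.ch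
  have : Finite (Fib X Z e O) := hF
  have hj : ∀ O' : Fib X Z e O, ∃ j, O'.1 ∈ Pts (𝒞.B j) := fun O' =>
    Set.mem_iUnion.1 (hc ▸ O'.2.1 : O'.1 ∈ Sch.pts 𝒞)
  choose j hj using hj
  obtain ⟨s, hs⟩ := exists_sec 𝒞 (fun O' : Fib X Z e O => O'.1) j hj
  let o : Fib X Z e O := ⟨O, hO, hu, fun _ _ h => h⟩
  have hs0 : s ≠ 0 := (div_ne_zero_iff.1 (hs o).1).1
  have key : ∀ c ∈ 𝒞.B (j o), ∀ᶠ n in Filter.atTop, (s / 𝒞.f (j o))⁻¹ ^ n * c ∈ fr (BB X e) O := by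
    intro c hc
    refine (Filter.eventually_all.2 fun O' => ?_).mono fun n => hR _
    obtain ⟨N, hN⟩ := 𝒞.comp (j o) (j O') c hc
    have h1 : (s / 𝒞.f (j o))⁻¹ = 𝒞.f (j o) / 𝒞.f (j O') * (s / 𝒞.f (j O'))⁻¹ := by
      have := 𝒞.f_ne (j O')
      field_simp
    refine Filter.eventually_atTop.2 ⟨N, fun n hn => ?_⟩
    obtain ⟨m, rfl⟩ := Nat.exists_eq_add_of_le' hn
    have h2 : (s / 𝒞.f (j o))⁻¹ ∈ O'.1 :=
      h1 ▸ mul_mem ((hj O').2.1 (𝒞.ratio _ _)) (hs O').2.2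
    rw [pow_add, mul_assoc]
    refine mul_mem (pow_mem h2 m) ?_
    rw [h1, mul_pow, mul_right_comm]
    exact mul_mem ((hj O').2.1 hN) (pow_mem (hs O').2.2 N)
  obtain ⟨u, hu', w, hw, hw', rfl⟩ := (hj o).2.2 a ha
  obtain ⟨n, h1, h2⟩ := ((key u hu').and (key w hw)).exists
  have h3 := ((hs o).inv.pow n)
  rw [← mul_div_mul_left u w h3.1]
  exact div_mem_fr h1 h2 hB (h3.mul hw')

end Pool.Agent.MP_20d318_ag.AM
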