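import Pool.Agent.MP_20d318_ag.AM.MSpec
import Pool.Agent.MP_fd6584_ag.G.Sep

/-! Row LZB: semiample classes of positive degree on all curves are ample. -/

set_option autoImplicit false
set_option linter.unusedSectionVars false

namespace Pool.Agent.MP_20d318_ag.AM

open Pool.Agent.MP_fd6584_ag Pool.Agent.MP_fd6584_ag.Fn Pool.Agent.CBk
open Pool.Agent.MP_fd6584_ag.AG hiding deg_inv deg_congr deg_of_unit deg_mul deg_prod deg_zpow
  deg_eq_zero deg_nonneg deg_div deg_pow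
open Pool.Agent.MVg (Sc Fac Av)
open Pool.Agent.MP_20d318_ag.CH (cl cl_val cl_mem cl_eff n1_ext n1_eq)
open Pool.Agent.MP_20d318_ag.Lat (cone IsCone RP Intg Concl isCone_cone subset_cone)

namespace LzbA

variable {k K : Type} [Field k] [Field K] [Algebra k K] {X : Set (Subalgebra k K)}

theorem up {B C O₀ O : Subalgebra k K} (hO : O ∈ Pts C) (h0 : C ≤ O₀) (hle : O₀ ≤ O)
    (h : O₀ ≤ fr B O₀) : O ≤ fr B O := by
  intro f hf
  obtain ⟨a, ha, b, hb, hu, rfl⟩ := hO.2.2 f hf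
  obtain ⟨a1, p1, a2, p2, p3, rfl⟩ := h (h0 ha)
  obtain ⟨b1, q1, b2, q2, q3, rfl⟩ := h (h0 hb)
  have u1 : IsU O b1 := by
    have := hu.mul (q3.mono hle)
    rwa [div_mul_cancel₀ _ q3.1] at this
  exact ⟨a1 * b2, B.mul_mem p1 q2, a2 * b1, B.mul_mem p2 q1, (p3.mono hle).mul u1,
    div_div_div_eq a1 a2 b1 b2⟩

theorem lc_up {x : AG.N1 X} {C O₀ O : Subalgebra k K} (hO : O ∈ Pts C) (h0 : C ≤ O₀)
    (hle : O₀ ≤ O) (h : LcAt X x O₀) : LcAt X x O :=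
  let ⟨m, e, a, b, c, d, f⟩ := h; ⟨m, e, a, b, c, d.mono hle, up hO h0 hle f⟩

end LzbA

theorem lzb_stmt : LzbStmt := by
  intro fiba alg lza deg k K _ _ _ _ X r Z s Ψ p ρ hρ hsa hpos
  have hs : ∀ O ∈ Z, SaAt X ρ O := fun O hO => r.sa ρ hρ O (hsa O hO)
  have dg := deg k K X r Z s Ψ p
  have hg : Good Z := s.nice.toGood
  obtain ⟨𝒢, g1, g2, g3⟩ := s.nice.cov
  have ch : ∀ O ∈ Z, ∃ G ∈ 𝒢, O ∈ Pts (Algebra.adjoin k G) := fun O hO => by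
    rw [g3] at hO
    simpa using hO
  have ch' : ∀ G ∈ 𝒢, ∀ O ∈ Pts (Algebra.adjoin k G), O ∈ Z := fun G hG O hO => by
    rw [g3]
    exact Set.mem_biUnion hG hO
  have rat : ∀ O ∈ Z, RatPt O → LcAt X ρ O := by
    intro O hO hr
    obtain ⟨m, e, hm, he, hc, hu⟩ := hs O hO
    obtain ⟨fa, fb⟩ := fiba k K X r Z s.md ρ e m hm he hc hs O hO hu
    refine ⟨m, e, hm, he, hc, hu, lza k K X Z s e O hO hu fa ?_⟩
    have fin : ∀ G ∈ 𝒢, {O' | O' ∈ Pts (Algebra.adjoin k G) ∧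
        {u | u ∈ Algebra.adjoin k G ∧ ∀ O' ∈ Fib X Z e O, Algebra.adjoin k G ≤ O' → u ∈ mx O'} ⊆
          mx O'}.Finite := by
      intro G hG
      refine ((alg k K _ (Subalgebra.fg_def.2 ⟨G, (g2 G hG).1, rfl⟩)).2 _
        fun u hu => hu.1).resolve_right ?_
      rintro ⟨O1, a1, a2, a3, a4⟩
      have f1 : O1 ∈ Fib X Z e O := fb hr _ O1 (ch' G hG O1 a1) a1 fun u b c => a2 ⟨b, c⟩
      obtain ⟨ν, rfl⟩ := curve_stmt k K Z hg O1 f1.1 a3 a4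
      have hz := dg.zero ν e he.1 fun Q => by
        obtain ⟨G', -, b⟩ := ch _ (ν.pt_mem Q)
        exact (fb hr _ _ (ν.pt_mem Q) b fun u c d => mx_of_le (ν.pt_le Q) (b.2.1 c)
          (d _ f1 (b.2.1.trans (ν.pt_le Q)))).2.1
      have hp := hpos ν fun h => a4 h.dim
      rw [hc, map_nsmul, map_nsmul, nsmul_eq_mul] at hz
      exact (mul_pos (Nat.cast_pos.2 hm) hp).ne' hz
    refine (g1.biUnion fin).subset fun O' h' => ?_
    obtain ⟨G, a, b⟩ := ch O' h'.1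
    exact Set.mem_biUnion a ⟨b, fun u hu => hu.2 O' h' b.2.1⟩
  refine ⟨hρ, fun O hO => ?_⟩
  obtain ⟨G, a, b, c⟩ := hg.fg O hO
  obtain ⟨O₀, a0, b0, c0⟩ := (alg k K _ (Subalgebra.fg_def.2 ⟨G, a, rfl⟩)).1 O b
  exact LzbA.lc_up b a0.2.1 c0 (rat O₀ (c a0) b0)

end Pool.Agent.MP_20d318_ag.AM
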