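import Pool.Agent.MP_20d318_ag.AM.VSpec

/-! The movable cone meets rational polyhedral cones in cones spanned by movable divisors. -/

set_option autoImplicit false
set_option linter.unusedSectionVars false

namespace Pool.Agent.MP_20d318_ag.AM

open Pool.Agent.MP_fd6584_ag.Fn Pool.Agent.CBk
open Pool.Agent.MP_fd6584_ag.AG hiding deg_inv deg_congr deg_of_unit deg_mul deg_prod deg_zpow
  deg_eq_zero deg_nonneg deg_div deg_pow
open Pool.Agent.MVg (H1 Mvb Av UnifStmt)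
open Pool.Agent.MP_20d318_ag.CH (cl cl_mem)
open Pool.Agent.MP_20d318_ag.Lat (cone IsCone RP subset_cone)

namespace MorA

variable {k K : Type} [Field k] [IsAlgClosed k] [Field K] [Algebra k K]
  {X : Set (Subalgebra k K)} {f : Subalgebra k K → K} {O : Subalgebra k K}

theorem sa_of (hX : Good X) (hf : IsCart X f) (hO : O ∈ X) (h : Av X f O) : SaAt X (cl X f) O := by
  obtain ⟨n, n0, s, s1, s2⟩ := h
  have s0 : s ≠ 0 := left_ne_zero_of_mul s2.1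
  have he : IsCart X fun O => s * (f ^ n) O := (isCart_const s0).mul (hf.pow n)
  refine ⟨n, _, n0, ⟨he, s1⟩, (cl_cmul hX (hf.pow n) s0).trans (cl_pow hX hf n), fun P a b => ?_⟩
  exact (B2.ord_eq he hO a b).symm.trans ((isU_plO' P).1 (s2.mono b)).2

theorem av_of (r : Ref X) (hf : IsCart X f) (hO : O ∈ X) (h : SaAt X (cl X f) O) : Av X f O := by
  obtain ⟨m, e, m0, he, hc, hu⟩ := h
  have hG := r.nice.toGood
  obtain ⟨n, μ, n0, hμ⟩ := r.nl _ ((hf.pow m).div he.1)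
    (by rw [cl_div hG (hf.pow m) he.1, cl_pow hG hf, hc, sub_self])
  have e1 : ∀ O ∈ X, μ * f O ^ (m * n) = μ * (f ^ m / e) O ^ n * e O ^ n := fun O hO => by
    rw [Pi.div_apply, Pi.pow_apply, div_pow, mul_assoc,
      div_mul_cancel₀ _ (pow_ne_zero n (he.1.ne hO)), pow_mul]
  refine ⟨m * n, mul_pos m0 n0, μ, fun O' hO' => ?_, ?_⟩
  · rw [Pi.pow_apply, e1 O' hO']
    exact O'.mul_mem (hμ O' hO').mem (O'.pow_mem (he.2 O' hO') n)
  · rw [e1 O hO]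
    exact (hμ O hO).mul ((r.nice.unit he.1 hO hu).pow n)

end MorA

theorem mor_stmt : MorStmt := by
  intro int unif k K _ _ _ _ X r sg
  have hG := r.nice.toGood
  refine ⟨?_, fun x hx => SO_ef (hx ⊤ ⟨r.nice.toFine.top, Or.inl rfl⟩), fun S a b => ?_⟩
  · rintro _ ⟨f, hf, ⟨n, n0, h⟩, rfl⟩ O hO
    exact (MorA.sa_of hG hf hO.1 ⟨n, n0, h O hO.1 hO.2⟩).so (cl_mem hf)
  obtain ⟨𝒯, t1, t2, t3, -⟩ := sg S a b
  have sub : (fun O => SO X O ∩ S) '' {O | O ∈ X ∧ H1 O} ⊆ 𝒯 := by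
    rintro _ ⟨O, hO, rfl⟩
    exact t3 O (hG.loc O hO.1) fun _ h => r.nice.krull hO.1 h
  obtain ⟨R, R1, R2⟩ := int _ (LL X) (lt_LL r.fd) S a _ (t1.subset sub) fun T h => t2 T (sub h)
  have e : cone (R : Set (N1 X)) = MO X ∩ S := by
    rw [R2]
    ext x
    refine ⟨fun h => ⟨fun O hO => (h.2 _ ⟨O, hO, rfl⟩).1, h.1⟩, fun h => ⟨h.2, ?_⟩⟩
    rintro _ ⟨O, hO, rfl⟩
    exact ⟨h.1 O hO, h.2⟩
  refine ⟨R, fun x hx => ?_, e⟩
  obtain ⟨f, hf, rfl⟩ := (mem_LL hG).1 (R1 hx)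
  have hm := (e.le (subset_cone _ hx)).1
  exact ⟨f, hf, unif k K X f r.nice.toFine hf fun O h1 h2 =>
    MorA.av_of r hf h1 (r.sa _ (cl_mem hf) O (hm O ⟨h1, h2⟩)), rfl⟩

end Pool.Agent.MP_20d318_ag.AM
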