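import Pool.Agent.MP_20d318_ag.AM.MSpec

/-! Row NEF: effective nef classes are semiample. -/

set_option autoImplicit false
set_option linter.unusedSectionVars false

namespace Pool.Agent.MP_20d318_ag.AM

open Pool.Agent.MP_fd6584_ag Pool.Agent.MP_fd6584_ag.Fn Pool.Agent.CBk
open Pool.Agent.MP_20d318_ag.Lat (cone IsCone RP isCone_cone subset_cone cone_mono)

namespace NefA

/-- A segment whose part in a closed cone is open to the right lies in the cone. -/
theorem seg (hr : RayStmt.{1}) {N : Type 1} [AddCommGroup N] [Module ℝ N] (Q : Finset N) (a v : N)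
    (ha : a ∈ cone (Q : Set N))
    (ho : ∀ t : ℝ, 0 ≤ t → t < 1 → a + t • v ∈ cone (Q : Set N) →
      ∃ s, t < s ∧ s ≤ 1 ∧ a + s • v ∈ cone (Q : Set N)) : a + v ∈ cone (Q : Set N) := by
  let A : Set ℝ := {t | t ≤ 1 ∧ a + t • v ∈ cone (Q : Set N)}
  have h0 : (0 : ℝ) ∈ A := ⟨zero_le_one, by simpa using ha⟩
  have hb : BddAbove A := ⟨1, fun t ht => ht.1⟩
  have h1 : sSup A ≤ 1 := csSup_le ⟨0, h0⟩ fun t ht => ht.1
  have hm : a + sSup A • v ∈ cone (Q : Set N) := by
    by_contra hn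
    refine hn (hr N Q _ (-v) fun δ hδ => ?_)
    obtain ⟨t, ht, lt⟩ := exists_lt_of_lt_csSup ⟨0, h0⟩ (sub_lt_self (sSup A) hδ)
    have le : t < sSup A := (le_csSup hb ht).lt_of_ne fun e => hn (e ▸ ht.2)
    refine ⟨sSup A - t, by linarith, by linarith, ?_⟩
    have e : a + sSup A • v + (sSup A - t) • -v = a + t • v := by module
    exact e ▸ ht.2
  rcases h1.lt_or_eq with h | h
  · obtain ⟨s, s1, s2, s3⟩ := ho _ (le_csSup hb h0) h hm
    exact absurd (le_csSup hb ⟨s2, s3⟩) s1.not_ge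
  · rwa [h, one_smul] at hm

end NefA

theorem nef_stmt : NefStmt := by
  intro hr hd ho k K _ _ _ _ X r Z s Ψ p hS a ha x hx hn
  obtain ⟨R, hR, hxR⟩ := exists_fin hx
  have hrp : RP (LL X) (cone (insert a (R : Set (AG.N1 X)))) := by
    refine rp_fin (R.finite_toSet.insert a) (Set.insert_subset ha.1 fun z hz => ?_)
    obtain ⟨D, -, rfl⟩ := hR hz
    exact AddSubgroup.subset_closure ⟨D, rfl⟩
  have hef : cone (insert a (R : Set (AG.N1 X))) ⊆ Glue.Ef X :=
    (isCone_cone _).cone_subset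
      (Set.insert_subset (SA_ef s.nice.toGood ha.mem) (hR.trans (subset_cone _)))
  have sg := hS _ hrp hef
  have haS : a ∈ cone (insert a (R : Set (AG.N1 X))) := subset_cone _ (Set.mem_insert _ _)
  have hxS : x ∈ cone (insert a (R : Set (AG.N1 X))) := cone_mono (Set.subset_insert _ _) hxR
  have e : ∀ t : ℝ, a + t • (x - a) = (1 - t) • a + t • x := fun t => by module
  have hin : ∀ t : ℝ, 0 ≤ t → t ≤ 1 → a + t • (x - a) ∈ cone (insert a (R : Set (AG.N1 X))) :=
    fun t t0 t1 => e t ▸ (isCone_cone _).add _ ((isCone_cone _).smul _ (sub_nonneg.2 t1) _ haS) _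
      ((isCone_cone _).smul _ t0 _ hxS)
  obtain ⟨𝒯, -, t1, -, t2⟩ := id sg
  obtain ⟨Q, -, hQ⟩ := t1 _ (t2 Z s.md)
  have key := NefA.seg hr Q a (x - a) (hQ ▸ ⟨ha.mem, haS⟩) fun t t0 t1 ht => by
    rw [hQ] at ht ⊢
    have hp : Pos Z (Ψ (a + t • (x - a))) := fun ν hν => by
      have p1 := (hd k K X r Z s Ψ p).pos a ha ν hν
      have p2 := hn ν
      rw [e, map_add, map_smul, map_smul, map_add, map_smul, map_smul, smul_eq_mul, smul_eq_mul]
      exact add_pos_of_pos_of_nonneg (mul_pos (sub_pos.2 t1) p1) (mul_nonneg t0 p2)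
    have e1 : ∀ δ : ℝ, a + t • (x - a) + δ • (1 - t) • (x - a) =
        a + (t + δ * (1 - t)) • (x - a) := fun δ => by module
    obtain ⟨δ, d0, d1, d2⟩ := ho k K X r Z s Ψ p _ (isCone_cone _) sg _ ht hp ((1 - t) • (x - a))
      (by
        have e2 : a + t • (x - a) + (1 - t) • (x - a) = x := by module
        rw [e2]
        exact hxS)
    have q1 := mul_pos d0 (sub_pos.2 t1)
    have q2 := mul_le_of_le_one_left (sub_pos.2 t1).le d1
    exact ⟨t + δ * (1 - t), by linarith, by linarith, e1 δ ▸ d2,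
      hin _ (by linarith) (by linarith)⟩
  rw [hQ, add_sub_cancel] at key
  exact key.1

end Pool.Agent.MP_20d318_ag.AM
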