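import Pool.Agent.MP_20d318_ag.AM.SSpec

/-! Numerically trivial divisors on the next level. -/

set_option autoImplicit false
set_option linter.unusedSectionVars false

namespace Pool.Agent.MP_20d318_ag.AM

open Pool.Agent.MP_fd6584_ag.Fn Pool.Agent.CBk
open Pool.Agent.MP_fd6584_ag.AG hiding deg_inv deg_congr deg_of_unit deg_mul deg_prod deg_zpow
  deg_eq_zero deg_nonneg deg_div deg_pow
open Pool.Agent.MP_20d318_ag.CH (Lv cl)
open Pool.Agent.MP_20d318_ag.KK

theorem nls_stmt : NlsStmt := by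
  intro k M M' K Λ Λ' κ κ' n n' _ _ _ _ _ _ _ _ _ _ _ L L' ι ι' v e Z h inj cls nl nl' f hf f0
  obtain ⟨N, g, g', a, μ, N0, hg, hg', μ0, u⟩ := cls f hf
  have c : cl Z (lb L L' ι ι' g g' a) = 0 := by
    rw [cl_lin h.gX (h.cartW hg hg' a) (hf.pow N) (μ := μ) fun O hO => by
      have := (u O hO).inv
      rwa [inv_div] at this, cl_pow h.gX hf, f0, smul_zero]
  have q := inj ((h.phi_lb hg hg' a).trans (c.trans (map_zero _).symm))
  obtain ⟨m, l, m0, w⟩ := nl g hg (congrArg Prod.fst q)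
  obtain ⟨m', l', m0', w'⟩ := nl' g' hg' (congrArg (fun D => D.2.1) q)
  have a0 : ∀ i j, a i j = 0 := fun i j =>
    Int.cast_eq_zero.1 (congrArg (fun D : WP _ _ κ κ' => D.2.2 i j) q)
  refine ⟨N * (m * m'), ι l ^ m' * ι' l' ^ m / μ ^ (m * m'), by positivity, fun O hO => ?_⟩
  have g0 : ι (g (pr ι L.Y O)) ≠ 0 := (map_ne_zero ι).2 (hg.ne (h.maps.mem hO))
  have g1 : ι' (g' (pr ι' L'.Y O)) ≠ 0 := (map_ne_zero ι').2 (hg'.ne (h.maps'.mem hO))
  refine Eq.subst (motive := IsU O) ?_ ((((u O hO).pow (m * m')).mul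
    ((h.maps.isU_up hO (w _ (h.maps.mem hO))).pow m')).mul
    ((h.maps'.isU_up hO (w' _ (h.maps'.mem hO))).pow m))
  simp only [lb, up, a0, neg_zero, zpow_zero, Finset.prod_const_one, mul_one, map_mul, map_pow,
    mul_pow, div_pow, ← pow_mul, mul_comm m' m]
  field_simp

end Pool.Agent.MP_20d318_ag.AM
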