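import Pool.Agent.MP_20d318_ag.AM.MSpec

/-! Row OPN: the ample cone is open. -/

set_option autoImplicit false

namespace Pool.Agent.MP_20d318_ag.AM

open Pool.Agent.MP_fd6584_ag Pool.Agent.MP_fd6584_ag.Fn Pool.Agent.CBk
open Pool.Agent.MP_20d318_ag.Lat (cone IsCone RP Intg Concl isCone_cone subset_cone)
open Filter Topology

namespace OpnA

/-- Every point of a rational polyhedral cone is comparable with a lattice point. -/
theorem comp {N : Type*} [AddCommGroup N] [Module ℝ N] {L : AddSubgroup N} {T : Set N}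
    (h : RP L T) {y : N} (hy : y ∈ T) :
    ∃ ρ ∈ L, ρ ∈ T ∧ ∃ c M : ℝ, 0 < c ∧ 0 < M ∧ y - c • ρ ∈ T ∧ M • ρ - y ∈ T := by
  have hT := rp_cone h
  obtain ⟨R, hR, e⟩ := h
  have z : ∃ ρ ∈ L, ρ ∈ T ∧ ∃ c M : ℝ, 0 < c ∧ 0 < M ∧ 0 - c • ρ ∈ T ∧ M • ρ - 0 ∈ T :=
    ⟨0, L.zero_mem, hT.zero, 1, 1, one_pos, one_pos, by simpa using hT.zero, by simpa using hT.zero⟩
  have : IsCone {y : N | ∃ ρ ∈ L, ρ ∈ T ∧ ∃ c M : ℝ, 0 < c ∧ 0 < M ∧ y - c • ρ ∈ T ∧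
      M • ρ - y ∈ T} := by
    refine ⟨z, ?_, ?_⟩
    · rintro x ⟨ρ, a1, a2, c, M, a3, a4, a5, a6⟩ y ⟨σ, b1, b2, d, M', b3, b4, b5, b6⟩
      refine ⟨ρ + σ, L.add_mem a1 b1, hT.add _ a2 _ b2, min c d, M + M', lt_min a3 b3,
        add_pos a4 b4, ?_, ?_⟩
      · rw [show x + y - min c d • (ρ + σ) = (x - c • ρ + (c - min c d) • ρ) +
          (y - d • σ + (d - min c d) • σ) by module]
        exact hT.add _ (hT.add _ a5 _ (hT.smul _ (sub_nonneg.2 (min_le_left _ _)) _ a2)) _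
          (hT.add _ b5 _ (hT.smul _ (sub_nonneg.2 (min_le_right _ _)) _ b2))
      · rw [show (M + M') • (ρ + σ) - (x + y) = (M • ρ - x + M' • ρ) + (M' • σ - y + M • σ) by
          module]
        exact hT.add _ (hT.add _ a6 _ (hT.smul _ b4.le _ a2)) _
          (hT.add _ b6 _ (hT.smul _ a4.le _ b2))
    · rintro t ht x ⟨ρ, a1, a2, c, M, a3, a4, a5, a6⟩
      rcases ht.eq_or_lt with rfl | ht'
      · rw [zero_smul]
        exact z
      · refine ⟨ρ, a1, a2, t * c, t * M, mul_pos ht' a3, mul_pos ht' a4, ?_, ?_⟩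
        · rw [mul_smul, ← smul_sub]
          exact hT.smul _ ht _ a5
        · rw [mul_smul, ← smul_sub]
          exact hT.smul _ ht _ a6
  exact this.cone_subset (R := R) (fun r hr => ⟨r, hR hr, e ▸ subset_cone _ hr, 1, 1, one_pos,
    one_pos, by simpa using hT.zero, by simpa using hT.zero⟩) (e ▸ hy)

end OpnA

theorem opn_stmt : OpnStmt := by
  intro amp deg lzb k K _ _ _ _ X r Z s Ψ p S hS ⟨𝒯, hfin, hRP, hO, hZ⟩ y hy hpos v hv
  obtain ⟨ρ, ρ1, ρ2, c, M, c0, M0, h1, h2⟩ := OpnA.comp (hRP _ (hZ Z s.md)) hy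
  have hρ : Lc X Z ρ := lzb k K X r Z s Ψ p ρ ρ1 ρ2.1 fun ν hν => by
    have e1 := (deg k K X r Z s Ψ p).nn ν _ (h2.1 _ ν.gen_mem)
    rw [map_sub, map_sub, map_smul, map_smul, smul_eq_mul] at e1
    exact (mul_pos_iff_of_pos_left M0).1 (by linarith [hpos ν hν])
  have key : ∀ O ∈ Z, ∀ᶠ δ : ℝ in 𝓝[>] 0, y + δ • v ∈ SO X O ∩ S := fun O hO => by
    obtain ⟨N, N0, hN⟩ := amp k K X r Z s p.toUpd ρ hρ O hO v
    filter_upwards [Ioc_mem_nhdsGT (div_pos c0 N0), Ioc_mem_nhdsGT (zero_lt_one' ℝ)] with δ a b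
    constructor
    · rw [show y + δ • v = δ • (N • ρ + v) + ((c - δ * N) • ρ + (y - c • ρ)) by module]
      exact isCone_SO.add _ (isCone_SO.smul _ a.1.le _ hN) _ (isCone_SO.add _ (isCone_SO.smul _
        (sub_nonneg.2 ((le_div_iff₀ N0).1 a.2)) _ (ρ2.1 O hO)) _ (h1.1 O hO))
    · rw [show y + δ • v = δ • (y + v) + (1 - δ) • y by module]
      exact hS.add _ (hS.smul _ a.1.le _ hv) _ (hS.smul _ (sub_nonneg.2 b.2) _ hy.2)
  have h3 : ∀ᶠ δ : ℝ in 𝓝[>] 0, ∀ T ∈ 𝒯, (∃ O ∈ Z, SO X O ∩ S = T) → y + δ • v ∈ T :=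
    (eventually_all_finite hfin).2 fun T _ => by
      by_cases h : ∃ O ∈ Z, SO X O ∩ S = T
      · obtain ⟨O, a, rfl⟩ := h
        exact (key O a).mono fun _ b _ => b
      · exact .of_forall fun _ b => absurd b h
  obtain ⟨δ, a, b⟩ := (h3.and (Ioc_mem_nhdsGT (zero_lt_one' ℝ))).exists
  exact ⟨δ, b.1, b.2, fun O e =>
    (a _ (hO O (s.md.good.loc O e) (s.md.kr O e)) ⟨O, e, rfl⟩).1⟩

end Pool.Agent.MP_20d318_ag.AM
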