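import Pool.Agent.MP_20d318_ag.AM.SSpec

/-! The terms of a section can be chosen to be sections. -/

set_option autoImplicit false
set_option linter.unusedSectionVars false

namespace Pool.Agent.MP_20d318_ag.AM

open Pool.Agent.MP_fd6584_ag.Fn Pool.Agent.CBk
open Pool.Agent.MP_fd6584_ag.AG hiding deg_inv deg_congr deg_of_unit deg_mul deg_prod deg_zpow
  deg_eq_zero deg_nonneg deg_div deg_pow
open Pool.Agent.MVg (Sc Fac Two BasStmt)
open Pool.Agent.MP_20d318_ag.CH (Lv Lf sX cl Nd n1_ext Ok)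
open Pool.Agent.MP_20d318_ag.KK

namespace OrdA

section one

variable {k M Λ κ : Type} {n : ℕ} [Field k] [Field M] [Algebra k M] [Fintype κ] {L : Lv k M Λ κ n}

/-- The place of a component. -/
structure Pc (L : Lv k M Λ κ n) (i : κ) (P : Place k M) : Prop where
  mem : plO P ∈ L.Y
  mxs : L.s i (plO P) ∈ mx (plO P)
  oS : P.ord (∏ j, L.s j (plO P)) = 1
  os : P.ord (L.s i (plO P)) = 1

theorem others (h : Ok L) {R : Subalgebra k M} (hR : R ∈ L.Y) {i j : κ} (a : L.s i R ∈ mx R)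
    (q : j ≠ i) : IsU R (L.s j R) :=
  isU_of_not_mx (h.sm _ hR j) fun b => q (h.one _ hR j i b a)

theorem plc (h : Ok L) (i : κ) : ∃ P, Pc L i P := by
  classical
  obtain ⟨R, hR, -, hs⟩ := h.rat i
  obtain ⟨P, hP, h0⟩ : ∃ P : Place k M, plO P ∈ L.Y ∧ P.ord (L.s i (plO P)) ≠ 0 := by
    by_contra q
    exact hs.2 (h.nice.unit (h.cs i) hR fun P hP _ => by_contra fun r => q ⟨P, hP, r⟩)
  have a : L.s i (plO P) ∈ mx (plO P) := ⟨h.sm _ hP i, fun u => h0 ((isU_plO' _).1 u).2⟩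
  have e : P.ord (∏ j, L.s j (plO P)) = P.ord (L.s i (plO P)) := by
    rw [P.ord_prod _ _ fun j _ => (h.cs j).ne hP]
    exact Finset.sum_eq_single i (fun j _ q => ((isU_plO' _).1 (others h hP a q)).2) (by simp)
  have s0 : ∏ j, L.s j (plO P) ≠ 0 := Finset.prod_ne_zero_iff.2 fun j _ => (h.cs j).ne hP
  have p0 : 0 < P.ord (∏ j, L.s j (plO P)) := e ▸ (mx_plO ((h.cs i).ne hP)).1 a
  have p1 : P.ord (∏ j, L.s j (plO P)) = 1 := by
    by_contra q
    obtain ⟨D, d1, d2⟩ := h.crd _ hP ((mx_plO s0).2 p0)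
    have u1 : P.unif ∈ mx (plO P) := (mx_plO P.unif_ne).2 (by simp)
    have u2 : (∏ j, L.s j (plO P)) / P.unif ∈ mx (plO P) :=
      (mx_plO (div_ne_zero s0 P.unif_ne)).2 (by rw [P.ord_div s0 P.unif_ne, P.ord_unif]; omega)
    rw [← mul_div_cancel₀ (∏ j, L.s j (plO P)) P.unif_ne, D.leibniz, smul_eq_mul, smul_eq_mul] at d2
    exact d2.not_mx (mx_add (plO_isVal P).isLocalRing (mx_mul_right u1 (d1 _ u2.1))
      (mx_mul_right u2 (d1 _ u1.1)))
  exact ⟨P, hP, a, p1, e ▸ p1⟩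

/-- The order of a section along a place. -/
noncomputable def od (P : Place k M) (g : Subalgebra k M → M) (m : M) : ℕ :=
  (P.ord (m * g (plO P))).toNat

theorem od_eq {P : Place k M} {g : Subalgebra k M → M} {m : M} (hP : plO P ∈ L.Y)
    (s : Sc L.Y g m) : (od P g m : ℤ) = P.ord (m * g (plO P)) :=
  Int.toNat_of_nonneg (mem_plO_ord.1 (s _ hP))

theorem tm (h : Ok L) {P : κ → Place k M} (hP : ∀ i, Pc L i (P i)) {g : Subalgebra k M → M}
    (hg : IsCart L.Y g) {m : M} (m0 : m ≠ 0) (s : Sc L.Y g m) :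
    Sc L.Y (g / ∏ i, L.s i ^ od (P i) g m) m := by
  refine MVg.sc_of_places h.nice (hg.div (isCart_prod fun i _ => (h.cs i).pow _)) fun Q hQ => ?_
  simp only [Pi.div_apply, Finset.prod_apply, Pi.pow_apply]
  rw [← mul_div_assoc]
  by_cases q : ∃ i, L.s i (plO Q) ∈ mx (plO Q)
  · obtain ⟨i, a⟩ := q
    obtain rfl : Q = P i := h.uniq i _ _ hQ (hP i).mem a (hP i).mxs
    have n0 := fun j => pow_ne_zero (od (P j) g m) ((h.cs j).ne hQ)
    rw [mem_plO_ord, Place.ord_div _ (mul_ne_zero m0 (hg.ne hQ))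
      (Finset.prod_ne_zero_iff.2 fun j _ => n0 j), Place.ord_prod _ _ _ fun j _ => n0 j,
      Finset.sum_eq_single i (fun j _ q => ((isU_plO' _).1 ((others h hQ a q).pow _)).2) (by simp),
      Place.ord_pow, (hP i).os, od_eq hQ s]
    omega
  · exact (isU_prod fun i _ => (isU_of_not_mx (h.sm _ hQ i) fun a => q ⟨i, a⟩).pow _).div_mem
      (s _ hQ)

theorem unit_od {i : κ} {P : Place k M} (h : Ok L) (hP : Pc L i P) {g : Subalgebra k M → M}
    (hg : IsCart L.Y g) {m : M} (m0 : m ≠ 0) (s : Sc L.Y g m) :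
    IsU (plO P) (m * g (plO P) / (∏ j, L.s j (plO P)) ^ od P g m) := by
  have s0 : (∏ j, L.s j (plO P)) ^ od P g m ≠ 0 :=
    pow_ne_zero _ (Finset.prod_ne_zero_iff.2 fun j _ => (h.cs j).ne hP.mem)
  have g0 := mul_ne_zero m0 (hg.ne hP.mem)
  refine (isU_plO' _).2 ⟨div_ne_zero g0 s0, ?_⟩
  rw [P.ord_div g0 s0, P.ord_pow, hP.oS, od_eq hP.mem s]
  omega

/-- The filtration by the order of vanishing. -/
def Fl (P : Place k M) (γ : M) (N : ℤ) : Submodule k M where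
  carrier := {m | P.Ge N (m * γ)}
  add_mem' a b := by rw [Set.mem_ofPred_eq, add_mul]; exact a.add b
  zero_mem' := by rw [Set.mem_ofPred_eq, zero_mul]; exact P.ge_zero N
  smul_mem' c _ a := by rw [Set.mem_ofPred_eq, smul_mul_assoc]; exact a.smul c

theorem chain (P : Place k M) (γ : M) : IsChain (· ≤ ·) (Set.range (Fl P γ)) := by
  rintro _ ⟨a, rfl⟩ _ ⟨b, rfl⟩ -
  exact (le_total b a).imp (fun q _ r => Place.Ge.mono r q) fun q _ r => Place.Ge.mono r q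

/-- The space of sections. -/
def Ss (X : Set (Subalgebra k M)) (g : Subalgebra k M → M) : Submodule k M where
  carrier := {m | Sc X g m}
  add_mem' a b O hO := by rw [add_mul]; exact O.add_mem (a O hO) (b O hO)
  zero_mem' O _ := by rw [zero_mul]; exact O.zero_mem
  smul_mem' c _ a O hO := by rw [smul_mul_assoc]; exact O.smul_mem (a O hO) c

theorem indep {i : κ} {P : Place k M} (h : Ok L) (hP : Pc L i P) {g : Subalgebra k M → M}
    (hg : IsCart L.Y g) {B s : Finset M} (sB : s ⊆ B) (hs : ∀ b ∈ s, b ≠ 0 ∧ Sc L.Y g b)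
    (ad : ∀ (N : ℤ) (c : M → k), ∑ x ∈ B, c x • x ∈ Fl P (g (plO P)) N → ∀ x ∈ B, c x ≠ 0 →
      x ∈ Fl P (g (plO P)) N) {e : ℕ} (e0 : e ≠ 0) (c : M → k) (N : ℕ)
    (q : ∑ b ∈ s with e * od P g b = N,
      c b • (b * g (plO P) / (∏ j, L.s j (plO P)) ^ od P g b) ∈ mx (plO P)) :
    ∀ b ∈ s, e * od P g b = N → c b = 0 := by
  classical
  intro b hb hN
  by_contra c0
  have s0 : (∏ j, L.s j (plO P)) ^ od P g b ≠ 0 :=
    pow_ne_zero _ (Finset.prod_ne_zero_iff.2 fun j _ => (h.cs j).ne hP.mem)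
  have e1 : ∑ x ∈ s with e * od P g x = N,
      c x • (x * g (plO P) / (∏ j, L.s j (plO P)) ^ od P g x) =
      (∑ x ∈ B, (if x ∈ s ∧ e * od P g x = N then c x else 0) • x) * g (plO P) /
        (∏ j, L.s j (plO P)) ^ od P g b := by
    rw [Finset.sum_mul, Finset.sum_div, Finset.sum_filter]
    refine (Finset.sum_congr rfl fun x hx => ?_).trans
      (Finset.sum_subset sB fun x _ hx => by simp [hx])
    by_cases r : e * od P g x = N
    · rw [if_pos r, if_pos ⟨hx, r⟩, Nat.eq_of_mul_eq_mul_left (Nat.pos_of_ne_zero e0)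
        (r.trans hN.symm), smul_mul_assoc, smul_div_assoc]
    · simp [r]
  rw [e1, mem_mx_plO, ← P.ge1_iff] at q
  have q2 := q.mul (P.ge_ord ((∏ j, L.s j (plO P)) ^ od P g b))
  rw [div_mul_cancel₀ _ s0, P.ord_pow, hP.oS] at q2
  have q3 : P.Ge _ (b * g (plO P)) := ad _ _ q2 b (sB hb) (by rwa [if_pos ⟨hb, hN⟩])
  have q4 := q3.le (mul_ne_zero (hs b hb).1 (hg.ne hP.mem))
  rw [← od_eq hP.mem (hs b hb).2] at q4
  omega

end one

section two

variable {k M M' K : Type} [Field k] [Field M] [Field M'] [Field K] [Algebra k M] [Algebra k M']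
  [Algebra k K] {ι : M →ₐ[k] K} {ι' : M' →ₐ[k] K} {R : Subalgebra k M} {R' : Subalgebra k M'}
  {V : Subalgebra k K}

theorem core {e : ℕ} {A : K} {S : M} {S' : M'} (l : Lq e ι ι' R R' A S S') (hS : S ∈ mx R)
    (ov : Ov ι ι' R R' V) (hA : IsU V A) {I : Type} {s : Finset I} {p : I → M} {q : I → M'}
    {x y : I → ℕ} (hp : ∀ b ∈ s, IsU R (p b / S ^ x b)) (hq : ∀ b ∈ s, IsU R' (q b / S' ^ y b))
    (G : ∀ t ⊆ s, ∑ b ∈ t, ι (p b / S ^ x b) * ι' (q b / S' ^ y b) * A ^ (e * y b) ∈ mx V →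
      ∀ b ∈ t, p b / S ^ x b ∈ mx R) {b₀ : I} (h0 : b₀ ∈ s)
    (mn : ∀ b ∈ s, x b₀ + y b₀ ≤ x b + y b) :
    IsU V ((∑ b ∈ s, ι (p b) * ι' (q b)) / ι S ^ (x b₀ + y b₀)) := by
  have S0 : ι S ≠ 0 := (map_ne_zero ι).2 l.nS
  have A0 := l.ne
  have mS : ι S ∈ mx V := (mem_mx_comap ι).1 (ov.dom.mx hS)
  have mem : ∀ b ∈ s, ι (p b / S ^ x b) * ι' (q b / S' ^ y b) * A ^ (e * y b) ∈ V := fun b hb =>
    V.mul_mem (V.mul_mem (ov.dom.1 (hp b hb).mem) (ov.dom'.1 (hq b hb).mem)) (V.pow_mem hA.mem _)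
  have e1 : ∀ b ∈ s, ι (p b) * ι' (q b) / ι S ^ (x b₀ + y b₀) =
      ι (p b / S ^ x b) * ι' (q b / S' ^ y b) * A ^ (e * y b) *
        ι S ^ (x b + y b - (x b₀ + y b₀)) := fun b hb => by
    rw [pow_sub₀ _ S0 (mn b hb), map_div₀, map_div₀, map_pow, map_pow, ← l.eq, mul_pow, pow_mul,
      pow_add (ι S) (x b)]
    field_simp
  rw [Finset.sum_div, Finset.sum_congr rfl e1,
    ← Finset.sum_filter_add_sum_filter_not s fun b => x b + y b = x b₀ + y b₀]
  refine IsU.add_mx ov.loc ?_ (mx_sum ov.loc fun b hb => ?_)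
  · rw [Finset.sum_congr rfl fun b hb => by
      rw [(Finset.mem_filter.1 hb).2, Nat.sub_self, pow_zero, mul_one]]
    exact isU_of_not_mx (sum_mem fun b hb => mem b (Finset.mem_filter.1 hb).1) fun r =>
      (hp b₀ h0).not_mx (G _ (Finset.filter_subset _ _) r b₀ (Finset.mem_filter.2 ⟨h0, rfl⟩))
  · obtain ⟨h1, h2⟩ := Finset.mem_filter.1 hb
    exact mx_mul_left (mem b h1) (mx_pow mS (by have := mn b h1; omega))

end two

section geo

variable {k M M' K Λ Λ' κ κ' : Type} {n n' : ℕ} [Field k] [Field M] [Field M'] [Field K]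
  [Algebra k M] [Algebra k M'] [Algebra k K] [Fintype κ] [Fintype κ'] {L : Lv k M Λ κ n}
  {L' : Lv k M' Λ' κ' n'} {ι : M →ₐ[k] K} {ι' : M' →ₐ[k] K} {v : K} {e : ℕ}
  {Z : Set (Subalgebra k K)}

theorem fin (h : Geo L L' ι ι' v e Z) {i : κ} {j : κ'} {P : Place k M} {P' : Place k M'}
    (hP : Pc L i P) (hP' : Pc L' j P') {V : Subalgebra k K} (hV : IsVal V)
    (ov : Ov ι ι' (plO P) (plO P') V) (hA : IsU V (A0 L L' ι ι' v e (plO P) (plO P')))
    {g : Subalgebra k M → M} {g' : Subalgebra k M' → M'} {a : κ → κ' → ℤ} {t : K}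
    (s : Sc Z (lb L L' ι ι' g g' a) t) {N : ℕ}
    (u : IsU V (t * ι (g (plO P)) * ι' (g' (plO P')) / ι (∏ i, L.s i (plO P)) ^ N)) :
    a i j ≤ N := by
  classical
  obtain ⟨O, hO, d, r, r'⟩ := h.below hP.mem hP'.mem hV ov
  have eA : AA L L' ι ι' v e O = A0 L L' ι ι' v e (plO P) (plO P') := by rw [AA, r, r']
  have mA : AA L L' ι ι' v e O ∈ O := (h.aa O hO).elim id fun q => by
    simpa using (d.2 _ q (eA ▸ hA.inv)).inv_mem
  have m1 : sX L ι i O ∈ mx O := (h.s_mx hO i).2 (r ▸ hP.mxs)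
  have m2 : sX L' ι' j O ∈ mx O := (h.symm.s_mx hO j).2 (r' ▸ hP'.mxs)
  have u1 : IsU V (∏ j' ∈ Finset.univ.erase j, EE L L' ι ι' i j' O ^ (-a i j')) :=
    (isU_prod fun j' q => (h.eu hO i j' (Or.inr (isU_of_not_mx (h.symm.sm hO j') fun b =>
      Finset.ne_of_mem_erase q (h.symm.s1 hO _ _ b m2)))).zpow _).mono d.1
  have u2 : IsU V (∏ i' ∈ Finset.univ.erase i, ∏ j', EE L L' ι ι' i' j' O ^ (-a i' j')) :=
    (isU_prod fun i' q => isU_prod fun j' _ => (h.eu hO i' j' (Or.inl (isU_of_not_mx (h.sm hO i')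
      fun b => Finset.ne_of_mem_erase q (h.s1 hO _ _ b m1)))).zpow _).mono d.1
  have s0 : ∏ i, L.s i (plO P) ≠ 0 := Finset.prod_ne_zero_iff.2 fun j _ => (h.ok.cs j).ne hP.mem
  have S0 : ι (∏ i, L.s i (plO P)) ≠ 0 := (map_ne_zero ι).2 s0
  have n0 := (h.ok.cs i).ne hP.mem
  have u3 : IsU V (ι (L.s i (plO P) / ∏ i, L.s i (plO P))) := (isU_comap ι).1
    (((isU_plO' P).2 ⟨div_ne_zero n0 s0, by rw [P.ord_div n0 s0, hP.os, hP.oS, sub_self]⟩).mono
      ov.dom.1)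
  have u4 : IsU V (EE L L' ι ι' i j O / ι (∏ i, L.s i (plO P))) := by
    have := ((h.eT hO i j mA m2).mono d.1).mul u3
    rwa [sX, up, r, map_div₀, div_mul_div_cancel₀ ((map_ne_zero ι).2 n0)] at this
  have mS : ι (∏ i, L.s i (plO P)) ∈ mx V :=
    (mem_mx_comap ι).1 (ov.dom.mx ((mx_plO s0).2 (by rw [hP.oS]; exact one_pos)))
  have w := d.1 (s O hO)
  rw [lb, up, up, r, r', ← Finset.mul_prod_erase _ _ (Finset.mem_univ i),
    ← Finset.mul_prod_erase _ _ (Finset.mem_univ j)] at w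
  by_contra q
  obtain ⟨c, hc⟩ : ∃ c : ℕ, a i j = N + (c + 1 : ℕ) := ⟨(a i j - N - 1).toNat, by omega⟩
  have w2 := (((u.mul (u4.zpow (-a i j))).mul u1).mul u2).div_mem w
  have E0 := (div_ne_zero_iff.1 u4.1).1
  have T0 := (div_ne_zero_iff.1 u.1).1
  refine (mx_pow mS (Nat.succ_ne_zero c)).2 ⟨pow_ne_zero _ S0, V.pow_mem mS.1 _, ?_⟩
  refine Eq.subst (motive := (· ∈ V)) ?_ w2
  have t0 := left_ne_zero_of_mul (left_ne_zero_of_mul T0)
  have t1 := right_ne_zero_of_mul (left_ne_zero_of_mul T0)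
  have t2 := right_ne_zero_of_mul T0
  have t3 := u1.1
  have t4 := u2.1
  rw [div_zpow, hc, zpow_neg, zpow_neg, zpow_add₀ S0, zpow_natCast, zpow_natCast]
  have t5 := zpow_ne_zero ((N : ℤ) + (c + 1 : ℕ)) E0
  field_simp

end geo

end OrdA

open OrdA in
theorem ord_stmt : OrdStmt := by
  intro hK hG hB k M M' K Λ Λ' κ κ' n n' _ _ _ _ _ _ _ _ _ _ _ L L' ι ι' v e Z h ⟨j₁, j₂, two⟩
    g g' a hg hg' I s m m' hm hs
  classical
  choose P hP using plc h.ok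
  choose P' hP' using plc h.ok'
  have : FiniteDimensional k (Submodule.span k (m' '' s)) :=
    FiniteDimensional.span_of_finite k (s.finite_toSet.image _)
  obtain ⟨B, sp, ad⟩ := hB k M' (Submodule.span k (m' '' s)) _ _
    (chain (P' j₁) (g' (plO (P' j₁)))) (chain (P' j₂) (g' (plO (P' j₂))))
  have ex : ∀ b, ∃ f : M' → k, b ∈ s → ∑ x ∈ B, f x • x = m' b := fun b => by
    by_cases hb : b ∈ s
    · have : m' b ∈ Submodule.span k (B : Set M') := sp ▸ Submodule.subset_span ⟨b, hb, rfl⟩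
      obtain ⟨f, -, q⟩ := Submodule.mem_span_finset.1 this
      exact ⟨f, fun _ => q⟩
    · exact ⟨0, fun q => (hb q).elim⟩
  choose f hf using ex
  have sc : ∀ x, Sc L.Y g (∑ b ∈ s, f b x • m b) := fun x =>
    (Ss L.Y g).sum_mem fun b hb => (Ss L.Y g).smul_mem _ (hm b hb).1
  have sc' : ∀ x ∈ B, Sc L'.Y g' x := fun x hx =>
    (Submodule.span_le (p := Ss L'.Y g')).2 (by rintro _ ⟨b, hb, rfl⟩; exact (hm b hb).2)
      (sp ▸ Submodule.subset_span hx)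
  obtain ⟨c, hc⟩ : ∃ c : M' → M, c = fun x => ∑ b ∈ s, f b x • m b := ⟨_, rfl⟩
  have eq : ∑ b ∈ s, ι (m b) * ι' (m' b) = ∑ x ∈ B, ι (c x) * ι' x := by
    simp only [hc, map_sum, Finset.sum_mul]
    rw [Finset.sum_comm]
    refine Finset.sum_congr rfl fun b hb => ?_
    rw [← hf b hb, map_sum, Finset.mul_sum]
    exact Finset.sum_congr rfl fun x _ => by
      rw [map_smul, map_smul, mul_smul_comm, smul_mul_assoc]
  replace sc : ∀ x, Sc L.Y g (c x) := hc ▸ sc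
  refine ⟨B, c, eq, fun b hb c0 b0 => ⟨_, _, tm h.ok hP hg c0 (sc b),
    tm h.ok' hP' hg' b0 (sc' b hb), fun i j => ?_⟩⟩
  have l := h.lq (hP i).mem (hP' j).mem
  have mS : ∏ i', L.s i' (plO (P i)) ∈ mx (plO (P i)) :=
    (mx_plO l.nS).2 (by rw [(hP i).oS]; exact one_pos)
  obtain ⟨V, hV, ov, hA, G⟩ := hG hK k M M' K ι ι' e _ _ _ _ _ l mS
    ((mx_plO l.nS').2 (by rw [(hP' j).oS]; exact one_pos))
  obtain ⟨b₀, h0, mn⟩ := (B.filter fun x => c x ≠ 0 ∧ x ≠ 0).exists_min_image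
    (fun x => od (P i) g (c x) + od (P' j) g' x) ⟨b, Finset.mem_filter.2 ⟨hb, c0, b0⟩⟩
  have hp := fun x (hx : x ∈ B.filter fun x => c x ≠ 0 ∧ x ≠ 0) =>
    unit_od h.ok (hP i) hg (Finset.mem_filter.1 hx).2.1 (sc x)
  have hq := fun x (hx : x ∈ B.filter fun x => c x ≠ 0 ∧ x ≠ 0) =>
    unit_od h.ok' (hP' j) hg' (Finset.mem_filter.1 hx).2.2 (sc' x (Finset.mem_filter.1 hx).1)
  have u := core l mS ov hA hp hq (fun t ht => G M' t _ _ _
    (fun x hx => ⟨(hp x (ht hx)).mem, (hq x (ht hx)).mem⟩)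
    (indep h.ok' (hP' j) hg' (ht.trans (Finset.filter_subset _ _))
      (fun x hx => ⟨(Finset.mem_filter.1 (ht hx)).2.2, sc' x (Finset.mem_filter.1 (ht hx)).1⟩)
      (fun N => ad _ ((two j).elim (fun q => Or.inl ⟨N, by rw [q]⟩) fun q => Or.inr ⟨N, by rw [q]⟩))
      h.ext.e0)) h0 mn
  refine (fin h (hP i) (hP' j) hV ov hA hs (Eq.subst (motive := fun z => IsU V (z / _)) ?_ u)).trans
    (by exact_mod_cast mn b (Finset.mem_filter.2 ⟨hb, c0, b0⟩))
  rw [eq, Finset.sum_mul, Finset.sum_mul, Finset.sum_filter]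
  refine Finset.sum_congr rfl fun x _ => ?_
  split_ifs with q
  · rw [map_mul, map_mul]
    ring
  · rcases not_and_or.1 q with q | q <;> simp [not_not.1 q]

end Pool.Agent.MP_20d318_ag.AM
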