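import Pool.Agent.MP_20d318_ag.AM.VSpec

/-! The pseudo-effective cone of the surface is spanned by prime classes. -/

set_option autoImplicit false

namespace Pool.Agent.MP_20d318_ag.AM

open Pool.Agent.MP_20d318_ag.Lat Pool.Agent.MP_20d318_ag.CB
open Pool.Agent.MP_fd6584_ag.MV (Ko_F)

theorem pel_stmt : PelStmt := by
  classical
  intro m ι κ _ _ Λ h
  obtain ⟨hV, hG⟩ := m.vert ι κ Λ h
  obtain ⟨p1, p2⟩ := m.peA ι κ Λ h
  rcases h.ns.sq0.lt_or_eq with hF | hF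
  · exact p1 ((m.biA ι κ Λ h hF).1 _ hG)
  replace hF := hF.symm
  obtain ⟨-, T, hT⟩ := endB1_stmt ι κ Λ h.ns h.hg h.l1 hF
  have hc := fun X' => m.cut m.low ι κ Λ X' h hF
  intro M hM
  have h0 : 0 ≤ ip Λ.B M (toR Λ.F) := ip_comm (R := ℝ) h.ns.sym _ M ▸ hM _
    (Ko_F hF.ge ▸ (h.l1.nefr _).2 (h.l1.pn _ (h.ns.memC _) hF.ge))
  rcases h0.lt_or_eq with h0 | h0
  · exact m.peB ι κ Λ T h hF hT (fun X' a => (hc X' a).2) hG (m.nefF ι κ Λ T h hF hT hc hG) M hM h0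
  · exact p2 m.low hF hV hG M hM h0.symm

end Pool.Agent.MP_20d318_ag.AM
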