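import Pool.Agent.MP_20d318_ag.AM.MSpec

/-! The map on classes. -/

set_option autoImplicit false
set_option linter.unusedSectionVars false

namespace Pool.Agent.MP_20d318_ag.AM

open Pool.Agent.MP_fd6584_ag Pool.Agent.MP_fd6584_ag.Fn Pool.Agent.CBk
open Pool.Agent.MP_fd6584_ag.AG hiding deg_inv deg_congr deg_of_unit deg_mul deg_prod deg_zpow
  deg_eq_zero deg_nonneg deg_div deg_pow
open Pool.Agent.MVg (Sc Fac Av)
open Pool.Agent.MP_20d318_ag.CH (cl cl_val cl_mem cl_eff n1_ext n1_eq)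
open Pool.Agent.MP_20d318_ag.Lat (cone IsCone RP Intg Concl isCone_cone subset_cone)


namespace PsiA

variable {k K : Type} [Field k] [IsAlgClosed k] [Field K] [Algebra k K]
  {X Z : Set (Subalgebra k K)} {f f' g g' : Subalgebra k K → K} {m m' : ℕ}

theorem canc {W : Type*} [AddCommGroup W] [Module ℝ W] {n : ℕ} (hn : 0 < n) {x y : W}
    (h : n • x = n • y) : x = y := by
  rw [← Nat.cast_smul_eq_nsmul ℝ, ← Nat.cast_smul_eq_nsmul ℝ] at h
  exact smul_right_injective W (show (n : ℝ) ≠ 0 by positivity) h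

theorem key (r : Ref X) (s : Sm X Z) (hf : IsCart X f) (hg : IsCart X g) (hf' : IsCart Z f')
    (hg' : IsCart Z g') (a : Mt X f f' m) (b : Mt X g g' m') (e : cl X f = cl X g) :
    m' • cl Z f' = m • cl Z g' := by
  have gX : Good X := r.nice.toFine.toGood
  have gZ : Good Z := s.nice.toFine.toGood
  obtain ⟨n, μ, hn, h⟩ := r.nl (f / g) (hf.div hg) (by rw [cl_div gX hf hg, e, sub_self])
  obtain ⟨O, hO, -⟩ := gX.cpl ⊤ fun _ => Or.inl trivial
  have hμ : μ ≠ 0 := left_ne_zero_of_mul (h O hO).1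
  have h1 : cl Z (f' ^ (n * m')) = cl Z (g' ^ (n * m)) := by
    refine cl_lin gZ (hf'.pow _) (hg'.pow _) (μ := μ ^ (m * m')) fun O hO => ?_
    refine s.nice.unit_div (f := fun O => μ ^ (m * m') * (f' ^ (n * m')) O)
      ((isCart_const (pow_ne_zero _ hμ)).mul (hf'.pow _)) (hg'.pow _) hO fun P hP => ?_
    have hX := (s.pl P).1 hP
    have h2 := ((isU_plO' P).1 (h _ hX)).2
    rw [P.ord_mul hμ (pow_ne_zero _ ((hf.div hg).ne hX)), P.ord_pow, Pi.div_apply,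
      P.ord_div (hf.ne hX) (hg.ne hX)] at h2
    rw [P.ord_mul (pow_ne_zero _ hμ) ((hf'.pow _).ne hP), Pi.pow_apply, Pi.pow_apply, P.ord_pow,
      P.ord_pow, P.ord_pow, a P hX, b P hX]
    push_cast
    linear_combination ((m : ℤ) * m') * h2
  rw [cl_pow gZ hf', cl_pow gZ hg', mul_smul, mul_smul] at h1
  exact canc hn h1

variable (X Z) in
/-- The graph of the map. -/
def Rel (x : AG.N1 X) (y : AG.N1 Z) : Prop := ∃ (f f' : Subalgebra k K → K) (m : ℕ), 0 < m ∧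
  IsCart X f ∧ IsCart Z f' ∧ Mt X f f' m ∧ cl X f = x ∧ m • y = cl Z f'

theorem Rel.mt (r : Ref X) (s : Sm X Z) {y : AG.N1 Z} (h : Rel X Z (cl X f) y) (hf : IsCart X f)
    (hf' : IsCart Z f') (a : Mt X f f' m) : m • y = cl Z f' := by
  obtain ⟨g, g', n, hn, hg, hg', b, e, e'⟩ := h
  refine canc hn ?_
  rw [smul_comm, e', key r s hf hg hf' hg' a b e.symm]

theorem Rel.uniq (r : Ref X) (s : Sm X Z) {x : AG.N1 X} {y y' : AG.N1 Z} (h : Rel X Z x y)
    (h' : Rel X Z x y') : y = y' := by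
  obtain ⟨g, g', n, hn, hg, hg', b, rfl, e'⟩ := h'
  exact canc hn ((h.mt r s hg hg' b).trans e'.symm)

theorem Rel.add (r : Ref X) (s : Sm X Z) {x x' : AG.N1 X} {y y' : AG.N1 Z} (h : Rel X Z x y)
    (h' : Rel X Z x' y') : Rel X Z (x + x') (y + y') := by
  obtain ⟨f, f', m, hm, hf, hf', a, rfl, e⟩ := h
  obtain ⟨g, g', n, hn, hg, hg', b, rfl, e'⟩ := h'
  have gZ : Good Z := s.nice.toFine.toGood
  refine ⟨f * g, f' ^ n * g' ^ m, m * n, Nat.mul_pos hm hn, hf.mul hg, (hf'.pow n).mul (hg'.pow m),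
    fun P hP => ?_, cl_mul r.nice.toFine.toGood hf hg, ?_⟩
  · have hZ := (s.pl P).2 hP
    rw [Pi.mul_apply, Pi.mul_apply, P.ord_mul ((hf'.pow n).ne hZ) ((hg'.pow m).ne hZ),
      P.ord_mul (hf.ne hP) (hg.ne hP), Pi.pow_apply, Pi.pow_apply, P.ord_pow, P.ord_pow, a P hP,
      b P hP]
    push_cast
    ring
  · rw [cl_mul gZ (hf'.pow n) (hg'.pow m), cl_pow gZ hf', cl_pow gZ hg', ← e, ← e', smul_add,
      smul_smul, smul_smul, mul_comm n m]

theorem exists_rel (r : Ref X) (u : Upd X Z) (x : LL X) : ∃ y, Rel X Z x y := by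
  obtain ⟨f, hf, e⟩ := (mem_LL r.nice.toFine.toGood).1 x.2
  obtain ⟨m, f', hm, hf', a⟩ := u.up f hf
  refine ⟨(m : ℝ)⁻¹ • cl Z f', f, f', m, hm, hf, hf', a, e, ?_⟩
  rw [← Nat.cast_smul_eq_nsmul ℝ, smul_inv_smul₀ (by positivity)]

theorem n1_cl (g : AG.Aut X) (hf : IsCart X f) :
    g.n1 (cl X f) = cl X (Cartier.pull g ⟨f, hf⟩).f := by
  rw [CH.cl_eq hf, Aut.n1_n1, n1_eq]

end PsiA

open PsiA in
theorem psi_stmt : PsiStmt := by
  intro ext sol k K _ _ _ _ X r Z s u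
  choose F hF using exists_rel r u
  obtain ⟨Ψ, hΨ⟩ := ext sol (AG.N1 X) (AG.N1 Z) (LL X) (lt_LL r.fd)
    (AddMonoidHom.mk' F fun a b => (hF (a + b)).uniq r s ((hF a).add r s (hF b)))
  have mt : ∀ f f' (m : ℕ), IsCart X f → IsCart Z f' → Mt X f f' m →
      m • Ψ (cl X f) = cl Z f' := fun f f' m hf hf' a => by
    rw [hΨ ⟨cl X f, cl_mem hf⟩]
    exact (hF ⟨cl X f, cl_mem hf⟩).mt r s hf hf' a
  have dn : ∀ D : Cartier Z, ∃ f, IsCart X f ∧ Mt X f D.f 1 ∧ Ψ (cl X f) = D.n1 := fun D => by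
    obtain ⟨f, hf, a⟩ := u.dn D.f D.isCart
    exact ⟨f, hf, a, by rw [n1_eq, ← mt f D.f 1 hf D.isCart a, one_smul]⟩
  refine ⟨Ψ, u, mt, ?_, ?_, ?_, fun g g' e x => ?_⟩
  · rw [← LinearMap.range_eq_top, eq_top_iff, ← CH.span_cl, Submodule.span_le]
    rintro _ ⟨D, rfl⟩
    obtain ⟨f, -, -, h⟩ := dn D
    exact ⟨_, h⟩
  · refine fun x hx => ((isCone_cone _).preimage Ψ).cone_subset ?_ hx
    rintro _ ⟨D, hD, rfl⟩
    obtain ⟨m, f', hm, hf', a⟩ := u.up D.f D.isCart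
    have h1 : Ed Z f' := ed_of s.nice hf' fun P hP => by
      have hX := (s.pl P).1 hP
      rw [a P hX]
      exact mul_nonneg (Int.natCast_nonneg m) (mem_plO_ord.1 (hD _ hX))
    refine IsCone.of_nsmul (isCone_cone _) hm ?_
    rw [n1_eq, mt D.f f' m D.isCart hf' a]
    exact h1.ef
  · refine fun y hy => ((isCone_cone _).image Ψ).cone_subset ?_ hy
    rintro _ ⟨D, hD, rfl⟩
    obtain ⟨f, hf, a, h⟩ := dn D
    have h1 : Ed X f := ed_of r.nice hf fun P hP => by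
      have := a P hP
      have h2 := mem_plO_ord.1 (hD _ ((s.pl P).2 hP))
      rw [Nat.cast_one, one_mul] at this
      rwa [← this]
    exact ⟨_, h1.ef, h⟩
  · refine LinearMap.congr_fun (CH.lin_ext (a := Ψ ∘ₗ g.n1) (b := g'.n1 ∘ₗ Ψ) fun f hf => ?_) x
    obtain ⟨m, f', hm, hf', a⟩ := u.up f hf
    refine canc hm ?_
    rw [LinearMap.comp_apply, LinearMap.comp_apply, ← map_nsmul g'.n1, mt f f' m hf hf' a,
      n1_cl g hf, n1_cl g' hf']
    refine mt _ _ m (Cartier.isCart _) (Cartier.isCart _) fun P hP => ?_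
    have := a (MVg.pc g.1 P) ((g.2 _).1 hP)
    change P.ord (g'.1 (f' ((plO P).comap (g'.1 : K →ₐ[k] K)))) = _
    rw [← e]
    exact this

end Pool.Agent.MP_20d318_ag.AM
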