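import Pool.Agent.MP_20d318_ag.AM.VSpec
import Pool.Agent.MP_20d318_ag.AM.RPsi
import Pool.Agent.MP_fd6584_ag.MV.RowsG

/-! The action of the pseudo-automorphisms on classes. -/

set_option autoImplicit false
set_option linter.unusedSectionVars false

namespace Pool.Agent.MP_20d318_ag.AM

open Pool.Agent.MP_fd6584_ag.Fn Pool.Agent.CBk
open Pool.Agent.MP_fd6584_ag.AG hiding deg_inv deg_congr deg_of_unit deg_mul deg_prod deg_zpow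
  deg_eq_zero deg_nonneg deg_div deg_pow
open Pool.Agent.MVg (H1 PsA Pl PullStmt pc h1_plO)
open Pool.Agent.MP_20d318_ag.CH (cl cl_mem n1_eq lin_ext)

namespace PsaA

variable {k K : Type} [Field k] [IsAlgClosed k] [Field K] [Algebra k K]
  {X : Set (Subalgebra k K)} {σ : PsA X} {D E D' E' : Cartier X}

theorem ord_pl (h : Pl σ D E) (P : Place k K) (hP : plO P ∈ X) :
    P.ord (E.f (plO P)) = (pc σ.1 P).ord (D.f (plO (pc σ.1 P))) := by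
  have a := h _ hP (h1_plO P)
  have b := ((isU_plO' P).1 a).2
  rw [P.ord_div (div_ne_zero_iff.1 a.1).1 (div_ne_zero_iff.1 a.1).2] at b
  exact (sub_eq_zero.1 b).symm

theorem key (r : Ref X) (h : Pl σ D E) (h' : Pl σ D' E') (e : D.n1 = D'.n1) : E.n1 = E'.n1 := by
  have gX : Good X := r.nice.toFine.toGood
  rw [n1_eq, n1_eq] at e ⊢
  obtain ⟨n, μ, hn, u⟩ := r.nl (D.f / D'.f) (D.isCart.div D'.isCart)
    (by rw [cl_div gX D.isCart D'.isCart, e, sub_self])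
  obtain ⟨O, hO, -⟩ := gX.cpl ⊤ fun _ => Or.inl trivial
  have hμ : μ ≠ 0 := left_ne_zero_of_mul (u O hO).1
  have hσ : σ.1 μ ≠ 0 := (map_ne_zero σ.1).2 hμ
  have h1 : cl X (E.f ^ n) = cl X (E'.f ^ n) := by
    refine cl_lin gX (E.isCart.pow _) (E'.isCart.pow _) (μ := σ.1 μ) fun O hO => ?_
    refine r.nice.unit_div (f := fun O => σ.1 μ * (E.f ^ n) O)
      ((isCart_const hσ).mul (E.isCart.pow _)) (E'.isCart.pow _) hO fun P hP => ?_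
    have hX : plO (pc σ.1 P) ∈ X := σ.2.1 _ hP (h1_plO P)
    have h2 := ((isU_plO' (pc σ.1 P)).1 (u _ hX)).2
    rw [(pc σ.1 P).ord_mul hμ (pow_ne_zero _ ((D.isCart.div D'.isCart).ne hX)),
      (pc σ.1 P).ord_pow, Pi.div_apply,
      (pc σ.1 P).ord_div (D.isCart.ne hX) (D'.isCart.ne hX), MVg.pc_ord σ.1 P μ] at h2
    rw [P.ord_mul hσ ((E.isCart.pow _).ne hP), Pi.pow_apply, Pi.pow_apply, P.ord_pow,
      P.ord_pow, ord_pl h P hP, ord_pl h' P hP]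
    linear_combination h2
  rw [cl_pow gX E.isCart, cl_pow gX E'.isCart] at h1
  exact PsiA.canc hn h1

variable (σ) in
/-- The graph of the map. -/
def Rel (x y : N1 X) : Prop := ∃ D E, Pl σ D E ∧ D.n1 = x ∧ E.n1 = y

theorem Rel.add (r : Ref X) {x x' y y' : N1 X} (h : Rel σ x y) (h' : Rel σ x' y') :
    Rel σ (x + x') (y + y') := by
  have gX : Good X := r.nice.toFine.toGood
  obtain ⟨D, E, a, rfl, rfl⟩ := h
  obtain ⟨D', E', a', rfl, rfl⟩ := h'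
  refine ⟨⟨D.f * D'.f, D.isCart.mul D'.isCart⟩, ⟨E.f * E'.f, E.isCart.mul E'.isCart⟩,
    fun O hO h1 => ?_, ?_, ?_⟩
  · have := (a O hO h1).mul (a' O hO h1)
    rwa [div_mul_div_comm, ← map_mul] at this
  · rw [n1_eq, n1_eq, n1_eq]
    exact cl_mul gX D.isCart D'.isCart
  · rw [n1_eq, n1_eq, n1_eq]
    exact cl_mul gX E.isCart E'.isCart

theorem lin (ext : ExtStmt.{1}) (sol : SolStmt.{1}) (r : Ref X) (σ : PsA X)
    (ex : ∀ D : Cartier X, ∃ E, Pl σ D E) :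
    ∃ γ : N1 X →ₗ[ℝ] N1 X, ∀ D E, Pl σ D E → γ D.n1 = E.n1 := by
  have h0 : ∀ x : LL X, ∃ y, Rel σ x y := fun x => by
    obtain ⟨f, hf, e⟩ := (mem_LL r.nice.toFine.toGood).1 x.2
    obtain ⟨E, hE⟩ := ex ⟨f, hf⟩
    exact ⟨_, _, E, hE, (n1_eq _).trans e, rfl⟩
  have un : ∀ {x y y' : N1 X}, Rel σ x y → Rel σ x y' → y = y' := by
    rintro _ _ _ ⟨D, E, a, rfl, rfl⟩ ⟨D', E', a', e, rfl⟩
    exact key r a a' e.symm
  choose F hF using h0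
  obtain ⟨γ, hγ⟩ := ext sol (N1 X) (N1 X) (LL X) (lt_LL r.fd)
    (AddMonoidHom.mk' F fun a b => un (hF (a + b)) ((hF a).add r (hF b)))
  refine ⟨γ, fun D E a => ?_⟩
  have m : D.n1 ∈ LL X := by rw [n1_eq]; exact cl_mem D.isCart
  exact (hγ ⟨_, m⟩).trans (un (hF ⟨_, m⟩) ⟨D, E, a, rfl, rfl⟩)

end PsaA

open MVg.Psg in
theorem psa_stmt : PsaStmt := by
  intro ext sol pull k K _ _ _ _ X r
  have ex := pull k K X r.nice r.fac
  choose γ hγ using fun σ => PsaA.lin ext sol r σ (ex σ)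
  have hi : ∀ σ, γ (inv σ) ∘ₗ γ σ = LinearMap.id := fun σ => lin_ext fun f hf => by
    obtain ⟨E, hE⟩ := ex σ ⟨f, hf⟩
    rw [CH.cl_eq hf, LinearMap.comp_apply, hγ _ _ _ hE, hγ _ _ _ (pl_inv hE), LinearMap.id_apply]
  have rep : ∀ σ : PsA X, ∃ δ : N1 X ≃ₗ[ℝ] N1 X, ∀ D E, Pl σ D E → δ D.n1 = E.n1 := fun σ =>
    ⟨LinearEquiv.ofLinearMap (γ σ) (γ (inv σ)) (hi (inv σ)) (hi σ), hγ σ⟩
  have hm : ∀ {σ τ : PsA X} {a b : N1 X ≃ₗ[ℝ] N1 X}, (∀ D E, Pl σ D E → a D.n1 = E.n1) →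
      (∀ D E, Pl τ D E → b D.n1 = E.n1) → ∀ D E, Pl (mul σ τ) D E → (a * b) D.n1 = E.n1 :=
    fun {σ τ a b} ha hb D F h => by
      obtain ⟨E, hE⟩ := ex τ D
      rw [LinearEquiv.mul_apply, hb D E hE, ha E F (pl_cancel h hE)]
  have hn : ∀ {σ : PsA X} {a : N1 X ≃ₗ[ℝ] N1 X}, (∀ D E, Pl σ D E → a D.n1 = E.n1) →
      ∀ D E, Pl (inv σ) D E → a⁻¹ D.n1 = E.n1 := fun {σ a} ha D E h => by
    rw [← ha E D (pl_inv h)]
    exact a.symm_apply_apply _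
  refine ⟨⟨⟨⟨{δ | ∃ σ : PsA X, ∀ D E, Pl σ D E → δ D.n1 = E.n1}, ?_⟩, ?_⟩, ?_⟩,
    fun σ => (rep σ).imp fun δ h => ⟨⟨σ, h⟩, h⟩, fun δ h => h, fun g => ?_⟩
  · rintro a b ⟨σ, ha⟩ ⟨τ, hb⟩
    exact ⟨_, hm ha hb⟩
  · obtain ⟨a, ha⟩ := rep one
    exact ⟨_, mul_inv_cancel a ▸ hm ha (hn ha)⟩
  · rintro a ⟨σ, ha⟩
    exact ⟨_, hn ha⟩
  · obtain ⟨a, ha⟩ := rep (ofAut g)
    refine ⟨a, ⟨_, ha⟩, fun x => LinearMap.congr_fun
      (lin_ext (a := (a : N1 X →ₗ[ℝ] N1 X)) (b := g.n1) fun f hf => ?_) x⟩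
    rw [CH.cl_eq hf, Aut.n1_n1]
    exact ha _ _ (pl_pull g _)

end Pool.Agent.MP_20d318_ag.AM
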