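import Pool.Agent.MP_20d318_ag.AM.VSpec

/-! Row PTD: the effective cone contains no line. -/

set_option autoImplicit false
set_option linter.unusedSectionVars false

namespace Pool.Agent.MP_20d318_ag.AM

open Pool.Agent.MP_fd6584_ag.Fn Pool.Agent.CBk
open Pool.Agent.MP_fd6584_ag.AG hiding deg_inv deg_congr deg_of_unit deg_mul deg_prod deg_zpow
  deg_eq_zero deg_nonneg deg_div deg_pow
open Pool.Agent.MP_20d318_ag.CH (cl cl_mem n1_eq)
open Pool.Agent.MP_20d318_ag.Lat (IsCone isCone_cone)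

namespace PtdA

variable {k K : Type} [Field k] [IsAlgClosed k] [Field K] [Algebra k K] {X : Set (Subalgebra k K)}

/-- Global functions are constant. -/
theorem const (hX : Good X) {φ : K} (h : ∀ O ∈ X, φ ∈ O) : φ ∈ (⊥ : Subalgebra k K) := by
  have hl : IsLocalRing (⊥ : Subalgebra k K) := isLocalRing_of fun a ha b hb => by
    obtain ⟨c, rfl⟩ := Algebra.mem_bot.1 ha.1
    rwa [const_mem_mx.1 ha, map_zero, zero_add]
  have hn : Nrm (⊥ : Subalgebra k K) := fun f hf => by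
    have : Algebra.IsIntegral k (⊥ : Subalgebra k K) := ⟨fun x => by
      obtain ⟨c, hc⟩ := Algebra.mem_bot.1 x.2
      rw [show x = algebraMap k _ c from Subtype.ext hc.symm]
      exact isIntegral_algebraMap⟩
    exact Algebra.mem_bot.2 (((IsAlgClosed.algebraMap_bijective_of_isIntegral (k := k)
      (K := integralClosure k K)).2 ⟨f, isIntegral_trans f hf⟩).imp fun c q =>
        congrArg Subtype.val q)
  by_contra h2
  obtain ⟨V, hV, -, h3⟩ := exists_val_not_mem hl hn h2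
  obtain ⟨O, hO, hd⟩ := hX.cpl V hV
  exact h3 (hd.1 (h O hO))

theorem gen (r : Ref X) {e : Subalgebra k K → K} (he : Ed X e) (h : -cl X e ∈ Glue.Ef X) :
    cl X e = 0 := by
  have g := r.nice.toGood
  obtain ⟨m, e', m0, he', q⟩ := r.ef _ (neg_mem (cl_mem he.1)) h
  have hf := (he.pow m).mul he'
  obtain ⟨n, μ, n0, hu⟩ := r.nl _ hf.1 (by
    rw [cl_mul g (he.pow m).1 he'.1, cl_pow g he.1, q, smul_neg, add_neg_cancel])
  obtain ⟨c, hc⟩ := Algebra.mem_bot.1 (const g (φ := μ⁻¹) fun O hO => by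
    have := (hu O hO).div_mem (O.pow_mem (hf.2 O hO) n)
    rwa [div_mul_cancel_right₀ (right_ne_zero_of_mul (hu O hO).1)] at this)
  refine cl_unit g he.1 fun O hO => ?_
  have μ0 := left_ne_zero_of_mul (hu O hO).1
  have h1 : IsU O μ⁻¹ := hc ▸ isU_const fun z => inv_ne_zero μ0 (by rw [← hc, z, map_zero])
  have h2 := h1.mul (hu O hO)
  rw [inv_mul_cancel_left₀ μ0] at h2
  exact IsU.of_pow (he.2 O hO) m0.ne' (IsU.of_mul ((he.pow m).2 O hO) (he'.2 O hO)
    (IsU.of_pow (hf.2 O hO) n0.ne' h2))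

end PtdA

theorem ptd_stmt : PtdStmt := by
  intro _ k K _ _ _ _ X r x hx
  have ce : IsCone (Glue.Ef X) := isCone_cone _
  have cs : IsCone {x | x ∈ Glue.Ef X ∧ (-x ∈ Glue.Ef X → x = 0)} := by
    refine ⟨⟨ce.zero, fun _ => rfl⟩, fun x a y b => ⟨ce.add _ a.1 _ b.1, fun h => ?_⟩,
      fun c hc x a => ⟨ce.smul c hc _ a.1, fun h => ?_⟩⟩
    · have x0 := a.2 (by simpa using ce.add _ h _ b.1)
      rw [x0, zero_add] at h ⊢
      exact b.2 h
    · rcases hc.eq_or_lt with rfl | hc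
      · exact zero_smul _ _
      · have := ce.smul c⁻¹ (inv_nonneg.2 hc.le) _ h
        rw [smul_neg, inv_smul_smul₀ hc.ne'] at this
        rw [a.2 this, smul_zero]
  refine (cs.cone_subset ?_ hx).2
  rintro _ ⟨D, hD, rfl⟩
  have he : Ed X D.f := ⟨D.isCart, hD⟩
  rw [n1_eq]
  exact ⟨he.ef, PtdA.gen r he⟩

end Pool.Agent.MP_20d318_ag.AM
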