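import Pool.Agent.MP_20d318_ag.AM.VSpec

/-! The effective cone of the surface is closed along rays. -/

set_option autoImplicit false
set_option linter.unusedSectionVars false

namespace Pool.Agent.MP_20d318_ag.AM

open Pool.Agent.MP_20d318_ag.CB
open Pool.Agent.MP_20d318_ag.Lat (cone)
open Pool.Agent.MP_fd6584_ag.MV (Ab mem_Ab Po_F isCone_Ab)

namespace RcbA

theorem nonneg_of {s t : ℝ} (h : ∀ ε : ℝ, 0 < ε → 0 ≤ s + ε * t) : 0 ≤ s := by
  refine le_of_forall_pos_le_add fun δ hδ => (h (δ / (|t| + 1)) (by positivity)).trans ?_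
  rw [add_le_add_iff_left, div_mul_eq_mul_div, div_le_iff₀ (by positivity)]
  exact mul_le_mul_of_nonneg_left (by linarith [le_abs_self t]) hδ.le

end RcbA

theorem rcb_stmt : RcbStmt := by
  intro k M I κ _ _ _ _ _ _ _ p _ h _ pe G ψ iso x a _ hx
  obtain ⟨x, rfl⟩ := ψ.surjective x
  obtain ⟨a, rfl⟩ := ψ.surjective a
  have k1 : cone (toR '' p.ld.P) ⊆ Ab p.ld p.ld.F := (isCone_Ab _).cone_subset (by
    rintro _ ⟨c, hc, rfl⟩
    exact mem_Ab (AddSubmonoid.subset_closure ((Po_F h.ns.sq0).ge hc)))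
  refine (iso.Ef x).2 (pe fun ν hν => RcbA.nonneg_of (t := ip p.ld.B ν a) fun ε hε => ?_)
  have := k1 ((iso.Ef (x + ε • a)).1 (by rw [map_add, map_smul]; exact hx ε hε)) ν hν
  rwa [ip_add_right, ip_smul_right] at this

end Pool.Agent.MP_20d318_ag.AM
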