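import Pool.Agent.MP_20d318_ag.AM.VSpec
import Pool.Agent.MP_20d318_ag.AM.RMds

/-! The effective cone of the next level is closed along rays. -/

set_option autoImplicit false
set_option linter.unusedSectionVars false

namespace Pool.Agent.MP_20d318_ag.AM

open Pool.Agent.MP_fd6584_ag.Fn Pool.Agent.CBk
open Pool.Agent.MP_fd6584_ag.AG hiding deg_inv deg_congr deg_of_unit deg_mul deg_prod deg_zpow
  deg_eq_zero deg_nonneg deg_div deg_pow
open Pool.Agent.MP_20d318_ag.CH (Lv cl)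
open Pool.Agent.MP_20d318_ag.KK
open Pool.Agent.MP_20d318_ag.Lat (cone IsCone RP isCone_cone subset_cone)

namespace RcsA

theorem two {k K : Type} [Field k] [Field K] [Algebra k K] {X : Set (Subalgebra k K)}
    {x y : N1 X} (hx : x ∈ Glue.Ef X) (hy : y ∈ Glue.Ef X) : ∃ R : Set (N1 X), R.Finite ∧
      R ⊆ LL X ∧ R ⊆ Glue.Ef X ∧ x ∈ cone R ∧ y ∈ cone R := by
  obtain ⟨Q, q1, q2⟩ := exists_fin hx
  obtain ⟨S, s1, s2⟩ := exists_fin hy
  have u := Set.union_subset q1 s1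
  refine ⟨Q ∪ S, Q.finite_toSet.union S.finite_toSet, fun z hz => ?_, u.trans (subset_cone _),
    Lat.cone_mono Set.subset_union_left q2, Lat.cone_mono Set.subset_union_right s2⟩
  obtain ⟨D, -, rfl⟩ := u hz
  exact AddSubgroup.subset_closure ⟨D, rfl⟩

end RcsA

theorem rcs_stmt : RcsStmt := by
  intro hI hR hE k M M' K Λ Λ' κ κ' n n' _ _ _ _ _ _ _ _ _ _ _ L L' ι ι' v e h i d c s r m m' rc
    rc' x a ha hx
  obtain ⟨A, rfl, a1, a2⟩ := c.dn a ha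
  obtain ⟨D, rfl⟩ : ∃ D, h.Phi D = x := by
    obtain ⟨E, q, -⟩ := c.dn _ (hx 1 one_pos)
    exact ⟨E - A, (map_sub _ _ _).trans (sub_eq_iff_eq_add.2 (q.trans (by rw [one_smul]; rfl)))⟩
  have e : ∀ ε : ℝ, h.Phi (D + ε • A) = h.Phi D + ε • h.Phi A := fun ε => by
    rw [map_add, map_smul]
  have key : ∀ ε : ℝ, 0 < ε → (D + ε • A).1 ∈ Glue.Ef L.Y ∧ (D + ε • A).2.1 ∈ Glue.Ef L'.Y :=
    fun ε hε => by
      obtain ⟨E, q, p⟩ := c.dn _ (hx ε hε)
      obtain rfl : E = D + ε • A := i (q.trans (e ε).symm)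
      exact p
  obtain ⟨R, f, l, p, u, w⟩ := RcsA.two (rc D.1 A.1 a1 fun ε hε => (key ε hε).1) a1
  obtain ⟨R', f', l', p', u', w'⟩ := RcsA.two (rc' D.2.1 A.2.1 a2 fun ε hε => (key ε hε).2) a2
  obtain ⟨_, ⟨T, -, rfl⟩, t2, t3⟩ := hE hI k K _ r _ (MdsA.rp d f f' l l')
    ((s R R' (m.fs R f l p) (m'.fs R' f' l' p')).mono (Set.image_mono fun D q =>
      ⟨Lat.cone_mono Set.subset_union_left q.1, Lat.cone_mono Set.subset_union_left q.2⟩))
  refine t2 (hR _ T _ (h.Phi A) fun δ hδ => ⟨δ, hδ, le_rfl, t3 ⟨hx δ hδ, D + δ • A, ⟨?_, ?_⟩,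
    e δ⟩⟩)
  · exact (isCone_cone _).add _ u _ ((isCone_cone _).smul _ hδ.le _ w)
  · exact (isCone_cone _).add _ u' _ ((isCone_cone _).smul _ hδ.le _ w')

end Pool.Agent.MP_20d318_ag.AM
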