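import Pool.Agent.MP_20d318_ag.AM.MSpec

/-! First consequences for the reference model. -/

set_option autoImplicit false
set_option linter.unusedSectionVars false

namespace Pool.Agent.MP_20d318_ag.AM

open Pool.Agent.MP_fd6584_ag Pool.Agent.MP_fd6584_ag.Fn Pool.Agent.CBk
open Pool.Agent.MP_fd6584_ag.AG hiding deg_inv deg_congr deg_of_unit deg_mul deg_prod deg_zpow
  deg_eq_zero deg_nonneg deg_div deg_pow
open Pool.Agent.MVg (Sc Fac Av)
open Pool.Agent.MP_20d318_ag.CH (cl cl_val cl_mem cl_eff n1_ext n1_eq)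
open Pool.Agent.MP_20d318_ag.Lat (cone IsCone RP Intg Concl isCone_cone subset_cone)

namespace RefA

variable {k K : Type} [Field k] [IsAlgClosed k] [Field K] [Algebra k K]
  {X : Set (Subalgebra k K)} {e e' : Subalgebra k K → K} {O : Subalgebra k K} {x y : AG.N1 X}
  {m m' : ℕ}

theorem ord_mix (h : IsCart X e) (h' : IsCart X e') {P : Place k K} (hP : plO P ∈ X) :
    P.ord ((e ^ m' * e' ^ m) (plO P)) = m' * P.ord (e (plO P)) + m * P.ord (e' (plO P)) := by
  rw [Pi.mul_apply, Pi.pow_apply, Pi.pow_apply,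
    P.ord_mul (pow_ne_zero _ (h.ne hP)) (pow_ne_zero _ (h'.ne hP)), P.ord_pow, P.ord_pow]

theorem cl_mix (hX : Good X) (h : IsCart X e) (h' : IsCart X e') (c : cl X e = m • x)
    (c' : cl X e' = m' • y) : cl X (e ^ m' * e' ^ m) = (m * m') • (x + y) := by
  rw [cl_mul hX (h.pow _) (h'.pow _), cl_pow hX h, cl_pow hX h', c, c', smul_smul, smul_smul,
    mul_comm m' m, smul_add]

theorem un_mix (h : IsCart X e) (h' : IsCart X e') (u : Un X e O) (u' : Un X e' O) :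
    Un X (e ^ m' * e' ^ m) O := fun P a b => by
  rw [ord_mix h h' a, u P a b, u' P a b, mul_zero, mul_zero, add_zero]

/-- A property of effective divisors that is stable under products passes to the monoid. -/
theorem clos (hX : Good X) {p : (Subalgebra k K → K) → Prop} (h1 : p 1)
    (hm : ∀ e e' (m m' : ℕ), IsCart X e → IsCart X e' → p e → p e' → p (e ^ m' * e' ^ m))
    {R : Set (AG.N1 X)} (hR : ∀ x ∈ R, ∃ (m : ℕ) (e : Subalgebra k K → K), 0 < m ∧ Ed X e ∧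
      cl X e = m • x ∧ p e) {n : ℕ} (hn : 0 < n) (hx : n • x ∈ AddSubmonoid.closure R) :
    ∃ (m : ℕ) (e : Subalgebra k K → K), 0 < m ∧ Ed X e ∧ cl X e = m • x ∧ p e := by
  have key : ∀ z ∈ AddSubmonoid.closure R, ∃ (m : ℕ) (e : Subalgebra k K → K), 0 < m ∧ Ed X e ∧
      cl X e = m • z ∧ p e := fun z hz => by
    induction hz using AddSubmonoid.closure_induction with
    | mem z hz => exact hR z hz
    | zero => exact ⟨1, 1, one_pos, ed_one, by rw [cl_one hX, smul_zero], h1⟩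
    | add z w _ _ a b =>
      obtain ⟨m, e, a1, a2, a3, a4⟩ := a
      obtain ⟨m', e', b1, b2, b3, b4⟩ := b
      exact ⟨m * m', e ^ m' * e' ^ m, Nat.mul_pos a1 b1, (a2.pow _).mul (b2.pow _),
        cl_mix hX a2.1 b2.1 a3 b3, hm e e' m m' a2.1 b2.1 a4 b4⟩
  obtain ⟨m, e, a1, a2, a3, a4⟩ := key _ hx
  exact ⟨m * n, e, Nat.mul_pos a1 hn, a2, by rw [a3, smul_smul], a4⟩

end RefA

open RefA in
theorem ref_stmt : RefStmt := by
  intro hs k K _ _ _ _ X r
  have hX := r.nice.toGood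
  refine ⟨r, fun x hx O h => ?_, fun x hx h => ?_, ?_, ?_⟩
  · obtain ⟨n, hn, h⟩ := hs _ _ (lt_LL r.fd) _ (fun _ a => a.1) x hx h
    exact clos hX (p := fun e => Un X e O) (fun P _ _ => P.ord_one)
      (fun _ _ _ _ a b => un_mix a b) (fun _ a => a.2) hn h
  · obtain ⟨n, hn, h⟩ := hs _ _ (lt_LL r.fd) _
      (by rintro _ ⟨D, -, rfl⟩; exact AddSubgroup.subset_closure ⟨D, rfl⟩) x hx h
    obtain ⟨m, e, a, b, c, -⟩ := clos hX (p := fun _ => True) trivial
      (fun _ _ _ _ _ _ _ _ => trivial)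
      (by rintro _ ⟨D, hD, rfl⟩
          exact ⟨1, D.f, one_pos, ⟨D.isCart, hD⟩, by rw [one_smul, n1_eq], trivial⟩) hn h
    exact ⟨m, e, a, b, c⟩
  · intro x e e' m m' hm hm' h h' c c'
    obtain ⟨n, μ, hn, hu⟩ := r.nl (e ^ m' / e' ^ m) ((h.pow _).div (h'.pow _)) (by
      rw [cl_div hX (h.pow _) (h'.pow _), cl_pow hX h, cl_pow hX h', c, c', smul_smul, smul_smul,
        mul_comm, sub_self])
    obtain ⟨O, hO, -⟩ := hX.cpl ⊤ fun _ => Or.inl trivial
    have hμ : μ ≠ 0 := left_ne_zero_of_mul (hu O hO).1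
    refine ⟨μ, n * m', n * m, hμ, Nat.mul_pos hn hm', Nat.mul_pos hn hm, fun P hP => ?_⟩
    obtain ⟨a, b⟩ := (isU_plO' P).1 (hu _ hP)
    rw [P.ord_mul hμ (right_ne_zero_of_mul a), P.ord_pow, Pi.div_apply, Pi.pow_apply, Pi.pow_apply,
      P.ord_div (pow_ne_zero _ (h.ne hP)) (pow_ne_zero _ (h'.ne hP)), P.ord_pow, P.ord_pow] at b
    push_cast
    linear_combination b
  · rintro x y O n hn ⟨m, e, a1, a2, a3, a4, a5⟩ ⟨m', e', b1, b2, b3, b4⟩ z hz
    refine ⟨m * m' * n, e ^ m' * e' ^ m, Nat.mul_pos (Nat.mul_pos a1 b1) hn,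
      (a2.pow _).mul (b2.pow _), by rw [cl_mix hX a2.1 b2.1 a3 b3, ← hz, smul_smul],
      un_mix a2.1 b2.1 a4 b4, a5.trans ?_⟩
    have hB : BB X e ≤ BB X (e ^ m' * e' ^ m) := fun b hb P hP h0 => hb P hP (by
      rw [ord_mix a2.1 b2.1 hP] at h0
      have c1 := a2.ord hP
      have c2 : 0 ≤ (m : ℤ) * P.ord (e' (plO P)) := mul_nonneg m.cast_nonneg (b2.ord hP)
      have c3 : (0 : ℤ) < m' := Int.natCast_pos.2 b1
      exact le_antisymm (le_of_mul_le_mul_left (by linarith) c3) c1)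
    rintro _ ⟨a, ha, b, hb, hu, rfl⟩
    exact ⟨a, hB ha, b, hB hb, hu, rfl⟩

end Pool.Agent.MP_20d318_ag.AM
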