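import Pool.Agent.MP_20d318_ag.AM.BSpec
import Pool.Agent.MP_fd6584_ag.D.Surf

/-! Sections that restrict onto a complete linear system. -/

set_option autoImplicit false
set_option linter.unusedSectionVars false

namespace Pool.Agent.MP_20d318_ag.AM

open Pool.Agent.MP_fd6584_ag.Fn Pool.Agent.CBk
open Pool.Agent.MP_fd6584_ag.AG hiding deg_inv deg_congr deg_of_unit deg_mul deg_prod deg_zpow
  deg_eq_zero deg_nonneg deg_div deg_pow
open Pool.Agent.MP_20d318_ag.CB Pool.Agent.MP_20d318_ag.CB.P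

namespace RsaA

variable {k M I : Type} [Field k] [Field M] [Algebra k M] [Fintype I] {S : Sd k M I}
  [NeZero (2 : k)] [IsAlgClosed k]

theorem range_le (h1 : A1 S) (ν : Curve S.T) (D : I → ℤ) (hd : 0 ≤ ν.deg (S.lb D))
    (Q₀ : Place k ν.L) (hQ : ∀ s ∈ S.Sec D, ¬ IsU (ν.pt Q₀) (s * S.lb D (ν.pt Q₀))) :
    (Module.finrank k (LinearMap.range (resMap ν D)) : ℤ) ≤ ν.deg (S.lb D) := by
  classical
  let E : Divisor k ν.L := Finsupp.ofSupportFinite
    (fun Q => Q.ord (ν.ev (S.lb D (ν.pt Q) / S.lb D ν.gen))) ((h1.cart D).fin h1.nice.toGood ν)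
  have hE : deg E = ν.deg (S.lb D) := FF.deg_eq_finsum E
  have hle : LinearMap.range (resMap ν D) ≤ sec (E - Finsupp.single Q₀ 1) := by
    rintro _ ⟨s, rfl⟩ Q
    have hu := (h1.cart D).unit (ν.pt_mem Q) ν.gen_mem (ν.pt_le Q)
    have h3 := s.2 _ (ν.pt_mem Q)
    have h4 : s.1 * S.lb D (ν.pt Q) =
        s.1 * S.lb D ν.gen * (S.lb D (ν.pt Q) / S.lb D ν.gen) := by
      have := (h1.cart D).ne ν.gen_mem
      field_simp
    have h5 : Q.Ge (Finsupp.single Q₀ (1 : ℤ) Q) (ν.ev (s.1 * S.lb D (ν.pt Q))) := by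
      have h7 := ν.pt_reg Q ⟨_, ν.pt_le Q h3⟩ h3
      rw [ν.ev_eq, evO_of_mem _ (ν.pt_le Q h3), Finsupp.single_apply]
      split_ifs with e
      · subst e
        exact Q₀.ge1_iff.2 (h7.lt_of_ne fun e => hQ s.1 s.2 (ν.pt_loc Q₀ _ h3 e))
      · exact Q.ge0_iff.2 h7
    rw [h4, ev_mul ν (s.2 _ ν.gen_mem) hu.mem] at h5
    refine Place.Ge.of_mul (evO_ne ν.ρ hu) ?_
    have h6 : -(E - Finsupp.single Q₀ 1 : Divisor k ν.L) Q +
        Q.ord (evO ν.gen ν.ρ (S.lb D (ν.pt Q) / S.lb D ν.gen)) = Finsupp.single Q₀ (1 : ℤ) Q := by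
      rw [Finsupp.sub_apply, neg_sub]
      exact sub_add_cancel _ _
    rw [h6]
    exact h5
  have h7 : Module.finrank k (LinearMap.range (resMap ν D)) ≤ h0 (E - Finsupp.single Q₀ 1) :=
    Submodule.finrank_mono hle
  have h8 : deg (E - Finsupp.single Q₀ 1) = deg E - 1 := by rw [FF.deg_sub, FF.deg_single]
  have := FF.h0_le_deg (D := E - Finsupp.single Q₀ 1) (by omega)
  omega

end RsaA

theorem rsa_stmt : RsaStmt := by
  intro k M I κ _ _ _ _ _ _ _ p h _ _ c φ P hP D hD hh O hO hle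
  have h1 := h.all.a1
  obtain ⟨ν, hν, hn, -⟩ := h1.cur P hP.2.1
  have h3 := ker_resMap h.all.s h.all.a2 hP ν hν D
  have h4 := h.all.s.deg c φ P hP ν hν D
  rw [hn, Nat.cast_one, one_mul] at h4
  by_contra hc
  push Not at hc
  by_cases e : O = ν.gen
  · subst e
    have h5 : LinearMap.range (resMap ν D) = ⊥ := by
      rw [LinearMap.range_eq_bot]
      ext s
      have m := s.2 _ ν.gen_mem
      exact (ev_eq_zero ν m).2 ⟨m, hc s.1 s.2⟩
    rw [h5, finrank_bot] at h3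
    omega
  · obtain ⟨Q, rfl⟩ := h1.pt ν O hO (hν ▸ hle) e
    have := RsaA.range_le h1 ν D (by omega) Q hc
    omega

end Pool.Agent.MP_20d318_ag.AM
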