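import Pool.Agent.MP_20d318_ag.AM.BSpec

/-! Sections of a multiple of a nef and big class at points of rational curves. -/

set_option autoImplicit false
set_option linter.unusedSectionVars false

namespace Pool.Agent.MP_20d318_ag.AM

open Pool.Agent.MP_fd6584_ag.Fn Pool.Agent.CBk
open Pool.Agent.MP_fd6584_ag.AG hiding deg_inv deg_congr deg_of_unit deg_mul deg_prod deg_zpow
  deg_eq_zero deg_nonneg deg_div deg_pow
open Pool.Agent.MP_20d318_ag.CB Pool.Agent.MP_20d318_ag.CB.P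
open Pool.Agent.MP_fd6584_ag.MV (LA LM S1L Is)

namespace SeaA

theorem chi_sub {I : Type} [Fintype I] {B : I → I → ℤ} (hs : ∀ i j, B i j = B j i)
    (K D c : I → ℤ) (hc : ip B c c + ip B K c = -2) :
    chi2 B K D = chi2 B K (D - c) + 2 * ip B D c + 2 := by
  simp only [chi2, ip_sub_left, ip_sub_right]
  rw [ip_comm hs c D]
  omega

end SeaA

theorem sea_stmt : SeaStmt := by
  intro k M I κ _ _ _ _ _ _ _ p h l t hS hR y hy c hc hor φ P hP O hO hOP
  have hs : ∀ i j, p.B i j = p.B j i := l.ns.sym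
  have hd : Dl p.ld fun D => 2 * p.h0 D - chi2 p.B p.K D := by
    intro D c' hc' hD
    obtain ⟨φ', P', hP'⟩ := hc'.1
    have a := h.all.a3.res c' φ' P' hP' D
    have b := SeaA.chi_sub hs p.K D c' hc'.2
    have hD' : -1 ≤ ip p.B D c' := hD
    rw [max_eq_right (by omega)] at a
    show 2 * p.h0 D - chi2 p.B p.K D ≤ 2 * p.h0 (D - c') - chi2 p.B p.K (D - c')
    omega
  have hn : ∀ n : ℕ, 0 ≤ 2 * p.h0 (n • y) - chi2 p.B p.K (n • y) := by
    intro n
    refine sub_nonneg.2 (h.all.a4.rr2 _ fun he => ?_)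
    have a : 0 ≤ ip p.B p.h (p.K - n • y) :=
      l.l1.efn p.h (fun c' hc' => (l.ns.hpos c' hc').le) _ he
    have b : 0 ≤ ip p.B y p.h := l.l1.efn y hy.1 _ l.ns.heff
    have e : ip p.B p.h p.K < 0 := l.l1.hK
    rw [ip_sub_right, ip_nsmul_right, ip_comm hs p.h y] at a
    have := mul_nonneg (Int.natCast_nonneg n) b
    omega
  obtain ⟨n, n0, hle⟩ := hS _ hd y hy hn c hc hor
  have hle' : 2 * p.h0 (n • y - c) - chi2 p.B p.K (n • y - c) ≤
      2 * p.h0 (n • y) - chi2 p.B p.K (n • y) := hle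
  have b := SeaA.chi_sub hs p.K (n • y) c hc.2
  have y0 : 0 ≤ ip p.B (n • y) c := by
    rw [ip_nsmul_left]
    exact mul_nonneg (Int.natCast_nonneg n) (hy.1 c hc.1)
  obtain ⟨s, s1, s2⟩ := hR c φ P hP (n • y) y0 (by omega) O hO hOP
  exact ⟨n, n0, s, s1, s2⟩

end Pool.Agent.MP_20d318_ag.AM
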