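import Pool.Agent.MP_20d318_ag.AM.BSpec

/-! Nef and big classes are semiample. -/

set_option autoImplicit false
set_option linter.unusedSectionVars false

namespace Pool.Agent.MP_20d318_ag.AM

open Pool.Agent.MP_fd6584_ag.Fn Pool.Agent.CBk
open Pool.Agent.MP_fd6584_ag.AG hiding deg_inv deg_congr deg_of_unit deg_mul deg_prod deg_zpow
  deg_eq_zero deg_nonneg deg_div deg_pow
open Pool.Agent.MP_20d318_ag.CB Pool.Agent.MP_20d318_ag.CB.P
open Pool.Agent.MP_fd6584_ag.MV (LA LM S1L Is)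

namespace SemA

theorem spl {ι κ : Type} [Fintype ι] [Fintype κ] {Λ : Ld ι κ} (l : LA Λ) {y : ι → ℤ} (hy : Λ.Nef y)
    {N : ι → ℤ} (hN : N ∈ AddSubmonoid.closure (Ra Λ)) :
    ∃ E ∈ AddSubmonoid.closure (Nu Λ y), ∃ j : ℕ, Λ.Nef (N - E + j • y) := by
  induction hN using AddSubmonoid.closure_induction with
  | mem c hc =>
    rcases (hy c hc.1).lt_or_eq with q | q
    · refine ⟨0, zero_mem _, (ip Λ.B c c).natAbs, fun c' hc' => ?_⟩
      rw [sub_zero, ip_add_left, ip_nsmul_left]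
      rcases eq_or_ne c c' with rfl | e
      · have := neg_abs_le (ip Λ.B c c)
        rw [Int.natCast_natAbs]
        nlinarith [abs_nonneg (ip Λ.B c c)]
      · exact add_nonneg (l.ns.pos c hc.1 c' hc' e) (mul_nonneg (Nat.cast_nonneg _) (hy c' hc'))
    · exact ⟨c, AddSubmonoid.subset_closure ⟨hc, q.symm⟩, 0, fun c' _ => by
        rw [sub_self, zero_smul, add_zero, ip_zero_left]⟩
  | zero => exact ⟨0, zero_mem _, 0, fun c' _ => by rw [sub_self, zero_smul, add_zero, ip_zero_left]⟩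
  | add a b _ _ ha hb =>
    obtain ⟨E, e1, j, e2⟩ := ha
    obtain ⟨E', e3, j', e4⟩ := hb
    refine ⟨E + E', add_mem e1 e3, j + j', fun c hc => ?_⟩
    rw [show a + b - (E + E') + (j + j') • y = a - E + j • y + (b - E' + j' • y) by
      rw [add_smul]; abel, ip_add_left]
    exact add_nonneg (e2 c hc) (e4 c hc)

variable {k M I κ : Type} [Field k] [Field M] [Algebra k M] [Fintype I] [Fintype κ]
  {p : Pd k M I κ} {O : Subalgebra k M}

/-- A section that does not vanish at `O`. -/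
def Un (p : Pd k M I κ) (O : Subalgebra k M) (D : I → ℤ) : Prop :=
  ∃ s ∈ p.Sec D, IsU O (s * p.lb D O)

theorem un0 : Un p O 0 :=
  ⟨1, fun R _ => by rw [Sd.lb_zero, mul_one]; exact R.one_mem, by
    rw [Sd.lb_zero, mul_one]; exact isU_one⟩

theorem Un.add (h : Pair p) (hO : O ∈ p.T) {D D' : I → ℤ} (a : Un p O D) (b : Un p O D') :
    Un p O (D + D') := by
  obtain ⟨s, s1, s2⟩ := a
  obtain ⟨t, t1, t2⟩ := b
  refine ⟨s * t, h.all.a2.mul _ _ s s1 t t1, ?_⟩
  rw [Sd.lb_add _ (h.all.a1.gne O hO), mul_mul_mul_comm]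
  exact s2.mul t2

theorem Un.nsmul (h : Pair p) (hO : O ∈ p.T) {D : I → ℤ} (a : Un p O D) (n : ℕ) :
    Un p O (n • D) := by
  induction n with
  | zero => rw [zero_smul]; exact un0
  | succ n ih => rw [succ_nsmul]; exact ih.add h hO a

theorem alt (h : Pair p) (hO : O ∈ p.T) {A : Set (I → ℤ)} (hA : A ⊆ p.PP) {E : I → ℤ}
    (hE : E ∈ AddSubmonoid.closure A) :
    Un p O E ∨ ∃ c ∈ A, ∃ φ P, p.Prm c φ P ∧ O ≤ plO P := by
  induction hE using AddSubmonoid.closure_induction with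
  | mem c hc =>
    obtain ⟨φ, P, hP⟩ := hA hc
    have s := h.all.a1.pmem c φ P hP
    exact (isU_or_mx (s O hO)).imp (fun u => ⟨φ, s, u⟩) fun u =>
      ⟨c, hc, φ, P, hP, (h.all.a1.pmx c φ P hP O hO).1 u⟩
  | zero => exact Or.inl un0
  | add a b _ _ ha hb =>
    exact ha.elim (fun u => hb.imp_left fun v => u.add h hO v) Or.inr

end SemA

open SemA

theorem sem_stmt : SemStmt := by
  intro k M I κ _ _ _ _ _ _ _ p h l _ big sea y hy O hO
  by_cases c0 : ∃ c ∈ Nu p.ld y, ∃ φ P, p.Prm c φ P ∧ O ≤ plO P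
  · obtain ⟨c, hc, φ, P, hP, hle⟩ := c0
    exact sea y hy c hc.1 (Or.inl hc.2) φ P hP O hO hle
  obtain ⟨m, n, m0, n0, hN⟩ := big y hy p.ld.h
  obtain ⟨E, e1, j, e2⟩ := spl l hy.1 hN
  have uE := (alt h hO (fun c hc => hc.1.1) e1).resolve_right c0
  obtain ⟨Z, hZ⟩ : ∃ Z, Z = m • y - n • p.ld.h - E + j • y := ⟨_, rfl⟩
  rw [← hZ] at e2
  have n1 : (0 : ℤ) < n := Nat.cast_pos.2 n0
  have ps : ∀ c ∈ p.ld.P, 0 < ip p.ld.B (n • p.ld.h + Z) c := fun c hc => by
    rw [ip_add_left, ip_nsmul_left]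
    exact add_pos_of_pos_of_nonneg (mul_pos n1 (l.ns.hpos c hc)) (e2 c hc)
  have nf : p.ld.Nef (n • p.ld.h + Z) := fun c hc => (ps c hc).le
  have nb : NB p.ld (n • p.ld.h + Z) := by
    refine ⟨nf, ?_⟩
    have ef := (l.l1.ne _ nf).2
    have a1 := l.l1.hef _ ef fun e => by
      have := ps _ (l.ns.memC p.ld.k0)
      rw [e, ip_zero_left] at this
      exact this.false
    have a2 := l.l1.efn Z e2 _ ef
    rw [ip_add_left, ip_nsmul_left]
    exact add_pos_of_pos_of_nonneg (mul_pos n1 a1) a2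
  obtain ⟨a, a0, ua⟩ : SeAt p (n • p.ld.h + Z) O := by
    obtain ⟨m', n', m1, -, hN'⟩ := big _ nb 0
    rw [smul_zero, sub_zero] at hN'
    rcases alt h hO (fun c hc => hc.1) hN' with u | ⟨c, hc, φ, P, hP, hle⟩
    · exact ⟨m', m1, u⟩
    · exact sea _ nb c hc (Or.inr ps) φ P hP O hO hle
  have u := Un.add h hO ua (uE.nsmul h hO a)
  rw [← smul_add, show n • p.ld.h + Z + E = (m + j) • y by rw [hZ, add_smul]; abel,
    smul_smul] at u
  exact ⟨a * (m + j), Nat.mul_pos a0 (by omega), u⟩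

end Pool.Agent.MP_20d318_ag.AM
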