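import Pool.Agent.MP_20d318_ag.AM.MSpec

/-! Small modifications, row SIG: finitely many chambers. -/

set_option autoImplicit false
set_option linter.unusedSectionVars false

namespace Pool.Agent.MP_20d318_ag.AM

open Pool.Agent.MP_fd6584_ag Pool.Agent.MP_fd6584_ag.Fn Pool.Agent.CBk
open Pool.Agent.MP_fd6584_ag.AG hiding deg_inv deg_congr deg_of_unit deg_mul deg_prod deg_zpow
  deg_eq_zero deg_nonneg deg_div deg_pow
open Pool.Agent.MVg (Sc Fac Av)
open Pool.Agent.MP_20d318_ag.CH (cl cl_val cl_mem cl_eff n1_ext n1_eq)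
open Pool.Agent.MP_20d318_ag.Lat (cone IsCone RP Intg Concl isCone_cone subset_cone)

namespace SigA

variable {k K : Type} [Field k] [IsAlgClosed k] [Field K] [Algebra k K]
  {X : Set (Subalgebra k K)} {J : Type} [Fintype J] {d : J → Subalgebra k K → K}
  {S : Set (AG.N1 X)} {O : Subalgebra k K}

/-- The cone of the generators with index in `I`. -/
def cn (X : Set (Subalgebra k K)) (d : J → Subalgebra k K → K) (I : Set J) : Set (AG.N1 X) :=
  cone ((fun j => cl X (d j)) '' I)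

theorem rp_cn (h : Fg X d S) (I : Set J) : RP (LL X) (cn X d I) :=
  rp_fin (I.toFinite.image _) (by rintro _ ⟨j, -, rfl⟩; exact cl_mem (h.1 j).1)

theorem eff (hX : Good X) (h : Fg X d S) (hO : IsLocalRing O) (hK : Kr X O)
    {e : Subalgebra k K → K} (he : Ed X e) (hS : cl X e ∈ S) (hu : Un X e O) :
    cl X e ∈ cn X d {j | Un X (d j) O} := by
  obtain ⟨V, hV, hD⟩ := exists_val hO
  obtain ⟨m, a, μ, hm, hμ, hU⟩ := h.2 e he hS V hV
  obtain ⟨O₀, hO₀, -⟩ := hX.cpl ⊤ fun _ => Or.inl trivial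
  have h0 : μ ≠ 0 := left_ne_zero_of_mul (div_ne_zero_iff.1 (hU O₀ hO₀).1).1
  have hn : ∀ P : Place k K, plO P ∈ X → ∀ j ∈ (Finset.univ : Finset J),
      0 ≤ (a j : ℤ) * P.ord (d j (plO P)) := fun P hP j _ =>
    mul_nonneg (Int.natCast_nonneg _) ((h.1 j).ord hP)
  have ho : ∀ P : Place k K, plO P ∈ X → O ≤ plO P →
      P.ord μ + ∑ j, (a j : ℤ) * P.ord (d j (plO P)) = 0 := fun P hP hle => by
    have h1 := ((isU_plO' P).1 (hU _ hP)).2
    have h2 : ∀ j ∈ (Finset.univ : Finset J), d j (plO P) ^ a j ≠ 0 := fun j _ =>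
      pow_ne_zero _ ((h.1 j).1.ne hP)
    rw [P.ord_div (mul_ne_zero h0 (Finset.prod_ne_zero_iff.2 h2)) (pow_ne_zero _ (he.1.ne hP)),
      P.ord_mul h0 (Finset.prod_ne_zero_iff.2 h2), P.ord_prod _ _ h2, P.ord_pow, hu P hP hle] at h1
    simpa using h1
  have hi : μ⁻¹ ∈ O := hK _ fun P hP hle => mem_plO_ord.2 (by
    have := ho P hP hle
    have := Finset.sum_nonneg (hn P hP)
    rw [P.ord_inv]
    omega)
  have hμO : μ ∈ O := by
    simpa using (hD.2 _ hi ⟨inv_ne_zero h0, hD.1 hi, by simpa using hμ⟩).2.2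
  have hz : ∀ j, a j ≠ 0 → Un X (d j) O := fun j hj P hP hle => by
    have h1 := ho P hP hle
    have h2 := mem_plO_ord.1 (hle hμO)
    have h3 := Finset.sum_nonneg (hn P hP)
    have h4 := (Finset.sum_eq_zero_iff_of_nonneg (hn P hP)).1 (by omega) j (Finset.mem_univ j)
    exact (mul_eq_zero.1 h4).resolve_left (by exact_mod_cast hj)
  have hc : ∀ j ∈ (Finset.univ : Finset J), IsCart X (d j ^ a j) := fun j _ => (h.1 j).1.pow _
  have hl : cl X (∏ j, d j ^ a j) = cl X (e ^ m) :=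
    cl_lin hX (isCart_prod hc) (he.1.pow m) (μ := μ) fun O' hO' => by
      simpa using hU O' hO'
  refine IsCone.of_nsmul (isCone_cone _) hm ?_
  rw [← cl_pow hX he.1, ← hl, cl_prod hX hc]
  refine (isCone_cone _).sum_mem _ _ fun j _ => ?_
  rw [cl_pow hX (h.1 j).1]
  by_cases hj : a j = 0
  · rw [hj, zero_smul]
    exact (isCone_cone _).zero
  · exact IsCone.nsmul (isCone_cone _) _ (subset_cone _ ⟨j, hz j hj, rfl⟩)

theorem key (hI : IntStmt.{1}) (r : Ref X) (hS : RP (LL X) S) (h : Fg X d S) (hO : IsLocalRing O)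
    (hK : Kr X O) {x : AG.N1 X} (hx : x ∈ S) : x ∈ SO X O ↔ x ∈ cn X d {j | Un X (d j) O} := by
  refine ⟨fun h1 => ?_, fun h1 => Lat.cone_mono ?_ h1⟩
  · obtain ⟨Q, hQ, h2⟩ := exists_fin h1
    obtain ⟨R, hR, hRe⟩ := hI.two (lt_LL r.fd) (rp_fin Q.finite_toSet fun y hy => (hQ hy).1) hS
    have h3 : x ∈ cone (R : Set (AG.N1 X)) := hRe ▸ ⟨h2, hx⟩
    refine (isCone_cone _).cone_subset (fun y hy => ?_) h3
    have h4 : y ∈ cone (Q : Set (AG.N1 X)) ∩ S := hRe ▸ subset_cone _ hy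
    obtain ⟨m, e, hm, he, hc, hu⟩ := r.sa y (hR hy) O (Lat.cone_mono hQ h4.1)
    refine IsCone.of_nsmul (isCone_cone _) hm ?_
    rw [← hc]
    exact eff r.nice.toGood h hO hK he (hc ▸ IsCone.nsmul (rp_cone hS) m h4.2) hu
  · rintro _ ⟨j, hj, rfl⟩
    exact ⟨cl_mem (h.1 j).1, 1, d j, one_pos, h.1 j, (one_smul _ _).symm, hj⟩

end SigA

theorem sig_stmt : SigStmt := by
  intro hI k K _ _ _ _ X r S hS ⟨J, _, d, h⟩
  have hZ : ∀ Z : Set (Subalgebra k K), (∀ O ∈ Z, IsLocalRing O ∧ Kr X O) →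
      SA X Z ∩ S = S ∩ ⋂₀ (SigA.cn X d '' ((fun O => {j | Un X (d j) O}) '' Z)) := fun Z hZ => by
    ext x
    simp only [Set.mem_inter_iff, Set.mem_sInter, Set.forall_mem_image]
    exact ⟨fun a => ⟨a.2, fun O hO =>
        (SigA.key hI r hS h (hZ O hO).1 (hZ O hO).2 a.2).1 (a.1 O hO)⟩,
      fun a => ⟨fun O hO => (SigA.key hI r hS h (hZ O hO).1 (hZ O hO).2 a.1).2 (a.2 hO), a.1⟩⟩
  refine ⟨Set.range fun U : Set (Set J) => S ∩ ⋂₀ (SigA.cn X d '' U), Set.finite_range _, ?_,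
    fun O hO hK => ?_, fun Z hM => ⟨_, (hZ Z fun O hO => ⟨hM.good.loc O hO, hM.kr O hO⟩).symm⟩⟩
  · rintro _ ⟨U, rfl⟩
    refine hI _ _ (lt_LL r.fd) S hS _ (U.toFinite.image _) ?_
    rintro _ ⟨I, -, rfl⟩
    exact SigA.rp_cn h I
  · refine ⟨_, (hZ {O} fun O' hO' => hO' ▸ ⟨hO, hK⟩).symm.trans ?_⟩
    ext x
    simp [SA]

end Pool.Agent.MP_20d318_ag.AM
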