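import Pool.Agent.MP_20d318_ag.AM.BSpec

/-! Nef classes of square zero are semiample. -/

set_option autoImplicit false
set_option linter.unusedSectionVars false

namespace Pool.Agent.MP_20d318_ag.AM

open Pool.Agent.MP_fd6584_ag.Fn Pool.Agent.CBk
open Pool.Agent.MP_fd6584_ag.AG hiding deg_inv deg_congr deg_of_unit deg_mul deg_prod deg_zpow
  deg_eq_zero deg_nonneg deg_div deg_pow
open Pool.Agent.MP_20d318_ag.CB Pool.Agent.MP_20d318_ag.CB.P
open Pool.Agent.MP_fd6584_ag.MV (LA LM S1L Is)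

namespace SqzA

variable {k M I κ : Type} [Field k] [Field M] [Algebra k M] [Fintype I] [Fintype κ]
  {p : Pd k M I κ}

/-- Two independent sections. -/
structure Two (p : Pd k M I κ) (D : I → ℤ) (s t : M) : Prop where
  hs : s ∈ p.Sec D
  ht : t ∈ p.Sec D
  ne : s ≠ 0
  ind : ∀ a : k, t ≠ a • s

/-- No prime divisor is contained in both divisors. -/
def Cop (p : Pd k M I κ) (D : I → ℤ) (s t : M) : Prop := ∀ P : Place k M, plO P ∈ p.T →
  s * p.lb D (plO P) ∈ mx (plO P) → IsU (plO P) (t * p.lb D (plO P))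

theorem h_nonneg (hL : LA p.ld) {D : I → ℤ} (hD : D ∈ p.Ef) : 0 ≤ ip p.B p.h D :=
  hL.l1.efn p.h (fun c hc => (hL.ns.hpos c hc).le) D hD

theorem mov (hP : Pair p) (hL : LA p.ld) (n : ℕ) : ∀ D s t, ip p.B p.h D < n → Two p D s t →
    ∃ D' s' t', D - D' ∈ p.Ef ∧ Two p D' s' t' ∧ Cop p D' s' t' := by
  induction n with
  | zero =>
    intro D s t hn h
    have := h_nonneg hL (hP.all.a2.eff1 D s h.hs h.ne)
    simp only [Nat.cast_zero] at hn
    omega
  | succ n ih =>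
    intro D s t hn h
    by_cases hc : Cop p D s t
    · exact ⟨D, s, t, by rw [sub_self]; exact p.Ef.zero_mem, h, hc⟩
    · unfold Cop at hc
      push Not at hc
      obtain ⟨P, hT, h1, h2⟩ := hc
      obtain ⟨φ, hφ⟩ := hP.all.a2.cl P hT
      have hm : p.cl P ∈ p.PP := ⟨φ, P, hφ⟩
      have hp := hP.all.a1.hpos _ hm
      have a1 := hP.all.a2.sub _ φ P hφ D s h.hs h1
      have a2 := hP.all.a2.sub _ φ P hφ D t h.ht ⟨h.ht _ hT, h2⟩
      have hlt : ip p.B p.h (D - p.cl P) < n := by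
        rw [ip_sub_right]
        push_cast at hn
        omega
      obtain ⟨D', s', t', e, r⟩ := ih (D - p.cl P) (s / φ) (t / φ) hlt ⟨a1, a2, div_ne_zero h.ne hφ.1,
        fun a ha => h.ind a (by
          rw [← div_mul_cancel₀ t hφ.1, ha, smul_mul_assoc, div_mul_cancel₀ s hφ.1])⟩
      refine ⟨D', s', t', ?_, r⟩
      have e2 : D - D' = D - p.cl P - D' + p.cl P := by abel
      rw [e2]
      exact p.Ef.add_mem e (AddSubmonoid.subset_closure hm)

theorem Two.ne_zero (hP : Pair p) {D : I → ℤ} {s t : M} (h : Two p D s t) : D ≠ 0 := by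
  rintro rfl
  obtain ⟨a, ha⟩ := hP.all.a2.const s fun O hO => by
    have := h.hs O hO
    rwa [Sd.lb_zero, mul_one] at this
  obtain ⟨b, hb⟩ := hP.all.a2.const t fun O hO => by
    have := h.ht O hO
    rwa [Sd.lb_zero, mul_one] at this
  have a0 : a ≠ 0 := by
    rintro rfl
    exact h.ne (by rw [ha, map_zero])
  refine h.ind (b / a) ?_
  rw [ha, hb, Algebra.smul_def, ← map_mul, div_mul_cancel₀ b a0]

theorem Two.nef (hP : Pair p) {D : I → ℤ} {s t : M} (h : Two p D s t) (c : Cop p D s t) :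
    p.ld.Nef D := by
  rintro c' ⟨φ, P, hφ⟩
  by_cases u : IsU (plO P) (s * p.lb D (plO P))
  · exact (hP.all.a2.nn _ φ P hφ D s h.hs u).1
  · exact (hP.all.a2.nn _ φ P hφ D t h.ht (c P hφ.2.1 ⟨h.hs _ hφ.2.1, u⟩)).1

theorem Two.free (hP : Pair p) (hL : LA p.ld) (hT : CC.TA p.toSd) {D : I → ℤ} {s t : M}
    (h : Two p D s t) (c : Cop p D s t) (h0 : ip p.B D D = 0) {O : Subalgebra k M} (hO : O ∈ p.T) :
    ∃ u ∈ p.Sec D, IsU O (u * p.lb D O) := by
  by_cases u : IsU O (s * p.lb D O)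
  · exact ⟨s, h.hs, u⟩
  · obtain ⟨P, hPT, hle, hm⟩ := hT.above D s h.hs h.ne O hO ⟨h.hs O hO, u⟩
    obtain ⟨φ, hφ⟩ := hP.all.a2.cl P hPT
    have e := hT.dvd _ φ P hφ D s h.hs h.ne hm
    have e1 : 0 ≤ ip p.B D (D - p.cl P) := hL.l1.efn D (h.nef hP c) _ e
    rw [ip_sub_right, h0] at e1
    have e2 := hP.all.a2.nn _ φ P hφ D t h.ht (c P hPT hm)
    exact ⟨t, h.ht, e2.2.1 (by have := e2.1; omega) O hO hle⟩

/-- A free class proportional to a nef class of square zero that moves. -/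
theorem exists_free (hP : Pair p) (hL : LA p.ld) (hT : CC.TA p.toSd) {w : I → ℤ} {s t : M}
    (hw : p.ld.Nef w) (h0 : ip p.B w w = 0) (h : Two p w s t) : ∃ D, 0 < ip p.B p.h D ∧
      (∃ q : ℝ, toR D = q • toR w) ∧ ∀ O ∈ p.T, ∃ u ∈ p.Sec D, IsU O (u * p.lb D O) := by
  obtain ⟨D, s', t', e, r, c⟩ := mov hP hL ((ip p.B p.h w).toNat + 1) w s t (by push_cast; omega) h
  have hD : D ∈ p.Ef := hP.all.a2.eff1 D s' r.hs r.ne
  have e1 : 0 ≤ ip p.B w D := hL.l1.efn w hw D hD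
  have e2 : 0 ≤ ip p.B w (w - D) := hL.l1.efn w hw _ e
  have e3 : 0 ≤ ip p.B D D := hL.l1.efn D (r.nef hP c) D hD
  rw [ip_sub_right, h0] at e2
  have e4 : ip p.B D w = 0 := by
    rw [ip_comm hP.all.s.sym]
    omega
  have e5 := hL.hg.iso (toR w) (toR D) (by rw [ip_toR]; exact_mod_cast h0)
    (fun z => h.ne_zero hP (toR_inj (z.trans toR_zero.symm))) (by rw [ip_toR]; exact_mod_cast e4)
  rw [ip_toR] at e5
  have e6 : ip p.B D D ≤ 0 := by exact_mod_cast e5.1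
  have e7 : ip p.B D D = 0 := le_antisymm e6 e3
  exact ⟨D, hL.l1.hef D hD (r.ne_zero hP), e5.2 (by exact_mod_cast e7),
    fun O hO => r.free hP hL hT c e7 hO⟩

theorem prop {B : I → I → ℤ} (h : I → ℤ) {y D : I → ℤ} {v : I → ℝ} {q q' : ℝ} (hy : toR y = q' • v)
    (hD : toR D = q • v) : ip B h D • y = ip B h y • D := by
  apply toR_inj
  rw [toR_zsmul, toR_zsmul, ← ip_toR, ← ip_toR, hy, hD, ip_smul_right, ip_smul_right, smul_smul,
    smul_smul]
  congr 1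
  ring

theorem seAt_of {y D : I → ℤ} {a b : ℤ} (ha : 0 < a) (hb : 0 ≤ b) (e : a • y = b • D)
    {O : Subalgebra k M} {u : M} (hu : u ∈ p.Sec D) (hU : IsU O (u * p.lb D O)) : SeAt p y O := by
  obtain ⟨m, rfl⟩ := Int.eq_ofNat_of_zero_le ha.le
  obtain ⟨n, rfl⟩ := Int.eq_ofNat_of_zero_le hb
  have e' : m • y = (n : ℤ) • D := by rw [← e, natCast_zsmul]
  have f : ∀ R : Subalgebra k M, u ^ n * p.lb ((n : ℤ) • D) R = (u * p.lb D R) ^ n := fun R => by
    rw [Sd.lb_zsmul, zpow_natCast, mul_pow]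
  refine ⟨m, by exact_mod_cast ha, u ^ n, ?_, ?_⟩
  · rw [e']
    intro R hR
    rw [f]
    exact R.pow_mem (hu R hR) n
  · rw [e', f]
    exact hU.pow n

end SqzA

open SqzA in
theorem sqz_stmt : SqzStmt := by
  intro k M I κ _ _ _ _ _ _ _ p hP hL hT y hy h0 O hO
  have hE : y ∈ p.Ef := (hL.l1.ne y hy).2
  have hC : ∀ i, 0 ≤ ip p.B (p.C i) y := fun i => by
    rw [ip_comm hP.all.s.sym]
    exact hy _ (hL.ns.memC i)
  have hS : ∑ i, ip p.B (p.C i) y = -2 * ip p.B p.K y := hL.l1.sumK y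
  have hN : 0 ≤ ∑ i, ip p.B (p.C i) y := Finset.sum_nonneg fun i _ => hC i
  have fin : ∀ (w : I → ℤ) (s t : M) (q : ℝ), p.ld.Nef w → ip p.B w w = 0 → Two p w s t →
      toR y = q • toR w → SeAt p y O := by
    intro w s t q hw w0 h hq
    obtain ⟨D, d0, ⟨q', hq'⟩, hf⟩ := exists_free hP hL hT hw w0 h
    obtain ⟨u, hu, hU⟩ := hf O hO
    exact seAt_of d0 (h_nonneg hL hE) (prop p.h hq hq') hu hU
  by_cases hK : ip p.B p.K y = 0
  · have hF : ip p.B (p.C p.k0) y = 0 := by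
      rw [hK, mul_zero] at hS
      exact (Finset.sum_eq_zero_iff_of_nonneg fun i _ => hC i).1 hS _ (Finset.mem_univ _)
    rw [ip_comm hP.all.s.sym] at hF
    obtain ⟨q, hq, hq', -⟩ := (hL.l1.hz (toR y) (by rw [ip_toR]; exact_mod_cast hF)).2
      (by rw [ip_toR]; exact_mod_cast h0)
    rcases hq' with rfl | hq'
    · rw [zero_smul] at hq
      obtain rfl : y = 0 := toR_inj (hq.trans toR_zero.symm)
      refine ⟨1, one_pos, 1, ?_, ?_⟩
      · intro R _
        rw [smul_zero, Sd.lb_zero, mul_one]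
        exact R.one_mem
      · rw [smul_zero, Sd.lb_zero, mul_one]
        exact isU_one
    · obtain ⟨P, hφ⟩ := hP.prm p.k0
      obtain ⟨t, ht, hi⟩ := hP.pen hq'
      exact fin p.F (p.ψ p.k0) t q (hL.l1.pn _ (hL.ns.memC _) hL.ns.sq0) hq'
        ⟨hP.all.a1.pmem _ _ _ hφ, ht, hφ.1, hi⟩ hq
  · have hp : Even (ip p.B y y + ip p.B p.K y) := hL.ns.par y
    rw [h0, zero_add] at hp
    obtain ⟨r, hr⟩ := hp
    have hne : p.K - y ∉ p.Ef := fun e => by
      have e1 : 0 ≤ ip p.B y (p.K - y) := hL.l1.efn y hy _ e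
      rw [ip_sub_right, h0, ip_comm hP.all.s.sym] at e1
      omega
    have h2 := hP.all.a4.rr2 y hne
    unfold chi2 at h2
    obtain ⟨s, hs, s0⟩ := hP.all.a2.eff2 y hE
    obtain ⟨t, ht, hi⟩ := hT.h02 y (by omega) s
    exact fin y s t 1 hy h0 ⟨hs, ht, s0, hi⟩ (one_smul _ _).symm

end Pool.Agent.MP_20d318_ag.AM
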