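import Pool.Agent.MP_20d318_ag.AM.BSpec

/-! Stabilization along the multiples of a nef and big class. -/

set_option autoImplicit false
set_option linter.unusedSectionVars false

namespace Pool.Agent.MP_20d318_ag.AM

open Pool.Agent.MP_20d318_ag.CB

theorem stb_stmt : StbStmt := by
  intro ι κ _ _ Λ _ big chn δ hδ y hy h0 c hc hyc
  obtain ⟨m, n', hm, hn', hN⟩ := big y hy c
  obtain ⟨n', rfl⟩ := Nat.exists_eq_succ_of_ne_zero hn'.ne'
  have hN' : m • y - c ∈ AddSubmonoid.closure (Ra Λ) := by
    have := add_mem hN (nsmul_mem (AddSubmonoid.subset_closure hc) n')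
    rwa [succ_nsmul, show m • y - (n' • c + c) + n' • c = m • y - c by abel] at this
  obtain ⟨n₀, hn₀⟩ := chn δ hδ y hy c hc hyc _ hN'
  by_contra hcon
  push Not at hcon
  have step : ∀ n ≥ n₀, δ ((n + m) • y) + 1 ≤ δ (n • y) := fun n hn => by
    have a := hn₀ (n + m) (by omega)
    rw [show (n + m) • y - c - (m • y - c) = n • y by rw [add_nsmul]; abel] at a
    exact (hcon (n + m) (by omega)).trans_le a
  have dec : ∀ j : ℕ, δ ((n₀ + j * m) • y) + j ≤ δ (n₀ • y) := fun j => by
    induction j with
    | zero => simp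
    | succ j ih =>
      have a := step (n₀ + j * m) (by omega)
      rw [add_mul, one_mul, ← add_assoc]
      push_cast
      linarith
  have a := dec ((δ (n₀ • y)).toNat + 1)
  have b := h0 (n₀ + ((δ (n₀ • y)).toNat + 1) * m)
  have d := h0 n₀
  omega

end Pool.Agent.MP_20d318_ag.AM
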