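import Pool.Agent.MP_20d318_ag.AM.SSpec
import Pool.Agent.MP_20d318_ag.KK.RowsY

/-! Row TEN: sections in the compositum are sums of products of sections. -/

set_option autoImplicit false
set_option linter.unusedSectionVars false

namespace Pool.Agent.MP_20d318_ag.AM

open Pool.Agent.MP_fd6584_ag.Fn Pool.Agent.CBk
open Pool.Agent.MP_fd6584_ag.AG hiding deg_inv deg_congr deg_of_unit deg_mul deg_prod deg_zpow
  deg_eq_zero deg_nonneg deg_div deg_pow
open Pool.Agent.MVg (Sc Fac Two BasStmt)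
open Pool.Agent.MP_20d318_ag.CH (Lv Lf sX cl Nd n1_ext)
open Pool.Agent.MP_20d318_ag.KK

namespace TenA

theorem reb {k M M' K I : Type} [Field k] [Field M] [Field M'] [Field K] [Algebra k M]
    [Algebra k M'] [Algebra k K] (ι : M →ₐ[k] K) (ι' : M' →ₐ[k] K) (s : Finset I) (m : I → M)
    (m' : I → M') : ∃ (J : Type) (_ : Fintype J) (β : J → M) (n : J → M'),
      LinearIndependent k β ∧ (∀ j, ∃ i ∈ s, m i = β j) ∧
        ∑ i ∈ s, ι (m i) * ι' (m' i) = ∑ j, ι' (n j) * ι (β j) := by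
  obtain ⟨b, hb, hs, hl⟩ := exists_linearIndependent k (m '' s)
  have := ((s.finite_toSet.image m).subset hb).fintype
  have h1 : ∀ i, ∃ c : b → k, i ∈ s → ∑ j, c j • (j : M) = m i := fun i => by
    by_cases hi : i ∈ s
    · have h2 : m i ∈ Submodule.span k (Set.range ((↑) : b → M)) := by
        rw [Subtype.range_coe, hs]
        exact Submodule.subset_span ⟨i, hi, rfl⟩
      obtain ⟨c, hc⟩ := (Submodule.mem_span_range_iff_exists_fun k).1 h2
      exact ⟨c, fun _ => hc⟩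
    · exact ⟨0, fun q => absurd q hi⟩
  choose c hc using h1
  refine ⟨b, this, (↑), fun j => ∑ i ∈ s, c i j • m' i, hl, fun j => hb j.2, ?_⟩
  simp only [map_sum, Finset.sum_mul]
  rw [Finset.sum_comm]
  refine Finset.sum_congr rfl fun i hi => ?_
  rw [← hc i hi, map_sum, Finset.sum_mul]
  refine Finset.sum_congr rfl fun j _ => ?_
  rw [map_smul, map_smul, smul_mul_assoc, smul_mul_assoc, mul_comm]

end TenA

theorem ten_stmt : TenStmt := by
  intro hG k M M' K Λ Λ' κ κ' n n' _ _ _ _ _ _ _ _ _ _ _ L L' ι ι' v e Z h hU g g' a hg hg' μ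
    ⟨A, hA, B, hB, B0, hμ⟩ hs
  subst hμ
  obtain ⟨I, s, m, m', hm, q⟩ := PolR.expand
    (PolR.poly h hg hg' ⟨A, hA⟩ ⟨B, hB⟩ (fun e => B0 (congrArg Subtype.val e)) hs)
  replace q : A / B = _ := q
  rw [q] at hs ⊢
  obtain ⟨J, _, β, c, h1, h2, h3⟩ := TenA.reb ι ι' s m m'
  refine ⟨J, Finset.univ, β, c, h3.trans (Finset.sum_congr rfl fun _ _ => mul_comm _ _),
    fun j hj => ⟨?_, ?_⟩⟩
  · obtain ⟨i, hi, e⟩ := h2 j
    exact e ▸ PolR.coeff_sc hG h hg hg' hm hs hi
  · rw [h3, ← lb_symm] at hs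
    exact PolR.coeff_sc hG h.symm hg' hg h1 hs hj

end Pool.Agent.MP_20d318_ag.AM
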