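import Pool.Agent.MP_20d318_ag.AM.MSpec

/-! Row TRN: transport by automorphisms. -/

set_option autoImplicit false
set_option linter.unusedSectionVars false

namespace Pool.Agent.MP_20d318_ag.AM

open Pool.Agent.MP_fd6584_ag Pool.Agent.MP_fd6584_ag.Fn Pool.Agent.CBk
open Pool.Agent.MP_fd6584_ag.AG hiding deg_inv deg_congr deg_of_unit deg_mul deg_prod deg_zpow
  deg_eq_zero deg_nonneg deg_div deg_pow
open Pool.Agent.MVg (Sc Fac Av pc comap_symm symm_comap)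
open Pool.Agent.MP_20d318_ag.CH (cl cl_val cl_mem cl_eff n1_ext n1_eq cl_eq)
open Pool.Agent.MP_20d318_ag.Lat (cone IsCone RP Intg Concl isCone_cone subset_cone)

namespace TrnA

variable {k K : Type} [Field k] [Field K] [Algebra k K] {X Z : Set (Subalgebra k K)}
  (g : AG.Aut X) {e : Subalgebra k K → K} {O : Subalgebra k K} {x : AG.N1 X}

/-- the image of a family of equations -/
def pl (e : Subalgebra k K → K) (O : Subalgebra k K) : K := g.1 (e (O.comap (g.1 : K →ₐ[k] K)))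

theorem cart (h : IsCart X e) : IsCart X (pl g e) := (Cartier.pull g ⟨e, h⟩).loc

theorem cl_pl (h : IsCart X e) : cl X (pl g e) = g.n1 (cl X e) := by
  rw [cl_eq h, Aut.n1_n1, n1_eq]; rfl

theorem ed (h : Ed X e) : Ed X (pl g e) := ⟨cart g h.1, fun O hO => h.2 _ ((g.2 O).1 hO)⟩

theorem un (h : Un X e (O.comap (g.1 : K →ₐ[k] K))) : Un X (pl g e) O :=
  fun P hP hle => h (pc g.1 P) ((g.2 _).1 hP) fun _ ha => hle ha

theorem bb {b : K} (h : b ∈ BB X e) : g.1 b ∈ BB X (pl g e) :=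
  fun P hP h0 => h (pc g.1 P) ((g.2 _).1 hP) h0

theorem le_fr (h : O.comap (g.1 : K →ₐ[k] K) ≤ fr (BB X e) (O.comap (g.1 : K →ₐ[k] K))) :
    O ≤ fr (BB X (pl g e)) O := fun f hf => by
  obtain ⟨a, ha, b, hb, hu, h1⟩ := h (show g.1.symm f ∈ O.comap (g.1 : K →ₐ[k] K) by simpa using hf)
  exact ⟨g.1 a, bb g ha, g.1 b, bb g hb, (isU_comap _).1 hu, by rw [← map_div₀, ← h1]; simp⟩

theorem kr (h : Kr X (O.comap (g.1 : K →ₐ[k] K))) : Kr X O := fun a ha => by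
  have := h (g.1.symm a) fun P hP hle => ha (pc g.1.symm P) ((g.inv.2 _).1 hP) fun b hb =>
    hle (show g.1.symm b ∈ O.comap (g.1 : K →ₐ[k] K) by simpa using hb)
  simpa using this

theorem mem_tr (h : O ∈ Z) : O.comap (g.1.symm : K →ₐ[k] K) ∈ Tr Z g := by
  show (O.comap _).comap _ ∈ Z
  rwa [symm_comap]

theorem good (h : Good Z) : Good (Tr Z g) where
  loc O hO := comap_symm g.1 O ▸ isLocalRing_comap _ (h.loc _ hO)
  sep O₁ h1 O₂ h2 W hW d1 d2 := by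
    rw [← comap_symm g.1 O₁, h.sep _ h1 _ h2 _ (isLocalRing_comap _ hW) (d1.comap _) (d2.comap _),
      comap_symm]
  cpl V hV := by
    obtain ⟨O, hO, hd⟩ := h.cpl (V.comap (g.1 : K →ₐ[k] K)) fun f => by simpa using hV (g.1 f)
    exact ⟨_, mem_tr g hO, comap_symm g.1 V ▸ hd.comap _⟩
  fg O hO := by
    obtain ⟨G, h1, h2, h3⟩ := h.fg _ hO
    refine ⟨(g.1 : K →ₐ[k] K) '' G, h1.image _, ?_, fun O' hO' => h3 ?_⟩
    · rwa [← AlgHom.map_adjoin, B1.Pts_comap]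
    · rwa [← AlgHom.map_adjoin, B1.Pts_comap] at hO'

theorem sa (h : SaAt X x (O.comap (g.1 : K →ₐ[k] K))) : SaAt X (g.n1 x) O :=
  let ⟨m, e, a, b, c, d⟩ := h
  ⟨m, pl g e, a, ed g b, by rw [cl_pl g b.1, c, map_nsmul], un g d⟩

theorem lc (h : LcAt X x (O.comap (g.1 : K →ₐ[k] K))) : LcAt X (g.n1 x) O :=
  let ⟨m, e, a, b, c, d, f⟩ := h
  ⟨m, pl g e, a, ed g b, by rw [cl_pl g b.1, c, map_nsmul], un g d, le_fr g f⟩

variable [IsAlgClosed k]

theorem ll (hX : Good X) (h : x ∈ LL X) : g.n1 x ∈ LL X := by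
  obtain ⟨f, a, rfl⟩ := (mem_LL hX).1 h
  exact cl_pl g a ▸ cl_mem (cart g a)

theorem so (hX : Good X) (h : x ∈ SO X (O.comap (g.1 : K →ₐ[k] K))) : g.n1 x ∈ SO X O :=
  (isCone_SO.preimage g.n1).cone_subset (fun _ hy => (sa g hy.2).so (ll g hX hy.1)) h

end TrnA

theorem trn_stmt : TrnStmt := fun _ _ _ _ _ _ X r g Z => by
  have hX : Good X := r.nice.toGood
  refine ⟨fun h => ⟨TrnA.good g h.good, fun O hO => TrnA.kr g (h.kr _ hO)⟩,
    fun x => ⟨fun h O hO => ?_, fun h O hO => TrnA.so g hX (h _ hO)⟩,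
    fun x h => ⟨TrnA.ll g hX h.1, fun O hO => TrnA.lc g (h.2 _ hO)⟩⟩
  have h1 := TrnA.so g.inv hX (h _ (TrnA.mem_tr g hO))
  rwa [show g.inv.n1 (g.n1 x) = x from g.eqv.left_inv x] at h1

end Pool.Agent.MP_20d318_ag.AM
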