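import Pool.Agent.MP_20d318_ag.AM.MSpec
import Pool.Agent.MP_fd6584_ag.MV.RowsG

/-! Row UPD: divisors on a small modification correspond up to multiples. -/

set_option autoImplicit false
set_option linter.unusedSectionVars false

namespace Pool.Agent.MP_20d318_ag.AM

open Pool.Agent.MP_fd6584_ag Pool.Agent.MP_fd6584_ag.Fn Pool.Agent.CBk
open Pool.Agent.MP_fd6584_ag.AG hiding deg_inv deg_congr deg_of_unit deg_mul deg_prod deg_zpow
  deg_eq_zero deg_nonneg deg_div deg_pow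
open Pool.Agent.MVg (Sc Fac Av)
open Pool.Agent.MP_20d318_ag.CH (cl cl_val cl_mem cl_eff n1_ext n1_eq)
open Pool.Agent.MP_20d318_ag.Lat (cone IsCone RP Intg Concl isCone_cone subset_cone)

namespace UpdA

variable {k K : Type} [Field k] [Field K] [Algebra k K] {Z : Set (Subalgebra k K)}

/-- A multiple of every finitely supported order function is Cartier. -/
theorem exists_mul (hq : ∀ P : Place k K, plO P ∈ Z → ∃ f, IsCart Z f ∧
      ∀ P' : Place k K, plO P' ∈ Z → (P'.ord (f (plO P')) = 0 ↔ P' ≠ P))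
    (e : Place k K → ℤ) (he : {P : Place k K | plO P ∈ Z ∧ e P ≠ 0}.Finite) :
    ∃ (m : ℕ) (f : Subalgebra k K → K), 0 < m ∧ IsCart Z f ∧
      ∀ P : Place k K, plO P ∈ Z → P.ord (f (plO P)) = m * e P := by
  classical
  choose! f hf using hq
  have hs : ∀ P ∈ he.toFinset, plO P ∈ Z := fun P hP => (he.mem_toFinset.1 hP).1
  obtain ⟨n, hn⟩ : ∃ n : Place k K → ℤ, ∀ P, n P = P.ord (f P (plO P)) := ⟨_, fun _ => rfl⟩
  have h0 : ∀ P ∈ he.toFinset, n P ≠ 0 := fun P hP h =>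
    ((hf P (hs P hP)).2 P (hs P hP)).1 (hn P ▸ h) rfl
  obtain ⟨m, hm⟩ : ∃ m : ℕ, m = ∏ P ∈ he.toFinset, (n P).natAbs := ⟨_, rfl⟩
  have hd : ∀ P ∈ he.toFinset, n P ∣ (m : ℤ) := fun P hP =>
    Int.natAbs_dvd.1 (Int.natCast_dvd_natCast.2 (hm ▸ Finset.dvd_prod_of_mem _ hP))
  refine ⟨m, ∏ P ∈ he.toFinset, f P ^ (e P * ((m : ℤ) / n P)),
    hm ▸ Finset.prod_pos fun P hP => Int.natAbs_pos.2 (h0 P hP),
    isCart_prod fun P hP => (hf P (hs P hP)).1.zpow _, fun Q hQ => ?_⟩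
  rw [Finset.prod_apply, Q.ord_prod _ _ fun P hP => ((hf P (hs P hP)).1.zpow _).ne hQ]
  have h1 : ∀ P ∈ he.toFinset, Q.ord ((f P ^ (e P * ((m : ℤ) / n P))) (plO Q)) =
      if P = Q then m * e Q else 0 := fun P hP => by
    rw [Pi.pow_apply, Place.ord_zpow]
    split_ifs with h
    · subst h
      rw [← hn P, mul_assoc, Int.ediv_mul_cancel (hd P hP), mul_comm]
    · rw [((hf P (hs P hP)).2 Q hQ).2 (Ne.symm h), mul_zero]
  rw [Finset.sum_congr rfl h1, Finset.sum_ite_eq']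
  split_ifs with h
  · rfl
  · have h2 : e Q = 0 := by
      by_contra h2
      exact h (he.mem_toFinset.2 ⟨hQ, h2⟩)
    rw [h2, mul_zero]

end UpdA

theorem upd_stmt : UpdStmt := by
  intro k K _ _ _ _ X r Z s
  refine ⟨fun f hf => ?_, fun f' hf' => ?_⟩
  · obtain ⟨m, f', a, b, c⟩ := UpdA.exists_mul s.qf (fun P => P.ord (f (plO P)))
      ((r.nice.toFine.fin_cart hf).subset fun P hP => ⟨(s.pl P).1 hP.1, hP.2⟩)
    exact ⟨m, f', a, b, fun P hP => c P ((s.pl P).2 hP)⟩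
  · obtain ⟨f, a, b⟩ := Pool.Agent.MVg.PullA.exists_cart r.fac (fun P => P.ord (f' (plO P)))
      ((s.nice.toFine.fin_cart hf').subset fun P hP => ⟨(s.pl P).2 hP.1, hP.2⟩)
    exact ⟨f, a, fun P hP => by rw [b P hP, Nat.cast_one, one_mul]⟩

end Pool.Agent.MP_20d318_ag.AM
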