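import Pool.Agent.MP_20d318_ag.AM.Asm
import Pool.Agent.MP_20d318_ag.AM.PMain
import Pool.Agent.MP_20d318_ag.AM.RLat
import Pool.Agent.MP_20d318_ag.AM.RLoo
import Pool.Agent.MP_20d318_ag.AM.RRef
import Pool.Agent.MP_20d318_ag.AM.RUpd
import Pool.Agent.MP_20d318_ag.AM.RPsi
import Pool.Agent.MP_20d318_ag.AM.RDeg
import Pool.Agent.MP_20d318_ag.AM.RHyp
import Pool.Agent.MP_20d318_ag.AM.RSig
import Pool.Agent.MP_20d318_ag.AM.REfc
import Pool.Agent.MP_20d318_ag.AM.RAmp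
import Pool.Agent.MP_20d318_ag.AM.RFiba
import Pool.Agent.MP_20d318_ag.AM.RAlg
import Pool.Agent.MP_20d318_ag.AM.RLza
import Pool.Agent.MP_20d318_ag.AM.RLzb
import Pool.Agent.MP_20d318_ag.AM.ROpn
import Pool.Agent.MP_20d318_ag.AM.RNef
import Pool.Agent.MP_20d318_ag.AM.RDet
import Pool.Agent.MP_20d318_ag.AM.RTrn
import Pool.Agent.MP_20d318_ag.AM.RChm
import Pool.Agent.MP_20d318_ag.AM.REnd
import Pool.Agent.MP_20d318_ag.AM.RBrat
import Pool.Agent.MP_20d318_ag.AM.RBge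
import Pool.Agent.MP_20d318_ag.AM.RCtr
import Pool.Agent.MP_20d318_ag.AM.RBig
import Pool.Agent.MP_20d318_ag.AM.RCla
import Pool.Agent.MP_20d318_ag.AM.RChn
import Pool.Agent.MP_20d318_ag.AM.RStb
import Pool.Agent.MP_20d318_ag.AM.REfb
import Pool.Agent.MP_20d318_ag.AM.RRsa
import Pool.Agent.MP_20d318_ag.AM.RSea
import Pool.Agent.MP_20d318_ag.AM.RSem
import Pool.Agent.MP_20d318_ag.AM.RSqz
import Pool.Agent.MP_20d318_ag.AM.RFgb
import Pool.Agent.MP_20d318_ag.AM.RBse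
import Pool.Agent.MP_20d318_ag.AM.RCpt
import Pool.Agent.MP_20d318_ag.AM.RPel
import Pool.Agent.MP_20d318_ag.AM.RRcb
import Pool.Agent.MP_20d318_ag.AM.RRcs
import Pool.Agent.MP_20d318_ag.AM.RPsa
import Pool.Agent.MP_20d318_ag.AM.RMor
import Pool.Agent.MP_20d318_ag.AM.RCor
import Pool.Agent.MP_20d318_ag.AM.RPtd
import Pool.Agent.MP_20d318_ag.AM.RClo
import Pool.Agent.MP_20d318_ag.AM.RCvd
import Pool.Agent.MP_20d318_ag.AM.RAix
import Pool.Agent.MP_20d318_ag.AM.RGen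
import Pool.Agent.MP_20d318_ag.AM.RSpl
import Pool.Agent.MP_20d318_ag.AM.RTen
import Pool.Agent.MP_20d318_ag.AM.ROrd
import Pool.Agent.MP_20d318_ag.AM.ROne
import Pool.Agent.MP_20d318_ag.AM.RStp
import Pool.Agent.MP_20d318_ag.AM.RNls
import Pool.Agent.MP_20d318_ag.AM.RMds

/-! All the rows are proved. -/

set_option autoImplicit false

namespace Pool.Agent.MP_20d318_ag.AM

theorem mm : MM :=
  ⟨sol_stmt, ext_stmt, int_stmt, ray_stmt, loo_stmt, ref_stmt, upd_stmt, psi_stmt, deg_stmt,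
    hyp_stmt, sig_stmt, efc_stmt, amp_stmt, fiba_stmt, alg_stmt, lza_stmt, lzb_stmt, opn_stmt,
    nef_stmt, det_stmt, trn_stmt, chm_stmt, en_stmt⟩

theorem sm : SM :=
  ⟨mm, ⟨brat_stmt, bge_stmt, ctr_stmt, big_stmt, cla_stmt, chn_stmt, stb_stmt, efb_stmt, rsa_stmt,
      sea_stmt, sem_stmt, sqz_stmt, fgb_stmt, bse_stmt, cpt_stmt, sol_stmt⟩,
    ⟨pel_stmt, rcb_stmt, rcs_stmt, psa_stmt, mor_stmt, cor_stmt, ptd_stmt, clo_stmt, cvd_stmt,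
      aix_stmt⟩,
    fun _ _ _ _ _ _ _ _ _ _ _ _ _ _ _ _ _ _ _ _ _ h => PS.pstep KK.mods.c mm MVg.gm.bas h,
    gen_stmt, spl_stmt, ten_stmt, ord_stmt, one_stmt, stp_stmt, nls_stmt, mds_stmt⟩

end Pool.Agent.MP_20d318_ag.AM
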