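import Pool.Agent.MP_20d318_ag.AM.ROrd
import Pool.Agent.MP_20d318_ag.CH.Asm

/-! Finite generation on the blow-up of the product with a line and on its double cover. -/

set_option autoImplicit false
set_option linter.unusedSectionVars false

namespace Pool.Agent.MP_20d318_ag.AM.PS

open Pool.Agent.MP_fd6584_ag.Fn Pool.Agent.CBk Polynomial
open Pool.Agent.MP_fd6584_ag.AG hiding deg_inv deg_congr deg_of_unit deg_mul deg_prod deg_zpow
  deg_eq_zero deg_nonneg deg_div deg_pow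
open Pool.Agent.MVg (Sc Fac Two BasStmt GaussStmt ex)
open Pool.Agent.MP_20d318_ag.CH
open Pool.Agent.MP_20d318_ag.Lat (cone IsCone RP isCone_cone subset_cone)

section step

variable {k M K Λ κ : Type} {n : ℕ} [Field k] [Field M] [Field K] [Algebra k M] [Algebra k K]
  [Fintype κ] (L : Lv k M Λ κ n) (ι : M →ₐ[k] K) (l : k) (ζ w : K) (e : ℕ)

/-- The generators on the next level. -/
noncomputable def dd {J : Type} (d : J → Subalgebra k M → M) :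
    J ⊕ (κ ⊕ Fin 4) ⊕ κ × Fin 4 → Subalgebra k K → K :=
  Sum.elim (fun j => up ι L.Y (d j)) (Sum.elim (sN L ι l ζ) fun x => EE L ι l ζ x.1 x.2)

/-- Sections are integral over sections that are rational functions of `ζ`. -/
def XSpl : Prop := ∀ g t a, IsCart L.Y g → ∀ μ, μ ≠ 0 → Sc (XX L ι ζ w e) (lb L ι l ζ g t a) μ →
  ∀ V : Subalgebra k K, IsVal V → ∃ s, s ≠ 0 ∧ Rt ι ζ s ∧
    Sc (XX L ι ζ w e) (lb L ι l ζ (g ^ 2) (t * 2) fun i j => a i j * 2) s ∧ μ ^ 2 / s ∈ V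

/-- The degree of a polynomial section. -/
def XDeg : Prop := ∀ g t a, IsCart L.Y g → ∀ G : M[X], G ≠ 0 →
  Sc (XX L ι ζ w e) (lb L ι l ζ g t a) (G.eval₂ (ι : M →+* K) ζ) → (G.natDegree : ℤ) ≤ t

/-- The orders of its coefficients. -/
def XOrd : Prop := ∀ g (t : ℕ) a, IsCart L.Y g → ∀ G : M[X], G.natDegree ≤ t →
  Sc (XX L ι ζ w e) (lb L ι l ζ g t a) (G.eval₂ (ι : M →+* K) ζ) → ∀ i j P (m : ℕ),
    OrdA.Pc L i P → P.Ge (a i j - m) ((ex (algebraMap k M l) t j G).coeff m * g (plO P))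

/-- A product of sections that vanishes to the orders `a` on the exceptional divisors. -/
def Tm (g : Subalgebra k M → M) (t : ℕ) (a : κ → Fin 4 → ℤ) (m : M) (q : k[X]) : Prop :=
  ∃ (x : κ → ℕ) (y : Fin 4 → ℕ) (q' : k[X]), Sc L.Y (g / ∏ i, L.s i ^ x i) m ∧
    q = q' * (X ^ y 0 * (X - 1) ^ y 1 * (X - C l) ^ y 2) ∧ t = q'.natDegree + ∑ j, y j ∧
    ∀ i j, a i j ≤ x i + y j

/-- Rational sections are sums of such products. -/
def XTen : Prop := ∀ g t a, IsCart L.Y g → ∀ s, s ≠ 0 → Rt ι ζ s →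
  Sc (XX L ι ζ w e) (lb L ι l ζ g t a) s → ∃ (t' : ℕ) (B : Finset M) (q : M → k[X]), t = t' ∧
    s = ∑ b ∈ B, ι b * aeval ζ (q b) ∧ ∀ b ∈ B, b ≠ 0 → q b ≠ 0 → Tm L l g t' a b (q b)

/-- One term. -/
def XOne : Prop := ∀ (J : Type) [Fintype J] (d : J → Subalgebra k M → M) R, Fg L.Y d (Sp L R) →
  (∀ j, Ed (XX L ι ζ w e) (dd L ι l ζ d j)) ∧ ∀ g (t : ℕ) a, IsCart L.Y g → cl L.Y g ∈ Sp L R →
    ∀ m q, m ≠ 0 → q ≠ 0 → Tm L l g t a m q → ∀ V, IsVal V →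
      Mon (XX L ι ζ w e) (dd L ι l ζ d) V (lb L ι l ζ g t a) (ι m * aeval ζ q)

variable {L ι l ζ w e}

/-- Finite generation passes to the next level. -/
def XStp (h : All L ι l ζ w e) : Prop := ∀ R, FG L.Y (Sp L R) →
  FG (XX L ι ζ w e) (h.Phi '' {D | D.1 ∈ Sp L R})

theorem phi_inj {h : All L ι l ζ w e} (t : StTest L.nd (nx L ι l ζ w e).nd h.Phi) :
    Function.Injective h.Phi := by
  refine (injective_iff_map_eq_zero _).2 fun D q => ?_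
  have z : ∀ {ν' : Curve (XX L ι ζ w e)} {r c : ℝ}, 0 < r →
      (nx L ι l ζ w e).nd.d ν' (h.Phi D) = r * c → c = 0 := fun r0 u => by
    rw [q] at u
    exact (mul_eq_zero.1 (u.symm.trans (map_zero _))).resolve_left r0.ne'
  have a : D.2.2 = 0 := funext₂ fun i j => by
    obtain ⟨ν, r, r0, u⟩ := t.tE i j
    exact z r0 (u D)
  refine Prod.ext (n1_ext fun ν => ?_) (Prod.ext ?_ a)
  · obtain ⟨μ, r, r0, u⟩ := t.tT ν 0
    simpa [a, nd_d] using z r0 (u D)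
  · obtain ⟨μ, r, r0, u⟩ := t.tC h.ok.ne.some
    simpa [a] using z r0 (u D)

end step

/-- SPL. -/
def SplStmt : Prop := Row fun {_ _ _ _ _ _ _ _ _ _ _ _ L ι l ζ w e} _ =>
  XSig L ι l ζ w e → XSpl L ι l ζ w e

/-- DEG. -/
def DegStmt : Prop := Row fun {_ _ _ _ _ _ _ _ _ _ _ _ L ι l ζ w e} _ => XDeg L ι l ζ w e

/-- ORD. -/
def OrdStmt : Prop := GaussStmt → Row fun {_ _ _ _ _ _ _ _ _ _ _ _ L ι l ζ w e} _ =>
  XOrd L ι l ζ w e

/-- TEN. -/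
def TenStmt : Prop := GaussStmt → BasStmt → Row fun {_ _ _ _ κ _ _ _ _ _ _ _ L ι l ζ w e} _ =>
  Two κ → XDeg L ι l ζ w e → XOrd L ι l ζ w e → XTen L ι l ζ w e

/-- ONE. -/
def OneStmt : Prop := Row fun {_ _ _ _ _ _ _ _ _ _ _ _ L ι l ζ w e} _ => XOne L ι l ζ w e

/-- STP. -/
def StpStmt : Prop := Row fun {_ _ _ _ _ _ _ _ _ _ _ _ L ι l ζ w e} h =>
  Function.Injective h.Phi → XCls L ι l ζ w e → XSpl L ι l ζ w e → XTen L ι l ζ w e →
    XOne L ι l ζ w e → XStp h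

/-- NLS. -/
def NlsStmt : Prop := Row fun {_ _ _ _ _ _ _ _ _ _ _ _ L ι l ζ w e} h =>
  Function.Injective h.Phi → XCls L ι l ζ w e → NL L.Y → NL (XX L ι ζ w e)

/-- MDS. -/
def MdsStmt : Prop := IntStmt.{1} → EfcStmt → Row fun {_ _ _ _ _ _ _ _ _ _ _ _ L ι l ζ w e} h =>
  Function.Injective h.Phi → StDiv L.nd (nx L ι l ζ w e).nd h.Phi →
  (∀ x ∈ (nx L ι l ζ w e).nd.Λ, ∃ N : ℕ, 0 < N ∧ ∃ D ∈ L.nd.LW, (N : ℝ) • x = h.Phi D) →
  (∀ x ∈ (nx L ι l ζ w e).nd.Ef, ∃ D, h.Phi D = x ∧ D.1 ∈ L.nd.Ef) →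
  (∀ γ ∈ L.nd.G, ∃ γ' ∈ (nx L ι l ζ w e).nd.G, ∀ D, γ' (h.Phi D) = h.Phi (γ D.1, D.2)) →
  XStp h → Ref (XX L ι ζ w e) → MD L → MD (nx L ι l ζ w e)

/-- The rows. -/
structure PM : Prop where
  spl : SplStmt
  deg : DegStmt
  ord : OrdStmt
  ten : TenStmt
  one : OneStmt
  stp : StpStmt
  nls : NlsStmt
  mds : MdsStmt

theorem PM.step (p : PM) (c : CH.Mods) (m : MM) (b : BasStmt) {k M K Λ κ : Type} {n : ℕ} [Field k]
    [NeZero (2 : k)] [IsAlgClosed k] [Field M] [Field K] [Algebra k M] [Algebra k K] [Finite Λ]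
    [Fintype κ] {L : Lv k M Λ κ n} {ι : M →ₐ[k] K} {l : k} {ζ w : K} {e : ℕ}
    (h : All L ι l ζ w e) (two : Two κ) (fd : FiniteDimensional ℝ (N1 L.Y)) (md : MD L) :
    Ref (XX L ι ζ w e) ∧ MD (nx L ι l ζ w e) := by
  have sig := c.sig c.hom k M K Λ κ n L ι l ζ w e h
  have nc := c.nice k K _ h.loc.fine (c.sm h)
  have cls := c.cls c.hor k M K Λ κ n L ι l ζ w e h (c.pl k M K Λ κ n L ι l ζ w e h) nc.1
  have cln := c.cln k M K Λ κ n L ι l ζ w e h cls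
    (c.eff k M K Λ κ n L ι l ζ w e h sig (c.pol c.gauss k M K Λ κ n L ι l ζ w e h))
  have dv := c.dv k M K Λ κ n L ι l ζ w e h
  have inj := phi_inj (c.test c.lift k M K Λ κ n L ι l ζ w e h
    (c.cur k M K Λ κ n L ι l ζ w e h).1 (c.pt k M K Λ κ n L ι l ζ w e h))
  have su : Function.Surjective h.Phi := LinearMap.range_eq_top.1 (top_le_iff.1 (dv.spn.ge.trans
    (Submodule.span_le.2 fun x hx => by
      obtain ⟨N, N0, D, -, q⟩ := cln.1 x hx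
      exact ⟨(N : ℝ)⁻¹ • D, by
        rw [map_smul, ← q]
        exact inv_smul_smul₀ (Nat.cast_ne_zero.2 N0.ne') x⟩)))
  have r := m.ref m.sol k K _ ⟨nc.1, nc.2, Module.Finite.of_surjective _ su,
    p.nls k M K Λ κ n L ι l ζ w e h inj cls md.nl⟩
  exact ⟨r, p.mds m.int m.efc k M K Λ κ n L ι l ζ w e h inj dv cln.1 cln.2
    (c.lft k M K Λ κ n L ι l ζ w e h sig)
    (p.stp k M K Λ κ n L ι l ζ w e h inj cls (p.spl k M K Λ κ n L ι l ζ w e h sig)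
      (p.ten c.gauss b k M K Λ κ n L ι l ζ w e h two (p.deg k M K Λ κ n L ι l ζ w e h)
        (p.ord c.gauss k M K Λ κ n L ι l ζ w e h)) (p.one k M K Λ κ n L ι l ζ w e h)) r md⟩

end Pool.Agent.MP_20d318_ag.AM.PS
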