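import Pool.Agent.MP_20d318_ag.AM.MSpec

/-! Row AMP: ample classes absorb every class. -/

set_option autoImplicit false
set_option linter.unusedSectionVars false

namespace Pool.Agent.MP_20d318_ag.AM

open Pool.Agent.MP_fd6584_ag Pool.Agent.MP_fd6584_ag.Fn Pool.Agent.CBk
open Pool.Agent.MP_fd6584_ag.AG hiding deg_inv deg_congr deg_of_unit deg_mul deg_prod deg_zpow
  deg_eq_zero deg_nonneg deg_div deg_pow
open Pool.Agent.MVg (Sc Fac Av)
open Pool.Agent.MP_20d318_ag.CH (cl cl_val cl_mem cl_eff n1_ext n1_eq)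
open Pool.Agent.MP_20d318_ag.Lat (cone IsCone RP Intg Concl isCone_cone subset_cone)

namespace AmpA

variable {k K : Type} [Field k] [Field K] [Algebra k K] {X Z : Set (Subalgebra k K)}
  {e f g : Subalgebra k K → K} {O : Subalgebra k K} {ρ : AG.N1 X}

theorem bnd (hX : Fine X) (hg : IsCart X g) :
    ∃ N : ℕ, ∀ P : Place k K, plO P ∈ X → -(N : ℤ) ≤ P.ord (g (plO P)) := by
  obtain ⟨N, hN⟩ := ((hX.fin_cart hg).image fun P => (P.ord (g (plO P))).natAbs).bddAbove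
  refine ⟨N, fun P hP => ?_⟩
  by_cases h : P.ord (g (plO P)) = 0
  · omega
  · have := hN ⟨P, ⟨hP, h⟩, rfl⟩
    simp only at this
    omega

theorem kill (hO : O ≤ fr (BB X e) O) {F : Set (Place k K)} (hF : F.Finite)
    (h : ∀ P ∈ F, plO P ∈ X ∧ P.ord (e (plO P)) = 0 ∧ ¬ O ≤ plO P) :
    ∃ c ∈ BB X e, IsU O c ∧ ∀ P ∈ F, 0 < P.ord c := by
  induction F, hF using Set.Finite.induction_on with
  | empty => exact ⟨1, one_mem _, isU_one, fun _ h => h.elim⟩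
  | @insert P F _ _ ih =>
    obtain ⟨c, c1, c2, c3⟩ := ih fun Q hQ => h Q (Or.inr hQ)
    obtain ⟨p1, p2, p3⟩ := h P (Or.inl rfl)
    obtain ⟨a, a1, a2⟩ := SetLike.not_le_iff_exists.1 p3
    obtain ⟨b, b1, d, d1, d2, rfl⟩ := hO a1
    have b0 : b ≠ 0 := fun e => a2 (by rw [e, zero_div]; exact zero_mem _)
    have d3 : 0 < P.ord d := by
      have h1 := mem_plO_ord.1 (b1 P p1 p2)
      have h2 := mt mem_plO_ord.2 a2
      rw [P.ord_div b0 d2.1] at h2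
      omega
    refine ⟨c * d, mul_mem c1 d1, c2.mul d2, fun Q hQ => ?_⟩
    have h1 := mem_plO_ord.1 (c1 Q (h Q hQ).1 (h Q hQ).2.1)
    have h2 := mem_plO_ord.1 (d1 Q (h Q hQ).1 (h Q hQ).2.1)
    rw [Q.ord_mul c2.1 d2.1]
    rcases hQ with rfl | hQ
    · omega
    · have := c3 Q hQ
      omega

variable [IsAlgClosed k]

theorem un (hX : Nice X) (hρ : ρ ∈ LL X) (hl : LcAt X ρ O) (hg : IsCart X g) (hu : Un X g O) :
    ∃ N : ℕ, 0 < N ∧ N • ρ + cl X g ∈ SO X O := by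
  obtain ⟨m, e, m0, e1, e2, e3, e4⟩ := hl
  obtain ⟨c, c1, c2, c3⟩ := kill e4 (F := {P | plO P ∈ X ∧ P.ord (g (plO P)) ≠ 0} ∩
    {P | P.ord (e (plO P)) = 0}) ((hX.toFine.fin_cart hg).inter_of_left _)
    fun P hP => ⟨hP.1.1, hP.2, fun h => hP.1.2 (hu P hP.1.1 h)⟩
  obtain ⟨N, hN⟩ := bnd hX.toFine hg
  have c0 : c ^ N ≠ 0 := pow_ne_zero _ c2.1
  have g1 : IsCart X fun O => c ^ N * g O := (isCart_const c0).mul hg
  obtain ⟨M, hM⟩ := bnd hX.toFine g1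
  have g2 : IsCart X (e ^ (M + 1) * fun O => c ^ N * g O) := (e1.1.pow _).mul g1
  have o1 : ∀ P : Place k K, plO P ∈ X →
      P.ord (c ^ N * g (plO P)) = N * P.ord c + P.ord (g (plO P)) := fun P hP => by
    rw [P.ord_mul c0 (hg.ne hP), P.ord_pow]
  have o2 : ∀ P : Place k K, plO P ∈ X → P.ord ((e ^ (M + 1) * fun O => c ^ N * g O) (plO P)) =
      (M + 1 : ℕ) * P.ord (e (plO P)) + P.ord (c ^ N * g (plO P)) := fun P hP => by
    rw [Pi.mul_apply, Pi.pow_apply, P.ord_mul (pow_ne_zero _ (e1.1.ne hP)) (g1.ne hP), P.ord_pow]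
  have k1 : cl X (e ^ (M + 1) * fun O => c ^ N * g O) = ((M + 1) * m) • ρ + cl X g := by
    rw [cl_mul hX.toGood (e1.1.pow _) g1, cl_pow hX.toGood e1.1, cl_cmul hX.toGood hg c0, e2,
      mul_smul]
  refine ⟨(M + 1) * m, by positivity, SaAt.so ⟨1, _, one_pos, ed_of hX g2 fun P hP => ?_,
    by rw [k1, one_smul], fun P hP h => ?_⟩ (add_mem (nsmul_mem hρ _) (cl_mem hg))⟩
  · rw [o2 P hP]
    have h1 := e1.ord hP
    by_cases h2 : P.ord (e (plO P)) = 0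
    · rw [h2, o1 P hP]
      have h3 := mem_plO_ord.1 (c1 P hP h2)
      by_cases h4 : P.ord (g (plO P)) = 0
      · rw [h4]
        positivity
      · have h5 := c3 P ⟨⟨hP, h4⟩, h2⟩
        have h6 := hN P hP
        nlinarith [Int.natCast_nonneg N]
    · have h3 := hM P hP
      have h4 : 1 ≤ P.ord (e (plO P)) := by omega
      push_cast
      nlinarith [Int.natCast_nonneg M]
  · have h1 : P.ord c = 0 := ((isU_plO' P).1 ⟨c2.1, h c2.2.1, h c2.2.2⟩).2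
    rw [o2 P hP, o1 P hP, e3 P hP h, hu P hP h, h1]
    simp

theorem one (hX : Nice X) (s : Sm X Z) (u : Upd X Z) (hρ : Lc X Z ρ) (hO : O ∈ Z)
    (hf : IsCart X f) : ∃ N : ℝ, 0 < N ∧ N • ρ + cl X f ∈ SO X O := by
  obtain ⟨m, f', m0, f1, f2⟩ := u.up f hf
  have c0 : (f' O)⁻¹ ≠ 0 := inv_ne_zero (f1.ne hO)
  obtain ⟨N, N0, hN⟩ := un (g := fun O' => (f' O)⁻¹ * (f ^ m) O') hX hρ.1 (hρ.2 O hO)
    ((isCart_const c0).mul (hf.pow m)) fun P hP h => by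
      simp only [Pi.pow_apply]
      rw [P.ord_mul c0 (pow_ne_zero _ (hf.ne hP)), P.ord_inv, P.ord_pow,
        B2.ord_eq f1 hO ((s.pl P).2 hP) h, f2 P hP, neg_add_cancel]
  rw [cl_cmul hX.toGood (hf.pow m) c0, cl_pow hX.toGood hf] at hN
  have m1 : (0 : ℝ) < m := by exact_mod_cast m0
  refine ⟨N / m, by positivity, IsCone.of_nsmul isCone_SO m0 ?_⟩
  rwa [smul_add, ← Nat.cast_smul_eq_nsmul ℝ m, smul_smul, mul_div_cancel₀ _ m1.ne',
    Nat.cast_smul_eq_nsmul]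

theorem sm {M : Type*} [AddCommGroup M] [Module ℝ M] {p : M → Prop}
    (ps : ∀ c : ℝ, 0 ≤ c → ∀ v, p v → p (c • v)) (c : ℝ) {x : M} (a : p x ∧ p (-x)) :
    p (c • x) ∧ p (-(c • x)) := by
  rcases le_total 0 c with hc | hc
  · exact ⟨ps c hc _ a.1, smul_neg c x ▸ ps c hc _ a.2⟩
  · exact ⟨neg_smul_neg c x ▸ ps (-c) (neg_nonneg.2 hc) _ a.2,
      neg_smul c x ▸ ps (-c) (neg_nonneg.2 hc) _ a.1⟩

end AmpA

theorem amp_stmt : AmpStmt := by
  intro k K _ _ _ _ X r Z s u ρ hρ O hO v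
  have h0 : ρ ∈ SO X O := hρ.mem O hO
  let p : AG.N1 X → Prop := fun v => ∃ N : ℝ, 0 < N ∧ N • ρ + v ∈ SO X O
  have pa : ∀ v w, p v → p w → p (v + w) := fun v w ⟨N, a, b⟩ ⟨N', a', b'⟩ =>
    ⟨N + N', by positivity, by
      rw [add_smul, add_add_add_comm]; exact isCone_SO.add _ b _ b'⟩
  have ps : ∀ c : ℝ, 0 ≤ c → ∀ v, p v → p (c • v) := fun c hc v ⟨N, a, b⟩ =>
    ⟨1 + c * N, by positivity, by
      rw [add_smul, one_smul, mul_smul, add_assoc, ← smul_add]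
      exact isCone_SO.add _ h0 _ (isCone_SO.smul c hc _ b)⟩
  obtain ⟨v, hv⟩ := v
  suffices h : p ⟨v, hv⟩ ∧ p (-⟨v, hv⟩) from h.1
  induction hv using Submodule.span_induction with
  | mem x hx =>
    obtain ⟨D, rfl⟩ := hx
    change p D.n1 ∧ p (-D.n1)
    rw [n1_eq, ← cl_inv r.nice.toGood D.isCart]
    exact ⟨AmpA.one r.nice s u hρ hO D.isCart, AmpA.one r.nice s u hρ hO D.isCart.inv⟩
  | zero =>
    have : p 0 := ⟨1, one_pos, by simpa using h0⟩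
    exact ⟨this, by change p (-0); rwa [neg_zero]⟩
  | add x y hx hy a b =>
    refine ⟨pa _ _ a.1 b.1, ?_⟩
    change p (-((⟨x, hx⟩ : AG.N1 X) + ⟨y, hy⟩))
    rw [neg_add]
    exact pa _ _ a.2 b.2
  | smul c x hx a => exact AmpA.sm ps c a

end Pool.Agent.MP_20d318_ag.AM
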