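import Pool.Agent.MP_20d318_ag.AM.BSpec

/-! Nef classes of positive square are big. -/

set_option autoImplicit false
set_option linter.unusedSectionVars false

namespace Pool.Agent.MP_20d318_ag.AM

open Pool.Agent.MP_20d318_ag.CB

namespace BgeA

theorem arith (s a b c : ℤ) (hs : 0 < s) : ∃ m : ℕ, 0 < m ∧ m * a - b ≤ m * (m * s) ∧
    c < m * s := by
  obtain ⟨m, hm⟩ : ∃ m : ℕ, (m : ℤ) = |a| + |b| + |c| + 1 := ⟨_, Int.toNat_of_nonneg (by positivity)⟩
  have a1 := le_abs_self a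
  have a2 := neg_abs_le b
  have a3 := le_abs_self c
  have b1 := abs_nonneg a
  have b2 := abs_nonneg b
  have b3 := abs_nonneg c
  have h1 : (m : ℤ) * 1 ≤ m * s := mul_le_mul_of_nonneg_left hs (by positivity)
  have h2 : (1 : ℤ) ≤ m := by linarith
  refine ⟨m, by omega, ?_, by linarith⟩
  have h3 : (m : ℤ) * (a + |b|) ≤ m * (m * s) :=
    mul_le_mul_of_nonneg_left (by linarith) (by positivity)
  have h4 : 1 * |b| ≤ (m : ℤ) * |b| := mul_le_mul_of_nonneg_right h2 b2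
  linarith

end BgeA

theorem bge_stmt : BgeStmt := by
  intro ι κ _ _ Λ h y hy w
  obtain ⟨m, h0, h1, h2⟩ := BgeA.arith (ip Λ.B y y) (ip Λ.B y Λ.K + 2 * ip Λ.B y w)
    (ip Λ.B Λ.K w + ip Λ.B w w) (ip Λ.B y Λ.K + ip Λ.B y w) hy.2
  refine ⟨m, h0, (h.ns.rr _ ?_).resolve_right fun k => ?_⟩
  · simp only [ip_sub_left, ip_sub_right, ip_nsmul_left, ip_nsmul_right,
      ip_comm h.ns.sym Λ.K y, ip_comm h.ns.sym w y]
    linarith
  · have := h.l1.efn y hy.1 _ k
    simp only [ip_sub_right, ip_nsmul_right] at this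
    linarith

end Pool.Agent.MP_20d318_ag.AM
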