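import Pool.Agent.MP_20d318_ag.AM.BSpec

/-! The invariants of the first level. -/

set_option autoImplicit false
set_option linter.unusedSectionVars false

namespace Pool.Agent.MP_20d318_ag.AM

open Pool.Agent.MP_fd6584_ag.Fn Pool.Agent.CBk
open Pool.Agent.MP_fd6584_ag.AG hiding deg_inv deg_congr deg_of_unit deg_mul deg_prod deg_zpow
  deg_eq_zero deg_nonneg deg_div deg_pow
open Pool.Agent.MP_20d318_ag.CB Pool.Agent.MP_20d318_ag.CB.P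
open Pool.Agent.MP_20d318_ag.CH (lv0 ldN Iso cl cl_val n1_ext)
open Pool.Agent.MP_20d318_ag.Lat (cone subset_cone isCone_cone)

theorem BseA.key {k M I κ : Type} [Field k] [IsAlgClosed k] [Field M] [Algebra k M] [Fintype I]
    [Fintype κ] {p : Pd k M I κ} {ψ : (I → ℝ) ≃ₗ[ℝ] N1 (lv0 p).Y} (h : Pair p)
    (hν : ∀ (ν : Curve (lv0 p).Y) x, ν.lin (ψ x) = ip p.B x (toR (p.zz ν)))
    {f : Subalgebra k M → M} (hf : IsCart (lv0 p).Y f) : ∃ c φ, φ ≠ 0 ∧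
      (∀ O ∈ p.T, IsU O (φ * p.lb c O / f O)) ∧ ψ (toR c) = cl (lv0 p).Y f := by
  obtain ⟨c, φ, a, b⟩ := h.all.a2.pic f hf
  exact ⟨c, φ, a, b, .trans (n1_ext fun ν => by
    rw [hν, ip_toR]
    exact (congrArg _ (h.all.a1.zzd ν c)).symm.trans (cl_val (h.all.a1.cart c) ν).symm)
    (cl_lin h.all.a1.nice.toGood (h.all.a1.cart c) hf b)⟩

theorem bse_stmt : BseStmt := by
  intro s k M I κ _ _ _ _ _ _ _ p h _ _ G ψ i hν E F
  refine ⟨fun f hf h0 => ?_, fun R fin _ ef => ?_, ?_⟩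
  · obtain ⟨c, φ, -, b, q⟩ := BseA.key h hν hf
    obtain rfl : c = 0 :=
      toR_inj ((ψ.injective ((q.trans h0).trans (map_zero ψ).symm)).trans toR_zero.symm)
    refine ⟨1, φ⁻¹, one_pos, fun O hO => ?_⟩
    have := (b O hO).inv
    rwa [Sd.lb_zero, mul_one, inv_div, div_eq_inv_mul, ← pow_one (f O)] at this
  · obtain ⟨T, T1, T2, T3⟩ := E.fin (ψ.symm '' R) (fin.image _) (by
      rintro _ ⟨x, hx, rfl⟩
      exact (i.Ef _).1 ((ψ.apply_symm_apply x).symm ▸ ef hx))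
    obtain ⟨J, j, d, d1, d2⟩ := F T T1 T2
    refine ⟨J, j, d, fg_iff.2 ⟨d1, fun e he hs V hV => ?_⟩⟩
    obtain ⟨c, φ, a, b, q⟩ := BseA.key h hν he.1
    have z : ∀ n, ψ.symm ((lv0 p).nd.c n) = toR (p.ld.C n) := fun n =>
      ψ.symm_apply_eq.2 (i.c n).symm
    obtain ⟨m, m0, m1⟩ := sol_int s (T3 (a := toR c) ⟨(i.Ef _).1 (q ▸ he.ef), by
      rw [← ψ.symm_apply_apply (toR c), q]
      refine ((isCone_cone _).preimage ψ.symm.toLinearMap).cone_subset ?_ hs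
      rintro x (hx | ⟨n, rfl⟩ | ⟨n, rfl⟩)
      · exact subset_cone _ (.inl ⟨x, hx, rfl⟩)
      · exact subset_cone _ (.inr (.inl ⟨n, (z n).symm⟩))
      · exact subset_cone _ (.inr (.inr ⟨n, ((map_neg ψ.symm _).trans (z n ▸ rfl)).symm⟩))⟩)
    have l : ∀ O, φ ^ m * p.lb (m • c) O = (φ * p.lb c O) ^ m := fun O => by
      rw [← natCast_zsmul, Sd.lb_zsmul, zpow_natCast, mul_pow]
    obtain ⟨n, w, μ, n0, μ1, μ2⟩ := d2 _ m1 (φ ^ m) (fun O hO => by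
      obtain ⟨u, v, -⟩ := b O hO
      rw [l, ← div_mul_cancel₀ (φ * p.lb c O) (div_ne_zero_iff.1 u).2]
      exact O.pow_mem (O.mul_mem v (he.2 O hO)) m) (pow_ne_zero _ a) V hV
    refine ⟨m * n, w, μ, mul_pos m0 n0, μ1, fun O hO => ?_⟩
    have := (μ2 O hO).mul ((b O hO).pow (m * n))
    rwa [l, ← pow_mul, div_pow, div_mul_div_cancel₀
      (pow_ne_zero _ (div_ne_zero_iff.1 (b O hO).1).1), ← one_mul (e O)] at this
  · obtain ⟨T, T1, T2, T3⟩ := E.cov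
    refine ⟨ψ '' (toR '' T), (T2.image _).image _, ?_, ?_, fun x hx => ?_⟩
    · rintro _ ⟨_, ⟨c, -, rfl⟩, rfl⟩
      exact (i.Λ _).2 ⟨c, rfl⟩
    · rintro _ ⟨_, ⟨c, hc, rfl⟩, rfl⟩
      exact (i.Ef _).2 (subset_cone _ ⟨c, T1 hc, rfl⟩)
    · obtain ⟨y, rfl⟩ := ψ.surjective x
      obtain ⟨ρ, r1, r2⟩ := T3 y ((i.Ef _).1 hx)
      obtain ⟨g, g1, g2⟩ := i.G (CH.actR ρ) ⟨ρ, r1, rfl⟩
      exact ⟨g, g1, g2 y ▸ (CH.cone_map ψ.toLinearMap _).ge ⟨_, r2, rfl⟩⟩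

end Pool.Agent.MP_20d318_ag.AM
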