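import Pool.Agent.MP_20d318_ag.AM.LSpec

/-! Additive maps on a lattice extend to linear maps. -/

set_option autoImplicit false

namespace Pool.Agent.MP_20d318_ag.AM

open Pool.Agent.MP_20d318_ag.Lat

universe u

theorem ext_stmt : ExtStmt.{u} := by
  intro hS N W _ _ _ _ L hL F
  classical
  obtain ⟨b, hb, hs, hi⟩ := exists_linearIndependent ℝ (L : Set N)
  have hi' : LinearIndepOn ℝ id b := hi
  let Ψ : N →ₗ[ℝ] W := (Module.Basis.extend hi').constr ℝ
    fun v => if h : (v : N) ∈ L then F ⟨v, h⟩ else 0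
  have h1 : ∀ x (h : x ∈ b), Ψ x = F ⟨x, hb h⟩ := fun x h => by
    have := (Module.Basis.extend hi').constr_basis ℝ
      (fun v => if h : (v : N) ∈ L then F ⟨v, h⟩ else 0) ⟨x, hi'.subset_extend _ h⟩
    rw [Module.Basis.extend_apply_self] at this
    exact this.trans (dif_pos (hb h))
  have hc := isCone_cone (b ∪ -b)
  have h2 : ∀ y ∈ Submodule.span ℝ b, y ∈ cone (b ∪ -b) ∧ -y ∈ cone (b ∪ -b) := fun y hy => by
    induction hy using Submodule.span_induction with
    | mem y h => exact ⟨subset_cone _ (Or.inl h), subset_cone _ (Or.inr (Set.neg_mem_neg.2 h))⟩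
    | zero => exact ⟨hc.zero, (neg_zero (G := N)).symm ▸ hc.zero⟩
    | add y z _ _ p q => exact ⟨hc.add _ p.1 _ q.1, neg_add y z ▸ hc.add _ p.2 _ q.2⟩
    | smul c y _ p =>
      rcases le_total 0 c with h | h
      · exact ⟨hc.smul _ h _ p.1, smul_neg c y ▸ hc.smul _ h _ p.2⟩
      · exact ⟨neg_smul_neg c y ▸ hc.smul _ (neg_nonneg.2 h) _ p.2,
          neg_smul c y ▸ hc.smul _ (neg_nonneg.2 h) _ p.1⟩
  have h3 : ∀ y ∈ AddSubmonoid.closure (b ∪ -b), ∃ h : y ∈ L, Ψ y = F ⟨y, h⟩ := fun y hy => by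
    induction hy using AddSubmonoid.closure_induction with
    | mem y h =>
      rcases h with h | h
      · exact ⟨hb h, h1 y h⟩
      · refine ⟨neg_mem_iff.1 (hb h), neg_injective ?_⟩
        rw [← map_neg, ← map_neg, h1 _ h]
        rfl
    | zero => exact ⟨L.zero_mem, (map_zero Ψ).trans (map_zero F).symm⟩
    | add y z _ _ p q =>
      obtain ⟨p, p'⟩ := p
      obtain ⟨q, q'⟩ := q
      exact ⟨L.add_mem p q, by rw [map_add, p', q', ← map_add]; rfl⟩
  refine ⟨Ψ, fun x => ?_⟩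
  obtain ⟨m, m0, hm⟩ := hS N L hL (b ∪ -b)
    (Set.union_subset hb fun y h => neg_mem_iff.1 (hb h)) x x.2
    (h2 x (hs ▸ Submodule.subset_span x.2)).1
  obtain ⟨h, e⟩ := h3 _ hm
  have e' : m • Ψ x = m • F x := by
    rw [← map_nsmul, ← map_nsmul, e]
    rfl
  rw [← Nat.cast_smul_eq_nsmul ℝ, ← Nat.cast_smul_eq_nsmul ℝ] at e'
  exact smul_right_injective W (Nat.cast_ne_zero.2 m0.ne') e'

end Pool.Agent.MP_20d318_ag.AM
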