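import Pool.Agent.MP_20d318_ag.AM.SSpec
import Pool.Agent.MP_20d318_ag.KK.RowsB

/-! Row GEN: the generic point of an exceptional fibre. -/

set_option autoImplicit false

open scoped TensorProduct

namespace Pool.Agent.MP_20d318_ag.AM

open Pool.Agent.MP_fd6584_ag.Fn Pool.Agent.CBk Polynomial
open Pool.Agent.MP_fd6584_ag.AG hiding deg_inv deg_congr deg_of_unit deg_mul deg_prod deg_zpow
  deg_eq_zero deg_nonneg deg_div deg_pow
open Pool.Agent.MP_20d318_ag.KK Pool.Agent.MP_20d318_ag.KK.VqP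

theorem gen_stmt : GenStmt := by
  classical
  intro hK k M M' K _ _ _ _ _ _ _ _ _ ι ι' e R R' A S S' h m m'
  have := h.loc
  have := h.loc'
  have := td (k := k) (L := IsLocalRing.ResidueField R) (K := IsLocalRing.ResidueField R')
  obtain ⟨V, hV, H⟩ := exists_val_of (XAlg.ev (pp ι ι' R R') A)
    (Polynomial.mapAlgHom (red R R')).toRingHom fun q hq => by
      obtain ⟨c, rfl⟩ := hK k M M' K ι ι' e R R' A S S' h q hq
      simp [(res0 ⟨S', h.mS'⟩).2 m', (res0 ⟨S, h.mS⟩).2 m]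
  refine ⟨V, hV, ov_of hV (fun z => XAlg.ev_C (pp ι ι' R R') A z ▸ (H _).1) fun z hz =>
    XAlg.ev_C (pp ι ι' R R') A z ▸ (H _).2.2 (by simp [hz]),
    XAlg.ev_X (pp ι ι' R R') A ▸ isU_of_not_mx (H X).1 fun q => by simpa using (H X).2.1 q,
    fun I s u u' y hu hi hs b hb => ?_⟩
  obtain ⟨U, hU⟩ : ∃ U : I → R, ∀ b ∈ s, (U b : M) = u b :=
    ⟨fun b => if q : b ∈ s then ⟨u b, (hu b q).1⟩ else 0, fun b q => by simp only [dif_pos q]⟩
  obtain ⟨U', hU'⟩ : ∃ U' : I → R', ∀ b ∈ s, (U' b : M') = u' b :=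
    ⟨fun b => if q : b ∈ s then ⟨u' b, (hu b q).2⟩ else 0, fun b q => by simp only [dif_pos q]⟩
  have e1 : XAlg.ev (pp ι ι' R R') A (∑ b ∈ s, C (U b ⊗ₜ[k] U' b) * X ^ y b) =
      ∑ b ∈ s, ι (u b) * ι' (u' b) * A ^ y b := by
    rw [map_sum]
    refine Finset.sum_congr rfl fun b q => ?_
    rw [map_mul, map_pow, XAlg.ev_C, XAlg.ev_X, pm_tmul, ← hU b q, ← hU' b q]
    rfl
  have z : (∑ b ∈ s, C (U b ⊗ₜ[k] U' b) * X ^ y b).map (red R R').toRingHom = 0 :=
    (H _).2.1 (e1 ▸ hs)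
  have z1 : ∑ c ∈ s with y c = y b, resid R (U c) ⊗ₜ[k] resid R' (U' c) = 0 := by
    have := congrArg (coeff · (y b)) z
    simp only [coeff_map, finsetSum_coeff, coeff_C_mul_X_pow, map_sum, coeff_zero] at this
    rw [Finset.sum_filter]
    refine (Finset.sum_congr rfl fun c _ => ?_).trans this
    by_cases q : y c = y b
    · rw [if_pos q, if_pos q.symm]
      rfl
    · rw [if_neg q, if_neg (Ne.symm q), map_zero]
  rw [← hU b hb, ← res0, ← Module.forall_dual_apply_eq_zero_iff k]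
  intro φ
  refine hi (fun c => φ (resid R (U c))) (y b) ?_ b hb rfl
  have z2 := congrArg (TensorProduct.lift ((LinearMap.lsmul k _).comp φ)) z1
  simp only [map_sum, TensorProduct.lift.tmul, LinearMap.comp_apply, LinearMap.lsmul_apply,
    map_zero, ← map_smul] at z2
  rw [← map_sum, res0, AddSubmonoidClass.coe_finsetSum] at z2
  rwa [Finset.sum_congr rfl fun c q => by
    rw [← hU' c (Finset.mem_filter.1 q).1, ← Subalgebra.coe_smul]]

end Pool.Agent.MP_20d318_ag.AM
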