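import Pool.Agent.MP_20d318_ag.AM.LSpec

/-! Row INT: finite intersections of rational polyhedral cones. -/

set_option autoImplicit false

namespace Pool.Agent.MP_20d318_ag.AM

open Pool.Agent.MP_20d318_ag.Lat

universe u

namespace IntA

variable {N M : Type u} [AddCommGroup N] [Module ℝ N] [AddCommGroup M] [Module ℝ M]

theorem cone_img (f : N →ₗ[ℝ] M) (R : Set N) : cone (f '' R) = f '' cone R := by
  refine Set.Subset.antisymm
    (((isCone_cone R).image f).cone_subset (Set.image_mono (subset_cone R))) ?_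
  rintro _ ⟨x, hx, rfl⟩
  exact ((isCone_cone (f '' R)).preimage f).cone_subset
    (fun y hy => subset_cone _ (Set.mem_image_of_mem f hy)) hx

theorem rp_img {L : AddSubgroup N} {L' : AddSubgroup M} (f : N →ₗ[ℝ] M)
    (hf : ∀ x ∈ L, f x ∈ L') {S : Set N} (h : RP L S) : RP L' (f '' S) := by
  obtain ⟨R, hR, rfl⟩ := h
  rw [← cone_img]
  refine rp_fin (R.finite_toSet.image f) ?_
  rintro _ ⟨x, hx, rfl⟩
  exact hf x (hR hx)

theorem rp_prod {L : AddSubgroup N} {S T : Set N} (a : RP L S) (b : RP L T) :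
    RP (L.prod L) (S ×ˢ T) := by
  obtain ⟨R, hR, rfl⟩ := a
  obtain ⟨R', hR', rfl⟩ := b
  have e : cone (LinearMap.inl ℝ N N '' (R : Set N) ∪ LinearMap.inr ℝ N N '' (R' : Set N)) =
      cone (R : Set N) ×ˢ cone (R' : Set N) := by
    refine Set.Subset.antisymm (IsCone.cone_subset ?_ ?_) ?_
    · exact ((isCone_cone (R : Set N)).preimage (LinearMap.fst ℝ N N)).inter
        ((isCone_cone (R' : Set N)).preimage (LinearMap.snd ℝ N N))
    · rintro _ (⟨x, hx, rfl⟩ | ⟨x, hx, rfl⟩)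
      · exact ⟨subset_cone _ hx, (isCone_cone _).zero⟩
      · exact ⟨(isCone_cone _).zero, subset_cone _ hx⟩
    · rintro ⟨x, y⟩ ⟨hx, hy⟩
      have e : (x, y) = LinearMap.inl ℝ N N x + LinearMap.inr ℝ N N y := by simp
      rw [e]
      refine (isCone_cone _).add _ (cone_mono Set.subset_union_left ?_) _
        (cone_mono Set.subset_union_right ?_)
      · rw [cone_img]; exact Set.mem_image_of_mem _ hx
      · rw [cone_img]; exact Set.mem_image_of_mem _ hy
  rw [← e]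
  refine rp_fin ((R.finite_toSet.image _).union (R'.finite_toSet.image _)) ?_
  rintro _ (⟨x, hx, rfl⟩ | ⟨x, hx, rfl⟩)
  · exact ⟨hR hx, L.zero_mem⟩
  · exact ⟨L.zero_mem, hR' hx⟩

theorem rp_two {L : AddSubgroup N} (l : Lt L) {S T : Set N} (a : RP L S) (b : RP L T) :
    RP L (S ∩ T) := by
  obtain ⟨Cv, h1, h2⟩ := l.sep
  have := l.fd
  obtain ⟨k, c, hc, hs⟩ := exists_sep Cv h2
  let D : N × N →ₗ[ℝ] N := LinearMap.fst ℝ N N - LinearMap.snd ℝ N N
  have hD : ∀ z ∈ L.prod L, D z ∈ L := fun z hz => L.sub_mem hz.1 hz.2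
  have key := (rp_prod a b).inter_fin
    (T := Set.range (fun j => (c j).comp D) ∪ Set.range fun j => -(c j).comp D)
    ((Set.finite_range _).union (Set.finite_range _)) (by
      rintro _ (⟨j, rfl⟩ | ⟨j, rfl⟩) z hz
      · exact h1 _ (hc j) _ (hD z hz)
      · obtain ⟨n, hn⟩ := h1 _ (hc j) _ (hD z hz)
        exact ⟨-n, by rw [Int.cast_neg, ← hn]; rfl⟩)
  have key' := rp_img (L := L.prod L) (L' := L) (LinearMap.fst ℝ N N) (fun z hz => hz.1) key
  refine (Set.Subset.antisymm ?_ ?_ : _ = S ∩ T) ▸ key'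
  · rintro _ ⟨⟨x, y⟩, ⟨⟨hx, hy⟩, hz⟩, rfl⟩
    have e : x - y = 0 := hs _ fun j => by
      have p : 0 ≤ c j (x - y) := hz _ (Or.inl ⟨j, rfl⟩)
      have q : 0 ≤ -c j (x - y) := hz _ (Or.inr ⟨j, rfl⟩)
      linarith
    exact ⟨hx, by rw [show LinearMap.fst ℝ N N (x, y) = y from sub_eq_zero.1 e]; exact hy⟩
  · rintro x ⟨hx, hy⟩
    refine ⟨(x, x), ⟨⟨hx, hy⟩, ?_⟩, rfl⟩
    have e : D (x, x) = 0 := sub_self x
    rintro _ (⟨j, rfl⟩ | ⟨j, rfl⟩)
    · simp [e]
    · simp [e]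

end IntA

theorem int_stmt : IntStmt.{u} := by
  intro N _ _ L l S hS 𝒰 hU
  induction 𝒰, hU using Set.Finite.induction_on with
  | empty => intro _; simpa using hS
  | @insert T s _ _ ih =>
    intro h
    have := IntA.rp_two l (ih fun T' k => h T' (Set.mem_insert_of_mem _ k))
      (h T (Set.mem_insert _ _))
    rwa [Set.sInter_insert, Set.inter_comm T, ← Set.inter_assoc]

end Pool.Agent.MP_20d318_ag.AM
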