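import Pool.Agent.MP_20d318_ag.AM.LSpec

/-! Row RAY: finitely generated cones are closed along rays. -/

set_option autoImplicit false

namespace Pool.Agent.MP_20d318_ag.AM

open Pool.Agent.MP_20d318_ag.Lat

universe u

namespace RayA

variable {N : Type u} [AddCommGroup N] [Module ℝ N]

/-- A point on which every form nonnegative on `R` is nonnegative lies in the cone of `R`. -/
theorem mem_of_dual (R : Finset N) (x : N)
    (h : ∀ f : Module.Dual ℝ N, (∀ r ∈ R, 0 ≤ f r) → 0 ≤ f x) : x ∈ cone (R : Set N) := by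
  obtain ⟨c, hc, e⟩ := farkas R (fun r => Module.Dual.eval ℝ N r) (Module.Dual.eval ℝ N x) h
  refine mem_cone_fin.2 ⟨c, hc, ?_⟩
  rw [← sub_eq_zero, ← Module.forall_dual_apply_eq_zero_iff ℝ]
  intro f
  have := e f
  simp only [Module.Dual.eval_apply] at this
  simp [this]

theorem nonneg (R : Finset N) (f : Module.Dual ℝ N) (h : ∀ r ∈ R, 0 ≤ f r) {y : N}
    (hy : y ∈ cone (R : Set N)) : 0 ≤ f y := by
  obtain ⟨c, hc, rfl⟩ := mem_cone_fin.1 hy
  rw [map_sum]
  exact Finset.sum_nonneg fun r hr => by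
    rw [map_smul, smul_eq_mul]; exact mul_nonneg (hc r) (h r hr)

end RayA

theorem ray_stmt : RayStmt.{u} := by
  intro N _ _ R x a h
  refine RayA.mem_of_dual R x fun f hf => ?_
  by_contra k
  have k' : 0 < -f x := by linarith [not_le.1 k]
  have p : 0 < |f a| + 1 := by positivity
  obtain ⟨ε, e1, e2, e3⟩ := h (-f x / (|f a| + 1)) (div_pos k' p)
  have := RayA.nonneg R f hf e3
  rw [map_add, map_smul, smul_eq_mul] at this
  rw [le_div_iff₀ p] at e2
  have := mul_le_mul_of_nonneg_left (le_abs_self (f a)) e1.le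
  nlinarith

end Pool.Agent.MP_20d318_ag.AM
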