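import Pool.Agent.MP_20d318_ag.AM.LSpec

/-! Lattice points of a cone over lattice points. -/

set_option autoImplicit false

namespace Pool.Agent.MP_20d318_ag.AM

open Pool.Agent.MP_20d318_ag.Lat

universe u

namespace SolA

variable {N : Type u} [AddCommGroup N] [Module ℝ N] {L : AddSubgroup N}

theorem clear (Q : Finset N) (q : N → ℚ) (hq : ∀ r ∈ Q, 0 ≤ q r) :
    ∃ m : ℕ, 0 < m ∧ m • ∑ r ∈ Q, (q r : ℝ) • r ∈ AddSubmonoid.closure (Q : Set N) := by
  refine Finset.sum_induction _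
    (fun x => ∃ m : ℕ, 0 < m ∧ m • x ∈ AddSubmonoid.closure (Q : Set N)) ?_ ⟨1, one_pos, by simp⟩
    fun r hr => ⟨(q r).den, (q r).den_pos, ?_⟩
  · rintro x y ⟨m, hm, hx⟩ ⟨n, hn, hy⟩
    refine ⟨m * n, Nat.mul_pos hm hn, ?_⟩
    rw [smul_add]
    refine add_mem ?_ ?_
    · rw [mul_comm, mul_smul]
      exact nsmul_mem hx n
    · rw [mul_smul]
      exact nsmul_mem hy m
  · obtain ⟨n, hn⟩ := Int.eq_ofNat_of_zero_le (Rat.num_nonneg.2 (hq r hr))
    have h : ((q r).den : ℝ) * q r = n := by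
      have := Rat.den_mul_eq_num (q r)
      rw [hn] at this
      exact_mod_cast this
    rw [← Nat.cast_smul_eq_nsmul ℝ, smul_smul, h, Nat.cast_smul_eq_nsmul]
    exact nsmul_mem (AddSubmonoid.subset_closure hr) n

theorem rat (l : Lt L) : ∃ p : ℝ → ℚ, ∀ (Q : Finset N) (c : N → ℝ), (Q : Set N) ⊆ L →
    ∑ r ∈ Q, c r • r ∈ L → ∑ r ∈ Q, c r • r = ∑ r ∈ Q, (p (c r) : ℝ) • r := by
  obtain ⟨p, hp⟩ := LinearMap.exists_leftInverse_of_injective (Algebra.linearMap ℚ ℝ)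
    (LinearMap.ker_eq_bot.2 (algebraMap ℚ ℝ).injective)
  have h1 : p 1 = 1 := by simpa using LinearMap.congr_fun hp 1
  obtain ⟨Cv, hi, hs⟩ := l.sep
  refine ⟨p, fun Q c hQ hx => sub_eq_zero.1 (hs _ fun f hf => ?_)⟩
  obtain ⟨z, hz⟩ := hi f hf _ hx
  choose! w hw using hi f hf
  have h2 : ∀ d : N → ℝ, f (∑ r ∈ Q, d r • r) = ∑ r ∈ Q, w r • d r := fun d => by
    rw [map_sum]
    exact Finset.sum_congr rfl fun r hr => by
      rw [map_smul, hw r (hQ hr), smul_eq_mul, zsmul_eq_mul, mul_comm]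
  have h3 : ∑ r ∈ Q, w r • p (c r) = z := by
    have := congrArg p ((h2 c).symm.trans hz)
    rwa [map_sum, ← zsmul_one z, map_zsmul, h1, zsmul_one, Finset.sum_congr rfl
      fun r _ => map_zsmul p (w r) (c r)] at this
  rw [map_sub, hz, h2, sub_eq_zero]
  have := congrArg (Rat.cast : ℚ → ℝ) h3
  simpa using this.symm

theorem main (l : Lt L) (Q : Finset N) : ∀ c : N → ℝ, (Q : Set N) ⊆ L → (∀ r ∈ Q, 0 ≤ c r) →
    ∑ r ∈ Q, c r • r ∈ L →
    ∃ m : ℕ, 0 < m ∧ m • ∑ r ∈ Q, c r • r ∈ AddSubmonoid.closure (Q : Set N) := by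
  classical
  obtain ⟨p, hp⟩ := rat l
  induction Q using Finset.strongInduction with
  | H Q ih =>
    intro c hQ hc hx
    have e := hp Q c hQ hx
    by_cases h : ∀ r ∈ Q, 0 ≤ p (c r)
    · rw [e]
      exact clear Q _ h
    push Not at h
    obtain ⟨s, hs, hmin⟩ := Finset.exists_min_image (Q.filter fun r => (p (c r) : ℝ) < 0)
      (fun r => c r / (c r - p (c r))) (by
        obtain ⟨r, h1, h2⟩ := h
        exact ⟨r, Finset.mem_filter.2 ⟨h1, by exact_mod_cast h2⟩⟩)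
    obtain ⟨hsQ, hs0⟩ := Finset.mem_filter.1 hs
    have hcs := hc s hsQ
    have hd : 0 < c s - p (c s) := by linarith
    obtain ⟨t, ht⟩ : ∃ t, t = c s / (c s - p (c s)) := ⟨_, rfl⟩
    have t0 : 0 ≤ t := ht ▸ div_nonneg hcs hd.le
    have t1 : t ≤ 1 := ht ▸ (div_le_one hd).2 (by linarith)
    have e2 : ∑ r ∈ Q.erase s, (c r - t * (c r - p (c r))) • r = ∑ r ∈ Q, c r • r := by
      rw [Finset.sum_erase _ (by rw [ht, div_mul_cancel₀ _ hd.ne', sub_self, zero_smul])]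
      simp only [sub_smul, mul_smul, Finset.sum_sub_distrib, ← Finset.smul_sum, ← e, sub_self,
        smul_zero, sub_zero]
    obtain ⟨m, hm, hmem⟩ := ih _ (Finset.erase_ssubset hsQ) (fun r => c r - t * (c r - p (c r)))
      ((Finset.coe_subset.2 (Finset.erase_subset _ _)).trans hQ) (fun r hr => by
        have hr' := Finset.mem_of_mem_erase hr
        have h1 := hc r hr'
        by_cases h2 : (p (c r) : ℝ) < 0
        · have h3 := hmin r (Finset.mem_filter.2 ⟨hr', h2⟩)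
          rw [← ht, le_div_iff₀ (by linarith)] at h3
          linarith
        · nlinarith [mul_nonneg t0 (not_lt.1 h2), mul_nonneg (sub_nonneg.2 t1) h1])
      (by rwa [e2])
    rw [e2] at hmem
    exact ⟨m, hm, AddSubmonoid.closure_mono (Finset.coe_subset.2 (Finset.erase_subset _ _)) hmem⟩

end SolA

theorem sol_stmt : SolStmt.{u} := by
  intro N _ _ L l R hR x hx h
  obtain ⟨Q, hQ, h⟩ := exists_fin h
  obtain ⟨c, hc, rfl⟩ := mem_cone_fin.1 h
  obtain ⟨m, hm, h⟩ := SolA.main l Q c (hQ.trans hR) (fun r _ => hc r) hx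
  exact ⟨m, hm, AddSubmonoid.closure_mono hQ h⟩

end Pool.Agent.MP_20d318_ag.AM
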