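import Pool.Agent.MP_20d318_ag.AM.MSpec
import Pool.Agent.MP_20d318_ag.KK.Spec
import Pool.Agent.MP_fd6584_ag.MV.Spec

/-! Finite generation on the blow-up of a product and on its double cover: statements. -/

set_option autoImplicit false
set_option linter.unusedSectionVars false

namespace Pool.Agent.MP_20d318_ag.AM

open Pool.Agent.MP_fd6584_ag.Fn Pool.Agent.CBk
open Pool.Agent.MP_fd6584_ag.AG hiding deg_inv deg_congr deg_of_unit deg_mul deg_prod deg_zpow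
  deg_eq_zero deg_nonneg deg_div deg_pow
open Pool.Agent.MVg (Sc Fac Two BasStmt)
open Pool.Agent.MP_20d318_ag.CH (Lv Lf sX cl Nd n1_ext)
open Pool.Agent.MP_20d318_ag.KK
open Pool.Agent.MP_20d318_ag.Lat (cone IsCone RP isCone_cone subset_cone)

section one

variable {k K : Type} [Field k] [Field K] [Algebra k K] (X : Set (Subalgebra k K))

/-- The section `s` of `ℓ` is integral over the monomials in the `d j`, seen from `V`. -/
def Mon {J : Type} [Fintype J] (d : J → Subalgebra k K → K) (V : Subalgebra k K)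
    (ℓ : Subalgebra k K → K) (s : K) : Prop :=
  ∃ (m : ℕ) (a : J → ℕ) (μ : K), 0 < m ∧ μ ∈ V ∧
    ∀ O ∈ X, IsU O ((μ * ∏ j, d j O ^ a j) / (s * ℓ O) ^ m)

variable {X} {J : Type} [Fintype J] {d : J → Subalgebra k K → K} {V : Subalgebra k K}
  {ℓ ℓ' : Subalgebra k K → K} {s t : K}

theorem Mon.of_pow {n : ℕ} (h : Mon X d V ℓ' t) (hn : 0 < n) (hs : s ≠ 0) (ht : t ≠ 0)
    (hV : s ^ n / t ∈ V) (hl : ∀ O ∈ X, IsU O (ℓ' O / ℓ O ^ n)) : Mon X d V ℓ s := by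
  obtain ⟨m, a, μ, h1, h2, h3⟩ := h
  refine ⟨n * m, a, μ * (s ^ n / t) ^ m, mul_pos hn h1, V.mul_mem h2 (V.pow_mem hV m),
    fun O hO => ?_⟩
  obtain ⟨l1, l2⟩ := div_ne_zero_iff.1 (hl O hO).1
  have l3 : ℓ O ≠ 0 := fun q => l2 (by rw [q, zero_pow hn.ne'])
  refine Eq.subst (motive := IsU O) ?_ ((h3 O hO).mul ((hl O hO).pow m))
  simp only [pow_mul, mul_pow, div_pow]
  field_simp

theorem Mon.sum {I : Type*} {B : Finset I} {τ : I → K} (hV : IsVal V) (hX : ∀ O ∈ X, ℓ O ≠ 0)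
    (h : ∀ b ∈ B, τ b ≠ 0 → Mon X d V ℓ (τ b)) (h0 : ∑ b ∈ B, τ b ≠ 0) :
    Mon X d V ℓ (∑ b ∈ B, τ b) := by
  classical
  have key : ∀ B : Finset I, (∀ b ∈ B, τ b = 0) ∨ ∃ b ∈ B, τ b ≠ 0 ∧ ∀ c ∈ B, τ c / τ b ∈ V := by
    intro B
    induction B using Finset.induction_on with
    | empty => simp
    | insert c B _ ih =>
      rcases eq_or_ne (τ c) 0 with c0 | c0
      · refine ih.imp (by simpa [c0] using id) fun ⟨b, b1, b2, b3⟩ =>
          ⟨b, Finset.mem_insert_of_mem b1, b2, by simpa [c0] using b3⟩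
      refine Or.inr (ih.elim (fun q => ⟨c, by simp, c0, ?_⟩) fun ⟨b, b1, b2, b3⟩ => ?_)
      · simpa [c0] using fun a ha => by simp [q a ha]
      rcases hV (τ c / τ b) with q | q
      · exact ⟨b, Finset.mem_insert_of_mem b1, b2, by simpa [q] using b3⟩
      · refine ⟨c, by simp, c0, ?_⟩
        simp only [Finset.forall_mem_insert, div_self c0, one_mem, true_and]
        intro a ha
        have := V.mul_mem (b3 a ha) q
        rwa [inv_div, div_mul_div_cancel₀ b2] at this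
  obtain q | ⟨b, b1, b2, b3⟩ := key B
  · exact (h0 (Finset.sum_eq_zero q)).elim
  refine (h b b1 b2).of_pow one_pos h0 b2 ?_ fun O hO => ?_
  · rw [pow_one, Finset.sum_div]
    exact sum_mem b3
  · rw [pow_one, div_self (hX O hO)]
    exact isU_one

theorem fg_iff {S : Set (N1 X)} : Fg X d S ↔ (∀ j, Ed X (d j)) ∧
    ∀ e, Ed X e → cl X e ∈ S → ∀ V, IsVal V → Mon X d V e 1 := by
  simp only [Fg, Mon, one_mul]

end one

section level

variable {k M Λ κ : Type} {n : ℕ} [Field k] [Field M] [Algebra k M] [Fintype κ] (L : Lv k M Λ κ n)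

/-- The cone over `R` plus the span of the components. -/
def Sp (R : Set (N1 L.Y)) : Set (N1 L.Y) :=
  cone (R ∪ (Set.range L.nd.c ∪ Set.range fun i => -L.nd.c i))

/-- The invariants of a level. -/
structure MD : Prop where
  nl : NL L.Y
  fs : ∀ R : Set (N1 L.Y), R.Finite → R ⊆ LL L.Y → R ⊆ Glue.Ef L.Y → FG L.Y (Sp L R)
  ce : ∃ R : Set (N1 L.Y), R.Finite ∧ R ⊆ LL L.Y ∧ R ⊆ Glue.Ef L.Y ∧
    ∀ x ∈ Glue.Ef L.Y, ∃ g ∈ L.nd.G, g x ∈ cone R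

variable {L}

theorem MD.fS (h : MD L) : FS L.Y := by
  rintro _ ⟨R, a, rfl⟩ b
  exact (h.fs R R.finite_toSet a ((subset_cone _).trans b)).mono
    (Lat.cone_mono Set.subset_union_left)

theorem MD.cE (h : MD L) : CE L.Y := by
  obtain ⟨R, a, b, c, d⟩ := h.ce
  refine ⟨_, rp_fin a b, (isCone_cone _).cone_subset c, fun x hx => ?_⟩
  obtain ⟨_, ⟨g, -, -, rfl⟩, q⟩ := d x hx
  exact ⟨g, q⟩

theorem sp_sub {R : Set (N1 L.Y)} {x : N1 L.Y} (h : x ∈ Sp L R) (z : κ → ℝ) :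
    x - ∑ i, z i • L.nd.c i ∈ Sp L R := by
  rw [sub_eq_add_neg, ← Finset.sum_neg_distrib]
  refine (isCone_cone _).add _ h _ ((isCone_cone _).sum_mem _ _ fun i _ => ?_)
  rcases le_total 0 (z i) with q | q
  · exact smul_neg (z i) (L.nd.c i) ▸
      (isCone_cone _).smul _ q _ (subset_cone _ (Or.inr (Or.inr ⟨i, rfl⟩)))
  · exact neg_smul (z i) (L.nd.c i) ▸
      (isCone_cone _).smul _ (neg_nonneg.2 q) _ (subset_cone _ (Or.inr (Or.inl ⟨i, rfl⟩)))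

end level

section step

theorem inj_of {V V' V'' 𝒞 𝒞' 𝒞'' : Type 1} {κ κ' : Type} [AddCommGroup V] [Module ℝ V]
    [AddCommGroup V'] [Module ℝ V'] [AddCommGroup V''] [Module ℝ V''] [Fintype κ] [Fintype κ']
    {N : Nd V 𝒞 κ} {N' : Nd V' 𝒞' κ'} {d : 𝒞'' → V'' →ₗ[ℝ] ℝ} {Φ : WP V V' κ κ' →ₗ[ℝ] V''}
    (t : StTest N N' d Φ) (i : κ) (j : κ') (s : ∀ x, (∀ ν, N.d ν x = 0) → x = 0)
    (s' : ∀ x, (∀ ν, N'.d ν x = 0) → x = 0) : Function.Injective Φ := by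
  refine (injective_iff_map_eq_zero _).2 fun D h => ?_
  have a : D.2.2 = 0 := funext₂ fun i j => by
    obtain ⟨μ, n, n0, q⟩ := t.tE i j
    have := q D
    rw [h, map_zero] at this
    exact (mul_eq_zero.1 this.symm).resolve_left n0.ne'
  refine Prod.ext (s _ fun ν => ?_) (Prod.ext (s' _ fun ν => ?_) a)
  · obtain ⟨μ, q⟩ := t.tT ν j
    simpa [h, a] using (q D).symm
  · obtain ⟨μ, q⟩ := t.tT' ν i
    simpa [h, a] using (q D).symm

variable {k M M' K Λ Λ' κ κ' : Type} {n n' : ℕ} [Field k] [Field M] [Field M'] [Field K]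
  [Algebra k M] [Algebra k M'] [Algebra k K] [Fintype κ] [Fintype κ'] (L : Lv k M Λ κ n)
  (L' : Lv k M' Λ' κ' n') (ι : M →ₐ[k] K) (ι' : M' →ₐ[k] K) (Z : Set (Subalgebra k K))

/-- The generators on the next level. -/
noncomputable def dd {J J' : Type} (d : J → Subalgebra k M → M) (d' : J' → Subalgebra k M' → M') :
    (J ⊕ J') ⊕ (κ ⊕ κ') ⊕ κ × κ' → Subalgebra k K → K :=
  Sum.elim (Sum.elim (fun j => up ι L.Y (d j)) fun j => up ι' L'.Y (d' j))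
    (Sum.elim (sN L L' ι ι') fun x => EE L L' ι ι' x.1 x.2)

/-- Sections are integral over sections in the compositum. -/
def XSpl : Prop := ∀ g g' a, IsCart L.Y g → IsCart L'.Y g' → ∀ μ, μ ≠ 0 →
  Sc Z (lb L L' ι ι' g g' a) μ → ∀ V : Subalgebra k K, IsVal V → ∃ t, t ≠ 0 ∧ Rt ι ι' t ∧
    Sc Z (lb L L' ι ι' (g ^ 2) (g' ^ 2) fun i j => a i j * 2) t ∧ μ ^ 2 / t ∈ V

/-- Sections in the compositum are sums of products of sections. -/
def XTen : Prop := ∀ g g' a, IsCart L.Y g → IsCart L'.Y g' → ∀ t, Rt ι ι' t →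
  Sc Z (lb L L' ι ι' g g' a) t → ∃ (I : Type) (s : Finset I) (m : I → M) (m' : I → M'),
    t = ∑ b ∈ s, ι (m b) * ι' (m' b) ∧ ∀ b ∈ s, Sc L.Y g (m b) ∧ Sc L'.Y g' (m' b)

/-- A product of sections that vanishes to the orders `a` on the exceptional divisors. -/
def Tm (g : Subalgebra k M → M) (g' : Subalgebra k M' → M') (a : κ → κ' → ℤ) (m : M) (m' : M') :
    Prop := ∃ (x : κ → ℕ) (y : κ' → ℕ), Sc L.Y (g / ∏ i, L.s i ^ x i) m ∧
  Sc L'.Y (g' / ∏ j, L'.s j ^ y j) m' ∧ ∀ i j, a i j ≤ x i + y j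

/-- The terms can be chosen to be sections. -/
def XOrd : Prop := ∀ g g' a, IsCart L.Y g → IsCart L'.Y g' → ∀ (I : Type) (s : Finset I) (m : I → M)
  (m' : I → M'), (∀ b ∈ s, Sc L.Y g (m b) ∧ Sc L'.Y g' (m' b)) →
    Sc Z (lb L L' ι ι' g g' a) (∑ b ∈ s, ι (m b) * ι' (m' b)) → ∃ (B : Finset M') (c : M' → M),
      ∑ b ∈ s, ι (m b) * ι' (m' b) = ∑ b ∈ B, ι (c b) * ι' b ∧
        ∀ b ∈ B, c b ≠ 0 → b ≠ 0 → Tm L L' g g' a (c b) b

/-- One term. -/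
def XOne : Prop := ∀ (J J' : Type) [Fintype J] [Fintype J'] (d : J → Subalgebra k M → M)
  (d' : J' → Subalgebra k M' → M') R R', Fg L.Y d (Sp L R) → Fg L'.Y d' (Sp L' R') →
    (∀ j, Ed Z (dd L L' ι ι' d d' j)) ∧ ∀ g g' a, IsCart L.Y g → IsCart L'.Y g' →
      cl L.Y g ∈ Sp L R → cl L'.Y g' ∈ Sp L' R' → ∀ m m', m ≠ 0 → m' ≠ 0 → Tm L L' g g' a m m' →
        ∀ V, IsVal V → Mon Z (dd L L' ι ι' d d') V (lb L L' ι ι' g g' a) (ι m * ι' m')

variable {L L' ι ι' Z} {v : K} {e : ℕ}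

/-- Finite generation passes to the next level. -/
def XStp (h : Geo L L' ι ι' v e Z) : Prop := ∀ R R', FG L.Y (Sp L R) → FG L'.Y (Sp L' R') →
  FG Z (h.Phi '' {D | D.1 ∈ Sp L R ∧ D.2.1 ∈ Sp L' R'})

theorem phi_inj {h : Geo L L' ι ι' v e Z} (t : StTest L.nd L'.nd Curve.lin h.Phi) :
    Function.Injective h.Phi :=
  inj_of t h.ok.ne.some h.ok'.ne.some (fun _ q => n1_ext fun ν => (q ν).trans (map_zero _).symm)
    fun _ q => n1_ext fun ν => (q ν).trans (map_zero _).symm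

end step

/-- GEN: the generic point of an exceptional fibre. -/
def GenStmt : Prop := KqStmt → FRow fun {k M M' _ _ _ _ _ _ _ _} ι ι' => ∀ e R R' A S S',
  Lq e ι ι' R R' A S S' → S ∈ mx R → S' ∈ mx R' → ∃ V, IsVal V ∧ Ov ι ι' R R' V ∧ IsU V A ∧
    ∀ (I : Type) (s : Finset I) (u : I → M) (u' : I → M') (y : I → ℕ),
      (∀ b ∈ s, u b ∈ R ∧ u' b ∈ R') →
      (∀ (c : I → k) (N : ℕ), ∑ b ∈ s with y b = N, c b • u' b ∈ mx R' →
        ∀ b ∈ s, y b = N → c b = 0) →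
      ∑ b ∈ s, ι (u b) * ι' (u' b) * A ^ y b ∈ mx V → ∀ b ∈ s, u b ∈ mx R

/-- SPL. -/
def SplStmt : Prop := Row fun {_ _ _ _ _ _ _ _ _ _ _ _ _ _ _ _ _ _ _ L L' ι ι' v e Z} _ =>
  XSig L L' ι ι' v e Z → XSpl L L' ι ι' Z

/-- TEN. -/
def TenStmt : Prop := GaStmt →
  Row fun {_ _ _ _ _ _ _ _ _ _ _ _ _ _ _ _ _ _ _ L L' ι ι' _ _ Z} _ =>
    UniqueFactorizationMonoid (Bq ι ι' ⊤ ⊤ ∅) → XTen L L' ι ι' Z

/-- ORD. -/
def OrdStmt : Prop := KqStmt → GenStmt → BasStmt →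
  Row fun {_ _ _ _ _ _ _ κ' _ _ _ _ _ _ _ _ _ _ _ L L' ι ι' _ _ Z} _ => Two κ' → XOrd L L' ι ι' Z

/-- ONE. -/
def OneStmt : Prop := Row fun {_ _ _ _ _ _ _ _ _ _ _ _ _ _ _ _ _ _ _ L L' ι ι' _ _ Z} _ =>
  XOne L L' ι ι' Z

/-- STP. -/
def StpStmt : Prop := Row fun {_ _ _ _ _ _ _ _ _ _ _ _ _ _ _ _ _ _ _ L L' ι ι' _ _ Z} h =>
  Function.Injective h.Phi → XCls L L' ι ι' Z → XSpl L L' ι ι' Z → XTen L L' ι ι' Z →
    XOrd L L' ι ι' Z → XOne L L' ι ι' Z → XStp h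

/-- NLS: numerically trivial divisors. -/
def NlsStmt : Prop := Row fun {_ _ _ _ _ _ _ _ _ _ _ _ _ _ _ _ _ _ _ L L' ι ι' _ _ Z} h =>
  Function.Injective h.Phi → XCls L L' ι ι' Z → NL L.Y → NL L'.Y → NL Z

/-- MDS: the invariants pass to the next level. -/
def MdsStmt : Prop := IntStmt.{1} → EfcStmt →
  RowX fun {_ _ _ _ _ _ _ _ _ _ _ _ _ _ _ _ _ _ _ L L' ι ι' v e} h => Function.Injective h.Phi →
    StDiv L.nd L'.nd (nx L L' ι ι' v e).nd h.Phi → StCls L.nd L'.nd (nx L L' ι ι' v e).nd h.Phi →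
    StLift L.nd L'.nd (nx L L' ι ι' v e).nd h.Phi → XStp h → Ref (XX L L' ι ι' v e) →
    MD L → MD L' → MD (nx L L' ι ι' v e)

end Pool.Agent.MP_20d318_ag.AM
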