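import Pool.Agent.MP_fd6584_ag.h70.Pj.Stalk

/-! The standard charts of a projective variety. -/

set_option autoImplicit false

open AlgebraicGeometry CategoryTheory TopologicalSpace HomogeneousLocalization

namespace Pool.Agent.MP_20d318_ag.AM

open Pool.Agent.MP_fd6584_ag.Pj

attribute [local instance] MvPolynomial.gradedAlgebra

/-- A finite affine cover glued along ratios of coordinates. -/
def Cov (X : Scheme.{0}) : Prop :=
  ∃ (N : ℕ) (U : Fin (N + 1) → X.Opens) (t : ∀ i, Fin (N + 1) → Γ(X, U i)),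
    (∀ i, IsAffineOpen (U i)) ∧ (∀ x, ∃ i, x ∈ U i) ∧
    (∀ i l, X.basicOpen (t i l) = U i ⊓ U l) ∧
    ∀ i j l x (hi : x ∈ U i) (hj : x ∈ U j), X.presheaf.germ _ x hi (t i j) *
      X.presheaf.germ _ x hj (t j l) = X.presheaf.germ _ x hi (t i l)

namespace PJ

noncomputable section

variable (k : Type) [Field k] (n : ℕ)

/-- The graded polynomial ring. -/
abbrev G := MvPolynomial.homogeneousSubmodule (Fin (n + 1)) k

/-- The variables. -/
abbrev xx (i : Fin (n + 1)) : MvPolynomial (Fin (n + 1)) k := MvPolynomial.X i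

theorem xm (i : Fin (n + 1)) : xx k n i ∈ G k n 1 := MvPolynomial.isHomogeneous_X _ _

/-- The fraction `x_l / x_i`. -/
def fq (i l : Fin (n + 1)) : Away (G k n) (xx k n i) :=
  Away.mk _ (xm k n i) 1 (xx k n l) (xm k n l)

/-- The standard chart. -/
abbrev V (i : Fin (n + 1)) : (Proj (G k n)).Opens := Proj.basicOpen (G k n) (xx k n i)

/-- The fraction as a section. -/
def sq (i l : Fin (n + 1)) : Γ(Proj (G k n), V k n i) :=
  (Proj.awayToSection (G k n) (xx k n i)).hom (fq k n i l)

theorem germ_val (i l : Fin (n + 1)) (x : Proj (G k n)) (hx : x ∈ V k n i) :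
    ((Proj.stalkIso (G k n) x).hom ((Proj (G k n)).presheaf.germ _ x hx (sq k n i l))).val =
      Localization.mk (xx k n l) ⟨xx k n i, hx⟩ := by
  have h := Proj.stalkIso'_germ (G k n) (V k n i) x hx (sq k n i l)
  have h2 := ProjectiveSpectrum.Proj.awayToSection_apply (G k n) (xx k n i) (fq k n i l) ⟨x, hx⟩
  refine (congrArg val h).trans (h2.trans ?_)
  rw [fq, Away.val_mk, Localization.mk_eq_mk', IsLocalization.map_mk', ← Localization.mk_eq_mk']
  congr 1
  ext
  simp

theorem s_basic (i l : Fin (n + 1)) :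
    (Proj (G k n)).basicOpen (sq k n i l) = V k n i ⊓ V k n l := by
  ext x
  by_cases hx : x ∈ V k n i
  · have h1 := (Proj (G k n)).mem_basicOpen (sq k n i l) x hx
    have h2 : IsUnit ((Proj (G k n)).presheaf.germ _ x hx (sq k n i l)) ↔ x ∈ V k n l := by
      rw [← MulEquiv.isUnit_map (f := (Proj.stalkIso (G k n) x).commRingCatIsoToRingEquiv),
        ← isUnit_iff_isUnit_val]
      erw [germ_val]
      rw [Localization.mk_eq_mk', IsLocalization.AtPrime.isUnit_mk'_iff]
      rfl
    exact (h1.trans h2).trans ⟨fun h => ⟨hx, h⟩, fun h => h.2⟩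
  · exact ⟨fun h => (hx ((Proj (G k n)).basicOpen_le _ h)).elim, fun h => (hx h.1).elim⟩

theorem s_mul (i j l : Fin (n + 1)) (x : Proj (G k n)) (hi : x ∈ V k n i) (hj : x ∈ V k n j) :
    (Proj (G k n)).presheaf.germ _ x hi (sq k n i j) *
      (Proj (G k n)).presheaf.germ _ x hj (sq k n j l) =
      (Proj (G k n)).presheaf.germ _ x hi (sq k n i l) := by
  apply (Proj.stalkIso (G k n) x).commRingCatIsoToRingEquiv.injective
  apply val_injective
  rw [map_mul, val_mul]
  refine (congrArg₂ (· * ·) (germ_val k n i j x hi) (germ_val k n j l x hj)).trans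
    (Eq.trans ?_ (germ_val k n i l x hi).symm)
  rw [Localization.mk_mul, Localization.mk_eq_mk_iff, Localization.r_iff_exists]
  refine ⟨1, ?_⟩
  simp only [OneMemClass.coe_one, one_mul, Submonoid.coe_mul]
  ring

theorem s_cov (x : Proj (G k n)) : ∃ i, x ∈ V k n i := by
  refine Opens.mem_iSup.1 ((Proj.iSup_basicOpen_eq_top' (G k n) (xx k n)
    (fun i => ⟨1, xm k n i⟩) ?_).ge (Set.mem_univ x))
  refine top_le_iff.1 fun a h => ?_
  clear h
  induction a using MvPolynomial.induction_on with
  | C r => exact Subalgebra.algebraMap_mem _ (⟨MvPolynomial.C r,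
      MvPolynomial.isHomogeneous_C _ r⟩ : G k n 0)
  | add p q hp hq => exact add_mem hp hq
  | mul_X p l hp => exact mul_mem hp (Algebra.subset_adjoin ⟨l, rfl⟩)

end

end PJ

open PJ in
theorem cov_of_proj {k : Type} [Field k] {X : Scheme.{0}} {s : X ⟶ Spec (CommRingCat.of k)}
    (h : IsProjective s) : Cov X := by
  obtain ⟨n, i, hi, -⟩ := h
  refine ⟨n, fun l => i ⁻¹ᵁ V k n l, fun l m => i.app _ (sq k n l m),
    fun l => (Proj.isAffineOpen_basicOpen (G k n) _ (xm k n l) one_pos).preimage _,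
    fun x => s_cov k n _, fun l m => ?_, fun l m r x hl hm => ?_⟩
  · rw [← Scheme.preimage_basicOpen, s_basic]
    rfl
  · rw [← i.germ_stalkMap_apply _ x hl, ← i.germ_stalkMap_apply _ x hm,
      ← i.germ_stalkMap_apply _ x hl, ← map_mul]
    exact congrArg _ (s_mul k n l m r _ hl hm)

end Pool.Agent.MP_20d318_ag.AM
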