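import Pool.Agent.MP_20d318_ag.KK.MainE

/-! A product with a line is covered by elliptic curves. -/

set_option autoImplicit false
set_option linter.unusedSectionVars false

namespace Pool.Agent.MP_20d318_ag.AM

open Polynomial
open Pool.Agent.MP_20d318_ag.CH (cb)
open Pool.Agent.MP_20d318_ag.KK
open IntermediateField (adjoin)

variable {k M₀ M K : Type} [Field k] [Field M₀] [Field M] [Field K] [Algebra k M₀] [Algebra k M]
  [Algebra k K]

theorem ec_of {a : ℕ} {ι : Fin a → M₀ →ₐ[k] M} {ζ : Fin 1 → M} {l : Fin 1 → k} {φ x y : Fin a → M₀}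
    {ψ : M} {t : Fin 2 → M₀} (ht : AlgebraicIndependent k t) (ht' : adjoin k (Set.range t) = ⊤)
    (ind : AlgebraicIndependent k (Sum.elim (Sum.elim (fun i => ι i (x i)) fun i => ι i (y i)) ζ))
    (eq : ψ = (∏ i, ι i (φ i)) * ∏ r, cb (l r) (ζ r))
    (top : adjoin k ((⋃ i, Set.range (ι i)) ∪ (Set.range ζ ∪ ∅)) = ⊤) (h0 : ψ ≠ 0)
    (l0 : l 0 ≠ 0) (l1 : l 0 ≠ 1) : EC k ψ := by
  have tb : IsTranscendenceBasis k t := ht.isTranscendenceBasis_iff_isAlgebraic.2 ⟨fun m => by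
    rw [← IntermediateField.isAlgebraic_adjoin_iff]
    exact isAlgebraic_algebraMap (⟨m, ht' ▸ IntermediateField.mem_top⟩ : adjoin k (Set.range t))⟩
  have tr := ind.transcendental_adjoin (s := Set.range Sum.inl) (i := Sum.inr 0) (by simp)
  set A := Sum.elim (Sum.elim (fun i => ι i (x i)) fun i => ι i (y i)) ζ '' Set.range Sum.inl
  have alg : ∀ i m, IsAlgebraic (Algebra.adjoin k A) (ι i m) := fun i m => by
    have hi : AlgebraicIndependent k ![x i, y i] := AlgebraicIndependent.of_comp (ι i) (TqR.cg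
      (ind.comp ![.inl (.inl i), .inl (.inr i)] (by
        intro b c; fin_cases b <;> fin_cases c <;> simp)) fun j => by fin_cases j <;> rfl)
    have le : Algebra.adjoin k (Set.range ![x i, y i]) ≤ (Algebra.adjoin k A).comap (ι i) := by
      refine Algebra.adjoin_le ?_
      rintro _ ⟨j, rfl⟩
      fin_cases j
      · exact Algebra.subset_adjoin ⟨_, ⟨.inl i, rfl⟩, rfl⟩
      · exact Algebra.subset_adjoin ⟨_, ⟨.inr i, rfl⟩, rfl⟩
    exact ((hi.isTranscendenceBasis_of_trdeg_le_of_finite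
      tb.cardinalMk_eq_trdeg.ge).isAlgebraic.isAlgebraic m).ringHom_of_comp_eq
      (((ι i).comp (Subalgebra.val _)).codRestrict _ fun b => le b.2) (ι i)
      (fun b c q => Subtype.ext ((ι i).injective (congrArg Subtype.val q))) rfl
  let k₀ := adjoin k (⋃ i, Set.range (ι i))
  let c : k₀ := ⟨∏ i, ι i (φ i), prod_mem fun i _ =>
    IntermediateField.subset_adjoin _ _ (Set.mem_iUnion.2 ⟨i, _, rfl⟩)⟩
  have c0 : c ≠ 0 := fun q => h0 (by rw [eq, show ∏ i, ι i (φ i) = 0 from congrArg Subtype.val q,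
    zero_mul])
  have m0 : algebraMap k k₀ (l 0) ≠ 0 := (_root_.map_ne_zero _).2 l0
  have m1 : algebraMap k k₀ (l 0) ≠ 1 := fun q => l1 ((algebraMap k k₀).injective (by simpa using q))
  refine ecq_stmt k M ψ (EcsA.core (k₀ := k₀) (W := AlgebraicClosure M) (z := ζ 0) (J := 1)
    (g := C c * ∏ j, (X - C (![0, 1, algebraMap k k₀ (l 0)] j))) ?_ ?_ one_ne_zero ?_ (Or.inl ?_) ?_)
  · rw [IntermediateField.transcendental_adjoin_iff]
    refine fun q => tr (q.adjoin_of_forall_isAlgebraic fun b hb => ?_)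
    obtain ⟨i, m, rfl⟩ := Set.mem_iUnion.1 hb.1
    exact alg i m
  · apply IntermediateField.restrictScalars_injective k
    rw [IntermediateField.adjoin_adjoin_left, IntermediateField.restrictScalars_top, ← top,
      Set.union_empty, Set.range_unique]
    rfl
  · refine (separable_prod_X_sub_C_iff.2 fun i j => ?_).unit_mul (isUnit_C.2 c0.isUnit)
    fin_cases i <;> fin_cases j <;> simp [m0, m1, m0.symm, m1.symm]
  · rw [natDegree_C_mul c0, natDegree_finsetProd_X_sub_C_eq_card]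
    rfl
  · rw [eq, Fin.prod_univ_three]
    simp [cb, c]

theorem hz_symm {ι : M →ₐ[k] K} {ι' : M₀ →ₐ[k] K} {φ : M} {φ' : M₀} {v : K}
    (x : Ext φ φ' ι ι' v 2) (h : Hz ι' ι v⁻¹) : Hz ι ι' v := by
  have u : ι φ ≠ 0 := (_root_.map_ne_zero ι).2 x.ne
  have u' : ι' φ' ≠ 0 := (_root_.map_ne_zero ι').2 x.symm.ne
  have e : Bq ι' ι ⊤ ⊤ {v⁻¹} = Bq ι ι' ⊤ ⊤ {v} := by
    rw [Bq_comm]
    refine le_antisymm (Algebra.adjoin_le ?_) (Algebra.adjoin_le ?_)
    · rintro b (⟨m, -, rfl⟩ | ⟨m, -, rfl⟩ | rfl)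
      · exact Bq_l trivial
      · exact Bq_r trivial
      · rw [show v⁻¹ = v * ι φ * ι' φ'⁻¹ by
          rw [map_inv₀, ← x.eq]; have := x.vne; field_simp]
        exact mul_mem (mul_mem (Bq_g rfl) (Bq_l trivial)) (Bq_r trivial)
    · rintro b (⟨m, -, rfl⟩ | ⟨m, -, rfl⟩ | q)
      · exact Bq_l trivial
      · exact Bq_r trivial
      · rw [show b = v⁻¹ * ι' φ' * ι φ⁻¹ by
          rw [q, map_inv₀, ← x.eq]; have := x.vne; field_simp]
        exact mul_mem (mul_mem (Bq_g rfl) (Bq_r trivial)) (Bq_l trivial)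
  rwa [Hz, e] at h

end Pool.Agent.MP_20d318_ag.AM
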