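import Mathlib.AlgebraicGeometry.ValuativeCriterion
import Pool.Agent.MP_20d318_ag.AM.TCov

/-! Every projective variety is the model of a finite family of charts. -/

set_option autoImplicit false
set_option linter.style.haveILetI false

open AlgebraicGeometry CategoryTheory TopologicalSpace

namespace Pool.Agent.MP_20d318_ag.AM

open Pool.Agent.MP_fd6584_ag.Pj

namespace RV

noncomputable section

variable {k K : Type} [Field k] [Field K] [Algebra k K] {X : Scheme.{0}} [IsIntegral X]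
  {s : X ⟶ Spec (CommRingCat.of k)} (ε : X.functionField ≃+* K)

/-- The generic point. -/
def gp : Spec (CommRingCat.of K) ⟶ X :=
  Spec.map (CommRingCat.ofHom ε.toRingHom) ≫ X.fromSpecStalk (genericPoint X)

/-- Sections as elements of the field. -/
def ph {U : X.Opens} (h : genericPoint X ∈ U) : Γ(X, U) →+* K :=
  ε.toRingHom.comp (X.presheaf.germ U _ h).hom

variable {U W : X.Opens}

theorem ph_inj (h : genericPoint X ∈ U) : Function.Injective (ph ε h) :=
  ε.injective.comp (germ_injective_of_isIntegral _ _ h)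

theorem ph_spec (hU : IsAffineOpen U) (h : genericPoint X ∈ U) :
    Spec.map (CommRingCat.ofHom (ph ε h)) ≫ hU.fromSpec = gp ε := by
  rw [gp, ← hU.fromSpecStalk_eq_fromSpecStalk h, IsAffineOpen.fromSpecStalk,
    ← Spec.map_comp_assoc]
  rfl

theorem ph_res (h : genericPoint X ∈ U) (h' : genericPoint X ∈ W) (i : U ≤ W) (a : Γ(X, W)) :
    ph ε h (X.presheaf.map (homOfLE i).op a) = ph ε h' a :=
  congrArg ε (X.presheaf.germ_res_apply (homOfLE i) _ h a)

theorem gp_s (hε : ∀ c, ε (const s c) = algebraMap k K c) :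
    gp ε ≫ s = Spec.map (CommRingCat.ofHom (algebraMap k K)) := by
  have h2 : X.fromSpecStalk (genericPoint X) ≫ s = Spec.map (CommRingCat.ofHom (const s)) := by
    rw [const, CommRingCat.ofHom_hom, Spec.map_comp, Spec.map_comp, Category.assoc,
      ← Scheme.fromSpecStalk_toSpecΓ, Category.assoc, ← Scheme.toSpecΓ_naturality_assoc,
      ← SpecMap_ΓSpecIso_hom, ← Spec.map_comp, Iso.inv_hom_id, Spec.map_id, Category.comp_id]
  rw [gp, Category.assoc, h2, ← Spec.map_comp]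
  congr 1
  exact CommRingCat.hom_ext (RingHom.ext hε)

theorem ph_const (hε : ∀ c, ε (const s c) = algebraMap k K c) (hU : IsAffineOpen U)
    (h : genericPoint X ∈ U) (c : k) :
    ph ε h (Spec.preimage (hU.fromSpec ≫ s) c) = algebraMap k K c := by
  have h1 := gp_s ε hε
  rw [← ph_spec ε hU h, Category.assoc, ← Spec.map_preimage (hU.fromSpec ≫ s), ← Spec.map_comp,
    Spec.map_inj] at h1
  exact congrArg (fun g => g.hom c) h1

theorem exists_B [LocallyOfFiniteType s] (hε : ∀ c, ε (const s c) = algebraMap k K c)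
    (hU : IsAffineOpen U) (h : genericPoint X ∈ U) :
    ∃ B : Subalgebra k K, B.FG ∧ ∀ y, y ∈ B ↔ ∃ a, ph ε h a = y := by
  have h1 : (Spec.preimage (hU.fromSpec ≫ s)).hom.FiniteType := by
    rw [← HasRingHomProperty.Spec_iff (P := @LocallyOfFiniteType), Spec.map_preimage]
    infer_instance
  letI := (Spec.preimage (hU.fromSpec ≫ s)).hom.toAlgebra
  let φ : Γ(X, U) →ₐ[k] K := ⟨ph ε h, ph_const ε hε hU h⟩
  have h2 : Algebra.FiniteType k Γ(X, U) := h1
  exact ⟨φ.range, by rw [← Algebra.map_top]; exact h2.out.map φ, fun y => Iff.rfl⟩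

theorem ph_frac (hU : IsAffineOpen U) (h : genericPoint X ∈ U) (y : K) :
    ∃ a b, ph ε h b ≠ 0 ∧ y * ph ε h b = ph ε h a := by
  have : Nonempty U := ⟨⟨_, h⟩⟩
  have := functionField_isFractionRing_of_isAffineOpen X U hU
  obtain ⟨a, b, hb, e⟩ := IsFractionRing.div_surjective (A := Γ(X, U)) (ε.symm y)
  have h0 : ph ε h b ≠ 0 := (map_ne_zero_iff _ (ph_inj ε h)).2 (nonZeroDivisors.ne_zero hb)
  refine ⟨a, b, h0, ?_⟩
  rw [← ε.apply_symm_apply y, ← e, map_div₀]
  exact div_mul_cancel₀ _ h0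

theorem ph_pow (hU : IsAffineOpen U) (h : genericPoint X ∈ U) (h' : genericPoint X ∈ W)
    (t : Γ(X, U)) (ht : X.basicOpen t = U ⊓ W) (c : Γ(X, W)) :
    ∃ (n : ℕ) (b : Γ(X, U)), ph ε h b = ph ε h t ^ n * ph ε h' c := by
  have := hU.isLocalization_basicOpen t
  have h2 : genericPoint X ∈ X.basicOpen t := ht ▸ ⟨h, h'⟩
  obtain ⟨⟨b, _, n, rfl⟩, e⟩ := IsLocalization.surj (Submonoid.powers t)
    (X.presheaf.map (homOfLE (ht.le.trans inf_le_right)).op c)
  have e2 := congrArg (ph ε h2) e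
  have e3 : ∀ a : Γ(X, U), ph ε h2 (algebraMap _ Γ(X, X.basicOpen t) a) = ph ε h a :=
    fun a => ph_res ε h2 h (X.basicOpen_le t) a
  rw [map_mul, e3, e3, ph_res ε h2 h'] at e2
  exact ⟨n, b, by rw [← e2, map_pow, mul_comm]⟩

theorem val_ex [IsProper s] (hε : ∀ c, ε (const s c) = algebraMap k K c)
    (O : ValuationSubring K) (hO : ∀ c : k, algebraMap k K c ∈ O) :
    ∃ x : X, ∀ (U : X.Opens) (_ : IsAffineOpen U) (h : genericPoint X ∈ U), x ∈ U →
      ∀ a, ph ε h a ∈ O := by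
  have h1 : ValuativeCriterion.Existence s :=
    (UniversallyClosed.eq_valuativeCriterion.le _ _ s inferInstance).1
  obtain ⟨l, h2⟩ : ∃ l : Spec (CommRingCat.of O) ⟶ X,
      Spec.map (CommRingCat.ofHom (algebraMap O K)) ≫ l = gp ε := by
    obtain ⟨⟨l, h2, -⟩⟩ := h1
      { R := O, K := K, i₁ := gp ε
        i₂ := Spec.map (CommRingCat.ofHom ((algebraMap k K).codRestrict O hO))
        commSq := ⟨by rw [gp_s ε hε, ← Spec.map_comp]; rfl⟩ }
    exact ⟨l, h2⟩
  refine ⟨l (IsLocalRing.closedPoint O), fun U hU h hx a => ?_⟩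
  have h3 : Set.range l ⊆ Set.range hU.fromSpec := by
    rw [hU.range_fromSpec]
    rintro _ ⟨p, rfl⟩
    exact (Scheme.preimage_eq_top_of_closedPoint_mem l hx).ge (Set.mem_univ p)
  have h4 := IsOpenImmersion.lift_fac hU.fromSpec l h3
  rw [← h4, ← ph_spec ε hU h, ← Category.assoc, cancel_mono,
    ← Spec.map_preimage (IsOpenImmersion.lift hU.fromSpec l h3), ← Spec.map_comp,
    Spec.map_inj] at h2
  have h5 : _ = ph ε h a := congrArg (fun g => g.hom a) h2
  rw [← h5]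
  exact Subtype.property _

theorem e_eq {J : Type} {𝒞 : Charts k K J} (N : Model 𝒞) (ε : N.X.functionField ≃+* K) (j : J)
    (h : Spec.map (CommRingCat.ofHom (𝒞.B j).val.toRingHom) ≫ N.ch j = gp ε) : N.e = ε := by
  have h1 : gp N.e = _ := N.exists_e.choose_spec j
  rw [h, gp, gp, cancel_mono, Spec.map_inj] at h1
  exact RingEquiv.ext fun a => congrArg (fun g => g.hom a) h1

end

end RV

open RV in
theorem rev {k K : Type} [Field k] [Field K] [Algebra k K] {X : Scheme.{0}} [IsIntegral X]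
    {s : X ⟶ Spec (CommRingCat.of k)} (hs : IsProjective s) (ε : X.functionField ≃+* K)
    (hε : ∀ c, ε (const s c) = algebraMap k K c) :
    ∃ (J : Type) (_ : Finite J) (𝒞 : Charts k K J) (ch : _) (h1 : _) (h2 : _) (h3 : _) (h4 : _)
      (h5 : _), (Model.mk (𝒞 := 𝒞) X s ch hs inferInstance h1 h2 h3 h4 h5).e = ε := by
  have := hs.isProper
  obtain ⟨n, U, t, hU, hc, hb, hm⟩ := cov_of_proj hs
  have hg : ∀ x i, x ∈ U i → genericPoint X ∈ U i := fun x i h =>
    (genericPoint_specializes x).mem_open (U i).2 h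
  choose B hB hB' using fun j : {j // genericPoint X ∈ U j} => exists_B ε hε (hU j) j.2
  obtain ⟨j₀, h₀⟩ := hc (genericPoint X)
  have hf : ∀ j : {j // genericPoint X ∈ U j}, ph ε h₀ (t j₀ j) ≠ 0 := fun j =>
    (((X.mem_basicOpen (t j₀ j) _ h₀).1 ((hb j₀ j).ge ⟨h₀, j.2⟩)).map ε).ne_zero
  have hr : ∀ i j : {j // genericPoint X ∈ U j},
      ph ε j.2 (t j i) = ph ε h₀ (t j₀ i) / ph ε h₀ (t j₀ j) := fun i j => by
    rw [eq_div_iff (hf j), mul_comm]
    exact (map_mul ε _ _).symm.trans (congrArg ε (hm j₀ j i _ h₀ j.2))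
  let 𝒞 : Charts k K {j // genericPoint X ∈ U j} :=
    { B := B
      f := fun j => ph ε h₀ (t j₀ j)
      f_ne := hf
      ratio := fun i j => (hB' j _).2 ⟨_, hr i j⟩
      comp := fun i j c h => by
        obtain ⟨c, rfl⟩ := (hB' i c).1 h
        obtain ⟨m, b, e⟩ := ph_pow ε (hU j) j.2 i.2 (t j i) (hb j i) c
        exact ⟨m, (hB' j _).2 ⟨b, by rw [e, hr]⟩⟩
      fg := hB
      proper := fun O hO => by
        obtain ⟨x, hx⟩ := val_ex ε hε O hO
        obtain ⟨j, hj⟩ := hc x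
        refine ⟨⟨j, hg x j hj⟩, fun c h => ?_⟩
        obtain ⟨c, rfl⟩ := (hB' _ c).1 h
        exact hx _ (hU j) _ hj c
      frac := fun j y => by
        obtain ⟨a, b, h1, h2⟩ := ph_frac ε (hU j) j.2 y
        exact ⟨_, (hB' j _).2 ⟨a, rfl⟩, _, (hB' j _).2 ⟨b, rfl⟩, h1, h2⟩ }
  let ψ : ∀ j : {j // genericPoint X ∈ U j}, Γ(X, U j) →+* B j := fun j =>
    (ph ε j.2).codRestrict (B j) fun a => (hB' j _).2 ⟨a, rfl⟩
  have hψ : ∀ j, IsIso (Spec.map (CommRingCat.ofHom (ψ j))) := fun j =>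
    isIso_SpecMap_iff.mpr ⟨fun x y h => ph_inj ε j.2 (congrArg Subtype.val h), fun c => by
      obtain ⟨z, hz⟩ := (hB' j c).1 c.2
      exact ⟨z, Subtype.ext hz⟩⟩
  have hv : ∀ j, Spec.map (CommRingCat.ofHom (𝒞.B j).val.toRingHom) ≫
      Spec.map (CommRingCat.ofHom (ψ j)) ≫ (hU j).fromSpec = gp ε := fun j => by
    rw [← ph_spec ε (hU j) j.2, ← Spec.map_comp_assoc]
    rfl
  have hR : ∀ j, Set.range (Spec.map (CommRingCat.ofHom (ψ j)) ≫ (hU j).fromSpec) = U j :=
    fun j => by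
      have := hψ j
      rw [← Scheme.Hom.coe_opensRange, Scheme.Hom.opensRange_comp_of_isIso,
        (hU j).opensRange_fromSpec]
  refine ⟨_, inferInstance, 𝒞, fun j => Spec.map (CommRingCat.ofHom (ψ j)) ≫ (hU j).fromSpec,
    fun j => ?_, fun x => ?_, fun j => ?_, fun i j => (hv i).trans (hv j).symm,
    fun i j p => ?_, ?_⟩
  · have := hψ j
    infer_instance
  · obtain ⟨j, hj⟩ := hc x
    exact ⟨⟨j, hg x j hj⟩, (hR _).ge hj⟩
  · rw [Category.assoc, ← Spec.map_preimage ((hU j).fromSpec ≫ s), ← Spec.map_comp]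
    congr 1
    exact CommRingCat.hom_ext (RingHom.ext fun c => Subtype.ext (ph_const ε hε (hU j) j.2 c))
  · rw [hR]
    have h1 : _ ∈ U j := (hR j).le ⟨p, rfl⟩
    have h2 : ψ j (t j i) = ⟨_, 𝒞.ratio i j⟩ := Subtype.ext (hr i j)
    rw [← h2]
    refine Iff.trans (b := Spec.map (CommRingCat.ofHom (ψ j)) p ∈
      (hU j).fromSpec ⁻¹ᵁ X.basicOpen (t j i)) ?_ ?_
    · rw [hb, Scheme.Hom.mem_preimage, ← Scheme.Hom.comp_apply]
      exact ⟨fun h => Opens.mem_inf.2 ⟨h1, h⟩, fun h => (Opens.mem_inf.1 h).2⟩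
    · rw [IsAffineOpen.fromSpec_preimage_basicOpen]
      rfl
  · refine e_eq _ _ ⟨j₀, h₀⟩ ?_
    exact hv ⟨j₀, h₀⟩

end Pool.Agent.MP_20d318_ag.AM
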